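import Pool.Agent.LibHE77.B2

/-!
[HE77 B4] the coefficients of the vectors of families. Proof. Let `L` be an enumeration of `T` (`T.toList`). Expand the product: `Xo {a} = cs a (Gm g) false * cs a (Gm g) true`, `Xo {a, b} = ∑_h (cs a h false * cs b h true + cs b h false * cs a h true)`. The product is a sum over the choices of
`h < g a` and of an order for every pair of products of `cr i`; the states of such a product are all different (`T` is admissible), by `prod_vac` the vector is `±` the indicator of the set of its states. This set is `sw g w` for `w` the word of the choice (`some none` at the sets with one element, `(h, false)` and `(h, true)` at the elements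
of the pairs, `none` elsewhere), different choices have different words. So the coefficient at `sw g w` is `± 1` if `w` is the word of a choice, that is `Cmpt g w T` (with `okw`), and zero otherwise (`sw` determines the word if `okw g w`). Suggestion: induction on `T` (remove one set `t`):
for `S` a set of states, `(Xo t ψ)(S)` is a sum of at most `2 g(a)` terms `± ψ(S \ {i, j})`, and for `S = sw g w` only the term with `i, j` the states of `w` over `t` can be nonzero, with `S \ {i, j} = sw g w'`, `w'` the word `w` without the elements of `t`, because `ψ` is supported on sets without states over `t`.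
-/

open scoped Classical

namespace Pool.Agent.LibHE77

open Pool.Agent.LibHD77.Comb (ind cf)

variable {N : ℕ} {Lb : Type} (l : Fin N → Lb) (g : Fin N → ℕ)

omit l in
private theorem B4_ix_inj {s s' : St g} : ix g s = ix g s' ↔ s = s' :=
  (Fintype.equivFin (St g)).injective.eq_iff

omit l in
private theorem B4_ix_surj (x : Fin (Fintype.card (St g))) : ∃ s : St g, ix g s = x :=
  (Fintype.equivFin (St g)).surjective x

private theorem B4_mem (w : Fin N → Option (Option (ℕ × Bool))) (s : St g) :
    ix g s ∈ sw g w ↔ w s.1 = some (some ((s.2.1 : ℕ), s.2.2)) ∨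
      (w s.1 = some none ∧ (s.2.1 : ℕ) = Gm g) := by
  rw [sw, Finset.mem_filter]
  constructor
  · rintro ⟨-, a, h, ε, he, hh⟩
    have := (B4_ix_inj g).1 he
    subst this
    exact hh
  · intro hh
    exact ⟨Finset.mem_univ _, s.1, s.2.1, s.2.2, rfl, hh⟩

private theorem B4_g_le (a : Fin N) : g a ≤ Gm g :=
  Finset.single_le_sum (f := g) (fun _ _ => Nat.zero_le _) (Finset.mem_univ a)

private theorem B4_cc {M : ℕ} (i j : Fin M) (ψ : FS M) (S : Finset (Fin M)) :
    (cr i * cr j) ψ S = if i ∈ S ∧ j ∈ S.erase i then
      sgn i S * sgn j (S.erase i) * ψ ((S.erase i).erase j) else 0 := by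
  rw [Module.End.mul_apply]
  change (if i ∈ S then sgn i S * (if j ∈ S.erase i then
    sgn j (S.erase i) * ψ ((S.erase i).erase j) else 0) else 0) = _
  by_cases h1 : i ∈ S
  · by_cases h2 : j ∈ S.erase i
    · rw [if_pos h1, if_pos h2, if_pos ⟨h1, h2⟩, mul_assoc]
    · rw [if_pos h1, if_neg h2, if_neg (fun h => h2 h.2), mul_zero]
  · rw [if_neg h1, if_neg (fun h => h1 h.1)]

private theorem B4_sgn {M : ℕ} (i : Fin M) (S : Finset (Fin M)) : sgn i S ≠ 0 := by
  rw [sgn]
  exact pow_ne_zero _ (by norm_num)

/-- the word without the coordinates of `t` -/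
private noncomputable def B4_rm (w : Fin N → Option (Option (ℕ × Bool))) (t : Finset (Fin N)) :
    Fin N → Option (Option (ℕ × Bool)) := fun c => if c ∈ t then none else w c

private theorem B4_okw_rm {w : Fin N → Option (Option (ℕ × Bool))} (hok : okw g w)
    (t : Finset (Fin N)) : okw g (B4_rm w t) := by
  intro a h ε hh
  rw [B4_rm] at hh
  by_cases ha : a ∈ t
  · rw [if_pos ha] at hh
    exact absurd hh (by simp)
  · rw [if_neg ha] at hh
    exact hok a h ε hh

private theorem B4_pair {w : Fin N → Option (Option (ℕ × Bool))} (_hok : okw g w) {a b : Fin N}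
    (hab : a ≠ b) {h : ℕ} (ha : h < g a) (hb : h < g b) (ε ε' : Bool)
    (ψ : FS (Fintype.card (St g))) :
    ((w a = some (some (h, ε)) ∧ w b = some (some (h, ε'))) →
      ∃ κ : ℚ, κ ≠ 0 ∧ (cs g a h ε * cs g b h ε') ψ (sw g w) = κ * ψ (sw g (B4_rm w {a, b}))) ∧
    (¬ (w a = some (some (h, ε)) ∧ w b = some (some (h, ε'))) →
      (cs g a h ε * cs g b h ε') ψ (sw g w) = 0) := by
  have h1 : h < Gm g + 1 := lt_of_lt_of_le ha ((B4_g_le g a).trans (Nat.le_succ _))
  have hne : h ≠ Gm g := (lt_of_lt_of_le ha (B4_g_le g a)).ne
  have e1 : cs g a h ε = cr (ix g (a, ⟨h, h1⟩, ε)) := by rw [cs, dif_pos h1]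
  have e2 : cs g b h ε' = cr (ix g (b, ⟨h, h1⟩, ε')) := by rw [cs, dif_pos h1]
  have m1 : ix g (a, ⟨h, h1⟩, ε) ∈ sw g w ↔ w a = some (some (h, ε)) := by
    rw [B4_mem]
    constructor
    · rintro (h2 | h2)
      · exact h2
      · exact absurd h2.2 hne
    · exact fun h2 => Or.inl h2
  have m2 : ix g (b, ⟨h, h1⟩, ε') ∈ (sw g w).erase (ix g (a, ⟨h, h1⟩, ε)) ↔
      w b = some (some (h, ε')) := by
    rw [Finset.mem_erase, B4_mem]
    constructor
    · rintro ⟨-, h2 | h2⟩
      · exact h2
      · exact absurd h2.2 hne
    · intro h2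
      refine ⟨fun h3 => hab ?_, Or.inl h2⟩
      exact (congrArg Prod.fst ((B4_ix_inj g).1 h3)).symm
  rw [e1, e2, B4_cc]
  constructor
  · intro hh
    rw [if_pos ⟨m1.2 hh.1, m2.2 hh.2⟩]
    refine ⟨sgn (ix g (a, ⟨h, h1⟩, ε)) (sw g w) *
      sgn (ix g (b, ⟨h, h1⟩, ε')) ((sw g w).erase (ix g (a, ⟨h, h1⟩, ε))),
      mul_ne_zero (B4_sgn _ _) (B4_sgn _ _), ?_⟩
    congr 2
    ext x
    obtain ⟨⟨c, k, δ⟩, rfl⟩ := B4_ix_surj g x
    rw [Finset.mem_erase, Finset.mem_erase, B4_mem, B4_mem]
    simp only [B4_rm, Finset.mem_insert, Finset.mem_singleton]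
    by_cases hc : c = a ∨ c = b
    · rw [if_pos hc]
      simp only [reduceCtorEq, false_and, or_self, iff_false]
      rintro ⟨n1, n2, h3 | h3⟩
      · rcases hc with rfl | rfl
        · rw [hh.1] at h3
          simp only [Option.some.injEq, Prod.mk.injEq] at h3
          apply n2
          congr 1
          ext <;> simp [h3.1, h3.2]
        · rw [hh.2] at h3
          simp only [Option.some.injEq, Prod.mk.injEq] at h3
          apply n1
          congr 1
          ext <;> simp [h3.1, h3.2]
      · rcases hc with rfl | rfl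
        · rw [hh.1] at h3
          simp at h3
        · rw [hh.2] at h3
          simp at h3
    · rw [if_neg hc]
      constructor
      · rintro ⟨-, -, h3⟩
        exact h3
      · intro h3
        refine ⟨fun h4 => hc (Or.inr ?_), fun h4 => hc (Or.inl ?_), h3⟩
        · exact congrArg Prod.fst ((B4_ix_inj g).1 h4)
        · exact congrArg Prod.fst ((B4_ix_inj g).1 h4)
  · intro hh
    rw [if_neg (fun h3 => hh ⟨m1.1 h3.1, m2.1 h3.2⟩)]

private theorem B4_single {w : Fin N → Option (Option (ℕ × Bool))} (hok : okw g w) (a : Fin N)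
    (ψ : FS (Fintype.card (St g))) :
    (w a = some none →
      ∃ κ : ℚ, κ ≠ 0 ∧ (cs g a (Gm g) false * cs g a (Gm g) true) ψ (sw g w) =
        κ * ψ (sw g (B4_rm w {a}))) ∧
    (¬ w a = some none → (cs g a (Gm g) false * cs g a (Gm g) true) ψ (sw g w) = 0) := by
  have h1 : Gm g < Gm g + 1 := Nat.lt_succ_self _
  have hne : ∀ ε, w a ≠ some (some (Gm g, ε)) := by
    intro ε hh
    exact absurd (hok a _ ε hh) (not_lt.2 (B4_g_le g a))
  have e1 : ∀ ε, cs g a (Gm g) ε = cr (ix g (a, ⟨Gm g, h1⟩, ε)) := by
    intro ε
    rw [cs, dif_pos h1]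
  have m1 : ix g (a, ⟨Gm g, h1⟩, false) ∈ sw g w ↔ w a = some none := by
    rw [B4_mem]
    constructor
    · rintro (h2 | h2)
      · exact absurd h2 (hne _)
      · exact h2.1
    · exact fun h2 => Or.inr ⟨h2, rfl⟩
  have m2 : ix g (a, ⟨Gm g, h1⟩, true) ∈ (sw g w).erase (ix g (a, ⟨Gm g, h1⟩, false)) ↔
      w a = some none := by
    rw [Finset.mem_erase, B4_mem]
    constructor
    · rintro ⟨-, h2 | h2⟩
      · exact absurd h2 (hne _)
      · exact h2.1
    · intro h2
      refine ⟨fun h3 => ?_, Or.inr ⟨h2, rfl⟩⟩
      have := congrArg (fun s : St g => s.2.2) ((B4_ix_inj g).1 h3)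
      exact absurd this (by simp)
  rw [e1, e1, B4_cc]
  constructor
  · intro hh
    rw [if_pos ⟨m1.2 hh, m2.2 hh⟩]
    refine ⟨sgn (ix g (a, ⟨Gm g, h1⟩, false)) (sw g w) *
      sgn (ix g (a, ⟨Gm g, h1⟩, true)) ((sw g w).erase (ix g (a, ⟨Gm g, h1⟩, false))),
      mul_ne_zero (B4_sgn _ _) (B4_sgn _ _), ?_⟩
    congr 2
    ext x
    obtain ⟨⟨c, k, δ⟩, rfl⟩ := B4_ix_surj g x
    rw [Finset.mem_erase, Finset.mem_erase, B4_mem, B4_mem]
    simp only [B4_rm, Finset.mem_singleton]
    by_cases hc : c = a
    · subst hc
      rw [if_pos rfl]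
      simp only [reduceCtorEq, false_and, or_self, iff_false]
      rintro ⟨n1, n2, h3 | h3⟩
      · rw [hh] at h3
        simp at h3
      · cases δ
        · apply n2
          congr 1
          ext <;> simp [h3.2]
        · apply n1
          congr 1
          ext <;> simp [h3.2]
    · rw [if_neg hc]
      constructor
      · rintro ⟨-, -, h3⟩
        exact h3
      · intro h3
        refine ⟨fun h4 => hc ?_, fun h4 => hc ?_, h3⟩
        · exact congrArg Prod.fst ((B4_ix_inj g).1 h4)
        · exact congrArg Prod.fst ((B4_ix_inj g).1 h4)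
  · intro hh
    rw [if_neg (fun h3 => hh (m1.1 h3.1))]

/-- the local condition at `t` -/
private def B4_loc (w : Fin N → Option (Option (ℕ × Bool))) (t : Finset (Fin N)) : Prop :=
  (∀ a, t = {a} → w a = some none) ∧
  ∀ a b, a ≠ b → t = {a, b} → ∃ h ε, h < g a ∧ w a = some (some (h, ε)) ∧
    w b = some (some (h, !ε))

private theorem B4_one (hg : ∀ a b, l a = l b → g a = g b)
    {w : Fin N → Option (Option (ℕ × Bool))} (hok : okw g w) (t : Finset (Fin N))
    (ht : (t.card = 1 ∨ t.card = 2) ∧ ∀ a ∈ t, ∀ b ∈ t, l a = l b)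
    (ψ : FS (Fintype.card (St g))) :
    (B4_loc g w t → ∃ κ : ℚ, κ ≠ 0 ∧ Xo l g t ψ (sw g w) = κ * ψ (sw g (B4_rm w t))) ∧
    (¬ B4_loc g w t → Xo l g t ψ (sw g w) = 0) := by
  obtain ⟨ht1 | ht2, hl⟩ := ht
  · obtain ⟨a, rfl⟩ := Finset.card_eq_one.1 ht1
    have e1 : Xo l g {a} = cs g a (Gm g) false * cs g a (Gm g) true := by
      rw [Xo, if_pos ht1, Finset.sum_singleton]
    have e2 : B4_loc g w {a} ↔ w a = some none := by
      constructor
      · exact fun h => h.1 a rfl
      · intro h
        refine ⟨fun b hb => ?_, fun b c hbc hb => ?_⟩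
        · rw [← Finset.singleton_injective hb]
          exact h
        · exfalso
          rw [hb, Finset.card_pair hbc] at ht1
          omega
    rw [e1, e2]
    exact B4_single g hok a ψ
  · obtain ⟨a, b, hab, rfl⟩ := Finset.card_eq_two.1 ht2
    have hlab : l a = l b := hl a (by simp) b (by simp)
    have hgab : g a = g b := hg a b hlab
    have e1 : Xo l g {a, b} = (∑ h ∈ Finset.range (g a), cs g a h false * cs g b h true) +
        ∑ h ∈ Finset.range (g a), cs g b h false * cs g a h true := by
      rw [Xo, if_neg (by rw [ht2]; norm_num), if_pos ht2, Finset.sum_pair hab]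
      have r1 : ({a, b} : Finset (Fin N)).erase a = {b} := by
        ext c
        simp only [Finset.mem_erase, Finset.mem_insert, Finset.mem_singleton]
        constructor
        · rintro ⟨h1, h2 | h2⟩
          · exact absurd h2 h1
          · exact h2
        · rintro rfl
          exact ⟨hab.symm, Or.inr rfl⟩
      have r2 : ({a, b} : Finset (Fin N)).erase b = {a} := by
        ext c
        simp only [Finset.mem_erase, Finset.mem_insert, Finset.mem_singleton]
        constructor
        · rintro ⟨h1, h2 | h2⟩
          · exact h2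
          · exact absurd h2 h1
        · rintro rfl
          exact ⟨hab, Or.inl rfl⟩
      rw [r1, r2, Finset.sum_singleton, Finset.sum_singleton, if_pos hlab, if_pos hlab.symm,
        ← hgab]
    have e2 : Xo l g {a, b} ψ (sw g w) =
        (∑ h ∈ Finset.range (g a), (cs g a h false * cs g b h true) ψ (sw g w)) +
        ∑ h ∈ Finset.range (g a), (cs g b h false * cs g a h true) ψ (sw g w) := by
      rw [e1, LinearMap.add_apply, LinearMap.sum_apply, LinearMap.sum_apply, Pi.add_apply,
        Finset.sum_apply, Finset.sum_apply]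
    have hloc : B4_loc g w {a, b} ↔ ∃ h ε, h < g a ∧ w a = some (some (h, ε)) ∧
        w b = some (some (h, !ε)) := by
      constructor
      · exact fun h => h.2 a b hab rfl
      · rintro ⟨h, ε, hh, h1, h2⟩
        refine ⟨fun c hc => ?_, fun c d hcd hc => ?_⟩
        · exfalso
          rw [hc, Finset.card_singleton] at ht2
          omega
        · have hcm : c ∈ ({a, b} : Finset (Fin N)) := by rw [hc]; simp
          have hdm : d ∈ ({a, b} : Finset (Fin N)) := by rw [hc]; simp
          simp only [Finset.mem_insert, Finset.mem_singleton] at hcm hdm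
          rcases hcm with rfl | rfl
          · rcases hdm with rfl | rfl
            · exact absurd rfl hcd
            · exact ⟨h, ε, hh, h1, h2⟩
          · rcases hdm with rfl | rfl
            · refine ⟨h, !ε, hgab ▸ hh, h2, ?_⟩
              rw [Bool.not_not]
              exact h1
            · exact absurd rfl hcd
    rw [hloc]
    constructor
    · rintro ⟨h, ε, hh, h1, h2⟩
      have hhb : h < g b := hgab ▸ hh
      cases ε
      · obtain ⟨κ, hκ, he⟩ := (B4_pair g hok hab hh hhb false true ψ).1 ⟨h1, h2⟩
        refine ⟨κ, hκ, ?_⟩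
        rw [e2, Finset.sum_eq_single h, he, Finset.sum_eq_zero, add_zero]
        · intro k hk
          have hk' := Finset.mem_range.1 hk
          refine (B4_pair g hok hab.symm (hgab ▸ hk') hk' false true ψ).2 ?_
          rintro ⟨h3, -⟩
          rw [h2] at h3
          simp at h3
        · intro k hk hkh
          have hk' := Finset.mem_range.1 hk
          refine (B4_pair g hok hab hk' (hgab ▸ hk') false true ψ).2 ?_
          rintro ⟨h3, -⟩
          rw [h1] at h3
          simp only [Option.some.injEq, Prod.mk.injEq, and_true] at h3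
          exact hkh h3.symm
        · intro hk
          exact absurd (Finset.mem_range.2 hh) hk
      · obtain ⟨κ, hκ, he⟩ := (B4_pair g hok hab.symm hhb hh false true ψ).1 ⟨h2, h1⟩
        rw [Finset.pair_comm b a] at he
        refine ⟨κ, hκ, ?_⟩
        rw [e2, Finset.sum_eq_zero (s := Finset.range (g a)), zero_add, Finset.sum_eq_single h, he]
        · intro k hk hkh
          have hk' := Finset.mem_range.1 hk
          refine (B4_pair g hok hab.symm (hgab ▸ hk') hk' false true ψ).2 ?_
          rintro ⟨-, h3⟩
          rw [h1] at h3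
          simp only [Option.some.injEq, Prod.mk.injEq, and_true] at h3
          exact hkh h3.symm
        · intro hk
          exact absurd (Finset.mem_range.2 hh) hk
        · intro k hk
          have hk' := Finset.mem_range.1 hk
          refine (B4_pair g hok hab hk' (hgab ▸ hk') false true ψ).2 ?_
          rintro ⟨h3, -⟩
          rw [h1] at h3
          simp at h3
    · intro hn
      rw [e2, Finset.sum_eq_zero, Finset.sum_eq_zero, add_zero]
      · intro k hk
        have hk' := Finset.mem_range.1 hk
        refine (B4_pair g hok hab.symm (hgab ▸ hk') hk' false true ψ).2 ?_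
        rintro ⟨h3, h4⟩
        exact hn ⟨k, true, hk', h4, h3⟩
      · intro k hk
        have hk' := Finset.mem_range.1 hk
        refine (B4_pair g hok hab hk' (hgab ▸ hk') false true ψ).2 ?_
        rintro ⟨h3, h4⟩
        exact hn ⟨k, false, hk', h3, h4⟩

private theorem B4_cmpt {w : Fin N → Option (Option (ℕ × Bool))} {t : Finset (Fin N)}
    {T : Finset (Finset (Fin N))} (ht : t ∉ T) (h : Adm l (insert t T)) :
    Cmpt g w (insert t T) ↔ B4_loc g w t ∧ Cmpt g (B4_rm w t) T := by
  have hdis : ∀ t' ∈ T, ∀ a ∈ t, a ∉ t' := by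
    intro t' ht' a ha ha'
    have hne : t ≠ t' := fun h0 => ht (h0 ▸ ht')
    exact Finset.disjoint_left.1 (h.2 t (Finset.mem_insert_self _ _) t'
      (Finset.mem_insert_of_mem ht') hne) ha ha'
  have hrm1 : ∀ a, a ∈ t → B4_rm w t a = none := fun a ha => by rw [B4_rm, if_pos ha]
  have hrm2 : ∀ a, a ∉ t → B4_rm w t a = w a := fun a ha => by rw [B4_rm, if_neg ha]
  have hcard := (h.1 t (Finset.mem_insert_self _ _)).1
  constructor
  · rintro ⟨c1, c2, c3⟩
    refine ⟨⟨?_, ?_⟩, ?_, ?_, ?_⟩
    · intro a ha
      exact (c2 a).2 (by rw [ha]; exact Finset.mem_insert_self _ _)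
    · intro a b hab ha
      exact c3 a b hab (by rw [ha]; exact Finset.mem_insert_self _ _)
    · intro a
      by_cases ha : a ∈ t
      · rw [hrm1 a ha]
        exact ⟨fun _ t' ht' => hdis t' ht' a ha, fun _ => rfl⟩
      · rw [hrm2 a ha, c1 a]
        constructor
        · exact fun h1 t' ht' => h1 t' (Finset.mem_insert_of_mem ht')
        · intro h1 t' ht'
          rcases Finset.mem_insert.1 ht' with rfl | h2
          · exact ha
          · exact h1 t' h2
    · intro a
      by_cases ha : a ∈ t
      · rw [hrm1 a ha]
        constructor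
        · intro h1
          exact absurd h1 (by simp)
        · intro h1
          exact absurd (Finset.mem_singleton_self a) (hdis _ h1 a ha)
      · rw [hrm2 a ha, c2 a, Finset.mem_insert]
        constructor
        · rintro (h1 | h1)
          · exact absurd (by rw [← h1]; exact Finset.mem_singleton_self a) ha
          · exact h1
        · exact Or.inr
    · intro a b hab h1
      have ha : a ∉ t := fun ha => hdis _ h1 a ha (by simp)
      have hb : b ∉ t := fun hb => hdis _ h1 b hb (by simp)
      rw [hrm2 a ha, hrm2 b hb]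
      exact c3 a b hab (Finset.mem_insert_of_mem h1)
  · rintro ⟨⟨l1, l2⟩, c1, c2, c3⟩
    have hw1 : ∀ a ∈ t, w a ≠ none ∧ (w a = some none ↔ t = {a}) := by
      intro a ha
      rcases hcard with hc | hc
      · obtain ⟨b, rfl⟩ := Finset.card_eq_one.1 hc
        have hab := Finset.mem_singleton.1 ha
        subst hab
        rw [l1 a rfl]
        simp
      · obtain ⟨b, c, hbc, hbc'⟩ := Finset.card_eq_two.1 hc
        have hne : t ≠ {a} := by
          intro h0
          rw [h0, Finset.card_singleton] at hc
          omega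
        rw [hbc'] at ha
        rcases Finset.mem_insert.1 ha with rfl | ha
        · obtain ⟨k, ε, -, h1, -⟩ := l2 a c hbc hbc'
          rw [h1]
          simp [hne]
        · have hac := Finset.mem_singleton.1 ha
          subst hac
          obtain ⟨k, ε, -, h1, -⟩ := l2 a b hbc.symm (by rw [hbc', Finset.pair_comm])
          rw [h1]
          simp [hne]
    refine ⟨?_, ?_, ?_⟩
    · intro a
      by_cases ha : a ∈ t
      · constructor
        · intro h1
          exact absurd h1 (hw1 a ha).1
        · intro h1
          exact absurd ha (h1 t (Finset.mem_insert_self _ _))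
      · have h1 := c1 a
        rw [hrm2 a ha] at h1
        rw [h1]
        constructor
        · intro h2 t' ht'
          rcases Finset.mem_insert.1 ht' with rfl | h3
          · exact ha
          · exact h2 t' h3
        · exact fun h2 t' ht' => h2 t' (Finset.mem_insert_of_mem ht')
    · intro a
      by_cases ha : a ∈ t
      · rw [(hw1 a ha).2, Finset.mem_insert]
        constructor
        · exact fun h1 => Or.inl h1.symm
        · rintro (h1 | h1)
          · exact h1.symm
          · exact absurd (Finset.mem_singleton_self a) (hdis _ h1 a ha)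
      · have h1 := c2 a
        rw [hrm2 a ha] at h1
        rw [h1, Finset.mem_insert]
        constructor
        · exact Or.inr
        · rintro (h2 | h2)
          · exact absurd (by rw [← h2]; exact Finset.mem_singleton_self a) ha
          · exact h2
    · intro a b hab h1
      rcases Finset.mem_insert.1 h1 with h2 | h2
      · exact l2 a b hab h2.symm
      · have ha : a ∉ t := fun ha => hdis _ h2 a ha (by simp)
        have hb : b ∉ t := fun hb => hdis _ h2 b hb (by simp)
        have h3 := c3 a b hab h2
        rw [hrm2 a ha, hrm2 b hb] at h3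
        exact h3

private theorem B4_adm_sub {T T' : Finset (Finset (Fin N))} (hTT : T' ⊆ T) (h : Adm l T) :
    Adm l T' :=
  ⟨fun t ht => h.1 t (hTT ht), fun t ht t' ht' => h.2 t (hTT ht) t' (hTT ht')⟩

private theorem B4_main (hg : ∀ a b, l a = l b → g a = g b) (L : List (Finset (Fin N))) :
    ∀ (w : Fin N → Option (Option (ℕ × Bool))), okw g w → L.Nodup → Adm l L.toFinset →
      (Cmpt g w L.toFinset → ((L.map (Xo l g)).prod (vc _)) (sw g w) ≠ 0) ∧
      (¬ Cmpt g w L.toFinset → ((L.map (Xo l g)).prod (vc _)) (sw g w) = 0) := by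
  induction L with
  | nil =>
    intro w hok _ _
    have e1 : ((([] : List (Finset (Fin N))).map (Xo l g)).prod (vc _)) (sw g w) =
        if sw g w = ∅ then 1 else 0 := rfl
    have e2 : sw g w = ∅ ↔ Cmpt g w ([] : List (Finset (Fin N))).toFinset := by
      constructor
      · intro h0
        have hnone : ∀ a, w a = none := by
          intro a
          rcases hwa : w a with _ | _ | ⟨h, ε⟩
          · rfl
          · exfalso
            have : ix g (a, ⟨Gm g, Nat.lt_succ_self _⟩, false) ∈ sw g w := by
              rw [B4_mem]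
              exact Or.inr ⟨hwa, rfl⟩
            rw [h0] at this
            exact absurd this (Finset.notMem_empty _)
          · exfalso
            have h1 : h < Gm g + 1 :=
              lt_of_lt_of_le (hok a h ε hwa) ((B4_g_le g a).trans (Nat.le_succ _))
            have : ix g (a, ⟨h, h1⟩, ε) ∈ sw g w := by
              rw [B4_mem]
              exact Or.inl hwa
            rw [h0] at this
            exact absurd this (Finset.notMem_empty _)
        refine ⟨fun a => ?_, fun a => ?_, fun a b _ h1 => ?_⟩
        · simp [hnone a]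
        · simp [hnone a]
        · simp at h1
      · rintro ⟨c1, -, -⟩
        rw [Finset.eq_empty_iff_forall_notMem]
        intro x hx
        obtain ⟨s, rfl⟩ := B4_ix_surj g x
        rw [B4_mem, (c1 s.1).2 (by simp)] at hx
        simp at hx
    rw [e1, ← e2]
    constructor
    · intro h0
      rw [if_pos h0]
      exact one_ne_zero
    · intro h0
      rw [if_neg h0]
  | cons t L ih =>
    intro w hok hL h
    rw [List.toFinset_cons] at h ⊢
    have htL : t ∉ L.toFinset := by
      rw [List.mem_toFinset]
      exact (List.nodup_cons.1 hL).1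
    have hone := B4_one l g hg hok t (h.1 t (Finset.mem_insert_self _ _))
      ((L.map (Xo l g)).prod (vc _))
    have ih' := ih (B4_rm w t) (B4_okw_rm g hok t) (List.nodup_cons.1 hL).2
      (B4_adm_sub l (Finset.subset_insert _ _) h)
    rw [List.map_cons, List.prod_cons, Module.End.mul_apply, B4_cmpt l g htL h]
    constructor
    · rintro ⟨h1, h2⟩
      obtain ⟨κ, hκ, he⟩ := hone.1 h1
      rw [he]
      exact mul_ne_zero hκ (ih'.1 h2)
    · intro hn
      by_cases h1 : B4_loc g w t
      · obtain ⟨κ, hκ, he⟩ := hone.1 h1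
        rw [he, ih'.2 (fun h2 => hn ⟨h1, h2⟩), mul_zero]
      · exact hone.2 h1

theorem co_ne_o (hg : ∀ a b, l a = l b → g a = g b) (w : Fin N → Option (Option (ℕ × Bool)))
    (L : List (Finset (Fin N))) (hL : L.Nodup) (h : Adm l L.toFinset) (hw : Cmpt g w L.toFinset) :
    ((L.map (Xo l g)).prod (vc _)) (sw g w) ≠ 0 := by
  have hok : okw g w := by
    intro a k ε hh
    have h1 : ¬ ∀ t ∈ L.toFinset, a ∉ t := by
      rw [← hw.1 a, hh]
      simp
    push Not at h1
    obtain ⟨t, ht, hat⟩ := h1
    rcases (h.1 t ht).1 with hc | hc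
    · obtain ⟨b, rfl⟩ := Finset.card_eq_one.1 hc
      have hab := Finset.mem_singleton.1 hat
      subst hab
      have h2 := (hw.2.1 a).2 ht
      rw [hh] at h2
      simp at h2
    · obtain ⟨b, c, hbc, rfl⟩ := Finset.card_eq_two.1 hc
      rcases Finset.mem_insert.1 hat with hab | hac
      · subst hab
        obtain ⟨k', ε', hk, h2, -⟩ := hw.2.2 a c hbc ht
        rw [hh] at h2
        simp only [Option.some.injEq, Prod.mk.injEq] at h2
        rw [h2.1]
        exact hk
      · have hac' := Finset.mem_singleton.1 hac
        subst hac'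
        obtain ⟨k', ε', hk, h2, -⟩ := hw.2.2 a b hbc.symm (by rw [Finset.pair_comm]; exact ht)
        rw [hh] at h2
        simp only [Option.some.injEq, Prod.mk.injEq] at h2
        rw [h2.1]
        exact hk
  exact (B4_main l g hg L w hok hL h).1 hw

theorem co_zero_o (hg : ∀ a b, l a = l b → g a = g b) (w : Fin N → Option (Option (ℕ × Bool)))
    (hok : okw g w) (L : List (Finset (Fin N))) (hL : L.Nodup) (h : Adm l L.toFinset)
    (hw : ¬ Cmpt g w L.toFinset) : ((L.map (Xo l g)).prod (vc _)) (sw g w) = 0 :=
  (B4_main l g hg L w hok hL h).2 hw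

end Pool.Agent.LibHE77
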