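import Pool.Agent.LibHE77.B3
import Pool.Agent.LibHE77.B4

/-!
[HE77 B5] the structure `Fk` exists. Proof. `R = Ev g` with the commutative ring structure (`Algebra.adjoinCommRingOfComm` or by hand from `Ev_comm`), acting on `F = FS _` (`Subalgebra` action of `Module.End`), `X t = ⟨Xo l g t, Xo_mem⟩`, `Y t = Yo l g t`, `B = Bf _`, `Θ v = ⟨Th l g v, Th_mem⟩` (a quadratic map: `QuadraticMap.ofPolar` or `LinearMap.BilinMap.toQuadraticMap` of
the bilinear map `(v, v') ↦ ∑_(a, b) v_a v'_b ...`), `co w ψ = ψ (sw g w)` if `okw g w` and `0` otherwise (if `¬ okw g w` then `Cmpt g w T` is false). `Sb X s` maps into `Sx l g s` under the inclusion (`Subalgebra.map`, `AlgHom.map_adjoin`). The product over `T` is the product of the list `T.toList`.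
-/

open scoped Classical

namespace Pool.Agent.LibHE77

open Pool.Agent.LibHD77.Comb (ind cf)

variable {N : ℕ} {Lb : Type}

theorem b5_ring (g : Fin N → ℕ) : ∃ (R : Type) (_ : CommRing R) (_ : Algebra ℚ R)
    (φ : R →ₐ[ℚ] Module.End ℚ (FS (Fintype.card (St g)))), Function.Injective φ ∧
    ∀ x ∈ Ev g, ∃ r, φ r = x := by
  have hcomm : ∀ a ∈ {x : Module.End ℚ (FS (Fintype.card (St g))) | ∃ i j, x = cr i * cr j},
      ∀ b ∈ {x : Module.End ℚ (FS (Fintype.card (St g))) | ∃ i j, x = cr i * cr j},
      a * b = b * a := by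
    intro a ha b hb
    exact Ev_comm g a b (Algebra.subset_adjoin ha) (Algebra.subset_adjoin hb)
  let cR : CommRing (Ev g) :=
    { (inferInstance : Ring (Ev g)) with
      mul_comm := fun x y => Subtype.ext (Ev_comm g x y x.2 y.2) }
  refine ⟨Ev g, cR, (inferInstance : Algebra ℚ (Ev g)), (Ev g).val, Subtype.val_injective, ?_⟩
  intro x hx
  exact ⟨⟨x, hx⟩, rfl⟩

theorem b5_cs_mem (g : Fin N → ℕ) (a b : Fin N) (h h' : ℕ) (ε ε' : Bool) :
    cs g a h ε * cs g b h' ε' ∈ Ev g := by
  unfold cs
  by_cases h1 : h < Gm g + 1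
  · by_cases h2 : h' < Gm g + 1
    · rw [dif_pos h1, dif_pos h2]
      exact Algebra.subset_adjoin ⟨_, _, rfl⟩
    · rw [dif_neg h2, mul_zero]
      exact (Ev g).zero_mem
  · rw [dif_neg h1, zero_mul]
    exact (Ev g).zero_mem

theorem b5_okw {l : Fin N → Lb} {g : Fin N → ℕ} {w : Fin N → Option (Option (ℕ × Bool))}
    {T : Finset (Finset (Fin N))} (hT : Adm l T) (hw : Cmpt g w T) : okw g w := by
  intro a h ε ha
  have h1 : ¬ ∀ t ∈ T, a ∉ t := by
    intro hh
    have := (hw.1 a).mpr hh
    rw [ha] at this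
    exact absurd this (by simp)
  push Not at h1
  obtain ⟨t, ht, hat⟩ := h1
  rcases (hT.1 t ht).1 with hc | hc
  · exfalso
    obtain ⟨c, rfl⟩ := Finset.card_eq_one.mp hc
    rw [Finset.mem_singleton] at hat
    subst hat
    have := (hw.2.1 a).mpr ht
    rw [ha] at this
    exact absurd this (by simp)
  · have h2 : (t.erase a).card = 1 := by rw [Finset.card_erase_of_mem hat, hc]
    obtain ⟨b, hb⟩ := Finset.card_eq_one.mp h2
    have hb' : b ∈ t.erase a := by rw [hb]; exact Finset.mem_singleton_self b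
    have hba : b ≠ a := Finset.ne_of_mem_erase hb'
    have ht' : t = {a, b} := by
      rw [← Finset.insert_erase hat, hb]
    rw [ht'] at ht
    obtain ⟨h', ε', hh1, hh2, _⟩ := hw.2.2 a b hba.symm ht
    rw [ha] at hh2
    have hh3 : (h, ε) = (h', ε') := Option.some_injective _ (Option.some_injective _ hh2)
    rw [(Prod.mk.inj hh3).1]
    exact hh1

theorem exists_fk (l : Fin N → Lb) (g : Fin N → ℕ) (hg : ∀ a b, l a = l b → g a = g b) :
    Nonempty (Fk l g) := by
  obtain ⟨R, cR, aR, φ, hinj, hsurj⟩ := b5_ring g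
  let mR : Module R (FS (Fintype.card (St g))) :=
    Module.compHom (FS (Fintype.card (St g))) (φ : R →+* Module.End ℚ (FS (Fintype.card (St g))))
  have hact : ∀ (r : R) (ψ : FS (Fintype.card (St g))), r • ψ = φ r ψ := fun _ _ => rfl
  choose X hX using fun t : Finset (Fin N) => hsurj _ (Xo_mem l g t)
  have hZmem : ∀ a b : Fin N,
      ∑ h ∈ Finset.range (g a), cs g a h false * cs g b h true ∈ Ev g := fun a b =>
    (Ev g).sum_mem fun h _ => b5_cs_mem g a b h h false true
  choose Z hZ using fun a b : Fin N => hsurj _ (hZmem a b)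
  have hSb : ∀ (s : Finset (Fin N)) (r : R), r ∈ Sb X s → φ r ∈ Sx l g s := by
    intro s r hr
    have h1 : φ r ∈ (Sb X s).map φ := ⟨r, hr, rfl⟩
    refine (?_ : (Sb X s).map φ ≤ Sx l g s) h1
    unfold Sb Sx
    rw [AlgHom.map_adjoin]
    apply Algebra.adjoin_mono
    rintro _ ⟨x, ⟨t, ht, rfl⟩, rfl⟩
    exact ⟨t, ht, hX t⟩
  let Bil : (Fin N → ℤ) →ₗ[ℤ] (Fin N → ℤ) →ₗ[ℤ] R := LinearMap.mk₂ ℤ
    (fun v w => ∑ a, ∑ b, if l a = l b then (v a * w b) • Z a b else 0)
    (by
      intro v v' w
      rw [← Finset.sum_add_distrib]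
      refine Finset.sum_congr rfl fun a _ => ?_
      rw [← Finset.sum_add_distrib]
      refine Finset.sum_congr rfl fun b _ => ?_
      split_ifs
      · rw [Pi.add_apply, add_mul, add_smul]
      · rw [add_zero])
    (by
      intro c v w
      rw [Finset.smul_sum]
      refine Finset.sum_congr rfl fun a _ => ?_
      rw [Finset.smul_sum]
      refine Finset.sum_congr rfl fun b _ => ?_
      split_ifs
      · rw [Pi.smul_apply, smul_eq_mul, mul_assoc, mul_smul]
      · rw [smul_zero])
    (by
      intro v w w'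
      rw [← Finset.sum_add_distrib]
      refine Finset.sum_congr rfl fun a _ => ?_
      rw [← Finset.sum_add_distrib]
      refine Finset.sum_congr rfl fun b _ => ?_
      split_ifs
      · rw [Pi.add_apply, mul_add, add_smul]
      · rw [add_zero])
    (by
      intro c v w
      rw [Finset.smul_sum]
      refine Finset.sum_congr rfl fun a _ => ?_
      rw [Finset.smul_sum]
      refine Finset.sum_congr rfl fun b _ => ?_
      split_ifs
      · rw [Pi.smul_apply, smul_eq_mul, mul_left_comm, mul_smul]
      · rw [smul_zero])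
  let Θ : QuadraticMap ℤ (Fin N → ℤ) R := LinearMap.BilinMap.toQuadraticMap Bil
  have hΘ : ∀ v, φ (Θ v) = Th l g v := by
    intro v
    have h1 : Θ v = ∑ a, ∑ b, if l a = l b then (v a * v b) • Z a b else 0 := rfl
    rw [h1, map_sum]
    unfold Th
    refine Finset.sum_congr rfl fun a _ => ?_
    rw [map_sum]
    refine Finset.sum_congr rfl fun b _ => ?_
    split_ifs
    · rw [map_zsmul, hZ]
    · rw [map_zero]
  have hprod : ∀ (T : Finset (Finset (Fin N))) , (∏ t ∈ T, X t) • vc (Fintype.card (St g)) =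
      ((T.toList.map (Xo l g)).prod (vc _)) := by
    intro T
    rw [hact, ← Finset.prod_map_toList, map_list_prod, List.map_map]
    congr 3
    funext t
    exact hX t
  refine ⟨{
    R := R
    cR := cR
    aR := aR
    F := FS (Fintype.card (St g))
    gF := inferInstance
    mF := inferInstance
    mR := mR
    tw := ⟨fun c r ψ => ?_⟩
    vac := vc _
    X := X
    X0 := ?_
    Xl := ?_
    Y := Yo l g
    B := Bf _
    adj := ?_
    pos := Bf_pos
    ys := ?_
    yp := ?_
    Θ := Θ
    Θpow := ?_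
    Θpair := ?_
    co := fun w => if okw g w then LinearMap.proj (sw g w) else 0
    co_ne := ?_
    co_zero := ?_ }⟩
  · rw [hact, hact, map_smul, LinearMap.smul_apply]
  · intro t h1 h2
    apply hinj
    rw [hX, map_zero]
    unfold Xo
    rw [if_neg h1, if_neg h2]
  · intro a b hab
    apply hinj
    have hne : a ≠ b := fun h => hab (by rw [h])
    rw [hX, map_zero]
    unfold Xo
    rw [if_neg (by rw [Finset.card_pair hne]; decide), if_pos (Finset.card_pair hne)]
    refine Finset.sum_eq_zero fun c hc => Finset.sum_eq_zero fun d hd => ?_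
    have hd1 := Finset.ne_of_mem_erase hd
    have hd2 := Finset.mem_of_mem_erase hd
    rw [Finset.mem_insert, Finset.mem_singleton] at hc hd2
    rw [if_neg]
    rcases hc with rfl | rfl
    · rcases hd2 with rfl | rfl
      · exact absurd rfl hd1
      · exact hab
    · rcases hd2 with rfl | rfl
      · exact fun h => hab h.symm
      · exact absurd rfl hd1
  · intro t ψ χ
    rw [hact, hX]
    exact Xo_adj l g t ψ χ
  · intro a r hr
    have h := ys_o l g a (φ r) (hSb _ r hr)
    simp only [hact, map_mul, hX]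
    exact h
  · intro a b hab hl r hr
    have h1 := yp_o l g hg a b hab hl (φ r) (hSb _ r hr)
    have h2 := yp_c l g hg a b hab hl (φ r) (hSb _ r hr)
    simp only [hact, map_mul, hX]
    exact ⟨h1.1, h1.2.1, h1.2.2.1, h1.2.2.2, h2⟩
  · intro a v hv
    apply hinj
    rw [map_pow, hΘ, map_zero]
    exact Th_pow l g hg a v hv
  · intro t ht
    apply hinj
    unfold qat
    rw [if_neg (by rw [ht]; decide), if_pos ht, map_sub, map_sum, hX]
    simp only [hΘ]
    exact Th_polar l g hg t ht
  · intro w T hT hw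
    rw [if_pos (b5_okw hT hw), hprod]
    refine co_ne_o l g hg w T.toList (Finset.nodup_toList T) ?_ ?_
    · rw [Finset.toList_toFinset]; exact hT
    · rw [Finset.toList_toFinset]; exact hw
  · intro w T hT hw
    by_cases hok : okw g w
    · rw [if_pos hok, hprod]
      refine co_zero_o l g hg w hok T.toList (Finset.nodup_toList T) ?_ ?_
      · rw [Finset.toList_toFinset]; exact hT
      · rw [Finset.toList_toFinset]; exact hw
    · rw [if_neg hok]
      rfl

end Pool.Agent.LibHE77
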