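import Pool.Agent.LibHE77.D3
import Pool.Agent.LibHL77.X1

/-!
[HE77 D4] the vectors of torsion combinations of diagonals are zero (assembly). Adapt the proof of `det_all` (HL77 X1): induction on `D` for all fields; `D = 0`: `det_zero` and `det2_zero` (D3). Step: `exists_ops`, `ops_congr` (D3), `ext_fnl`, `det2_step`; the labels `l` and the structure `𝔽` stay the same over `Lf k`:
`ext (Lf k) F a = ext (Lf k) F b ↔ F a = F b` (`ext_inj`), `gn (ext (Lf k) F a) = gn (F a)` (`natDegree_map`); `hval`: `ext_fnl`, `ho`: `jP_inf`, `ht`: `val_tr`.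
-/

open scoped Classical
open Polynomial

namespace Pool.Agent.LibHE77

open Pool.Agent.LibHyp34 (Hyp Pt Pic jP gn)
open Pool.Agent.LibHD77 (CH Dia cl)
open Pool.Agent.LibHL77 (pp Fnl)

theorem det2_all (D : ℕ) : ∀ (k : Type) [Field k] [CharZero k] {n : ℕ} (F : Fin n → k[X])
    [∀ a, Hyp (F a)] {Lb : Type} (l : Fin n → Lb) (_ : ∀ a b, l a = l b ↔ F a = F b)
    (i₀ : Fin n) (g : Fin n → ℕ) (_ : ∀ a, g a = gn (F a)) (𝔽 : Fk (lS l i₀) (lS g i₀))
    (lam : Fnl k),
    Det2 𝔽 (fun τ s => cl (pp τ s : Dia F D)) (fun a s => lam (F a) (jP s)) := by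
  induction D with
  | zero =>
    intro k _ _ n F _ Lb l _ i₀ g _ 𝔽 lam
    exact det2_zero 𝔽 (Pool.Agent.LibHL77.det_zero k F lam)
  | succ D ih =>
    intro k _ _ n F hF Lb l hl i₀ g hg 𝔽 lam
    obtain ⟨W, E, hops⟩ := Pool.Agent.LibHL77.exists_ops F hF D
    obtain ⟨lam', hlam'⟩ := Pool.Agent.LibHL77.ext_fnl (Pool.Agent.LibHL77.Lf k) lam
    have hF' : ∀ a, Hyp (Pool.Agent.LibHL77.ext (Pool.Agent.LibHL77.Lf k) F a) := fun a =>
      Pool.Agent.LibHL77.hyp_map (Pool.Agent.LibHL77.Lf k) (F a) (hF a)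
    have hl' : ∀ a b, l a = l b ↔ Pool.Agent.LibHL77.ext (Pool.Agent.LibHL77.Lf k) F a =
        Pool.Agent.LibHL77.ext (Pool.Agent.LibHL77.Lf k) F b := by
      intro a b
      rw [hl]
      refine ⟨fun h => ?_, fun h => Pool.Agent.LibHL77.ext_inj (Pool.Agent.LibHL77.Lf k) h⟩
      change (F a).map _ = (F b).map _
      rw [h]
    have hg' : ∀ a, g a = gn (Pool.Agent.LibHL77.ext (Pool.Agent.LibHL77.Lf k) F a) := by
      intro a
      rw [hg a]
      exact (Pool.Agent.LibHL77.gn_map (Pool.Agent.LibHL77.Lf k) (F a)).symm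
    have IH := ih (Pool.Agent.LibHL77.Lf k) (Pool.Agent.LibHL77.ext (Pool.Agent.LibHL77.Lf k) F)
      l hl' i₀ g hg' 𝔽 lam'
    have hgg : (fun a => (gn (F a) : ℤ)) = fun a => (g a : ℤ) := by
      funext a
      rw [hg a]
    rw [hgg] at hops
    have hops' := ops_congr hops hl
    refine det2_step 𝔽 hops' (val := fun a s => lam (F a) (jP s)) ?_ ?_ ?_ IH
    · intro a s
      exact hlam' (F a) s
    · intro a
      rw [Pool.Agent.LibHD77.og, LibHyp34.jP_inf, map_zero]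
    · intro a b s h
      exact Pool.Agent.LibHL77.val_tr lam (F b) (F a) ((hl a b).1 h).symm s

end Pool.Agent.LibHE77
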