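import Pool.Agent.LibHE77.A2

/-!
[HE77 A3] hafnian relations for the additional coordinate. Proof. A family of sets of the `n + 1` coordinates is `blT T₁` for a unique `T₁` if no set contains the last coordinate, and `insert (pr a) (blT T₁)` for unique
`T₁, a` if the last coordinate is in a pair. `haf_gaX`: if the last coordinate is in `H` or in a set of `T₀` all terms are zero; otherwise `H = bl H₁`, `T₀ = blT T₁`, `PM (bl H₁) = (PM H₁).image blT`.
`haf_gaS`: if the last coordinate is in `H` then `T₀ = blT T₁`, `H = insert last (bl H₁)`, the perfect matchings of `H` are the `insert (pr a) (blT M₁)`, `a ∈ H₁`, `M₁ ∈ PM (H₁.erase a)`: `h2`. If it is in no set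
all terms are zero; if it is in a pair `pr a ∈ T₀`: `h1` (for `H₁`, `T₁` with `T₀ = insert (pr a) (blT T₁)`); if `{last} ∈ T₀` zero. `gS = lS g i₀` is the genus. `theta_star`: `haf_gaS` for
`γ T a = (∏_(t ∈ T) z t) * y a` on the `T` with `a` in no set and `l a = l i₀`, zero otherwise; `h2` is `haf_zero_lin` (`m = g`), `h1` is `theta_haf`.
-/

open scoped Classical

namespace Pool.Agent.LibHE77

open Pool.Agent.LibHD77.Comb (ind cf)

variable {n : ℕ} {Lb : Type}

private theorem A3_last_bl (t : Finset (Fin n)) : Fin.last n ∉ bl t := by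
  unfold bl
  rw [Finset.mem_map]
  rintro ⟨a, -, h⟩
  exact (Fin.castSucc_lt_last a).ne h

private theorem A3_mem_bl (a : Fin n) (t : Finset (Fin n)) : a.castSucc ∈ bl t ↔ a ∈ t := by
  unfold bl
  rw [Finset.mem_map]
  constructor
  · rintro ⟨b, hb, h⟩
    have : b = a := Fin.castSucc_injective n h
    exact this ▸ hb
  · intro h
    exact ⟨a, h, rfl⟩

private theorem A3_bl_inj : Function.Injective (bl : Finset (Fin n) → Finset (Fin (n + 1))) :=
  Finset.map_injective _

private theorem A3_blT_inj :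
    Function.Injective (blT : Finset (Finset (Fin n)) → Finset (Finset (Fin (n + 1)))) :=
  Finset.image_injective A3_bl_inj

private theorem A3_mem_blT (t : Finset (Fin n)) (T : Finset (Finset (Fin n))) :
    bl t ∈ blT T ↔ t ∈ T := by
  unfold blT
  rw [Finset.mem_image]
  constructor
  · rintro ⟨s, hs, h⟩
    exact A3_bl_inj h ▸ hs
  · intro h
    exact ⟨t, h, rfl⟩

private theorem A3_last_blT {T : Finset (Finset (Fin n))} {t : Finset (Fin (n + 1))}
    (ht : t ∈ blT T) : Fin.last n ∉ t := by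
  unfold blT at ht
  obtain ⟨s, -, rfl⟩ := Finset.mem_image.1 ht
  exact A3_last_bl s

private theorem A3_card_bl (t : Finset (Fin n)) : (bl t).card = t.card := Finset.card_map _

private theorem A3_card_blT (T : Finset (Finset (Fin n))) : (blT T).card = T.card :=
  Finset.card_image_of_injective _ A3_bl_inj

private theorem A3_disj_bl (s t : Finset (Fin n)) : Disjoint (bl s) (bl t) ↔ Disjoint s t :=
  Finset.disjoint_map _

private theorem A3_blT_union (S T : Finset (Finset (Fin n))) : blT (S ∪ T) = blT S ∪ blT T :=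
  Finset.image_union _ _

private theorem A3_last_pr (a : Fin n) : Fin.last n ∈ pr a := by
  unfold pr
  simp

private theorem A3_mem_pr (a : Fin n) : a.castSucc ∈ pr a := by
  unfold pr
  simp

private theorem A3_pr_notMem (a : Fin n) (T : Finset (Finset (Fin n))) : pr a ∉ blT T :=
  fun h => A3_last_blT h (A3_last_pr a)

private theorem A3_mem_pr_iff (a b : Fin n) : b.castSucc ∈ pr a ↔ b = a := by
  unfold pr
  rw [Finset.mem_insert, Finset.mem_singleton]
  constructor
  · rintro (h | h)
    · exact Fin.castSucc_injective n h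
    · exact absurd h (Fin.castSucc_lt_last b).ne
  · rintro rfl
    exact Or.inl rfl

private theorem A3_pr_inj : Function.Injective (pr : Fin n → Finset (Fin (n + 1))) := by
  intro a b h
  rw [← A3_mem_pr_iff b a, ← h]
  exact A3_mem_pr a

private theorem A3_card_pr (a : Fin n) : (pr a).card = 2 := by
  unfold pr
  exact Finset.card_pair (Fin.castSucc_lt_last a).ne

/-- the part in the first `n` coordinates -/
private noncomputable def A3_dn (H : Finset (Fin (n + 1))) : Finset (Fin n) :=
  Finset.univ.filter fun a => a.castSucc ∈ H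

private noncomputable def A3_dnT (T : Finset (Finset (Fin (n + 1)))) : Finset (Finset (Fin n)) :=
  Finset.univ.filter fun t => bl t ∈ T

private theorem A3_mem_dn {H : Finset (Fin (n + 1))} {a : Fin n} :
    a ∈ A3_dn H ↔ a.castSucc ∈ H := by
  unfold A3_dn
  rw [Finset.mem_filter]
  exact ⟨fun h => h.2, fun h => ⟨Finset.mem_univ _, h⟩⟩

private theorem A3_mem_dnT {T : Finset (Finset (Fin (n + 1)))} {t : Finset (Fin n)} :
    t ∈ A3_dnT T ↔ bl t ∈ T := by
  unfold A3_dnT
  rw [Finset.mem_filter]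
  exact ⟨fun h => h.2, fun h => ⟨Finset.mem_univ _, h⟩⟩

private theorem A3_bl_dn {H : Finset (Fin (n + 1))} (h : Fin.last n ∉ H) : bl (A3_dn H) = H := by
  ext a
  refine Fin.lastCases ?_ (fun a => ?_) a
  · exact ⟨fun h1 => absurd h1 (A3_last_bl _), fun h1 => absurd h1 h⟩
  · rw [A3_mem_bl, A3_mem_dn]

private theorem A3_ins_dn {H : Finset (Fin (n + 1))} (h : Fin.last n ∈ H) :
    insert (Fin.last n) (bl (A3_dn H)) = H := by
  ext a
  rw [Finset.mem_insert]
  refine Fin.lastCases ?_ (fun a => ?_) a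
  · exact ⟨fun _ => h, fun _ => Or.inl rfl⟩
  · rw [A3_mem_bl, A3_mem_dn]
    constructor
    · rintro (h1 | h1)
      · exact absurd h1 (Fin.castSucc_lt_last a).ne
      · exact h1
    · exact Or.inr

private theorem A3_blT_dnT {T : Finset (Finset (Fin (n + 1)))} (h : ∀ t ∈ T, Fin.last n ∉ t) :
    blT (A3_dnT T) = T := by
  ext t
  constructor
  · intro ht
    unfold blT at ht
    obtain ⟨s, hs, rfl⟩ := Finset.mem_image.1 ht
    exact A3_mem_dnT.1 hs
  · intro ht
    have h1 : bl (A3_dn t) = t := A3_bl_dn (h t ht)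
    rw [← h1, A3_mem_blT, A3_mem_dnT, h1]
    exact ht

private theorem A3_ins_dnT {T : Finset (Finset (Fin (n + 1)))} {a : Fin n} (ha : pr a ∈ T)
    (h : ∀ t ∈ T, t ≠ pr a → Fin.last n ∉ t) : insert (pr a) (blT (A3_dnT T)) = T := by
  ext t
  rw [Finset.mem_insert]
  constructor
  · rintro (rfl | ht)
    · exact ha
    · unfold blT at ht
      obtain ⟨s, hs, rfl⟩ := Finset.mem_image.1 ht
      exact A3_mem_dnT.1 hs
  · intro ht
    by_cases h0 : t = pr a
    · exact Or.inl h0
    · right
      have h1 : bl (A3_dn t) = t := A3_bl_dn (h t ht h0)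
      rw [← h1, A3_mem_blT, A3_mem_dnT, h1]
      exact ht

private theorem A3_mem_PM {N : ℕ} {H : Finset (Fin N)} {M : Finset (Finset (Fin N))} :
    M ∈ PM H ↔ (∀ t ∈ M, t.card = 2) ∧ (∀ t ∈ M, ∀ t' ∈ M, t ≠ t' → Disjoint t t') ∧
      M.biUnion id = H := by
  unfold PM
  rw [Finset.mem_filter]
  exact ⟨fun h => h.2, fun h => ⟨Finset.mem_univ _, h⟩⟩

private theorem A3_sub {N : ℕ} {H : Finset (Fin N)} {M : Finset (Finset (Fin N))} (hM : M ∈ PM H)
    {t : Finset (Fin N)} (ht : t ∈ M) : t ⊆ H := by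
  rw [← (A3_mem_PM.1 hM).2.2]
  exact Finset.subset_biUnion_of_mem id ht

private theorem A3_biUnion_blT (T : Finset (Finset (Fin n))) :
    (blT T).biUnion id = bl (T.biUnion id) := by
  ext a
  rw [Finset.mem_biUnion]
  refine Fin.lastCases ?_ (fun a => ?_) a
  · constructor
    · rintro ⟨t, ht, h⟩
      exact absurd h (A3_last_blT ht)
    · intro h
      exact absurd h (A3_last_bl _)
  · rw [A3_mem_bl, Finset.mem_biUnion]
    constructor
    · rintro ⟨t, ht, h⟩
      unfold blT at ht
      obtain ⟨s, hs, rfl⟩ := Finset.mem_image.1 ht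
      exact ⟨s, hs, (A3_mem_bl a s).1 h⟩
    · rintro ⟨s, hs, h⟩
      exact ⟨bl s, (A3_mem_blT s T).2 hs, (A3_mem_bl a s).2 h⟩

private theorem A3_PM_blT (H : Finset (Fin n)) (M : Finset (Finset (Fin n))) :
    blT M ∈ PM (bl H) ↔ M ∈ PM H := by
  rw [A3_mem_PM, A3_mem_PM, A3_biUnion_blT]
  constructor
  · rintro ⟨h1, h2, h3⟩
    refine ⟨fun t ht => ?_, fun t ht t' ht' hne => ?_, A3_bl_inj h3⟩
    · rw [← A3_card_bl]
      exact h1 _ ((A3_mem_blT t M).2 ht)
    · rw [← A3_disj_bl]
      exact h2 _ ((A3_mem_blT t M).2 ht) _ ((A3_mem_blT t' M).2 ht') fun h => hne (A3_bl_inj h)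
  · rintro ⟨h1, h2, h3⟩
    refine ⟨fun t ht => ?_, fun t ht t' ht' hne => ?_, congrArg bl h3⟩
    · unfold blT at ht
      obtain ⟨s, hs, rfl⟩ := Finset.mem_image.1 ht
      rw [A3_card_bl]
      exact h1 s hs
    · unfold blT at ht ht'
      obtain ⟨s, hs, rfl⟩ := Finset.mem_image.1 ht
      obtain ⟨s', hs', rfl⟩ := Finset.mem_image.1 ht'
      rw [A3_disj_bl]
      exact h2 s hs s' hs' fun h => hne (congrArg bl h)

/-- the sum over the perfect matchings if the last coordinate is not in `H` -/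
private theorem A3_sum_bl {W : Type} [AddCommGroup W] (H : Finset (Fin n))
    (f : Finset (Finset (Fin (n + 1))) → W) :
    ∑ M ∈ PM (bl H), f M = ∑ M ∈ PM H, f (blT M) := by
  have h1 : PM (bl H) = (PM H).image blT := by
    ext M
    rw [Finset.mem_image]
    constructor
    · intro hM
      have h2 : blT (A3_dnT M) = M := A3_blT_dnT fun t ht hl => A3_last_bl H (A3_sub hM ht hl)
      refine ⟨A3_dnT M, ?_, h2⟩
      rw [← A3_PM_blT, h2]
      exact hM
    · rintro ⟨M, hM, rfl⟩
      exact (A3_PM_blT H M).2 hM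
  rw [h1, Finset.sum_image fun _ _ _ _ h => A3_blT_inj h]

private theorem A3_lS_cast (l : Fin n → Lb) (i₀ a : Fin n) : lS l i₀ a.castSucc = l a := by
  unfold lS
  rw [Fin.lastCases_castSucc]

private theorem A3_lS_last (l : Fin n → Lb) (i₀ : Fin n) : lS l i₀ (Fin.last n) = l i₀ := by
  unfold lS
  rw [Fin.lastCases_last]

private theorem A3_Adm {l : Fin n → Lb} {i₀ : Fin n} {T : Finset (Finset (Fin n))}
    {T' : Finset (Finset (Fin (n + 1)))} (hsub : blT T ⊆ T') (h : Adm (lS l i₀) T') :
    Adm l T := by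
  refine ⟨fun t ht => ⟨?_, fun a ha b hb => ?_⟩, fun t ht t' ht' hne => ?_⟩
  · have h1 := (h.1 _ (hsub ((A3_mem_blT t T).2 ht))).1
    rwa [A3_card_bl] at h1
  · have h1 := (h.1 _ (hsub ((A3_mem_blT t T).2 ht))).2 a.castSucc ((A3_mem_bl a t).2 ha)
      b.castSucc ((A3_mem_bl b t).2 hb)
    rwa [A3_lS_cast, A3_lS_cast] at h1
  · rw [← A3_disj_bl]
    exact h.2 _ (hsub ((A3_mem_blT t T).2 ht)) _ (hsub ((A3_mem_blT t' T).2 ht'))
      fun h => hne (A3_bl_inj h)

private theorem A3_gaX {W : Type} [AddCommGroup W] (γ : Finset (Finset (Fin n)) → W)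
    (T : Finset (Finset (Fin n))) : gaX γ (blT T) = γ T := by
  unfold gaX
  rw [Finset.sum_eq_single T]
  · rw [if_pos rfl]
  · intro T₁ _ hne
    rw [if_neg]
    intro h
    exact hne (A3_blT_inj h).symm
  · intro h
    exact absurd (Finset.mem_univ _) h

private theorem A3_gaX_zero {W : Type} [AddCommGroup W] (γ : Finset (Finset (Fin n)) → W)
    {T : Finset (Finset (Fin (n + 1)))} {t : Finset (Fin (n + 1))} (ht : t ∈ T)
    (hl : Fin.last n ∈ t) : gaX γ T = 0 := by
  unfold gaX
  refine Finset.sum_eq_zero fun T₁ _ => ?_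
  rw [if_neg]
  rintro rfl
  exact A3_last_blT ht hl

private theorem A3_gaS {W : Type} [AddCommGroup W] (γ : Finset (Finset (Fin n)) → Fin n → W)
    (T : Finset (Finset (Fin n))) (a : Fin n) : gaS γ (insert (pr a) (blT T)) = γ T a := by
  have hinj : ∀ (T₁ : Finset (Finset (Fin n))) (b : Fin n),
      insert (pr a) (blT T) = insert (pr b) (blT T₁) → T = T₁ ∧ a = b := by
    intro T₁ b h
    have h1 : a = b := by
      have h2 : pr a ∈ insert (pr b) (blT T₁) := by
        rw [← h]
        exact Finset.mem_insert_self _ _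
      rcases Finset.mem_insert.1 h2 with h3 | h3
      · exact A3_pr_inj h3
      · exact absurd h3 (A3_pr_notMem a T₁)
    subst h1
    have h2 := congrArg (fun s => s.erase (pr a)) h
    rw [Finset.erase_insert (A3_pr_notMem a T), Finset.erase_insert (A3_pr_notMem a T₁)] at h2
    exact ⟨A3_blT_inj h2, rfl⟩
  unfold gaS
  rw [Finset.sum_eq_single T]
  · rw [Finset.sum_eq_single a]
    · rw [if_pos rfl]
    · intro b _ hne
      rw [if_neg]
      intro h
      exact hne (hinj T b h).2.symm
    · intro h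
      exact absurd (Finset.mem_univ _) h
  · intro T₁ _ hne
    refine Finset.sum_eq_zero fun b _ => ?_
    rw [if_neg]
    intro h
    exact hne (hinj T₁ b h).1.symm
  · intro h
    exact absurd (Finset.mem_univ _) h

private theorem A3_gaS_zero {W : Type} [AddCommGroup W] (γ : Finset (Finset (Fin n)) → Fin n → W)
    {T : Finset (Finset (Fin (n + 1)))} (h : ∀ a, pr a ∉ T) : gaS γ T = 0 := by
  unfold gaS
  refine Finset.sum_eq_zero fun T₁ _ => Finset.sum_eq_zero fun a _ => ?_
  rw [if_neg]
  rintro rfl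
  exact h a (Finset.mem_insert_self _ _)

private theorem A3_gaS_zero' {W : Type} [AddCommGroup W] (γ : Finset (Finset (Fin n)) → Fin n → W)
    {T : Finset (Finset (Fin (n + 1)))} (h : {Fin.last n} ∈ T) : gaS γ T = 0 := by
  unfold gaS
  refine Finset.sum_eq_zero fun T₁ _ => Finset.sum_eq_zero fun a _ => ?_
  rw [if_neg]
  rintro rfl
  rcases Finset.mem_insert.1 h with h1 | h1
  · have h2 := A3_card_pr a
    rw [← h1, Finset.card_singleton] at h2
    omega
  · exact A3_last_blT h1 (Finset.mem_singleton_self _)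

theorem haf_gaX {W : Type} [AddCommGroup W] (l : Fin n → Lb) (g : Fin n → ℕ) (i₀ : Fin n) (D : ℕ)
    (γ : Finset (Finset (Fin n)) → W) (h : HafRel l g D γ) :
    HafRel (lS l i₀) (lS g i₀) D (gaX γ) := by
  intro H T₀ hH hl hcard hadm hdisj hD
  by_cases h1 : Fin.last n ∈ H
  · refine Finset.sum_eq_zero fun M hM => ?_
    have h2 := h1
    rw [← (A3_mem_PM.1 hM).2.2, Finset.mem_biUnion] at h2
    obtain ⟨t, ht, hlt⟩ := h2
    exact A3_gaX_zero γ (Finset.mem_union_right _ ht) hlt
  by_cases h2 : ∃ t ∈ T₀, Fin.last n ∈ t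
  · obtain ⟨t, ht, hlt⟩ := h2
    exact Finset.sum_eq_zero fun M _ => A3_gaX_zero γ (Finset.mem_union_left _ ht) hlt
  push Not at h2
  have e1 := A3_bl_dn h1
  have e2 := A3_blT_dnT h2
  rw [← e1, A3_sum_bl]
  have h3 : ∀ M ∈ PM (A3_dn H), gaX γ (T₀ ∪ blT M) = γ (A3_dnT T₀ ∪ M) := by
    intro M _
    rw [← A3_gaX γ, A3_blT_union, e2]
  rw [Finset.sum_congr rfl h3]
  have hcd : (A3_dn H).card = H.card := by
    rw [← A3_card_bl, e1]
  refine h (A3_dn H) (A3_dnT T₀) ?_ ?_ ?_ ?_ ?_ ?_
  · rw [← Finset.card_pos, hcd, Finset.card_pos]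
    exact hH
  · intro a ha b hb
    have := hl _ (A3_mem_dn.1 ha) _ (A3_mem_dn.1 hb)
    rwa [A3_lS_cast, A3_lS_cast] at this
  · intro a ha
    have := hcard _ (A3_mem_dn.1 ha)
    rwa [A3_lS_cast, ← hcd] at this
  · exact A3_Adm e2.le hadm
  · intro t ht
    rw [← A3_disj_bl, e1]
    exact hdisj _ (A3_mem_dnT.1 ht)
  · rw [hcd, ← A3_card_blT, e2]
    exact hD

theorem haf_gaS {W : Type} [AddCommGroup W] (l : Fin n → Lb) (g : Fin n → ℕ)
    (hg : ∀ a b, l a = l b → g a = g b) (i₀ : Fin n) (D : ℕ)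
    (γ : Finset (Finset (Fin n)) → Fin n → W)
    (h0 : ∀ T a, γ T a ≠ 0 → l a = l i₀ ∧ ∀ t ∈ T, a ∉ t)
    (h1 : ∀ (a : Fin n) (H : Finset (Fin n)) (T₀ : Finset (Finset (Fin n))), H.Nonempty →
      (∀ b ∈ H, ∀ c ∈ H, l b = l c) → (∀ b ∈ H, H.card = 2 * g b + 2) → Adm l T₀ →
      (∀ t ∈ T₀, Disjoint t H) → 2 * T₀.card + H.card = 2 * D → a ∉ H → (∀ t ∈ T₀, a ∉ t) →
      l a = l i₀ → ∑ M ∈ PM H, γ (T₀ ∪ M) a = 0)
    (h2 : ∀ (H : Finset (Fin n)) (T₀ : Finset (Finset (Fin n))), (∀ b ∈ H, l b = l i₀) →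
      H.card = 2 * g i₀ + 1 → Adm l T₀ → (∀ t ∈ T₀, Disjoint t H) →
      2 * T₀.card + H.card = 2 * D + 1 → ∑ a ∈ H, ∑ M ∈ PM (H.erase a), γ (T₀ ∪ M) a = 0) :
    HafRel (lS l i₀) (lS g i₀) (D + 1) (gaS γ) := by
  intro H T₀ hH hl hcard hadm hdisj hD
  by_cases hlast : Fin.last n ∈ H
  · -- the last coordinate is in `H`
    have hT₀ : ∀ t ∈ T₀, Fin.last n ∉ t := fun t ht hlt =>
      Finset.disjoint_left.1 (hdisj t ht) hlt hlast
    have e2 := A3_blT_dnT hT₀
    have e1 := A3_ins_dn hlast
    have hcd : H.card = (A3_dn H).card + 1 := by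
      conv_lhs => rw [← e1]
      rw [Finset.card_insert_of_notMem (A3_last_bl _), A3_card_bl]
    have hcl := hcard _ hlast
    rw [A3_lS_last] at hcl
    have key := h2 (A3_dn H) (A3_dnT T₀) (by
      intro b hb
      have := hl _ (A3_mem_dn.1 hb) _ hlast
      rwa [A3_lS_cast, A3_lS_last] at this) (by omega) (A3_Adm e2.le hadm) (by
      intro t ht
      rw [← A3_disj_bl]
      refine (hdisj _ (A3_mem_dnT.1 ht)).mono_right ?_
      conv_rhs => rw [← e1]
      exact Finset.subset_insert _ _) (by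
      have : (A3_dnT T₀).card = T₀.card := by rw [← A3_card_blT, e2]
      omega)
    rw [← key, Finset.sum_sigma']
    symm
    refine Finset.sum_bij (fun x _ => insert (pr x.1) (blT x.2)) ?_ ?_ ?_ ?_
    · rintro ⟨a, M⟩ hx
      rw [Finset.mem_sigma] at hx
      obtain ⟨ha, hM⟩ := hx
      simp only at ha hM ⊢
      obtain ⟨m1, m2, m3⟩ := A3_mem_PM.1 hM
      have hdis : ∀ s ∈ M, Disjoint (pr a) (bl s) := by
        intro s hs
        rw [Finset.disjoint_left]
        intro c
        refine Fin.lastCases ?_ (fun c => ?_) c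
        · intro _ h3
          exact A3_last_bl s h3
        · intro h3 h4
          rw [A3_mem_pr_iff] at h3
          subst h3
          have h5 := A3_sub hM hs ((A3_mem_bl c s).1 h4)
          exact (Finset.mem_erase.1 h5).1 rfl
      rw [A3_mem_PM]
      refine ⟨?_, ?_, ?_⟩
      · intro t ht
        rcases Finset.mem_insert.1 ht with rfl | ht
        · exact A3_card_pr a
        · unfold blT at ht
          obtain ⟨s, hs, rfl⟩ := Finset.mem_image.1 ht
          rw [A3_card_bl]
          exact m1 s hs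
      · intro t ht t' ht' hne
        rcases Finset.mem_insert.1 ht with rfl | ht
        · rcases Finset.mem_insert.1 ht' with rfl | ht'
          · exact absurd rfl hne
          · unfold blT at ht'
            obtain ⟨s, hs, rfl⟩ := Finset.mem_image.1 ht'
            exact hdis s hs
        · unfold blT at ht
          obtain ⟨s, hs, rfl⟩ := Finset.mem_image.1 ht
          rcases Finset.mem_insert.1 ht' with rfl | ht'
          · exact (hdis s hs).symm
          · unfold blT at ht'
            obtain ⟨s', hs', rfl⟩ := Finset.mem_image.1 ht'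
            rw [A3_disj_bl]
            exact m2 s hs s' hs' fun h => hne (congrArg bl h)
      · rw [Finset.biUnion_insert, A3_biUnion_blT, m3]
        conv_rhs => rw [← e1]
        ext c
        rw [id, Finset.mem_union, Finset.mem_insert]
        refine Fin.lastCases ?_ (fun c => ?_) c
        · exact ⟨fun _ => Or.inl rfl, fun _ => Or.inl (A3_last_pr a)⟩
        · rw [A3_mem_pr_iff, A3_mem_bl, A3_mem_bl, Finset.mem_erase]
          constructor
          · rintro (rfl | ⟨-, h3⟩)
            · exact Or.inr ha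
            · exact Or.inr h3
          · rintro (h3 | h3)
            · exact absurd h3 (Fin.castSucc_lt_last c).ne
            · by_cases h4 : c = a
              · exact Or.inl h4
              · exact Or.inr ⟨h4, h3⟩
    · rintro ⟨a, M⟩ _ ⟨b, M'⟩ _ h
      simp only at h
      have h3 : a = b := by
        have h4 : pr a ∈ insert (pr b) (blT M') := by
          rw [← h]
          exact Finset.mem_insert_self _ _
        rcases Finset.mem_insert.1 h4 with h5 | h5
        · exact A3_pr_inj h5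
        · exact absurd h5 (A3_pr_notMem a M')
      subst h3
      have h4 := congrArg (fun s => s.erase (pr a)) h
      rw [Finset.erase_insert (A3_pr_notMem a M), Finset.erase_insert (A3_pr_notMem a M')] at h4
      rw [A3_blT_inj h4]
    · intro M hM
      obtain ⟨m1, m2, m3⟩ := A3_mem_PM.1 hM
      have h3 := hlast
      rw [← m3, Finset.mem_biUnion] at h3
      obtain ⟨t₀, ht₀, hlt₀⟩ := h3
      obtain ⟨c, hc⟩ : ∃ c, t₀ = pr c := by
        obtain ⟨u, v, huv, he⟩ := Finset.card_eq_two.1 (m1 t₀ ht₀)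
        rw [id, he, Finset.mem_insert, Finset.mem_singleton] at hlt₀
        rcases hlt₀ with h4 | h4
        · have h5 : v ≠ Fin.last n := fun h => huv (h4.symm.trans h.symm)
          obtain ⟨c, rfl⟩ := Fin.exists_castSucc_eq.2 h5
          refine ⟨c, ?_⟩
          rw [he, ← h4, Finset.pair_comm]
          rfl
        · have h5 : u ≠ Fin.last n := fun h => huv (h.trans h4)
          obtain ⟨c, rfl⟩ := Fin.exists_castSucc_eq.2 h5
          refine ⟨c, ?_⟩
          rw [he, ← h4]
          rfl
      subst hc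
      have hno : ∀ t ∈ M, t ≠ pr c → Fin.last n ∉ t := fun t ht hne hlt =>
        Finset.disjoint_left.1 (m2 t ht _ ht₀ hne) hlt (A3_last_pr c)
      have e3 := A3_ins_dnT ht₀ hno
      have hcH : c ∈ A3_dn H := A3_mem_dn.2 (A3_sub hM ht₀ (A3_mem_pr c))
      refine ⟨⟨c, A3_dnT M⟩, ?_, e3⟩
      rw [Finset.mem_sigma]
      refine ⟨hcH, ?_⟩
      simp only
      have hin : ∀ t ∈ A3_dnT M, bl t ∈ M := fun t ht => A3_mem_dnT.1 ht
      have hnepr : ∀ t : Finset (Fin n), bl t ≠ pr c := by
        intro t h4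
        apply A3_last_bl t
        rw [h4]
        exact A3_last_pr c
      rw [A3_mem_PM]
      refine ⟨fun t ht => ?_, fun t ht t' ht' hne => ?_, ?_⟩
      · rw [← A3_card_bl]
        exact m1 _ (hin t ht)
      · rw [← A3_disj_bl]
        exact m2 _ (hin t ht) _ (hin t' ht') fun h => hne (A3_bl_inj h)
      · ext b
        rw [Finset.mem_biUnion, Finset.mem_erase, A3_mem_dn]
        constructor
        · rintro ⟨t, ht, hbt⟩
          have hbt' : b.castSucc ∈ bl t := (A3_mem_bl b t).2 hbt
          refine ⟨?_, A3_sub hM (hin t ht) hbt'⟩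
          rintro rfl
          exact Finset.disjoint_left.1 (m2 _ (hin t ht) _ ht₀ (hnepr t)) hbt' (A3_mem_pr b)
        · rintro ⟨hbc, hbH⟩
          rw [← m3, Finset.mem_biUnion] at hbH
          obtain ⟨t', ht', hbt'⟩ := hbH
          have h4 : t' ≠ pr c := by
            rintro rfl
            exact hbc ((A3_mem_pr_iff c b).1 hbt')
          have h5 := A3_bl_dn (hno t' ht' h4)
          refine ⟨A3_dn t', ?_, A3_mem_dn.2 hbt'⟩
          rw [A3_mem_dnT, h5]
          exact ht'
    · rintro ⟨a, M⟩ _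
      simp only
      have h3 : T₀ ∪ insert (pr a) (blT M) = insert (pr a) (blT (A3_dnT T₀ ∪ M)) := by
        rw [A3_blT_union, e2, Finset.union_insert]
      rw [h3, A3_gaS]
  · -- the last coordinate is not in `H`
    have e1 := A3_bl_dn hlast
    have hcd : (A3_dn H).card = H.card := by
      rw [← A3_card_bl, e1]
    rw [← e1, A3_sum_bl]
    by_cases h3 : ∃ t ∈ T₀, Fin.last n ∈ t
    · obtain ⟨t₀, ht₀, hlt₀⟩ := h3
      rcases (hadm.1 t₀ ht₀).1 with hc | hc
      · obtain ⟨u, hu⟩ := Finset.card_eq_one.1 hc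
        rw [hu, Finset.mem_singleton] at hlt₀
        refine Finset.sum_eq_zero fun M _ => A3_gaS_zero' γ (Finset.mem_union_left _ ?_)
        rw [hlt₀, ← hu]
        exact ht₀
      · obtain ⟨c, hc⟩ : ∃ c, t₀ = pr c := by
          obtain ⟨u, v, huv, he⟩ := Finset.card_eq_two.1 hc
          rw [he, Finset.mem_insert, Finset.mem_singleton] at hlt₀
          rcases hlt₀ with h4 | h4
          · have h5 : v ≠ Fin.last n := fun h => huv (h4.symm.trans h.symm)
            obtain ⟨c, rfl⟩ := Fin.exists_castSucc_eq.2 h5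
            refine ⟨c, ?_⟩
            rw [he, ← h4, Finset.pair_comm]
            rfl
          · have h5 : u ≠ Fin.last n := fun h => huv (h.trans h4)
            obtain ⟨c, rfl⟩ := Fin.exists_castSucc_eq.2 h5
            refine ⟨c, ?_⟩
            rw [he, ← h4]
            rfl
        subst hc
        have hno : ∀ t ∈ T₀, t ≠ pr c → Fin.last n ∉ t := fun t ht hne hlt =>
          Finset.disjoint_left.1 (hadm.2 t ht _ ht₀ hne) hlt (A3_last_pr c)
        have e3 := A3_ins_dnT ht₀ hno
        have hsub : blT (A3_dnT T₀) ⊆ T₀ := by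
          conv_rhs => rw [← e3]
          exact Finset.subset_insert _ _
        have h4 : ∀ M ∈ PM (A3_dn H), gaS γ (T₀ ∪ blT M) = γ (A3_dnT T₀ ∪ M) c := by
          intro M _
          rw [← A3_gaS γ, A3_blT_union, ← Finset.insert_union, e3]
        rw [Finset.sum_congr rfl h4]
        have hct : T₀.card = (A3_dnT T₀).card + 1 := by
          conv_lhs => rw [← e3]
          rw [Finset.card_insert_of_notMem (A3_pr_notMem c _), A3_card_blT]
        refine h1 c (A3_dn H) (A3_dnT T₀) ?_ ?_ ?_ (A3_Adm hsub hadm) ?_ ?_ ?_ ?_ ?_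
        · rw [← Finset.card_pos, hcd, Finset.card_pos]
          exact hH
        · intro a ha b hb
          have := hl _ (A3_mem_dn.1 ha) _ (A3_mem_dn.1 hb)
          rwa [A3_lS_cast, A3_lS_cast] at this
        · intro a ha
          have := hcard _ (A3_mem_dn.1 ha)
          rwa [A3_lS_cast, ← hcd] at this
        · intro t ht
          rw [← A3_disj_bl, e1]
          exact hdisj _ (A3_mem_dnT.1 ht)
        · omega
        · intro hcH
          exact Finset.disjoint_left.1 (hdisj _ ht₀) (A3_mem_pr c) (A3_mem_dn.1 hcH)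
        · intro t ht hct'
          have h5 : bl t ≠ pr c := by
            intro h5
            apply A3_last_bl t
            rw [h5]
            exact A3_last_pr c
          exact Finset.disjoint_left.1 (hadm.2 _ (A3_mem_dnT.1 ht) _ ht₀ h5)
            ((A3_mem_bl c t).2 hct') (A3_mem_pr c)
        · have := (hadm.1 _ ht₀).2 _ (A3_mem_pr c) _ (A3_last_pr c)
          rwa [A3_lS_cast, A3_lS_last] at this
    · push Not at h3
      refine Finset.sum_eq_zero fun M _ => A3_gaS_zero γ fun a ha => ?_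
      rcases Finset.mem_union.1 ha with h4 | h4
      · exact h3 _ h4 (A3_last_pr a)
      · exact A3_pr_notMem a M h4

theorem theta_star {R : Type} [CommRing R] [Algebra ℚ R] (l : Fin n → Lb) (g : Fin n → ℕ)
    (hg : ∀ a b, l a = l b → g a = g b) (i₀ : Fin n)
    (θ : QuadraticMap ℤ (Fin n → ℤ) R) (hθ : Theta l g θ) (y : Fin n → R)
    (hy : ∀ v : Fin n → ℤ, (∀ b, v b ≠ 0 → l b = l i₀) → θ v ^ g i₀ * ∑ b, v b • y b = 0)
    (z : Finset (Fin n) → R) (hz : ∀ t, t.card = 2 → z t = qat θ t) (D : ℕ) :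
    HafRel (lS l i₀) (lS g i₀) (D + 1) (gaS fun T a =>
      if l a = l i₀ ∧ ∀ t ∈ T, a ∉ t then (∏ t ∈ T, z t) * y a else 0) := by
  refine haf_gaS l g hg i₀ D _ ?_ ?_ ?_
  · intro T a h
    by_contra hcon
    rw [if_neg hcon] at h
    exact h rfl
  · intro a H T₀ hH hl hcard hadm hdisj hD haH haT hla
    have h1 : ∀ M ∈ PM H, (if l a = l i₀ ∧ ∀ t ∈ T₀ ∪ M, a ∉ t then (∏ t ∈ T₀ ∪ M, z t) * y a
        else 0) = (∏ t ∈ T₀ ∪ M, z t) * y a := by
      intro M hM
      rw [if_pos]
      refine ⟨hla, fun t ht => ?_⟩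
      rcases Finset.mem_union.1 ht with h2 | h2
      · exact haT t h2
      · exact fun h3 => haH (A3_sub hM h2 h3)
    rw [Finset.sum_congr rfl h1, ← Finset.sum_mul]
    have h2 : ∑ M ∈ PM H, ∏ t ∈ T₀ ∪ M, z t = 0 :=
      theta_haf l g θ hθ z hz D H T₀ hH hl hcard hadm hdisj hD
    rw [h2, zero_mul]
  · intro H T₀ hl hcard hadm hdisj hD
    have h1 : ∀ a ∈ H, ∑ M ∈ PM (H.erase a), (if l a = l i₀ ∧ ∀ t ∈ T₀ ∪ M, a ∉ t then
        (∏ t ∈ T₀ ∪ M, z t) * y a else 0) =
        (∏ t ∈ T₀, z t) * (y a * ∑ M ∈ PM (H.erase a), ∏ t ∈ M, qat θ t) := by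
      intro a ha
      rw [Finset.mul_sum, Finset.mul_sum]
      refine Finset.sum_congr rfl fun M hM => ?_
      rw [if_pos]
      · have h2 : Disjoint T₀ M := by
          rw [Finset.disjoint_left]
          intro t ht htM
          have h6 : t ⊆ H := (A3_sub hM htM).trans (Finset.erase_subset _ _)
          have h8 : t = ∅ := by
            rw [← Finset.disjoint_self_iff_empty]
            exact (hdisj t ht).mono_right h6
          have h9 := (A3_mem_PM.1 hM).1 t htM
          rw [h8] at h9
          simp at h9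
        rw [Finset.prod_union h2, Finset.prod_congr rfl fun t ht =>
          hz t ((A3_mem_PM.1 hM).1 t ht)]
        ring
      · refine ⟨hl a ha, fun t ht => ?_⟩
        rcases Finset.mem_union.1 ht with h2 | h2
        · exact fun h3 => Finset.disjoint_left.1 (hdisj t h2) h3 ha
        · exact fun h3 => (Finset.mem_erase.1 (A3_sub hM h2 h3)).1 rfl
    rw [Finset.sum_congr rfl h1, ← Finset.mul_sum]
    rw [haf_zero_lin (qat θ) (fun t h2 h3 => by
      unfold qat
      rw [if_neg h2, if_neg h3]) y H (g i₀) hcard, mul_zero]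
    intro A hA
    rw [← qat_ind]
    have h2 := hy (ind A) (by
      intro b hb
      have h3 : b ∈ A := by
        by_contra hcon
        apply hb
        unfold ind
        rw [if_neg hcon]
      exact hl b (hA h3))
    have h3 : ∑ b, ind A b • y b = ∑ a ∈ A, y a := by
      unfold ind
      rw [← Finset.sum_filter_add_sum_filter_not Finset.univ (fun b => b ∈ A)]
      rw [Finset.sum_eq_zero (s := Finset.univ.filter fun b => ¬ b ∈ A) (by
        intro b hb
        rw [if_neg (Finset.mem_filter.1 hb).2, zero_smul]), add_zero]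
      refine Finset.sum_congr ?_ fun b hb => ?_
      · ext b
        simp
      · rw [if_pos hb, one_smul]
    rw [h3] at h2
    exact h2

end Pool.Agent.LibHE77
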