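import Pool.Agent.LibHE77.A0

/-!
[HE77 A7] the families with the additional pair. Proof. Unfold. A chain of nested pairs of `insert (pr c) (blT T)` with the same label either does not use `pr c` (then it is a chain of `T`) or its first (outermost) pair is `pr c`
(`last` is the largest coordinate, so it can only be `b_1`), and the others are pairs of `T` with the label of `c` to the right of `c`; conversely such a chain of `T` can be extended by `pr c`.
`lS l c` and `lS g c` at `castSucc` are `l`, `g` and at `last` they are `l c`, `g c`.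
-/

open scoped Classical

namespace Pool.Agent.LibHE77

open Pool.Agent.LibHD77.Comb (ind cf)

variable {n : ℕ} {Lb : Type}

theorem lS_castSucc (l : Fin n → Lb) (i₀ a : Fin n) : lS l i₀ a.castSucc = l a := by
  unfold lS
  exact Fin.lastCases_castSucc (motive := fun _ => Lb) (last := l i₀) (cast := l) a

theorem lS_last (l : Fin n → Lb) (i₀ : Fin n) : lS l i₀ (Fin.last n) = l i₀ := by
  unfold lS
  exact Fin.lastCases_last (motive := fun _ => Lb) (last := l i₀) (cast := l)

private theorem mem_bl {t : Finset (Fin n)} {x : Fin (n + 1)} :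
    x ∈ bl t ↔ ∃ y ∈ t, y.castSucc = x := by
  unfold bl
  simp [Finset.mem_map]

private theorem castSucc_mem_bl {t : Finset (Fin n)} {y : Fin n} : y.castSucc ∈ bl t ↔ y ∈ t := by
  rw [mem_bl]
  constructor
  · rintro ⟨z, hz, he⟩
    rw [← Fin.castSucc_injective n he]
    exact hz
  · intro h
    exact ⟨y, h, rfl⟩

private theorem last_notMem_bl (t : Finset (Fin n)) : Fin.last n ∉ bl t := by
  rw [mem_bl]
  rintro ⟨z, _, he⟩
  exact (Fin.castSucc_lt_last z).ne he

private theorem last_mem_pr (a : Fin n) : Fin.last n ∈ pr a := by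
  unfold pr
  simp

private theorem castSucc_mem_pr (a : Fin n) : a.castSucc ∈ pr a := by
  unfold pr
  simp

private theorem mem_pr {a : Fin n} {x : Fin (n + 1)} :
    x ∈ pr a ↔ x = a.castSucc ∨ x = Fin.last n := by
  unfold pr
  simp

private theorem pr_ne_bl (a : Fin n) (t : Finset (Fin n)) : pr a ≠ bl t := by
  intro h
  exact last_notMem_bl t (h ▸ last_mem_pr a)

private theorem mem_blT {T : Finset (Finset (Fin n))} {s : Finset (Fin (n + 1))} :
    s ∈ blT T ↔ ∃ t ∈ T, bl t = s := by
  unfold blT
  simp [Finset.mem_image]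

private theorem pr_notMem_blT (a : Fin n) (T : Finset (Finset (Fin n))) : pr a ∉ blT T := by
  rw [mem_blT]
  rintro ⟨t, _, he⟩
  exact pr_ne_bl a t he.symm

private theorem pr_inj {a a' : Fin n} (h : pr a = pr a') : a = a' := by
  have h1 : a.castSucc ∈ pr a' := h ▸ castSucc_mem_pr a
  rw [mem_pr] at h1
  rcases h1 with h1 | h1
  · exact Fin.castSucc_injective n h1
  · exact absurd h1 (Fin.castSucc_lt_last a).ne

theorem bl_inj : Function.Injective (bl (n := n)) := by
  intro s t h
  unfold bl at h
  exact Finset.map_injective _ h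

private theorem bl_mem_blT {T : Finset (Finset (Fin n))} {t : Finset (Fin n)} :
    bl t ∈ blT T ↔ t ∈ T := by
  rw [mem_blT]
  constructor
  · rintro ⟨u, hu, he⟩
    rw [← bl_inj he]
    exact hu
  · intro h
    exact ⟨t, h, rfl⟩

private theorem bl_pair (x y : Fin n) : bl {x, y} = {x.castSucc, y.castSucc} := by
  unfold bl
  simp [Finset.map_insert]

theorem blT_inj : Function.Injective (blT (n := n)) := by
  intro S T h
  ext t
  rw [← bl_mem_blT (T := S), ← bl_mem_blT (T := T), h]

theorem ins_inj {T T' : Finset (Finset (Fin n))} {a a' : Fin n}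
    (h : insert (pr a) (blT T) = insert (pr a') (blT T')) : a = a' ∧ T = T' := by
  have h1 : pr a ∈ insert (pr a') (blT T') := h ▸ Finset.mem_insert_self _ _
  have h2 : a = a' := by
    rcases Finset.mem_insert.mp h1 with h1 | h1
    · exact pr_inj h1
    · exact absurd h1 (pr_notMem_blT a T')
  refine ⟨h2, ?_⟩
  subst h2
  apply blT_inj
  have h3 : (insert (pr a) (blT T)).erase (pr a) = (insert (pr a) (blT T')).erase (pr a) := by
    rw [h]
  rwa [Finset.erase_insert (pr_notMem_blT a T), Finset.erase_insert (pr_notMem_blT a T')] at h3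

private theorem card_bl (t : Finset (Fin n)) : (bl t).card = t.card := by
  unfold bl
  exact Finset.card_map _

private theorem card_blT (T : Finset (Finset (Fin n))) : (blT T).card = T.card := by
  unfold blT
  exact Finset.card_image_of_injective _ bl_inj

private theorem disjoint_bl {s t : Finset (Fin n)} : Disjoint (bl s) (bl t) ↔ Disjoint s t := by
  unfold bl
  exact Finset.disjoint_map _

private theorem adm_blT (l : Fin n → Lb) (i₀ : Fin n) (T : Finset (Finset (Fin n))) :
    Adm (lS l i₀) (blT T) ↔ Adm l T := by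
  unfold Adm
  constructor
  · rintro ⟨h1, h2⟩
    refine ⟨fun t ht => ⟨?_, ?_⟩, fun t ht t' ht' hne => ?_⟩
    · have := (h1 (bl t) (bl_mem_blT.mpr ht)).1
      rwa [card_bl] at this
    · intro x hx y hy
      have := (h1 (bl t) (bl_mem_blT.mpr ht)).2 x.castSucc (castSucc_mem_bl.mpr hx) y.castSucc
        (castSucc_mem_bl.mpr hy)
      rwa [lS_castSucc, lS_castSucc] at this
    · exact disjoint_bl.mp (h2 (bl t) (bl_mem_blT.mpr ht) (bl t') (bl_mem_blT.mpr ht')
        (fun he => hne (bl_inj he)))
  · rintro ⟨h1, h2⟩
    refine ⟨fun s hs => ?_, fun s hs s' hs' hne => ?_⟩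
    · obtain ⟨t, ht, rfl⟩ := mem_blT.mp hs
      refine ⟨?_, ?_⟩
      · rw [card_bl]
        exact (h1 t ht).1
      · intro x hx y hy
        obtain ⟨x', hx', rfl⟩ := mem_bl.mp hx
        obtain ⟨y', hy', rfl⟩ := mem_bl.mp hy
        rw [lS_castSucc, lS_castSucc]
        exact (h1 t ht).2 x' hx' y' hy'
    · obtain ⟨t, ht, rfl⟩ := mem_blT.mp hs
      obtain ⟨t', ht', rfl⟩ := mem_blT.mp hs'
      exact disjoint_bl.mpr (h2 t ht t' ht' (fun he => hne (by rw [he])))

theorem AD_blT (l : Fin n → Lb) (i₀ : Fin n) (D : ℕ) (T : Finset (Finset (Fin n))) :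
    blT T ∈ AD (lS l i₀) D ↔ T ∈ AD l D := by
  unfold AD
  simp only [Finset.mem_filter, Finset.mem_univ, true_and]
  rw [adm_blT, card_blT]

private theorem card_pr (a : Fin n) : (pr a).card = 2 := by
  unfold pr
  exact Finset.card_pair (Fin.castSucc_lt_last a).ne

private theorem disjoint_pr_bl {a : Fin n} {t : Finset (Fin n)} :
    Disjoint (pr a) (bl t) ↔ a ∉ t := by
  rw [Finset.disjoint_left]
  constructor
  · intro h ha
    exact h (castSucc_mem_pr a) (castSucc_mem_bl.mpr ha)
  · intro h x hx hx'
    rcases mem_pr.mp hx with rfl | rfl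
    · exact h (castSucc_mem_bl.mp hx')
    · exact last_notMem_bl t hx'

private theorem adm_ins (l : Fin n → Lb) (i₀ : Fin n) (T : Finset (Finset (Fin n))) (a : Fin n) :
    Adm (lS l i₀) (insert (pr a) (blT T)) ↔
      Adm l T ∧ l a = l i₀ ∧ ∀ t ∈ T, a ∉ t := by
  constructor
  · intro h
    refine ⟨?_, ?_, ?_⟩
    · rw [← adm_blT l i₀]
      exact ⟨fun t ht => h.1 t (Finset.mem_insert_of_mem ht),
        fun t ht t' ht' => h.2 t (Finset.mem_insert_of_mem ht) t' (Finset.mem_insert_of_mem ht')⟩
    · have := (h.1 (pr a) (Finset.mem_insert_self _ _)).2 _ (castSucc_mem_pr a) _ (last_mem_pr a)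
      rwa [lS_castSucc, lS_last] at this
    · intro t ht
      exact disjoint_pr_bl.mp (h.2 (pr a) (Finset.mem_insert_self _ _) (bl t)
        (Finset.mem_insert_of_mem (bl_mem_blT.mpr ht)) (pr_ne_bl a t))
  · rintro ⟨h1, h2, h3⟩
    have h4 := (adm_blT l i₀ T).mpr h1
    refine ⟨fun s hs => ?_, fun s hs s' hs' hne => ?_⟩
    · rcases Finset.mem_insert.mp hs with rfl | hs
      · refine ⟨Or.inr (card_pr a), ?_⟩
        intro x hx y hy
        rcases mem_pr.mp hx with rfl | rfl <;> rcases mem_pr.mp hy with rfl | rfl <;>
          simp only [lS_castSucc, lS_last, h2]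
      · exact h4.1 s hs
    · rcases Finset.mem_insert.mp hs with rfl | hs
      · rcases Finset.mem_insert.mp hs' with rfl | hs'
        · exact absurd rfl hne
        · obtain ⟨t, ht, rfl⟩ := mem_blT.mp hs'
          exact disjoint_pr_bl.mpr (h3 t ht)
      · rcases Finset.mem_insert.mp hs' with rfl | hs'
        · obtain ⟨t, ht, rfl⟩ := mem_blT.mp hs
          exact (disjoint_pr_bl.mpr (h3 t ht)).symm
        · exact h4.2 s hs s' hs' hne

theorem AD_ins (l : Fin n → Lb) (i₀ : Fin n) (D : ℕ) (T : Finset (Finset (Fin n))) (a : Fin n) :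
    insert (pr a) (blT T) ∈ AD (lS l i₀) (D + 1) ↔
      T ∈ AD l D ∧ l a = l i₀ ∧ ∀ t ∈ T, a ∉ t := by
  unfold AD
  simp only [Finset.mem_filter, Finset.mem_univ, true_and]
  rw [adm_ins, Finset.card_insert_of_notMem (pr_notMem_blT a T), card_blT]
  constructor
  · rintro ⟨⟨h1, h2, h3⟩, h4⟩
    exact ⟨⟨h1, by omega⟩, h2, h3⟩
  · rintro ⟨⟨h1, h4⟩, h2, h3⟩
    exact ⟨⟨h1, h2, h3⟩, by omega⟩

/-- a pair of `blT T` comes from a pair of `T` -/
private theorem pair_mem_blT {T : Finset (Finset (Fin n))} {x y : Fin (n + 1)}
    (h : ({x, y} : Finset (Fin (n + 1))) ∈ blT T) :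
    ∃ x' y' : Fin n, x'.castSucc = x ∧ y'.castSucc = y ∧ ({x', y'} : Finset (Fin n)) ∈ T := by
  obtain ⟨t, ht, he⟩ := mem_blT.mp h
  have hx : x ∈ bl t := by rw [he]; simp
  have hy : y ∈ bl t := by rw [he]; simp
  obtain ⟨x', hx', rfl⟩ := mem_bl.mp hx
  obtain ⟨y', hy', rfl⟩ := mem_bl.mp hy
  refine ⟨x', y', rfl, rfl, ?_⟩
  rw [← bl_pair] at he
  rw [← bl_inj he]
  exact ht

private theorem pair_mem_blT' {T : Finset (Finset (Fin n))} {x y : Fin n} :
    ({x.castSucc, y.castSucc} : Finset (Fin (n + 1))) ∈ blT T ↔ ({x, y} : Finset (Fin n)) ∈ T := by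
  rw [← bl_pair, bl_mem_blT]

theorem nst_blT (l : Fin n → Lb) (g : Fin n → ℕ) (i₀ : Fin n) (T : Finset (Finset (Fin n))) :
    Nst (lS l i₀) (lS g i₀) (blT T) ↔ Nst l g T := by
  constructor
  · intro H m a b ha hb hab hT hl i
    have := H m (fun i => (a i).castSucc) (fun i => (b i).castSucc)
      (fun i j hij => Fin.castSucc_lt_castSucc_iff.mpr (ha hij))
      (fun i j hij => Fin.castSucc_lt_castSucc_iff.mpr (hb hij))
      (fun i j => Fin.castSucc_lt_castSucc_iff.mpr (hab i j))
      (fun i => pair_mem_blT'.mpr (hT i))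
      (fun i j => by
        show lS l i₀ (a i).castSucc = lS l i₀ (a j).castSucc
        rw [lS_castSucc, lS_castSucc]; exact hl i j) i
    have h2 : lS g i₀ (a i).castSucc = g (a i) := lS_castSucc g i₀ (a i)
    exact this.trans_eq h2
  · intro H m a b ha hb hab hT hl i
    have hex := fun i => pair_mem_blT (hT i)
    choose a' b' h1 h2 h3 using hex
    have := H m a' b'
      (fun i j hij => Fin.castSucc_lt_castSucc_iff.mp (by rw [h1, h1]; exact ha hij))
      (fun i j hij => Fin.castSucc_lt_castSucc_iff.mp (by rw [h2, h2]; exact hb hij))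
      (fun i j => Fin.castSucc_lt_castSucc_iff.mp (by rw [h1, h2]; exact hab i j))
      h3
      (fun i j => by rw [← lS_castSucc l i₀ (a' i), ← lS_castSucc l i₀ (a' j), h1, h1]; exact hl i j)
      i
    rw [← h1 i, lS_castSucc]
    exact this

theorem nst_ins (l : Fin n → Lb) (g : Fin n → ℕ) (hg : ∀ a b, l a = l b → g a = g b) (i₀ : Fin n)
    (T : Finset (Finset (Fin n))) (hT : Adm l T) (a : Fin n) (ha : l a = l i₀)
    (hg0 : 0 < g i₀) (h : ∀ t ∈ T, a ∉ t) :
    Nst (lS l i₀) (lS g i₀) (insert (pr a) (blT T)) ↔ Nst l g T ∧ NstR l g T a := by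
  constructor
  · intro H
    refine ⟨?_, ?_⟩
    · rw [← nst_blT l g i₀]
      intro m a' b' h1 h2 h3 h4 h5
      exact H m a' b' h1 h2 h3 (fun i => Finset.mem_insert_of_mem (h4 i)) h5
    · intro m a' b' h1 h2 h3 h4 h5 h6
      have key := H (m + 1) (Fin.cons a.castSucc (fun i => (a' i).castSucc))
        (Fin.cons (Fin.last n) (fun i => (b' i).castSucc)) ?_ ?_ ?_ ?_ ?_ 0
      · rw [Fin.cons_zero, lS_castSucc] at key
        omega
      · intro i j hij
        induction j using Fin.cases with
        | zero => exact absurd hij (Fin.not_lt_zero i)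
        | succ j =>
          induction i using Fin.cases with
          | zero =>
            rw [Fin.cons_zero, Fin.cons_succ]
            exact Fin.castSucc_lt_castSucc_iff.mpr (h6 j)
          | succ i =>
            rw [Fin.cons_succ, Fin.cons_succ]
            exact Fin.castSucc_lt_castSucc_iff.mpr (h1 (Fin.succ_lt_succ_iff.mp hij))
      · intro i j hij
        induction j using Fin.cases with
        | zero => exact absurd hij (Fin.not_lt_zero i)
        | succ j =>
          induction i using Fin.cases with
          | zero =>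
            rw [Fin.cons_zero, Fin.cons_succ]
            exact Fin.castSucc_lt_last _
          | succ i =>
            rw [Fin.cons_succ, Fin.cons_succ]
            exact Fin.castSucc_lt_castSucc_iff.mpr (h2 (Fin.succ_lt_succ_iff.mp hij))
      · intro i j
        induction j using Fin.cases with
        | zero =>
          induction i using Fin.cases with
          | zero =>
            rw [Fin.cons_zero, Fin.cons_zero]
            exact Fin.castSucc_lt_last _
          | succ i =>
            rw [Fin.cons_zero, Fin.cons_succ]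
            exact Fin.castSucc_lt_last _
        | succ j =>
          induction i using Fin.cases with
          | zero =>
            rw [Fin.cons_zero, Fin.cons_succ]
            exact Fin.castSucc_lt_castSucc_iff.mpr ((h6 j).trans (h3 j j))
          | succ i =>
            rw [Fin.cons_succ, Fin.cons_succ]
            exact Fin.castSucc_lt_castSucc_iff.mpr (h3 i j)
      · intro i
        induction i using Fin.cases with
        | zero =>
          rw [Fin.cons_zero, Fin.cons_zero]
          exact Finset.mem_insert_self _ _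
        | succ i =>
          rw [Fin.cons_succ, Fin.cons_succ]
          exact Finset.mem_insert_of_mem (pair_mem_blT'.mpr (h4 i))
      · have hall : ∀ i : Fin (m + 1), lS l i₀
            ((Fin.cons a.castSucc (fun i => (a' i).castSucc) : Fin (m + 1) → Fin (n + 1)) i) =
            l a := by
          intro i
          induction i using Fin.cases with
          | zero => rw [Fin.cons_zero, lS_castSucc]
          | succ i => rw [Fin.cons_succ, lS_castSucc]; exact h5 i
        intro i j
        rw [hall i, hall j]
  · rintro ⟨hN, hR⟩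
    intro m a' b' h1 h2 h3 h4 h5 i
    by_cases hex : ∃ j, ({a' j, b' j} : Finset (Fin (n + 1))) = pr a
    · obtain ⟨j, hj⟩ := hex
      have hbj : b' j = Fin.last n := by
        have hm : Fin.last n ∈ ({a' j, b' j} : Finset (Fin (n + 1))) := hj ▸ last_mem_pr a
        rw [Finset.mem_insert, Finset.mem_singleton] at hm
        rcases hm with hm | hm
        · exfalso
          have := h3 j j
          rw [← hm] at this
          exact absurd this (Fin.le_last _).not_gt
        · exact hm.symm
      have haj : a' j = a.castSucc := by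
        have hm : a' j ∈ pr a := hj ▸ Finset.mem_insert_self _ _
        rcases mem_pr.mp hm with hm | hm
        · exact hm
        · exfalso
          have := h3 j j
          rw [hm] at this
          exact absurd this (Fin.le_last _).not_gt
      have hj0 : ∀ i, j ≤ i := by
        intro i
        by_contra hlt
        push Not at hlt
        have := h2 hlt
        rw [hbj] at this
        exact absurd this (Fin.le_last _).not_gt
      obtain ⟨m', rfl⟩ : ∃ m', m = m' + 1 := ⟨m - 1, by have := i.2; omega⟩
      have hjz : j = 0 := le_antisymm (hj0 0) (Fin.zero_le j)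
      subst hjz
      have hex2 : ∀ i : Fin m', ∃ x' y' : Fin n, x'.castSucc = a' i.succ ∧
          y'.castSucc = b' i.succ ∧ ({x', y'} : Finset (Fin n)) ∈ T := by
        intro i
        apply pair_mem_blT
        rcases Finset.mem_insert.mp (h4 i.succ) with hm | hm
        · exfalso
          have hx : Fin.last n ∈ ({a' i.succ, b' i.succ} : Finset (Fin (n + 1))) :=
            hm ▸ last_mem_pr a
          rw [Finset.mem_insert, Finset.mem_singleton] at hx
          have hb0 : b' i.succ < b' 0 := h2 (Fin.succ_pos i)
          rw [hbj] at hb0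
          rcases hx with hx | hx
          · have := h3 i.succ i.succ
            rw [← hx] at this
            exact absurd this (Fin.le_last _).not_gt
          · rw [← hx] at hb0
            exact lt_irrefl _ hb0
        · exact hm
      choose x y hx hy hxy using hex2
      have hlx : ∀ i, l (x i) = l a := by
        intro i
        rw [← lS_castSucc l i₀ (x i), hx, ← lS_castSucc l i₀ a, ← haj]
        exact h5 _ _
      have hlt := hR m' x y
        (fun i j hij => Fin.castSucc_lt_castSucc_iff.mp (by
          rw [hx, hx]; exact h1 (Fin.succ_lt_succ_iff.mpr hij)))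
        (fun i j hij => Fin.castSucc_lt_castSucc_iff.mp (by
          rw [hy, hy]; exact h2 (Fin.succ_lt_succ_iff.mpr hij)))
        (fun i j => Fin.castSucc_lt_castSucc_iff.mp (by rw [hx, hy]; exact h3 _ _))
        hxy hlx
        (fun i => Fin.castSucc_lt_castSucc_iff.mp (by
          rw [hx, ← haj]; exact h1 (Fin.succ_pos i)))
      have hgi : lS g i₀ (a' i) = g a := by
        induction i using Fin.cases with
        | zero => rw [haj, lS_castSucc]
        | succ i => rw [← hx i, lS_castSucc]; exact hg _ _ (hlx i)
      rw [hgi]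
      omega
    · push Not at hex
      exact (nst_blT l g i₀ T).mpr hN m a' b' h1 h2 h3
        (fun j => (Finset.mem_insert.mp (h4 j)).resolve_left (hex j)) h5 i

theorem gaX_blT {W : Type} [AddCommGroup W] (γ : Finset (Finset (Fin n)) → W)
    (T : Finset (Finset (Fin n))) : gaX γ (blT T) = γ T := by
  unfold gaX
  rw [Finset.sum_eq_single T]
  · rw [if_pos rfl]
  · intro T₁ _ hne
    rw [if_neg]
    intro he
    exact hne (blT_inj he).symm
  · intro hn
    exact absurd (Finset.mem_univ T) hn

theorem gaS_ins {W : Type} [AddCommGroup W] (γ : Finset (Finset (Fin n)) → Fin n → W)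
    (T : Finset (Finset (Fin n))) (a : Fin n) : gaS γ (insert (pr a) (blT T)) = γ T a := by
  unfold gaS
  rw [Finset.sum_eq_single T]
  · rw [Finset.sum_eq_single a]
    · rw [if_pos rfl]
    · intro b _ hne
      rw [if_neg]
      intro he
      exact hne (ins_inj he).1.symm
    · intro hn
      exact absurd (Finset.mem_univ a) hn
  · intro T₁ _ hne
    apply Finset.sum_eq_zero
    intro b _
    rw [if_neg]
    intro he
    exact hne (ins_inj he).2.symm
  · intro hn
    exact absurd (Finset.mem_univ T) hn

end Pool.Agent.LibHE77
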