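import Pool.Agent.LibHE77.D0
import Pool.Agent.LibHE77.A3
import Pool.Agent.LibHE77.A7

/-!
[HE77 D5] evaluation of the vectors (combinatorics). Proof of `sft_main`, `sft_star`. By `Ok` the nonzero terms `τ` of `nv 𝔽 (v i) = ∑ τ, (∏ e, cf (τ e) (v i e)) • ∏ e, 𝔽.X (bl (τ e))` (`Finset.prod_univ_sum` / `Fintype.piFinset_univ`) have different disjoint blocks with one or two elements with the same label: `T = Finset.univ.image τ ∈ AD l D`
and `(∏ e, 𝔽.X (bl (τ e))) • 𝔽.vac = 𝔽.V (blT T)`, `(.. * 𝔽.X (pr z)) • 𝔽.vac = 𝔽.V (insert (pr z) (blT T))` if `z` is in no block (`u z ≠ 0`), `l z = l i₀`. So `h1`, `h2` are relations `∑ c • 𝔽.V (..) = 0` with families in `AD (lS l i₀) D`, `AD (lS l i₀) (D + 1)` (`AD_blT`, `AD_ins`, A7). `sft` (C2) with `gaX γ` (`haf_gaX`, A3),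
`gaS ..`; the values: `gaX γ (blT T) = γ T` (`gaX_blT`, A7), `gaS _ (insert (pr a) (blT T)) = _` (`gaS_ins`). Proof of `nst_core`: `γ T = ∏ t ∈ T, z t`, `z t = qat θ t + (if t = {a} then d a else 0)` (sum over `a`), `theta_haf` (A2); `theta_star` (A3) for the second part (`γ T a = (∏ t ∈ T, z t) * y a`);
`∑ τ, (∏ e, cf (τ e) (v e)) • ∏ e, z (τ e) = ∏ e, ∑ t, cf t (v e) • z t = ∏ e, (θ (v e) + ∑ a, (v e a) ^ 2 • d a)` (`quad_expand`, A2; `cf {a} v = v a ^ 2`); for `τ` with nonzero coefficient the blocks are different, so the product over `Finset.univ.image τ` is the product over `e`. `Cond` gives `Theta l g θ`.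
-/

open scoped Classical

namespace Pool.Agent.LibHE77

open Pool.Agent.LibHD77.Comb (cf)

variable {n : ℕ} {Lb : Type} {l : Fin n → Lb} {g : Fin n → ℕ} {i₀ : Fin n} {D : ℕ}

private theorem d5_hgS (hg : ∀ a b, l a = l b → g a = g b) :
    ∀ a b : Fin (n + 1), lS l i₀ a = lS l i₀ b → lS g i₀ a = lS g i₀ b := by
  intro a b
  refine Fin.lastCases ?_ (fun a => ?_) a <;> refine Fin.lastCases ?_ (fun b => ?_) b <;>
    simp only [lS_castSucc, lS_last] <;> intro h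
  all_goals first
    | exact trivial
    | exact hg _ _ h

private theorem d5_sum {V : Type} [AddCommGroup V] [Module ℚ V] {K : Type} [Fintype K]
    (m : K → ℤ) (v : K → Fin D → Fin n → ℤ) (Ψ : K → (Fin D → Finset (Fin n)) → V) :
    ∑ i, m i • ∑ τ : Fin D → Finset (Fin n), (∏ e, cf (τ e) (v i e)) • Ψ i τ =
    ∑ x : {x : K × (Fin D → Finset (Fin n)) // (∏ e, cf (x.2 e) (v x.1 e)) ≠ 0},
      ((m x.1.1 * ∏ e, cf (x.1.2 e) (v x.1.1 e) : ℤ) : ℚ) • Ψ x.1.1 x.1.2 := by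
  rw [← Finset.sum_subtype (Finset.univ.filter
    fun x : K × (Fin D → Finset (Fin n)) => (∏ e, cf (x.2 e) (v x.1 e)) ≠ 0)
    (fun x => by simp) (fun x : K × (Fin D → Finset (Fin n)) =>
      ((m x.1 * ∏ e, cf (x.2 e) (v x.1 e) : ℤ) : ℚ) • Ψ x.1 x.2)]
  rw [Finset.sum_filter, Fintype.sum_prod_type]
  refine Finset.sum_congr rfl fun i _ => ?_
  rw [Finset.smul_sum]
  refine Finset.sum_congr rfl fun τ _ => ?_
  simp only
  by_cases hc : (∏ e, cf (τ e) (v i e)) = 0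
  · rw [if_neg (fun h => h hc), hc, zero_smul, smul_zero]
  · rw [if_pos hc, Int.cast_smul_eq_zsmul, mul_smul]

private theorem d5_cf {t : Finset (Fin n)} {w : Fin n → ℤ} (h : cf t w ≠ 0) :
    (t.card = 1 ∨ t.card = 2) ∧ ∀ a ∈ t, w a ≠ 0 := by
  unfold cf at h
  by_cases h1 : t.card = 1
  · rw [if_pos h1, Finset.prod_ne_zero_iff] at h
    exact ⟨Or.inl h1, fun a ha h0 => h a ha (by rw [h0]; norm_num)⟩
  · rw [if_neg h1] at h
    by_cases h2 : t.card = 2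
    · rw [if_pos h2, Finset.prod_ne_zero_iff] at h
      exact ⟨Or.inr h2, h⟩
    · rw [if_neg h2] at h
      exact absurd rfl h

/-- the structure of the terms which are not zero -/
private theorem d5_str {v : Fin D → Fin n → ℤ} {u : Fin n → ℚ} (hv : Ok l v u)
    {τ : Fin D → Finset (Fin n)} (h : (∏ e, cf (τ e) (v e)) ≠ 0) :
    Function.Injective τ ∧ Finset.univ.image τ ∈ AD l D ∧
      ∀ z, u z ≠ 0 → ∀ t ∈ Finset.univ.image τ, z ∉ t := by
  have h0 : ∀ e, cf (τ e) (v e) ≠ 0 := fun e =>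
    Finset.prod_ne_zero_iff.1 h e (Finset.mem_univ e)
  have hdis : ∀ e e', e ≠ e' → Disjoint (τ e) (τ e') := by
    intro e e' hee
    rw [Finset.disjoint_left]
    intro a ha ha'
    rcases hv.1 e e' a hee with h1 | h1
    · exact (d5_cf (h0 e)).2 a ha h1
    · exact (d5_cf (h0 e')).2 a ha' h1
  have hinj : Function.Injective τ := by
    intro e e' hee
    by_contra hne
    have h1 := hdis e e' hne
    rw [hee, disjoint_self] at h1
    have h2 := (d5_cf (h0 e')).1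
    rw [h1] at h2
    simp at h2
  refine ⟨hinj, ?_, ?_⟩
  · unfold AD
    rw [Finset.mem_filter]
    refine ⟨Finset.mem_univ _, ⟨?_, ?_⟩, ?_⟩
    · intro t ht
      obtain ⟨e, _, rfl⟩ := Finset.mem_image.1 ht
      exact ⟨(d5_cf (h0 e)).1, fun a ha b hb =>
        hv.2.1 e a b ((d5_cf (h0 e)).2 a ha) ((d5_cf (h0 e)).2 b hb)⟩
    · intro t ht t' ht' hne
      obtain ⟨e, _, rfl⟩ := Finset.mem_image.1 ht
      obtain ⟨e', _, rfl⟩ := Finset.mem_image.1 ht'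
      exact hdis e e' fun h => hne (by rw [h])
    · rw [Finset.card_image_of_injective _ hinj, Finset.card_univ, Fintype.card_fin]
  · intro z hz t ht hzt
    obtain ⟨e, _, rfl⟩ := Finset.mem_image.1 ht
    exact hz (hv.2.2 e z ((d5_cf (h0 e)).2 z hzt))

private theorem d5_nv (𝔽 : Fk (lS l i₀) (lS g i₀)) (v : Fin D → Fin n → ℤ) :
    nv 𝔽 v = ∑ τ : Fin D → Finset (Fin n), (∏ e, cf (τ e) (v e)) • ∏ e, 𝔽.X (bl (τ e)) := by
  unfold nv
  rw [Finset.prod_univ_sum, Fintype.piFinset_univ]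
  refine Finset.sum_congr rfl fun τ _ => ?_
  simp only [zsmul_eq_mul]
  rw [Finset.prod_mul_distrib, Int.cast_prod]

private theorem d5_prod (𝔽 : Fk (lS l i₀) (lS g i₀)) {τ : Fin D → Finset (Fin n)}
    (hτ : Function.Injective τ) :
    ∏ e, 𝔽.X (bl (τ e)) = ∏ t ∈ blT (Finset.univ.image τ), 𝔽.X t := by
  unfold blT
  rw [Finset.prod_image (fun _ _ _ _ h => bl_inj h), Finset.prod_image (fun _ _ _ _ h => hτ h)]

private theorem d5_pr (z : Fin n) (T : Finset (Finset (Fin n))) : pr z ∉ blT T := by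
  unfold blT
  rw [Finset.mem_image]
  rintro ⟨t, _, ht⟩
  have h1 : Fin.last n ∈ bl t := by
    rw [ht]
    unfold pr
    simp
  unfold bl at h1
  rw [Finset.mem_map] at h1
  obtain ⟨a, _, ha⟩ := h1
  exact (Fin.castSucc_lt_last a).ne ha

theorem sft_main (hg : ∀ a b, l a = l b → g a = g b) (𝔽 : Fk (lS l i₀) (lS g i₀)) {K : Type}
    [Fintype K] (m : K → ℤ) (v : K → Fin D → Fin n → ℤ) (u : K → Fin n → ℚ)
    (hv : ∀ i, Ok l (v i) (u i)) (h1 : ∑ i, m i • (nv 𝔽 (v i) • 𝔽.vac) = 0) {W : Type}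
    [AddCommGroup W] [Module ℚ W] (γ : Finset (Finset (Fin n)) → W) (hγ : HafRel l g D γ) :
    ∑ i, m i • ∑ τ : Fin D → Finset (Fin n),
      (∏ e, cf (τ e) (v i e)) • γ (Finset.univ.image τ) = 0 := by
  rw [d5_sum m v (fun _ τ => γ (Finset.univ.image τ))]
  have h2 : ∑ x : {x : K × (Fin D → Finset (Fin n)) // (∏ e, cf (x.2 e) (v x.1 e)) ≠ 0},
      ((m x.1.1 * ∏ e, cf (x.1.2 e) (v x.1.1 e) : ℤ) : ℚ) •
        𝔽.V (blT (Finset.univ.image x.1.2)) = 0 := by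
    rw [← h1]
    have h3 : ∀ i, nv 𝔽 (v i) • 𝔽.vac = ∑ τ : Fin D → Finset (Fin n),
        (∏ e, cf (τ e) (v i e)) • ((∏ e, 𝔽.X (bl (τ e))) • 𝔽.vac) := by
      intro i
      rw [d5_nv, Finset.sum_smul]
      refine Finset.sum_congr rfl fun τ _ => ?_
      rw [smul_assoc]
    simp only [h3]
    rw [d5_sum m v (fun _ τ => (∏ e, 𝔽.X (bl (τ e))) • 𝔽.vac)]
    refine Finset.sum_congr rfl fun x _ => ?_
    rw [d5_prod 𝔽 (d5_str (hv x.1.1) x.2).1]
    rfl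
  have h4 := sft (d5_hgS hg) 𝔽 (fun x : {x : K × (Fin D → Finset (Fin n)) //
      (∏ e, cf (x.2 e) (v x.1 e)) ≠ 0} => blT (Finset.univ.image x.1.2))
    (fun x => (AD_blT l i₀ D _).2 (d5_str (hv x.1.1) x.2).2.1)
    (fun x => ((m x.1.1 * ∏ e, cf (x.1.2 e) (v x.1.1 e) : ℤ) : ℚ)) h2 (gaX γ)
    (haf_gaX l g i₀ D γ hγ)
  refine (Finset.sum_congr rfl fun x _ => ?_).trans h4
  rw [gaX_blT]

private theorem d5_sum2 {V : Type} [AddCommGroup V] [Module ℚ V] {K : Type} [Fintype K]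
    (m : K → ℤ) (v : K → Fin D → Fin n → ℤ) (u : K → Fin n → ℚ)
    (Ψ : (Fin D → Finset (Fin n)) → Fin n → V) :
    ∑ i, m i • ∑ τ : Fin D → Finset (Fin n), (∏ e, cf (τ e) (v i e)) •
      ∑ z, (if l z = l i₀ then u i z • Ψ τ z else 0) =
    ∑ x : {x : K × (Fin D → Finset (Fin n)) × Fin n // (∏ e, cf (x.2.1 e) (v x.1 e)) ≠ 0 ∧
        l x.2.2 = l i₀ ∧ u x.1 x.2.2 ≠ 0},
      (((m x.1.1 * ∏ e, cf (x.1.2.1 e) (v x.1.1 e) : ℤ) : ℚ) * u x.1.1 x.1.2.2) •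
        Ψ x.1.2.1 x.1.2.2 := by
  rw [← Finset.sum_subtype (Finset.univ.filter
    fun x : K × (Fin D → Finset (Fin n)) × Fin n => (∏ e, cf (x.2.1 e) (v x.1 e)) ≠ 0 ∧
        l x.2.2 = l i₀ ∧ u x.1 x.2.2 ≠ 0)
    (fun x => by simp) (fun x : K × (Fin D → Finset (Fin n)) × Fin n =>
      (((m x.1 * ∏ e, cf (x.2.1 e) (v x.1 e) : ℤ) : ℚ) * u x.1 x.2.2) • Ψ x.2.1 x.2.2)]
  rw [Finset.sum_filter, Fintype.sum_prod_type]
  refine Finset.sum_congr rfl fun i _ => ?_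
  rw [Finset.smul_sum, Fintype.sum_prod_type]
  refine Finset.sum_congr rfl fun τ _ => ?_
  rw [Finset.smul_sum, Finset.smul_sum]
  refine Finset.sum_congr rfl fun z _ => ?_
  simp only
  by_cases hz : l z = l i₀
  · rw [if_pos hz]
    by_cases hu : u i z = 0
    · rw [if_neg (fun h => h.2.2 hu), hu, zero_smul, smul_zero, smul_zero]
    · by_cases hc : (∏ e, cf (τ e) (v i e)) = 0
      · rw [if_neg (fun h => h.1 hc), hc, zero_smul, smul_zero]
      · rw [if_pos ⟨hc, hz, hu⟩, mul_smul, Int.cast_smul_eq_zsmul, mul_smul]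
  · rw [if_neg hz, if_neg (fun h => hz h.2.1), smul_zero, smul_zero]

theorem sft_star (hg : ∀ a b, l a = l b → g a = g b) (𝔽 : Fk (lS l i₀) (lS g i₀)) {K : Type}
    [Fintype K] (m : K → ℤ) (v : K → Fin D → Fin n → ℤ) (u : K → Fin n → ℚ)
    (hv : ∀ i, Ok l (v i) (u i))
    (h2 : ∑ i, m i • ((nv 𝔽 (v i) * av 𝔽 (u i)) • 𝔽.vac) = 0) {W : Type}
    [AddCommGroup W] [Module ℚ W] (γ : Finset (Finset (Fin n)) → Fin n → W)
    (hγ : HafRel (lS l i₀) (lS g i₀) (D + 1) (gaS fun T a =>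
      if l a = l i₀ ∧ ∀ t ∈ T, a ∉ t then γ T a else 0)) :
    ∑ i, m i • ∑ τ : Fin D → Finset (Fin n), (∏ e, cf (τ e) (v i e)) •
      ∑ z, (if l z = l i₀ then u i z • γ (Finset.univ.image τ) z else 0) = 0 := by
  rw [d5_sum2 m v u (fun τ z => γ (Finset.univ.image τ) z)]
  have h3 : ∑ x : {x : K × (Fin D → Finset (Fin n)) × Fin n //
      (∏ e, cf (x.2.1 e) (v x.1 e)) ≠ 0 ∧ l x.2.2 = l i₀ ∧ u x.1 x.2.2 ≠ 0},
      (((m x.1.1 * ∏ e, cf (x.1.2.1 e) (v x.1.1 e) : ℤ) : ℚ) * u x.1.1 x.1.2.2) •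
        𝔽.V (insert (pr x.1.2.2) (blT (Finset.univ.image x.1.2.1))) = 0 := by
    rw [← h2]
    have h4 : ∀ i, (nv 𝔽 (v i) * av 𝔽 (u i)) • 𝔽.vac = ∑ τ : Fin D → Finset (Fin n),
        (∏ e, cf (τ e) (v i e)) • ∑ z, (if l z = l i₀ then
          u i z • ((𝔽.X (pr z) * ∏ e, 𝔽.X (bl (τ e))) • 𝔽.vac) else 0) := by
      intro i
      rw [d5_nv, Finset.sum_mul, Finset.sum_smul]
      refine Finset.sum_congr rfl fun τ _ => ?_
      rw [smul_mul_assoc, smul_assoc]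
      congr 1
      unfold av
      rw [Finset.mul_sum, Finset.sum_smul]
      refine Finset.sum_congr rfl fun z _ => ?_
      by_cases hz : l z = l i₀
      · rw [if_pos hz, if_pos hz, ← Algebra.smul_def, mul_smul_comm, smul_assoc,
          mul_comm (∏ e, 𝔽.X (bl (τ e)))]
      · rw [if_neg hz, if_neg hz, mul_zero, zero_smul]
    simp only [h4]
    rw [d5_sum2 m v u (fun τ z => (𝔽.X (pr z) * ∏ e, 𝔽.X (bl (τ e))) • 𝔽.vac)]
    refine Finset.sum_congr rfl fun x _ => ?_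
    rw [d5_prod 𝔽 (d5_str (hv x.1.1) x.2.1).1]
    unfold Fk.V
    rw [Finset.prod_insert (d5_pr _ _)]
  have h4 := sft (d5_hgS hg) 𝔽 (fun x : {x : K × (Fin D → Finset (Fin n)) × Fin n //
      (∏ e, cf (x.2.1 e) (v x.1 e)) ≠ 0 ∧ l x.2.2 = l i₀ ∧ u x.1 x.2.2 ≠ 0} =>
      insert (pr x.1.2.2) (blT (Finset.univ.image x.1.2.1)))
    (fun x => (AD_ins l i₀ D _ _).2 ⟨(d5_str (hv x.1.1) x.2.1).2.1, x.2.2.1,
      (d5_str (hv x.1.1) x.2.1).2.2 _ x.2.2.2⟩)
    (fun x => (((m x.1.1 * ∏ e, cf (x.1.2.1 e) (v x.1.1 e) : ℤ) : ℚ) * u x.1.1 x.1.2.2)) h3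
    _ hγ
  refine (Finset.sum_congr rfl fun x _ => ?_).trans h4
  rw [gaS_ins, if_pos ⟨x.2.2.1, (d5_str (hv x.1.1) x.2.1).2.2 _ x.2.2.2⟩]

private theorem d5_expand {R : Type} [CommRing R] [Algebra ℚ R]
    (θ : QuadraticMap ℤ (Fin n → ℤ) R) (d : Fin n → R) {v : Fin D → Fin n → ℤ} {u : Fin n → ℚ}
    (hv : Ok l v u) :
    ∏ e, (θ (v e) + ∑ a, (v e a) ^ 2 • d a) = ∑ τ : Fin D → Finset (Fin n),
      (∏ e, cf (τ e) (v e)) • ∏ t ∈ Finset.univ.image τ,
        (qat θ t + ∑ a, if t = {a} then d a else 0) := by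
  have h1 : ∀ w : Fin n → ℤ, θ w + ∑ a, (w a) ^ 2 • d a =
      ∑ t : Finset (Fin n), cf t w • (qat θ t + ∑ a, if t = {a} then d a else 0) := by
    intro w
    simp only [smul_add]
    rw [Finset.sum_add_distrib, ← quad_expand]
    congr 1
    simp only [Finset.smul_sum]
    rw [Finset.sum_comm]
    refine Finset.sum_congr rfl fun a _ => ?_
    rw [Finset.sum_eq_single ({a} : Finset (Fin n))]
    · rw [if_pos rfl]
      congr 1
      unfold cf
      rw [if_pos (Finset.card_singleton a), Finset.prod_singleton]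
    · intro t _ ht
      rw [if_neg ht, smul_zero]
    · intro h
      exact absurd (Finset.mem_univ _) h
  simp only [h1]
  rw [Finset.prod_univ_sum, Fintype.piFinset_univ]
  refine Finset.sum_congr rfl fun τ _ => ?_
  by_cases hc : (∏ e, cf (τ e) (v e)) = 0
  · rw [hc, zero_smul]
    obtain ⟨e, he, h0⟩ := Finset.prod_eq_zero_iff.1 hc
    exact Finset.prod_eq_zero he (by rw [h0, zero_smul])
  · rw [Finset.prod_image (fun _ _ _ _ h => (d5_str hv hc).1 h)]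
    simp only [zsmul_eq_mul]
    rw [Finset.prod_mul_distrib, Int.cast_prod]

theorem nst_core (hg : ∀ a b, l a = l b → g a = g b) (𝔽 : Fk (lS l i₀) (lS g i₀)) {K : Type}
    [Fintype K] (m : K → ℤ) (v : K → Fin D → Fin n → ℤ) (u : K → Fin n → ℚ)
    (hv : ∀ i, Ok l (v i) (u i)) (h1 : ∑ i, m i • (nv 𝔽 (v i) • 𝔽.vac) = 0)
    (h2 : ∑ i, m i • ((nv 𝔽 (v i) * av 𝔽 (u i)) • 𝔽.vac) = 0) (R : Type) [CommRing R]
    [Algebra ℚ R] (θ : QuadraticMap ℤ (Fin n → ℤ) R) (d y : Fin n → R) (hθ : Cond l g θ y) :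
    ∑ i, m i • ∏ e, (θ (v i e) + ∑ a, (v i e a) ^ 2 • d a) = 0 ∧
    ∑ i, m i • ((∏ e, (θ (v i e) + ∑ a, (v i e a) ^ 2 • d a)) *
      ∑ z, if l z = l i₀ then algebraMap ℚ R (u i z) * y z else 0) = 0 := by
  have hz : ∀ t : Finset (Fin n), t.card = 2 →
      (fun t => qat θ t + ∑ a, if t = {a} then d a else 0) t = qat θ t := by
    intro t ht
    simp only
    rw [Finset.sum_eq_zero, add_zero]
    intro a _
    rw [if_neg]
    rintro rfl
    simp at ht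
  have hT : Theta l g θ := fun a v h => (hθ a v h).1
  constructor
  · have h3 := sft_main hg 𝔽 m v u hv h1
      (fun T => ∏ t ∈ T, (fun t => qat θ t + ∑ a, if t = {a} then d a else 0) t)
      (theta_haf l g θ hT _ hz D)
    refine (Finset.sum_congr rfl fun i _ => ?_).trans h3
    rw [d5_expand θ d (hv i)]
  · have h3 := sft_star hg 𝔽 m v u hv h2
      (fun T a => (∏ t ∈ T, (fun t => qat θ t + ∑ a, if t = {a} then d a else 0) t) * y a)
      (theta_star l g hg i₀ θ hT y (fun v h => (hθ i₀ v h).2) _ hz D)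
    refine (Finset.sum_congr rfl fun i _ => ?_).trans h3
    rw [d5_expand θ d (hv i), Finset.sum_mul]
    congr 1
    refine Finset.sum_congr rfl fun τ _ => ?_
    rw [smul_mul_assoc]
    congr 1
    rw [Finset.mul_sum]
    refine Finset.sum_congr rfl fun z _ => ?_
    by_cases hzz : l z = l i₀
    · rw [if_pos hzz, if_pos hzz, Algebra.smul_def]
      ring
    · rw [if_neg hzz, if_neg hzz, mul_zero]

end Pool.Agent.LibHE77
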