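import Pool.Agent.LibHE77.D0
import Pool.Agent.LibHL77.X2

/-!
[HE77 D6] the vectors of a diagonal (combinatorics). Proof of `num_exp`: `∑ ρ, (∏ e, cfP (ρ e) (v e)) • num 𝔽 ρ = ∏ e, ∑ C, cfP C (v e) • xs C` (`Finset.prod_univ_sum`), `xs C = ∑ (t ⊆ C, t ≠ ∅) 𝔽.X (bl t)`, and `∑ C, cfP C w • xs C = ∑ t, cf t w • 𝔽.X (bl t)`: the coefficient of `𝔽.X (bl t)` for `t = {a}`: `cfP {a} w + ∑ (b ≠ a) cfP {a, b} w =
w a * (w a - ∑ w b) + ∑ w a w b = w a ^ 2`; for `t = {a, b}`: `w a * w b`; other `t` have `𝔽.X (bl t) = 0` (`X0`, `(bl t).card = t.card`) and `cfP C w = 0` for `C.card ≠ 1, 2`. `ajn_exp`: if `∏ e, cfP (ρ e) (vec δ e) ≠ 0` then the blocks `ρ e` are coordinates with the free point `e` (`cfP_ne`), so a coordinate in a block has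
`fixed value 0`, and a coordinate in no block with a free point has `pts o δ z = o z` with value `0` (`ho`): `ajn 𝔽 val ρ (pts o δ) = av 𝔽 u` with `u z = val z (pts o δ z)`.
-/

open scoped Classical

namespace Pool.Agent.LibHE77

open Pool.Agent.LibHD77.Comb (Pat cf vec pts)
open Pool.Agent.LibHL77 (cfP)

variable {n : ℕ} {Lb : Type} {l : Fin n → Lb} {g : Fin n → ℕ} {i₀ : Fin n} {D : ℕ}

private theorem d6_inner (U H : Finset (Fin n)) :
    ∑ A ∈ H.powerset.filter (fun A => U ⊆ A), (-1 : ℤ) ^ (H.card - A.card) =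
      if U = H then 1 else 0 := by
  by_cases hU : U ⊆ H
  · have h1 : ∑ A ∈ H.powerset.filter (fun A => U ⊆ A), (-1 : ℤ) ^ (H.card - A.card) =
        ∑ T ∈ (H \ U).powerset, (-1 : ℤ) ^ T.card := by
      refine Finset.sum_bij' (fun A _ => H \ A) (fun T _ => H \ T) ?_ ?_ ?_ ?_ ?_
      · intro A hA
        rw [Finset.mem_filter, Finset.mem_powerset] at hA
        rw [Finset.mem_powerset]
        exact Finset.sdiff_subset_sdiff (Finset.Subset.refl H) hA.2
      · intro T hT
        rw [Finset.mem_powerset] at hT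
        rw [Finset.mem_filter, Finset.mem_powerset]
        refine ⟨Finset.sdiff_subset, fun a ha => ?_⟩
        rw [Finset.mem_sdiff]
        refine ⟨hU ha, fun haT => ?_⟩
        exact (Finset.mem_sdiff.1 (hT haT)).2 ha
      · intro A hA
        rw [Finset.mem_filter, Finset.mem_powerset] at hA
        exact Finset.sdiff_sdiff_eq_self hA.1
      · intro T hT
        exact Finset.sdiff_sdiff_eq_self ((Finset.mem_powerset.1 hT).trans Finset.sdiff_subset)
      · intro A hA
        rw [Finset.mem_filter, Finset.mem_powerset] at hA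
        rw [Finset.card_sdiff_of_subset hA.1]
    rw [h1, Finset.sum_powerset_neg_one_pow_card]
    congr 1
    rw [eq_iff_iff, Finset.sdiff_eq_empty_iff_subset]
    exact ⟨fun h => Finset.Subset.antisymm hU h, fun h => h ▸ Finset.Subset.refl _⟩
  · rw [Finset.filter_false_of_mem, Finset.sum_empty, if_neg]
    · rintro rfl
      exact hU (Finset.Subset.refl _)
    · intro A hA hUA
      exact hU (hUA.trans (Finset.mem_powerset.1 hA))

/-- the sum of the coefficients of the sets which contain `s` -/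
private theorem d6_coef (s : Finset (Fin n)) (hs : s ≠ ∅) (w : Fin n → ℤ) :
    ∑ C : Finset (Fin n), (if s ⊆ C then cfP C w else 0) = cf s w := by
  have h1 : ∀ C : Finset (Fin n), (if s ⊆ C then cfP C w else 0) =
      ∑ t : Finset (Fin n), cf t w * (if s ⊆ C ∧ C ⊆ t then
        (-1 : ℤ) ^ (t.card - C.card) else 0) := by
    intro C
    by_cases hsC : s ⊆ C
    · rw [if_pos hsC, ← Pool.Agent.LibHL77.coef_sum]
      refine Finset.sum_congr rfl fun t _ => ?_
      congr 1
      by_cases hCt : C ⊆ t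
      · have hC : C ≠ ∅ := fun h0 => hs (Finset.subset_empty.1 (h0 ▸ hsC))
        rw [if_pos ⟨hCt, hC⟩, if_pos ⟨hsC, hCt⟩]
      · rw [if_neg (fun h => hCt h.1), if_neg (fun h => hCt h.2)]
    · rw [if_neg hsC]
      refine (Finset.sum_eq_zero fun t _ => ?_).symm
      rw [if_neg (fun h => hsC h.1), mul_zero]
  simp only [h1]
  rw [Finset.sum_comm]
  simp only [← Finset.mul_sum]
  have h2 : ∀ t : Finset (Fin n), (∑ C : Finset (Fin n), if s ⊆ C ∧ C ⊆ t then
        (-1 : ℤ) ^ (t.card - C.card) else 0) = if s = t then 1 else 0 := by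
    intro t
    rw [← d6_inner s t, ← Finset.sum_filter]
    refine Finset.sum_congr ?_ fun _ _ => rfl
    ext C
    simp only [Finset.mem_filter, Finset.mem_univ, true_and, Finset.mem_powerset]
    exact and_comm
  simp only [h2]
  rw [Finset.sum_eq_single s]
  · rw [if_pos rfl, mul_one]
  · intro t _ ht
    rw [if_neg (fun h => ht h.symm), mul_zero]
  · intro h
    exact absurd (Finset.mem_univ _) h

private theorem d6_one {V : Type} [AddCommGroup V] (x : Finset (Fin n) → V) (w : Fin n → ℤ) :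
    ∑ C : Finset (Fin n), cfP C w • (∑ t ∈ C.powerset, if t = ∅ then 0 else x t) =
      ∑ t : Finset (Fin n), cf t w • x t := by
  have h1 : ∀ C : Finset (Fin n), cfP C w • (∑ t ∈ C.powerset, if t = ∅ then 0 else x t) =
      ∑ t : Finset (Fin n), (if t ⊆ C then cfP C w else 0) • (if t = ∅ then 0 else x t) := by
    intro C
    rw [Finset.smul_sum]
    rw [← Finset.sum_subset (Finset.subset_univ C.powerset)]
    · refine Finset.sum_congr rfl fun t ht => ?_
      rw [if_pos (Finset.mem_powerset.1 ht)]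
    · intro t _ ht
      rw [if_neg (fun h => ht (Finset.mem_powerset.2 h)), zero_smul]
  simp only [h1]
  rw [Finset.sum_comm]
  refine Finset.sum_congr rfl fun t _ => ?_
  rw [← Finset.sum_smul]
  by_cases ht : t = ∅
  · rw [if_pos ht, smul_zero]
    have h2 : cf t w = 0 := by
      unfold cf
      rw [ht]
      simp
    rw [h2, zero_smul]
  · rw [if_neg ht, d6_coef t ht w]

theorem num_exp (𝔽 : Fk (lS l i₀) (lS g i₀)) (v : Fin D → Fin n → ℤ) :
    ∑ ρ : Fin D → Finset (Fin n), (∏ e, cfP (ρ e) (v e)) • num 𝔽 ρ = nv 𝔽 v := by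
  unfold nv
  simp only [← d6_one]
  rw [Finset.prod_univ_sum, Fintype.piFinset_univ]
  refine Finset.sum_congr rfl fun ρ _ => ?_
  unfold num
  simp only [zsmul_eq_mul]
  rw [Finset.prod_mul_distrib, Int.cast_prod]

theorem ajn_exp (𝔽 : Fk (lS l i₀) (lS g i₀)) {A : Fin n → Type} (o : ∀ a, A a)
    (val : ∀ a, A a → ℚ) (ho : ∀ a, val a (o a) = 0) (δ : Pat A (Fin D))
    (ρ : Fin D → Finset (Fin n)) (hρ : (∏ e, cfP (ρ e) (vec δ e)) ≠ 0) :
    ajn 𝔽 val ρ (pts o δ) = av 𝔽 (fun z => val z (pts o δ z)) := by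
  unfold ajn av
  refine Finset.sum_congr rfl fun z _ => ?_
  by_cases hz : l z = l i₀
  · by_cases he : ∀ e, z ∉ ρ e
    · rw [if_pos ⟨he, hz⟩, if_pos hz]
    · rw [if_neg (fun h => he h.1), if_pos hz]
      push Not at he
      obtain ⟨e, he⟩ := he
      have h1 := (Pool.Agent.LibHL77.cfP_ne
        (Finset.prod_ne_zero_iff.1 hρ e (Finset.mem_univ e))).2 z he
      have h2 : pts o δ z = o z := by
        unfold vec at h1
        unfold pts
        rcases hda : δ z with s | q
        · rw [hda] at h1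
          exact absurd rfl h1
        · rfl
      simp only [h2, ho, map_zero, zero_mul]
  · rw [if_neg (fun h => hz h.2), if_neg hz]

end Pool.Agent.LibHE77
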