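import Pool.Agent.LibHE77.NS
import Pool.Agent.LibHE77.B5
import Pool.Agent.LibHE77.D4
import Pool.Agent.LibHE77.D5
import Pool.Agent.LibHE77.D6
import Pool.Agent.LibHL77.X3

/-!
[HE77 D7] torsion implies the condition (N*) (assembly). Proof. `n = 0`: if `D > 0` there is no `δ` with `Cmp` (`K` is empty); if `D = 0` all products are `1` and `∑ m i = 0` by `det_zero` (HL77 X1; or `vanish_of_torsion`, X3). Let `n > 0`; `l = F` (labels in `k[X]`), `g a = gn (F a)`; for `i₀ : Fin n` choose `𝔽 : Fk (lS F i₀) (lS g i₀)`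
(`exists_fk`, B5, for `lS`). As in the proof of `vanish_of_torsion` (HL77 X3): `expandP` (X2; `Sys` from `LibHD77.sys` with `I = Fin n`, `ι = id`, `S = ∅`) writes the class of `δ i` in `CH / torsion` as `∑ ρ, (∏ e, cfP (ρ e) (vec δ e)) • cl (pp ρ (pts δ))` (`pat_eq_pp`, `atm_of_ne`); `det2_all` (D4) for the index set of all `(i, ρ)` with
nonzero coefficient gives, with `num_exp`, `ajn_exp` (D6; `val a s = lam (F a) (jP s)`, zero at infinity), `h1` and `h2` of `nst_core` (D5) for `v i e = vec (δ i) e`, `u i a = lam (F a) (fx (δ i) a)` (`Ok` by `Cmp`). The first part of (N*) is the first part of `nst_core`; for the second part sum the second part of `nst_core` over all `i₀` with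
the factor `1 / (number of b with F b = F i₀)` (or over representatives).
-/

open scoped Classical
open Polynomial

namespace Pool.Agent.LibHE77

open Pool.Agent.LibHyp34 (Hyp Pt Pic jP gn)
open Pool.Agent.LibHD77 (CH Dia cl)
open Pool.Agent.LibHD77.Comb (Cmp)

variable {k : Type} [Field k]

open Pool.Agent.LibHL77 (pp cfP) in
open Pool.Agent.LibHD77 (og) in
/-- the expansion in small diagonals -/
private theorem d7_small [CharZero k] [IsAlgClosed k] {n D : ℕ} (F : Fin n → k[X])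
    [∀ a, Hyp (F a)] {K : Type} [Fintype K] (m : K → ℤ) (δ : K → Dia F D)
    (hδ : ∀ i, ∃ V : Fin D → k[X], Cmp F (δ i) V)
    (h : IsOfFinAddOrder (∑ i, m i • cl (δ i))) (c : K × (Fin D → Finset (Fin n)) → ℤ)
    (hc : c = fun x => ∏ e, cfP (x.2 e) (LibHD77.Comb.vec (δ x.1) e)) :
    IsOfFinAddOrder (∑ x : {x : K × (Fin D → Finset (Fin n)) // c x ≠ 0},
      (m x.1.1 * c x.1) • cl (pp x.1.2 (LibHD77.Comb.pts (og F) (δ x.1.1)) : Dia F D)) := by
  have hS : LibHD77.Orth F (fun _ => (∅ : Set _)) := by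
    intro i j p hp
    exact absurd hp (Set.notMem_empty p)
  have hsys := LibHD77.sys F (fun _ => ∅) hS (D := D) (id : Fin n → Fin n)
  have hexp : ∀ j, (QuotientAddGroup.mk (cl (δ j)) : CH F D ⧸ AddCommGroup.torsion (CH F D)) =
      ∑ ρ : Fin D → Finset (Fin n), c (j, ρ) • (QuotientAddGroup.mk
        (cl (pp ρ (LibHD77.Comb.pts (og F) (δ j)) : Dia F D)) :
          CH F D ⧸ AddCommGroup.torsion (CH F D)) := by
    intro j
    obtain ⟨V, hV⟩ := hδ j
    have h1 := Pool.Agent.LibHL77.expandP hsys (δ j) V hV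
    refine h1.trans ?_
    apply Finset.sum_congr rfl
    intro ρ _
    rw [hc]
    dsimp only
    congr 2
    exact congrArg cl (Pool.Agent.LibHL77.pat_eq_pp ρ (LibHD77.Comb.pts (og F) (δ j)))
  rw [← LibHD77.mk_eq_zero_iff]
  have h1 : (QuotientAddGroup.mk (∑ j, m j • cl (δ j)) :
      CH F D ⧸ AddCommGroup.torsion (CH F D)) = 0 := (LibHD77.mk_eq_zero_iff _).2 h
  have h2 : (QuotientAddGroup.mk (∑ j, m j • cl (δ j)) :
      CH F D ⧸ AddCommGroup.torsion (CH F D)) = ∑ j, m j • (QuotientAddGroup.mk (cl (δ j)) :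
        CH F D ⧸ AddCommGroup.torsion (CH F D)) := by
    have h3 := map_sum (QuotientAddGroup.mk' (AddCommGroup.torsion (CH F D)))
      (fun j => m j • cl (δ j)) Finset.univ
    refine h3.trans ?_
    apply Finset.sum_congr rfl
    intro j _
    exact map_zsmul (QuotientAddGroup.mk' (AddCommGroup.torsion (CH F D))) _ _
  have h4 : (QuotientAddGroup.mk (∑ x : {x : K × (Fin D → Finset (Fin n)) // c x ≠ 0},
      (m x.1.1 * c x.1) • cl (pp x.1.2 (LibHD77.Comb.pts (og F) (δ x.1.1)) : Dia F D)) :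
      CH F D ⧸ AddCommGroup.torsion (CH F D)) =
      ∑ x : {x : K × (Fin D → Finset (Fin n)) // c x ≠ 0}, (m x.1.1 * c x.1) •
        (QuotientAddGroup.mk (cl (pp x.1.2 (LibHD77.Comb.pts (og F) (δ x.1.1)) : Dia F D)) :
          CH F D ⧸ AddCommGroup.torsion (CH F D)) := by
    have h3 := map_sum (QuotientAddGroup.mk' (AddCommGroup.torsion (CH F D)))
      (fun x : {x : K × (Fin D → Finset (Fin n)) // c x ≠ 0} =>
        (m x.1.1 * c x.1) • cl (pp x.1.2 (LibHD77.Comb.pts (og F) (δ x.1.1)) : Dia F D))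
        Finset.univ
    refine h3.trans ?_
    apply Finset.sum_congr rfl
    intro x _
    exact map_zsmul (QuotientAddGroup.mk' (AddCommGroup.torsion (CH F D))) _ _
  rw [h4, ← Pool.Agent.LibHL77.sum_sub (fun x : K × (Fin D → Finset (Fin n)) => c x ≠ 0)
    (fun x => (m x.1 * c x) •
        (QuotientAddGroup.mk (cl (pp x.2 (LibHD77.Comb.pts (og F) (δ x.1)) : Dia F D)) :
          CH F D ⧸ AddCommGroup.torsion (CH F D))), Fintype.sum_prod_type]
  · rw [← h1, h2]
    apply Finset.sum_congr rfl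
    intro j _
    rw [hexp j, Finset.smul_sum]
    apply Finset.sum_congr rfl
    intro ρ _
    dsimp only
    rw [mul_smul]
  · intro x hx
    rw [not_not] at hx
    rw [hx, mul_zero, zero_smul]

/-- sums over the nonzero coefficients -/
private theorem d7_sum {n D : ℕ} {K : Type} [Fintype K] {V : Type} [AddCommGroup V] (m : K → ℤ)
    (c : K × (Fin D → Finset (Fin n)) → ℤ) (Ψ : K → (Fin D → Finset (Fin n)) → V) :
    ∑ x : {x : K × (Fin D → Finset (Fin n)) // c x ≠ 0}, (m x.1.1 * c x.1) • Ψ x.1.1 x.1.2 =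
      ∑ i, m i • ∑ ρ : Fin D → Finset (Fin n), c (i, ρ) • Ψ i ρ := by
  rw [← Pool.Agent.LibHL77.sum_sub (fun x : K × (Fin D → Finset (Fin n)) => c x ≠ 0)
    (fun x => (m x.1 * c x) • Ψ x.1 x.2), Fintype.sum_prod_type]
  · refine Finset.sum_congr rfl fun i _ => ?_
    rw [Finset.smul_sum]
    refine Finset.sum_congr rfl fun ρ _ => ?_
    rw [mul_smul]
  · intro x hx
    rw [not_not] at hx
    rw [hx, mul_zero, zero_smul]

private theorem d7_pts [CharZero k] {n D : ℕ} {F : Fin n → k[X]} [∀ a, Hyp (F a)] (lam : Pool.Agent.LibHL77.Fnl k)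
    (δ : Dia F D) (a : Fin n) :
    lam (F a) (jP (LibHD77.Comb.pts (LibHD77.og F) δ a)) = lam (F a) (LibHD77.fx δ a) := by
  congr 1
  unfold LibHD77.Comb.pts LibHD77.fx LibHD77.og
  rcases hda : δ a with s | p
  · rfl
  · exact Pool.Agent.LibHyp34.jP_inf (F a)

private theorem d7_ok [CharZero k] {n D : ℕ} {F : Fin n → k[X]} [∀ a, Hyp (F a)] (lam : Pool.Agent.LibHL77.Fnl k)
    (δ : Dia F D) (V : Fin D → k[X]) (hV : Cmp F δ V) :
    Ok F (LibHD77.Comb.vec δ) (fun a => lam (F a) (LibHD77.fx δ a)) := by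
  have hne : ∀ e a, LibHD77.Comb.vec δ e a ≠ 0 → ∃ ε, δ a = .inr (e, ε) := by
    intro e a h3
    unfold LibHD77.Comb.vec at h3
    rcases hda : δ a with s | q
    · rw [hda] at h3
      exact absurd rfl h3
    · rw [hda] at h3
      by_cases hq : q.1 = e
      · exact ⟨q.2, by rw [← hq]⟩
      · simp [hq] at h3
  refine ⟨?_, ?_, ?_⟩
  · intro e e' a hee
    by_contra hcon
    push Not at hcon
    obtain ⟨ε, hε⟩ := hne e a hcon.1
    obtain ⟨ε', hε'⟩ := hne e' a hcon.2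
    rw [hε] at hε'
    simp only [Sum.inr.injEq, Prod.mk.injEq] at hε'
    exact hee hε'.1
  · intro e a b ha hb
    obtain ⟨ε, hε⟩ := hne e a ha
    obtain ⟨ε', hε'⟩ := hne e b hb
    rw [← hV.2 a e ε hε, ← hV.2 b e ε' hε']
  · intro e a ha
    obtain ⟨ε, hε⟩ := hne e a ha
    have h6 : LibHD77.fx δ a = 0 := by
      unfold LibHD77.fx
      rw [hε]
    simp only [h6, map_zero]

/-- the two relations for every coordinate `i₀` -/
private theorem d7_core [CharZero k] [IsAlgClosed k] {n D : ℕ} (F : Fin n → k[X])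
    [∀ a, Hyp (F a)] {K : Type} [Fintype K] (m : K → ℤ) (δ : K → Dia F D)
    (hδ : ∀ i, ∃ V : Fin D → k[X], Cmp F (δ i) V)
    (h : IsOfFinAddOrder (∑ i, m i • cl (δ i))) (i₀ : Fin n) (lam : Pool.Agent.LibHL77.Fnl k) (R : Type)
    [CommRing R] [Algebra ℚ R] (θ : QuadraticMap ℤ (Fin n → ℤ) R) (d y : Fin n → R)
    (hθ : Cond F (fun a => gn (F a)) θ y) :
    ∑ i, m i • ∏ e, (θ (LibHD77.vec (δ i) e) + ∑ a, (LibHD77.vec (δ i) e a) ^ 2 • d a) = 0 ∧
    ∑ i, m i • ((∏ e, (θ (LibHD77.vec (δ i) e) + ∑ a, (LibHD77.vec (δ i) e a) ^ 2 • d a)) *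
      ∑ z, if F z = F i₀ then algebraMap ℚ R (lam (F z) (LibHD77.fx (δ i) z)) * y z else 0)
        = 0 := by
  have hgg : ∀ a b, F a = F b → gn (F a) = gn (F b) := fun a b hab => by rw [hab]
  have hggS : ∀ a b : Fin (n + 1), lS F i₀ a = lS F i₀ b →
      lS (fun a => gn (F a)) i₀ a = lS (fun a => gn (F a)) i₀ b := by
    intro a b
    refine Fin.lastCases ?_ (fun a => ?_) a <;> refine Fin.lastCases ?_ (fun b => ?_) b <;>
      simp only [lS_castSucc, lS_last] <;> intro h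
    all_goals first
      | exact trivial
      | exact hgg _ _ h
  obtain ⟨𝔽⟩ := exists_fk (lS F i₀) (lS (fun a => gn (F a)) i₀) hggS
  obtain ⟨c, hc⟩ : ∃ c : K × (Fin D → Finset (Fin n)) → ℤ,
      c = fun x => ∏ e, Pool.Agent.LibHL77.cfP (x.2 e) (LibHD77.Comb.vec (δ x.1) e) := ⟨_, rfl⟩
  have htor := d7_small F m δ hδ h c hc
  have hcx : ∀ x : K × (Fin D → Finset (Fin n)), c x ≠ 0 →
      (∏ e, Pool.Agent.LibHL77.cfP (x.2 e) (LibHD77.Comb.vec (δ x.1) e)) ≠ 0 := by
    intro x hx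
    rw [← show c x = ∏ e, Pool.Agent.LibHL77.cfP (x.2 e) (LibHD77.Comb.vec (δ x.1) e) from
      congrFun hc x]
    exact hx
  have hatm : ∀ x : {x : K × (Fin D → Finset (Fin n)) // c x ≠ 0},
      Pool.Agent.LibHL77.Atm F x.1.2 := by
    intro x
    obtain ⟨V, hV⟩ := hδ x.1.1
    exact (Pool.Agent.LibHL77.atm_of_ne hV (hcx x.1 x.2)).1
  obtain ⟨h1, h2⟩ := det2_all D k F F (fun a b => Iff.rfl) i₀ (fun a => gn (F a)) (fun _ => rfl)
    𝔽 lam _ inferInstance
    (fun x : {x : K × (Fin D → Finset (Fin n)) // c x ≠ 0} => m x.1.1 * c x.1)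
    (fun x => x.1.2) (fun x => LibHD77.Comb.pts (LibHD77.og F) (δ x.1.1)) hatm htor
  have hcc : ∀ i ρ, c (i, ρ) = ∏ e, Pool.Agent.LibHL77.cfP (ρ e) (LibHD77.Comb.vec (δ i) e) :=
    fun i ρ => congrFun hc (i, ρ)
  have e1 : ∑ i, m i • (nv 𝔽 (LibHD77.Comb.vec (δ i)) • 𝔽.vac) = 0 := by
    rw [← h1, d7_sum m c (fun _ ρ => num 𝔽 ρ • 𝔽.vac)]
    refine Finset.sum_congr rfl fun i _ => ?_
    congr 1
    rw [← num_exp, Finset.sum_smul]
    refine Finset.sum_congr rfl fun ρ _ => ?_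
    rw [hcc, smul_assoc]
  have e2 : ∑ i, m i • ((nv 𝔽 (LibHD77.Comb.vec (δ i)) *
      av 𝔽 (fun a => lam (F a) (LibHD77.fx (δ i) a))) • 𝔽.vac) = 0 := by
    have h3 : ∑ x : {x : K × (Fin D → Finset (Fin n)) // c x ≠ 0}, (m x.1.1 * c x.1) •
        ((num 𝔽 x.1.2 * av 𝔽 (fun a => lam (F a) (LibHD77.fx (δ x.1.1) a))) • 𝔽.vac) = 0 := by
      rw [← h2]
      refine Finset.sum_congr rfl fun x _ => ?_
      rw [ajn_exp 𝔽 (LibHD77.og F) (fun a s => lam (F a) (jP s)) (fun a => by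
        rw [LibHD77.og, LibHyp34.jP_inf, map_zero]) (δ x.1.1) x.1.2 (hcx x.1 x.2)]
      simp only [d7_pts]
    rw [← h3, d7_sum m c (fun i ρ =>
      (num 𝔽 ρ * av 𝔽 (fun a => lam (F a) (LibHD77.fx (δ i) a))) • 𝔽.vac)]
    refine Finset.sum_congr rfl fun i _ => ?_
    congr 1
    rw [← num_exp, Finset.sum_mul, Finset.sum_smul]
    refine Finset.sum_congr rfl fun ρ _ => ?_
    rw [hcc, smul_mul_assoc, smul_assoc]
  have hok : ∀ i, Ok F (LibHD77.Comb.vec (δ i)) (fun a => lam (F a) (LibHD77.fx (δ i) a)) := by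
    intro i
    obtain ⟨V, hV⟩ := hδ i
    exact d7_ok lam (δ i) V hV
  have h5 := nst_core hgg 𝔽 m (fun i => LibHD77.Comb.vec (δ i))
    (fun i a => lam (F a) (LibHD77.fx (δ i) a)) hok e1 e2 R θ d y hθ
  simp only [LibHD77.vec_eq] at h5
  convert h5

theorem nst_of_torsion [CharZero k] [IsAlgClosed k] {n D : ℕ} (F : Fin n → k[X])
    [∀ a, Hyp (F a)] {K : Type} [Fintype K] (m : K → ℤ) (δ : K → Dia F D)
    (hδ : ∀ i, ∃ V : Fin D → k[X], Cmp F (δ i) V)
    (h : IsOfFinAddOrder (∑ i, m i • cl (δ i))) : NSt m δ := by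
  intro R _ _ θ d y hθ
  constructor
  · rcases Nat.eq_zero_or_pos n with hn | hn
    · subst hn
      have h1 := (Pool.Agent.LibHL77.vanish_of_torsion F (fun a => a.elim0) D K m δ hδ h 0).1
      have hz : ∀ i, ∏ e, (θ (LibHD77.vec (δ i) e) + ∑ a, (LibHD77.vec (δ i) e a) ^ 2 • d a) =
          (((∏ e : Fin D, (0 : QuadraticMap ℤ (Fin 0 → ℤ) ℤ) (LibHD77.vec (δ i) e) : ℤ)) : R) := by
        intro i
        rw [Int.cast_prod]
        refine Finset.prod_congr rfl fun e _ => ?_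
        have h2 : LibHD77.vec (δ i) e = 0 := by
          funext a
          exact a.elim0
        rw [h2, QuadraticMap.map_zero, QuadraticMap.map_zero, Int.cast_zero, zero_add]
        exact Finset.sum_eq_zero fun a _ => a.elim0
      have h3 := congrArg (Int.cast : ℤ → R) h1
      rw [Int.cast_sum, Int.cast_zero] at h3
      rw [← h3]
      refine Finset.sum_congr rfl fun i _ => ?_
      rw [hz i, Int.cast_mul, zsmul_eq_mul]
    · exact (d7_core F m δ hδ h ⟨0, hn⟩ (fun _ _ => 0) R θ d y hθ).1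
  · intro lam
    have h1 : ∀ i, ∑ a, algebraMap ℚ R (lam (F a) (LibHD77.fx (δ i) a)) * y a =
        ∑ f ∈ Finset.univ.image F, ∑ z, (if F z = f then
          algebraMap ℚ R (lam (F z) (LibHD77.fx (δ i) z)) * y z else 0) := by
      intro i
      rw [Finset.sum_comm]
      refine Finset.sum_congr rfl fun z _ => ?_
      rw [Finset.sum_ite_eq, if_pos (Finset.mem_image_of_mem F (Finset.mem_univ z))]
    simp only [h1, Finset.mul_sum, Finset.smul_sum]
    rw [Finset.sum_comm]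
    refine Finset.sum_eq_zero fun f hf => ?_
    obtain ⟨i₀, _, rfl⟩ := Finset.mem_image.1 hf
    have h2 := (d7_core F m δ hδ h i₀ lam R θ d y hθ).2
    simp only [Finset.mul_sum, Finset.smul_sum] at h2
    exact h2

end Pool.Agent.LibHE77
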