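import Pool.Agent.LibHE77.A5

/-!
[HE77 A6] straightening. Proof. `mu` is bounded on the finite set `AD l D`; induction on the difference. If `Nst l g T`: `c = ` the indicator of `T`. Otherwise `not_nst`: `T = T₀ ∪ nest H`; by the hafnian relation `γ T = - ∑_(M ∈ PM H, M ≠ nest H) γ (T₀ ∪ M)`
(`nest_mem`), `T₀ ∪ M ∈ AD l D`, and `mu (T₀ ∪ M) = mu T₀ + mu M > mu T` (`mu_nest_lt`; `T₀` and `M` have no common set). The coefficients of the `T₀ ∪ M` (induction) do not depend on `γ`: choose them before `γ`.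
-/

open scoped Classical

namespace Pool.Agent.LibHE77

open Pool.Agent.LibHD77.Comb (ind cf)

variable {N : ℕ} {Lb : Type}

private theorem A6_disj (H : Finset (Fin N)) (T₀ M : Finset (Finset (Fin N)))
    (hdj : ∀ t ∈ T₀, Disjoint t H) (hM : M ∈ PM H) : Disjoint T₀ M := by
  obtain ⟨h2, _, hb⟩ : (∀ t ∈ M, t.card = 2) ∧
    (∀ t ∈ M, ∀ t' ∈ M, t ≠ t' → Disjoint t t') ∧ M.biUnion id = H := by
    simpa [PM] using hM
  rw [Finset.disjoint_left]
  intro t ht0 htM
  have hsub : t ⊆ H := by
    rw [← hb]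
    exact Finset.subset_biUnion_of_mem id htM
  have hcard := h2 t htM
  have h0 : t = ∅ := by
    have h1 := hdj t ht0
    have h3 : Disjoint t t := Disjoint.mono_right hsub h1
    exact (disjoint_self).1 h3
  rw [h0] at hcard
  simp at hcard

private theorem A6_union (l : Fin N → Lb) (D : ℕ) (H : Finset (Fin N))
    (T₀ M : Finset (Finset (Fin N))) (hl : ∀ a ∈ H, ∀ b ∈ H, l a = l b) (hA : Adm l T₀)
    (hdj : ∀ t ∈ T₀, Disjoint t H) (hc : 2 * T₀.card + H.card = 2 * D) (hM : M ∈ PM H) :
    T₀ ∪ M ∈ AD l D ∧ mu (T₀ ∪ M) = mu T₀ + mu M := by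
  have hd := A6_disj H T₀ M hdj hM
  obtain ⟨h2, hdM, hb⟩ : (∀ t ∈ M, t.card = 2) ∧
    (∀ t ∈ M, ∀ t' ∈ M, t ≠ t' → Disjoint t t') ∧ M.biUnion id = H := by
    simpa [PM] using hM
  have hsub : ∀ t ∈ M, t ⊆ H := by
    intro t ht
    rw [← hb]
    exact Finset.subset_biUnion_of_mem id ht
  have hcM : H.card = 2 * M.card := by
    have h3 : (M.biUnion id).card = ∑ t ∈ M, t.card :=
      Finset.card_biUnion (t := id) (fun t ht t' ht' hne => hdM t ht t' ht' hne)
    rw [← hb, h3, Finset.sum_congr rfl (fun t ht => h2 t ht)]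
    simp [mul_comm]
  refine ⟨?_, ?_⟩
  · simp only [AD, Finset.mem_filter, Finset.mem_univ, true_and]
    refine ⟨⟨?_, ?_⟩, ?_⟩
    · intro t ht
      rcases Finset.mem_union.1 ht with h | h
      · exact hA.1 t h
      · exact ⟨Or.inr (h2 t h), fun a ha b hb' => hl a (hsub t h ha) b (hsub t h hb')⟩
    · intro t ht t' ht' hne
      rcases Finset.mem_union.1 ht with h | h <;> rcases Finset.mem_union.1 ht' with h' | h'
      · exact hA.2 t h t' h' hne
      · exact Disjoint.mono_right (hsub t' h') (hdj t h)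
      · exact (Disjoint.mono_right (hsub t h) (hdj t' h')).symm
      · exact hdM t h t' h' hne
    · rw [Finset.card_union_of_disjoint hd]
      omega
  · simp only [mu]
    exact Finset.sum_union hd

theorem straighten (l : Fin N → Lb) (g : Fin N → ℕ) (hg : ∀ a b, l a = l b → g a = g b) (D : ℕ)
    (T : Finset (Finset (Fin N))) (hT : T ∈ AD l D) :
    ∃ c : Finset (Finset (Fin N)) → ℤ, (∀ T', c T' ≠ 0 → T' ∈ AD l D ∧ Nst l g T') ∧
      ∀ (W : Type) (_ : AddCommGroup W) (γ : Finset (Finset (Fin N)) → W), HafRel l g D γ →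
        γ T = ∑ T', c T' • γ T' := by
  have key : ∀ (k : ℕ) (T : Finset (Finset (Fin N))), T ∈ AD l D →
      (AD l D).sup mu - mu T = k →
      ∃ c : Finset (Finset (Fin N)) → ℤ, (∀ T', c T' ≠ 0 → T' ∈ AD l D ∧ Nst l g T') ∧
      ∀ (W : Type) (_ : AddCommGroup W) (γ : Finset (Finset (Fin N)) → W), HafRel l g D γ →
        γ T = ∑ T', c T' • γ T' := by
    intro k
    induction k using Nat.strong_induction_on with
    | _ k ih =>
    intro T hT hk
    by_cases hN : Nst l g T
    · refine ⟨fun T' => if T' = T then 1 else 0, ?_, ?_⟩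
      · intro T' h
        by_cases h' : T' = T
        · subst h'
          exact ⟨hT, hN⟩
        · simp [h'] at h
      · intro W _ γ _
        rw [Finset.sum_eq_single T]
        · simp
        · intro b _ hb
          simp [hb]
        · intro h
          exact absurd (Finset.mem_univ _) h
    · obtain ⟨hA, hc⟩ : Adm l T ∧ T.card = D := by simpa [AD] using hT
      obtain ⟨H, T₀, hne, hl, hgc, hA0, hdj, hcard, hTe⟩ := not_nst l g hg T hA hN
      rw [hc] at hcard
      have hnest : nest H ∈ PM H := by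
        obtain ⟨a, ha⟩ := hne
        exact nest_mem H (g a + 1) (by rw [hgc a ha]; ring)
      have hU := fun M hM => A6_union l D H T₀ M hl hA0 hdj hcard hM
      have hmuT : mu T = mu T₀ + mu (nest H) := by
        rw [hTe]
        exact (hU _ hnest).2
      have hex : ∀ M : Finset (Finset (Fin N)), ∃ c : Finset (Finset (Fin N)) → ℤ,
          M ∈ (PM H).erase (nest H) →
          ((∀ T', c T' ≠ 0 → T' ∈ AD l D ∧ Nst l g T') ∧
          ∀ (W : Type) (_ : AddCommGroup W) (γ : Finset (Finset (Fin N)) → W), HafRel l g D γ →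
            γ (T₀ ∪ M) = ∑ T', c T' • γ T') := by
        intro M
        by_cases hM : M ∈ (PM H).erase (nest H)
        · have hM' := Finset.mem_erase.1 hM
          have hlt := mu_nest_lt H M hM'.2 hM'.1
          have hUM := hU M hM'.2
          have hle : mu (T₀ ∪ M) ≤ (AD l D).sup mu := Finset.le_sup hUM.1
          obtain ⟨c, hc1, hc2⟩ := ih ((AD l D).sup mu - mu (T₀ ∪ M)) (by omega) (T₀ ∪ M) hUM.1 rfl
          exact ⟨c, fun _ => ⟨hc1, hc2⟩⟩
        · exact ⟨0, fun h => absurd h hM⟩
      choose c hcc using hex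
      refine ⟨fun T' => - ∑ M ∈ (PM H).erase (nest H), c M T', ?_, ?_⟩
      · intro T' h
        have h1 : ∑ M ∈ (PM H).erase (nest H), c M T' ≠ 0 := by
          intro h0
          exact h (by simp [h0])
        obtain ⟨M, hM, hne'⟩ := Finset.exists_ne_zero_of_sum_ne_zero h1
        exact (hcc M hM).1 T' hne'
      · intro W iW γ hγ
        have h1 := hγ H T₀ hne hl hgc hA0 hdj hcard
        rw [← Finset.add_sum_erase _ _ hnest, ← hTe] at h1
        have h2 : γ T = - ∑ M ∈ (PM H).erase (nest H), γ (T₀ ∪ M) := eq_neg_of_add_eq_zero_left h1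
        rw [h2, Finset.sum_congr rfl (fun M hM => (hcc M hM).2 W iW γ hγ), Finset.sum_comm]
        rw [← Finset.sum_neg_distrib]
        refine Finset.sum_congr rfl fun T' _ => ?_
        rw [neg_smul, Finset.sum_smul]
  exact key _ T hT rfl

end Pool.Agent.LibHE77
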