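import Pool.Agent.LibHE77.K0

/-!
[HE77 U1] the classes `Gt` (combinatorics of patterns). Proof. `Gt_enm`: `enm D (Finset.univ.image τ)` and `τ` are two injective enumerations of the same set of `D` blocks, they differ by a permutation: `Gt_perm` (HD77 C4). `Gt_cov`: the values of `s` at coordinates in a block are not used in `pat`. `Gt_sum`, `Gt_lin`: `Gt_aff` (HD77 C4) for the
three points `s`, `Function.update o a (s a)`, `o` (all in `S`: `oS`; `j a (o a) = 0`: `jo`). `sub_pts`: `pts o δ a` is in `S a`.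
-/

open scoped Classical

namespace Pool.Agent.LibHE77

open Pool.Agent.LibHD77.Comb (Pat sub Cmp Sys Gt Dj pts pat cf vec ind enm)

variable {n : ℕ} {A : Fin n → Type} {L G : Type} [AddCommGroup G] {J : Fin n → Type}
  [∀ a, AddCommGroup (J a)] {D : ℕ} {l : Fin n → L} {o : ∀ a, A a} {j : ∀ a, A a → J a}
  {S : ∀ a, Set (A a)} {Φ : Pat A (Fin D) → G}

theorem Gt_enm (h : Sys l o j S Φ) (τ : Fin D → Finset (Fin n)) (hτ : Dj τ)
    (hi : Function.Injective τ) (s : ∀ a, A a) :
    Gt o Φ (enm D (Finset.univ.image τ)) s = Gt o Φ τ s := by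
  have hc : (Finset.univ.image τ).card = D := by
    rw [Finset.card_image_of_injective _ hi, Finset.card_univ, Fintype.card_fin]
  have h1 : ∀ e, ∃ e', τ e' = enm D (Finset.univ.image τ) e := fun e => by
    have h2 := Pool.Agent.LibHD77.Comb.enm_mem hc e
    rw [Finset.mem_image] at h2
    obtain ⟨e', _, he'⟩ := h2
    exact ⟨e', he'⟩
  choose π hπ using h1
  have hinj : Function.Injective π := by
    intro e e' he
    have h2 : enm D (Finset.univ.image τ) e = enm D (Finset.univ.image τ) e' := by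
      rw [← hπ e, ← hπ e', he]
    exact Pool.Agent.LibHD77.Comb.enm_inj hc h2
  have hbij : Function.Bijective π := Finite.injective_iff_bijective.1 hinj
  have h3 := Pool.Agent.LibHD77.Comb.Gt_perm h τ hτ (Equiv.ofBijective π hbij) s
  rw [← h3]
  congr 1
  funext e
  exact (hπ e).symm

private theorem u1_pat (τ ρ : Fin D → Finset (Fin n)) (s : ∀ a, A a) (a : Fin n) (e : Fin D)
    (ha : a ∈ τ e) (p : A a) : pat o τ ρ (Function.update s a p) = pat o τ ρ s := by
  funext b
  unfold pat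
  by_cases h1 : ∃ e, b ∈ ρ e
  · rw [dif_pos h1, dif_pos h1]
  · rw [dif_neg h1, dif_neg h1]
    by_cases h2 : ∃ e, b ∈ τ e
    · rw [if_pos h2, if_pos h2]
    · rw [if_neg h2, if_neg h2]
      have hb : b ≠ a := by
        rintro rfl
        exact h2 ⟨e, ha⟩
      rw [Function.update_of_ne hb]

theorem Gt_cov (τ : Fin D → Finset (Fin n)) (s : ∀ a, A a) (a : Fin n) (e : Fin D)
    (ha : a ∈ τ e) (p : A a) : Gt o Φ τ (Function.update s a p) = Gt o Φ τ s := by
  unfold Gt
  refine Finset.sum_congr rfl fun ρ _ => ?_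
  rw [u1_pat τ ρ s a e ha p]

private theorem u1_upd (h : Sys l o j S Φ) (τ : Fin D → Finset (Fin n))
    (φ : ∀ a, J a →+ G) (hφ : ∀ s : ∀ a, A a, (∀ a, s a ∈ S a) →
      Gt o Φ τ s = Gt o Φ τ o + ∑ a, φ a (j a (s a))) (a : Fin n) (p : A a) (hp : p ∈ S a) :
    Gt o Φ τ (Function.update o a p) - Gt o Φ τ o = φ a (j a p) := by
  rw [hφ (Function.update o a p) (fun b => by
    by_cases hb : b = a
    · subst hb
      rw [Function.update_self]
      exact hp
    · rw [Function.update_of_ne hb]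
      exact h.oS b), add_sub_cancel_left, Finset.sum_eq_single a]
  · rw [Function.update_self]
  · intro b _ hb
    rw [Function.update_of_ne hb, h.jo, map_zero]
  · intro hb
    exact absurd (Finset.mem_univ a) hb

theorem Gt_sum (h : Sys l o j S Φ) (τ : Fin D → Finset (Fin n)) (hτ : Dj τ) (s : ∀ a, A a)
    (hs : ∀ a, s a ∈ S a) : Gt o Φ τ s = Gt o Φ τ o +
      ∑ a, (Gt o Φ τ (Function.update o a (s a)) - Gt o Φ τ o) := by
  obtain ⟨φ, hφ⟩ := Pool.Agent.LibHD77.Comb.Gt_aff h τ hτ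
  rw [hφ s hs]
  congr 1
  exact Finset.sum_congr rfl fun a _ => (u1_upd h τ φ hφ a (s a) (hs a)).symm

theorem Gt_lin (h : Sys l o j S Φ) (τ : Fin D → Finset (Fin n)) (hτ : Dj τ) (a : Fin n) :
    ∃ φ : J a →+ G, ∀ s ∈ S a, Gt o Φ τ (Function.update o a s) - Gt o Φ τ o = φ (j a s) := by
  obtain ⟨φ, hφ⟩ := Pool.Agent.LibHD77.Comb.Gt_aff h τ hτ
  exact ⟨φ a, fun s hs => u1_upd h τ φ hφ a s hs⟩

end Pool.Agent.LibHE77
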