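import Pool.Agent.LibHE77.NS
import Pool.Agent.LibHE77.U1
import Pool.Agent.LibHE77.A6
import Pool.Agent.LibHE77.A7

/-!
[HE77 R1] the upper bound for the rank (combinatorics, rank inequalities). Proof. `expand` (HD77 C2), `exists_AT`-like argument (HD77 R1; or `Gt_enm`, U1), `Gt_sum` (U1): the closure is contained in the group generated by the `Gt (enm D T) o`, `T ∈ AD l D`, and the `y T a s = Gt (enm D T) (update o a s) - Gt (enm D T) o`, `T ∈ AD l D`, `a` in no set of `T`,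
`s ∈ S a`. `straighten` (A6) with `H1`: the first ones are combinations of those with `T ∈ NN0 l g D`. For `l a = l i₀` (take `i₀ = a`), `s ∈ S a`: choose `q : Q i₀` by `hQ`; `T⁺ = insert (pr a) (blT T) ∈ AD (lS l i₀) (D + 1)` (`AD_ins`, A7); `straighten` for `T⁺`, `H2 i₀ q` and `gaS_ins`: `y T a s = ∑ c (T'') • gaS .. T''`, and the `T''` with
nonzero coefficient and value are `insert (pr a') (blT T')` (`gaS`) with `T' ∈ NN1 l g D a'`, `l a' = l i₀` (`AD_ins`, `nst_ins`; `hg0`), value `y T' a' (pt i₀ q a')`, `pt i₀ q a' ∈ S a'`. So the closure is contained in the sum of the group generated by the `Gt (enm D T) o`, `T ∈ NN0 l g D` (rank `≤` number) and for every `a` and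
`T ∈ NN1 l g D a` the image of the closure of `j a '' S a` under `φ` of `Gt_lin` (rank `≤ r a`): `rank_iSup_le` (HD77 R1, compare the proof of `rank_le` there).
-/

open scoped Classical

namespace Pool.Agent.LibHE77

open Pool.Agent.LibHD77.Comb (Pat sub Cmp Sys Gt Dj pts pat cf vec ind enm)

variable {n : ℕ} {A : Fin n → Type} {L G : Type} [AddCommGroup G] {J : Fin n → Type}
  [∀ a, AddCommGroup (J a)] {D : ℕ} {l : Fin n → L} {o : ∀ a, A a} {j : ∀ a, A a → J a}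
  {S : ∀ a, Set (A a)} {Φ : Pat A (Fin D) → G}

private theorem r1_AD (l : Fin n → L) (T : Finset (Finset (Fin n))) :
    T ∈ AD l D ↔ T ∈ Pool.Agent.LibHD77.Comb.ATs l D := by
  unfold AD Adm Pool.Agent.LibHD77.Comb.ATs
  simp only [Finset.mem_filter, Finset.mem_univ, true_and]
  constructor
  · rintro ⟨⟨h1, h2⟩, h3⟩
    exact ⟨h3, h1, h2⟩
  · rintro ⟨h3, h1, h2⟩
    exact ⟨⟨h1, h2⟩, h3⟩

private theorem r1_first (l : Fin n → L) (g : Fin n → ℕ) (hg : ∀ a b, l a = l b → g a = g b)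
    (γ : Finset (Finset (Fin n)) → G) (H1 : HafRel l g D γ)
    (M : Submodule ℤ G) (hM : ∀ T ∈ NN0 l g D, γ T ∈ M)
    (T : Finset (Finset (Fin n))) (hT : T ∈ AD l D) : γ T ∈ M := by
  obtain ⟨c, hc1, hc2⟩ := straighten l g hg D T hT
  rw [hc2 G _ γ H1]
  refine Submodule.sum_mem _ fun T' _ => ?_
  by_cases hc : c T' = 0
  · rw [hc, zero_smul]
    exact M.zero_mem
  · exact M.smul_mem _ (hM T' (Finset.mem_filter.2 (hc1 T' hc)))

private theorem r1_lS (l : Fin n → L) (g : Fin n → ℕ) (hg : ∀ a b, l a = l b → g a = g b)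
    (i₀ : Fin n) (a b : Fin (n + 1)) (h : lS l i₀ a = lS l i₀ b) : lS g i₀ a = lS g i₀ b := by
  have key : ∀ a : Fin (n + 1), ∃ a' : Fin n, lS l i₀ a = l a' ∧ lS g i₀ a = g a' := by
    intro a
    induction a using Fin.lastCases with
    | last => exact ⟨i₀, lS_last l i₀, lS_last g i₀⟩
    | cast a => exact ⟨a, lS_castSucc l i₀ a, lS_castSucc g i₀ a⟩
  obtain ⟨a', h1, h2⟩ := key a
  obtain ⟨b', h3, h4⟩ := key b
  rw [h2, h4]
  exact hg _ _ (by rw [← h1, ← h3, h])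

private theorem r1_second (l : Fin n → L) (g : Fin n → ℕ) (hg : ∀ a b, l a = l b → g a = g b)
    (hg0 : ∀ a, 0 < g a) (i₀ : Fin n) (y : Finset (Finset (Fin n)) → Fin n → G)
    (H2 : HafRel (lS l i₀) (lS g i₀) (D + 1) (gaS fun T a =>
      if l a = l i₀ ∧ ∀ t ∈ T, a ∉ t then y T a else 0))
    (M : Submodule ℤ G) (hM : ∀ a T, l a = l i₀ → T ∈ NN1 l g D a → y T a ∈ M)
    (T : Finset (Finset (Fin n))) (hT : T ∈ AD l D) (hi : ∀ t ∈ T, i₀ ∉ t) : y T i₀ ∈ M := by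
  obtain ⟨c, hc1, hc2⟩ := straighten (lS l i₀) (lS g i₀) (r1_lS l g hg i₀) (D + 1)
    (insert (pr i₀) (blT T)) ((AD_ins l i₀ D T i₀).2 ⟨hT, rfl, hi⟩)
  have h1 := hc2 G _ _ H2
  rw [gaS_ins, if_pos ⟨rfl, hi⟩] at h1
  rw [h1]
  refine Submodule.sum_mem _ fun T' _ => ?_
  by_cases hc : c T' = 0
  · rw [hc, zero_smul]
    exact M.zero_mem
  refine M.smul_mem _ ?_
  obtain ⟨h2, h3⟩ := hc1 T' hc
  unfold gaS
  refine Submodule.sum_mem _ fun T₁ _ => Submodule.sum_mem _ fun a _ => ?_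
  by_cases h4 : T' = insert (pr a) (blT T₁)
  · rw [if_pos h4]
    rw [h4] at h2 h3
    obtain ⟨h5, h6, h7⟩ := (AD_ins l i₀ D T₁ a).1 h2
    show (if l a = l i₀ ∧ ∀ t ∈ T₁, a ∉ t then y T₁ a else 0) ∈ M
    rw [if_pos ⟨h6, h7⟩]
    refine hM a T₁ h6 (Finset.mem_filter.2 ⟨h5, h7, ?_⟩)
    have h8 : Adm l T₁ := by
      unfold AD at h5
      exact (Finset.mem_filter.1 h5).2.1
    exact (nst_ins l g hg i₀ T₁ h8 a h6 (hg0 i₀) h7).1 h3
  · rw [if_neg h4]
    exact M.zero_mem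

theorem rank_le2 (h : Sys l o j S Φ) (g : Fin n → ℕ) (hg : ∀ a b, l a = l b → g a = g b)
    (hg0 : ∀ a, 0 < g a) (Q : Fin n → Type) (pt : ∀ i₀, Q i₀ → ∀ a, A a)
    (hQ : ∀ i₀ s, s ∈ S i₀ → ∃ q : Q i₀, pt i₀ q i₀ = s ∧ ∀ b, l b = l i₀ → pt i₀ q b ∈ S b)
    (H1 : HafRel l g D fun T => Gt o Φ (enm D T) o)
    (H2 : ∀ i₀ (q : Q i₀), HafRel (lS l i₀) (lS g i₀) (D + 1) (gaS fun T a =>
      if l a = l i₀ ∧ ∀ t ∈ T, a ∉ t then
        Gt o Φ (enm D T) (Function.update o a (pt i₀ q a)) - Gt o Φ (enm D T) o else 0))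
    (r : Fin n → ℕ) (hr : ∀ a, Module.rank ℤ (AddSubgroup.closure (j a '' S a)) ≤ r a) :
    Module.rank ℤ (AddSubgroup.closure {c | ∃ (δ : Pat A (Fin D)) (V : Fin D → L),
      Cmp l δ V ∧ (∀ a s, δ a = .inl s → s ∈ S a) ∧ c = Φ δ}) ≤
      ((NN0 l g D).card + ∑ a, r a * (NN1 l g D a).card : ℕ) := by
  have hφ : ∀ T a, ∃ φ : J a →+ G, T ∈ AD l D → ∀ s ∈ S a,
      Gt o Φ (enm D T) (Function.update o a s) - Gt o Φ (enm D T) o = φ (j a s) := by
    intro T a
    by_cases hT : T ∈ AD l D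
    · obtain ⟨φ, h1⟩ := Gt_lin h (enm D T)
        (Pool.Agent.LibHD77.Comb.enm_Dj ((r1_AD l T).1 hT)) a
      exact ⟨φ, fun _ => h1⟩
    · exact ⟨0, fun h1 => absurd h1 hT⟩
  choose φ hφ using hφ
  let R : Finset (Finset (Fin n)) → Fin n → Submodule ℤ G := fun T a =>
    LinearMap.range ((φ T a).comp (AddSubgroup.closure (j a '' S a)).subtype).toIntLinearMap
  let N0 : Finset (Finset (Fin n)) → Submodule ℤ G := fun T =>
    Submodule.span ℤ {Gt o Φ (enm D T) o}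
  let Na : Fin n → Submodule ℤ G := fun a => ⨆ T ∈ NN1 l g D a, R T a
  let M : Submodule ℤ G := (⨆ T ∈ NN0 l g D, N0 T) ⊔ ⨆ a ∈ (Finset.univ : Finset (Fin n)), Na a
  have hM : Module.rank ℤ M ≤ (((NN0 l g D).card + ∑ a, r a * (NN1 l g D a).card : ℕ) :
      Cardinal) := by
    refine (Submodule.rank_add_le_rank_add_rank _ _).trans ?_
    rw [Nat.cast_add]
    refine add_le_add ?_ ?_
    · have h1 := Pool.Agent.LibHD77.Comb.rank_iSup_le (NN0 l g D) N0 (fun _ => 1) fun T _ => by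
        refine (rank_span_le _).trans ?_
        rw [Cardinal.mk_singleton, Nat.cast_one]
      rw [Finset.sum_const, smul_eq_mul, mul_one] at h1
      exact h1
    · refine Pool.Agent.LibHD77.Comb.rank_iSup_le Finset.univ Na
        (fun a => r a * (NN1 l g D a).card) fun a _ => ?_
      have h1 := Pool.Agent.LibHD77.Comb.rank_iSup_le (NN1 l g D a) (fun T => R T a)
        (fun _ => r a) fun T _ => (rank_range_le _).trans (hr a)
      rw [Finset.sum_const, smul_eq_mul, mul_comm] at h1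
      exact h1
  refine le_trans ?_ hM
  have hM0 : ∀ T ∈ NN0 l g D, Gt o Φ (enm D T) o ∈ M := fun T hT =>
    Submodule.mem_sup_left ((le_iSup₂_of_le T hT le_rfl :
      N0 T ≤ ⨆ T ∈ NN0 l g D, N0 T) (Submodule.mem_span_singleton_self _))
  have hM1 : ∀ a, ∀ T ∈ NN1 l g D a, ∀ s ∈ S a,
      Gt o Φ (enm D T) (Function.update o a s) - Gt o Φ (enm D T) o ∈ M := by
    intro a T hT s hs
    refine Submodule.mem_sup_right ((le_iSup₂_of_le a (Finset.mem_univ a) le_rfl :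
      Na a ≤ ⨆ a ∈ (Finset.univ : Finset (Fin n)), Na a) ?_)
    refine (le_iSup₂_of_le T hT le_rfl : R T a ≤ Na a) ?_
    rw [hφ T a (Finset.mem_filter.1 hT).1 s hs]
    exact ⟨⟨j a s, AddSubgroup.subset_closure ⟨_, hs, rfl⟩⟩, rfl⟩
  have hA0 : ∀ T ∈ AD l D, Gt o Φ (enm D T) o ∈ M := fun T hT =>
    r1_first l g hg (fun T => Gt o Φ (enm D T) o) H1 M hM0 T hT
  have hA1 : ∀ T ∈ AD l D, ∀ a, (∀ t ∈ T, a ∉ t) → ∀ s ∈ S a,
      Gt o Φ (enm D T) (Function.update o a s) - Gt o Φ (enm D T) o ∈ M := by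
    intro T hT a ha s hs
    obtain ⟨q, hq1, hq2⟩ := hQ a s hs
    have h1 := r1_second l g hg hg0 a (fun T b =>
      Gt o Φ (enm D T) (Function.update o b (pt a q b)) - Gt o Φ (enm D T) o) (H2 a q) M
      (fun b T hb hT => hM1 b T hT _ (hq2 b hb)) T hT ha
    simp only [hq1] at h1
    exact h1
  -- the classes are in the submodule
  have hmem : ∀ x ∈ AddSubgroup.closure {c | ∃ (δ : Pat A (Fin D)) (V : Fin D → L),
      Cmp l δ V ∧ (∀ a s, δ a = .inl s → s ∈ S a) ∧ c = Φ δ}, x ∈ M := by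
    intro x hx
    have h1 : AddSubgroup.closure {c | ∃ (δ : Pat A (Fin D)) (V : Fin D → L),
        Cmp l δ V ∧ (∀ a s, δ a = .inl s → s ∈ S a) ∧ c = Φ δ} ≤ M.toAddSubgroup := by
      rw [AddSubgroup.closure_le]
      rintro c ⟨δ, V, hδ, hS, rfl⟩
      change Φ δ ∈ M
      rw [Pool.Agent.LibHD77.Comb.expand h δ V hδ]
      refine Submodule.sum_mem _ fun τ _ => ?_
      by_cases hc : ∏ e, cf (τ e) (vec δ e) = 0
      · rw [hc, zero_smul]
        exact Submodule.zero_mem _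
      refine Submodule.smul_mem _ _ ?_
      obtain ⟨T, hT, ⟨π, rfl⟩, ho⟩ := Pool.Agent.LibHD77.Comb.exists_AT (o := o) δ V hδ τ hc
      have hsS : ∀ a, pts o δ a ∈ S a := by
        intro a
        unfold pts
        cases hda : δ a with
        | inl s => exact hS a s hda
        | inr q => exact h.oS a
      rw [Pool.Agent.LibHD77.Comb.Gt_perm h _ (Pool.Agent.LibHD77.Comb.enm_Dj hT) π,
        Gt_sum h _ (Pool.Agent.LibHD77.Comb.enm_Dj hT) _ hsS]
      refine Submodule.add_mem _ (hA0 T ((r1_AD l T).2 hT)) (Submodule.sum_mem _ fun a _ => ?_)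
      by_cases ha : ∀ t ∈ T, a ∉ t
      · exact hA1 T ((r1_AD l T).2 hT) a ha _ (hsS a)
      · have h3 : ∃ t ∈ T, a ∈ t := by
          by_contra h4
          exact ha fun t ht hat => h4 ⟨t, ht, hat⟩
        rw [ho a h3, Function.update_eq_self, sub_self]
        exact Submodule.zero_mem _
    exact h1 hx
  obtain ⟨H, hH⟩ : ∃ H, H = AddSubgroup.closure {c | ∃ (δ : Pat A (Fin D)) (V : Fin D → L),
      Cmp l δ V ∧ (∀ a s, δ a = .inl s → s ∈ S a) ∧ c = Φ δ} := ⟨_, rfl⟩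
  rw [← hH] at hmem ⊢
  let f : H →ₗ[ℤ] G := H.subtype.toIntLinearMap
  exact LinearMap.rank_le_of_injective
    (f.codRestrict M fun x => hmem x.1 x.2) (by
      intro x y hxy
      have h5 := congrArg Subtype.val hxy
      exact Subtype.ext h5)

end Pool.Agent.LibHE77
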