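import Pool.Agent.LibHE77.D0
import Pool.Agent.LibHD77.R1

/-!
[HE77 R2] the vectors of the alternating classes (combinatorics). `GT Φ o τ s` is the alternating sum over the families of nonempty subsets `ρ e ⊆ τ e`. Proof of `GT_vec`. For `ρ` in the sum `num 𝔽 ρ = ∏ e, xs (ρ e)`, `xs C = ∑ (t ⊆ C, t ≠ ∅) 𝔽.X (bl t)`, and `∑ (C ⊆ B) (-1)^(B.card - C.card) xs C = 𝔽.X (bl B)` (Moebius inversion; `B ≠ ∅`; the terms with
`ρ e = ∅` have `xs ∅ = 0`); `Finset.prod_univ_sum`: `∑ ρ, (signs) • num 𝔽 ρ = ∏ e, 𝔽.X (bl (τ e))`. `GT_exp` writes `GT` as a combination of `Φ ρ s'` with `Atm l ρ`, its first vector is `(∏ e, 𝔽.X (bl (τ e))) • 𝔽.vac`, and its second vector for `s = update o a p`, `a` in no block of `τ`: in `ajn 𝔽 val ρ s'` only `z = a` has a value different from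
zero (`s'` is `o` at the other coordinates; `ho`). `V_blT`: for `T = Finset.univ.image τ` with `τ` injective and `Adm`.
-/

open scoped Classical

namespace Pool.Agent.LibHE77

open Pool.Agent.LibHL77 (Ops Atm Val)
open Pool.Agent.LibHD77.Comb (cf enm)

variable {n : ℕ} {Lb : Type} {l : Fin n → Lb} {g : Fin n → ℕ} {i₀ : Fin n} {D : ℕ}
  {A : Fin n → Type} {G : Type} [AddCommGroup G]

/-- the alternating sum over the families of nonempty subsets of the blocks -/
noncomputable def GT (Φ : (Fin D → Finset (Fin n)) → (∀ a, A a) → G) (o : ∀ a, A a)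
    (τ : Fin D → Finset (Fin n)) (s : ∀ a, A a) : G :=
  ∑ ρ ∈ Fintype.piFinset fun e => (τ e).powerset,
    if ∃ e, ρ e = ∅ then 0 else (∏ e, (-1 : ℤ) ^ ((τ e).card - (ρ e).card)) •
      Φ ρ fun a => if ∃ e, a ∈ τ e then o a else s a

private theorem R2_mob {R : Type} [AddCommGroup R] (B : Finset (Fin n)) :
    ∀ h : Finset (Fin n) → R, ∑ C ∈ B.powerset, (-1 : ℤ) ^ (B.card - C.card) •
      ∑ t ∈ C.powerset, h t = h B := by
  induction B using Finset.induction_on with
  | empty =>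
    intro h
    simp
  | insert a B ha ih =>
    intro h
    rw [Finset.sum_powerset_insert ha, Finset.card_insert_of_notMem ha, ← ih fun t => h (insert a t),
      ← Finset.sum_add_distrib]
    refine Finset.sum_congr rfl fun C hC => ?_
    have hCB : C ⊆ B := Finset.mem_powerset.1 hC
    have haC : a ∉ C := fun h => ha (hCB h)
    have hle : C.card ≤ B.card := Finset.card_le_card hCB
    rw [Finset.card_insert_of_notMem haC, Finset.sum_powerset_insert haC]
    have e1 : B.card + 1 - C.card = (B.card - C.card) + 1 := by omega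
    have e2 : B.card + 1 - (C.card + 1) = B.card - C.card := by omega
    rw [e1, e2, pow_succ, mul_neg_one, neg_smul, smul_add]
    abel

/-- the families in the sum -/
private noncomputable def R2_P (τ : Fin D → Finset (Fin n)) :
    Finset (Fin D → Finset (Fin n)) :=
  (Fintype.piFinset fun e => (τ e).powerset).filter fun ρ => ¬ ∃ e, ρ e = ∅

private theorem R2_mem {τ ρ : Fin D → Finset (Fin n)} (h : ρ ∈ R2_P τ) :
    (∀ e, ρ e ⊆ τ e) ∧ ∀ e, ρ e ≠ ∅ := by
  obtain ⟨h1, h2⟩ := Finset.mem_filter.1 h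
  refine ⟨fun e => Finset.mem_powerset.1 (Fintype.mem_piFinset.1 h1 e), fun e he => h2 ⟨e, he⟩⟩

private noncomputable def R2_m (τ ρ : Fin D → Finset (Fin n)) : ℤ :=
  ∏ e, (-1 : ℤ) ^ ((τ e).card - (ρ e).card)

private theorem R2_sum {W : Type} [AddCommGroup W] (τ : Fin D → Finset (Fin n))
    (f : (Fin D → Finset (Fin n)) → W) :
    ∑ i : {ρ // ρ ∈ R2_P τ}, R2_m τ i.1 • f i.1 =
      ∑ ρ ∈ Fintype.piFinset fun e => (τ e).powerset,
        if ∃ e, ρ e = ∅ then 0 else R2_m τ ρ • f ρ := by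
  rw [Finset.sum_coe_sort (R2_P τ) fun ρ => R2_m τ ρ • f ρ]
  unfold R2_P
  rw [Finset.sum_filter]
  refine Finset.sum_congr rfl fun ρ _ => ?_
  by_cases h : ∃ e, ρ e = ∅
  · rw [if_pos h, if_neg (not_not.2 h)]
  · rw [if_neg h, if_pos h]

private theorem R2_num (𝔽 : Fk (lS l i₀) (lS g i₀)) (τ : Fin D → Finset (Fin n))
    (hτ : ∀ e, (τ e).Nonempty) :
    ∑ i : {ρ // ρ ∈ R2_P τ}, R2_m τ i.1 • num 𝔽 i.1 = ∏ e, 𝔽.X (bl (τ e)) := by
  rw [R2_sum τ fun ρ => num 𝔽 ρ]
  have h1 : ∀ e, 𝔽.X (bl (τ e)) = ∑ C ∈ (τ e).powerset, (-1 : ℤ) ^ ((τ e).card - C.card) •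
      ∑ t ∈ C.powerset, if t = ∅ then 0 else 𝔽.X (bl t) := by
    intro e
    rw [R2_mob (τ e) fun t => if t = ∅ then 0 else 𝔽.X (bl t), if_neg (hτ e).ne_empty]
  rw [Finset.prod_congr rfl fun e _ => h1 e, Finset.prod_univ_sum]
  refine Finset.sum_congr rfl fun ρ _ => ?_
  by_cases h : ∃ e, ρ e = ∅
  · rw [if_pos h]
    obtain ⟨e, he⟩ := h
    symm
    refine Finset.prod_eq_zero (Finset.mem_univ e) ?_
    rw [he]
    simp
  · rw [if_neg h]
    unfold R2_m num
    rw [zsmul_eq_mul, Int.cast_prod, ← Finset.prod_mul_distrib]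
    refine Finset.prod_congr rfl fun e _ => ?_
    rw [zsmul_eq_mul]

theorem GT_exp (Φ : (Fin D → Finset (Fin n)) → (∀ a, A a) → G) (o : ∀ a, A a)
    (τ : Fin D → Finset (Fin n)) (hτ : Atm l τ) (s : ∀ a, A a) :
    ∃ (K : Type) (_ : Fintype K) (m : K → ℤ) (ρ : K → Fin D → Finset (Fin n)),
      (∀ i, Atm l (ρ i)) ∧
      GT Φ o τ s = ∑ i, m i • Φ (ρ i) (fun a => if ∃ e, a ∈ τ e then o a else s a) ∧
      ∀ 𝔽 : Fk (lS l i₀) (lS g i₀),
        ∑ i, m i • (num 𝔽 (ρ i) • 𝔽.vac) = (∏ e, 𝔽.X (bl (τ e))) • 𝔽.vac ∧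
        (∀ (val : ∀ a, A a → ℚ), (∀ a, val a (o a) = 0) → s = o →
          ∑ i, m i • ((num 𝔽 (ρ i) * ajn 𝔽 val (ρ i)
            (fun a => if ∃ e, a ∈ τ e then o a else s a)) • 𝔽.vac) = 0) ∧
        ∀ (val : ∀ a, A a → ℚ) (a : Fin n) (p : A a), (∀ a, val a (o a) = 0) →
          s = Function.update o a p → (∀ e, a ∉ τ e) →
          ∑ i, m i • ((num 𝔽 (ρ i) * ajn 𝔽 val (ρ i)
            (fun a => if ∃ e, a ∈ τ e then o a else s a)) • 𝔽.vac) =
          if l a = l i₀ then (val a p) • (((∏ e, 𝔽.X (bl (τ e))) * 𝔽.X (pr a)) • 𝔽.vac) else 0 := by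
  have hne : ∀ e, (τ e).Nonempty := fun e => (hτ.1.2 e).1
  refine ⟨{ρ // ρ ∈ R2_P τ}, inferInstance, fun i => R2_m τ i.1, fun i => i.1, ?_, ?_, ?_⟩
  · intro i
    obtain ⟨h1, h2⟩ := R2_mem i.2
    refine ⟨⟨fun e e' hee => ?_, fun e => ⟨Finset.nonempty_iff_ne_empty.2 (h2 e), ?_⟩⟩, fun e => ?_⟩
    · exact Finset.disjoint_of_subset_left (h1 e)
        (Finset.disjoint_of_subset_right (h1 e') (hτ.1.1 e e' hee))
    · intro a ha b hb
      exact (hτ.1.2 e).2 a (h1 e ha) b (h1 e hb)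
    · exact (Finset.card_le_card (h1 e)).trans (hτ.2 e)
  · exact (R2_sum τ fun ρ => Φ ρ fun a => if ∃ e, a ∈ τ e then o a else s a).symm
  · intro 𝔽
    have hN := R2_num 𝔽 τ hne
    have hV : ∑ i : {ρ // ρ ∈ R2_P τ}, R2_m τ i.1 • (num 𝔽 i.1 • 𝔽.vac) =
        (∏ e, 𝔽.X (bl (τ e))) • 𝔽.vac := by
      rw [← hN, Finset.sum_smul]
      refine Finset.sum_congr rfl fun i _ => ?_
      rw [smul_assoc]
    refine ⟨hV, ?_, ?_⟩
    · intro val hval hs
      refine Finset.sum_eq_zero fun i _ => ?_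
      have h1 : ajn 𝔽 val i.1 (fun a => if ∃ e, a ∈ τ e then o a else s a) = 0 := by
        unfold ajn
        refine Finset.sum_eq_zero fun z _ => ?_
        have h2 : (if ∃ e, z ∈ τ e then o z else s z) = o z := by
          rw [hs]
          split_ifs <;> rfl
        simp only [h2, hval, map_zero, zero_mul, ite_self]
      rw [h1, mul_zero, zero_smul, smul_zero]
    · intro val a p hval hs ha
      have h1 : ∀ i : {ρ // ρ ∈ R2_P τ},
          ajn 𝔽 val i.1 (fun a => if ∃ e, a ∈ τ e then o a else s a) =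
            if l a = l i₀ then algebraMap ℚ 𝔽.R (val a p) * 𝔽.X (pr a) else 0 := by
        intro i
        obtain ⟨hi, -⟩ := R2_mem i.2
        unfold ajn
        rw [Finset.sum_eq_single a]
        · have h3 : (if ∃ e, a ∈ τ e then o a else s a) = p := by
            rw [if_neg (by rintro ⟨e, he⟩; exact ha e he), hs, Function.update_self]
          have h4 : ∀ e, a ∉ i.1 e := fun e he => ha e (hi e he)
          simp only [h3, h4, not_false_eq_true, implies_true, true_and]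
        · intro z _ hz
          have h2 : (if ∃ e, z ∈ τ e then o z else s z) = o z := by
            rw [hs, Function.update_of_ne hz]
            split_ifs <;> rfl
          simp only [h2, hval, map_zero, zero_mul, ite_self]
        · intro h
          exact absurd (Finset.mem_univ a) h
      rw [Finset.sum_congr rfl fun i _ => by rw [h1 i]]
      by_cases hl : l a = l i₀
      · simp only [if_pos hl]
        have h5 : ∀ i : {ρ // ρ ∈ R2_P τ}, R2_m τ i.1 •
            ((num 𝔽 i.1 * (algebraMap ℚ 𝔽.R (val a p) * 𝔽.X (pr a))) • 𝔽.vac) =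
            (R2_m τ i.1 • num 𝔽 i.1) • ((algebraMap ℚ 𝔽.R (val a p) * 𝔽.X (pr a)) • 𝔽.vac) := by
          intro i
          rw [mul_smul, smul_assoc]
        rw [Finset.sum_congr rfl fun i _ => h5 i, ← Finset.sum_smul, hN, smul_smul,
          mul_left_comm, mul_smul, algebraMap_smul]
      · simp only [if_neg hl, mul_zero, zero_smul, smul_zero, Finset.sum_const_zero]

theorem enm_Atm (T : Finset (Finset (Fin n))) (hT : T ∈ AD l D) : Atm l (enm D T) := by
  obtain ⟨-, ⟨h1, h2⟩, h3⟩ := Finset.mem_filter.1 hT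
  have hm : ∀ e, enm D T e ∈ T := fun e => Pool.Agent.LibHD77.Comb.enm_mem h3 e
  refine ⟨⟨fun e e' hee => h2 _ (hm e) _ (hm e') fun h => ?_, fun e => ⟨?_, (h1 _ (hm e)).2⟩⟩,
    fun e => ?_⟩
  · exact hee (Pool.Agent.LibHD77.Comb.enm_inj h3 h)
  · rw [← Finset.card_pos]
    rcases (h1 _ (hm e)).1 with h | h <;> omega
  · rcases (h1 _ (hm e)).1 with h | h <;> omega

private theorem R2_bl_inj : Function.Injective (bl : Finset (Fin n) → Finset (Fin (n + 1))) :=
  Finset.map_injective _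

private theorem R2_prod {R : Type} [CommRing R] (X : Finset (Fin (n + 1)) → R)
    (T : Finset (Finset (Fin n))) (hT : T.card = D) :
    ∏ e, X (bl (enm D T e)) = ∏ t ∈ blT T, X t := by
  have h1 : Function.Injective (enm D T) := fun e e' h => Pool.Agent.LibHD77.Comb.enm_inj hT h
  have h2 : Finset.univ.image (enm D T) = T := by
    refine Finset.eq_of_subset_of_card_le ?_ ?_
    · intro t ht
      obtain ⟨e, -, rfl⟩ := Finset.mem_image.1 ht
      exact Pool.Agent.LibHD77.Comb.enm_mem hT e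
    · rw [Finset.card_image_of_injective _ h1, Finset.card_univ, Fintype.card_fin, hT]
  unfold blT
  rw [Finset.prod_image fun x _ y _ h => R2_bl_inj h]
  conv_rhs => rw [← h2]
  rw [Finset.prod_image fun x _ y _ h => h1 h]

theorem V_enm (𝔽 : Fk (lS l i₀) (lS g i₀)) (T : Finset (Finset (Fin n))) (hT : T ∈ AD l D) :
    (∏ e, 𝔽.X (bl (enm D T e))) • 𝔽.vac = 𝔽.V (blT T) ∧
    ∀ a, (∀ t ∈ T, a ∉ t) → ((∏ e, 𝔽.X (bl (enm D T e))) * 𝔽.X (pr a)) • 𝔽.vac =
      𝔽.V (insert (pr a) (blT T)) := by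
  have h3 : T.card = D := (Finset.mem_filter.1 hT).2.2
  refine ⟨?_, fun a _ => ?_⟩
  · rw [R2_prod 𝔽.X T h3]
    rfl
  · have h4 : pr a ∉ blT T := by
      intro h
      obtain ⟨t, -, ht⟩ := Finset.mem_image.1 h
      have h5 : Fin.last n ∈ bl t := by
        rw [ht]
        simp [pr]
      obtain ⟨b, -, hb⟩ := Finset.mem_map.1 h5
      exact (Fin.castSucc_lt_last b).ne hb
    rw [R2_prod 𝔽.X T h3]
    unfold Fk.V
    rw [Finset.prod_insert h4, mul_comm]

end Pool.Agent.LibHE77
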