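import Pool.Agent.LibHE77.NS
import Pool.Agent.LibHE77.R2
import Pool.Agent.LibHE77.A7
import Pool.Agent.LibHE77.B5
import Pool.Agent.LibHL77.X4

/-!
[HE77 R3] the lower bound for the rank (linear algebra). Adapt `rank_ge` (HL77 X4). For every `a` choose `s a : Fin (r a) → S a` with `j a (s a i)` linearly independent over `ℤ` (X4: from `hr`). The elements `GT Φ o (enm D T) o`, `T ∈ NN0 l g D`, and `GT Φ o (enm D T) (update o a (s a i)) - GT Φ o (enm D T) o`, `T ∈ NN1 l g D a`, `i : Fin (r a)`, are in the closure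
(`GT`, `enm_Atm`: the blocks `ρ` are `Atm`; the fixed coordinates are `o` or `s a i`) and linearly independent modulo torsion: let an integral combination with coefficients `c T`, `c' (T, a, i)` be torsion (in particular zero). By `GT_exp` (R2) it is a combination of `Φ ρ s'` with `Atm l ρ`; `H` (`Det2`) with any `i₀`, `lam = 0`: `∑ c T • 𝔽.V (blT T) = 0` (`V_enm`), so
`c T = 0` by `indep_nst` (C2; `nst_blT`, `AD_blT`, `AD` ⟹ `Adm`). For `i₀` and `lam : J i₀ →+ ℚ`: the second vectors: `∑ (a, T, i with l a = l i₀) (c' * val a (s a i)) • 𝔽.V (insert (pr a) (blT T)) = 0`; by `indep_nst` (`nst_ins`, `AD_ins`, `ins_inj`) for `a = i₀` and every `T`: `∑ i, c' (T, i₀, i) * lam (j i₀ (s i₀ i)) = 0` for all `lam`, so (`tors`)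
`∑ i, c' • j i₀ (s i₀ i)` is torsion and `c' = 0`.
-/

open scoped Classical

namespace Pool.Agent.LibHE77

open Pool.Agent.LibHL77 (Ops Atm Val)
open Pool.Agent.LibHD77.Comb (cf enm)

variable {n : ℕ} {L : Type} {D : ℕ} {A : Fin n → Type} {G : Type} [AddCommGroup G]
  {J : Fin n → Type} [∀ a, AddCommGroup (J a)]

/-- a generating set of a group of rank at least `r` contains `r` independent elements -/
private theorem r3_pick {M : Type} [AddCommGroup M] (X : Set M) (r : ℕ)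
    (h : (r : Cardinal) ≤ Module.rank ℤ (AddSubgroup.closure X)) :
    ∃ s : Fin r → M, (∀ i, s i ∈ X) ∧ LinearIndependent ℤ s := by
  obtain ⟨I, hI, hmax⟩ := exists_maximal_linearIndepOn ℤ (Subtype.val : X → M)
  obtain ⟨P, hP⟩ : ∃ P, P = Submodule.span ℤ ((Subtype.val : X → M) '' I) := ⟨_, rfl⟩
  rw [← hP] at hmax
  obtain ⟨Q, hQ⟩ : ∃ Q, Q = Submodule.span ℤ X := ⟨_, rfl⟩
  have h1 : Module.rank ℤ (AddSubgroup.closure X) ≤ Module.rank ℤ Q := by
    have hle : ∀ x ∈ AddSubgroup.closure X, x ∈ Q := by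
      intro x hx
      have h2 : AddSubgroup.closure X ≤ Q.toAddSubgroup := by
        rw [AddSubgroup.closure_le, hQ]
        exact Submodule.subset_span
      exact h2 hx
    let f : AddSubgroup.closure X →+ Q :=
      { toFun := fun x => ⟨x.1, hle x.1 x.2⟩
        map_zero' := rfl
        map_add' := fun _ _ => rfl }
    exact LinearMap.rank_le_of_injective f.toIntLinearMap (fun x y hxy => by
      apply Subtype.ext
      exact congrArg (fun z : Q => (z : M)) hxy)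
  have h2 : ∀ x ∈ Q, ∃ a : ℤ, a ≠ 0 ∧ a • x ∈ P := by
    intro x hx
    rw [hQ] at hx
    induction hx using Submodule.span_induction with
    | mem x hx =>
      by_cases hxI : (⟨x, hx⟩ : X) ∈ I
      · refine ⟨1, one_ne_zero, ?_⟩
        rw [one_smul, hP]
        exact Submodule.subset_span ⟨⟨x, hx⟩, hxI, rfl⟩
      · exact hmax ⟨x, hx⟩ hxI
    | zero => exact ⟨1, one_ne_zero, by rw [smul_zero]; exact P.zero_mem⟩
    | add x y _ _ hx hy =>
      obtain ⟨a, ha, ha'⟩ := hx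
      obtain ⟨b, hb, hb'⟩ := hy
      refine ⟨a * b, mul_ne_zero ha hb, ?_⟩
      rw [smul_add]
      apply P.add_mem
      · rw [mul_comm, mul_smul]; exact P.smul_mem _ ha'
      · rw [mul_smul]; exact P.smul_mem _ hb'
    | smul c x _ hx =>
      obtain ⟨a, ha, ha'⟩ := hx
      exact ⟨a, ha, by rw [smul_comm]; exact P.smul_mem _ ha'⟩
  have h3 : Module.rank ℤ Q ≤ Cardinal.mk I := by
    rw [← Submodule.rank_quotient_add_rank (P.comap Q.subtype)]
    have h4 : Module.rank ℤ (Q ⧸ P.comap Q.subtype) = 0 := by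
      rw [rank_eq_zero_iff]
      intro x
      obtain ⟨y, rfl⟩ := Submodule.Quotient.mk_surjective _ x
      obtain ⟨a, ha, ha'⟩ := h2 y.1 y.2
      refine ⟨a, ha, ?_⟩
      rw [← Submodule.Quotient.mk_smul, Submodule.Quotient.mk_eq_zero]
      exact ha'
    rw [h4, zero_add]
    have h5 : Module.rank ℤ (P.comap Q.subtype) ≤ Module.rank ℤ P := by
      let f : (P.comap Q.subtype) →ₗ[ℤ] P :=
        { toFun := fun x => ⟨x.1.1, x.2⟩
          map_add' := fun _ _ => rfl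
          map_smul' := fun _ _ => rfl }
      exact LinearMap.rank_le_of_injective f (fun x y hxy => by
        apply Subtype.ext
        apply Subtype.ext
        exact congrArg (fun z : P => (z : M)) hxy)
    refine h5.trans ?_
    rw [hP]
    refine (rank_span_le _).trans ?_
    exact Cardinal.mk_image_le
  have h6 : Cardinal.mk (Fin r) ≤ Cardinal.mk I := by
    rw [Cardinal.mk_fin]
    exact h.trans (h1.trans h3)
  obtain ⟨f⟩ := h6
  refine ⟨fun i => (f i).1.1, fun i => (f i).1.2, ?_⟩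
  exact hI.comp f f.injective


open Pool.Agent.LibHD77.Comb (enm_mem)

private theorem r3_key {l : Fin n → L} {g : Fin n → ℕ} {i₀ : Fin n} {o : ∀ a, A a}
    (𝔽 : Fk (lS l i₀) (lS g i₀))
    (Φ : (Fin D → Finset (Fin n)) → (∀ a, A a) → G) (val : ∀ a, A a → ℚ)
    (hv0 : ∀ b, val b (o b) = 0) (hdet : Det2 𝔽 Φ val) {X : Type} [Fintype X] (c : X → ℤ)
    (τ : X → Fin D → Finset (Fin n)) (hτ : ∀ x, Atm l (τ x)) (s : X → ∀ a, A a)
    (h : IsOfFinAddOrder (∑ x, c x • GT Φ o (τ x) (s x))) (w : X → 𝔽.F)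
    (hw : ∀ x, (s x = o ∧ w x = 0) ∨ ∃ (a : Fin n) (p : A a), s x = Function.update o a p ∧
      (∀ e, a ∉ τ x e) ∧ w x = if l a = l i₀ then
        (val a p) • (((∏ e, 𝔽.X (bl (τ x e))) * 𝔽.X (pr a)) • 𝔽.vac) else 0) :
    ∑ x, c x • ((∏ e, 𝔽.X (bl (τ x e))) • 𝔽.vac) = 0 ∧ ∑ x, c x • w x = 0 := by
  choose K fK m ρ hρ hGT h𝔽 using fun x => GT_exp (i₀ := i₀) (g := g) Φ o (τ x) (hτ x) (s x)
  obtain ⟨h1, h2⟩ := hdet (Σ x, K x) inferInstance (fun q => c q.1 * m q.1 q.2)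
    (fun q => ρ q.1 q.2) (fun q a => if ∃ e, a ∈ τ q.1 e then o a else s q.1 a)
    (fun q => hρ q.1 q.2) (by
      have h3 : ∑ q : Σ x, K x, (c q.1 * m q.1 q.2) •
          Φ (ρ q.1 q.2) (fun a => if ∃ e, a ∈ τ q.1 e then o a else s q.1 a) =
          ∑ x, c x • GT Φ o (τ x) (s x) := by
        rw [Fintype.sum_sigma]
        refine Finset.sum_congr rfl fun x _ => ?_
        rw [hGT x, Finset.smul_sum]
        refine Finset.sum_congr rfl fun i _ => ?_
        rw [mul_smul]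
      rw [h3]
      exact h)
  constructor
  · rw [← h1, Fintype.sum_sigma]
    refine Finset.sum_congr rfl fun x _ => ?_
    rw [← (h𝔽 x 𝔽).1, Finset.smul_sum]
    refine Finset.sum_congr rfl fun i _ => ?_
    rw [mul_smul]
  · rw [← h2, Fintype.sum_sigma]
    refine Finset.sum_congr rfl fun x _ => ?_
    have h4 : w x = ∑ i, m x i • ((num 𝔽 (ρ x i) * ajn 𝔽 val (ρ x i)
        (fun a => if ∃ e, a ∈ τ x e then o a else s x a)) • 𝔽.vac) := by
      rcases hw x with ⟨ho, hwx⟩ | ⟨a, p, hs, hna, hwx⟩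
      · rw [hwx, (h𝔽 x 𝔽).2.1 val hv0 ho]
      · rw [hwx, (h𝔽 x 𝔽).2.2 val a p hv0 hs hna]
    rw [h4, Finset.smul_sum]
    refine Finset.sum_congr rfl fun i _ => ?_
    exact (mul_smul (c x) (m x i) _).symm

private theorem r3_rel {l : Fin n → L} {g : Fin n → ℕ} {i₀ : Fin n} {o : ∀ a, A a}
    (𝔽 : Fk (lS l i₀) (lS g i₀))
    (Φ : (Fin D → Finset (Fin n)) → (∀ a, A a) → G) (val : ∀ a, A a → ℚ)
    (hv0 : ∀ b, val b (o b) = 0) (hdet : Det2 𝔽 Φ val) {X₁ X₂ : Type} [Fintype X₁] [Fintype X₂]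
    (c₁ : X₁ → ℤ) (c₂ : X₂ → ℤ) (T₁ : X₁ → Finset (Finset (Fin n)))
    (T₂ : X₂ → Finset (Finset (Fin n))) (a₂ : X₂ → Fin n) (p₂ : ∀ x, A (a₂ x))
    (h₁ : ∀ x, T₁ x ∈ AD l D) (h₂ : ∀ x, T₂ x ∈ AD l D) (h₃ : ∀ x, ∀ t ∈ T₂ x, a₂ x ∉ t)
    (h : (∑ x, c₁ x • GT Φ o (enm D (T₁ x)) o) + ∑ x, c₂ x •
      (GT Φ o (enm D (T₂ x)) (Function.update o (a₂ x) (p₂ x)) - GT Φ o (enm D (T₂ x)) o) = 0) :
    ∑ x, (c₁ x : ℚ) • 𝔽.V (blT (T₁ x)) = 0 ∧
      ∑ x, (if l (a₂ x) = l i₀ then (c₂ x : ℚ) * val (a₂ x) (p₂ x) else 0) •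
        𝔽.V (insert (pr (a₂ x)) (blT (T₂ x))) = 0 := by
  have hcard : ∀ T : Finset (Finset (Fin n)), T ∈ AD l D → T.card = D := fun T hT =>
    (Finset.mem_filter.1 hT).2.2
  obtain ⟨k1, k2⟩ := r3_key (X := X₁ ⊕ (X₂ ⊕ X₂)) 𝔽 Φ val hv0 hdet
    (Sum.elim c₁ (Sum.elim c₂ (fun x => - c₂ x)))
    (Sum.elim (fun x => enm D (T₁ x)) (Sum.elim (fun x => enm D (T₂ x)) (fun x => enm D (T₂ x))))
    (by
      rintro (x | x | x)
      · exact enm_Atm _ (h₁ x)
      · exact enm_Atm _ (h₂ x)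
      · exact enm_Atm _ (h₂ x))
    (Sum.elim (fun _ => o) (Sum.elim (fun x => Function.update o (a₂ x) (p₂ x)) (fun _ => o)))
    (by
      have h1 : (∑ jj : X₁ ⊕ (X₂ ⊕ X₂), (Sum.elim c₁ (Sum.elim c₂ (fun x => - c₂ x)) jj : ℤ) •
          GT Φ o (Sum.elim (fun x => enm D (T₁ x)) (Sum.elim (fun x => enm D (T₂ x))
            (fun x => enm D (T₂ x))) jj)
          (Sum.elim (fun _ => o) (Sum.elim (fun x => Function.update o (a₂ x) (p₂ x))
            (fun _ => o)) jj)) = 0 := by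
        rw [Fintype.sum_sum_type, Fintype.sum_sum_type, ← h]
        simp only [Sum.elim_inl, Sum.elim_inr]
        congr 1
        rw [← Finset.sum_add_distrib]
        refine Finset.sum_congr rfl fun x _ => ?_
        rw [smul_sub, neg_smul, sub_eq_add_neg]
      rw [h1]
      exact IsOfFinAddOrder.zero)
    (Sum.elim (fun _ => 0) (Sum.elim (fun x => if l (a₂ x) = l i₀ then
      (val (a₂ x) (p₂ x)) • 𝔽.V (insert (pr (a₂ x)) (blT (T₂ x))) else 0) (fun _ => 0)))
    (by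
      rintro (x | x | x)
      · exact Or.inl ⟨rfl, rfl⟩
      · refine Or.inr ⟨a₂ x, p₂ x, rfl, ?_, ?_⟩
        · intro e
          exact h₃ x _ (enm_mem (hcard _ (h₂ x)) e)
        · have h2 := (V_enm 𝔽 (T₂ x) (h₂ x)).2 (a₂ x) (h₃ x)
          simp only [Sum.elim_inl, Sum.elim_inr]
          rw [h2]
      · exact Or.inl ⟨rfl, rfl⟩)
  constructor
  · rw [Fintype.sum_sum_type, Fintype.sum_sum_type] at k1
    simp only [Sum.elim_inl, Sum.elim_inr] at k1
    rw [← Finset.sum_add_distrib, Finset.sum_eq_zero (s := Finset.univ)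
      (f := fun x : X₂ => c₂ x • ((∏ e, 𝔽.X (bl (enm D (T₂ x) e))) • 𝔽.vac) +
        (- c₂ x) • ((∏ e, 𝔽.X (bl (enm D (T₂ x) e))) • 𝔽.vac)), add_zero] at k1
    · rw [← k1]
      refine Finset.sum_congr rfl fun x _ => ?_
      rw [(V_enm 𝔽 (T₁ x) (h₁ x)).1, Int.cast_smul_eq_zsmul]
    · intro x _
      rw [neg_smul, add_neg_cancel]
  · rw [Fintype.sum_sum_type, Fintype.sum_sum_type] at k2
    simp only [Sum.elim_inl, Sum.elim_inr, smul_zero, Finset.sum_const_zero, zero_add,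
      add_zero] at k2
    rw [← k2]
    refine Finset.sum_congr rfl fun x _ => ?_
    by_cases hx : l (a₂ x) = l i₀
    · rw [if_pos hx, if_pos hx, mul_smul, Int.cast_smul_eq_zsmul]
    · rw [if_neg hx, if_neg hx, zero_smul, smul_zero]

private theorem r3_push {N : ℕ} {Lb : Type} {l' : Fin N → Lb} {g' : Fin N → ℕ}
    (hg' : ∀ a b, l' a = l' b → g' a = g' b) (𝔽 : Fk l' g') {Y : Type} [Fintype Y] (c : Y → ℚ)
    (U : Y → Finset (Finset (Fin N))) (hU : ∀ y, c y ≠ 0 → Adm l' (U y) ∧ Nst l' g' (U y))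
    (h : ∑ y, c y • 𝔽.V (U y) = 0) (U₀ : Finset (Finset (Fin N))) :
    ∑ y, (if U y = U₀ then c y else 0) = 0 := by
  refine indep_nst hg' 𝔽 (fun U₀ => ∑ y, if U y = U₀ then c y else 0) ?_ ?_ U₀
  · intro T hT
    obtain ⟨y, _, hy⟩ := Finset.exists_ne_zero_of_sum_ne_zero hT
    by_cases hyT : U y = T
    · rw [if_pos hyT] at hy
      rw [← hyT]
      exact hU y hy
    · rw [if_neg hyT] at hy
      exact absurd rfl hy
  · rw [← h]
    simp only [Finset.sum_smul]
    rw [Finset.sum_comm]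
    refine Finset.sum_congr rfl fun y _ => ?_
    rw [Finset.sum_eq_single (U y)]
    · rw [if_pos rfl]
    · intro T _ hne
      rw [if_neg (Ne.symm hne), zero_smul]
    · intro hn
      exact absurd (Finset.mem_univ _) hn

/-- the indices of the independent elements -/
private abbrev r3_S (l : Fin n → L) (g : Fin n → ℕ) (D : ℕ) (r : Fin n → ℕ) : Type :=
  Σ a : Fin n, {T // T ∈ NN1 l g D a} × Fin (r a)

private theorem r3_gS {l : Fin n → L} {g : Fin n → ℕ} (hg : ∀ a b, l a = l b → g a = g b)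
    (i₀ : Fin n) (a b : Fin (n + 1)) (h : lS l i₀ a = lS l i₀ b) : lS g i₀ a = lS g i₀ b := by
  have h1 : ∀ x : Fin (n + 1), ∃ y : Fin n, lS l i₀ x = l y ∧ lS g i₀ x = g y := by
    intro x
    induction x using Fin.lastCases with
    | last => exact ⟨i₀, lS_last l i₀, lS_last g i₀⟩
    | cast y => exact ⟨y, lS_castSucc l i₀ y, lS_castSucc g i₀ y⟩
  obtain ⟨x, hx1, hx2⟩ := h1 a
  obtain ⟨y, hy1, hy2⟩ := h1 b
  rw [hx2, hy2]
  apply hg
  rw [← hx1, ← hy1, h]

private theorem r3_card {M : Type} [AddCommGroup M] (Cl : AddSubgroup M) {X₁ X₂ : Type}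
    [Fintype X₁] [Fintype X₂] (v₁ : X₁ → M) (v₂ : X₂ → M) (h₁ : ∀ x, v₁ x ∈ Cl)
    (h₂ : ∀ x, v₂ x ∈ Cl) (h : ∀ c : X₁ ⊕ X₂ → ℤ,
      (∑ x, c (Sum.inl x) • v₁ x) + ∑ x, c (Sum.inr x) • v₂ x = 0 → ∀ i, c i = 0) :
    ((Fintype.card X₁ + Fintype.card X₂ : ℕ) : Cardinal) ≤ Module.rank ℤ Cl := by
  have hind : LinearIndependent ℤ (Sum.elim (fun x => (⟨v₁ x, h₁ x⟩ : Cl))
      (fun x => (⟨v₂ x, h₂ x⟩ : Cl))) := by
    rw [Fintype.linearIndependent_iff]
    intro c hc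
    refine h c ?_
    have h1 := congrArg Cl.subtype hc
    rw [Fintype.sum_sum_type, map_add, map_sum, map_sum, map_zero] at h1
    rw [← h1]
    congr 1
  refine le_trans (le_of_eq ?_) hind.cardinal_le_rank
  rw [Cardinal.mk_fintype, Fintype.card_sum]

theorem rank_ge2 (l : Fin n → L) (hn : 0 < n) (g : Fin n → ℕ)
    (hg : ∀ a b, l a = l b → g a = g b) (hg0 : ∀ a, 0 < g a) (o : ∀ a, A a)
    (j : ∀ a, A a → J a) (jo : ∀ a, j a (o a) = 0)
    (Φ : (Fin D → Finset (Fin n)) → (∀ a, A a) → G) (S : ∀ a, Set (A a))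
    (tors : ∀ (a : Fin n) (x : J a), (∀ lam : J a →+ ℚ, lam x = 0) → IsOfFinAddOrder x)
    (H : ∀ (i₀ : Fin n) (lam : J i₀ →+ ℚ) (𝔽 : Fk (lS l i₀) (lS g i₀)),
      ∃ val : ∀ a, A a → ℚ, (∀ s, val i₀ s = lam (j i₀ s)) ∧ (∀ b, val b (o b) = 0) ∧
        Det2 𝔽 Φ val)
    (r : Fin n → ℕ) (hr : ∀ a, (r a : Cardinal) ≤ Module.rank ℤ (AddSubgroup.closure (j a '' S a))) :
    (((NN0 l g D).card + ∑ a, r a * (NN1 l g D a).card : ℕ) : Cardinal) ≤
      Module.rank ℤ (AddSubgroup.closure {c | ∃ (τ : Fin D → Finset (Fin n)) (s : ∀ a, A a),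
        Atm l τ ∧ (∀ a, s a = o a ∨ s a ∈ S a) ∧ c = Φ τ s}) := by
  have hpick : ∀ a, ∃ s : Fin (r a) → A a, (∀ i, s i ∈ S a) ∧
      LinearIndependent ℤ fun i => j a (s i) := by
    intro a
    obtain ⟨s, hs, hs'⟩ := r3_pick _ _ (hr a)
    choose s' hs1 hs2 using hs
    refine ⟨s', hs1, ?_⟩
    have h1 : (fun i => j a (s' i)) = s := funext hs2
    rw [h1]
    exact hs'
  choose sA hsS hsI using hpick
  obtain ⟨C, hC⟩ : ∃ C : Set G, C = {c | ∃ (τ : Fin D → Finset (Fin n)) (s : ∀ a, A a),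
        Atm l τ ∧ (∀ a, s a = o a ∨ s a ∈ S a) ∧ c = Φ τ s} := ⟨_, rfl⟩
  rw [← hC]
  have hcard : ∀ T : Finset (Finset (Fin n)), T ∈ AD l D → T.card = D := fun T hT =>
    (Finset.mem_filter.1 hT).2.2
  have hadm : ∀ T : Finset (Finset (Fin n)), T ∈ AD l D → Adm l T := fun T hT =>
    (Finset.mem_filter.1 hT).2.1
  have hcl : ∀ (T : Finset (Finset (Fin n))), T ∈ AD l D → ∀ s : ∀ a, A a,
      (∀ a, s a = o a ∨ s a ∈ S a) → GT Φ o (enm D T) s ∈ AddSubgroup.closure C := by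
    intro T hT s hs
    obtain ⟨K, _, m, ρ, hρ, hGT, _⟩ := GT_exp (i₀ := (⟨0, hn⟩ : Fin n)) (g := g) Φ o (enm D T)
      (enm_Atm T hT) s
    rw [hGT]
    refine AddSubgroup.sum_mem _ fun i _ => AddSubgroup.zsmul_mem _ ?_ _
    apply AddSubgroup.subset_closure
    rw [hC]
    refine ⟨ρ i, _, hρ i, fun a => ?_, rfl⟩
    by_cases h1 : ∃ e, a ∈ enm D T e
    · left
      rw [if_pos h1]
    · rw [if_neg h1]
      exact hs a
  have hN0 : ∀ T : {T // T ∈ NN0 l g D}, T.1 ∈ AD l D := fun T => (Finset.mem_filter.1 T.2).1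
  have hN1 : ∀ x : r3_S l g D r, x.2.1.1 ∈ AD l D := fun x => (Finset.mem_filter.1 x.2.1.2).1
  have hN1' : ∀ x : r3_S l g D r, ∀ t ∈ x.2.1.1, x.1 ∉ t := fun x =>
    (Finset.mem_filter.1 x.2.1.2).2.1
  have hup : ∀ (x : r3_S l g D r) (a : Fin n),
      Function.update o x.1 (sA x.1 x.2.2) a = o a ∨
        Function.update o x.1 (sA x.1 x.2.2) a ∈ S a := by
    intro x a
    by_cases ha : a = x.1
    · subst ha
      right
      rw [Function.update_self]
      exact hsS _ _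
    · left
      rw [Function.update_of_ne ha]
  have hmem1 : ∀ T : {T // T ∈ NN0 l g D}, GT Φ o (enm D T.1) o ∈ AddSubgroup.closure C :=
    fun T => hcl T.1 (hN0 T) o fun a => Or.inl rfl
  have hmem2 : ∀ x : r3_S l g D r,
      GT Φ o (enm D x.2.1.1) (Function.update o x.1 (sA x.1 x.2.2)) ∈ AddSubgroup.closure C :=
    fun x => hcl x.2.1.1 (hN1 x) _ (hup x)
  have hmem3 : ∀ x : r3_S l g D r, GT Φ o (enm D x.2.1.1) o ∈ AddSubgroup.closure C :=
    fun x => hcl x.2.1.1 (hN1 x) o fun a => Or.inl rfl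
  have hmain : ∀ c : {T // T ∈ NN0 l g D} ⊕ r3_S l g D r → ℤ,
      (∑ T : {T // T ∈ NN0 l g D}, c (Sum.inl T) • GT Φ o (enm D T.1) o) +
        ∑ x : r3_S l g D r, c (Sum.inr x) •
          (GT Φ o (enm D x.2.1.1) (Function.update o x.1 (sA x.1 x.2.2)) -
            GT Φ o (enm D x.2.1.1) o) = 0 → ∀ i, c i = 0 := by
    intro c hc1
    -- the two relations
    have hrel : ∀ (i₀ : Fin n) (lam : J i₀ →+ ℚ) (𝔽 : Fk (lS l i₀) (lS g i₀)),
        ∃ val : ∀ a, A a → ℚ, (∀ s, val i₀ s = lam (j i₀ s)) ∧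
          ∑ T : {T // T ∈ NN0 l g D}, (c (Sum.inl T) : ℚ) • 𝔽.V (blT T.1) = 0 ∧
          ∑ x : r3_S l g D r, (if l x.1 = l i₀ then
            (c (Sum.inr x) : ℚ) * val x.1 (sA x.1 x.2.2) else 0) •
              𝔽.V (insert (pr x.1) (blT x.2.1.1)) = 0 := by
      intro i₀ lam 𝔽
      obtain ⟨val, hv1, hv2, hdet⟩ := H i₀ lam 𝔽
      obtain ⟨k1, k2⟩ := r3_rel (X₁ := {T // T ∈ NN0 l g D}) (X₂ := r3_S l g D r) 𝔽 Φ val hv2 hdet
        (fun T => c (Sum.inl T)) (fun x => c (Sum.inr x)) (fun T => T.1) (fun x => x.2.1.1)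
        (fun x => x.1) (fun x => sA x.1 x.2.2) hN0 hN1 hN1' hc1
      exact ⟨val, hv1, k1, k2⟩
    -- the coefficients
    have hx0 : ∀ T : {T // T ∈ NN0 l g D}, c (Sum.inl T) = 0 := by
      intro T
      obtain ⟨𝔽⟩ := exists_fk (lS l (⟨0, hn⟩ : Fin n)) (lS g (⟨0, hn⟩ : Fin n))
        (r3_gS hg ⟨0, hn⟩)
      obtain ⟨val, -, h1, -⟩ := hrel ⟨0, hn⟩ 0 𝔽
      have h2 := r3_push (r3_gS hg ⟨0, hn⟩) 𝔽 (fun T : {T // T ∈ NN0 l g D} =>
        (c (Sum.inl T) : ℚ)) (fun T => blT T.1) (by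
          intro T' _
          refine ⟨?_, ?_⟩
          · exact (Finset.mem_filter.1 ((AD_blT l ⟨0, hn⟩ D T'.1).2 (hN0 T'))).2.1
          · exact (nst_blT l g ⟨0, hn⟩ T'.1).2 (Finset.mem_filter.1 T'.2).2) h1 (blT T.1)
      rw [Finset.sum_eq_single T] at h2
      · rw [if_pos rfl] at h2
        exact_mod_cast h2
      · intro T' _ hne
        rw [if_neg]
        intro h3
        exact hne (Subtype.ext (blT_inj h3))
      · intro h3
        exact absurd (Finset.mem_univ T) h3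
    have hy0 : ∀ x : r3_S l g D r, c (Sum.inr x) = 0 := by
      rintro ⟨a, T, i⟩
      have hlam : ∀ lam : J a →+ ℚ,
          lam (∑ i, c (Sum.inr ⟨a, T, i⟩) • j a (sA a i)) = 0 := by
        intro lam
        obtain ⟨𝔽⟩ := exists_fk (lS l a) (lS g a) (r3_gS hg a)
        obtain ⟨val, hv1, -, h1⟩ := hrel a lam 𝔽
        have h2 := r3_push (r3_gS hg a) 𝔽 (fun x : r3_S l g D r =>
          if l x.1 = l a then (c (Sum.inr x) : ℚ) * val x.1 (sA x.1 x.2.2) else 0)
          (fun x => insert (pr x.1) (blT x.2.1.1)) (by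
            intro x hx
            have hl : l x.1 = l a := by
              by_contra hne
              exact hx (if_neg hne)
            refine ⟨?_, ?_⟩
            · exact (Finset.mem_filter.1 ((AD_ins l a D x.2.1.1 x.1).2
                ⟨hN1 x, hl, hN1' x⟩)).2.1
            · exact (nst_ins l g hg a x.2.1.1 (hadm _ (hN1 x)) x.1 hl (hg0 a) (hN1' x)).2
                (Finset.mem_filter.1 x.2.1.2).2.2) h1 (insert (pr a) (blT T.1))
        rw [Fintype.sum_sigma, Finset.sum_eq_single a] at h2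
        · rw [Fintype.sum_prod_type, Finset.sum_eq_single T] at h2
          · rw [map_sum, ← h2]
            refine Finset.sum_congr rfl fun i _ => ?_
            rw [if_pos rfl, if_pos rfl, hv1, map_zsmul, zsmul_eq_mul]
          · intro T' _ hne
            apply Finset.sum_eq_zero
            intro i _
            rw [if_neg]
            intro h3
            exact hne (Subtype.ext (ins_inj h3).2)
          · intro h3
            exact absurd (Finset.mem_univ T) h3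
        · intro b _ hb
          apply Finset.sum_eq_zero
          intro x _
          rw [if_neg]
          intro h3
          exact hb (ins_inj h3).1
        · intro h3
          exact absurd (Finset.mem_univ a) h3
      have h2 := tors a _ hlam
      rw [isOfFinAddOrder_iff_nsmul_eq_zero] at h2
      obtain ⟨N, hN, h3⟩ := h2
      rw [Finset.smul_sum] at h3
      have h4 : ∑ i, ((N : ℤ) * c (Sum.inr ⟨a, T, i⟩)) • j a (sA a i) = 0 := by
        rw [← h3]
        refine Finset.sum_congr rfl fun i _ => ?_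
        rw [mul_smul, natCast_zsmul]
      have h5 := Fintype.linearIndependent_iff.1 (hsI a) _ h4 i
      rcases mul_eq_zero.1 h5 with h6 | h6
      · exact absurd (by exact_mod_cast h6) hN.ne'
      · exact h6
    rintro (T | x)
    · exact hx0 T
    · exact hy0 x
  refine le_trans (le_of_eq ?_) (r3_card (AddSubgroup.closure C)
    (fun T : {T // T ∈ NN0 l g D} => GT Φ o (enm D T.1) o)
    (fun x : r3_S l g D r => GT Φ o (enm D x.2.1.1) (Function.update o x.1 (sA x.1 x.2.2)) -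
            GT Φ o (enm D x.2.1.1) o) hmem1
    (fun x => AddSubgroup.sub_mem _ (hmem2 x) (hmem3 x)) hmain)
  congr 2
  · rw [Fintype.card_coe]
  · rw [Fintype.card_sigma]
    refine Finset.sum_congr rfl fun a _ => ?_
    rw [Fintype.card_prod, Fintype.card_coe, Fintype.card_fin, mul_comm]

end Pool.Agent.LibHE77
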