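import Pool.Agent.LibHE77.U7
import Pool.Agent.LibHE77.D4
import Pool.Agent.LibHE77.R1
import Pool.Agent.LibHE77.R3
import Pool.Agent.LibHL77.X5

/-!
[HE77 R4] the rank of the groups of diagonals (assembly). `n = 0`: `rank_eq` (HL77 X5; `Small` is trivial) and the two numbers agree (for `n = 0` the only family is `∅`; `nAt`). `n > 0`, `F = Pr ι f`, `g = gn ∘ F` (`Hyp.one_le`). `≤`: as in `rank_dia` (HD77 F2): `F2_rank_le`, `isPt_pnt`, `cl_isPt`; `rank_le2` (R1) for `sys_Fq` (U2),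
`Q i₀ = {q : Pt (F i₀) // q = .inf ∨ q ∈ S (ι i₀)}`, `pt i₀ q a = tr (F i₀) (F a) q.1` (if `F b = F i₀` then `ι b = ι i₀` as `f` is injective), `H1`: `haf_geo` (U2), `H2`: `star_geo` (U3) for the sets `Sa f S` (`Sa_orth`, `Sa_neg`, `Sa_sub`, U7); the point at infinity does not change the closure. `≥`: as in `rank_eq` (HL77 X5) with `rank_ge2` (R3);
`H`: `det2_all` (D4) for `l = F` and the family of functionals which is `lam` for the polynomial `F i₀` and zero for the others (`fnl0`, HL77 X3); `tors`: `tors_iff`.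
-/

open scoped Classical
open Polynomial

namespace Pool.Agent.LibHE77

open Pool.Agent.LibHyp34 (Hyp Pt Pic jP gn neg)
open Pool.Agent.LibHD77 (CH Dia og cl Orth Pr DG)

variable {k : Type} [Field k] [CharZero k] [IsAlgClosed k] {I : Type}

private theorem R4_tr_self {k : Type} [Field k] (g : k[X]) (q : Pt g) :
    Pool.Agent.LibHL77.tr g g q = q := by
  unfold Pool.Agent.LibHL77.tr
  rw [dif_pos rfl]

private theorem R4_tr {k : Type} [Field k] {I : Type} (f : I → k[X]) (S : ∀ i, Set (Pt (f i)))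
    (i i' : I) (h : i' = i) (q : Pt (f i)) (hq : q = .inf ∨ q ∈ S i) :
    Pool.Agent.LibHL77.tr (f i) (f i') q = .inf ∨ Pool.Agent.LibHL77.tr (f i) (f i') q ∈ S i' := by
  subst h
  rw [R4_tr_self]
  exact hq

/-- for `n = 0` the two numbers agree -/
private theorem R4_zero {Lb : Type} (l : Fin 0 → Lb) (g : Fin 0 → ℕ) (D : ℕ) :
    Pool.Agent.LibHD77.nAt l D Finset.univ = (NN0 l g D).card := by
  unfold Pool.Agent.LibHD77.nAt NN0 AD
  congr 1
  ext T
  simp only [Finset.mem_filter, Finset.mem_univ, true_and]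
  constructor
  · rintro ⟨h1, h2, h3⟩
    refine ⟨⟨⟨fun t ht => ⟨(h2 t ht).2.1, (h2 t ht).2.2⟩, h3⟩, h1⟩, ?_⟩
    intro m a b _ _ _ _ _ i
    exact (a i).elim0
  · rintro ⟨⟨⟨h2, h3⟩, h1⟩, -⟩
    exact ⟨h1, fun t ht => ⟨Finset.subset_univ _, (h2 t ht).1, (h2 t ht).2⟩, h3⟩

theorem rank_star (f : I → k[X]) [∀ i, Hyp (f i)] (S : ∀ i, Set (Pt (f i))) (hS : Orth f S)
    (hf : Function.Injective f) (r : I → ℕ)
    (hr : ∀ i, Module.rank ℤ (AddSubgroup.closure (jP '' S i)) = r i) (n : ℕ) (ι : Fin n → I)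
    (D : ℕ) :
    Module.rank ℤ (DG ι f S D) =
      ((NN0 (Pr ι f) (fun a => gn (Pr ι f a)) D).card +
        ∑ a, r (ι a) * (NN1 (Pr ι f) (fun a => gn (Pr ι f a)) D a).card : ℕ) := by
  rcases Nat.eq_zero_or_pos n with hn0 | hn
  · subst hn0
    have h1 := Pool.Agent.LibHL77.rank_eq f S hS r hr 0 ι D (fun a => a.elim0)
    rw [h1, R4_zero _ (fun a => gn (Pr ι f a)) D]
    simp only [Finset.univ_eq_empty, Finset.sum_empty]
  have hg : ∀ a b, Pr ι f a = Pr ι f b → (fun a => gn (Pr ι f a)) a = (fun a => gn (Pr ι f a)) b :=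
    fun a b h => congrArg gn h
  have hg0 : ∀ a, 0 < (fun a => gn (Pr ι f a)) a := fun a => (Hyp.one_le : 1 ≤ gn (f (ι a)))
  apply le_antisymm
  · -- the upper bound
    have h := sys_Fq f S hS (D := D) ι
    have hr' : ∀ a, Module.rank ℤ (AddSubgroup.closure
        ((fun s : Pt (Pr ι f a) => jP s) '' {s | s = .inf ∨ s ∈ S (ι a)})) ≤ r (ι a) := by
      intro a
      have h1 : AddSubgroup.closure
        ((fun s : Pt (Pr ι f a) => jP s) '' {s | s = .inf ∨ s ∈ S (ι a)}) =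
        AddSubgroup.closure (jP '' S (ι a)) := by
        apply le_antisymm
        · rw [AddSubgroup.closure_le]
          rintro _ ⟨s, hs | hs, rfl⟩
          · subst hs
            have : jP (.inf : Pt (f (ι a))) = 0 := Pool.Agent.LibHyp34.jP_inf _
            simp only [SetLike.mem_coe]
            rw [this]
            exact zero_mem _
          · exact AddSubgroup.subset_closure ⟨s, hs, rfl⟩
        · apply AddSubgroup.closure_mono
          rintro _ ⟨s, hs, rfl⟩
          exact ⟨s, Or.inr hs, rfl⟩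
      rw [h1]
      exact (hr (ι a)).le
    have h2 := rank_le2 h (fun a => gn (Pr ι f a)) hg hg0
      (fun i₀ => {q : Pt (Pr ι f i₀) // q = .inf ∨ q ∈ S (ι i₀)})
      (fun i₀ q a => Pool.Agent.LibHL77.tr (Pr ι f i₀) (Pr ι f a) q.1)
      (fun i₀ s hs => ⟨⟨s, hs⟩, R4_tr_self _ s,
        fun b hb => R4_tr f S (ι i₀) (ι b) (hf hb) s hs⟩)
      (haf_geo f ι D (og (Pr ι f)))
      (fun i₀ q => by
        have h3 := star_geo f (Sa f S) (Sa_orth f S hS) (fun i s hs => Sa_neg f S i s hs) ι D i₀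
          q.1 fun a ha => (R4_tr f S (ι i₀) (ι a) (hf ha) q.1 q.2).imp id
            (fun h => Sa_sub f S (ι a) h)
        convert h3)
      (fun a => r (ι a)) hr'
    refine (Pool.Agent.LibHD77.F2_rank_le _ _ ?_).trans h2
    rw [DG, AddSubgroup.closure_le]
    rintro _ ⟨δ, M, _, _, u, ⟨hu, hs⟩, rfl⟩
    apply AddSubgroup.subset_closure
    obtain ⟨V, x, y, hV, -, -⟩ :=
      Pool.Agent.LibHD77.isPt_pnt (fun a => inferInstance) δ u hu
    refine ⟨δ, V, hV, hs, ?_⟩
    rw [← Pool.Agent.LibHD77.cl_isPt (fun a => inferInstance) δ u hu]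
    rfl
  · -- the lower bound
    have h1 := rank_ge2 (Pr ι f) hn (fun a => gn (Pr ι f a)) hg hg0 (og (Pr ι f))
      (fun a (s : Pt (Pr ι f a)) => (jP s : Pic (Pr ι f a)))
      (fun a => Pool.Agent.LibHyp34.jP_inf _)
      (fun τ s => cl (Pool.Agent.LibHL77.pp τ s : Dia (Pr ι f) D))
      (fun a => S (ι a)) (fun a x h => (Pool.Agent.LibHL77.tors_iff x).2 h)
      (fun i₀ lam 𝔽 => ⟨fun b s => Pool.Agent.LibHL77.fnl0 (Pr ι f i₀) lam (Pr ι f b) (jP s),
        fun s => congrArg (fun q => q (jP s)) (Pool.Agent.LibHL77.fnl0_self (Pr ι f i₀) lam),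
        fun b => by
          show Pool.Agent.LibHL77.fnl0 (Pr ι f i₀) lam (Pr ι f b)
            (jP (.inf : Pt (Pr ι f b))) = 0
          rw [Pool.Agent.LibHyp34.jP_inf, map_zero],
        det2_all D k (Pr ι f) (Pr ι f) (fun _ _ => Iff.rfl) i₀ (fun a => gn (Pr ι f a))
          (fun _ => rfl) 𝔽 (Pool.Agent.LibHL77.fnl0 (Pr ι f i₀) lam)⟩)
      (fun a => r (ι a)) (fun a => (hr (ι a)).ge)
    refine le_trans h1 ?_
    have hle : AddSubgroup.closure {c : CH (Pr ι f) D | ∃ (τ : Fin D → Finset (Fin n))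
        (s : ∀ a, Pt (Pr ι f a)), Pool.Agent.LibHL77.Atm (Pr ι f) τ ∧
        (∀ a, s a = og (Pr ι f) a ∨ s a ∈ S (ι a)) ∧
        c = cl (Pool.Agent.LibHL77.pp τ s : Dia (Pr ι f) D)} ≤ DG ι f S D := by
      rw [AddSubgroup.closure_le]
      rintro _ ⟨τ, s, hτ, hs', rfl⟩
      obtain ⟨V, hV⟩ := Pool.Agent.LibHL77.cmp_pp τ s hτ.1
      obtain ⟨M, _, _, x, y, hG⟩ := Pool.Agent.LibHD77.exists_gen V fun e =>
        Pool.Agent.LibHD77.T1_hV (fun a => inferInstance) hV e
      refine AddSubgroup.subset_closure ⟨Pool.Agent.LibHL77.pp τ s, M, inferInstance,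
        inferInstance, Pool.Agent.LibHD77.pnt (Pool.Agent.LibHL77.pp τ s) x y,
        ⟨Pool.Agent.LibHD77.gen_isPt _ V x y hV hG, ?_⟩,
        Pool.Agent.LibHD77.cl_eq (fun a => inferInstance) _ V x y hV hG⟩
      intro a s' h2
      unfold Pool.Agent.LibHL77.pp at h2
      by_cases h3 : ∃ e, a ∈ τ e
      · rw [dif_pos h3] at h2
        exact absurd h2 (by simp)
      · rw [dif_neg h3] at h2
        have h4 : s a = s' := Sum.inl.inj h2
        rw [← h4]
        exact hs' a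
    exact LinearMap.rank_le_of_injective (AddSubgroup.inclusion hle).toIntLinearMap
      (AddSubgroup.inclusion_injective hle)

end Pool.Agent.LibHE77
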