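import Pool.Agent.LibHE77.Stmt
import Pool.Agent.LibHE77.D7
import Pool.Agent.LibHE77.R4
import Pool.Agent.LibHF77.Thm

/-!
The theorems on combinations of diagonals of arbitrary products of hyperelliptic curves.
-/

open scoped Classical
open Polynomial

namespace Pool.Agent.LibHE77

open Pool.Agent.LibHyp34 (Hyp Pt gn jP)
open Pool.Agent.LibHD77 (Dia Pnt CH cls cl IsPt IsSPt Pr DG Orth isPt_pnt cl_isPt)
open Pool.Agent.LibHD77.Comb (Cmp)
open Pool.Agent.LibHF77 (Pic jac fixed toPic toPic_fixed)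
open Pool.Agent.LibHL77 (Fnl)

section eq

variable {k : Type} [Field k] {n D : ℕ} {F : Fin n → k[X]} [∀ a, Hyp (F a)]

theorem vanishStar_iff {J : Type} [Fintype J] (m : J → ℤ) (δ : J → Dia F D) :
    VanishStar m δ ↔ NSt m δ := by
  have hfix : ∀ j a, (fixed (δ j) a : LibHyp34.Pic (F a)) = LibHD77.fx (δ j) a :=
    fun j a => toPic_fixed (δ j) a
  constructor
  · intro h R _ _ θ d y hc
    obtain ⟨h1, h2⟩ := h R _ _ θ d y hc
    refine ⟨h1, fun lam => ?_⟩
    have h3 := h2 lam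
    simp only [← hfix]
    exact h3
  · intro h R _ _ θ d y hc
    obtain ⟨h1, h2⟩ := h R _ _ θ d y hc
    refine ⟨h1, fun lam => ?_⟩
    have h3 := h2 lam
    simp only [← hfix] at h3
    exact h3

end eq

variable {k : Type} [Field k] [CharZero k] [IsAlgClosed k] {I : Type}

theorem converse_star (f : I → k[X]) [∀ i, Hyp (f i)] : ConverseStar f := by
  intro n ι D J _ m δ M _ _ u hu h
  have hH : ∀ a, Hyp (Pr ι f a) := fun a => inferInstanceAs (Hyp (f (ι a)))
  refine (vanishStar_iff m δ).2 (nst_of_torsion (Pr ι f) m δ (fun j => ?_) ?_)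
  · obtain ⟨V, x, y, hV, -, -⟩ := isPt_pnt hH (δ j) (u j) (hu j)
    exact ⟨V, hV⟩
  · have h2 : ∀ j, cl (δ j) = cls D (u j) := fun j => cl_isPt hH (δ j) (u j) (hu j)
    simp only [h2]
    exact h

theorem by_star (f : I → k[X]) [∀ i, Hyp (f i)] (S : ∀ i, Set (Pt (f i))) (hS : Orth f S) :
    ByStar f S := by
  intro n ι D J _ m δ M _ _ u hu hv
  have hH : ∀ a, Hyp (Pr ι f a) := fun a => inferInstanceAs (Hyp (f (ι a)))
  have h2 : ∀ j, cl (δ j) = cls D (u j) := fun j => cl_isPt hH (δ j) (u j) (hu j).1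
  have h3 := torsion_of_nst f S hS ι m δ (fun j => by
    obtain ⟨V, x, y, hV, -, -⟩ := isPt_pnt hH (δ j) (u j) (hu j).1
    exact ⟨V, hV⟩) (fun j => (hu j).2) ((vanishStar_iff m δ).1 hv)
  simp only [h2] at h3
  exact h3

theorem ranks_star (f : I → k[X]) [∀ i, Hyp (f i)] (S : ∀ i, Set (Pt (f i))) (hS : Orth f S)
    (hf : Function.Injective f) : RanksStar f S := by
  intro r hr n ι D R hR
  have h1 : ∀ i, Module.rank ℤ (AddSubgroup.closure (jP '' S i)) = r i := hr
  subst hR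
  exact rank_star f S hS hf r h1 n ι D

end Pool.Agent.LibHE77
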