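import Mathlib

/-!
Families of disjoint sets with one or two elements, nested pairs: definitions (pure combinatorics).
-/

open scoped Classical

namespace Pool.Agent.LibHE77

variable {N : ℕ} {Lb : Type}

/-- `T` consists of disjoint sets with one element or with two elements with the same label. -/
def Adm (l : Fin N → Lb) (T : Finset (Finset (Fin N))) : Prop :=
  (∀ t ∈ T, (t.card = 1 ∨ t.card = 2) ∧ ∀ a ∈ t, ∀ b ∈ t, l a = l b) ∧
  ∀ t ∈ T, ∀ t' ∈ T, t ≠ t' → Disjoint t t'

/-- The families with `D` elements. -/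
noncomputable def AD (l : Fin N → Lb) (D : ℕ) : Finset (Finset (Finset (Fin N))) :=
  Finset.univ.filter fun T => Adm l T ∧ T.card = D

/-- No `g + 1` pairs with the same label are nested: the pairs `{a_i, b_i}` with
`a_1 < ... < a_m < b_m < ... < b_1` and the same label are at most `g`. -/
def Nst (l : Fin N → Lb) (g : Fin N → ℕ) (T : Finset (Finset (Fin N))) : Prop :=
  ∀ (m : ℕ) (a b : Fin m → Fin N), StrictMono a → StrictAnti b → (∀ i j, a i < b j) →
    (∀ i, ({a i, b i} : Finset (Fin N)) ∈ T) → (∀ i j, l (a i) = l (a j)) → ∀ i, m ≤ g (a i)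

/-- Less than `g(c)` pairs with the label of `c` which are to the right of `c` are nested. -/
def NstR (l : Fin N → Lb) (g : Fin N → ℕ) (T : Finset (Finset (Fin N))) (c : Fin N) : Prop :=
  ∀ (m : ℕ) (a b : Fin m → Fin N), StrictMono a → StrictAnti b → (∀ i j, a i < b j) →
    (∀ i, ({a i, b i} : Finset (Fin N)) ∈ T) → (∀ i, l (a i) = l c) → (∀ i, c < a i) → m < g c

end Pool.Agent.LibHE77
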