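import Pool.Agent.LibHD77.C0
import Pool.Agent.LibHE77.Nest

/-!
Matchings, hafnian relations, nested pairs: auxiliary definitions (pure combinatorics).
-/

open scoped Classical

namespace Pool.Agent.LibHE77

open Pool.Agent.LibHD77.Comb (ind)

variable {N : ℕ} {Lb : Type}

/-- The perfect matchings of the set `H`. -/
noncomputable def PM (H : Finset (Fin N)) : Finset (Finset (Finset (Fin N))) :=
  Finset.univ.filter fun M => (∀ t ∈ M, t.card = 2) ∧
    (∀ t ∈ M, ∀ t' ∈ M, t ≠ t' → Disjoint t t') ∧ M.biUnion id = H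

/-- The hafnian relations: for every set `H` of `2 * genus + 2` coordinates with the same label and all `T₀`
disjoint from `H` the sum of the `γ (T₀ ∪ M)`, `M` a perfect matching of `H`, is zero. -/
def HafRel (l : Fin N → Lb) (g : Fin N → ℕ) (D : ℕ) {W : Type} [AddCommGroup W]
    (γ : Finset (Finset (Fin N)) → W) : Prop :=
  ∀ (H : Finset (Fin N)) (T₀ : Finset (Finset (Fin N))), H.Nonempty →
    (∀ a ∈ H, ∀ b ∈ H, l a = l b) → (∀ a ∈ H, H.card = 2 * g a + 2) → Adm l T₀ →
    (∀ t ∈ T₀, Disjoint t H) → 2 * T₀.card + H.card = 2 * D → ∑ M ∈ PM H, γ (T₀ ∪ M) = 0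

/-- the measure: the sum of the products of the two elements of the pairs -/
def mu (T : Finset (Finset (Fin N))) : ℕ :=
  ∑ t ∈ T, if t.card = 2 then ∏ a ∈ t, (a : ℕ) else 0

/-- the completely nested perfect matching of `H` -/
noncomputable def nest (H : Finset (Fin N)) : Finset (Finset (Fin N)) :=
  Finset.univ.filter fun t => t.card = 2 ∧ t ⊆ H ∧ ∀ a ∈ t, ∀ b ∈ t, a ≠ b →
    (H.filter fun x => x < a).card = (H.filter fun x => b < x).card

/-- `T` is compatible with the word `w`: `w a = none` for the coordinates which are in no set, `some none` for the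
sets with one element, `some (some (h, ε))` and `some (some (h, !ε))` for the elements of a pair. -/
def Cmpt (g : Fin N → ℕ) (w : Fin N → Option (Option (ℕ × Bool))) (T : Finset (Finset (Fin N))) :
    Prop :=
  (∀ a, w a = none ↔ ∀ t ∈ T, a ∉ t) ∧ (∀ a, w a = some none ↔ {a} ∈ T) ∧
  ∀ a b, a ≠ b → ({a, b} : Finset (Fin N)) ∈ T → ∃ h ε, h < g a ∧ w a = some (some (h, ε)) ∧
    w b = some (some (h, !ε))

/-- the coefficients of a quadratic form: `θ = ∑_t cf t (v) qat θ t` -/
noncomputable def qat {W : Type} [AddCommGroup W] (θ : QuadraticMap ℤ (Fin N → ℤ) W)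
    (t : Finset (Fin N)) : W :=
  if t.card = 1 then θ (ind t) else
  if t.card = 2 then θ (ind t) - ∑ a ∈ t, θ (ind {a}) else 0

/-- `θ(v) ^ (g + 1) = 0` for all `v` supported on coordinates with the same label -/
def Theta (l : Fin N → Lb) (g : Fin N → ℕ) {R : Type} [CommRing R]
    (θ : QuadraticMap ℤ (Fin N → ℤ) R) : Prop :=
  ∀ a v, (∀ b, v b ≠ 0 → l b = l a) → θ v ^ (g a + 1) = 0

/-! ### the additional coordinate -/

/-- the coordinates `0, ..., n - 1` among `0, ..., n` -/
def bl {n : ℕ} (t : Finset (Fin n)) : Finset (Fin (n + 1)) := t.map Fin.castSuccEmb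

/-- the labels of `n + 1` coordinates: the last one has the label of `i₀` -/
def lS {n : ℕ} (l : Fin n → Lb) (i₀ : Fin n) (a : Fin (n + 1)) : Lb :=
  Fin.lastCases (motive := fun _ => Lb) (l i₀) l a

/-- the pair of the coordinate `a` and the last coordinate -/
def pr {n : ℕ} (a : Fin n) : Finset (Fin (n + 1)) := {a.castSucc, Fin.last n}

/-- a family of sets of the first `n` coordinates -/
noncomputable def blT {n : ℕ} (T : Finset (Finset (Fin n))) : Finset (Finset (Fin (n + 1))) :=
  T.image bl

/-- a function on families for `n` coordinates, extended by zero -/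
noncomputable def gaX {n : ℕ} {W : Type} [AddCommGroup W] (γ : Finset (Finset (Fin n)) → W)
    (T : Finset (Finset (Fin (n + 1)))) : W :=
  ∑ T₁ : Finset (Finset (Fin n)), if T = blT T₁ then γ T₁ else 0

/-- a function of a family for `n` coordinates and a coordinate `a` as a function of the family with the
additional pair `{a, n}` (zero for the other families) -/
noncomputable def gaS {n : ℕ} {W : Type} [AddCommGroup W]
    (γ : Finset (Finset (Fin n)) → Fin n → W) (T : Finset (Finset (Fin (n + 1)))) : W :=
  ∑ T₁ : Finset (Finset (Fin n)), ∑ a : Fin n, if T = insert (pr a) (blT T₁) then γ T₁ a else 0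

end Pool.Agent.LibHE77
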