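import Pool.Agent.LibHE77.A0

/-!
[HE77 A1] hafnians of forms with `θ ^ m = 0`. Proof. For functions `x_1, ..., x_m` on sets
`∑_(A ⊆ H) (-1)^(|H| - |A|) ∏_i ∑_(t ⊆ A) x_i t = ∑_(f : Fin m → subsets of H with union H) ∏_i x_i (f i)`: expand the product (`Finset.prod_univ_sum`, as in `ryser`,
LibHD77/C3.lean), swap the sums, `∑_(U ⊆ A ⊆ H) (-1)^(|H| - |A|)` is `1` for `U = H` and `0` otherwise (`Finset.sum_powerset_neg_one_pow_card...`). If `|H| = 2 m` and the `x t` are zero
unless `|t| = 1, 2` then the `f` which contribute are the enumerations of the perfect matchings (the sets `f i` have two elements and are disjoint, by counting), each matching has `m!` enumerations: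
`m! * ∑_M ∏_(t ∈ M) x t = 0`, and `m!` is invertible. For `haf_zero_lin`: `m` factors `x` and one factor `y` on the sets with one element; `|H| = 2 m + 1`.
-/

open scoped Classical

namespace Pool.Agent.LibHE77

open Pool.Agent.LibHD77.Comb (ind cf)

variable {N : ℕ} {R : Type} [CommRing R] [Algebra ℚ R]

private theorem a1_inner (U H : Finset (Fin N)) :
    ∑ A ∈ H.powerset.filter (fun A => U ⊆ A), (-1 : ℤ) ^ (H \ A).card =
      if U = H then 1 else 0 := by
  by_cases hU : U ⊆ H
  · have h1 : ∑ A ∈ H.powerset.filter (fun A => U ⊆ A), (-1 : ℤ) ^ (H \ A).card =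
        ∑ T ∈ (H \ U).powerset, (-1 : ℤ) ^ T.card := by
      refine Finset.sum_bij' (fun A _ => H \ A) (fun T _ => H \ T) ?_ ?_ ?_ ?_ ?_
      · intro A hA
        rw [Finset.mem_filter, Finset.mem_powerset] at hA
        rw [Finset.mem_powerset]
        exact Finset.sdiff_subset_sdiff (Finset.Subset.refl H) hA.2
      · intro T hT
        rw [Finset.mem_powerset] at hT
        rw [Finset.mem_filter, Finset.mem_powerset]
        refine ⟨Finset.sdiff_subset, fun a ha => ?_⟩
        rw [Finset.mem_sdiff]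
        refine ⟨hU ha, fun haT => ?_⟩
        exact (Finset.mem_sdiff.1 (hT haT)).2 ha
      · intro A hA
        rw [Finset.mem_filter, Finset.mem_powerset] at hA
        exact Finset.sdiff_sdiff_eq_self hA.1
      · intro T hT
        exact Finset.sdiff_sdiff_eq_self ((Finset.mem_powerset.1 hT).trans Finset.sdiff_subset)
      · intro A _
        rfl
    rw [h1, Finset.sum_powerset_neg_one_pow_card]
    congr 1
    rw [eq_iff_iff, Finset.sdiff_eq_empty_iff_subset]
    exact ⟨fun h => Finset.Subset.antisymm hU h, fun h => h ▸ Finset.Subset.refl _⟩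
  · rw [Finset.filter_false_of_mem, Finset.sum_empty, if_neg]
    · rintro rfl
      exact hU (Finset.Subset.refl _)
    · intro A hA hUA
      exact hU (hUA.trans (Finset.mem_powerset.1 hA))

private theorem a1_ie (x : Finset (Fin N) → R) (U H : Finset (Fin N)) (m : ℕ) :
    ∑ A ∈ H.powerset.filter (fun A => U ⊆ A),
        (-1 : R) ^ (H \ A).card * (∑ t ∈ A.powerset, x t) ^ m =
      ∑ g ∈ Finset.univ.filter
          (fun g : Fin m → Finset (Fin N) => U ∪ Finset.univ.biUnion g = H), ∏ i, x (g i) := by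
  have h1 : ∀ A : Finset (Fin N), (∑ t ∈ A.powerset, x t) ^ m =
      ∑ g : Fin m → Finset (Fin N),
        if Finset.univ.biUnion g ⊆ A then ∏ i, x (g i) else 0 := by
    intro A
    rw [← Finset.sum_filter]
    have e : (∑ t ∈ A.powerset, x t) ^ m = ∏ _i : Fin m, ∑ t ∈ A.powerset, x t := by
      rw [Finset.prod_const, Finset.card_univ, Fintype.card_fin]
    rw [e, Finset.prod_univ_sum]
    apply Finset.sum_congr
    · ext g
      rw [Fintype.mem_piFinset, Finset.mem_filter, Finset.biUnion_subset]
      simp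
    · intro g _
      rfl
  have h2 : ∀ g : Fin m → Finset (Fin N),
      ∑ A ∈ H.powerset.filter (fun A => U ⊆ A), (-1 : R) ^ (H \ A).card *
        (if Finset.univ.biUnion g ⊆ A then ∏ i, x (g i) else 0) =
      if U ∪ Finset.univ.biUnion g = H then ∏ i, x (g i) else 0 := by
    intro g
    have h3 := a1_inner (U ∪ Finset.univ.biUnion g) H
    have h4 : ∑ A ∈ H.powerset.filter (fun A => U ⊆ A), (-1 : R) ^ (H \ A).card *
        (if Finset.univ.biUnion g ⊆ A then ∏ i, x (g i) else 0) =
        ∑ A ∈ H.powerset.filter (fun A => U ∪ Finset.univ.biUnion g ⊆ A),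
          (-1 : R) ^ (H \ A).card * ∏ i, x (g i) := by
      have e : H.powerset.filter (fun A => U ∪ Finset.univ.biUnion g ⊆ A) =
          (H.powerset.filter (fun A => U ⊆ A)).filter (fun A => Finset.univ.biUnion g ⊆ A) := by
        rw [Finset.filter_filter]
        apply Finset.filter_congr
        intro A _
        rw [Finset.union_subset_iff]
      rw [e]
      conv_rhs => rw [Finset.sum_filter]
      apply Finset.sum_congr rfl
      intro A _
      split_ifs
      · rfl
      · exact mul_zero _
    rw [h4, ← Finset.sum_mul]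
    have h5 : ∑ A ∈ H.powerset.filter (fun A => U ∪ Finset.univ.biUnion g ⊆ A),
        (-1 : R) ^ (H \ A).card = if U ∪ Finset.univ.biUnion g = H then 1 else 0 := by
      have h6 := congrArg (Int.cast : ℤ → R) h3
      push_cast at h6
      rw [h6]
    rw [h5]
    split_ifs
    · exact one_mul _
    · exact zero_mul _
  simp_rw [h1, Finset.mul_sum]
  rw [Finset.sum_comm]
  simp_rw [h2]
  rw [Finset.sum_filter]

private theorem a1_enum (x : Finset (Fin N) → R) (M : Finset (Finset (Fin N))) (m : ℕ)
    (hM : M.card = m) :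
    ∑ g ∈ Finset.univ.filter (fun g : Fin m → Finset (Fin N) => Finset.univ.image g = M),
      ∏ i, x (g i) = (m.factorial : R) * ∏ t ∈ M, x t := by
  have hinj : ∀ g : Fin m → Finset (Fin N), Finset.univ.image g = M → Function.Injective g := by
    intro g hg
    have h1 : (Finset.univ.image g).card = (Finset.univ : Finset (Fin m)).card := by
      rw [hg, hM, Finset.card_univ, Fintype.card_fin]
    have h2 := Finset.card_image_iff.1 h1
    intro i j hij
    exact h2 (by simp) (by simp) hij
  have h1 : ∀ g ∈ Finset.univ.filter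
      (fun g : Fin m → Finset (Fin N) => Finset.univ.image g = M),
      ∏ i, x (g i) = ∏ t ∈ M, x t := by
    intro g hg
    have hg' := (Finset.mem_filter.1 hg).2
    conv_rhs => rw [← hg']
    rw [Finset.prod_image (fun i _ j _ h => hinj g hg' h)]
  rw [Finset.sum_congr rfl h1, Finset.sum_const, nsmul_eq_mul]
  congr 1
  have h3 : Fintype.card (Fin m ≃ M) = m.factorial := by
    rw [Fintype.card_equiv (Finset.equivFinOfCardEq hM).symm, Fintype.card_fin]
  rw [← h3, ← Finset.card_univ]
  congr 1
  symm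
  refine Finset.card_bij (fun (e : Fin m ≃ M) _ => fun i => ((e i : M) : Finset (Fin N))) ?_ ?_ ?_
  · intro e _
    rw [Finset.mem_filter]
    refine ⟨Finset.mem_univ _, ?_⟩
    ext t
    rw [Finset.mem_image]
    constructor
    · rintro ⟨i, _, rfl⟩
      exact (e i).2
    · intro ht
      exact ⟨e.symm ⟨t, ht⟩, Finset.mem_univ _, by simp⟩
  · intro e _ e' _ h
    apply Equiv.ext
    intro i
    exact Subtype.ext (congrFun h i)
  · intro g hg
    have hg' := (Finset.mem_filter.1 hg).2
    have hmem : ∀ i, g i ∈ M := fun i => by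
      rw [← hg']
      exact Finset.mem_image_of_mem g (Finset.mem_univ i)
    refine ⟨Equiv.ofBijective (fun i => (⟨g i, hmem i⟩ : M)) ⟨?_, ?_⟩, Finset.mem_univ _, rfl⟩
    · intro i j hij
      exact hinj g hg' (congrArg Subtype.val hij)
    · rintro ⟨t, ht⟩
      rw [← hg', Finset.mem_image] at ht
      obtain ⟨i, _, hi⟩ := ht
      exact ⟨i, Subtype.ext hi⟩

private theorem a1_card {K : Finset (Fin N)} {m : ℕ} (hK : K.card = 2 * m)
    {M : Finset (Finset (Fin N))} (hM : M ∈ PM K) : M.card = m := by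
  obtain ⟨h1, h2, h3⟩ := (Finset.mem_filter.1 hM).2
  have h4 : (M.biUnion id).card = ∑ t ∈ M, (id t : Finset (Fin N)).card :=
    Finset.card_biUnion (fun t ht t' ht' h => h2 t ht t' ht' h)
  have h5 : ∑ t ∈ M, (id t : Finset (Fin N)).card = ∑ t ∈ M, 2 :=
    Finset.sum_congr rfl fun t ht => h1 t ht
  rw [h3, hK, h5, Finset.sum_const, smul_eq_mul] at h4
  omega

private theorem a1_union {m : ℕ} {g : Fin m → Finset (Fin N)} {K : Finset (Fin N)}
    (hg : Finset.univ.image g ∈ PM K) : Finset.univ.biUnion g = K := by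
  obtain ⟨h1, h2, h3⟩ := (Finset.mem_filter.1 hg).2
  rw [← h3]
  ext a
  simp

private theorem a1_match {m : ℕ} {g : Fin m → Finset (Fin N)} {K : Finset (Fin N)}
    (hK : K.card = 2 * m) (hg : Finset.univ.biUnion g = K) (h2 : ∀ i, (g i).card ≤ 2) :
    Finset.univ.image g ∈ PM K := by
  have hle : K.card ≤ ∑ i : Fin m, (g i).card := by
    rw [← hg]
    exact Finset.card_biUnion_le
  have hsum : ∑ i : Fin m, (g i).card ≤ ∑ _i : Fin m, 2 := Finset.sum_le_sum fun i _ => h2 i
  have h2m : ∑ _i : Fin m, 2 = 2 * m := by simp [mul_comm]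
  have heq : ∑ i : Fin m, (g i).card = ∑ _i : Fin m, 2 := by omega
  have hall : ∀ i, (g i).card = 2 := fun i =>
    (Finset.sum_eq_sum_iff_of_le (fun i _ => h2 i)).1 heq i (Finset.mem_univ i)
  have hdis : ∀ i j, i ≠ j → Disjoint (g i) (g j) := by
    intro i j hij
    by_contra hnd
    have h3 : (g i ∪ g j).card < 4 := by
      have h4 := Finset.card_union_add_card_inter (g i) (g j)
      have h5 : 0 < (g i ∩ g j).card := by
        rw [Finset.card_pos, Finset.nonempty_iff_ne_empty]
        intro h
        exact hnd (Finset.disjoint_iff_inter_eq_empty.2 h)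
      rw [hall i, hall j] at h4
      omega
    have h6 : Finset.univ.biUnion g =
        (g i ∪ g j) ∪ ((Finset.univ.erase i).erase j).biUnion g := by
      ext a
      simp only [Finset.mem_biUnion, Finset.mem_union, Finset.mem_erase, Finset.mem_univ,
        true_and, and_true]
      constructor
      · rintro ⟨k, hk⟩
        by_cases h1 : k = i
        · exact Or.inl (Or.inl (h1 ▸ hk))
        · by_cases h2 : k = j
          · exact Or.inl (Or.inr (h2 ▸ hk))
          · exact Or.inr ⟨k, ⟨h2, h1⟩, hk⟩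
      · rintro ((h | h) | ⟨k, _, h⟩)
        · exact ⟨i, h⟩
        · exact ⟨j, h⟩
        · exact ⟨k, h⟩
    have h7 : (((Finset.univ.erase i).erase j).biUnion g).card ≤
        ∑ k ∈ (Finset.univ.erase i).erase j, (g k).card := Finset.card_biUnion_le
    have h8 : ∑ k ∈ (Finset.univ.erase i).erase j, (g k).card =
        ((Finset.univ.erase i).erase j).card * 2 := by
      rw [Finset.sum_congr rfl (fun k _ => hall k), Finset.sum_const, smul_eq_mul]
    have h9 : ((Finset.univ.erase i).erase j : Finset (Fin m)).card = m - 1 - 1 := by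
      rw [Finset.card_erase_of_mem (by simp [hij.symm]), Finset.card_erase_of_mem (Finset.mem_univ i),
        Finset.card_univ, Fintype.card_fin]
    have h10 : K.card ≤ (g i ∪ g j).card + (((Finset.univ.erase i).erase j).biUnion g).card := by
      rw [← hg, h6]
      exact Finset.card_union_le _ _
    have h11 : 2 ≤ m := by
      have hi := i.2
      have hj := j.2
      have : (i : ℕ) ≠ j := fun h => hij (Fin.ext h)
      omega
    omega
  rw [PM, Finset.mem_filter]
  refine ⟨Finset.mem_univ _, ?_, ?_, ?_⟩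
  · intro t ht
    obtain ⟨i, _, rfl⟩ := Finset.mem_image.1 ht
    exact hall i
  · intro t ht t' ht' h
    obtain ⟨i, _, rfl⟩ := Finset.mem_image.1 ht
    obtain ⟨j, _, rfl⟩ := Finset.mem_image.1 ht'
    exact hdis i j fun hij => h (by rw [hij])
  · rw [← hg]
    ext a
    simp

private theorem a1_count (x : Finset (Fin N) → R) (hx : ∀ t, t.card ≠ 1 → t.card ≠ 2 → x t = 0)
    (K : Finset (Fin N)) (m : ℕ) (hK : K.card = 2 * m)
    (S : Finset (Fin m → Finset (Fin N)))
    (h1 : ∀ g : Fin m → Finset (Fin N), Finset.univ.image g ∈ PM K → g ∈ S)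
    (h2 : ∀ g ∈ S, (∀ i, (g i).card ≤ 2) → Finset.univ.biUnion g = K) :
    ∑ g ∈ S, ∏ i, x (g i) = (m.factorial : R) * ∑ M ∈ PM K, ∏ t ∈ M, x t := by
  have h3 : ∑ g ∈ S, ∏ i, x (g i) =
      ∑ g ∈ Finset.univ.filter
        (fun g : Fin m → Finset (Fin N) => Finset.univ.image g ∈ PM K), ∏ i, x (g i) := by
    symm
    apply Finset.sum_subset
    · intro g hg
      exact h1 g (Finset.mem_filter.1 hg).2
    · intro g hg hg'
      by_contra hne
      apply hg'
      rw [Finset.mem_filter]
      refine ⟨Finset.mem_univ _, ?_⟩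
      have h4 : ∀ i, (g i).card ≤ 2 := by
        intro i
        by_contra h5
        apply hne
        apply Finset.prod_eq_zero (Finset.mem_univ i)
        exact hx _ (by omega) (by omega)
      exact a1_match hK (h2 g hg h4) h4
  rw [h3, Finset.mul_sum]
  rw [← Finset.sum_fiberwise_of_maps_to
    (g := fun g : Fin m → Finset (Fin N) => Finset.univ.image g) (t := PM K)
    (fun g hg => (Finset.mem_filter.1 hg).2)]
  apply Finset.sum_congr rfl
  intro M hM
  rw [← a1_enum x M m (a1_card hK hM)]
  apply Finset.sum_congr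
  · ext g
    rw [Finset.mem_filter, Finset.mem_filter, Finset.mem_filter]
    constructor
    · rintro ⟨_, h⟩
      exact ⟨Finset.mem_univ _, h⟩
    · rintro ⟨_, h⟩
      exact ⟨⟨Finset.mem_univ _, by rw [h]; exact hM⟩, h⟩
  · intro g _
    rfl

private theorem a1_unit (R : Type) [CommRing R] [Algebra ℚ R] (m : ℕ) :
    IsUnit ((m.factorial : ℕ) : R) := by
  have h1 : ((m.factorial : ℕ) : ℚ) ≠ 0 := by
    exact_mod_cast m.factorial_ne_zero
  have h2 := (IsUnit.mk0 _ h1).map (algebraMap ℚ R)
  rwa [map_natCast] at h2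

theorem haf_zero (x : Finset (Fin N) → R) (hx : ∀ t, t.card ≠ 1 → t.card ≠ 2 → x t = 0)
    (H : Finset (Fin N)) (m : ℕ) (hm : H.card = 2 * m)
    (h : ∀ A ⊆ H, (∑ t ∈ A.powerset, x t) ^ m = 0) : ∑ M ∈ PM H, ∏ t ∈ M, x t = 0 := by
  have h1 := a1_ie x ∅ H m
  rw [Finset.sum_eq_zero (fun A hA => by
    rw [h A (Finset.mem_powerset.1 (Finset.mem_filter.1 hA).1), mul_zero])] at h1
  rw [a1_count x hx H m hm _ (fun g hg => by
    rw [Finset.mem_filter, a1_union hg]
    exact ⟨Finset.mem_univ _, Finset.empty_union H⟩) (fun g hg _ => by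
    have := (Finset.mem_filter.1 hg).2
    rwa [Finset.empty_union] at this)] at h1
  exact (a1_unit R m).mul_right_eq_zero.1 h1.symm

theorem haf_zero_lin (x : Finset (Fin N) → R) (hx : ∀ t, t.card ≠ 1 → t.card ≠ 2 → x t = 0)
    (y : Fin N → R) (H : Finset (Fin N)) (m : ℕ) (hm : H.card = 2 * m + 1)
    (h : ∀ A ⊆ H, (∑ t ∈ A.powerset, x t) ^ m * ∑ a ∈ A, y a = 0) :
    ∑ a ∈ H, y a * ∑ M ∈ PM (H.erase a), ∏ t ∈ M, x t = 0 := by
  apply (a1_unit R m).mul_right_eq_zero.1
  rw [Finset.mul_sum]
  have h1 : ∀ a ∈ H, (m.factorial : R) * (y a * ∑ M ∈ PM (H.erase a), ∏ t ∈ M, x t) =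
      ∑ A ∈ H.powerset.filter (fun A => {a} ⊆ A),
        (-1 : R) ^ (H \ A).card * (∑ t ∈ A.powerset, x t) ^ m * y a := by
    intro a ha
    rw [← Finset.sum_mul, a1_ie x {a} H m]
    have hK : (H.erase a).card = 2 * m := by
      rw [Finset.card_erase_of_mem ha, hm]
      omega
    rw [a1_count x hx (H.erase a) m hK _ (fun g hg => by
      rw [Finset.mem_filter, a1_union hg]
      refine ⟨Finset.mem_univ _, ?_⟩
      rw [← Finset.insert_eq, Finset.insert_erase ha]) (fun g hg h2 => by
      have h3 := (Finset.mem_filter.1 hg).2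
      have h4 : (Finset.univ.biUnion g).card ≤ 2 * m := by
        refine Finset.card_biUnion_le.trans ?_
        refine (Finset.sum_le_sum fun i _ => h2 i).trans ?_
        simp [mul_comm]
      have h5 : a ∉ Finset.univ.biUnion g := by
        intro h6
        have h7 : {a} ∪ Finset.univ.biUnion g = Finset.univ.biUnion g := by
          rw [← Finset.insert_eq, Finset.insert_eq_of_mem h6]
        rw [h7] at h3
        rw [h3, hm] at h4
        omega
      rw [← h3, ← Finset.insert_eq, Finset.erase_insert h5])]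
    ring
  rw [Finset.sum_congr rfl h1]
  rw [Finset.sum_comm' (s' := fun A => A) (t' := H.powerset) (fun a A => by
    rw [Finset.mem_filter, Finset.mem_powerset, Finset.singleton_subset_iff]
    constructor
    · rintro ⟨_, h2, h3⟩
      exact ⟨h3, h2⟩
    · rintro ⟨h3, h2⟩
      exact ⟨h2 h3, h2, h3⟩)]
  apply Finset.sum_eq_zero
  intro A hA
  rw [← Finset.mul_sum, mul_assoc, h A (Finset.mem_powerset.1 hA), mul_zero]

end Pool.Agent.LibHE77
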