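import Pool.Agent.LibHE77.A1

/-!
[HE77 A2] quadratic forms and hafnian relations. Proof. `quad_expand`: a quadratic form is determined by its values at the `e_a` and `e_a + e_b`; compare `quad_ind`, LibHL77/X2.lean (the same for
integral forms, in other coordinates) or prove directly: `θ (∑ v_a e_a) = ∑ v_a ^ 2 θ(e_a) + ∑_(a < b) v_a v_b polar` (`QuadraticMap.map_sum`, `QuadraticMap.polar`), `ind {a, b} = e_a + e_b`,
`cf {a} v = v a ^ 2`, `cf {a, b} v = v a * v b`. `qat_ind`: `quad_expand` for `v = ind A` (`cf t (ind A) = 1` if `t ⊆ A` and `|t| = 1, 2`). `theta_haf`: `haf_zero` for `x = qat θ`, `m = g + 1`; the sets of `T₀` and of `M`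
are different, so the product over `T₀ ∪ M` is the product of the products, and the factor for `T₀` is constant.
-/

open scoped Classical

namespace Pool.Agent.LibHE77

open Pool.Agent.LibHD77.Comb (ind cf)

variable {N : ℕ} {Lb : Type}

private theorem A2_ind_single (a : Fin N) : ind ({a} : Finset (Fin N)) = Pi.single a 1 := by
  funext b
  unfold ind
  by_cases h : b = a
  · subst h
    simp
  · rw [if_neg (by simpa using h), Pi.single_eq_of_ne h]

private theorem A2_ind_pair {a b : Fin N} (hab : a ≠ b) :
    ind ({a, b} : Finset (Fin N)) = Pi.single a 1 + Pi.single b 1 := by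
  funext c
  unfold ind
  rw [Pi.add_apply]
  by_cases h1 : c = a
  · subst h1
    rw [Pi.single_eq_same, Pi.single_eq_of_ne hab]
    simp
  · by_cases h2 : c = b
    · subst h2
      rw [Pi.single_eq_same, Pi.single_eq_of_ne h1]
      simp
    · rw [Pi.single_eq_of_ne h1, Pi.single_eq_of_ne h2, if_neg (by simp [h1, h2]), add_zero]

private theorem A2_sum_small {W : Type} [AddCommGroup W] (s : Finset (Fin N))
    (f : Finset (Fin N) → W) (hf : ∀ t, 2 ≤ t.card → f t = 0) :
    ∑ t ∈ s.powerset, f t = f ∅ + ∑ b ∈ s, f {b} := by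
  induction s using Finset.induction_on with
  | empty => simp
  | insert a s ha ih =>
    rw [Finset.sum_powerset_insert ha, ih, Finset.sum_insert ha]
    have h1 : ∑ t ∈ s.powerset, f (insert a t) = f {a} := by
      rw [Finset.sum_eq_single ∅]
      · rfl
      · intro t ht hne
        apply hf
        have h2 : a ∉ t := fun h => ha (Finset.mem_powerset.1 ht h)
        rw [Finset.card_insert_of_notMem h2]
        have := Finset.card_pos.2 (Finset.nonempty_iff_ne_empty.2 hne)
        omega
      · intro h
        exact absurd (Finset.empty_mem_powerset s) h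
    rw [h1]
    abel

private theorem A2_qat_single {W : Type} [AddCommGroup W] (θ : QuadraticMap ℤ (Fin N → ℤ) W)
    (a : Fin N) : qat θ {a} = θ (Pi.single a 1) := by
  unfold qat
  rw [if_pos (Finset.card_singleton a), A2_ind_single]

private theorem A2_qat_pair {W : Type} [AddCommGroup W] (θ : QuadraticMap ℤ (Fin N → ℤ) W)
    {a b : Fin N} (hab : a ≠ b) :
    qat θ {a, b} = QuadraticMap.polar θ (Pi.single a 1) (Pi.single b 1) := by
  unfold qat
  rw [if_neg (by rw [Finset.card_pair hab]; norm_num), if_pos (Finset.card_pair hab),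
    A2_ind_pair hab, Finset.sum_pair hab, A2_ind_single, A2_ind_single]
  unfold QuadraticMap.polar
  abel

private theorem A2_cf_single (a : Fin N) (v : Fin N → ℤ) : cf {a} v = v a ^ 2 := by
  unfold cf
  rw [if_pos (Finset.card_singleton a), Finset.prod_singleton]

private theorem A2_cf_pair {a b : Fin N} (hab : a ≠ b) (v : Fin N → ℤ) :
    cf {a, b} v = v a * v b := by
  unfold cf
  rw [if_neg (by rw [Finset.card_pair hab]; norm_num), if_pos (Finset.card_pair hab),
    Finset.prod_pair hab]

private theorem A2_cf_other {t : Finset (Fin N)} (h1 : t.card ≠ 1) (h2 : t.card ≠ 2)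
    (v : Fin N → ℤ) : cf t v = 0 := by
  unfold cf
  rw [if_neg h1, if_neg h2]

private theorem A2_qat_other {W : Type} [AddCommGroup W] (θ : QuadraticMap ℤ (Fin N → ℤ) W)
    {t : Finset (Fin N)} (h1 : t.card ≠ 1) (h2 : t.card ≠ 2) : qat θ t = 0 := by
  unfold qat
  rw [if_neg h1, if_neg h2]

private theorem A2_expand {W : Type} [AddCommGroup W] (θ : QuadraticMap ℤ (Fin N → ℤ) W)
    (v : Fin N → ℤ) (s : Finset (Fin N)) :
    θ (∑ a ∈ s, v a • (Pi.single a 1 : Fin N → ℤ)) = ∑ t ∈ s.powerset, cf t v • qat θ t := by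
  induction s using Finset.induction_on with
  | empty =>
    rw [Finset.sum_empty, QuadraticMap.map_zero, Finset.powerset_empty, Finset.sum_singleton,
      A2_cf_other (by simp) (by simp), zero_smul]
  | insert a s ha ih =>
    rw [Finset.sum_insert ha, QuadraticMap.map_add θ, ih, Finset.sum_powerset_insert ha,
      QuadraticMap.map_smul]
    have h1 : ∑ t ∈ s.powerset, cf (insert a t) v • qat θ (insert a t) =
        (v a * v a) • θ (Pi.single a 1) +
          ∑ b ∈ s, (v a * v b) • QuadraticMap.polar θ (Pi.single a 1) (Pi.single b 1) := by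
      have h2 : ∑ t ∈ s.powerset, cf (insert a t) v • qat θ (insert a t) =
          ∑ t ∈ s.powerset, (fun t => if t.card < 2 then cf (insert a t) v • qat θ (insert a t)
            else 0) t := by
        refine Finset.sum_congr rfl fun t ht => ?_
        simp only
        by_cases h3 : t.card < 2
        · rw [if_pos h3]
        · rw [if_neg h3]
          have h4 : a ∉ t := fun h => ha (Finset.mem_powerset.1 ht h)
          have h5 := Finset.card_insert_of_notMem h4
          rw [A2_cf_other (by omega) (by omega), zero_smul]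
      rw [h2, A2_sum_small]
      · rw [if_pos (by simp), insert_empty_eq, A2_cf_single, A2_qat_single, sq]
        congr 1
        refine Finset.sum_congr rfl fun b hb => ?_
        have hab : a ≠ b := fun h => ha (h ▸ hb)
        rw [if_pos (by simp), A2_cf_pair hab, A2_qat_pair θ hab]
      · intro t ht
        rw [if_neg (by omega)]
    have h3 : QuadraticMap.polar θ (v a • (Pi.single a 1 : Fin N → ℤ))
        (∑ b ∈ s, v b • (Pi.single b 1 : Fin N → ℤ)) =
        ∑ b ∈ s, (v a * v b) • QuadraticMap.polar θ (Pi.single a 1) (Pi.single b 1) := by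
      have e2 : QuadraticMap.polarBilin θ (v a • (Pi.single a 1 : Fin N → ℤ))
          (∑ b ∈ s, v b • (Pi.single b 1 : Fin N → ℤ)) =
          ∑ b ∈ s, (v a * v b) • QuadraticMap.polar θ (Pi.single a 1) (Pi.single b 1) := by
        simp only [map_sum, map_smul, LinearMap.smul_apply, QuadraticMap.polarBilin_apply_apply,
          smul_smul]
        refine Finset.sum_congr rfl fun b _ => ?_
        rw [mul_comm]
      exact e2
    rw [h1, h3]
    abel

theorem quad_expand {W : Type} [AddCommGroup W] (θ : QuadraticMap ℤ (Fin N → ℤ) W)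
    (v : Fin N → ℤ) : θ v = ∑ t : Finset (Fin N), cf t v • qat θ t := by
  have h := A2_expand θ v Finset.univ
  rw [Finset.powerset_univ] at h
  rw [← h]
  congr 1
  funext b
  rw [Finset.sum_apply, Finset.sum_eq_single b]
  · simp
  · intro a _ hab
    rw [Pi.smul_apply, Pi.single_eq_of_ne hab.symm, smul_zero]
  · intro h
    exact absurd (Finset.mem_univ _) h

theorem qat_ind {W : Type} [AddCommGroup W] (θ : QuadraticMap ℤ (Fin N → ℤ) W)
    (A : Finset (Fin N)) : θ (ind A) = ∑ t ∈ A.powerset, qat θ t := by
  have h := A2_expand θ (fun _ => 1) A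
  have h1 : ∑ a ∈ A, (1 : ℤ) • (Pi.single a 1 : Fin N → ℤ) = ind A := by
    funext b
    rw [Finset.sum_apply]
    unfold ind
    by_cases hb : b ∈ A
    · rw [if_pos hb, Finset.sum_eq_single b]
      · simp
      · intro a _ hab
        rw [Pi.smul_apply, Pi.single_eq_of_ne hab.symm, smul_zero]
      · intro h
        exact absurd hb h
    · rw [if_neg hb]
      refine Finset.sum_eq_zero fun a ha => ?_
      have hab : b ≠ a := fun h => hb (h ▸ ha)
      rw [Pi.smul_apply, Pi.single_eq_of_ne hab, smul_zero]
  rw [h1] at h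
  rw [h]
  refine Finset.sum_congr rfl fun t _ => ?_
  by_cases h2 : t.card = 1
  · unfold cf
    rw [if_pos h2]
    simp
  · by_cases h3 : t.card = 2
    · unfold cf
      rw [if_neg h2, if_pos h3]
      simp
    · rw [A2_qat_other θ h2 h3, smul_zero]

theorem theta_haf {R : Type} [CommRing R] [Algebra ℚ R] (l : Fin N → Lb) (g : Fin N → ℕ)
    (θ : QuadraticMap ℤ (Fin N → ℤ) R) (hθ : Theta l g θ) (z : Finset (Fin N) → R)
    (hz : ∀ t, t.card = 2 → z t = qat θ t) (D : ℕ) : HafRel l g D fun T => ∏ t ∈ T, z t := by
  intro H T₀ hH hl hcard hadm hdisj _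
  obtain ⟨a₀, ha₀⟩ := hH
  have h1 : ∀ M ∈ PM H, ∏ t ∈ T₀ ∪ M, z t = (∏ t ∈ T₀, z t) * ∏ t ∈ M, qat θ t := by
    intro M hM
    unfold PM at hM
    rw [Finset.mem_filter] at hM
    obtain ⟨-, h2, h3, h4⟩ := hM
    have h5 : Disjoint T₀ M := by
      rw [Finset.disjoint_left]
      intro t ht htM
      have h6 : t ⊆ H := by
        rw [← h4]
        exact Finset.subset_biUnion_of_mem id htM
      have h7 := hdisj t ht
      have h8 : t = ∅ := by
        rw [← Finset.disjoint_self_iff_empty]
        exact h7.mono_right h6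
      have h9 := h2 t htM
      rw [h8] at h9
      simp at h9
    rw [Finset.prod_union h5]
    congr 1
    exact Finset.prod_congr rfl fun t ht => hz t (h2 t ht)
  rw [Finset.sum_congr rfl h1, ← Finset.mul_sum]
  rw [haf_zero (qat θ) (fun t h1 h2 => A2_qat_other θ h1 h2) H (g a₀ + 1) (by
    rw [hcard a₀ ha₀]; ring), mul_zero]
  intro A hA
  rw [← qat_ind]
  apply hθ a₀
  intro b hb
  have h2 : b ∈ A := by
    by_contra hcon
    apply hb
    unfold ind
    rw [if_neg hcon]
  exact hl b (hA h2) a₀ ha₀

end Pool.Agent.LibHE77
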