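import Pool.Agent.LibHE77.A0

/-!
[HE77 A4] the nested matching has the smallest measure. Proof. Let `H = {x_0 < ... < x_(2m-1)}` (`Finset.orderIsoOfFin` or `orderEmbOfFin`). `nest H` consists of the pairs `{x_i, x_(2m-1-i)}`
(the number of elements of `H` smaller than `x_i` is `i`). A perfect matching is an involution `σ` of `Fin (2m)` without fixed points, and `2 * mu M = ∑_i x_i x_(σ i)`. Rearrangement inequality with the equality case (Mathlib:
`Antivary.sum_mul_le_sum_mul_comp_perm`, `Antivary.sum_mul_eq_sum_mul_comp_perm_iff` and the `_lt_` versions, for `f i = x_i` and `g i = x_(rev i)`, antitone): `∑ x_i x_(rev i) ≤ ∑ x_i x_(σ i)` with equality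
only if `i ↦ x_(σ i)` is antitone, that is `σ = rev`.
-/

open scoped Classical

namespace Pool.Agent.LibHE77

open Pool.Agent.LibHD77.Comb (ind cf)

variable {N : ℕ}

private theorem A4_blk {H : Finset (Fin N)} {M : Finset (Finset (Fin N))} (hM : M ∈ PM H)
    {a : Fin N} (ha : a ∈ H) : ∃ b ∈ H, b ≠ a ∧ ({a, b} : Finset (Fin N)) ∈ M := by
  obtain ⟨-, h1, h2, h3⟩ := Finset.mem_filter.1 hM
  rw [← h3, Finset.mem_biUnion] at ha
  obtain ⟨t, ht, hat⟩ := ha
  obtain ⟨u, v, huv, rfl⟩ := Finset.card_eq_two.1 (h1 t ht)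
  have hu : u ∈ H := by
    rw [← h3, Finset.mem_biUnion]
    exact ⟨_, ht, by simp⟩
  have hv : v ∈ H := by
    rw [← h3, Finset.mem_biUnion]
    exact ⟨_, ht, by simp⟩
  simp only [id, Finset.mem_insert, Finset.mem_singleton] at hat
  rcases hat with rfl | rfl
  · exact ⟨v, hv, huv.symm, ht⟩
  · exact ⟨u, hu, huv, by rwa [Finset.pair_comm]⟩

private theorem A4_card {H : Finset (Fin N)} {M : Finset (Finset (Fin N))} (hM : M ∈ PM H) :
    H.card = 2 * M.card := by
  obtain ⟨-, h1, h2, h3⟩ := Finset.mem_filter.1 hM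
  rw [← h3, Finset.card_biUnion (t := id) h2]
  rw [Finset.sum_congr rfl (fun t ht => show (id t).card = 2 from h1 t ht)]
  simp [mul_comm]

private theorem A4_sub {H : Finset (Fin N)} {M : Finset (Finset (Fin N))} (hM : M ∈ PM H)
    {t : Finset (Fin N)} (ht : t ∈ M) : t ⊆ H := by
  obtain ⟨-, h1, h2, h3⟩ := Finset.mem_filter.1 hM
  rw [← h3]
  exact Finset.subset_biUnion_of_mem id ht

private theorem A4_mu {H : Finset (Fin N)} {m : ℕ} (h : H.card = 2 * m)
    {M : Finset (Finset (Fin N))} (hM : M ∈ PM H) (σ : Fin (2 * m) → Fin (2 * m))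
    (hσ : ∀ i, σ i ≠ i ∧
      ({H.orderEmbOfFin h i, H.orderEmbOfFin h (σ i)} : Finset (Fin N)) ∈ M) :
    2 * mu M = ∑ i, ((H.orderEmbOfFin h i : Fin N) : ℕ) *
      ((H.orderEmbOfFin h (σ i) : Fin N) : ℕ) := by
  have hM' := hM
  obtain ⟨-, h1, h2, h3⟩ := Finset.mem_filter.1 hM'
  have key : ∀ i, ((H.orderEmbOfFin h i : Fin N) : ℕ) * ((H.orderEmbOfFin h (σ i) : Fin N) : ℕ) =
      ∑ t ∈ M, if H.orderEmbOfFin h i ∈ t then ∏ a ∈ t, (a : ℕ) else 0 := by
    intro i
    have hne : H.orderEmbOfFin h i ≠ H.orderEmbOfFin h (σ i) := by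
      intro h0
      exact (hσ i).1 ((H.orderEmbOfFin h).injective h0).symm
    rw [Finset.sum_eq_single {H.orderEmbOfFin h i, H.orderEmbOfFin h (σ i)}]
    · rw [if_pos (by simp), Finset.prod_pair hne]
    · intro t ht hne'
      rw [if_neg]
      intro hmem
      exact Finset.disjoint_left.1 (h2 t ht _ (hσ i).2 hne') hmem (by simp)
    · intro hnot
      exact absurd (hσ i).2 hnot
  rw [Finset.sum_congr rfl fun i _ => key i, Finset.sum_comm]
  unfold mu
  rw [Finset.mul_sum]
  refine Finset.sum_congr rfl fun t ht => ?_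
  rw [if_pos (h1 t ht)]
  have h4 : ∀ f : Fin N → ℕ, ∑ i, f (H.orderEmbOfFin h i) = ∑ a ∈ H, f a := by
    intro f
    conv_rhs => rw [← Finset.map_orderEmbOfFin_univ H h]
    rw [Finset.sum_map]
    rfl
  rw [h4 fun a => if a ∈ t then ∏ a ∈ t, (a : ℕ) else 0, ← Finset.sum_filter,
    Finset.filter_mem_eq_inter, Finset.inter_eq_right.2 (A4_sub hM ht), Finset.sum_const, h1 t ht]
  simp

private theorem A4_rank {H : Finset (Fin N)} {k : ℕ} (h : H.card = k) (i : Fin k) :
    (H.filter fun x => x < H.orderEmbOfFin h i).card = i := by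
  have h1 : (H.filter fun x => x < H.orderEmbOfFin h i) =
      (Finset.Iio i).map (H.orderEmbOfFin h).toEmbedding := by
    ext x
    simp only [Finset.mem_filter, Finset.mem_map, Finset.mem_Iio]
    constructor
    · rintro ⟨hx, hlt⟩
      obtain ⟨j, rfl⟩ : x ∈ Set.range (H.orderEmbOfFin h) := by
        rw [Finset.range_orderEmbOfFin]; exact hx
      exact ⟨j, (H.orderEmbOfFin h).lt_iff_lt.1 hlt, rfl⟩
    · rintro ⟨j, hj, rfl⟩
      exact ⟨Finset.orderEmbOfFin_mem H h j, (H.orderEmbOfFin h).lt_iff_lt.2 hj⟩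
  rw [h1, Finset.card_map, Fin.card_Iio]

private theorem A4_rank' {H : Finset (Fin N)} {k : ℕ} (h : H.card = k) (i : Fin k) :
    (H.filter fun x => H.orderEmbOfFin h i < x).card = (i.rev : Fin k) := by
  have h1 : (H.filter fun x => H.orderEmbOfFin h i < x) =
      (Finset.Ioi i).map (H.orderEmbOfFin h).toEmbedding := by
    ext x
    simp only [Finset.mem_filter, Finset.mem_map, Finset.mem_Ioi]
    constructor
    · rintro ⟨hx, hlt⟩
      obtain ⟨j, rfl⟩ : x ∈ Set.range (H.orderEmbOfFin h) := by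
        rw [Finset.range_orderEmbOfFin]; exact hx
      exact ⟨j, (H.orderEmbOfFin h).lt_iff_lt.1 hlt, rfl⟩
    · rintro ⟨j, hj, rfl⟩
      exact ⟨Finset.orderEmbOfFin_mem H h j, (H.orderEmbOfFin h).lt_iff_lt.2 hj⟩
  rw [h1, Finset.card_map, Fin.card_Ioi, Fin.val_rev]
  omega

private theorem A4_rev {m : ℕ} (i : Fin (2 * m)) : i.rev ≠ i := by
  intro h
  have := congrArg Fin.val h
  rw [Fin.val_rev] at this
  omega

private theorem A4_nest {H : Finset (Fin N)} {m : ℕ} (h : H.card = 2 * m)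
    (t : Finset (Fin N)) :
    t ∈ nest H ↔ ∃ i, t = {H.orderEmbOfFin h i, H.orderEmbOfFin h i.rev} := by
  constructor
  · intro ht
    obtain ⟨-, h1, h2, h3⟩ := Finset.mem_filter.1 ht
    obtain ⟨a, b, hab, rfl⟩ := Finset.card_eq_two.1 h1
    have ha : a ∈ H := h2 (by simp)
    have hb : b ∈ H := h2 (by simp)
    obtain ⟨i, rfl⟩ : a ∈ Set.range (H.orderEmbOfFin h) := by
      rw [Finset.range_orderEmbOfFin]; exact ha
    obtain ⟨j, rfl⟩ : b ∈ Set.range (H.orderEmbOfFin h) := by
      rw [Finset.range_orderEmbOfFin]; exact hb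
    have h4 := h3 _ (by simp) _ (by simp) hab
    rw [A4_rank, A4_rank'] at h4
    have h5 : i = j.rev := Fin.ext h4
    refine ⟨i, ?_⟩
    rw [h5, Fin.rev_rev]
  · rintro ⟨i, rfl⟩
    have hne : H.orderEmbOfFin h i ≠ H.orderEmbOfFin h i.rev := by
      intro h0
      exact A4_rev i ((H.orderEmbOfFin h).injective h0).symm
    refine Finset.mem_filter.2 ⟨Finset.mem_univ _, Finset.card_pair hne, ?_, ?_⟩
    · intro x hx
      rw [Finset.mem_insert, Finset.mem_singleton] at hx
      rcases hx with rfl | rfl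
      · exact Finset.orderEmbOfFin_mem H h _
      · exact Finset.orderEmbOfFin_mem H h _
    · intro a ha b hb hab
      rw [Finset.mem_insert, Finset.mem_singleton] at ha hb
      rcases ha with rfl | rfl <;> rcases hb with rfl | rfl
      · exact absurd rfl hab
      · rw [A4_rank, A4_rank', Fin.rev_rev]
      · rw [A4_rank, A4_rank']
      · exact absurd rfl hab

theorem nest_mem (H : Finset (Fin N)) (m : ℕ) (h : H.card = 2 * m) : nest H ∈ PM H := by
  refine Finset.mem_filter.2 ⟨Finset.mem_univ _, ?_, ?_, ?_⟩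
  · intro t ht
    exact (Finset.mem_filter.1 ht).2.1
  · intro t ht t' ht' hne
    obtain ⟨i, rfl⟩ := (A4_nest h t).1 ht
    obtain ⟨j, rfl⟩ := (A4_nest h t').1 ht'
    rw [Finset.disjoint_left]
    intro x hx hx'
    apply hne
    rw [Finset.mem_insert, Finset.mem_singleton] at hx hx'
    rcases hx with rfl | rfl <;> rcases hx' with hx' | hx' <;>
      have h5 := (H.orderEmbOfFin h).injective hx'
    · rw [h5]
    · rw [h5, Fin.rev_rev, Finset.pair_comm]
    · rw [← h5, Fin.rev_rev, Finset.pair_comm]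
    · rw [Fin.rev_injective h5]
  · ext x
    rw [Finset.mem_biUnion]
    constructor
    · rintro ⟨t, ht, hx⟩
      exact (Finset.mem_filter.1 ht).2.2.1 hx
    · intro hx
      obtain ⟨i, rfl⟩ : x ∈ Set.range (H.orderEmbOfFin h) := by
        rw [Finset.range_orderEmbOfFin]; exact hx
      exact ⟨_, (A4_nest h _).2 ⟨i, rfl⟩, by simp⟩

theorem mu_nest_lt (H : Finset (Fin N)) (M : Finset (Finset (Fin N))) (hM : M ∈ PM H)
    (h : M ≠ nest H) : mu (nest H) < mu M := by
  have hc := A4_card hM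
  set m := M.card with hm
  set e := H.orderEmbOfFin hc with he
  have hrange : ∀ x ∈ H, ∃ i, e i = x := by
    intro x hx
    have : x ∈ Set.range e := by
      rw [he, Finset.range_orderEmbOfFin]; exact hx
    exact this
  have hex : ∀ i, ∃ j, j ≠ i ∧ ({e i, e j} : Finset (Fin N)) ∈ M := by
    intro i
    obtain ⟨b, hb, hne, hmem⟩ := A4_blk hM (Finset.orderEmbOfFin_mem H hc i)
    obtain ⟨j, rfl⟩ := hrange b hb
    exact ⟨j, fun h0 => hne (by rw [h0]), hmem⟩
  choose σ hσ1 hσ2 using hex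
  have hinv : ∀ i, σ (σ i) = i := by
    intro i
    by_contra hne
    obtain ⟨-, h1, h2, h3⟩ := Finset.mem_filter.1 hM
    have h4 : ({e i, e (σ i)} : Finset (Fin N)) ≠ {e (σ i), e (σ (σ i))} := by
      intro h5
      have h6 : e i ∈ ({e (σ i), e (σ (σ i))} : Finset (Fin N)) := by rw [← h5]; simp
      rw [Finset.mem_insert, Finset.mem_singleton] at h6
      rcases h6 with h6 | h6
      · exact hσ1 i (e.injective h6).symm
      · exact hne (e.injective h6).symm
    have h5 := Finset.disjoint_left.1 (h2 _ (hσ2 i) _ (hσ2 (σ i)) h4)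
    exact h5 (show e (σ i) ∈ _ by simp) (by simp)
  let τ : Equiv.Perm (Fin (2 * m)) := (Function.Involutive.toPerm σ hinv).trans Fin.revPerm
  have h1 := A4_mu hc hM σ fun i => ⟨hσ1 i, hσ2 i⟩
  have h2 := A4_mu hc (nest_mem H m hc) Fin.rev fun i =>
    ⟨A4_rev i, (A4_nest hc _).2 ⟨i, rfl⟩⟩
  have hanti : Antivary (fun i => ((e i : Fin N) : ℕ)) (fun i => ((e i.rev : Fin N) : ℕ)) := by
    intro i j hij
    have h3 : e i.rev < e j.rev := hij
    have h4 : i.rev < j.rev := e.lt_iff_lt.1 h3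
    have h5 : j < i := Fin.rev_lt_rev.1 h4
    exact (e.lt_iff_lt.2 h5).le
  have h3 := hanti.sum_mul_lt_sum_mul_comp_perm_iff (σ := τ)
  have h4 : ∀ i, ((e (τ i).rev : Fin N) : ℕ) = (e (σ i) : Fin N) := by
    intro i
    show ((e (Fin.rev (Fin.rev (σ i))) : Fin N) : ℕ) = (e (σ i) : Fin N)
    rw [Fin.rev_rev]
  have h5 : ∑ i, ((e i : Fin N) : ℕ) * ((e i.rev : Fin N) : ℕ) <
      ∑ i, ((e i : Fin N) : ℕ) * ((e (τ i).rev : Fin N) : ℕ) := by
    refine h3.2 fun hv => h ?_
    -- `σ` is antitone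
    have h6 : StrictMono fun i => Fin.rev (σ i) := by
      intro i j hij
      show Fin.rev (σ i) < Fin.rev (σ j)
      rw [Fin.rev_lt_rev]
      by_contra h7
      rcases (not_lt.1 h7).lt_or_eq with h8 | h8
      · have h9 : ((e (τ i).rev : Fin N) : ℕ) < (e (τ j).rev : Fin N) := by
          rw [h4, h4]
          exact e.lt_iff_lt.2 h8
        have h10 : e j ≤ e i := hv h9
        exact absurd (e.le_iff_le.1 h10) (not_le.2 hij)
      · have h9 : i = j := by rw [← hinv i, ← hinv j, h8]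
        exact absurd h9 hij.ne
    have h7 : (fun i => Fin.rev (σ i)) = id := by
      refine (StrictMono.range_inj h6 strictMono_id).1 ?_
      rw [Set.range_id, Set.range_eq_univ]
      exact τ.surjective
    have h8 : ∀ i, σ i = Fin.rev i := by
      intro i
      have := congrFun h7 i
      simp only [id] at this
      rw [← Fin.rev_rev (σ i), this]
    have h9 : nest H ⊆ M := by
      intro t ht
      obtain ⟨i, rfl⟩ := (A4_nest hc t).1 ht
      rw [← h8]
      exact hσ2 i
    have h10 : (nest H).card = m := by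
      have := A4_card (nest_mem H m hc)
      omega
    exact (Finset.eq_of_subset_of_card_le h9 (by omega)).symm
  have h11 : ∑ i, ((e i : Fin N) : ℕ) * ((e (τ i).rev : Fin N) : ℕ) =
      ∑ i, ((e i : Fin N) : ℕ) * ((e (σ i) : Fin N) : ℕ) :=
    Finset.sum_congr rfl fun i _ => by rw [h4 i]
  rw [h11] at h5
  have h6 : 2 * mu (nest H) < 2 * mu M := by
    rw [h1, h2]
    exact h5
  omega

end Pool.Agent.LibHE77
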