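import Pool.Agent.LibHE77.A4

/-!
[HE77 A5] families with too many nested pairs. Proof. `¬ Nst`: `m, a, b` as there with `g (a i) < m`, all `l (a i)` equal, so all `g (a i) = g₀`. Take the first `g₀ + 1` pairs: `H` the set of the `a_i, b_i`,
`i < g₀ + 1` (`2 g₀ + 2` different elements, the pairs are sets of `T` so `l (b_i) = l (a_i)`), `T₀` the other sets of `T`. The pairs `{a_i, b_i}` are the sets of `nest H`: `a_0 < ... < a_(g₀) < b_(g₀) < ... < b_0` is the
enumeration of `H`, so exactly `i` elements of `H` are smaller than `a_i` and exactly `i` are larger than `b_i`.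
-/

open scoped Classical

namespace Pool.Agent.LibHE77

open Pool.Agent.LibHD77.Comb (ind cf)

variable {N : ℕ} {Lb : Type}

private theorem A5_lt {m : ℕ} {a b : Fin m → Fin N} (ha : StrictMono a)
    (hab : ∀ i j, a i < b j) (i : Fin m) :
    ((Finset.univ.image a ∪ Finset.univ.image b).filter fun x => x < a i).card = (i : ℕ) := by
  have h1 : ((Finset.univ.image a ∪ Finset.univ.image b).filter fun x => x < a i) =
      (Finset.Iio i).image a := by
    ext x
    simp only [Finset.mem_filter, Finset.mem_union, Finset.mem_image, Finset.mem_univ, true_and,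
      Finset.mem_Iio]
    constructor
    · rintro ⟨⟨j, rfl⟩ | ⟨j, rfl⟩, h⟩
      · exact ⟨j, ha.lt_iff_lt.1 h, rfl⟩
      · exact absurd h (hab i j).le.not_gt
    · rintro ⟨j, hj, rfl⟩
      exact ⟨Or.inl ⟨j, rfl⟩, ha hj⟩
  rw [h1, Finset.card_image_of_injective _ ha.injective, Fin.card_Iio]

private theorem A5_gt {m : ℕ} {a b : Fin m → Fin N} (hb : StrictAnti b)
    (hab : ∀ i j, a i < b j) (i : Fin m) :
    ((Finset.univ.image a ∪ Finset.univ.image b).filter fun x => b i < x).card = (i : ℕ) := by
  have h1 : ((Finset.univ.image a ∪ Finset.univ.image b).filter fun x => b i < x) =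
      (Finset.Iio i).image b := by
    ext x
    simp only [Finset.mem_filter, Finset.mem_union, Finset.mem_image, Finset.mem_univ, true_and,
      Finset.mem_Iio]
    constructor
    · rintro ⟨⟨j, rfl⟩ | ⟨j, rfl⟩, h⟩
      · exact absurd h (hab j i).le.not_gt
      · exact ⟨j, hb.lt_iff_gt.1 h, rfl⟩
    · rintro ⟨j, hj, rfl⟩
      exact ⟨Or.inr ⟨j, rfl⟩, hb hj⟩
  rw [h1, Finset.card_image_of_injective _ hb.injective, Fin.card_Iio]

private theorem A5_total (H : Finset (Fin N)) {x : Fin N} (hx : x ∈ H) :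
    (H.filter fun y => y < x).card + (H.filter fun y => x < y).card + 1 = H.card := by
  have h1 : H = (H.filter fun y => y < x) ∪ ((H.filter fun y => x < y) ∪ {x}) := by
    ext y
    simp only [Finset.mem_union, Finset.mem_filter, Finset.mem_singleton]
    constructor
    · intro hy
      rcases lt_trichotomy y x with h | h | h
      · exact Or.inl ⟨hy, h⟩
      · exact Or.inr (Or.inr h)
      · exact Or.inr (Or.inl ⟨hy, h⟩)
    · rintro (h | h | h)
      · exact h.1
      · exact h.1
      · rw [h]; exact hx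
  have h2 : Disjoint (H.filter fun y => x < y) {x} := by
    rw [Finset.disjoint_singleton_right, Finset.mem_filter]
    exact fun h => lt_irrefl _ h.2
  have h3 : Disjoint (H.filter fun y => y < x) ((H.filter fun y => x < y) ∪ {x}) := by
    rw [Finset.disjoint_left]
    intro y hy hy'
    rw [Finset.mem_filter] at hy
    rw [Finset.mem_union, Finset.mem_filter, Finset.mem_singleton] at hy'
    rcases hy' with h | h
    · exact absurd hy.2 h.2.le.not_gt
    · rw [h] at hy
      exact lt_irrefl _ hy.2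
  have h4 := congrArg Finset.card h1
  rw [Finset.card_union_of_disjoint h3, Finset.card_union_of_disjoint h2,
    Finset.card_singleton] at h4
  omega

private theorem A5_inj_lt (H : Finset (Fin N)) {x y : Fin N} (hx : x ∈ H) (hy : y ∈ H)
    (h : (H.filter fun z => z < x).card = (H.filter fun z => z < y).card) : x = y := by
  have key : ∀ {u v : Fin N}, u ∈ H → u < v →
      (H.filter fun z => z < u).card < (H.filter fun z => z < v).card := by
    intro u v hu huv
    refine Finset.card_lt_card ⟨fun z hz => ?_, fun hcon => ?_⟩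
    · rw [Finset.mem_filter] at hz ⊢
      exact ⟨hz.1, hz.2.trans huv⟩
    · have h1 : u ∈ H.filter fun z => z < u := hcon (Finset.mem_filter.2 ⟨hu, huv⟩)
      exact lt_irrefl _ (Finset.mem_filter.1 h1).2
  rcases lt_trichotomy x y with h1 | h1 | h1
  · exact absurd h (key hx h1).ne
  · exact h1
  · exact absurd h (key hy h1).ne'

private theorem A5_inj_gt (H : Finset (Fin N)) {x y : Fin N} (hx : x ∈ H) (hy : y ∈ H)
    (h : (H.filter fun z => x < z).card = (H.filter fun z => y < z).card) : x = y := by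
  refine A5_inj_lt H hx hy ?_
  have h1 := A5_total H hx
  have h2 := A5_total H hy
  omega

private theorem A5_nest {m : ℕ} {a b : Fin m → Fin N} (ha : StrictMono a) (hb : StrictAnti b)
    (hab : ∀ i j, a i < b j) :
    nest (Finset.univ.image a ∪ Finset.univ.image b) =
      Finset.univ.image fun i => ({a i, b i} : Finset (Fin N)) := by
  obtain ⟨H, hH⟩ : ∃ H : Finset (Fin N), H = Finset.univ.image a ∪ Finset.univ.image b := ⟨_, rfl⟩
  have hlt : ∀ i, (H.filter fun x => x < a i).card = (i : ℕ) := fun i => by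
    rw [hH]; exact A5_lt ha hab i
  have hgt : ∀ i, (H.filter fun x => b i < x).card = (i : ℕ) := fun i => by
    rw [hH]; exact A5_gt hb hab i
  have haH : ∀ i, a i ∈ H := fun i => by
    rw [hH]
    exact Finset.mem_union_left _ (Finset.mem_image_of_mem a (Finset.mem_univ i))
  have hbH : ∀ i, b i ∈ H := fun i => by
    rw [hH]
    exact Finset.mem_union_right _ (Finset.mem_image_of_mem b (Finset.mem_univ i))
  have hcase : ∀ x ∈ H, (∃ i, x = a i) ∨ ∃ i, x = b i := by
    intro x hx
    rw [hH, Finset.mem_union, Finset.mem_image, Finset.mem_image] at hx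
    rcases hx with ⟨i, -, rfl⟩ | ⟨i, -, rfl⟩
    · exact Or.inl ⟨i, rfl⟩
    · exact Or.inr ⟨i, rfl⟩
  rw [← hH]
  ext t
  unfold nest
  rw [Finset.mem_filter, Finset.mem_image]
  constructor
  · rintro ⟨-, hc, hsub, ht⟩
    obtain ⟨u, v, huv, rfl⟩ := Finset.card_eq_two.1 hc
    have hu : u ∈ ({u, v} : Finset (Fin N)) := Finset.mem_insert_self u _
    have hv : v ∈ ({u, v} : Finset (Fin N)) :=
      Finset.mem_insert_of_mem (Finset.mem_singleton_self v)
    have h1 := ht u hu v hv huv
    have h2 := ht v hv u hu huv.symm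
    rcases hcase u (hsub hu) with ⟨i, rfl⟩ | ⟨i, rfl⟩
    · have h3 : v = b i := A5_inj_gt H (hsub hv) (hbH i) (by rw [hgt i, ← h1, hlt i])
      exact ⟨i, Finset.mem_univ i, by rw [h3]⟩
    · have h3 : v = a i := A5_inj_lt H (hsub hv) (haH i) (by rw [hlt i, h2, hgt i])
      exact ⟨i, Finset.mem_univ i, by rw [h3, Finset.pair_comm]⟩
  · rintro ⟨i, -, rfl⟩
    have hne : a i ≠ b i := (hab i i).ne
    refine ⟨Finset.mem_univ _, Finset.card_pair hne, ?_, ?_⟩
    · intro x hx
      rw [Finset.mem_insert, Finset.mem_singleton] at hx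
      rcases hx with rfl | rfl
      · exact haH i
      · exact hbH i
    · intro x hx y hy hxy
      rw [Finset.mem_insert, Finset.mem_singleton] at hx hy
      have h1 := A5_total H (haH i)
      have h2 := A5_total H (hbH i)
      have h3 := hlt i
      have h4 := hgt i
      rcases hx with rfl | rfl
      · rcases hy with rfl | rfl
        · exact absurd rfl hxy
        · omega
      · rcases hy with rfl | rfl
        · omega
        · exact absurd rfl hxy

theorem not_nst (l : Fin N → Lb) (g : Fin N → ℕ) (hg : ∀ a b, l a = l b → g a = g b)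
    (T : Finset (Finset (Fin N))) (hT : Adm l T) (h : ¬ Nst l g T) :
    ∃ (H : Finset (Fin N)) (T₀ : Finset (Finset (Fin N))), H.Nonempty ∧
      (∀ a ∈ H, ∀ b ∈ H, l a = l b) ∧ (∀ a ∈ H, H.card = 2 * g a + 2) ∧ Adm l T₀ ∧
      (∀ t ∈ T₀, Disjoint t H) ∧ 2 * T₀.card + H.card = 2 * T.card ∧ T = T₀ ∪ nest H := by
  unfold Nst at h
  push Not at h
  obtain ⟨m, a₀, b₀, ha₀, hb₀, hab₀, hmem₀, hl₀, i₀, hi₀⟩ := h
  obtain ⟨g₀, hg₀⟩ : ∃ g₀, g₀ = g (a₀ i₀) := ⟨_, rfl⟩
  have hle : g₀ + 1 ≤ m := by rw [hg₀]; exact hi₀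
  obtain ⟨a, haa⟩ : ∃ a : Fin (g₀ + 1) → Fin N, ∀ i, a i = a₀ (Fin.castLE hle i) :=
    ⟨_, fun _ => rfl⟩
  obtain ⟨b, hbb⟩ : ∃ b : Fin (g₀ + 1) → Fin N, ∀ i, b i = b₀ (Fin.castLE hle i) :=
    ⟨_, fun _ => rfl⟩
  have ha : StrictMono a := fun i j hij => by
    rw [haa, haa]
    exact ha₀ hij
  have hb : StrictAnti b := fun i j hij => by
    rw [hbb, hbb]
    exact hb₀ hij
  have hab : ∀ i j, a i < b j := fun i j => by
    rw [haa, hbb]
    exact hab₀ _ _
  have hmem : ∀ i, ({a i, b i} : Finset (Fin N)) ∈ T := fun i => by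
    rw [haa, hbb]
    exact hmem₀ _
  have hla : ∀ i, l (a i) = l (a₀ i₀) := fun i => by
    rw [haa]
    exact hl₀ _ _
  have hlb : ∀ i, l (b i) = l (a₀ i₀) := fun i => by
    rw [← hla i]
    exact (hT.1 _ (hmem i)).2 _ (Finset.mem_insert_of_mem (Finset.mem_singleton_self _)) _
      (Finset.mem_insert_self _ _)
  have hH : ∀ x ∈ Finset.univ.image a ∪ Finset.univ.image b, l x = l (a₀ i₀) := by
    intro x hx
    rw [Finset.mem_union, Finset.mem_image, Finset.mem_image] at hx
    rcases hx with ⟨i, -, rfl⟩ | ⟨i, -, rfl⟩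
    · exact hla i
    · exact hlb i
  have hdisj : Disjoint (Finset.univ.image a) (Finset.univ.image b) := by
    rw [Finset.disjoint_left]
    intro x hx hx'
    rw [Finset.mem_image] at hx hx'
    obtain ⟨i, -, rfl⟩ := hx
    obtain ⟨j, -, hj⟩ := hx'
    exact (hab i j).ne' hj
  have hcard : (Finset.univ.image a ∪ Finset.univ.image b).card = 2 * g₀ + 2 := by
    rw [Finset.card_union_of_disjoint hdisj, Finset.card_image_of_injective _ ha.injective,
      Finset.card_image_of_injective _ hb.injective, Finset.card_univ, Fintype.card_fin]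
    ring
  have hTcard : (Finset.univ.image fun i => ({a i, b i} : Finset (Fin N))).card = g₀ + 1 := by
    rw [Finset.card_image_of_injective, Finset.card_univ, Fintype.card_fin]
    intro i j hij
    have h1 : a i ∈ ({a j, b j} : Finset (Fin N)) := by
      rw [← show ({a i, b i} : Finset (Fin N)) = {a j, b j} from hij]
      exact Finset.mem_insert_self _ _
    rw [Finset.mem_insert, Finset.mem_singleton] at h1
    rcases h1 with h1 | h1
    · exact ha.injective h1
    · exact absurd h1 (hab i j).ne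
  have hTsub : (Finset.univ.image fun i => ({a i, b i} : Finset (Fin N))) ⊆ T := by
    intro t ht
    rw [Finset.mem_image] at ht
    obtain ⟨i, -, rfl⟩ := ht
    exact hmem i
  refine ⟨Finset.univ.image a ∪ Finset.univ.image b,
    T \ (Finset.univ.image fun i => ({a i, b i} : Finset (Fin N))), ?_, ?_, ?_, ?_, ?_, ?_, ?_⟩
  · rw [← Finset.card_pos, hcard]
    omega
  · intro x hx y hy
    rw [hH x hx, hH y hy]
  · intro x hx
    rw [hcard, hg x (a₀ i₀) (hH x hx), hg₀]
  · exact ⟨fun t ht => hT.1 t (Finset.mem_sdiff.1 ht).1,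
      fun t ht t' ht' htt => hT.2 t (Finset.mem_sdiff.1 ht).1 t' (Finset.mem_sdiff.1 ht').1 htt⟩
  · intro t ht
    rw [Finset.mem_sdiff] at ht
    have hd : ∀ i, Disjoint t ({a i, b i} : Finset (Fin N)) := fun i =>
      hT.2 t ht.1 _ (hmem i) fun hcon =>
        ht.2 (Finset.mem_image.2 ⟨i, Finset.mem_univ i, hcon.symm⟩)
    rw [Finset.disjoint_right]
    intro x hx
    rw [Finset.mem_union, Finset.mem_image, Finset.mem_image] at hx
    rcases hx with ⟨i, -, rfl⟩ | ⟨i, -, rfl⟩
    · exact Finset.disjoint_right.1 (hd i) (Finset.mem_insert_self _ _)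
    · exact Finset.disjoint_right.1 (hd i)
        (Finset.mem_insert_of_mem (Finset.mem_singleton_self _))
  · have h1 := Finset.card_sdiff_add_card_eq_card hTsub
    rw [hcard]
    omega
  · rw [A5_nest ha hb hab, Finset.sdiff_union_of_subset hTsub]

end Pool.Agent.LibHE77
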