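import Pool.Agent.LibHE77.A0

/-!
The vector space with creation and annihilation operators for the families of disjoint sets: definition.
-/

open scoped Classical

namespace Pool.Agent.LibHE77

variable {N : ℕ} {Lb : Type}

/-- the algebra generated by the `X t`, `t` disjoint from `s` -/
noncomputable def Sb {R : Type} [CommRing R] [Algebra ℚ R] (X : Finset (Fin N) → R)
    (s : Finset (Fin N)) : Subalgebra ℚ R :=
  Algebra.adjoin ℚ {x | ∃ t, Disjoint t s ∧ x = X t}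

/-- A vector space `F` with a definite form `B`, a vector `vac` and commuting operators `X t` (for the sets `t`
with one element and with two elements with the same label) with adjoint operators `Y t`, which satisfy the
relations of the operators `∑_h (ξ⁺_(a,h) η⁺_(b,h) + ξ⁺_(b,h) η⁺_(a,h))` (`h < g(a)`) of a fermionic Fock space. -/
structure Fk (l : Fin N → Lb) (g : Fin N → ℕ) where
  /-- the algebra of the operators -/
  R : Type
  /-- ring structure -/
  cR : CommRing R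
  /-- algebra structure -/
  aR : Algebra ℚ R
  /-- the vector space -/
  F : Type
  /-- group structure -/
  gF : AddCommGroup F
  /-- vector space structure -/
  mF : Module ℚ F
  /-- the operators act -/
  mR : Module R F
  tw : IsScalarTower ℚ R F
  /-- the vacuum -/
  vac : F
  /-- the operators -/
  X : Finset (Fin N) → R
  X0 : ∀ t, t.card ≠ 1 → t.card ≠ 2 → X t = 0
  Xl : ∀ a b, l a ≠ l b → X {a, b} = 0
  /-- the adjoint operators -/
  Y : Finset (Fin N) → F →ₗ[ℚ] F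
  /-- the form -/
  B : F →ₗ[ℚ] F →ₗ[ℚ] ℚ
  adj : ∀ t ψ φ, B (X t • ψ) φ = B ψ (Y t φ)
  pos : ∀ ψ, B ψ ψ = 0 → ψ = 0
  ys : ∀ a, ∀ r ∈ Sb X {a}, Y {a} (r • vac) = 0 ∧ Y {a} ((X {a} * r) • vac) = r • vac ∧
    ∀ b, b ≠ a → Y {a} ((X {a, b} * r) • vac) = 0
  yp : ∀ a b, a ≠ b → l a = l b → ∀ r ∈ Sb X {a, b}, Y {a, b} (r • vac) = 0 ∧
    Y {a, b} ((X {a} * r) • vac) = 0 ∧ Y {a, b} ((X {a} * X {b} * r) • vac) = 0 ∧
    Y {a, b} ((X {a, b} * r) • vac) = (2 * g a : ℚ) • (r • vac) ∧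
    ∀ c, c ≠ a → c ≠ b → Y {a, b} ((X {a, c} * r) • vac) = 0 ∧
      Y {a, b} ((X {a, c} * X {b} * r) • vac) = 0 ∧
      ∀ d, d ≠ a → d ≠ b → d ≠ c → l c = l a → l d = l a →
        Y {a, b} ((X {a, c} * X {b, d} * r) • vac) = - ((X {c, d} * r) • vac)
  /-- the generic form -/
  Θ : QuadraticMap ℤ (Fin N → ℤ) R
  Θpow : Theta l g Θ
  Θpair : ∀ t, t.card = 2 → qat Θ t = X t
  /-- the coefficients of a vector -/
  co : (Fin N → Option (Option (ℕ × Bool))) → F →ₗ[ℚ] ℚ
  co_ne : ∀ w T, Adm l T → Cmpt g w T → co w ((∏ t ∈ T, X t) • vac) ≠ 0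
  co_zero : ∀ w T, Adm l T → ¬ Cmpt g w T → co w ((∏ t ∈ T, X t) • vac) = 0

attribute [instance] Fk.cR Fk.aR Fk.gF Fk.mF Fk.mR Fk.tw

/-- the vector of a family -/
noncomputable def Fk.V {l : Fin N → Lb} {g : Fin N → ℕ} (𝔽 : Fk l g)
    (T : Finset (Finset (Fin N))) : 𝔽.F := (∏ t ∈ T, 𝔽.X t) • 𝔽.vac

end Pool.Agent.LibHE77
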