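import Pool.Agent.LibHE77.B0

/-!
The fermionic Fock space: definitions.
-/

open scoped Classical

namespace Pool.Agent.LibHE77

open Pool.Agent.LibHD77.Comb (ind cf)

section fock

variable {M : ℕ}

/-- the Fock space: functions on the sets of occupied states -/
abbrev FS (M : ℕ) : Type := Finset (Fin M) → ℚ

/-- the sign: the number of occupied states before `i` -/
def sgn (i : Fin M) (S : Finset (Fin M)) : ℚ := (-1) ^ (S.filter fun j => j < i).card

/-- creation operators -/
noncomputable def cr (i : Fin M) : Module.End ℚ (FS M) where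
  toFun ψ S := if i ∈ S then sgn i S * ψ (S.erase i) else 0
  map_add' ψ φ := by
    funext S
    by_cases h : i ∈ S <;> simp [h, mul_add]
  map_smul' c ψ := by
    funext S
    by_cases h : i ∈ S <;> simp [h, mul_left_comm]

/-- annihilation operators -/
noncomputable def an (i : Fin M) : Module.End ℚ (FS M) where
  toFun ψ S := if i ∈ S then 0 else sgn i S * ψ (insert i S)
  map_add' ψ φ := by
    funext S
    by_cases h : i ∈ S <;> simp [h, mul_add]
  map_smul' c ψ := by
    funext S
    by_cases h : i ∈ S <;> simp [h, mul_left_comm]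

/-- the vacuum -/
noncomputable def vc (M : ℕ) : FS M := fun S => if S = ∅ then 1 else 0

/-- the form -/
noncomputable def Bf (M : ℕ) : FS M →ₗ[ℚ] FS M →ₗ[ℚ] ℚ :=
  ∑ S : Finset (Fin M), (LinearMap.proj S : FS M →ₗ[ℚ] ℚ).smulRight (LinearMap.proj S)

end fock

section ops

variable {N : ℕ} {Lb : Type} (l : Fin N → Lb) (g : Fin N → ℕ)

/-- the number of the last state, used for the sets with one element -/
def Gm : ℕ := ∑ a, g a

/-- the states -/
abbrev St : Type := Fin N × Fin (Gm g + 1) × Bool

/-- the number of a state -/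
noncomputable def ix (s : St g) : Fin (Fintype.card (St g)) := Fintype.equivFin (St g) s

/-- creation of the state `(a, h, ε)` (`h ≤ Gm g`) -/
noncomputable def cs (a : Fin N) (h : ℕ) (ε : Bool) : Module.End ℚ (FS (Fintype.card (St g))) :=
  if hh : h < Gm g + 1 then cr (ix g (a, ⟨h, hh⟩, ε)) else 0

/-- annihilation of the state `(a, h, ε)` -/
noncomputable def as (a : Fin N) (h : ℕ) (ε : Bool) : Module.End ℚ (FS (Fintype.card (St g))) :=
  if hh : h < Gm g + 1 then an (ix g (a, ⟨h, hh⟩, ε)) else 0

/-- the operators `X t` -/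
noncomputable def Xo (t : Finset (Fin N)) : Module.End ℚ (FS (Fintype.card (St g))) :=
  if t.card = 1 then ∑ a ∈ t, cs g a (Gm g) false * cs g a (Gm g) true else
  if t.card = 2 then ∑ a ∈ t, ∑ b ∈ t.erase a, if l a = l b then
    ∑ h ∈ Finset.range (g a), cs g a h false * cs g b h true else 0 else 0

/-- the adjoint operators -/
noncomputable def Yo (t : Finset (Fin N)) : Module.End ℚ (FS (Fintype.card (St g))) :=
  if t.card = 1 then ∑ a ∈ t, as g a (Gm g) true * as g a (Gm g) false else
  if t.card = 2 then ∑ a ∈ t, ∑ b ∈ t.erase a, if l a = l b then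
    ∑ h ∈ Finset.range (g a), as g b h true * as g a h false else 0 else 0

/-- the algebra generated by the products of two creation operators -/
noncomputable def Ev : Subalgebra ℚ (Module.End ℚ (FS (Fintype.card (St g)))) :=
  Algebra.adjoin ℚ {x | ∃ i j, x = cr i * cr j}

/-- the algebra generated by the `Xo t`, `t` disjoint from `s` -/
noncomputable def Sx (s : Finset (Fin N)) : Subalgebra ℚ (Module.End ℚ (FS (Fintype.card (St g)))) :=
  Algebra.adjoin ℚ {x | ∃ t, Disjoint t s ∧ x = Xo l g t}

/-- the form `∑_(a, b) v_a v_b ∑_h ξ⁺_(a,h) η⁺_(b,h)` (`a`, `b` with the same label) -/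
noncomputable def Th (v : Fin N → ℤ) : Module.End ℚ (FS (Fintype.card (St g))) :=
  ∑ a, ∑ b, if l a = l b then (v a * v b) • ∑ h ∈ Finset.range (g a), cs g a h false * cs g b h true
    else 0

/-- the set of states of a word -/
noncomputable def sw (w : Fin N → Option (Option (ℕ × Bool))) : Finset (Fin (Fintype.card (St g))) :=
  Finset.univ.filter fun i => ∃ a h ε, ix g (a, h, ε) = i ∧
    (w a = some (some ((h : ℕ), ε)) ∨ (w a = some none ∧ (h : ℕ) = Gm g))

/-- the words which occur -/
def okw (w : Fin N → Option (Option (ℕ × Bool))) : Prop :=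
  ∀ a h ε, w a = some (some (h, ε)) → h < g a

end ops

end Pool.Agent.LibHE77
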