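import Pool.Agent.LibHE77.B0d

/-!
[HE77 B1] the canonical anticommutation relations. Proof. Evaluate both sides at `ψ` and `S` (`LinearMap.ext`, `funext`), cases `i ∈ S`, `j ∈ S`, `i < j`, `i = j`, `j < i`: removing `j` from `S` changes the number of elements before `i`
by one if `j < i` and not at all otherwise (`Finset.filter_erase`, `Finset.card_erase_of_mem`, `pow_succ`). `cr_self`: at `S ∋ i` the function is evaluated at `S.erase i`, where `cr i ψ` is zero. `Bf_adj`: the sum over `S ∋ i` of `sgn i S ψ(S \ i) φ(S)`
is the sum over the `S ∌ i` of `sgn i S ψ(S) φ(S ∪ i)` (bijection `S ↦ insert i S`). `Bf_pos`: a sum of squares. `prod_vac`: induction on the list (`cr i` of the indicator of `S` is `±` the indicator of `insert i S` if `i ∉ S` and `0` if `i ∈ S`).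
-/

open scoped Classical

namespace Pool.Agent.LibHE77

open Pool.Agent.LibHD77.Comb (ind cf)

variable {M : ℕ}

private theorem B1_erase {i j : Fin M} {S : Finset (Fin M)} (hj : j ∈ S) :
    sgn i (S.erase j) = if j < i then -sgn i S else sgn i S := by
  unfold sgn
  rw [Finset.filter_erase]
  split_ifs with h
  · have h1 : j ∈ S.filter fun k => k < i := Finset.mem_filter.2 ⟨hj, h⟩
    have h2 := Finset.card_erase_add_one h1
    rw [← h2, pow_succ]
    ring
  · rw [Finset.erase_eq_of_notMem]
    intro h1
    exact h (Finset.mem_filter.1 h1).2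

private theorem B1_insert {i j : Fin M} {S : Finset (Fin M)} (hj : j ∉ S) :
    sgn i (insert j S) = if j < i then -sgn i S else sgn i S := by
  have h1 := B1_erase (i := i) (Finset.mem_insert_self j S)
  rw [Finset.erase_insert hj] at h1
  rw [h1]
  split_ifs
  · rw [neg_neg]
  · rfl

private theorem B1_pm (i : Fin M) (S : Finset (Fin M)) : sgn i S = 1 ∨ sgn i S = -1 :=
  neg_one_pow_eq_or ℚ _

private theorem B1_sq (i : Fin M) (S : Finset (Fin M)) : sgn i S * sgn i S = 1 := by
  rcases B1_pm i S with h | h <;> rw [h] <;> norm_num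

private theorem B1_cr (i : Fin M) (ψ : FS M) (S : Finset (Fin M)) :
    cr i ψ S = if i ∈ S then sgn i S * ψ (S.erase i) else 0 := rfl

private theorem B1_an (i : Fin M) (ψ : FS M) (S : Finset (Fin M)) :
    an i ψ S = if i ∈ S then 0 else sgn i S * ψ (insert i S) := rfl

theorem cr_cr (i j : Fin M) : cr i * cr j = - (cr j * cr i) := by
  refine LinearMap.ext fun ψ => ?_
  funext S
  show cr i (cr j ψ) S = -(cr j (cr i ψ) S)
  rw [B1_cr, B1_cr, B1_cr, B1_cr]
  by_cases hij : i = j
  · subst hij
    simp
  · by_cases hi : i ∈ S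
    · by_cases hj : j ∈ S
      · have h1 : j ∈ S.erase i := Finset.mem_erase.2 ⟨fun h => hij h.symm, hj⟩
        have h2 : i ∈ S.erase j := Finset.mem_erase.2 ⟨hij, hi⟩
        rw [if_pos hi, if_pos hj, if_pos h1, if_pos h2, B1_erase hi, B1_erase hj,
          Finset.erase_right_comm]
        rcases lt_or_gt_of_ne hij with h | h
        · rw [if_pos h, if_neg (not_lt.2 h.le)]
          ring
        · rw [if_neg (not_lt.2 h.le), if_pos h]
          ring
      · rw [if_pos hi, if_neg hj, if_neg (fun h => hj (Finset.mem_of_mem_erase h))]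
        simp
    · by_cases hj : j ∈ S
      · rw [if_neg hi, if_pos hj, if_neg (fun h => hi (Finset.mem_of_mem_erase h))]
        simp
      · rw [if_neg hi, if_neg hj]
        simp

theorem cr_self (i : Fin M) : cr i * cr i = 0 := by
  refine LinearMap.ext fun ψ => ?_
  funext S
  show cr i (cr i ψ) S = 0
  rw [B1_cr, B1_cr]
  simp

theorem an_cr (i j : Fin M) : an i * cr j + cr j * an i = if i = j then 1 else 0 := by
  refine LinearMap.ext fun ψ => ?_
  funext S
  show an i (cr j ψ) S + cr j (an i ψ) S = (if i = j then (1 : Module.End ℚ (FS M)) else 0) ψ S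
  rw [B1_an, B1_cr, B1_cr, B1_an]
  by_cases hij : i = j
  · subst hij
    rw [if_pos rfl]
    show _ = ψ S
    by_cases hi : i ∈ S
    · rw [if_pos hi, if_pos hi, if_neg (Finset.notMem_erase i S), B1_erase hi,
        if_neg (lt_irrefl i), Finset.insert_erase hi, ← mul_assoc, B1_sq]
      ring
    · rw [if_neg hi, if_neg hi, if_pos (Finset.mem_insert_self i S), B1_insert hi,
        if_neg (lt_irrefl i), Finset.erase_insert hi, ← mul_assoc, B1_sq]
      ring
  · rw [if_neg hij]
    show _ = (0 : ℚ)
    by_cases hi : i ∈ S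
    · rw [if_pos hi]
      by_cases hj : j ∈ S
      · rw [if_pos hj, if_pos (Finset.mem_erase.2 ⟨hij, hi⟩)]
        simp
      · rw [if_neg hj]
        simp
    · rw [if_neg hi]
      by_cases hj : j ∈ S
      · have h1 : j ∈ insert i S := Finset.mem_insert_of_mem hj
        rw [if_pos h1, if_pos hj, if_neg (fun h => hi (Finset.mem_of_mem_erase h)),
          B1_insert hi, B1_erase hj, Finset.erase_insert_of_ne hij]
        rcases lt_or_gt_of_ne hij with h | h
        · rw [if_pos h, if_neg (not_lt.2 h.le)]
          ring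
        · rw [if_neg (not_lt.2 h.le), if_pos h]
          ring
      · have h1 : j ∉ insert i S := by
          rw [Finset.mem_insert]
          rintro (h | h)
          · exact hij h.symm
          · exact hj h
        rw [if_neg h1, if_neg hj]
        simp

theorem an_vac (i : Fin M) : an i (vc M) = 0 := by
  funext S
  rw [B1_an]
  show (if i ∈ S then (0 : ℚ) else sgn i S * (if insert i S = ∅ then 1 else 0)) = 0
  rw [if_neg (Finset.insert_ne_empty i S), mul_zero, ite_self]

private theorem B1_Bf (ψ φ : FS M) : Bf M ψ φ = ∑ S, ψ S * φ S := by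
  unfold Bf
  rw [LinearMap.sum_apply, LinearMap.sum_apply]
  rfl

/-- `S` with `i` removed or added -/
private noncomputable def B1_e (i : Fin M) (S : Finset (Fin M)) : Finset (Fin M) :=
  if i ∈ S then S.erase i else insert i S

private theorem B1_inv (i : Fin M) : Function.Involutive (B1_e i) := by
  intro S
  unfold B1_e
  by_cases hi : i ∈ S
  · rw [if_pos hi, if_neg (Finset.notMem_erase i S), Finset.insert_erase hi]
  · rw [if_neg hi, if_pos (Finset.mem_insert_self i S), Finset.erase_insert hi]

theorem Bf_adj (i : Fin M) (ψ φ : FS M) : Bf M (cr i ψ) φ = Bf M ψ (an i φ) := by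
  rw [B1_Bf, B1_Bf, ← Equiv.sum_comp (Function.Involutive.toPerm (B1_e i) (B1_inv i))]
  refine Finset.sum_congr rfl fun S _ => ?_
  show cr i ψ (B1_e i S) * φ (B1_e i S) = ψ S * an i φ S
  rw [B1_cr, B1_an]
  unfold B1_e
  by_cases hi : i ∈ S
  · rw [if_pos hi, if_neg (Finset.notMem_erase i S), if_pos hi, zero_mul, mul_zero]
  · rw [if_neg hi, if_pos (Finset.mem_insert_self i S), if_neg hi, B1_insert hi,
      if_neg (lt_irrefl i), Finset.erase_insert hi]
    ring

theorem Bf_pos (ψ : FS M) (h : Bf M ψ ψ = 0) : ψ = 0 := by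
  rw [B1_Bf, Finset.sum_eq_zero_iff_of_nonneg fun S _ => mul_self_nonneg _] at h
  funext S
  exact mul_self_eq_zero.1 (h S (Finset.mem_univ S))

theorem prod_vac (L : List (Fin M)) :
    (L.Nodup → ∃ ε : ℚ, (ε = 1 ∨ ε = -1) ∧ (L.map cr).prod (vc M) =
      fun S => if S = L.toFinset then ε else 0) ∧
    (¬ L.Nodup → (L.map cr).prod (vc M) = 0) := by
  induction L with
  | nil =>
    refine ⟨fun _ => ⟨1, Or.inl rfl, ?_⟩, fun h => absurd List.nodup_nil h⟩
    rfl
  | cons i L ih =>
    have h0 : ((i :: L).map cr).prod (vc M) = cr i ((L.map cr).prod (vc M)) := by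
      rw [List.map_cons, List.prod_cons]
      rfl
    rw [h0]
    constructor
    · intro hnd
      obtain ⟨hi, hL⟩ := List.nodup_cons.1 hnd
      obtain ⟨ε, hε, h1⟩ := ih.1 hL
      have hiT : i ∉ L.toFinset := fun h => hi (List.mem_toFinset.1 h)
      refine ⟨sgn i (insert i L.toFinset) * ε, ?_, ?_⟩
      · rcases B1_pm i (insert i L.toFinset) with h | h <;> rcases hε with h' | h' <;>
          rw [h, h'] <;> norm_num
      · rw [h1]
        funext S
        rw [B1_cr, List.toFinset_cons]
        by_cases hS : S = insert i L.toFinset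
        · rw [if_pos hS, hS, if_pos (Finset.mem_insert_self i _), Finset.erase_insert hiT,
            if_pos rfl]
        · rw [if_neg hS]
          by_cases hiS : i ∈ S
          · rw [if_pos hiS, if_neg, mul_zero]
            intro h2
            exact hS (by rw [← h2, Finset.insert_erase hiS])
          · rw [if_neg hiS]
    · intro hnd
      by_cases hL : L.Nodup
      · have hi : i ∈ L := by
          by_contra hi
          exact hnd (List.nodup_cons.2 ⟨hi, hL⟩)
        obtain ⟨ε, hε, h1⟩ := ih.1 hL
        rw [h1]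
        funext S
        rw [B1_cr]
        by_cases hiS : i ∈ S
        · rw [if_pos hiS, if_neg, mul_zero]
          · rfl
          · intro h2
            have h3 : i ∈ S.erase i := by
              rw [h2]
              exact List.mem_toFinset.2 hi
            exact Finset.notMem_erase i S h3
        · rw [if_neg hiS]
          rfl
      · rw [ih.2 hL, map_zero]

end Pool.Agent.LibHE77
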