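import Pool.Agent.LibHE77.B1

/-!
[HE77 B2] the operators `Xo t`, `Yo t`. Proof. `Ev_comm`: the generators `cr i * cr j` commute (`cr_cr`: four exchanges), so the algebra is commutative (`Algebra.adjoin_induction` twice, or `Subalgebra.commute...`). `Xo_mem`, `Th_mem`: sums of products of two creation operators. `Xo_adj`: `Bf_adj` twice.
`Th_pow`: on the coordinates with the label of `a` (`v` is zero elsewhere; `g` is constant there) `Th v = ∑_(h < g a) x_h * y_h` with `x_h = ∑_b v_b cs b h false`, `y_h = ∑_b v_b cs b h true`; `x_h * x_h = 0` by `cr_cr`, `cr_self`, so the `x_h * y_h` commute and have square zero, and a product of `g a + 1` of them is zero: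
expand the power (`Finset.sum_pow...` in the commutative ring, or induction: the power `m` of a sum of `k` commuting elements with square zero is zero for `m > k`). `Th_polar`: for `t = {a, b}`: `Th (e_a + e_b) - Th e_a - Th e_b = Xo t`.
-/

open scoped Classical

namespace Pool.Agent.LibHE77

open Pool.Agent.LibHD77.Comb (ind cf)

variable {N : ℕ} {Lb : Type} (l : Fin N → Lb) (g : Fin N → ℕ)

private theorem b2_ring {R : Type*} [Ring R] (A B C D : R) (e1 : B * C = - (C * B))
    (e2 : A * C = - (C * A)) (e3 : B * D = - (D * B)) (e4 : A * D = - (D * A)) :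
    A * B * (C * D) = C * D * (A * B) := by
  calc A * B * (C * D) = A * (B * C) * D := by simp only [mul_assoc]
    _ = - ((A * C) * (B * D)) := by
      rw [e1]
      simp only [mul_assoc, mul_neg, neg_mul]
    _ = - ((C * A) * (D * B)) := by
      rw [e2, e3]
      simp only [mul_neg, neg_mul, neg_neg]
    _ = - (C * (A * D) * B) := by simp only [mul_assoc]
    _ = C * D * (A * B) := by
      rw [e4]
      simp only [mul_assoc, mul_neg, neg_mul, neg_neg]

private theorem b2_ring2 {R : Type*} [Ring R] (A B : R) (e1 : B * A = - (A * B)) (hA : A * A = 0) :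
    (A * B) ^ 2 = 0 := by
  rw [sq]
  calc A * B * (A * B) = A * (B * A) * B := by simp only [mul_assoc]
    _ = - ((A * A) * (B * B)) := by
      rw [e1]
      simp only [mul_assoc, mul_neg, neg_mul]
    _ = 0 := by rw [hA, zero_mul, neg_zero]

private theorem b2_ring3 {R : Type*} [Ring R] [Algebra ℚ R] (A : R) (e1 : A * A = - (A * A)) :
    A * A = 0 := by
  have h2 : (2 : ℚ) • (A * A) = 0 := by
    rw [two_smul]
    nth_rewrite 1 [e1]
    exact neg_add_cancel _
  have h3 : (A * A) = (1 / 2 : ℚ) • ((2 : ℚ) • (A * A)) := by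
    rw [smul_smul]
    norm_num
  rw [h3, h2, smul_zero]

private theorem b2_ring4 {R : Type*} [Ring R] {ι : Type*} (s : Finset ι) (v : ι → ℤ) (x y : ι → R)
    (h : ∀ a b, x a * y b = - (y b * x a)) :
    (∑ b ∈ s, v b • x b) * (∑ b ∈ s, v b • y b) = - ((∑ b ∈ s, v b • y b) * (∑ b ∈ s, v b • x b)) := by
  rw [Finset.sum_mul_sum, Finset.sum_mul_sum, Finset.sum_comm, ← Finset.sum_neg_distrib]
  refine Finset.sum_congr rfl fun a _ => ?_
  rw [← Finset.sum_neg_distrib]
  refine Finset.sum_congr rfl fun b _ => ?_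
  rw [smul_mul_smul_comm, smul_mul_smul_comm, h, smul_neg, mul_comm (v b)]

private theorem b2_gen {M : ℕ} (i j k m : Fin M) :
    cr i * cr j * (cr k * cr m) = cr k * cr m * (cr i * cr j) :=
  b2_ring (cr i) (cr j) (cr k) (cr m) (cr_cr j k) (cr_cr i k) (cr_cr j m) (cr_cr i m)

theorem Ev_comm (x y : Module.End ℚ (FS (Fintype.card (St g)))) (hx : x ∈ Ev g) (hy : y ∈ Ev g) :
    x * y = y * x := by
  have h := Algebra.isMulCommutative_adjoin ℚ (s := {x : Module.End ℚ (FS (Fintype.card (St g))) |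
    ∃ i j, x = cr i * cr j}) (by
      rintro a ⟨i, j, rfl⟩ b ⟨k, m, rfl⟩
      exact b2_gen i j k m)
  exact congrArg Subtype.val (h.is_comm.comm ⟨x, hx⟩ ⟨y, hy⟩)

private theorem b2_cs_mem (a b : Fin N) (h h' : ℕ) (ε ε' : Bool) :
    cs g a h ε * cs g b h' ε' ∈ Ev g := by
  unfold cs
  split_ifs
  · exact Algebra.subset_adjoin ⟨_, _, rfl⟩
  · rw [mul_zero]
    exact Subalgebra.zero_mem _
  · rw [zero_mul]
    exact Subalgebra.zero_mem _
  · rw [zero_mul]
    exact Subalgebra.zero_mem _

theorem Xo_mem (t : Finset (Fin N)) : Xo l g t ∈ Ev g := by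
  unfold Xo
  split_ifs
  · exact Subalgebra.sum_mem _ fun a _ => b2_cs_mem g a a _ _ _ _
  · refine Subalgebra.sum_mem _ fun a _ => Subalgebra.sum_mem _ fun b _ => ?_
    split_ifs
    · exact Subalgebra.sum_mem _ fun h _ => b2_cs_mem g a b _ _ _ _
    · exact Subalgebra.zero_mem _
  · exact Subalgebra.zero_mem _

theorem Th_mem (v : Fin N → ℤ) : Th l g v ∈ Ev g := by
  unfold Th
  refine Subalgebra.sum_mem _ fun a _ => Subalgebra.sum_mem _ fun b _ => ?_
  split_ifs
  · exact zsmul_mem (Subalgebra.sum_mem _ fun h _ => b2_cs_mem g a b _ _ _ _) _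
  · exact Subalgebra.zero_mem _

private theorem b2_cs_adj (a : Fin N) (h : ℕ) (ε : Bool) (ψ φ : FS (Fintype.card (St g))) :
    Bf _ (cs g a h ε ψ) φ = Bf _ ψ (as g a h ε φ) := by
  unfold cs as
  split_ifs
  · exact Bf_adj _ _ _
  · simp only [LinearMap.zero_apply, map_zero]

private theorem b2_cs_adj2 (a b : Fin N) (h h' : ℕ) (ε ε' : Bool) (ψ φ : FS (Fintype.card (St g))) :
    Bf _ ((cs g a h ε * cs g b h' ε') ψ) φ = Bf _ ψ ((as g b h' ε' * as g a h ε) φ) := by
  rw [Module.End.mul_apply, Module.End.mul_apply, b2_cs_adj, b2_cs_adj]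

theorem Xo_adj (t : Finset (Fin N)) (ψ φ : FS (Fintype.card (St g))) :
    Bf _ (Xo l g t ψ) φ = Bf _ ψ (Yo l g t φ) := by
  unfold Xo Yo
  split_ifs
  · simp only [LinearMap.sum_apply, map_sum]
    exact Finset.sum_congr rfl fun a _ => b2_cs_adj2 g a a _ _ _ _ ψ φ
  · simp only [LinearMap.sum_apply, map_sum]
    refine Finset.sum_congr rfl fun a _ => Finset.sum_congr rfl fun b _ => ?_
    split_ifs
    · simp only [LinearMap.sum_apply, map_sum]
      exact Finset.sum_congr rfl fun h _ => b2_cs_adj2 g a b _ _ _ _ ψ φ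
    · simp only [LinearMap.zero_apply, map_zero]
  · simp only [LinearMap.zero_apply, map_zero]

private theorem b2_cs_cs (a b : Fin N) (h h' : ℕ) (ε ε' : Bool) :
    cs g a h ε * cs g b h' ε' = - (cs g b h' ε' * cs g a h ε) := by
  unfold cs
  split_ifs
  · exact cr_cr _ _
  · simp
  · simp
  · simp

/-- the sum over the atoms -/
private noncomputable def b2_s (v : Fin N → ℤ) (h : ℕ) (ε : Bool) :
    Module.End ℚ (FS (Fintype.card (St g))) := ∑ b, v b • cs g b h ε

private theorem b2_s_s (v : Fin N → ℤ) (h h' : ℕ) (ε ε' : Bool) :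
    b2_s g v h ε * b2_s g v h' ε' = - (b2_s g v h' ε' * b2_s g v h ε) :=
  b2_ring4 Finset.univ v (fun b => cs g b h ε) (fun b => cs g b h' ε')
    fun a b => b2_cs_cs g a b h h' ε ε'

private theorem b2_sq (v : Fin N → ℤ) (h : ℕ) (ε : Bool) : b2_s g v h ε * b2_s g v h ε = 0 :=
  b2_ring3 _ (b2_s_s g v h h ε ε)

private theorem b2_P_comm (v : Fin N → ℤ) (h h' : ℕ) :
    Commute (b2_s g v h false * b2_s g v h true) (b2_s g v h' false * b2_s g v h' true) :=
  b2_ring _ _ _ _ (b2_s_s g v _ _ _ _) (b2_s_s g v _ _ _ _) (b2_s_s g v _ _ _ _)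
    (b2_s_s g v _ _ _ _)

private theorem b2_P_sq (v : Fin N → ℤ) (h : ℕ) :
    (b2_s g v h false * b2_s g v h true) ^ 2 = 0 :=
  b2_ring2 _ _ (b2_s_s g v _ _ _ _) (b2_sq g v h false)

private theorem b2_sum_pow (v : Fin N → ℤ) (k : ℕ) :
    (∑ h ∈ Finset.range k, b2_s g v h false * b2_s g v h true) ^ (k + 1) = 0 := by
  induction k with
  | zero => simp
  | succ k ih =>
    rw [Finset.sum_range_succ]
    refine Commute.add_pow_eq_zero_of_add_le_succ_of_pow_eq_zero ?_ ih (b2_P_sq g v k) (by omega)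
    exact Commute.sum_left _ _ _ fun h _ => b2_P_comm g v h k

theorem Th_pow (hg : ∀ a b, l a = l b → g a = g b) (a : Fin N) (v : Fin N → ℤ)
    (hv : ∀ b, v b ≠ 0 → l b = l a) : Th l g v ^ (g a + 1) = 0 := by
  have h1 : Th l g v = ∑ h ∈ Finset.range (g a), b2_s g v h false * b2_s g v h true := by
    have h2 : ∀ h, b2_s g v h false * b2_s g v h true =
        ∑ b, ∑ c, (v b * v c) • (cs g b h false * cs g c h true) := by
      intro h
      unfold b2_s
      rw [Finset.sum_mul_sum]
      exact Finset.sum_congr rfl fun b _ => Finset.sum_congr rfl fun c _ =>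
        smul_mul_smul_comm _ _ _ _
    simp only [h2]
    rw [Finset.sum_comm]
    unfold Th
    refine Finset.sum_congr rfl fun b _ => ?_
    rw [Finset.sum_comm]
    refine Finset.sum_congr rfl fun c _ => ?_
    by_cases hb : v b = 0
    · simp [hb]
    by_cases hc : v c = 0
    · simp [hc]
    have hb' := hv b hb
    have hc' := hv c hc
    rw [if_pos (hb'.trans hc'.symm), hg b a hb', Finset.smul_sum]
  rw [h1]
  exact b2_sum_pow g v (g a)

private theorem b2_Th (v : Fin N → ℤ) : Th l g v = ∑ a, ∑ b, (v a * v b) •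
    (if l a = l b then ∑ h ∈ Finset.range (g a), cs g a h false * cs g b h true else 0) := by
  unfold Th
  refine Finset.sum_congr rfl fun a _ => Finset.sum_congr rfl fun b _ => ?_
  split_ifs
  · rfl
  · rw [smul_zero]

private theorem b2_Th_ind (t : Finset (Fin N)) : Th l g (ind t) = ∑ a ∈ t, ∑ b ∈ t,
    (if l a = l b then ∑ h ∈ Finset.range (g a), cs g a h false * cs g b h true else 0) := by
  rw [b2_Th]
  have h1 : ∀ (t : Finset (Fin N)) (f : Fin N → Module.End ℚ (FS (Fintype.card (St g)))),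
      ∑ a ∈ t, f a = ∑ a, if a ∈ t then f a else 0 := by
    intro t f
    rw [← Finset.sum_filter, Finset.filter_mem_eq_inter, Finset.univ_inter]
  rw [h1 t]
  refine Finset.sum_congr rfl fun a _ => ?_
  by_cases ha : a ∈ t
  · rw [if_pos ha, h1 t]
    refine Finset.sum_congr rfl fun b _ => ?_
    by_cases hb : b ∈ t
    · simp only [ind, if_pos ha, if_pos hb, mul_one, one_smul]
    · simp only [ind, if_pos ha, if_neg hb, mul_zero, zero_smul]
  · rw [if_neg ha]
    refine Finset.sum_eq_zero fun b _ => ?_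
    simp only [ind, if_neg ha, zero_mul, zero_smul]

theorem Th_polar (hg : ∀ a b, l a = l b → g a = g b) (t : Finset (Fin N)) (ht : t.card = 2) :
    Th l g (ind t) - ∑ a ∈ t, Th l g (ind {a}) = Xo l g t := by
  unfold Xo
  rw [if_neg (by omega), if_pos ht, b2_Th_ind, ← Finset.sum_sub_distrib]
  refine Finset.sum_congr rfl fun a ha => ?_
  rw [b2_Th_ind, Finset.sum_singleton, Finset.sum_singleton, ← Finset.add_sum_erase t _ ha]
  abel

end Pool.Agent.LibHE77
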