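import Pool.Agent.LibHE77.B2

/-!
[HE77 B3] the operators `Yo t` on products with few factors. Proof. Let `r ∈ Sx s`, `a ∈ s`. Every annihilator `as a h ε` commutes with `r` (it commutes with the generators `Xo t`, `a ∉ t`: `an_cr` with different states, twice) and kills `vc`, so
`as a h ε (r vac) = 0`. The rest are computations with `an_cr` for the states with `h < g a` (`cs`, `as` are `cr`, `an` there) and for `h = Gm g` (which is different from all `h < g a ≤ Gm g`; `g a ≤ Gm g` by `Finset.single_le_sum`).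
`Yo {a, b} = ∑_h (η_(b,h) ξ_(a,h) + η_(a,h) ξ_(b,h))`. For instance (with `ξ⁺ = cs . . false`, `η⁺ = cs . . true`): on `ξ⁺_(a,h) η⁺_(c,h) ξ⁺_(d,h) η⁺_(b,h) r vac` the operator `η_(b,h) ξ_(a,h)` gives
`η⁺_(c,h) ξ⁺_(d,h) r vac = - ξ⁺_(d,h) η⁺_(c,h) r vac`, on `ξ⁺_(c,h) η⁺_(a,h) ξ⁺_(b,h) η⁺_(d,h) r vac` the operator `η_(a,h) ξ_(b,h)` gives `- ξ⁺_(c,h) η⁺_(d,h) r vac`, all other terms are zero: together `- Xo {c, d} r vac`.
On `Xo {a, b} r vac`: `1 + 1` for every `h < g a`. The genera of the coordinates with the same label are equal (`hg`).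
-/

open scoped Classical

namespace Pool.Agent.LibHE77

open Pool.Agent.LibHD77.Comb (ind cf)

variable {N : ℕ} {Lb : Type} (l : Fin N → Lb) (g : Fin N → ℕ)

theorem b3_as_cs_ne (a b : Fin N) (h h' : ℕ) (ε ε' : Bool) (hne : ¬ (a = b ∧ h = h' ∧ ε = ε')) :
    as g a h ε * cs g b h' ε' = - (cs g b h' ε' * as g a h ε) := by
  unfold as cs
  by_cases h1 : h < Gm g + 1
  · by_cases h2 : h' < Gm g + 1
    · rw [dif_pos h1, dif_pos h2]
      have h3 := an_cr (ix g (a, ⟨h, h1⟩, ε)) (ix g (b, ⟨h', h2⟩, ε'))
      rw [if_neg ?_] at h3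
      · exact eq_neg_of_add_eq_zero_left h3
      · intro h4
        have h5 := (Fintype.equivFin (St g)).injective h4
        simp only [Prod.mk.injEq, Fin.mk.injEq] at h5
        exact hne h5
    · rw [dif_neg h2]
      simp
  · rw [dif_neg h1]
    simp

theorem b3_as_cs_self (a : Fin N) (h : ℕ) (ε : Bool) (hh : h < Gm g + 1) :
    as g a h ε * cs g a h ε = 1 - cs g a h ε * as g a h ε := by
  unfold as cs
  rw [dif_pos hh, dif_pos hh]
  have h3 := an_cr (ix g (a, ⟨h, hh⟩, ε)) (ix g (a, ⟨h, hh⟩, ε))
  rw [if_pos rfl] at h3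
  exact eq_sub_of_add_eq h3

theorem b3_as_vc (a : Fin N) (h : ℕ) (ε : Bool) : as g a h ε (vc _) = 0 := by
  unfold as
  by_cases h1 : h < Gm g + 1
  · rw [dif_pos h1]
    exact an_vac _
  · rw [dif_neg h1]
    rfl

theorem b3_cs_cs (a b : Fin N) (h h' : ℕ) (ε ε' : Bool) :
    cs g a h ε * cs g b h' ε' = - (cs g b h' ε' * cs g a h ε) := by
  unfold cs
  by_cases h1 : h < Gm g + 1
  · by_cases h2 : h' < Gm g + 1
    · rw [dif_pos h1, dif_pos h2]
      exact cr_cr _ _
    · rw [dif_neg h2]
      simp
  · rw [dif_neg h1]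
    simp

theorem b3_v_ne (a b : Fin N) (h h' : ℕ) (ε ε' : Bool) (hne : ¬ (a = b ∧ h = h' ∧ ε = ε'))
    (v : FS (Fintype.card (St g))) :
    as g a h ε (cs g b h' ε' v) = - cs g b h' ε' (as g a h ε v) :=
  congrArg (fun z : Module.End ℚ (FS (Fintype.card (St g))) => z v)
    (b3_as_cs_ne g a b h h' ε ε' hne)

theorem b3_v_self (a : Fin N) (h : ℕ) (ε : Bool) (hh : h < Gm g + 1)
    (v : FS (Fintype.card (St g))) :
    as g a h ε (cs g a h ε v) = v - cs g a h ε (as g a h ε v) :=
  congrArg (fun z : Module.End ℚ (FS (Fintype.card (St g))) => z v)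
    (b3_as_cs_self g a h ε hh)

theorem b3_apply {M' : ℕ} (x y : Module.End ℚ (FS M')) (hxy : Commute x y) (v : FS M') :
    x (y v) = y (x v) := by
  have h := congrArg (fun z : Module.End ℚ (FS M') => z v) hxy.eq
  exact h

theorem b3_comm2 (a b c : Fin N) (h h' h'' : ℕ) (ε ε' ε'' : Bool)
    (hne : ¬ (a = b ∧ h = h' ∧ ε = ε')) (hne' : ¬ (a = c ∧ h = h'' ∧ ε = ε'')) :
    Commute (as g a h ε) (cs g b h' ε' * cs g c h'' ε'') := by
  refine LinearMap.ext fun v => ?_
  show as g a h ε (cs g b h' ε' (cs g c h'' ε'' v)) = cs g b h' ε' (cs g c h'' ε'' (as g a h ε v))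
  rw [b3_v_ne g a b h h' ε ε' hne, b3_v_ne g a c h h'' ε ε'' hne', map_neg, neg_neg]

theorem b3_Gm (a : Fin N) : g a ≤ Gm g :=
  Finset.single_le_sum (f := g) (fun _ _ => Nat.zero_le _) (Finset.mem_univ a)

theorem b3_Xo_one (a : Fin N) : Xo l g {a} = cs g a (Gm g) false * cs g a (Gm g) true := by
  unfold Xo
  rw [if_pos (Finset.card_singleton a), Finset.sum_singleton]

theorem b3_Yo_one (a : Fin N) : Yo l g {a} = as g a (Gm g) true * as g a (Gm g) false := by
  unfold Yo
  rw [if_pos (Finset.card_singleton a), Finset.sum_singleton]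

theorem b3_erase (a b : Fin N) (hab : a ≠ b) :
    ({a, b} : Finset (Fin N)).erase a = {b} ∧ ({a, b} : Finset (Fin N)).erase b = {a} := by
  constructor
  · rw [Finset.erase_insert (by simpa using hab)]
  · rw [Finset.pair_comm, Finset.erase_insert (by simpa using hab.symm)]

theorem b3_Xo_two (a b : Fin N) (hab : a ≠ b) (hl : l a = l b) : Xo l g {a, b} =
    ∑ h ∈ Finset.range (g a), cs g a h false * cs g b h true +
      ∑ h ∈ Finset.range (g b), cs g b h false * cs g a h true := by
  unfold Xo
  rw [if_neg (by rw [Finset.card_pair hab]; omega), if_pos (Finset.card_pair hab),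
    Finset.sum_pair hab, (b3_erase a b hab).1, (b3_erase a b hab).2, Finset.sum_singleton,
    Finset.sum_singleton, if_pos hl, if_pos hl.symm]

theorem b3_Xo_two_zero (a b : Fin N) (hab : a ≠ b) (hl : l a ≠ l b) : Xo l g {a, b} = 0 := by
  unfold Xo
  rw [if_neg (by rw [Finset.card_pair hab]; omega), if_pos (Finset.card_pair hab),
    Finset.sum_pair hab, (b3_erase a b hab).1, (b3_erase a b hab).2, Finset.sum_singleton,
    Finset.sum_singleton, if_neg hl, if_neg hl.symm, add_zero]

theorem b3_Yo_two (a b : Fin N) (hab : a ≠ b) (hl : l a = l b) : Yo l g {a, b} =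
    ∑ h ∈ Finset.range (g a), as g b h true * as g a h false +
      ∑ h ∈ Finset.range (g b), as g a h true * as g b h false := by
  unfold Yo
  rw [if_neg (by rw [Finset.card_pair hab]; omega), if_pos (Finset.card_pair hab),
    Finset.sum_pair hab, (b3_erase a b hab).1, (b3_erase a b hab).2, Finset.sum_singleton,
    Finset.sum_singleton, if_pos hl, if_pos hl.symm]

/-- annihilators of `a` commute with `Xo t`, `a ∉ t` -/
theorem b3_comm_X (a : Fin N) (h : ℕ) (ε : Bool) (t : Finset (Fin N)) (ha : a ∉ t) :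
    Commute (as g a h ε) (Xo l g t) := by
  have hne : ∀ b ∈ t, ∀ h' ε', ¬ (a = b ∧ h = h' ∧ ε = ε') := by
    rintro b hb h' ε' ⟨h1, -⟩
    exact ha (h1 ▸ hb)
  unfold Xo
  split_ifs with h1 h2
  · exact Commute.sum_right _ _ _ fun b hb => b3_comm2 g _ _ _ _ _ _ _ _ _ (hne b hb _ _) (hne b hb _ _)
  · refine Commute.sum_right _ _ _ fun b hb => Commute.sum_right _ _ _ fun c hc => ?_
    split_ifs with h3
    · exact Commute.sum_right _ _ _ fun h' _ => b3_comm2 g _ _ _ _ _ _ _ _ _ (hne b hb _ _)
        (hne c (Finset.mem_of_mem_erase hc) _ _)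
    · exact Commute.zero_right _
  · exact Commute.zero_right _

theorem b3_comm_S (s : Finset (Fin N)) (a : Fin N) (ha : a ∈ s) (h : ℕ) (ε : Bool)
    (r : Module.End ℚ (FS (Fintype.card (St g)))) (hr : r ∈ Sx l g s) :
    Commute (as g a h ε) r := by
  unfold Sx at hr
  induction hr using Algebra.adjoin_induction with
  | mem x hx =>
    obtain ⟨t, ht, rfl⟩ := hx
    exact b3_comm_X l g a h ε t (Finset.disjoint_right.1 ht ha)
  | algebraMap c => exact (Algebra.commutes c _).symm
  | add x y _ _ hx hy => exact hx.add_right hy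
  | mul x y _ _ hx hy => exact hx.mul_right hy

theorem b3_kill (s : Finset (Fin N)) (a : Fin N) (ha : a ∈ s) (h : ℕ) (ε : Bool)
    (r : Module.End ℚ (FS (Fintype.card (St g)))) (hr : r ∈ Sx l g s) :
    as g a h ε (r (vc _)) = 0 := by
  have h1 := b3_comm_S l g s a ha h ε r hr
  have h2 : (as g a h ε * r) (vc _) = (r * as g a h ε) (vc _) := by rw [h1.eq]
  rw [Module.End.mul_apply, Module.End.mul_apply, b3_as_vc, map_zero] at h2
  exact h2

/-- annihilators with `h ≠ Gm` commute with `Xo {b}` -/
theorem b3_comm_one (a b : Fin N) (h : ℕ) (ε : Bool) (hh : h ≠ Gm g) :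
    Commute (as g a h ε) (Xo l g {b}) := by
  rw [b3_Xo_one]
  exact b3_comm2 g _ _ _ _ _ _ _ _ _ (fun h1 => hh h1.2.1) (fun h1 => hh h1.2.1)

/-- the last annihilators commute with `Xo {b, c}` -/
theorem b3_comm_last (a b c : Fin N) (hbc : b ≠ c) (ε : Bool) :
    Commute (as g a (Gm g) ε) (Xo l g {b, c}) := by
  by_cases hl : l b = l c
  · rw [b3_Xo_two l g b c hbc hl]
    have h1 : ∀ x, ∀ h ∈ Finset.range (g x), Gm g ≠ h := fun x h hh => by
      have := b3_Gm g x
      have := Finset.mem_range.1 hh
      omega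
    refine (Commute.sum_right _ _ _ fun h hh => ?_).add_right (Commute.sum_right _ _ _ fun h hh => ?_)
    · exact b3_comm2 g _ _ _ _ _ _ _ _ _ (fun h2 => h1 b h hh h2.2.1) (fun h2 => h1 b h hh h2.2.1)
    · exact b3_comm2 g _ _ _ _ _ _ _ _ _ (fun h2 => h1 c h hh h2.2.1) (fun h2 => h1 c h hh h2.2.1)
  · rw [b3_Xo_two_zero l g b c hbc hl]
    exact Commute.zero_right _

/-- contraction with `ξ` -/
theorem b3_con_f (a c : Fin N) (hac : a ≠ c) (hl : l a = l c) (h : ℕ) (hh : h < g a)
    (v : FS (Fintype.card (St g))) :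
    as g a h false (Xo l g {a, c} v) = Xo l g {a, c} (as g a h false v) + cs g c h true v := by
  have hG := b3_Gm g a
  have h2 : Commute (as g a h false) (∑ h ∈ Finset.range (g c), cs g c h false * cs g a h true) :=
    Commute.sum_right _ _ _ fun h' _ => b3_comm2 g _ _ _ _ _ _ _ _ _
      (fun h2 => hac h2.1) (fun h2 => by simpa using h2.2.2)
  have h4 : Commute (as g a h false)
      (∑ h ∈ (Finset.range (g a)).erase h, cs g a h false * cs g c h true) :=
    Commute.sum_right _ _ _ fun h' hh' => b3_comm2 g _ _ _ _ _ _ _ _ _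
      (fun h2 => (Finset.ne_of_mem_erase hh') h2.2.1.symm) (fun h2 => hac h2.1)
  have h3 : as g a h false ((∑ h ∈ Finset.range (g a), cs g a h false * cs g c h true) v) =
      (∑ h ∈ Finset.range (g a), cs g a h false * cs g c h true) (as g a h false v) +
        cs g c h true v := by
    rw [← Finset.add_sum_erase _ _ (Finset.mem_range.2 hh), LinearMap.add_apply,
      LinearMap.add_apply, map_add, b3_apply _ _ h4 v]
    have h5 : as g a h false ((cs g a h false * cs g c h true) v) =
        (cs g a h false * cs g c h true) (as g a h false v) + cs g c h true v := by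
      show as g a h false (cs g a h false (cs g c h true v)) =
        cs g a h false (cs g c h true (as g a h false v)) + cs g c h true v
      rw [b3_v_self g a h false (by omega), b3_v_ne g a c h h false true (fun h2 => hac h2.1),
        map_neg, sub_neg_eq_add]
      abel
    rw [h5]
    abel
  rw [b3_Xo_two l g a c hac hl, LinearMap.add_apply, LinearMap.add_apply, map_add,
    b3_apply _ _ h2 v, h3]
  abel

/-- contraction with `η` -/
theorem b3_con_t (a c : Fin N) (hac : a ≠ c) (hl : l a = l c) (hgc : g a = g c) (h : ℕ)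
    (hh : h < g a) (v : FS (Fintype.card (St g))) :
    as g a h true (Xo l g {a, c} v) = Xo l g {a, c} (as g a h true v) - cs g c h false v := by
  have hG := b3_Gm g a
  have h2 : Commute (as g a h true) (∑ h ∈ Finset.range (g a), cs g a h false * cs g c h true) :=
    Commute.sum_right _ _ _ fun h' _ => b3_comm2 g _ _ _ _ _ _ _ _ _
      (fun h2 => by simpa using h2.2.2) (fun h2 => hac h2.1)
  have h4 : Commute (as g a h true)
      (∑ h ∈ (Finset.range (g c)).erase h, cs g c h false * cs g a h true) :=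
    Commute.sum_right _ _ _ fun h' hh' => b3_comm2 g _ _ _ _ _ _ _ _ _
      (fun h2 => hac h2.1) (fun h2 => (Finset.ne_of_mem_erase hh') h2.2.1.symm)
  have h3 : as g a h true ((∑ h ∈ Finset.range (g c), cs g c h false * cs g a h true) v) =
      (∑ h ∈ Finset.range (g c), cs g c h false * cs g a h true) (as g a h true v) -
        cs g c h false v := by
    rw [← Finset.add_sum_erase _ _ (Finset.mem_range.2 (hgc ▸ hh)), LinearMap.add_apply,
      LinearMap.add_apply, map_add, b3_apply _ _ h4 v]
    have h5 : as g a h true ((cs g c h false * cs g a h true) v) =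
        (cs g c h false * cs g a h true) (as g a h true v) - cs g c h false v := by
      show as g a h true (cs g c h false (cs g a h true v)) =
        cs g c h false (cs g a h true (as g a h true v)) - cs g c h false v
      rw [b3_v_ne g a c h h true false (fun h2 => hac h2.1), b3_v_self g a h true (by omega),
        map_sub, neg_sub]
    rw [h5]
    abel
  rw [b3_Xo_two l g a c hac hl, LinearMap.add_apply, LinearMap.add_apply, map_add,
    b3_apply _ _ h2 v, h3]
  abel

theorem b3_Yo_zero (a b : Fin N) (hab : a ≠ b) (hl : l a = l b) (v : FS (Fintype.card (St g)))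
    (h1 : ∀ h < g a, as g b h true (as g a h false v) = 0)
    (h2 : ∀ h < g b, as g a h true (as g b h false v) = 0) : Yo l g {a, b} v = 0 := by
  rw [b3_Yo_two l g a b hab hl, LinearMap.add_apply, LinearMap.sum_apply, LinearMap.sum_apply,
    Finset.sum_eq_zero fun h hh => ?_, Finset.sum_eq_zero fun h hh => ?_, add_zero]
  · exact h2 h (Finset.mem_range.1 hh)
  · exact h1 h (Finset.mem_range.1 hh)

theorem ys_o (a : Fin N) (r : Module.End ℚ (FS (Fintype.card (St g)))) (hr : r ∈ Sx l g {a}) :
    Yo l g {a} (r (vc _)) = 0 ∧ Yo l g {a} ((Xo l g {a} * r) (vc _)) = r (vc _) ∧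
    ∀ b, b ≠ a → Yo l g {a} ((Xo l g {a, b} * r) (vc _)) = 0 := by
  have hk : ∀ h ε, as g a h ε (r (vc _)) = 0 := fun h ε =>
    b3_kill l g {a} a (Finset.mem_singleton_self a) h ε r hr
  have hx : ∀ (x : Module.End ℚ (FS (Fintype.card (St g)))), (x * r) (vc _) = x (r (vc _)) :=
    fun x => rfl
  have hY : ∀ v, Yo l g {a} v = as g a (Gm g) true (as g a (Gm g) false v) := by
    intro v
    rw [b3_Yo_one]
    rfl
  set ρ := r (vc _) with hρ
  refine ⟨?_, ?_, ?_⟩
  · rw [hY, hk, map_zero]
  · rw [hx, hY, b3_Xo_one]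
    have e1 : (as g a (Gm g) false) ((cs g a (Gm g) false * cs g a (Gm g) true) ρ) =
        cs g a (Gm g) true ρ := by
      show as g a (Gm g) false (cs g a (Gm g) false (cs g a (Gm g) true ρ)) = _
      rw [b3_v_self g a (Gm g) false (by omega),
        b3_v_ne g a a (Gm g) (Gm g) false true (by simp), hk, map_zero, neg_zero, map_zero, sub_zero]
    rw [e1]
    have e4 := congrArg (fun z : Module.End ℚ (FS (Fintype.card (St g))) => z ρ)
      (b3_as_cs_self g a (Gm g) true (by omega))
    simp only [Module.End.mul_apply, LinearMap.sub_apply, Module.End.one_apply, hk, map_zero,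
      sub_zero] at e4
    exact e4
  · intro b hb
    rw [hx, hY, b3_apply _ _ (b3_comm_last l g a a b hb.symm false), hk, map_zero, map_zero]

theorem yp_o (hg : ∀ a b, l a = l b → g a = g b) (a b : Fin N) (hab : a ≠ b) (hl : l a = l b)
    (r : Module.End ℚ (FS (Fintype.card (St g)))) (hr : r ∈ Sx l g {a, b}) :
    Yo l g {a, b} (r (vc _)) = 0 ∧ Yo l g {a, b} ((Xo l g {a} * r) (vc _)) = 0 ∧
    Yo l g {a, b} ((Xo l g {a} * Xo l g {b} * r) (vc _)) = 0 ∧
    Yo l g {a, b} ((Xo l g {a, b} * r) (vc _)) = (2 * g a : ℚ) • (r (vc _)) := by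
  have hka : ∀ h ε, as g a h ε (r (vc _)) = 0 := fun h ε =>
    b3_kill l g {a, b} a (Finset.mem_insert_self a _) h ε r hr
  have hkb : ∀ h ε, as g b h ε (r (vc _)) = 0 := fun h ε =>
    b3_kill l g {a, b} b (Finset.mem_insert_of_mem (Finset.mem_singleton_self b)) h ε r hr
  have hgab := hg a b hl
  have hGa := b3_Gm g a
  have hGb := b3_Gm g b
  have hx : ∀ (x : Module.End ℚ (FS (Fintype.card (St g)))), (x * r) (vc _) = x (r (vc _)) :=
    fun x => rfl
  have hx2 : ∀ (x y : Module.End ℚ (FS (Fintype.card (St g)))),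
    (x * y * r) (vc _) = x (y (r (vc _))) := fun x y => rfl
  rw [hx2]
  simp only [hx]
  set ρ := r (vc _) with hρ
  refine ⟨?_, ?_, ?_, ?_⟩
  · exact b3_Yo_zero l g a b hab hl _ (fun h _ => by rw [hka, map_zero])
      (fun h _ => by rw [hkb, map_zero])
  · refine b3_Yo_zero l g a b hab hl _ (fun h hh => ?_) (fun h hh => ?_)
    · rw [b3_apply _ _ (b3_comm_one l g a a h false (by omega)), hka, map_zero, map_zero]
    · rw [b3_apply _ _ (b3_comm_one l g b a h false (by omega)), hkb, map_zero, map_zero]
  · refine b3_Yo_zero l g a b hab hl _ (fun h hh => ?_) (fun h hh => ?_)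
    · rw [b3_apply _ _ (b3_comm_one l g a a h false (by omega)),
        b3_apply _ _ (b3_comm_one l g a b h false (by omega)), hka, map_zero, map_zero, map_zero]
    · rw [b3_apply _ _ (b3_comm_one l g b a h false (by omega)),
        b3_apply _ _ (b3_comm_one l g b b h false (by omega)), hkb, map_zero, map_zero, map_zero]
  · have e1 : ∀ h < g a, as g b h true (as g a h false (Xo l g {a, b} ρ)) = ρ := by
      intro h hh
      rw [b3_con_f l g a b hab hl h hh, hka, map_zero, zero_add]
      have e4 := congrArg (fun z : Module.End ℚ (FS (Fintype.card (St g))) => z ρ)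
        (b3_as_cs_self g b h true (by omega))
      simp only [Module.End.mul_apply, LinearMap.sub_apply, Module.End.one_apply, hkb, map_zero,
        sub_zero] at e4
      exact e4
    have e2 : ∀ h < g b, as g a h true (as g b h false (Xo l g {a, b} ρ)) = ρ := by
      intro h hh
      rw [Finset.pair_comm a b, b3_con_f l g b a hab.symm hl.symm h hh, hkb, map_zero, zero_add]
      have e4 := congrArg (fun z : Module.End ℚ (FS (Fintype.card (St g))) => z ρ)
        (b3_as_cs_self g a h true (by omega))
      simp only [Module.End.mul_apply, LinearMap.sub_apply, Module.End.one_apply, hka, map_zero,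
        sub_zero] at e4
      exact e4
    rw [b3_Yo_two l g a b hab hl, LinearMap.add_apply, LinearMap.sum_apply, LinearMap.sum_apply]
    rw [Finset.sum_congr rfl fun h hh => (show (as g b h true * as g a h false)
        (Xo l g {a, b} ρ) = ρ from e1 h (Finset.mem_range.1 hh)),
      Finset.sum_congr rfl fun h hh => (show (as g a h true * as g b h false)
        (Xo l g {a, b} ρ) = ρ from e2 h (Finset.mem_range.1 hh)),
      Finset.sum_const, Finset.sum_const, Finset.card_range, Finset.card_range, ← hgab,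
      ← Nat.cast_smul_eq_nsmul ℚ, ← add_smul]
    congr 1
    ring

theorem yp_c (hg : ∀ a b, l a = l b → g a = g b) (a b : Fin N) (hab : a ≠ b) (hl : l a = l b)
    (r : Module.End ℚ (FS (Fintype.card (St g)))) (hr : r ∈ Sx l g {a, b}) (c : Fin N) (hca : c ≠ a)
    (hcb : c ≠ b) : Yo l g {a, b} ((Xo l g {a, c} * r) (vc _)) = 0 ∧
      Yo l g {a, b} ((Xo l g {a, c} * Xo l g {b} * r) (vc _)) = 0 ∧
      ∀ d, d ≠ a → d ≠ b → d ≠ c → l c = l a → l d = l a →
        Yo l g {a, b} ((Xo l g {a, c} * Xo l g {b, d} * r) (vc _)) =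
          - ((Xo l g {c, d} * r) (vc _)) := by
  have hka : ∀ h ε, as g a h ε (r (vc _)) = 0 := fun h ε =>
    b3_kill l g {a, b} a (Finset.mem_insert_self a _) h ε r hr
  have hkb : ∀ h ε, as g b h ε (r (vc _)) = 0 := fun h ε =>
    b3_kill l g {a, b} b (Finset.mem_insert_of_mem (Finset.mem_singleton_self b)) h ε r hr
  have hgab := hg a b hl
  have hGa := b3_Gm g a
  have hGb := b3_Gm g b
  have hx : ∀ (x : Module.End ℚ (FS (Fintype.card (St g)))), (x * r) (vc _) = x (r (vc _)) :=
    fun x => rfl
  have hx2 : ∀ (x y : Module.End ℚ (FS (Fintype.card (St g)))),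
    (x * y * r) (vc _) = x (y (r (vc _))) := fun x y => rfl
  simp only [hx2, hx]
  set ρ := r (vc _) with hρ
  have hanti : ∀ (x y : Fin N) (h h' : ℕ) (ε ε' : Bool) (v : FS (Fintype.card (St g))),
      ¬ (x = y ∧ h = h' ∧ ε = ε') →
      as g x h ε (cs g y h' ε' v) = - cs g y h' ε' (as g x h ε v) := by
    intro x y h h' ε ε' v hne
    exact congrArg (fun z : Module.End ℚ (FS (Fintype.card (St g))) => z v)
      (b3_as_cs_ne g x y h h' ε ε' hne)
  have hbac : b ∉ ({a, c} : Finset (Fin N)) := by
    simp only [Finset.mem_insert, Finset.mem_singleton, not_or]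
    exact ⟨hab.symm, hcb.symm⟩
  by_cases hlc : l a = l c
  · refine ⟨?_, ?_, ?_⟩
    · refine b3_Yo_zero l g a b hab hl _ (fun h hh => ?_) (fun h hh => ?_)
      · rw [b3_con_f l g a c hca.symm hlc h hh, hka, map_zero, zero_add,
          hanti b c h h true true _ (fun h1 => hcb h1.1.symm), hkb, map_zero, neg_zero]
      · rw [b3_apply _ _ (b3_comm_X l g b h false {a, c} hbac), hkb, map_zero, map_zero]
    · refine b3_Yo_zero l g a b hab hl _ (fun h hh => ?_) (fun h hh => ?_)
      · rw [b3_con_f l g a c hca.symm hlc h hh,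
          b3_apply _ _ (b3_comm_one l g a b h false (by omega)), hka, map_zero, map_zero, zero_add,
          hanti b c h h true true _ (fun h1 => hcb h1.1.symm),
          b3_apply _ _ (b3_comm_one l g b b h true (by omega)), hkb, map_zero, map_zero, neg_zero]
      · rw [b3_apply _ _ (b3_comm_X l g b h false {a, c} hbac),
          b3_apply _ _ (b3_comm_one l g b b h false (by omega)), hkb, map_zero, map_zero, map_zero]
    · intro d hda hdb hdc hlca hlda
      have hgc : g c = g a := hg c a hlca
      have hgd : g d = g a := hg d a hlda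
      have habd : a ∉ ({b, d} : Finset (Fin N)) := by
        simp only [Finset.mem_insert, Finset.mem_singleton, not_or]
        exact ⟨hab, hda.symm⟩
      have hlbd : l b = l d := hl.symm.trans hlda.symm
      have hcc : ∀ h, cs g c h true (cs g d h false ρ) = - cs g d h false (cs g c h true ρ) :=
        fun h => congrArg (fun z : Module.End ℚ (FS (Fintype.card (St g))) => z ρ)
          (b3_cs_cs g c d h h true false)
      have e1 : ∀ h < g a, as g b h true (as g a h false (Xo l g {a, c} (Xo l g {b, d} ρ))) =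
          - cs g d h false (cs g c h true ρ) := by
        intro h hh
        rw [b3_con_f l g a c hca.symm hlc h hh,
          b3_apply _ _ (b3_comm_X l g a h false {b, d} habd), hka, map_zero, map_zero, zero_add,
          hanti b c h h true true _ (fun h1 => hcb h1.1.symm),
          b3_con_t l g b d hdb.symm hlbd (by omega) h (by omega), hkb, map_zero, zero_sub, map_neg,
          neg_neg, hcc]
      have e2 : ∀ h < g b, as g a h true (as g b h false (Xo l g {a, c} (Xo l g {b, d} ρ))) =
          - cs g c h false (cs g d h true ρ) := by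
        intro h hh
        rw [b3_apply _ _ (b3_comm_X l g b h false {a, c} hbac),
          b3_con_f l g b d hdb.symm hlbd h hh, hkb, map_zero, zero_add,
          b3_con_t l g a c hca.symm hlc (by omega) h (by omega),
          hanti a d h h true true _ (fun h1 => hda h1.1.symm), hka, map_zero, neg_zero, map_zero,
          zero_sub]
      rw [b3_Yo_two l g a b hab hl, LinearMap.add_apply, LinearMap.sum_apply, LinearMap.sum_apply,
        Finset.sum_congr rfl fun h hh => (show (as g b h true * as g a h false)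
          (Xo l g {a, c} (Xo l g {b, d} ρ)) = _ from e1 h (Finset.mem_range.1 hh)),
        Finset.sum_congr rfl fun h hh => (show (as g a h true * as g b h false)
          (Xo l g {a, c} (Xo l g {b, d} ρ)) = _ from e2 h (Finset.mem_range.1 hh)),
        b3_Xo_two l g c d hdc.symm (hlca.trans hlda.symm), LinearMap.add_apply,
        LinearMap.sum_apply, LinearMap.sum_apply, Finset.sum_neg_distrib, Finset.sum_neg_distrib,
        hgc, hgd, ← hgab, ← neg_add]
      exact congrArg Neg.neg (add_comm _ _)
  · rw [b3_Xo_two_zero l g a c hca.symm hlc]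
    refine ⟨?_, ?_, ?_⟩
    · rw [LinearMap.zero_apply, map_zero]
    · rw [LinearMap.zero_apply, map_zero]
    · intro d _ _ _ hlca _
      exact absurd hlca.symm hlc

end Pool.Agent.LibHE77
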