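import Pool.Agent.LibHE77.A0

/-!
[HE77 C1] the word of a family without `g + 1` nested pairs. Proof. For a pair `t = {a < b}` of `T` let `ht(t)` be the largest `m` such that there is a chain of nested pairs `{a_0, b_0}, ..., {a_m, b_m} = t` of `T` with the same label (`a_0 < ... < a_m < b_m < ... < b_0`); by `Nst` `ht(t) < g a`. Word: `w c = none` if `c` is in no set,
`some none` if `{c} ∈ T`, `some (some (ht t, false))` for the smaller and `some (some (ht t, true))` for the larger element of the pair `t`. If `t` is strictly inside `t'` (same label) then `ht t' < ht t`: two pairs with the same label and height are not nested. Let `T'` be admissible and compatible with `w`. `T` and `T'` have the same sets with one element and their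
pairs have the same union. The pairs of `T'` with the label `x` and the height `h` define a bijection `π'` of the set `A` of smaller elements (in `T`) of the pairs of `T` with this label and height onto the set `B` of the larger elements (letters `(h, false)` and `(h, true)`), those of `T` a bijection `π`, which is strictly increasing (not nested, disjoint).
Rearrangement inequality with equality case (`Monovary...sum_mul_comp_perm_le_sum_mul`, `..._eq_sum_mul_iff`, or `_lt_`): `∑ a π'(a) ≤ ∑ a π(a)` with equality only for `π' = π`. Sum over the labels and heights.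
(`T'` has the same label on both elements of a pair because it is admissible.)
-/

open scoped Classical

namespace Pool.Agent.LibHE77

open Pool.Agent.LibHD77.Comb (ind cf)

variable {N : ℕ} {Lb : Type}

/-- rearrangement with equality case -/
private theorem rearr {s : Finset (Fin N)} {p : Fin N → Fin N}
    (hp : ∀ a ∈ s, ∀ b ∈ s, a < b → p a < p b) {σ : Fin N → Fin N} (hσ : ∀ a ∈ s, σ a ∈ s)
    (hinj : ∀ a ∈ s, ∀ b ∈ s, σ a = σ b → a = b) :
    ∑ a ∈ s, (a : ℕ) * (p (σ a) : ℕ) ≤ ∑ a ∈ s, (a : ℕ) * (p a : ℕ) ∧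
      (∑ a ∈ s, (a : ℕ) * (p (σ a) : ℕ) = ∑ a ∈ s, (a : ℕ) * (p a : ℕ) →
        ∀ a ∈ s, σ a = a) := by
  have hinj' : Function.Injective (fun x : s => (⟨σ x.1, hσ x.1 x.2⟩ : s)) := by
    intro x y hxy
    exact Subtype.ext (hinj x.1 x.2 y.1 y.2 (congrArg Subtype.val hxy))
  let τ : Equiv.Perm s := Equiv.ofBijective _ (Finite.injective_iff_bijective.1 hinj')
  have hτ : ∀ x : s, (τ x).1 = σ x.1 := fun x => rfl
  let f : s → ℕ := fun x => (x.1 : ℕ)
  let q : s → ℕ := fun x => (p x.1 : ℕ)
  have hq : ∀ x y : s, x.1 < y.1 → q x < q y := fun x y h => hp x.1 x.2 y.1 y.2 h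
  have hmv : Monovary f q := by
    intro x y hxy
    by_contra hcon
    have h1 : y.1 < x.1 := by
      rw [Fin.lt_def]
      exact not_le.1 hcon
    exact absurd (hq y x h1) (not_lt.2 hxy.le)
  have e1 : ∑ a ∈ s, (a : ℕ) * (p (σ a) : ℕ) = ∑ x : s, f x * q (τ x) := by
    rw [← Finset.sum_coe_sort s (fun a => (a : ℕ) * (p (σ a) : ℕ))]
    exact Finset.sum_congr rfl fun x _ => by simp only [f, q, hτ]
  have e2 : ∑ a ∈ s, (a : ℕ) * (p a : ℕ) = ∑ x : s, f x * q x := by
    rw [← Finset.sum_coe_sort s (fun a => (a : ℕ) * (p a : ℕ))]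
  rw [e1, e2]
  refine ⟨hmv.sum_mul_comp_perm_le_sum_mul, fun he => ?_⟩
  have h3 := hmv.sum_mul_comp_perm_eq_sum_mul_iff.1 he
  have hsm : StrictMono τ := by
    intro x y hxy
    have hxy' : x.1 < y.1 := hxy
    rcases lt_trichotomy (τ x).1 (τ y).1 with h | h | h
    · exact h
    · exact absurd (τ.injective (Subtype.ext h)) hxy.ne
    · have h4 : f y ≤ f x := h3 (hq _ _ h)
      exact absurd hxy' (not_lt.2 h4)
  have hsm' : StrictMono τ.symm := by
    intro x y hxy
    have h5 := hsm.lt_iff_lt (a := τ.symm x) (b := τ.symm y)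
    rw [Equiv.apply_symm_apply, Equiv.apply_symm_apply] at h5
    exact h5.1 hxy
  intro a ha
  have h6 : (⟨a, ha⟩ : s) ≤ τ ⟨a, ha⟩ := hsm.le_apply
  have h7 : τ ⟨a, ha⟩ ≤ τ.symm (τ ⟨a, ha⟩) := hsm'.le_apply
  rw [Equiv.symm_apply_apply] at h7
  have h8 := le_antisymm h7 h6
  have h9 := congrArg Subtype.val h8
  rw [hτ] at h9
  exact h9

/-- the partner of `a` -/
private noncomputable def prt (T : Finset (Finset (Fin N))) (a : Fin N) : Fin N :=
  if h : ∃ b, b ≠ a ∧ ({a, b} : Finset (Fin N)) ∈ T then h.choose else a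

private theorem adm_uniq {l : Fin N → Lb} {T : Finset (Finset (Fin N))} (hT : Adm l T)
    {t t' : Finset (Fin N)} (ht : t ∈ T) (ht' : t' ∈ T) {a : Fin N} (h : a ∈ t) (h' : a ∈ t') :
    t = t' := by
  by_contra hne
  exact Finset.disjoint_left.1 (hT.2 t ht t' ht' hne) h h'

private theorem prt_eq {l : Fin N → Lb} {T : Finset (Finset (Fin N))} (hT : Adm l T)
    {a b : Fin N} (hab : b ≠ a) (h : ({a, b} : Finset (Fin N)) ∈ T) : prt T a = b := by
  have hex : ∃ b, b ≠ a ∧ ({a, b} : Finset (Fin N)) ∈ T := ⟨b, hab, h⟩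
  unfold prt
  rw [dif_pos hex]
  have h1 := hex.choose_spec
  have h2 := adm_uniq hT h1.2 h (a := a) (by simp) (by simp)
  have h3 : hex.choose ∈ ({a, b} : Finset (Fin N)) := by
    rw [← h2]
    simp
  rcases Finset.mem_insert.1 h3 with h4 | h4
  · exact absurd h4 h1.1
  · exact Finset.mem_singleton.1 h4

private theorem prt_mem {T : Finset (Finset (Fin N))} {a : Fin N} (h : prt T a ≠ a) :
    ({a, prt T a} : Finset (Fin N)) ∈ T := by
  unfold prt at h ⊢
  by_cases hex : ∃ b, b ≠ a ∧ ({a, b} : Finset (Fin N)) ∈ T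
  · rw [dif_pos hex]
    exact hex.choose_spec.2
  · rw [dif_neg hex] at h
    exact absurd rfl h

private theorem prt_prt {l : Fin N → Lb} {T : Finset (Finset (Fin N))} (hT : Adm l T)
    (a : Fin N) : prt T (prt T a) = a := by
  by_cases h : prt T a = a
  · rw [h, h]
  · have h1 := prt_mem h
    rw [Finset.pair_comm] at h1
    exact prt_eq hT (Ne.symm h) h1

private theorem prt_lab {l : Fin N → Lb} {T : Finset (Finset (Fin N))} (hT : Adm l T)
    (a : Fin N) : l (prt T a) = l a := by
  by_cases h : prt T a = a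
  · rw [h]
  · exact (hT.1 _ (prt_mem h)).2 _ (by simp) _ (by simp)

private theorem two_of {T : Finset (Finset (Fin N))} {l : Fin N → Lb} (hT : Adm l T)
    {t : Finset (Fin N)} (ht : t ∈ T) {a : Fin N} (ha : a ∈ t) :
    t = {a} ∨ (prt T a ≠ a ∧ t = {a, prt T a}) := by
  rcases (hT.1 t ht).1 with h | h
  · obtain ⟨x, rfl⟩ := Finset.card_eq_one.1 h
    rw [Finset.mem_singleton.1 ha]
    exact Or.inl rfl
  · obtain ⟨x, y, hxy, rfl⟩ := Finset.card_eq_two.1 h
    right
    rcases Finset.mem_insert.1 ha with h1 | h1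
    · subst h1
      rw [prt_eq hT (Ne.symm hxy) ht]
      exact ⟨Ne.symm hxy, rfl⟩
    · have h2 := Finset.mem_singleton.1 h1
      subst h2
      rw [Finset.pair_comm] at ht
      rw [prt_eq hT hxy ht]
      exact ⟨hxy, Finset.pair_comm _ _⟩

private theorem mu_eq {l : Fin N → Lb} {T : Finset (Finset (Fin N))} (hT : Adm l T)
    (A : Finset (Fin N)) (h1 : ∀ a ∈ A, prt T a ≠ a)
    (h2 : ∀ a, prt T a ≠ a → (a ∈ A ↔ prt T a ∉ A)) :
    mu T = ∑ a ∈ A, (a : ℕ) * (prt T a : ℕ) := by
  unfold mu
  rw [← Finset.sum_filter]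
  symm
  refine Finset.sum_nbij (fun a => ({a, prt T a} : Finset (Fin N))) ?_ ?_ ?_ ?_
  · intro a ha
    refine Finset.mem_filter.2 ⟨prt_mem (h1 a ha), ?_⟩
    rw [Finset.card_pair (Ne.symm (h1 a ha))]
  · intro a ha b hb hab
    have hab' : ({a, prt T a} : Finset (Fin N)) = {b, prt T b} := hab
    have h3 : b ∈ ({a, prt T a} : Finset (Fin N)) := by
      rw [hab']
      simp
    rcases Finset.mem_insert.1 h3 with h4 | h4
    · exact h4.symm
    · have h5 := Finset.mem_singleton.1 h4
      have h6 := (h2 a (h1 a ha)).1 ha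
      rw [← h5] at h6
      exact absurd hb h6
  · intro t ht
    obtain ⟨htT, hc⟩ := Finset.mem_filter.1 ht
    obtain ⟨x, y, hxy, rfl⟩ := Finset.card_eq_two.1 hc
    have hp := prt_eq hT (Ne.symm hxy) htT
    have hne : prt T x ≠ x := by
      rw [hp]
      exact Ne.symm hxy
    by_cases hx : x ∈ A
    · exact ⟨x, hx, by simp only [hp]⟩
    · have hy : y ∈ A := by
        by_contra hy
        rw [← hp] at hy
        exact hx ((h2 x hne).2 hy)
      refine ⟨y, hy, ?_⟩
      have hp' : prt T y = x := by
        rw [← hp]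
        exact prt_prt hT x
      simp only [hp']
      exact Finset.pair_comm _ _
  · intro a ha
    exact (Finset.prod_pair (Ne.symm (h1 a ha))).symm

/-- a chain of `m + 1` nested pairs, the inner one is `{a, b}` -/
private def Ch (l : Fin N → Lb) (T : Finset (Finset (Fin N))) (a b : Fin N) (m : ℕ) : Prop :=
  ∃ c d : Fin (m + 1) → Fin N, StrictMono c ∧ StrictAnti d ∧ (∀ i j, c i < d j) ∧
    (∀ i, ({c i, d i} : Finset (Fin N)) ∈ T) ∧ (∀ i, l (c i) = l a) ∧
    c (Fin.last m) = a ∧ d (Fin.last m) = b

private theorem ch_zero {l : Fin N → Lb} {T : Finset (Finset (Fin N))} {a b : Fin N}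
    (hab : a < b) (h : ({a, b} : Finset (Fin N)) ∈ T) : Ch l T a b 0 := by
  refine ⟨fun _ => a, fun _ => b, ?_, ?_, fun _ _ => hab, fun _ => h, fun _ => rfl, rfl, rfl⟩
  · intro i j hij
    have h1 := i.2
    have h2 := j.2
    have h3 : (i : ℕ) < (j : ℕ) := hij
    omega
  · intro i j hij
    have h1 := i.2
    have h2 := j.2
    have h3 : (i : ℕ) < (j : ℕ) := hij
    omega

private theorem ch_lt {l : Fin N → Lb} {g : Fin N → ℕ} {T : Finset (Finset (Fin N))}
    (hN : Nst l g T) {a b : Fin N} {m : ℕ} (h : Ch l T a b m) : m < g a := by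
  obtain ⟨c, d, h1, h2, h3, h4, h5, h6, h7⟩ := h
  have := hN (m + 1) c d h1 h2 h3 h4 (fun i j => (h5 i).trans (h5 j).symm) (Fin.last m)
  rw [h6] at this
  omega

private theorem ch_succ {l : Fin N → Lb} {T : Finset (Finset (Fin N))} {a b a' b' : Fin N}
    {m : ℕ} (h : Ch l T a b m) (ha : a < a') (hb : b' < b) (hab : a' < b')
    (hT : ({a', b'} : Finset (Fin N)) ∈ T) (hl : l a' = l a) : Ch l T a' b' (m + 1) := by
  obtain ⟨c, d, h1, h2, h3, h4, h5, h6, h7⟩ := h
  have hc : ∀ i, c i ≤ a := fun i => by
    rw [← h6]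
    exact h1.monotone (Fin.le_last i)
  have hd : ∀ i, b ≤ d i := fun i => by
    rw [← h7]
    exact h2.antitone (Fin.le_last i)
  refine ⟨Fin.snoc (α := fun _ => Fin N) c a', Fin.snoc (α := fun _ => Fin N) d b',
    ?_, ?_, ?_, ?_, ?_, ?_, ?_⟩
  · intro i j hij
    induction i using Fin.lastCases with
    | last => exact absurd hij (not_lt.2 (Fin.le_last j))
    | cast i =>
      induction j using Fin.lastCases with
      | last =>
        rw [Fin.snoc_castSucc, Fin.snoc_last]
        exact (hc i).trans_lt ha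
      | cast j =>
        rw [Fin.snoc_castSucc, Fin.snoc_castSucc]
        exact h1 (Fin.castSucc_lt_castSucc_iff.1 hij)
  · intro i j hij
    induction i using Fin.lastCases with
    | last => exact absurd hij (not_lt.2 (Fin.le_last j))
    | cast i =>
      induction j using Fin.lastCases with
      | last =>
        rw [Fin.snoc_castSucc, Fin.snoc_last]
        exact hb.trans_le (hd i)
      | cast j =>
        rw [Fin.snoc_castSucc, Fin.snoc_castSucc]
        exact h2 (Fin.castSucc_lt_castSucc_iff.1 hij)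
  · intro i j
    induction i using Fin.lastCases with
    | last =>
      induction j using Fin.lastCases with
      | last =>
        rw [Fin.snoc_last, Fin.snoc_last]
        exact hab
      | cast j =>
        rw [Fin.snoc_last, Fin.snoc_castSucc]
        exact (hab.trans hb).trans_le (hd j)
    | cast i =>
      induction j using Fin.lastCases with
      | last =>
        rw [Fin.snoc_castSucc, Fin.snoc_last]
        exact ((hc i).trans_lt ha).trans hab
      | cast j =>
        rw [Fin.snoc_castSucc, Fin.snoc_castSucc]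
        exact h3 i j
  · intro i
    induction i using Fin.lastCases with
    | last =>
      rw [Fin.snoc_last, Fin.snoc_last]
      exact hT
    | cast i =>
      rw [Fin.snoc_castSucc, Fin.snoc_castSucc]
      exact h4 i
  · intro i
    induction i using Fin.lastCases with
    | last => rw [Fin.snoc_last]
    | cast i =>
      rw [Fin.snoc_castSucc, hl]
      exact h5 i
  · exact Fin.snoc_last _ _
  · exact Fin.snoc_last _ _

/-- the height of the pair `{a, b}`, `a < b` -/
private noncomputable def hh (l : Fin N → Lb) (g : Fin N → ℕ) (T : Finset (Finset (Fin N)))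
    (a b : Fin N) : ℕ := Nat.findGreatest (Ch l T a b) (g a)

private theorem hh_spec {l : Fin N → Lb} {g : Fin N → ℕ} {T : Finset (Finset (Fin N))}
    {a b : Fin N} (hab : a < b) (h : ({a, b} : Finset (Fin N)) ∈ T) :
    Ch l T a b (hh l g T a b) :=
  Nat.findGreatest_spec (P := Ch l T a b) (Nat.zero_le (g a)) (ch_zero hab h)

private theorem hh_nest {l : Fin N → Lb} {g : Fin N → ℕ} {T : Finset (Finset (Fin N))}
    (hN : Nst l g T) {a b a' b' : Fin N} (hT : ({a, b} : Finset (Fin N)) ∈ T)
    (ha : a < a') (hb : b' < b) (hab : a' < b')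
    (hT' : ({a', b'} : Finset (Fin N)) ∈ T) (hl : l a' = l a) :
    hh l g T a b < hh l g T a' b' := by
  have h1 : Ch l T a b (hh l g T a b) := hh_spec ((ha.trans hab).trans hb) hT
  have h2 := ch_succ h1 ha hb hab hT' hl
  have h3 := ch_lt hN h2
  have h4 : hh l g T a b + 1 ≤ hh l g T a' b' := Nat.le_findGreatest h3.le h2
  omega

/-- the letters of compatible families -/
private theorem letters {l : Fin N → Lb} {g : Fin N → ℕ} {T : Finset (Finset (Fin N))}
    (hT : Adm l T) {w : Fin N → Option (Option (ℕ × Bool))} (hw : Cmpt g w T) (a : Fin N) :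
    (prt T a = a → ∀ x, w a ≠ some (some x)) ∧
      (prt T a ≠ a → ∃ h ε, w a = some (some (h, ε)) ∧ w (prt T a) = some (some (h, !ε))) := by
  constructor
  · intro h x hx
    by_cases h1 : ∀ t ∈ T, a ∉ t
    · rw [(hw.1 a).2 h1] at hx
      exact absurd hx (by simp)
    · push Not at h1
      obtain ⟨t, ht, hat⟩ := h1
      rcases two_of hT ht hat with h2 | h2
      · rw [h2] at ht
        rw [(hw.2.1 a).2 ht] at hx
        exact absurd hx (by simp)
      · exact h2.1 h
  · intro h
    obtain ⟨h1, ε, h2, h3, h4⟩ := hw.2.2 a (prt T a) (Ne.symm h) (prt_mem h)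
    exact ⟨h1, ε, h3, h4⟩

private theorem mu_letters {l : Fin N → Lb} {g : Fin N → ℕ} {T : Finset (Finset (Fin N))}
    (hT : Adm l T) {w : Fin N → Option (Option (ℕ × Bool))} (hw : Cmpt g w T) :
    mu T = ∑ a ∈ Finset.univ.filter (fun a => ∃ h, w a = some (some (h, false))),
      (a : ℕ) * (prt T a : ℕ) := by
  apply mu_eq hT
  · intro a ha h
    obtain ⟨h1, h2⟩ := (Finset.mem_filter.1 ha).2
    exact (letters hT hw a).1 h _ h2
  · intro a ha
    obtain ⟨h, ε, h1, h2⟩ := (letters hT hw a).2 ha
    simp only [Finset.mem_filter, Finset.mem_univ, true_and, h1, h2]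
    cases ε <;> simp

private theorem eq_of_prt {l : Fin N → Lb} {g : Fin N → ℕ} {T T' : Finset (Finset (Fin N))}
    (hT : Adm l T) (hT' : Adm l T') {w : Fin N → Option (Option (ℕ × Bool))} (hw : Cmpt g w T)
    (hw' : Cmpt g w T') (h : ∀ a h, w a = some (some (h, false)) → prt T' a = prt T a) :
    T ⊆ T' := by
  intro t ht
  rcases (hT.1 t ht).1 with h1 | h1
  · obtain ⟨x, rfl⟩ := Finset.card_eq_one.1 h1
    exact (hw'.2.1 x).1 ((hw.2.1 x).2 ht)
  · obtain ⟨x, y, hxy, rfl⟩ := Finset.card_eq_two.1 h1
    obtain ⟨k, ε, -, h2, h3⟩ := hw.2.2 x y hxy ht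
    have key : ∀ x y : Fin N, x ≠ y → ({x, y} : Finset (Fin N)) ∈ T →
        w x = some (some (k, false)) → ({x, y} : Finset (Fin N)) ∈ T' := by
      intro x y hxy ht h2
      have h4 := h x k h2
      rw [prt_eq hT (Ne.symm hxy) ht] at h4
      have h5 : prt T' x ≠ x := by
        rw [h4]
        exact Ne.symm hxy
      have h6 := prt_mem h5
      rwa [h4] at h6
    cases ε with
    | false => exact key x y hxy ht h2
    | true =>
      rw [Finset.pair_comm] at ht ⊢
      exact key y x (Ne.symm hxy) ht h3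

theorem exists_word (l : Fin N → Lb) (g : Fin N → ℕ) (hg : ∀ a b, l a = l b → g a = g b)
    (T : Finset (Finset (Fin N))) (hT : Adm l T) (hN : Nst l g T) :
    ∃ w : Fin N → Option (Option (ℕ × Bool)), Cmpt g w T ∧
      ∀ T', Adm l T' → Cmpt g w T' → T' ≠ T → mu T' < mu T := by
  let w : Fin N → Option (Option (ℕ × Bool)) := fun a =>
    if prt T a = a then (if ({a} : Finset (Fin N)) ∈ T then some none else none)
    else if a < prt T a then some (some (hh l g T a (prt T a), false))
    else some (some (hh l g T (prt T a) a, true))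
  have w1 : ∀ a, prt T a = a → ({a} : Finset (Fin N)) ∈ T → w a = some none := by
    intro a h1 h2
    simp only [w]
    rw [if_pos h1, if_pos h2]
  have w2 : ∀ a, prt T a = a → ({a} : Finset (Fin N)) ∉ T → w a = none := by
    intro a h1 h2
    simp only [w]
    rw [if_pos h1, if_neg h2]
  have w3 : ∀ a, a < prt T a → w a = some (some (hh l g T a (prt T a), false)) := by
    intro a h1
    simp only [w]
    rw [if_neg h1.ne', if_pos h1]
  have w4 : ∀ a, prt T a < a → w a = some (some (hh l g T (prt T a) a, true)) := by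
    intro a h1
    simp only [w]
    rw [if_neg h1.ne, if_neg (not_lt.2 h1.le)]
  have hsing : ∀ a, ({a} : Finset (Fin N)) ∈ T → prt T a = a := by
    intro a ha
    by_contra h
    have h1 := adm_uniq hT ha (prt_mem h) (a := a) (by simp) (by simp)
    have h2 : prt T a ∈ ({a} : Finset (Fin N)) := by
      rw [h1]
      simp
    exact h (Finset.mem_singleton.1 h2)
  have hw : Cmpt g w T := by
    refine ⟨fun a => ⟨fun h t ht hat => ?_, fun h => ?_⟩, fun a => ⟨fun h => ?_, fun h => ?_⟩,
      fun a b hab ht => ?_⟩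
    · rcases two_of hT ht hat with h1 | ⟨h1, h2⟩
      · rw [h1] at ht
        rw [w1 a (hsing a ht) ht] at h
        exact absurd h (by simp)
      · rcases lt_or_gt_of_ne h1 with h3 | h3
        · rw [w4 a h3] at h
          exact absurd h (by simp)
        · rw [w3 a h3] at h
          exact absurd h (by simp)
    · refine w2 a ?_ fun h1 => h _ h1 (by simp)
      by_contra h1
      exact h _ (prt_mem h1) (by simp)
    · by_contra h1
      by_cases h2 : prt T a = a
      · rw [w2 a h2 h1] at h
        exact absurd h (by simp)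
      · rcases lt_or_gt_of_ne h2 with h3 | h3
        · rw [w4 a h3] at h
          exact absurd h (by simp)
        · rw [w3 a h3] at h
          exact absurd h (by simp)
    · exact w1 a (hsing a h) h
    · have h1 := prt_eq hT (Ne.symm hab) ht
      have ht' := ht
      rw [Finset.pair_comm] at ht'
      have h2 := prt_eq hT hab ht'
      have hl : l b = l a := (hT.1 _ ht).2 _ (by simp) _ (by simp)
      rcases lt_or_gt_of_ne hab with h3 | h3
      · refine ⟨hh l g T a b, false, ch_lt hN (hh_spec h3 ht), ?_, ?_⟩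
        · rw [w3 a (by rw [h1]; exact h3), h1]
        · rw [w4 b (by rw [h2]; exact h3), h2]
          rfl
      · refine ⟨hh l g T b a, true, ?_, ?_, ?_⟩
        · rw [hg a b hl.symm]
          exact ch_lt hN (hh_spec h3 ht')
        · rw [w4 a (by rw [h1]; exact h3), h1]
        · rw [w3 b (by rw [h2]; exact h3), h2]
          rfl
  refine ⟨w, hw, fun T' hT' hw' hne => ?_⟩
  rw [mu_letters hT hw, mu_letters hT' hw']
  set A := Finset.univ.filter (fun a => ∃ h, w a = some (some (h, false))) with hA
  -- the permutation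
  let σ : Fin N → Fin N := fun a => prt T (prt T' a)
  have hσw : ∀ a h, w a = some (some (h, false)) → w (σ a) = some (some (h, false)) := by
    intro a h h1
    have h2 : prt T' a ≠ a := fun h3 => (letters hT' hw' a).1 h3 _ h1
    obtain ⟨k, ε, h3, h4⟩ := (letters hT' hw' a).2 h2
    rw [h1] at h3
    have h5 : k = h ∧ ε = false := by
      simp only [Option.some.injEq, Prod.mk.injEq] at h3
      exact ⟨h3.1.symm, h3.2.symm⟩
    obtain ⟨rfl, rfl⟩ := h5
    have h6 : prt T (prt T' a) ≠ prt T' a := fun h7 => (letters hT hw _).1 h7 _ h4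
    obtain ⟨k', ε', h7, h8⟩ := (letters hT hw (prt T' a)).2 h6
    rw [h4] at h7
    have h9 : k' = k ∧ ε' = true := by
      simp only [Option.some.injEq, Prod.mk.injEq, Bool.not_false] at h7
      exact ⟨h7.1.symm, h7.2.symm⟩
    obtain ⟨rfl, rfl⟩ := h9
    exact h8
  have hσl : ∀ a, l (σ a) = l a := fun a => (prt_lab hT _).trans (prt_lab hT' a)
  have hσinj : ∀ a b, σ a = σ b → a = b := by
    intro a b h
    have h1 : prt T' a = prt T' b := by
      rw [← prt_prt hT (prt T' a), ← prt_prt hT (prt T' b)]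
      exact congrArg (prt T) h
    rw [← prt_prt hT' a, ← prt_prt hT' b, h1]
  have hσp : ∀ a, prt T (σ a) = prt T' a := fun a => prt_prt hT _
  -- monotone on classes
  have hmono : ∀ a b h, w a = some (some (h, false)) → w b = some (some (h, false)) →
      l a = l b → a < b → prt T a < prt T b := by
    intro a b h ha hb hlab hab
    have ha1 : a < prt T a := by
      by_contra hcon
      rcases lt_or_eq_of_le (not_lt.1 hcon) with h1 | h1
      · rw [w4 a h1] at ha
        simp at ha
      · exact (letters hT hw a).1 h1 _ ha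
    have hb1 : b < prt T b := by
      by_contra hcon
      rcases lt_or_eq_of_le (not_lt.1 hcon) with h1 | h1
      · rw [w4 b h1] at hb
        simp at hb
      · exact (letters hT hw b).1 h1 _ hb
    rw [w3 a ha1] at ha
    rw [w3 b hb1] at hb
    have ha2 : hh l g T a (prt T a) = h := by
      simp only [Option.some.injEq, Prod.mk.injEq] at ha
      exact ha.1
    have hb2 : hh l g T b (prt T b) = h := by
      simp only [Option.some.injEq, Prod.mk.injEq] at hb
      exact hb.1
    by_contra hcon
    rcases lt_or_eq_of_le (not_lt.1 hcon) with h1 | h1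
    · have h2 := hh_nest (g := g) hN (prt_mem ha1.ne') hab h1 hb1 (prt_mem hb1.ne') hlab.symm
      omega
    · have h2 : b = a := by
        rw [← prt_prt hT a, ← prt_prt hT b, h1]
      exact hab.ne h2.symm
  -- classes
  let κ : Fin N → Lb × Option (Option (ℕ × Bool)) := fun a => (l a, w a)
  have hcls : ∀ c ∈ A.image κ,
      ∑ a ∈ A.filter (fun a => κ a = c), (a : ℕ) * (prt T' a : ℕ) ≤
        ∑ a ∈ A.filter (fun a => κ a = c), (a : ℕ) * (prt T a : ℕ) ∧
      (∑ a ∈ A.filter (fun a => κ a = c), (a : ℕ) * (prt T' a : ℕ) =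
        ∑ a ∈ A.filter (fun a => κ a = c), (a : ℕ) * (prt T a : ℕ) →
        ∀ a ∈ A.filter (fun a => κ a = c), σ a = a) := by
    intro c _
    have h1 := rearr (s := A.filter (fun a => κ a = c)) (p := prt T) (σ := σ) ?_ ?_ ?_
    · simp only [hσp] at h1
      exact h1
    · intro a ha b hb hab
      obtain ⟨ha1, ha2⟩ := Finset.mem_filter.1 ha
      obtain ⟨hb1, hb2⟩ := Finset.mem_filter.1 hb
      obtain ⟨h, ha3⟩ := (Finset.mem_filter.1 ha1).2
      have h4 : κ a = κ b := ha2.trans hb2.symm
      have h5 : l a = l b := congrArg Prod.fst h4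
      have h6 : w a = w b := congrArg Prod.snd h4
      exact hmono a b h ha3 (h6 ▸ ha3) h5 hab
    · intro a ha
      obtain ⟨ha1, ha2⟩ := Finset.mem_filter.1 ha
      obtain ⟨h, ha3⟩ := (Finset.mem_filter.1 ha1).2
      refine Finset.mem_filter.2 ⟨Finset.mem_filter.2 ⟨Finset.mem_univ _, h, hσw a h ha3⟩, ?_⟩
      rw [← ha2]
      exact Prod.ext (hσl a) ((hσw a h ha3).trans ha3.symm)
    · exact fun a _ b _ h => hσinj a b h
  have hfib : ∀ f : Fin N → ℕ, ∑ a ∈ A, f a =
      ∑ c ∈ A.image κ, ∑ a ∈ A.filter (fun a => κ a = c), f a := fun f =>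
    (Finset.sum_fiberwise_of_maps_to (fun a ha => Finset.mem_image_of_mem κ ha) f).symm
  rw [hfib, hfib]
  refine Finset.sum_lt_sum (fun c hc => (hcls c hc).1) ?_
  by_contra hcon
  push Not at hcon
  have hall : ∀ a h, w a = some (some (h, false)) → prt T' a = prt T a := by
    intro a h ha
    have haA : a ∈ A := Finset.mem_filter.2 ⟨Finset.mem_univ _, h, ha⟩
    have hc := Finset.mem_image_of_mem κ haA
    have h1 := (hcls _ hc).2 (le_antisymm (hcls _ hc).1 (hcon _ hc)) a
      (Finset.mem_filter.2 ⟨haA, rfl⟩)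
    rw [← hσp a, h1]
  exact hne (Finset.Subset.antisymm
    (eq_of_prt hT' hT hw' hw fun a h ha => (hall a h ha).symm)
    (eq_of_prt hT hT' hw hw' hall))

end Pool.Agent.LibHE77
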