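import Pool.Agent.LibHE77.B0
import Pool.Agent.LibHE77.C1
import Pool.Agent.LibHE77.A6
import Pool.Agent.LibHE77.A2

/-!
[HE77 C2] the second fundamental theorem. Proof. `indep`: if some `c T ≠ 0` choose such a `T` with the smallest `mu T`, `w` its word (`exists_word`); apply `𝔽.co w`: the terms `T'` with `c T' ≠ 0` and `T' ≠ T` have `mu T ≤ mu T'`, so they are not compatible with `w` and give zero, `T` gives `c T * (≠ 0)`.
`sft`: `𝔽.V` satisfies the hafnian relations (`theta_haf` for `𝔽.Θ`, `z = 𝔽.X`, applied to the vacuum). `straighten` for every `T` in `AD l D` (choose coefficients `e T T'`): `0 = ∑ c i V(T i) = ∑_T' (∑_i c i e (T i) T') V(T')`, so the coefficients vanish (`indep`), and then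
`∑ c i γ(T i) = ∑_T' (∑_i c i e (T i) T') γ(T') = 0`.
-/

open scoped Classical

namespace Pool.Agent.LibHE77

open Pool.Agent.LibHD77.Comb (ind cf)

variable {N : ℕ} {Lb : Type} {l : Fin N → Lb} {g : Fin N → ℕ}

theorem indep_nst (hg : ∀ a b, l a = l b → g a = g b) (𝔽 : Fk l g)
    (c : Finset (Finset (Fin N)) → ℚ) (hc : ∀ T, c T ≠ 0 → Adm l T ∧ Nst l g T)
    (h : ∑ T, c T • 𝔽.V T = 0) (T : Finset (Finset (Fin N))) : c T = 0 := by
  by_contra hT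
  obtain ⟨T₁, hT₁, hmin⟩ := Finset.exists_min_image (Finset.univ.filter fun T => c T ≠ 0) mu
    ⟨T, by simpa using hT⟩
  have hT₁' : c T₁ ≠ 0 := (Finset.mem_filter.1 hT₁).2
  obtain ⟨w, hw, hmax⟩ := exists_word l g hg T₁ (hc T₁ hT₁').1 (hc T₁ hT₁').2
  have h1 : 𝔽.co w (∑ T, c T • 𝔽.V T) = 0 := by rw [h, map_zero]
  rw [map_sum, Finset.sum_eq_single T₁] at h1
  · rw [map_smul, smul_eq_mul] at h1
    exact (mul_ne_zero hT₁' (𝔽.co_ne w T₁ (hc T₁ hT₁').1 hw)) h1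
  · intro T' _ hne
    rw [map_smul, smul_eq_mul]
    by_cases h0 : c T' = 0
    · rw [h0, zero_mul]
    · have hnc : ¬ Cmpt g w T' := by
        intro hcm
        have h2 := hmax T' (hc T' h0).1 hcm hne
        have h3 := hmin T' (Finset.mem_filter.2 ⟨Finset.mem_univ _, h0⟩)
        omega
      have h4 : 𝔽.co w (𝔽.V T') = 0 := 𝔽.co_zero w T' (hc T' h0).1 hnc
      rw [h4, mul_zero]
  · intro hn
    exact absurd (Finset.mem_univ _) hn

theorem haf_V (𝔽 : Fk l g) (D : ℕ) : HafRel l g D 𝔽.V := by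
  intro H T₀ h1 h2 h3 h4 h5 h6
  have h7 := theta_haf l g 𝔽.Θ 𝔽.Θpow 𝔽.X (fun t ht => (𝔽.Θpair t ht).symm) D H T₀ h1 h2 h3 h4 h5 h6
  have h8 : ∑ M ∈ PM H, 𝔽.V (T₀ ∪ M) = (∑ M ∈ PM H, ∏ t ∈ T₀ ∪ M, 𝔽.X t) • 𝔽.vac := by
    rw [Finset.sum_smul]
    rfl
  rw [h8]
  have h9 : (∑ M ∈ PM H, ∏ t ∈ T₀ ∪ M, 𝔽.X t) = 0 := h7
  rw [h9, zero_smul]

theorem sft (hg : ∀ a b, l a = l b → g a = g b) (𝔽 : Fk l g) {D : ℕ} {K : Type} [Fintype K]
    (T : K → Finset (Finset (Fin N))) (hT : ∀ i, T i ∈ AD l D) (c : K → ℚ)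
    (h : ∑ i, c i • 𝔽.V (T i) = 0) {W : Type} [AddCommGroup W] [Module ℚ W]
    (γ : Finset (Finset (Fin N)) → W) (hγ : HafRel l g D γ) : ∑ i, c i • γ (T i) = 0 := by
  choose e he1 he2 using fun i => straighten l g hg D (T i) (hT i)
  have key : ∀ (W' : Type) [AddCommGroup W'] [Module ℚ W'] (γ' : Finset (Finset (Fin N)) → W'),
      HafRel l g D γ' → ∑ i, c i • γ' (T i) = ∑ T', (∑ i, c i * (e i T' : ℚ)) • γ' T' := by
    intro W' _ _ γ' hγ'
    have h1 : ∀ i, c i • γ' (T i) = ∑ T', (c i * (e i T' : ℚ)) • γ' T' := by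
      intro i
      rw [he2 i W' _ γ' hγ', Finset.smul_sum]
      refine Finset.sum_congr rfl fun T' _ => ?_
      rw [mul_smul, Int.cast_smul_eq_zsmul]
    rw [Finset.sum_congr rfl fun i _ => h1 i, Finset.sum_comm]
    refine Finset.sum_congr rfl fun T' _ => ?_
    rw [Finset.sum_smul]
  have h2 := key 𝔽.F 𝔽.V (haf_V 𝔽 D)
  rw [h] at h2
  have h3 : ∀ T', (∑ i, c i * (e i T' : ℚ)) = 0 := by
    refine indep_nst hg 𝔽 (fun T' => ∑ i, c i * (e i T' : ℚ)) ?_ h2.symm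
    intro T' hT'
    obtain ⟨i, _, hi⟩ := Finset.exists_ne_zero_of_sum_ne_zero hT'
    have hi' : e i T' ≠ 0 := by
      intro h0
      exact hi (by rw [h0]; simp)
    obtain ⟨h4, h5⟩ := he1 i T' hi'
    exact ⟨(Finset.mem_filter.1 h4).2.1, h5⟩
  rw [key W γ hγ]
  refine Finset.sum_eq_zero fun T' _ => ?_
  rw [h3 T', zero_smul]

end Pool.Agent.LibHE77
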