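import Pool.Agent.LibHE77.C2
import Pool.Agent.LibHL77.SDefs

/-!
The vectors of combinations of diagonals: definitions (pure combinatorics).
-/

open scoped Classical

namespace Pool.Agent.LibHE77

open Pool.Agent.LibHL77 (Ops Atm Val)
open Pool.Agent.LibHD77.Comb (cf)

variable {n : ℕ} {Lb : Type} {l : Fin n → Lb} {g : Fin n → ℕ} {i₀ : Fin n}

/-- the operator of a family of blocks (the additional coordinate is not used) -/
noncomputable def num {D : ℕ} (𝔽 : Fk (lS l i₀) (lS g i₀)) (τ : Fin D → Finset (Fin n)) : 𝔽.R :=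
  ∏ e, ∑ t ∈ (τ e).powerset, if t = ∅ then 0 else 𝔽.X (bl t)

/-- the operator of the fixed coordinates on the curve of `i₀`: the fixed coordinate `z` with value `v` is
`v` times the pair of `z` and the additional coordinate -/
noncomputable def ajn {D : ℕ} {A : Fin n → Type} (𝔽 : Fk (lS l i₀) (lS g i₀))
    (val : ∀ a, A a → ℚ) (τ : Fin D → Finset (Fin n)) (s : ∀ a, A a) : 𝔽.R :=
  ∑ z, if (∀ e, z ∉ τ e) ∧ l z = l i₀ then algebraMap ℚ 𝔽.R (val z (s z)) * 𝔽.X (pr z) else 0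

/-- the vectors of a torsion combination of classes are zero -/
def Det2 {D : ℕ} {A : Fin n → Type} {G : Type} [AddCommGroup G] (𝔽 : Fk (lS l i₀) (lS g i₀))
    (Φ : (Fin D → Finset (Fin n)) → (∀ a, A a) → G) (val : ∀ a, A a → ℚ) : Prop :=
  ∀ (K : Type) (_ : Fintype K) (m : K → ℤ) (τ : K → Fin D → Finset (Fin n)) (s : K → ∀ a, A a),
    (∀ i, Atm l (τ i)) → IsOfFinAddOrder (∑ i, m i • Φ (τ i) (s i)) →
    ∑ i, m i • (num 𝔽 (τ i) • 𝔽.vac) = 0 ∧
    ∑ i, m i • ((num 𝔽 (τ i) * ajn 𝔽 val (τ i) (s i)) • 𝔽.vac) = 0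

/-- the operator of a family of vectors -/
noncomputable def nv {D : ℕ} (𝔽 : Fk (lS l i₀) (lS g i₀)) (v : Fin D → Fin n → ℤ) : 𝔽.R :=
  ∏ e, ∑ t : Finset (Fin n), cf t (v e) • 𝔽.X (bl t)

/-- the operator of the values `u` of the fixed coordinates on the curve of `i₀` -/
noncomputable def av (𝔽 : Fk (lS l i₀) (lS g i₀)) (u : Fin n → ℚ) : 𝔽.R :=
  ∑ z, if l z = l i₀ then algebraMap ℚ 𝔽.R (u z) * 𝔽.X (pr z) else 0

/-- the vectors `v e` have disjoint supports, the coordinates of a support have the same label, and `u` is zero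
on the supports -/
def Ok {D : ℕ} (l : Fin n → Lb) (v : Fin D → Fin n → ℤ) (u : Fin n → ℚ) : Prop :=
  (∀ e e' a, e ≠ e' → v e a = 0 ∨ v e' a = 0) ∧
    (∀ e a b, v e a ≠ 0 → v e b ≠ 0 → l a = l b) ∧ ∀ e a, v e a ≠ 0 → u a = 0

/-- the conditions on the form `θ` and the linear form `y` -/
def Cond (l : Fin n → Lb) (g : Fin n → ℕ) {R : Type} [CommRing R]
    (θ : QuadraticMap ℤ (Fin n → ℤ) R) (y : Fin n → R) : Prop :=
  ∀ a v, (∀ b, v b ≠ 0 → l b = l a) → θ v ^ (g a + 1) = 0 ∧ θ v ^ g a * ∑ b, v b • y b = 0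

end Pool.Agent.LibHE77
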