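import Pool.Agent.LibHE77.D0

/-!
[HE77 D1] the operators `Y` on the vectors of families, and positivity (algebra in the structure `Fk`, no geometry). Write `X_t = 𝔽.X (bl t)`, `x_C = ∑_(t ⊆ C, t ≠ ∅) X_t`. For `Atm l τ` every `x_(τ e)` is `X_a` or `X_a + X_b + X_(ab)`. Proof of `Y1_cov`: `τ e = insert a C`, `a ∉ C`, `x_(τ e) = X_a + x_C + (X_(ac) if C = {c})`; `num τ = x_(τ e) * (product of the others)`, all other factors (and
`r`) are in `Sb 𝔽.X {a}`: the field `ys`. `Y1_unc`, `Y2_unc`: fields `ys`, `yp`. `Y2_two`: `a, b` in two different blocks `insert a C`, `insert b C'`: multiply out; by `yp` (also with `a`, `b` exchanged, `{a, b} = {b, a}`) only `X_(ac) X_(bc')` contributes: `- X_(cc')`, and `x_(C ∪ C') - x_C - x_(C') = X_(cc')` if `C = {c}`, `C' = {c'}`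
and `0` if one of them is empty. `Y2_one`: the block is `{a, b}`: `2 g`. `Y2_mix`: `C = {a}` or `{a, c}`; only `X_(ac) X_(b*)` contributes (`* = Fin.last n`, `pr b = {b, *}`, its label is that of `i₀`): `- X_(c*)`. `pos_num`: `c = ∑ i, m i • ((num (τ i) * r i) • vac)`; `B c c = ∑ m i * B (..) c`; the factor `x_(τ i 0)` is a sum of `X_t`, `t` with one element or two elements with the same label (`Atm`; or `X_t = 0`), and `B (X_t • ψ) c = B ψ (Y_t c) = 0` (`adj`); `pos`.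
-/

open scoped Classical

namespace Pool.Agent.LibHE77

open Pool.Agent.LibHL77 (Ops Atm Val)

variable {n : ℕ} {Lb : Type} {l : Fin n → Lb} {g : Fin n → ℕ} {i₀ : Fin n} {D : ℕ}

/-- the sum of the operators of the nonempty subsets of `C` -/
noncomputable def xs (𝔽 : Fk (lS l i₀) (lS g i₀)) (C : Finset (Fin n)) : 𝔽.R :=
  ∑ t ∈ C.powerset, if t = ∅ then 0 else 𝔽.X (bl t)

theorem D1_bl1 (a : Fin n) : bl ({a} : Finset (Fin n)) = {a.castSucc} := by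
  simp [bl]

theorem D1_bl2 (a b : Fin n) : bl ({a, b} : Finset (Fin n)) = {a.castSucc, b.castSucc} := by
  simp [bl, Finset.map_insert]

theorem D1_xs0 (𝔽 : Fk (lS l i₀) (lS g i₀)) : xs 𝔽 (∅ : Finset (Fin n)) = 0 := by
  simp [xs]

theorem D1_xs1 (𝔽 : Fk (lS l i₀) (lS g i₀)) (a : Fin n) : xs 𝔽 {a} = 𝔽.X {a.castSucc} := by
  unfold xs
  rw [← insert_empty_eq a, Finset.sum_powerset_insert (by simp)]
  simp [D1_bl1]

theorem D1_xs2 (𝔽 : Fk (lS l i₀) (lS g i₀)) (a b : Fin n) (hab : a ≠ b) :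
    xs 𝔽 {a, b} = 𝔽.X {a.castSucc} + 𝔽.X {b.castSucc} + 𝔽.X {a.castSucc, b.castSucc} := by
  unfold xs
  rw [Finset.sum_powerset_insert (by simpa using hab)]
  rw [← insert_empty_eq b, Finset.sum_powerset_insert (by simp),
    Finset.sum_powerset_insert (by simp)]
  simp [D1_bl1, D1_bl2]
  ring

theorem D1_cases (a : Fin n) (C : Finset (Fin n)) (ha : a ∈ C) (hC : C.card ≤ 2) :
    C = {a} ∨ ∃ c, c ≠ a ∧ C = {a, c} := by
  have h1 : (C.erase a).card ≤ 1 := by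
    rw [Finset.card_erase_of_mem ha]
    omega
  have _ : Nonempty (Fin n) := ⟨a⟩
  rcases Finset.card_le_one_iff_subset_singleton.1 h1 with ⟨c, hc⟩
  rcases Finset.subset_singleton_iff.1 hc with h2 | h2
  · left
    rw [← Finset.insert_erase ha, h2, insert_empty_eq]
  · right
    have h3 : c ∈ C.erase a := by rw [h2]; exact Finset.mem_singleton_self c
    exact ⟨c, (Finset.mem_erase.1 h3).1, by rw [← Finset.insert_erase ha, h2]⟩

section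
variable {N : ℕ} {L : Type} {l' : Fin N → L} {g' : Fin N → ℕ}

theorem D1_X_mem (𝔽 : Fk l' g') {t s : Finset (Fin N)} (h : Disjoint t s) : 𝔽.X t ∈ Sb 𝔽.X s :=
  Algebra.subset_adjoin ⟨t, h, rfl⟩

theorem D1_p0 (𝔽 : Fk l' g') {a b : Fin N} (hab : a ≠ b) (hl : l' a = l' b) {r : 𝔽.R}
    (hr : r ∈ Sb 𝔽.X {a, b}) : 𝔽.Y {a, b} (r • 𝔽.vac) = 0 := (𝔽.yp a b hab hl r hr).1

theorem D1_pa (𝔽 : Fk l' g') {a b : Fin N} (hab : a ≠ b) (hl : l' a = l' b) {r : 𝔽.R}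
    (hr : r ∈ Sb 𝔽.X {a, b}) : 𝔽.Y {a, b} ((𝔽.X {a} * r) • 𝔽.vac) = 0 :=
  (𝔽.yp a b hab hl r hr).2.1

theorem D1_pb (𝔽 : Fk l' g') {a b : Fin N} (hab : a ≠ b) (hl : l' a = l' b) {r : 𝔽.R}
    (hr : r ∈ Sb 𝔽.X {a, b}) : 𝔽.Y {a, b} ((𝔽.X {b} * r) • 𝔽.vac) = 0 := by
  rw [Finset.pair_comm] at hr ⊢
  exact D1_pa 𝔽 hab.symm hl.symm hr

theorem D1_pab (𝔽 : Fk l' g') {a b : Fin N} (hab : a ≠ b) (hl : l' a = l' b) {r : 𝔽.R}
    (hr : r ∈ Sb 𝔽.X {a, b}) : 𝔽.Y {a, b} ((𝔽.X {a} * 𝔽.X {b} * r) • 𝔽.vac) = 0 :=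
  (𝔽.yp a b hab hl r hr).2.2.1

theorem D1_pp (𝔽 : Fk l' g') {a b : Fin N} (hab : a ≠ b) (hl : l' a = l' b) {r : 𝔽.R}
    (hr : r ∈ Sb 𝔽.X {a, b}) :
    𝔽.Y {a, b} ((𝔽.X {a, b} * r) • 𝔽.vac) = (2 * g' a : ℚ) • (r • 𝔽.vac) :=
  (𝔽.yp a b hab hl r hr).2.2.2.1

theorem D1_pac (𝔽 : Fk l' g') {a b c : Fin N} (hab : a ≠ b) (hl : l' a = l' b) (hca : c ≠ a)
    (hcb : c ≠ b) {r : 𝔽.R}
    (hr : r ∈ Sb 𝔽.X {a, b}) : 𝔽.Y {a, b} ((𝔽.X {a, c} * r) • 𝔽.vac) = 0 :=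
  ((𝔽.yp a b hab hl r hr).2.2.2.2 c hca hcb).1

theorem D1_pbc (𝔽 : Fk l' g') {a b c : Fin N} (hab : a ≠ b) (hl : l' a = l' b) (hca : c ≠ a)
    (hcb : c ≠ b) {r : 𝔽.R}
    (hr : r ∈ Sb 𝔽.X {a, b}) : 𝔽.Y {a, b} ((𝔽.X {b, c} * r) • 𝔽.vac) = 0 := by
  rw [Finset.pair_comm] at hr
  rw [Finset.pair_comm a b]
  exact D1_pac 𝔽 hab.symm hl.symm hcb hca hr

theorem D1_pacb (𝔽 : Fk l' g') {a b c : Fin N} (hab : a ≠ b) (hl : l' a = l' b) (hca : c ≠ a)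
    (hcb : c ≠ b) {r : 𝔽.R}
    (hr : r ∈ Sb 𝔽.X {a, b}) : 𝔽.Y {a, b} ((𝔽.X {a, c} * 𝔽.X {b} * r) • 𝔽.vac) = 0 :=
  ((𝔽.yp a b hab hl r hr).2.2.2.2 c hca hcb).2.1

theorem D1_pbca (𝔽 : Fk l' g') {a b c : Fin N} (hab : a ≠ b) (hl : l' a = l' b) (hca : c ≠ a)
    (hcb : c ≠ b) {r : 𝔽.R}
    (hr : r ∈ Sb 𝔽.X {a, b}) : 𝔽.Y {a, b} ((𝔽.X {b, c} * 𝔽.X {a} * r) • 𝔽.vac) = 0 := by
  rw [Finset.pair_comm] at hr
  rw [Finset.pair_comm a b]
  exact D1_pacb 𝔽 hab.symm hl.symm hcb hca hr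

theorem D1_pacbd (𝔽 : Fk l' g') {a b c d : Fin N} (hab : a ≠ b) (hl : l' a = l' b) (hca : c ≠ a)
    (hcb : c ≠ b) (hda : d ≠ a) (hdb : d ≠ b) (hdc : d ≠ c) (hlc : l' c = l' a)
    (hld : l' d = l' a) {r : 𝔽.R} (hr : r ∈ Sb 𝔽.X {a, b}) :
    𝔽.Y {a, b} ((𝔽.X {a, c} * 𝔽.X {b, d} * r) • 𝔽.vac) = - ((𝔽.X {c, d} * r) • 𝔽.vac) :=
  ((𝔽.yp a b hab hl r hr).2.2.2.2 c hca hcb).2.2 d hda hdb hdc hlc hld

end

theorem D1_lS (a : Fin n) : lS l i₀ a.castSucc = l a := by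
  simp [lS]

theorem D1_gS (a : Fin n) : lS g i₀ a.castSucc = g a := by
  simp [lS]

theorem D1_lSl : lS l i₀ (Fin.last n) = l i₀ := by
  simp [lS]

theorem D1_cs_ne {a b : Fin n} (h : a ≠ b) : a.castSucc ≠ b.castSucc :=
  fun h' => h (Fin.castSucc_injective n h')

theorem D1_last_ne (a : Fin n) : Fin.last n ≠ a.castSucc := (Fin.castSucc_lt_last a).ne'

theorem D1_dj1 {N : ℕ} {a b : Fin N} (h : b ≠ a) : Disjoint ({b} : Finset (Fin N)) {a} := by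
  simpa using h

theorem D1_dj2 {N : ℕ} {a b c : Fin N} (h1 : c ≠ a) (h2 : c ≠ b) :
    Disjoint ({c} : Finset (Fin N)) {a, b} := by
  simp [h1, h2]

theorem Y1_cov (𝔽 : Fk (lS l i₀) (lS g i₀)) (a : Fin n) (C : Finset (Fin n)) (ha : a ∈ C)
    (hC : C.card ≤ 2) (r : 𝔽.R) (hr : r ∈ Sb 𝔽.X {a.castSucc}) :
    𝔽.Y {a.castSucc} ((xs 𝔽 C * r) • 𝔽.vac) = r • 𝔽.vac := by
  obtain ⟨h0, h1, h2⟩ := 𝔽.ys a.castSucc r hr
  rcases D1_cases a C ha hC with rfl | ⟨c, hc, rfl⟩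
  · rw [D1_xs1]
    exact h1
  · rw [D1_xs2 𝔽 a c hc.symm, add_mul, add_mul, add_smul, add_smul, map_add, map_add, h1,
      h2 _ (D1_cs_ne hc)]
    have h3 : 𝔽.X {c.castSucc} * r ∈ Sb 𝔽.X {a.castSucc} :=
      mul_mem (D1_X_mem 𝔽 (D1_dj1 (D1_cs_ne hc))) hr
    rw [(𝔽.ys a.castSucc _ h3).1, add_zero, add_zero]

theorem Y1_unc (𝔽 : Fk (lS l i₀) (lS g i₀)) (a : Fin n) (r : 𝔽.R)
    (hr : r ∈ Sb 𝔽.X {a.castSucc}) :
    𝔽.Y {a.castSucc} (r • 𝔽.vac) = 0 ∧ 𝔽.Y {a.castSucc} ((𝔽.X (pr a) * r) • 𝔽.vac) = 0 := by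
  obtain ⟨h0, h1, h2⟩ := 𝔽.ys a.castSucc r hr
  exact ⟨h0, h2 _ (D1_last_ne a)⟩

theorem Y2_two (𝔽 : Fk (lS l i₀) (lS g i₀)) (a b : Fin n) (hab : a ≠ b) (hl : l a = l b)
    (C C' : Finset (Fin n)) (ha : a ∈ C) (hb : b ∈ C') (hd : Disjoint C C') (hC : C.card ≤ 2)
    (hC' : C'.card ≤ 2) (h1 : ∀ x ∈ C, l x = l a) (h2 : ∀ x ∈ C', l x = l a) (r : 𝔽.R)
    (hr : r ∈ Sb 𝔽.X {a.castSucc, b.castSucc}) :
    𝔽.Y {a.castSucc, b.castSucc} ((xs 𝔽 C * xs 𝔽 C' * r) • 𝔽.vac) =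
      - (((xs 𝔽 ((C ∪ C') \ {a, b}) - xs 𝔽 (C \ {a}) - xs 𝔽 (C' \ {b})) * r) • 𝔽.vac) := by
  have hab' := D1_cs_ne hab
  have hl' : lS l i₀ a.castSucc = lS l i₀ b.castSucc := by rw [D1_lS, D1_lS]; exact hl
  rcases D1_cases a C ha hC with rfl | ⟨c, hc, rfl⟩
  · have e1 : (({a} : Finset (Fin n)) ∪ C') \ {a, b} = C' \ {b} := by
      ext x
      simp only [Finset.mem_sdiff, Finset.mem_union, Finset.mem_singleton, Finset.mem_insert]
      constructor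
      · rintro ⟨h3 | h3, h4⟩
        · exact absurd (Or.inl h3) h4
        · exact ⟨h3, fun h5 => h4 (Or.inr h5)⟩
      · rintro ⟨h3, h4⟩
        refine ⟨Or.inr h3, ?_⟩
        rintro (h5 | h5)
        · exact Finset.disjoint_left.1 hd (Finset.mem_singleton_self a) (h5 ▸ h3)
        · exact h4 h5
    have e2 : (({a} : Finset (Fin n)) \ {a}) = ∅ := Finset.sdiff_self _
    rw [e1, e2, D1_xs0, sub_zero, sub_self, zero_mul, zero_smul, neg_zero, D1_xs1]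
    rcases D1_cases b C' hb hC' with rfl | ⟨d, hdb, rfl⟩
    · rw [D1_xs1]
      exact D1_pab 𝔽 hab' hl' hr
    · have hda : d ≠ a := by
        rintro rfl
        exact Finset.disjoint_left.1 hd (Finset.mem_singleton_self d) (by simp)
      have hda' := D1_cs_ne hda
      have hdb' := D1_cs_ne hdb
      have hXd : 𝔽.X {d.castSucc} * r ∈ Sb 𝔽.X {a.castSucc, b.castSucc} :=
        mul_mem (D1_X_mem 𝔽 (D1_dj2 hda' hdb')) hr
      rw [D1_xs2 𝔽 b d hdb.symm]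
      have e3 : 𝔽.X {a.castSucc} * (𝔽.X {b.castSucc} + 𝔽.X {d.castSucc} +
          𝔽.X {b.castSucc, d.castSucc}) * r = 𝔽.X {a.castSucc} * 𝔽.X {b.castSucc} * r +
          𝔽.X {a.castSucc} * (𝔽.X {d.castSucc} * r) +
          𝔽.X {b.castSucc, d.castSucc} * 𝔽.X {a.castSucc} * r := by ring
      rw [e3, add_smul, add_smul, map_add, map_add, D1_pab 𝔽 hab' hl' hr, D1_pa 𝔽 hab' hl' hXd,
        D1_pbca 𝔽 hab' hl' hda' hdb' hr, add_zero, add_zero]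
  · have hcb : c ≠ b := by
      rintro rfl
      exact Finset.disjoint_left.1 hd (by simp) hb
    have hc' := D1_cs_ne hc
    have hcb' := D1_cs_ne hcb
    have hXc : 𝔽.X {c.castSucc} * r ∈ Sb 𝔽.X {a.castSucc, b.castSucc} :=
      mul_mem (D1_X_mem 𝔽 (D1_dj2 hc' hcb')) hr
    have hac : a ≠ c := hc.symm
    have e2 : (({a, c} : Finset (Fin n)) \ {a}) = {c} := by
      ext x
      simp only [Finset.mem_sdiff, Finset.mem_singleton, Finset.mem_insert]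
      constructor
      · rintro ⟨h3 | h3, h4⟩
        · exact absurd h3 h4
        · exact h3
      · rintro rfl
        exact ⟨Or.inr rfl, hc⟩
    rcases D1_cases b C' hb hC' with rfl | ⟨d, hdb, rfl⟩
    · have e1 : ((({a, c} : Finset (Fin n)) ∪ {b}) \ {a, b}) = {c} := by
        ext x
        simp only [Finset.mem_sdiff, Finset.mem_union, Finset.mem_singleton, Finset.mem_insert]
        constructor
        · rintro ⟨(h3 | h3) | h3, h4⟩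
          · exact absurd (Or.inl h3) h4
          · exact h3
          · exact absurd (Or.inr h3) h4
        · rintro rfl
          refine ⟨Or.inl (Or.inr rfl), ?_⟩
          rintro (h5 | h5)
          · exact hc h5
          · exact hcb h5
      have e3 : (({b} : Finset (Fin n)) \ {b}) = ∅ := Finset.sdiff_self _
      rw [e1, e2, e3, D1_xs0, sub_self, sub_zero, zero_mul, zero_smul, neg_zero, D1_xs1 𝔽 b,
        D1_xs2 𝔽 a c hac]
      have e4 : (𝔽.X {a.castSucc} + 𝔽.X {c.castSucc} + 𝔽.X {a.castSucc, c.castSucc}) *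
          𝔽.X {b.castSucc} * r = 𝔽.X {a.castSucc} * 𝔽.X {b.castSucc} * r +
          𝔽.X {b.castSucc} * (𝔽.X {c.castSucc} * r) +
          𝔽.X {a.castSucc, c.castSucc} * 𝔽.X {b.castSucc} * r := by ring
      rw [e4, add_smul, add_smul, map_add, map_add, D1_pab 𝔽 hab' hl' hr, D1_pb 𝔽 hab' hl' hXc,
        D1_pacb 𝔽 hab' hl' hc' hcb' hr, add_zero, add_zero]
    · have hda : d ≠ a := by
        rintro rfl
        exact Finset.disjoint_left.1 hd (by simp : d ∈ ({d, c} : Finset (Fin n))) (by simp)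
      have hdc : d ≠ c := by
        rintro rfl
        exact Finset.disjoint_left.1 hd (by simp : d ∈ ({a, d} : Finset (Fin n))) (by simp)
      have hda' := D1_cs_ne hda
      have hdb' := D1_cs_ne hdb
      have hdc' := D1_cs_ne hdc
      have hXd : 𝔽.X {d.castSucc} * r ∈ Sb 𝔽.X {a.castSucc, b.castSucc} :=
        mul_mem (D1_X_mem 𝔽 (D1_dj2 hda' hdb')) hr
      have hXcd : 𝔽.X {c.castSucc} * (𝔽.X {d.castSucc} * r) ∈
          Sb 𝔽.X {a.castSucc, b.castSucc} :=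
        mul_mem (D1_X_mem 𝔽 (D1_dj2 hc' hcb')) hXd
      have e1 : ((({a, c} : Finset (Fin n)) ∪ {b, d}) \ {a, b}) = {c, d} := by
        ext x
        simp only [Finset.mem_sdiff, Finset.mem_union, Finset.mem_singleton, Finset.mem_insert]
        constructor
        · rintro ⟨(h3 | h3) | (h3 | h3), h4⟩
          · exact absurd (Or.inl h3) h4
          · exact Or.inl h3
          · exact absurd (Or.inr h3) h4
          · exact Or.inr h3
        · rintro (rfl | rfl)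
          · refine ⟨Or.inl (Or.inr rfl), ?_⟩
            rintro (h5 | h5)
            · exact hc h5
            · exact hcb h5
          · refine ⟨Or.inr (Or.inr rfl), ?_⟩
            rintro (h5 | h5)
            · exact hda h5
            · exact hdb h5
      have e3 : (({b, d} : Finset (Fin n)) \ {b}) = {d} := by
        ext x
        simp only [Finset.mem_sdiff, Finset.mem_singleton, Finset.mem_insert]
        constructor
        · rintro ⟨h3 | h3, h4⟩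
          · exact absurd h3 h4
          · exact h3
        · rintro rfl
          exact ⟨Or.inr rfl, hdb⟩
      have hlc : lS l i₀ c.castSucc = lS l i₀ a.castSucc := by
        rw [D1_lS, D1_lS]
        exact h1 c (by simp)
      have hld : lS l i₀ d.castSucc = lS l i₀ a.castSucc := by
        rw [D1_lS, D1_lS]
        exact h2 d (by simp)
      rw [e1, e2, e3, D1_xs2 𝔽 a c hac, D1_xs2 𝔽 b d hdb.symm, D1_xs2 𝔽 c d hdc.symm, D1_xs1,
        D1_xs1]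
      have e4 : (𝔽.X {a.castSucc} + 𝔽.X {c.castSucc} + 𝔽.X {a.castSucc, c.castSucc}) *
          (𝔽.X {b.castSucc} + 𝔽.X {d.castSucc} + 𝔽.X {b.castSucc, d.castSucc}) * r =
          𝔽.X {a.castSucc} * 𝔽.X {b.castSucc} * r +
          𝔽.X {a.castSucc} * (𝔽.X {d.castSucc} * r) +
          𝔽.X {b.castSucc, d.castSucc} * 𝔽.X {a.castSucc} * r +
          𝔽.X {b.castSucc} * (𝔽.X {c.castSucc} * r) +
          𝔽.X {c.castSucc} * (𝔽.X {d.castSucc} * r) +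
          𝔽.X {b.castSucc, d.castSucc} * (𝔽.X {c.castSucc} * r) +
          𝔽.X {a.castSucc, c.castSucc} * 𝔽.X {b.castSucc} * r +
          𝔽.X {a.castSucc, c.castSucc} * (𝔽.X {d.castSucc} * r) +
          𝔽.X {a.castSucc, c.castSucc} * 𝔽.X {b.castSucc, d.castSucc} * r := by ring
      have e5 : 𝔽.X {c.castSucc} + 𝔽.X {d.castSucc} + 𝔽.X {c.castSucc, d.castSucc} -
          𝔽.X {c.castSucc} - 𝔽.X {d.castSucc} = 𝔽.X {c.castSucc, d.castSucc} := by ring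
      rw [e4, e5]
      simp only [add_smul, map_add]
      rw [D1_pab 𝔽 hab' hl' hr, D1_pa 𝔽 hab' hl' hXd, D1_pbca 𝔽 hab' hl' hda' hdb' hr,
        D1_pb 𝔽 hab' hl' hXc, D1_p0 𝔽 hab' hl' hXcd, D1_pbc 𝔽 hab' hl' hda' hdb' hXc,
        D1_pacb 𝔽 hab' hl' hc' hcb' hr, D1_pac 𝔽 hab' hl' hc' hcb' hXd,
        D1_pacbd 𝔽 hab' hl' hc' hcb' hda' hdb' hdc' hlc hld hr]
      simp only [zero_add]

theorem Y2_one (𝔽 : Fk (lS l i₀) (lS g i₀)) (a b : Fin n) (hab : a ≠ b) (hl : l a = l b)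
    (r : 𝔽.R) (hr : r ∈ Sb 𝔽.X {a.castSucc, b.castSucc}) :
    𝔽.Y {a.castSucc, b.castSucc} ((xs 𝔽 {a, b} * r) • 𝔽.vac) = (2 * g a : ℚ) • (r • 𝔽.vac) := by
  have hab' := D1_cs_ne hab
  have hl' : lS l i₀ a.castSucc = lS l i₀ b.castSucc := by rw [D1_lS, D1_lS]; exact hl
  rw [D1_xs2 𝔽 a b hab, add_mul, add_mul, add_smul, add_smul, map_add, map_add,
    D1_pa 𝔽 hab' hl' hr, D1_pb 𝔽 hab' hl' hr, D1_pp 𝔽 hab' hl' hr, D1_gS, zero_add, zero_add]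

theorem Y2_mix (𝔽 : Fk (lS l i₀) (lS g i₀)) (a b : Fin n) (hab : a ≠ b) (hl : l a = l b)
    (C : Finset (Fin n)) (ha : a ∈ C) (hb : b ∉ C) (hC : C.card ≤ 2) (h1 : ∀ x ∈ C, l x = l a)
    (r : 𝔽.R) (hr : r ∈ Sb 𝔽.X {a.castSucc, b.castSucc}) :
    𝔽.Y {a.castSucc, b.castSucc} ((xs 𝔽 C * r) • 𝔽.vac) = 0 ∧
    (l a = l i₀ → 𝔽.Y {a.castSucc, b.castSucc} ((xs 𝔽 C * 𝔽.X (pr b) * r) • 𝔽.vac) =
      - ((∑ c ∈ C.erase a, 𝔽.X (pr c) * r) • 𝔽.vac)) := by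
  have hab' := D1_cs_ne hab
  have hl' : lS l i₀ a.castSucc = lS l i₀ b.castSucc := by rw [D1_lS, D1_lS]; exact hl
  have hla := D1_last_ne a
  have hlb := D1_last_ne b
  rcases D1_cases a C ha hC with rfl | ⟨c, hc, rfl⟩
  · rw [D1_xs1]
    refine ⟨D1_pa 𝔽 hab' hl' hr, fun _ => ?_⟩
    have e1 : 𝔽.X {a.castSucc} * 𝔽.X (pr b) * r =
        𝔽.X {b.castSucc, Fin.last n} * 𝔽.X {a.castSucc} * r := by
      rw [pr]
      ring
    rw [e1, D1_pbca 𝔽 hab' hl' hla hlb hr]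
    simp
  · have hcb : c ≠ b := by
      rintro rfl
      exact hb (by simp)
    have hc' := D1_cs_ne hc
    have hcb' := D1_cs_ne hcb
    have hXc : 𝔽.X {c.castSucc} * r ∈ Sb 𝔽.X {a.castSucc, b.castSucc} :=
      mul_mem (D1_X_mem 𝔽 (D1_dj2 hc' hcb')) hr
    rw [D1_xs2 𝔽 a c hc.symm]
    constructor
    · rw [add_mul, add_mul, add_smul, add_smul, map_add, map_add, D1_pa 𝔽 hab' hl' hr,
        D1_p0 𝔽 hab' hl' hXc, D1_pac 𝔽 hab' hl' hc' hcb' hr, add_zero, add_zero]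
    · intro hli
      have hlc : lS l i₀ c.castSucc = lS l i₀ a.castSucc := by
        rw [D1_lS, D1_lS]
        exact h1 c (by simp)
      have hld : lS l i₀ (Fin.last n) = lS l i₀ a.castSucc := by
        rw [D1_lS, D1_lSl]
        exact hli.symm
      have e1 : (𝔽.X {a.castSucc} + 𝔽.X {c.castSucc} + 𝔽.X {a.castSucc, c.castSucc}) *
          𝔽.X (pr b) * r = 𝔽.X {b.castSucc, Fin.last n} * 𝔽.X {a.castSucc} * r +
          𝔽.X {b.castSucc, Fin.last n} * (𝔽.X {c.castSucc} * r) +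
          𝔽.X {a.castSucc, c.castSucc} * 𝔽.X {b.castSucc, Fin.last n} * r := by
        rw [pr]
        ring
      have e2 : (({a, c} : Finset (Fin n)).erase a) = {c} := by
        rw [Finset.erase_insert (by simpa using hc.symm)]
      rw [e1, e2, Finset.sum_singleton, add_smul, add_smul, map_add, map_add,
        D1_pbca 𝔽 hab' hl' hla hlb hr, D1_pbc 𝔽 hab' hl' hla hlb hXc,
        D1_pacbd 𝔽 hab' hl' hc' hcb' hla hlb (D1_last_ne c) hlc hld hr, zero_add, zero_add, pr]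

theorem Y2_unc (𝔽 : Fk (lS l i₀) (lS g i₀)) (a b : Fin n) (hab : a ≠ b) (hl : l a = l b)
    (r : 𝔽.R) (hr : r ∈ Sb 𝔽.X {a.castSucc, b.castSucc}) :
    𝔽.Y {a.castSucc, b.castSucc} (r • 𝔽.vac) = 0 ∧
      𝔽.Y {a.castSucc, b.castSucc} ((𝔽.X (pr a) * r) • 𝔽.vac) = 0 ∧
      𝔽.Y {a.castSucc, b.castSucc} ((𝔽.X (pr b) * r) • 𝔽.vac) = 0 := by
  have hab' := D1_cs_ne hab
  have hl' : lS l i₀ a.castSucc = lS l i₀ b.castSucc := by rw [D1_lS, D1_lS]; exact hl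
  exact ⟨D1_p0 𝔽 hab' hl' hr, D1_pac 𝔽 hab' hl' (D1_last_ne a) (D1_last_ne b) hr,
    D1_pbc 𝔽 hab' hl' (D1_last_ne a) (D1_last_ne b) hr⟩

theorem pos_num (𝔽 : Fk (lS l i₀) (lS g i₀)) {K : Type} [Fintype K] (m : K → ℤ)
    (τ : K → Fin (D + 1) → Finset (Fin n)) (hτ : ∀ i, Atm l (τ i)) (r : K → 𝔽.R)
    (h1 : ∀ a : Fin n, 𝔽.Y {a.castSucc} (∑ i, m i • ((num 𝔽 (τ i) * r i) • 𝔽.vac)) = 0)
    (h2 : ∀ a b : Fin n, a ≠ b → l a = l b →
      𝔽.Y {a.castSucc, b.castSucc} (∑ i, m i • ((num 𝔽 (τ i) * r i) • 𝔽.vac)) = 0) :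
    ∑ i, m i • ((num 𝔽 (τ i) * r i) • 𝔽.vac) = 0 := by
  apply 𝔽.pos
  set c := ∑ i, m i • ((num 𝔽 (τ i) * r i) • 𝔽.vac) with hc
  have h3 : ∀ i, 𝔽.B.flip c ((num 𝔽 (τ i) * r i) • 𝔽.vac) = 0 := by
    intro i
    have e1 : num 𝔽 (τ i) = (∑ t ∈ (τ i 0).powerset, if t = ∅ then 0 else 𝔽.X (bl t)) *
        ∏ e : Fin D, ∑ t ∈ (τ i e.succ).powerset, if t = ∅ then 0 else 𝔽.X (bl t) := by
      unfold num
      rw [Fin.prod_univ_succ]
    rw [e1, mul_assoc, Finset.sum_mul, Finset.sum_smul, map_sum]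
    apply Finset.sum_eq_zero
    intro t ht
    rw [Finset.mem_powerset] at ht
    by_cases h0 : t = ∅
    · rw [if_pos h0, zero_mul, zero_smul, map_zero]
    · rw [if_neg h0, mul_smul, LinearMap.flip_apply, 𝔽.adj]
      have h4 : 𝔽.Y (bl t) c = 0 := by
        obtain ⟨a, ha⟩ := Finset.nonempty_iff_ne_empty.2 h0
        have h5 : t.card ≤ 2 := (Finset.card_le_card ht).trans ((hτ i).2 0)
        rcases D1_cases a t ha h5 with rfl | ⟨b, hb, rfl⟩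
        · rw [D1_bl1]
          exact h1 a
        · rw [D1_bl2]
          refine h2 a b hb.symm ?_
          exact ((hτ i).1.2 0).2 a (ht (by simp)) b (ht (by simp))
      rw [h4, map_zero]
  have h4 : 𝔽.B.flip c c = 0 := by
    nth_rewrite 2 [hc]
    rw [map_sum]
    apply Finset.sum_eq_zero
    intro i _
    rw [map_zsmul, h3, smul_zero]
  exact h4

end Pool.Agent.LibHE77
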