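import Pool.Agent.LibHE77.D1

/-!
[HE77 D2] the homomorphisms `W a`, `E a b` act on the vectors as `2 Y_a`, `- Y_(ab)`. For every `τ, s` with `Atm l τ` the class `W a (Φ τ s)` (`E a b (Φ τ s)`) is a combination of classes `Φ' τ' s'` with `Atm l τ'` (terms with an empty block are zero: `Z`) and the vectors of this combination are given by `Y`. Proof: the cases of `Ops`. Write `r` for the product
of the `xs 𝔽 (τ i)` of the other blocks, in `Sb 𝔽.X {a, b}`. `W1`: `2 • (dl e τ)`, `Y1_cov`; the fixed coordinates: `ajn` of `dl e τ` and `fun x => if x ∈ τ e then o' x else c x (s x)` is `ajn` of `τ, s` (the values at `o'` are zero: `ho`; `hval`), and `ajn 𝔽 val τ s` is in `Sb 𝔽.X {a}` if `a` is in a block. `W0`: `Y1_unc` (in `ajn` the term `z = a` is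
`val * X (pr a)`, the others are in `Sb`). `E1`: `Y2_two`; the three `ajn` are all equal to `ajn 𝔽 val τ s`. `E2`: `Y2_one`, coefficient `- 2 * g a`. `E3` (`a` in the block `e`, `b` in no block): the numbers `r - r = 0` (`Y2_mix`, first part); the fixed coordinates: the first term has in addition the coordinates in `(τ e).erase a` with the value
`val b (s b)` (`ht`: `val a (t a b s) = val b s`), so the difference is `r * val b (s b) * ∑ c ∈ (τ e).erase a, X (pr c)` if `l a = l i₀` and `0` otherwise; this is `- Y_(ab)` by `Y2_mix` (second part, for the term `z = b` of `ajn`). `E4`: the same with `a`, `b` exchanged (`{a, b} = {b, a}`). `E0`: `Y2_unc`. If `l a ≠ l b` nothing is claimed.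
-/

open scoped Classical

namespace Pool.Agent.LibHE77

open Pool.Agent.LibHL77 (Ops Atm Val)

variable {n : ℕ} {Lb : Type} {l : Fin n → Lb} {g : Fin n → ℕ} {i₀ : Fin n} {D : ℕ}
  {A A' : Fin n → Type} {o' : ∀ a, A' a} {c : ∀ a, A a → A' a} {t : ∀ a b, A b → A a}
  {G G' : Type} [AddCommGroup G] [AddCommGroup G']
  {Φ : (Fin (D + 1) → Finset (Fin n)) → (∀ a, A a) → G}
  {Φ' : (Fin D → Finset (Fin n)) → (∀ a, A' a) → G'} {W : Fin n → G →+ G'}
  {E : Fin n → Fin n → G →+ G'}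

open Pool.Agent.LibHL77 (dl)

theorem D2_num (𝔽 : Fk (lS l i₀) (lS g i₀)) {D : ℕ} (τ : Fin D → Finset (Fin n)) :
    num 𝔽 τ = ∏ e, xs 𝔽 (τ e) := rfl

theorem D2_num_succ (𝔽 : Fk (lS l i₀) (lS g i₀)) {D : ℕ} (τ : Fin (D + 1) → Finset (Fin n))
    (e : Fin (D + 1)) : num 𝔽 τ = xs 𝔽 (τ e) * num 𝔽 (dl e τ) := by
  rw [D2_num, D2_num, Fin.prod_univ_succAbove _ e]
  rfl

theorem D2_prod {R : Type} [CommRing R] {D : ℕ} (f : Fin (D + 1) → R) (p : Fin (D + 1)) :
    ∏ i : Fin D, f (p.succAbove i) = ∏ j ∈ Finset.univ.erase p, f j := by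
  have h : (Finset.univ.erase p : Finset (Fin (D + 1))) = Finset.univ.map p.succAboveEmb := by
    ext j
    simp only [Finset.mem_erase, Finset.mem_univ, and_true, Finset.mem_map, true_and,
      Fin.coe_succAboveEmb]
    rw [Fin.exists_succAbove_eq_iff]
  rw [h, Finset.prod_map]
  rfl

/-- a combination of classes with blocks with one or two elements which gives the class `x` and the vectors
`u`, `v` -/
def Gd (𝔽 : Fk (lS l i₀) (lS g i₀)) {D : ℕ} (Φ' : (Fin D → Finset (Fin n)) → (∀ a, A' a) → G')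
    (val' : ∀ a, A' a → ℚ) (x : G') (u v : 𝔽.F) : Prop :=
  ∃ (K : Type) (_ : Fintype K) (m : K → ℤ) (τ' : K → Fin D → Finset (Fin n))
      (s' : K → ∀ a, A' a), (∀ i, Atm l (τ' i)) ∧ x = ∑ i, m i • Φ' (τ' i) (s' i) ∧
      ∑ i, m i • (num 𝔽 (τ' i) • 𝔽.vac) = u ∧
      ∑ i, m i • ((num 𝔽 (τ' i) * ajn 𝔽 val' (τ' i) (s' i)) • 𝔽.vac) = v

theorem Gd.zero (𝔽 : Fk (lS l i₀) (lS g i₀)) {D : ℕ}
    (Φ' : (Fin D → Finset (Fin n)) → (∀ a, A' a) → G') (val' : ∀ a, A' a → ℚ) :
    Gd 𝔽 Φ' val' 0 0 0 :=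
  ⟨Empty, inferInstance, fun i => i.elim, fun i => i.elim, fun i => i.elim, fun i => i.elim,
    by simp, by simp, by simp⟩

theorem Gd.single (𝔽 : Fk (lS l i₀) (lS g i₀)) {D : ℕ}
    (Φ' : (Fin D → Finset (Fin n)) → (∀ a, A' a) → G') (val' : ∀ a, A' a → ℚ)
    (hZ : ∀ τ s, (∃ e, τ e = ∅) → Φ' τ s = 0) (τ' : Fin D → Finset (Fin n)) (s' : ∀ a, A' a)
    (hA : (∀ e, (τ' e).Nonempty) → Atm l τ') :
    Gd 𝔽 Φ' val' (Φ' τ' s') (num 𝔽 τ' • 𝔽.vac) ((num 𝔽 τ' * ajn 𝔽 val' τ' s') • 𝔽.vac) := by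
  by_cases h : ∀ e, (τ' e).Nonempty
  · exact ⟨Unit, inferInstance, fun _ => 1, fun _ => τ', fun _ => s', fun _ => hA h, by simp,
      by simp, by simp⟩
  · push Not at h
    obtain ⟨e, he⟩ := h
    have h0 : num 𝔽 τ' = 0 := by
      rw [D2_num]
      apply Finset.prod_eq_zero (Finset.mem_univ e)
      rw [he, D1_xs0]
    rw [hZ τ' s' ⟨e, he⟩, h0, zero_smul, zero_mul, zero_smul]
    exact Gd.zero 𝔽 Φ' val'

theorem Gd.add {𝔽 : Fk (lS l i₀) (lS g i₀)} {D : ℕ}
    {Φ' : (Fin D → Finset (Fin n)) → (∀ a, A' a) → G'} {val' : ∀ a, A' a → ℚ} {x y : G'}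
    {u v u' v' : 𝔽.F} (h : Gd 𝔽 Φ' val' x u v) (h' : Gd 𝔽 Φ' val' y u' v') :
    Gd 𝔽 Φ' val' (x + y) (u + u') (v + v') := by
  obtain ⟨K, _, m, τ, s, h1, h2, h3, h4⟩ := h
  obtain ⟨K', _, m', τ', s', h1', h2', h3', h4'⟩ := h'
  refine ⟨K ⊕ K', inferInstance, Sum.elim m m', Sum.elim τ τ', Sum.elim s s', ?_, ?_, ?_, ?_⟩
  · rintro (i | i)
    · exact h1 i
    · exact h1' i
  · rw [Fintype.sum_sum_type, h2, h2']
    rfl
  · rw [Fintype.sum_sum_type, ← h3, ← h3']
    rfl
  · rw [Fintype.sum_sum_type, ← h4, ← h4']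
    rfl

theorem Gd.zsmul {𝔽 : Fk (lS l i₀) (lS g i₀)} {D : ℕ}
    {Φ' : (Fin D → Finset (Fin n)) → (∀ a, A' a) → G'} {val' : ∀ a, A' a → ℚ} {x : G'}
    {u v : 𝔽.F} (h : Gd 𝔽 Φ' val' x u v) (k : ℤ) :
    Gd 𝔽 Φ' val' (k • x) (k • u) (k • v) := by
  obtain ⟨K, _, m, τ, s, h1, h2, h3, h4⟩ := h
  refine ⟨K, inferInstance, fun i => k * m i, τ, s, h1, ?_, ?_, ?_⟩
  · rw [h2, Finset.smul_sum]
    exact Finset.sum_congr rfl fun i _ => by rw [mul_smul]
  · rw [← h3, Finset.smul_sum]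
    exact Finset.sum_congr rfl fun i _ => by rw [mul_smul]
  · rw [← h4, Finset.smul_sum]
    exact Finset.sum_congr rfl fun i _ => by rw [mul_smul]

theorem Gd.sub {𝔽 : Fk (lS l i₀) (lS g i₀)} {D : ℕ}
    {Φ' : (Fin D → Finset (Fin n)) → (∀ a, A' a) → G'} {val' : ∀ a, A' a → ℚ} {x y : G'}
    {u v u' v' : 𝔽.F} (h : Gd 𝔽 Φ' val' x u v) (h' : Gd 𝔽 Φ' val' y u' v') :
    Gd 𝔽 Φ' val' (x - y) (u - u') (v - v') := by
  have := h.add (h'.zsmul (-1))
  simpa only [neg_smul, one_smul, ← sub_eq_add_neg] using this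

theorem D2_ajn_eq (𝔽 : Fk (lS l i₀) (lS g i₀)) {D D' : ℕ} {val : ∀ a, A a → ℚ}
    {val' : ∀ a, A' a → ℚ} (τ : Fin D → Finset (Fin n)) (τ' : Fin D' → Finset (Fin n))
    (s : ∀ a, A a) (s' : ∀ a, A' a)
    (h1 : ∀ z, (∀ e, z ∉ τ e) → (∀ e, z ∉ τ' e) ∧ val' z (s' z) = val z (s z))
    (h2 : ∀ z, ¬ (∀ e, z ∉ τ e) → (∀ e, z ∉ τ' e) → val' z (s' z) = 0) :
    ajn 𝔽 val' τ' s' = ajn 𝔽 val τ s := by
  unfold ajn
  refine Finset.sum_congr rfl fun z _ => ?_
  by_cases hz : ∀ e, z ∉ τ e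
  · obtain ⟨h3, h4⟩ := h1 z hz
    by_cases hl : l z = l i₀
    · rw [if_pos ⟨h3, hl⟩, if_pos ⟨hz, hl⟩, h4]
    · rw [if_neg fun h => hl h.2, if_neg fun h => hl h.2]
  · by_cases h3 : (∀ e, z ∉ τ' e) ∧ l z = l i₀
    · rw [if_pos h3, h2 z hz h3.1, map_zero, zero_mul, if_neg fun h => hz h.1]
    · rw [if_neg h3, if_neg fun h => hz h.1]

theorem D2_alg_mem (𝔽 : Fk (lS l i₀) (lS g i₀)) (q : ℚ) (s : Finset (Fin (n + 1))) :
    algebraMap ℚ 𝔽.R q ∈ Sb 𝔽.X s := Subalgebra.algebraMap_mem _ q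

theorem D2_xs_mem (𝔽 : Fk (lS l i₀) (lS g i₀)) (C : Finset (Fin n)) (s : Finset (Fin n))
    (h : Disjoint C s) : xs 𝔽 C ∈ Sb 𝔽.X (s.map Fin.castSuccEmb) := by
  unfold xs
  refine Subalgebra.sum_mem _ fun t ht => ?_
  by_cases h0 : t = ∅
  · rw [if_pos h0]
    exact Subalgebra.zero_mem _
  · rw [if_neg h0]
    apply D1_X_mem
    unfold bl
    rw [Finset.disjoint_map]
    exact Finset.disjoint_of_subset_left (Finset.mem_powerset.1 ht) h

theorem D2_map1 (a : Fin n) : ({a} : Finset (Fin n)).map Fin.castSuccEmb = {a.castSucc} := by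
  simp

theorem D2_map2 (a b : Fin n) :
    ({a, b} : Finset (Fin n)).map Fin.castSuccEmb = {a.castSucc, b.castSucc} := by
  simp [Finset.map_insert]

theorem D2_num_mem (𝔽 : Fk (lS l i₀) (lS g i₀)) {D : ℕ} (τ : Fin D → Finset (Fin n))
    (s : Finset (Fin n)) (h : ∀ e, Disjoint (τ e) s) :
    num 𝔽 τ ∈ Sb 𝔽.X (s.map Fin.castSuccEmb) := by
  rw [D2_num]
  exact Subalgebra.prod_mem _ fun e _ => D2_xs_mem 𝔽 _ _ (h e)

theorem D2_pr_mem (𝔽 : Fk (lS l i₀) (lS g i₀)) (z : Fin n) (s : Finset (Fin n)) (h : z ∉ s) :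
    𝔽.X (pr z) ∈ Sb 𝔽.X (s.map Fin.castSuccEmb) := by
  apply D1_X_mem
  rw [pr, Finset.disjoint_left]
  intro x hx hx'
  rw [Finset.mem_map] at hx'
  obtain ⟨y, hy, rfl⟩ := hx'
  rw [Finset.mem_insert, Finset.mem_singleton] at hx
  rcases hx with hx | hx
  · exact h (by rwa [Fin.castSucc_injective n hx] at hy)
  · exact (D1_last_ne y) hx.symm

/-- the part of `ajn` which comes from the coordinates which are not in `s` -/
noncomputable def ajr (𝔽 : Fk (lS l i₀) (lS g i₀)) {D : ℕ} (val : ∀ a, A a → ℚ)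
    (τ : Fin D → Finset (Fin n)) (σ : ∀ a, A a) (s : Finset (Fin n)) : 𝔽.R :=
  ∑ z ∈ Finset.univ.filter (fun z => z ∉ s), if (∀ e, z ∉ τ e) ∧ l z = l i₀ then
    algebraMap ℚ 𝔽.R (val z (σ z)) * 𝔽.X (pr z) else 0

theorem D2_ajr_mem (𝔽 : Fk (lS l i₀) (lS g i₀)) {D : ℕ} (val : ∀ a, A a → ℚ)
    (τ : Fin D → Finset (Fin n)) (σ : ∀ a, A a) (s : Finset (Fin n)) :
    ajr 𝔽 val τ σ s ∈ Sb 𝔽.X (s.map Fin.castSuccEmb) := by
  unfold ajr
  refine Subalgebra.sum_mem _ fun z hz => ?_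
  split_ifs
  · exact mul_mem (D2_alg_mem 𝔽 _ _) (D2_pr_mem 𝔽 z s (Finset.mem_filter.1 hz).2)
  · exact Subalgebra.zero_mem _

theorem D2_ajn_split (𝔽 : Fk (lS l i₀) (lS g i₀)) {D : ℕ} (val : ∀ a, A a → ℚ)
    (τ : Fin D → Finset (Fin n)) (σ : ∀ a, A a) (s : Finset (Fin n)) :
    ajn 𝔽 val τ σ = ajr 𝔽 val τ σ s + ∑ z ∈ s, if (∀ e, z ∉ τ e) ∧ l z = l i₀ then
      algebraMap ℚ 𝔽.R (val z (σ z)) * 𝔽.X (pr z) else 0 := by
  unfold ajn ajr
  rw [← Finset.sum_filter_add_sum_filter_not Finset.univ (fun z => z ∉ s)]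
  congr 1
  refine Finset.sum_congr ?_ fun _ _ => rfl
  ext z
  simp

theorem D2_ajn_mem (𝔽 : Fk (lS l i₀) (lS g i₀)) {D : ℕ} (val : ∀ a, A a → ℚ)
    (τ : Fin D → Finset (Fin n)) (σ : ∀ a, A a) (s : Finset (Fin n))
    (h : ∀ z ∈ s, ¬ ∀ e, z ∉ τ e) : ajn 𝔽 val τ σ ∈ Sb 𝔽.X (s.map Fin.castSuccEmb) := by
  rw [D2_ajn_split 𝔽 val τ σ s]
  refine add_mem (D2_ajr_mem 𝔽 val τ σ s) ?_
  refine Subalgebra.sum_mem _ fun z hz => ?_
  rw [if_neg fun h' => h z hz h'.1]
  exact Subalgebra.zero_mem _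

theorem D2_atm_dl {D : ℕ} {τ : Fin (D + 1) → Finset (Fin n)} (hτ : Atm l τ) (e : Fin (D + 1)) :
    Atm l (dl e τ) :=
  ⟨⟨fun _ _ hi => hτ.1.1 _ _ fun h => hi (Fin.succAbove_right_injective h), fun _ => hτ.1.2 _⟩,
    fun _ => hτ.2 _⟩

theorem D2_dl_disj {D : ℕ} {τ : Fin (D + 1) → Finset (Fin n)} (hτ : Atm l τ) (e : Fin (D + 1))
    (i : Fin D) : Disjoint (dl e τ i) (τ e) := hτ.1.1 _ _ (Fin.succAbove_ne e i)

theorem D2_atm_of {D : ℕ} (f : Fin (D + 1) → Finset (Fin n)) (p : Fin (D + 1))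
    (h1 : ∀ j j', j ≠ p → j' ≠ p → j ≠ j' → Disjoint (f j) (f j'))
    (h2 : ∀ j, j ≠ p → ∀ x ∈ f j, ∀ y ∈ f j, l x = l y) (h3 : ∀ j, j ≠ p → (f j).card ≤ 2)
    (h4 : ∀ i, (f (p.succAbove i)).Nonempty) : Atm l (fun i => f (p.succAbove i)) :=
  ⟨⟨fun _ _ hi => h1 _ _ (Fin.succAbove_ne p _) (Fin.succAbove_ne p _)
      fun h => hi (Fin.succAbove_right_injective h),
    fun i => ⟨h4 i, h2 _ (Fin.succAbove_ne p i)⟩⟩, fun i => h3 _ (Fin.succAbove_ne p i)⟩

theorem D2_num_of (𝔽 : Fk (lS l i₀) (lS g i₀)) {D : ℕ} (f : Fin (D + 1) → Finset (Fin n))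
    (p q : Fin (D + 1)) (hpq : q ≠ p) : num 𝔽 (fun i => f (p.succAbove i)) =
      xs 𝔽 (f q) * ∏ j ∈ (Finset.univ.erase p).erase q, xs 𝔽 (f j) := by
  rw [D2_num, D2_prod (fun j => xs 𝔽 (f j)) p]
  exact (Finset.mul_prod_erase (Finset.univ.erase p) (fun j => xs 𝔽 (f j))
    (Finset.mem_erase.2 ⟨hpq, Finset.mem_univ q⟩)).symm

theorem D2_dl_not {D : ℕ} {τ : Fin (D + 1) → Finset (Fin n)} {e : Fin (D + 1)} {z : Fin n}
    (h0 : z ∉ τ e) : (∀ i, z ∉ dl e τ i) ↔ ∀ j, z ∉ τ j := by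
  constructor
  · intro h j
    by_cases hj : j = e
    · rw [hj]; exact h0
    · obtain ⟨i, rfl⟩ := Fin.exists_succAbove_eq hj
      exact h i
  · intro h i
    exact h _

theorem act_W (𝔽 : Fk (lS l i₀) (lS g i₀))
    (h : Ops l (fun a => (g a : ℤ)) o' c t Φ Φ' W E) {val : ∀ a, A a → ℚ} {val' : ∀ a, A' a → ℚ}
    (hval : ∀ a s, val' a (c a s) = val a s) (ho : ∀ a, val' a (o' a) = 0)
    (τ : Fin (D + 1) → Finset (Fin n)) (s : ∀ a, A a) (hτ : Atm l τ) (a : Fin n) :
    ∃ (K : Type) (_ : Fintype K) (m : K → ℤ) (τ' : K → Fin D → Finset (Fin n))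
      (s' : K → ∀ a, A' a), (∀ i, Atm l (τ' i)) ∧ W a (Φ τ s) = ∑ i, m i • Φ' (τ' i) (s' i) ∧
      ∑ i, m i • (num 𝔽 (τ' i) • 𝔽.vac) =
        (2 : ℤ) • 𝔽.Y {a.castSucc} (num 𝔽 τ • 𝔽.vac) ∧
      ∑ i, m i • ((num 𝔽 (τ' i) * ajn 𝔽 val' (τ' i) (s' i)) • 𝔽.vac) =
        (2 : ℤ) • 𝔽.Y {a.castSucc} ((num 𝔽 τ * ajn 𝔽 val τ s) • 𝔽.vac) := by
  change Gd 𝔽 Φ' val' (W a (Φ τ s)) ((2 : ℤ) • 𝔽.Y {a.castSucc} (num 𝔽 τ • 𝔽.vac))
    ((2 : ℤ) • 𝔽.Y {a.castSucc} ((num 𝔽 τ * ajn 𝔽 val τ s) • 𝔽.vac))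
  by_cases ha : ∀ e, a ∉ τ e
  · rw [h.W0 a τ s hτ.1 ha]
    have h1 : num 𝔽 τ ∈ Sb 𝔽.X {a.castSucc} := by
      rw [← D2_map1]
      exact D2_num_mem 𝔽 τ {a} fun e => Finset.disjoint_singleton_right.2 (ha e)
    have h2 : ajr 𝔽 val τ s {a} ∈ Sb 𝔽.X {a.castSucc} := by
      rw [← D2_map1]
      exact D2_ajr_mem 𝔽 val τ s {a}
    have h3 : 𝔽.Y {a.castSucc} ((num 𝔽 τ * ajn 𝔽 val τ s) • 𝔽.vac) = 0 := by
      rw [D2_ajn_split 𝔽 val τ s {a}, Finset.sum_singleton, mul_add, add_smul, map_add,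
        (Y1_unc 𝔽 a _ (mul_mem h1 h2)).1, zero_add]
      by_cases hla : l a = l i₀
      · rw [if_pos ⟨ha, hla⟩]
        have e1 : num 𝔽 τ * (algebraMap ℚ 𝔽.R (val a (s a)) * 𝔽.X (pr a)) =
            𝔽.X (pr a) * (algebraMap ℚ 𝔽.R (val a (s a)) * num 𝔽 τ) := by ring
        rw [e1]
        exact (Y1_unc 𝔽 a _ (mul_mem (D2_alg_mem 𝔽 _ _) h1)).2
      · rw [if_neg fun h' => hla h'.2, mul_zero, zero_smul, map_zero]
    rw [(Y1_unc 𝔽 a _ h1).1, h3, smul_zero]
    exact Gd.zero 𝔽 Φ' val'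
  · push Not at ha
    obtain ⟨e, he⟩ := ha
    rw [h.W1 a e τ s hτ.1 he]
    have h1 : num 𝔽 (dl e τ) ∈ Sb 𝔽.X {a.castSucc} := by
      rw [← D2_map1]
      refine D2_num_mem 𝔽 _ {a} fun i => Finset.disjoint_singleton_right.2 fun h' => ?_
      exact Finset.disjoint_left.1 (D2_dl_disj hτ e i) h' he
    have h2 : ajn 𝔽 val τ s ∈ Sb 𝔽.X {a.castSucc} := by
      rw [← D2_map1]
      refine D2_ajn_mem 𝔽 val τ s {a} fun z hz h' => ?_
      rw [Finset.mem_singleton.1 hz] at h'
      exact h' e he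
    have h3 : ajn 𝔽 val' (dl e τ) (fun x => if x ∈ τ e then o' x else c x (s x)) =
        ajn 𝔽 val τ s := by
      refine D2_ajn_eq 𝔽 τ (dl e τ) s _ (fun z hz => ⟨fun i => hz _, ?_⟩) fun z hz h' => ?_
      · rw [if_neg (hz e), hval]
      · by_cases hze : z ∈ τ e
        · rw [if_pos hze, ho]
        · exact absurd ((D2_dl_not hze).1 h') hz
    rw [D2_num_succ 𝔽 τ e, Y1_cov 𝔽 a (τ e) he (hτ.2 e) _ h1, mul_assoc,
      Y1_cov 𝔽 a (τ e) he (hτ.2 e) _ (mul_mem h1 h2), ← h3]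
    exact (Gd.single 𝔽 Φ' val' h.Z (dl e τ) _ fun _ => D2_atm_dl hτ e).zsmul 2

/-- the vectors in the case of one block which contains `a` and not `b` -/
theorem D2_mix (𝔽 : Fk (lS l i₀) (lS g i₀)) {D : ℕ} {val : ∀ a, A a → ℚ}
    {val' : ∀ a, A' a → ℚ}
    (hval : ∀ a s, val' a (c a s) = val a s) (ho : ∀ a, val' a (o' a) = 0)
    (ht : ∀ a b s, l a = l b → val a (t a b s) = val b s)
    (τ : Fin (D + 1) → Finset (Fin n)) (s : ∀ a, A a) (hτ : Atm l τ) (a b : Fin n)
    (hab : a ≠ b) (hl : l a = l b) (e : Fin (D + 1)) (ha : a ∈ τ e) (hb : ∀ i, b ∉ τ i) :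
    𝔽.Y {a.castSucc, b.castSucc} (num 𝔽 τ • 𝔽.vac) = 0 ∧
    (num 𝔽 (dl e τ) * ajn 𝔽 val' (dl e τ) (fun x => if x = a ∨ x = b then o' x else
        if x ∈ τ e then c x (t x b (s b)) else c x (s x))) • 𝔽.vac -
      (num 𝔽 (dl e τ) * ajn 𝔽 val' (dl e τ) (fun x => if x ∈ τ e ∨ x = b then o' x else
        c x (s x))) • 𝔽.vac =
      - 𝔽.Y {a.castSucc, b.castSucc} ((num 𝔽 τ * ajn 𝔽 val τ s) • 𝔽.vac) := by
  have h1 : num 𝔽 (dl e τ) ∈ Sb 𝔽.X {a.castSucc, b.castSucc} := by
    rw [← D2_map2]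
    refine D2_num_mem 𝔽 _ {a, b} fun i => ?_
    rw [Finset.disjoint_insert_right, Finset.disjoint_singleton_right]
    refine ⟨fun h' => ?_, hb _⟩
    exact Finset.disjoint_left.1 (D2_dl_disj hτ e i) h' ha
  have hCl : ∀ x ∈ τ e, l x = l a := fun x hx => (hτ.1.2 e).2 x hx a ha
  have hmix := Y2_mix 𝔽 a b hab hl (τ e) ha (hb e) (hτ.2 e) hCl
  refine ⟨?_, ?_⟩
  · rw [D2_num_succ 𝔽 τ e]
    exact (hmix _ h1).1
  -- the part without `b`
  have h2 : ajr 𝔽 val τ s {b} ∈ Sb 𝔽.X {a.castSucc, b.castSucc} := by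
    have h3 : ajr 𝔽 val τ s {b} = ajr 𝔽 val τ s {a, b} := by
      unfold ajr
      symm
      apply Finset.sum_subset
      · intro z hz
        rw [Finset.mem_filter] at hz ⊢
        refine ⟨Finset.mem_univ _, fun h' => hz.2 ?_⟩
        rw [Finset.mem_singleton.1 h']
        simp
      · intro z hz hz'
        rw [Finset.mem_filter] at hz hz'
        have h4 : z = a := by
          by_contra hza
          apply hz'
          refine ⟨Finset.mem_univ _, ?_⟩
          rw [Finset.mem_insert]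
          rintro (h5 | h5)
          · exact hza h5
          · exact hz.2 h5
        rw [if_neg]
        rintro ⟨h5, -⟩
        rw [h4] at h5
        exact h5 e ha
    rw [h3, ← D2_map2]
    exact D2_ajr_mem 𝔽 val τ s {a, b}
  have e2 : ajn 𝔽 val' (dl e τ) (fun x => if x ∈ τ e ∨ x = b then o' x else c x (s x)) =
      ajr 𝔽 val τ s {b} := by
    rw [D2_ajn_split 𝔽 val' (dl e τ) _ {b}, Finset.sum_singleton]
    simp only [or_true, if_true, ho, map_zero, zero_mul, ite_self, add_zero]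
    unfold ajr
    refine Finset.sum_congr rfl fun z hz => ?_
    have hzb : z ≠ b := fun h' => (Finset.mem_filter.1 hz).2 (by rw [h']; simp)
    by_cases hze : z ∈ τ e
    · simp only [hze, true_or, if_true, ho, map_zero, zero_mul, ite_self]
      rw [if_neg fun h' => h'.1 e hze]
    · simp only [hze, hzb, or_self, if_false, hval]
      congr 1
      rw [D2_dl_not hze]
  have e3 : ajn 𝔽 val' (dl e τ) (fun x => if x = a ∨ x = b then o' x else
        if x ∈ τ e then c x (t x b (s b)) else c x (s x)) =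
      ajr 𝔽 val τ s {b} + ∑ z ∈ (τ e).erase a, if l z = l i₀ then
        algebraMap ℚ 𝔽.R (val b (s b)) * 𝔽.X (pr z) else 0 := by
    have e4 : (∑ z ∈ (τ e).erase a, if l z = l i₀ then
        algebraMap ℚ 𝔽.R (val b (s b)) * 𝔽.X (pr z) else 0) = ∑ z, if z ∈ (τ e).erase a then
        (if l z = l i₀ then algebraMap ℚ 𝔽.R (val b (s b)) * 𝔽.X (pr z) else 0) else 0 := by
      rw [Finset.sum_ite_mem, Finset.univ_inter]
    unfold ajn ajr
    rw [e4, Finset.sum_filter, ← Finset.sum_add_distrib]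
    refine Finset.sum_congr rfl fun z _ => ?_
    by_cases hzb : z = b
    · subst hzb
      have h8 : z ∉ (τ e).erase a := fun h' => hb e (Finset.mem_erase.1 h').2
      have h9 : ¬ (z ∉ ({z} : Finset (Fin n))) := fun h' => h' (Finset.mem_singleton_self z)
      rw [if_neg h8, if_neg h9]
      simp only [or_true, if_true, ho, map_zero, zero_mul, ite_self, add_zero]
    have hzb' : z ∉ ({b} : Finset (Fin n)) := fun h' => hzb (Finset.mem_singleton.1 h')
    by_cases hza : z = a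
    · subst hza
      have h8 : z ∉ (τ e).erase z := fun h' => (Finset.mem_erase.1 h').1 rfl
      have h9 : ¬ ((∀ i, z ∉ τ i) ∧ l z = l i₀) := fun h' => h'.1 e ha
      rw [if_neg h8, if_pos hzb', if_neg h9]
      simp only [true_or, if_true, ho, map_zero, zero_mul, ite_self, add_zero]
    by_cases hze : z ∈ τ e
    · have h5 : ∀ i, z ∉ dl e τ i := fun i h' =>
        Finset.disjoint_left.1 (D2_dl_disj hτ e i) h' hze
      have h6 : l z = l b := (hCl z hze).trans hl
      have h9 : ¬ ((∀ i, z ∉ τ i) ∧ l z = l i₀) := fun h' => h'.1 e hze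
      rw [if_pos (Finset.mem_erase.2 ⟨hza, hze⟩), if_pos hzb', if_neg h9, zero_add]
      simp only [hza, hzb, or_self, if_false, hze, if_true, hval, ht z b _ h6]
      by_cases h7 : l z = l i₀
      · rw [if_pos ⟨h5, h7⟩, if_pos h7]
      · rw [if_neg fun h' => h7 h'.2, if_neg h7]
    · have h8 : z ∉ (τ e).erase a := fun h' => hze (Finset.mem_erase.1 h').2
      rw [if_neg h8, if_pos hzb', add_zero]
      simp only [hze, hzb, hza, or_self, if_false, hval]
      congr 1
      rw [D2_dl_not hze]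
  rw [e2, e3, mul_add, add_smul, add_sub_cancel_left, D2_num_succ 𝔽 τ e,
    D2_ajn_split 𝔽 val τ s {b}, Finset.sum_singleton, mul_add, add_smul, map_add]
  rw [mul_assoc (xs 𝔽 (τ e)), (hmix _ (mul_mem h1 h2)).1, zero_add]
  by_cases hli : l b = l i₀
  · rw [if_pos ⟨hb, hli⟩]
    have e5 : xs 𝔽 (τ e) * num 𝔽 (dl e τ) * (algebraMap ℚ 𝔽.R (val b (s b)) * 𝔽.X (pr b)) =
        xs 𝔽 (τ e) * 𝔽.X (pr b) * (algebraMap ℚ 𝔽.R (val b (s b)) * num 𝔽 (dl e τ)) := by ring
    rw [e5, (hmix _ (mul_mem (D2_alg_mem 𝔽 _ _) h1)).2 (hl.trans hli), neg_neg]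
    congr 1
    rw [Finset.mul_sum]
    refine Finset.sum_congr rfl fun z hz => ?_
    have h7 : l z = l i₀ := (hCl z (Finset.mem_erase.1 hz).2).trans (hl.trans hli)
    rw [if_pos h7]
    ring
  · rw [if_neg fun h' => hli h'.2, mul_zero, zero_smul, map_zero, neg_zero]
    have e6 : (∑ z ∈ (τ e).erase a, if l z = l i₀ then
        algebraMap ℚ 𝔽.R (val b (s b)) * 𝔽.X (pr z) else 0) = 0 := by
      refine Finset.sum_eq_zero fun z hz => ?_
      rw [if_neg]
      intro h7
      exact hli (hl.symm.trans ((hCl z (Finset.mem_erase.1 hz).2).symm.trans h7))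
    rw [e6, mul_zero, zero_smul]

theorem act_E (𝔽 : Fk (lS l i₀) (lS g i₀))
    (h : Ops l (fun a => (g a : ℤ)) o' c t Φ Φ' W E) {val : ∀ a, A a → ℚ} {val' : ∀ a, A' a → ℚ}
    (hval : ∀ a s, val' a (c a s) = val a s) (ho : ∀ a, val' a (o' a) = 0)
    (ht : ∀ a b s, l a = l b → val a (t a b s) = val b s)
    (τ : Fin (D + 1) → Finset (Fin n)) (s : ∀ a, A a) (hτ : Atm l τ) (a b : Fin n)
    (hab : a ≠ b) (hl : l a = l b) :
    ∃ (K : Type) (_ : Fintype K) (m : K → ℤ) (τ' : K → Fin D → Finset (Fin n))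
      (s' : K → ∀ a, A' a), (∀ i, Atm l (τ' i)) ∧ E a b (Φ τ s) = ∑ i, m i • Φ' (τ' i) (s' i) ∧
      ∑ i, m i • (num 𝔽 (τ' i) • 𝔽.vac) =
        - 𝔽.Y {a.castSucc, b.castSucc} (num 𝔽 τ • 𝔽.vac) ∧
      ∑ i, m i • ((num 𝔽 (τ' i) * ajn 𝔽 val' (τ' i) (s' i)) • 𝔽.vac) =
        - 𝔽.Y {a.castSucc, b.castSucc} ((num 𝔽 τ * ajn 𝔽 val τ s) • 𝔽.vac) := by
  change Gd 𝔽 Φ' val' (E a b (Φ τ s)) (- 𝔽.Y {a.castSucc, b.castSucc} (num 𝔽 τ • 𝔽.vac))
    (- 𝔽.Y {a.castSucc, b.castSucc} ((num 𝔽 τ * ajn 𝔽 val τ s) • 𝔽.vac))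
  have hsg : ∀ (τ' : Fin D → Finset (Fin n)) (s' : ∀ a, A' a),
      ((∀ e, (τ' e).Nonempty) → Atm l τ') →
      Gd 𝔽 Φ' val' (Φ' τ' s') (num 𝔽 τ' • 𝔽.vac) ((num 𝔽 τ' * ajn 𝔽 val' τ' s') • 𝔽.vac) :=
    fun τ' s' hA => Gd.single 𝔽 Φ' val' h.Z τ' s' hA
  by_cases ha : ∀ e, a ∉ τ e
  · by_cases hb : ∀ e, b ∉ τ e
    · -- E0
      rw [h.E0 a b hab hl τ s hτ.1 ha hb]
      have h1 : num 𝔽 τ ∈ Sb 𝔽.X {a.castSucc, b.castSucc} := by
        rw [← D2_map2]
        refine D2_num_mem 𝔽 τ {a, b} fun e => ?_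
        rw [Finset.disjoint_insert_right, Finset.disjoint_singleton_right]
        exact ⟨ha e, hb e⟩
      have h2 : ajr 𝔽 val τ s {a, b} ∈ Sb 𝔽.X {a.castSucc, b.castSucc} := by
        rw [← D2_map2]
        exact D2_ajr_mem 𝔽 val τ s {a, b}
      have hu := Y2_unc 𝔽 a b hab hl
      have h3 : 𝔽.Y {a.castSucc, b.castSucc} ((num 𝔽 τ * ajn 𝔽 val τ s) • 𝔽.vac) = 0 := by
        rw [D2_ajn_split 𝔽 val τ s {a, b}, Finset.sum_pair hab, mul_add, mul_add, add_smul,
          add_smul, map_add, map_add, (hu _ (mul_mem h1 h2)).1, zero_add]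
        have h4 : ∀ z : Fin n, 𝔽.Y {a.castSucc, b.castSucc}
            ((𝔽.X (pr z) * (algebraMap ℚ 𝔽.R (val z (s z)) * num 𝔽 τ)) • 𝔽.vac) = 0 →
            𝔽.Y {a.castSucc, b.castSucc} ((num 𝔽 τ * if (∀ e, z ∉ τ e) ∧ l z = l i₀ then
            algebraMap ℚ 𝔽.R (val z (s z)) * 𝔽.X (pr z) else 0) • 𝔽.vac) = 0 := by
          intro z hz
          by_cases h5 : (∀ e, z ∉ τ e) ∧ l z = l i₀
          · rw [if_pos h5]
            have e1 : num 𝔽 τ * (algebraMap ℚ 𝔽.R (val z (s z)) * 𝔽.X (pr z)) =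
                𝔽.X (pr z) * (algebraMap ℚ 𝔽.R (val z (s z)) * num 𝔽 τ) := by ring
            rw [e1, hz]
          · rw [if_neg h5, mul_zero, zero_smul, map_zero]
        rw [h4 a (hu _ (mul_mem (D2_alg_mem 𝔽 _ _) h1)).2.1,
          h4 b (hu _ (mul_mem (D2_alg_mem 𝔽 _ _) h1)).2.2, add_zero]
      rw [(hu _ h1).1, h3, neg_zero]
      exact Gd.zero 𝔽 Φ' val'
    · -- E4
      push Not at hb
      obtain ⟨e, hbe⟩ := hb
      rw [h.E4 a b hab hl e τ s hτ.1 hbe ha]
      obtain ⟨m1, m2⟩ := D2_mix (o' := o') 𝔽 hval ho ht τ s hτ b a hab.symm hl.symm e hbe ha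
      rw [Finset.pair_comm b.castSucc a.castSucc] at m1 m2
      rw [m1, ← m2, neg_zero, ← sub_self (num 𝔽 (dl e τ) • 𝔽.vac)]
      have e1 : (fun x => if x = b ∨ x = a then o' x else
          if x ∈ τ e then c x (t x a (s a)) else c x (s x)) =
          (fun x => if x = a ∨ x = b then o' x else
          if x ∈ τ e then c x (t x a (s a)) else c x (s x)) := by
        funext x
        by_cases hxa : x = a <;> by_cases hxb : x = b <;> simp [hxa, hxb]
      rw [e1]
      exact (hsg _ _ fun _ => D2_atm_dl hτ e).sub (hsg _ _ fun _ => D2_atm_dl hτ e)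
  · push Not at ha
    obtain ⟨e, hae⟩ := ha
    by_cases hb : ∀ e, b ∉ τ e
    · -- E3
      rw [h.E3 a b hab hl e τ s hτ.1 hae hb]
      obtain ⟨m1, m2⟩ := D2_mix (o' := o') 𝔽 hval ho ht τ s hτ a b hab hl e hae hb
      rw [m1, ← m2, neg_zero, ← sub_self (num 𝔽 (dl e τ) • 𝔽.vac)]
      exact (hsg _ _ fun _ => D2_atm_dl hτ e).sub (hsg _ _ fun _ => D2_atm_dl hτ e)
    · push Not at hb
      obtain ⟨e', hbe⟩ := hb
      have hJ : ajn 𝔽 val τ s ∈ Sb 𝔽.X {a.castSucc, b.castSucc} := by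
        rw [← D2_map2]
        refine D2_ajn_mem 𝔽 val τ s {a, b} fun z hz h' => ?_
        rw [Finset.mem_insert, Finset.mem_singleton] at hz
        rcases hz with rfl | rfl
        · exact h' e hae
        · exact h' e' hbe
      by_cases hee : e = e'
      · -- E2
        subst hee
        rw [h.E2 a b hab hl e τ s hτ.1 hae hbe]
        have h1 : num 𝔽 (dl e τ) ∈ Sb 𝔽.X {a.castSucc, b.castSucc} := by
          rw [← D2_map2]
          refine D2_num_mem 𝔽 _ {a, b} fun i => ?_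
          rw [Finset.disjoint_insert_right, Finset.disjoint_singleton_right]
          exact ⟨fun h' => Finset.disjoint_left.1 (D2_dl_disj hτ e i) h' hae,
            fun h' => Finset.disjoint_left.1 (D2_dl_disj hτ e i) h' hbe⟩
        have hC : τ e = {a, b} := by
          symm
          apply Finset.eq_of_subset_of_card_le
          · intro x hx
            rw [Finset.mem_insert, Finset.mem_singleton] at hx
            rcases hx with rfl | rfl
            · exact hae
            · exact hbe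
          · rw [Finset.card_pair hab]
            exact hτ.2 e
        have h3 : ajn 𝔽 val' (dl e τ) (fun x => if x ∈ τ e then o' x else c x (s x)) =
            ajn 𝔽 val τ s := by
          refine D2_ajn_eq 𝔽 τ (dl e τ) s _ (fun z hz => ⟨fun i => hz _, ?_⟩) fun z hz h' => ?_
          · rw [if_neg (hz e), hval]
          · by_cases hze : z ∈ τ e
            · rw [if_pos hze, ho]
            · exact absurd ((D2_dl_not hze).1 h') hz
        have hc : ∀ x : 𝔽.F, - ((2 * (g a : ℚ)) • x) = (-2 * (g a : ℤ)) • x := by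
          intro x
          rw [← Int.cast_smul_eq_zsmul ℚ, ← neg_smul]
          congr 1
          push_cast
          ring
        have h4 := hsg (dl e τ) (fun x => if x ∈ τ e then o' x else c x (s x))
          fun _ => D2_atm_dl hτ e
        rw [h3] at h4
        have hCx : xs 𝔽 (τ e) = xs 𝔽 {a, b} := by rw [hC]
        rw [D2_num_succ 𝔽 τ e, mul_assoc, hCx]
        rw [Y2_one 𝔽 a b hab hl _ h1, Y2_one 𝔽 a b hab hl _ (mul_mem h1 hJ), hc, hc]
        exact h4.zsmul _
      · -- E1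
        rw [h.E1 a b hab hl e e' τ s hτ.1 hee hae hbe]
        have hee' : e' ≠ e := fun h' => hee h'.symm
        have hbne : ∀ j, j ≠ e' → b ∉ τ j := fun j hj h' =>
          Finset.disjoint_left.1 (hτ.1.1 j e' hj) h' hbe
        have hane : ∀ j, j ≠ e → a ∉ τ j := fun j hj h' =>
          Finset.disjoint_left.1 (hτ.1.1 j e hj) h' hae
        have hC1 : ∀ x ∈ τ e, l x = l a := fun x hx => (hτ.1.2 e).2 x hx a hae
        have hC2 : ∀ x ∈ τ e', l x = l a := fun x hx => ((hτ.1.2 e').2 x hx b hbe).trans hl.symm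
        obtain ⟨r, hr⟩ : ∃ r : 𝔽.R, r = ∏ j ∈ (Finset.univ.erase e').erase e, xs 𝔽 (τ j) :=
          ⟨_, rfl⟩
        have hrm : r ∈ Sb 𝔽.X {a.castSucc, b.castSucc} := by
          rw [hr, ← D2_map2]
          refine Subalgebra.prod_mem _ fun j hj => D2_xs_mem 𝔽 _ _ ?_
          rw [Finset.mem_erase, Finset.mem_erase] at hj
          rw [Finset.disjoint_insert_right, Finset.disjoint_singleton_right]
          exact ⟨hane j hj.1, hbne j hj.2.1⟩
        have hnum : num 𝔽 τ = xs 𝔽 (τ e) * xs 𝔽 (τ e') * r := by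
          rw [D2_num, ← Finset.mul_prod_erase Finset.univ _ (Finset.mem_univ e'),
            ← Finset.mul_prod_erase (Finset.univ.erase e') _
              (Finset.mem_erase.2 ⟨hee, Finset.mem_univ e⟩), ← hr]
          ring
        -- the three families
        obtain ⟨U, hU⟩ : ∃ U : Finset (Fin n), U = (τ e ∪ τ e') \ {a, b} := ⟨_, rfl⟩
        have hn1 : num 𝔽 (fun i : Fin D => if e'.succAbove i = e then (τ e ∪ τ e') \ {a, b}
            else τ (e'.succAbove i)) = xs 𝔽 U * r := by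
          have h1 := D2_num_of 𝔽 (fun j => if j = e then (τ e ∪ τ e') \ {a, b} else τ j) e' e hee
          rw [h1, if_pos rfl, hU, hr]
          congr 1
          refine Finset.prod_congr rfl fun j hj => ?_
          rw [if_neg (Finset.mem_erase.1 hj).1]
        have hn2 : num 𝔽 (fun i : Fin D => τ (e.succAbove i) \ {b}) =
            xs 𝔽 (τ e' \ {b}) * r := by
          have h1 := D2_num_of 𝔽 (fun j => τ j \ {b}) e e' hee'
          rw [h1, hr, Finset.erase_right_comm]
          congr 1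
          refine Finset.prod_congr rfl fun j hj => ?_
          rw [Finset.mem_erase, Finset.mem_erase] at hj
          rw [Finset.sdiff_singleton_eq_erase, Finset.erase_eq_of_notMem (hbne j hj.2.1)]
        have hn3 : num 𝔽 (fun i : Fin D => τ (e'.succAbove i) \ {a}) =
            xs 𝔽 (τ e \ {a}) * r := by
          have h1 := D2_num_of 𝔽 (fun j => τ j \ {a}) e' e hee
          rw [h1, hr]
          congr 1
          refine Finset.prod_congr rfl fun j hj => ?_
          rw [Finset.mem_erase, Finset.mem_erase] at hj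
          rw [Finset.sdiff_singleton_eq_erase, Finset.erase_eq_of_notMem (hane j hj.1)]
        have hj1 : ajn 𝔽 val' (fun i : Fin D => if e'.succAbove i = e then
            (τ e ∪ τ e') \ {a, b} else τ (e'.succAbove i))
            (fun x => if x = a ∨ x = b then o' x else c x (s x)) = ajn 𝔽 val τ s := by
          refine D2_ajn_eq 𝔽 τ _ s _ (fun z hz => ⟨fun i h' => ?_, ?_⟩) fun z hz h' => ?_
          · by_cases hi : e'.succAbove i = e
            · rw [if_pos hi, Finset.mem_sdiff, Finset.mem_union] at h'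
              rcases h'.1 with h5 | h5
              · exact hz _ h5
              · exact hz _ h5
            · rw [if_neg hi] at h'
              exact hz _ h'
          · rw [if_neg, hval]
            rintro (rfl | rfl)
            · exact hz e hae
            · exact hz e' hbe
          · by_cases hzab : z = a ∨ z = b
            · rw [if_pos hzab, ho]
            · exfalso
              apply hz
              intro j hj
              by_cases hje : j = e'
              · obtain ⟨i, hi⟩ := Fin.exists_succAbove_eq hee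
                apply h' i
                rw [if_pos hi, Finset.mem_sdiff, Finset.mem_union, Finset.mem_insert,
                  Finset.mem_singleton]
                exact ⟨Or.inr (hje ▸ hj), hzab⟩
              · obtain ⟨i, hi⟩ := Fin.exists_succAbove_eq hje
                apply h' i
                by_cases hje2 : j = e
                · rw [if_pos (hi.trans hje2), Finset.mem_sdiff, Finset.mem_union,
                    Finset.mem_insert, Finset.mem_singleton]
                  exact ⟨Or.inl (hje2 ▸ hj), hzab⟩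
                · rw [if_neg (fun h6 => hje2 (hi.symm.trans h6)), hi]
                  exact hj
        have hj2 : ajn 𝔽 val' (fun i : Fin D => τ (e.succAbove i) \ {b})
            (fun x => if x ∈ τ e ∨ x = b then o' x else c x (s x)) = ajn 𝔽 val τ s := by
          refine D2_ajn_eq 𝔽 τ _ s _ (fun z hz => ⟨fun i h' => ?_, ?_⟩) fun z hz h' => ?_
          · exact hz _ (Finset.mem_sdiff.1 h').1
          · rw [if_neg, hval]
            rintro (h5 | rfl)
            · exact hz e h5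
            · exact hz e' hbe
          · by_cases hzab : z ∈ τ e ∨ z = b
            · rw [if_pos hzab, ho]
            · exfalso
              apply hz
              intro j hj
              by_cases hje : j = e
              · exact hzab (Or.inl (hje ▸ hj))
              · obtain ⟨i, hi⟩ := Fin.exists_succAbove_eq hje
                apply h' i
                rw [hi, Finset.mem_sdiff, Finset.mem_singleton]
                exact ⟨hj, fun h6 => hzab (Or.inr h6)⟩
        have hj3 : ajn 𝔽 val' (fun i : Fin D => τ (e'.succAbove i) \ {a})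
            (fun x => if x ∈ τ e' ∨ x = a then o' x else c x (s x)) = ajn 𝔽 val τ s := by
          refine D2_ajn_eq 𝔽 τ _ s _ (fun z hz => ⟨fun i h' => ?_, ?_⟩) fun z hz h' => ?_
          · exact hz _ (Finset.mem_sdiff.1 h').1
          · rw [if_neg, hval]
            rintro (h5 | rfl)
            · exact hz e' h5
            · exact hz e hae
          · by_cases hzab : z ∈ τ e' ∨ z = a
            · rw [if_pos hzab, ho]
            · exfalso
              apply hz
              intro j hj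
              by_cases hje : j = e'
              · exact hzab (Or.inl (hje ▸ hj))
              · obtain ⟨i, hi⟩ := Fin.exists_succAbove_eq hje
                apply h' i
                rw [hi, Finset.mem_sdiff, Finset.mem_singleton]
                exact ⟨hj, fun h6 => hzab (Or.inr h6)⟩
        have hY : ∀ y ∈ Sb 𝔽.X {a.castSucc, b.castSucc},
            - 𝔽.Y {a.castSucc, b.castSucc} ((xs 𝔽 (τ e) * xs 𝔽 (τ e') * y) • 𝔽.vac) =
            ((xs 𝔽 U - xs 𝔽 (τ e' \ {b}) - xs 𝔽 (τ e \ {a})) * y) • 𝔽.vac := by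
          intro y hy
          rw [Y2_two 𝔽 a b hab hl (τ e) (τ e') hae hbe (hτ.1.1 e e' hee) (hτ.2 e) (hτ.2 e') hC1
            hC2 y hy, neg_neg, hU]
          congr 1
          ring
        have hu : - 𝔽.Y {a.castSucc, b.castSucc} (num 𝔽 τ • 𝔽.vac) =
            num 𝔽 (fun i : Fin D => if e'.succAbove i = e then (τ e ∪ τ e') \ {a, b}
            else τ (e'.succAbove i)) • 𝔽.vac -
            num 𝔽 (fun i : Fin D => τ (e.succAbove i) \ {b}) • 𝔽.vac -
            num 𝔽 (fun i : Fin D => τ (e'.succAbove i) \ {a}) • 𝔽.vac := by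
          rw [hnum, hY r hrm, hn1, hn2, hn3, ← sub_smul, ← sub_smul]
          congr 1
          ring
        have hv : - 𝔽.Y {a.castSucc, b.castSucc} ((num 𝔽 τ * ajn 𝔽 val τ s) • 𝔽.vac) =
            (num 𝔽 (fun i : Fin D => if e'.succAbove i = e then (τ e ∪ τ e') \ {a, b}
            else τ (e'.succAbove i)) * ajn 𝔽 val τ s) • 𝔽.vac -
            (num 𝔽 (fun i : Fin D => τ (e.succAbove i) \ {b}) * ajn 𝔽 val τ s) • 𝔽.vac -
            (num 𝔽 (fun i : Fin D => τ (e'.succAbove i) \ {a}) * ajn 𝔽 val τ s) • 𝔽.vac := by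
          rw [hnum, mul_assoc, hY _ (mul_mem hrm hJ), hn1, hn2, hn3, ← sub_smul, ← sub_smul]
          congr 1
          ring
        have g1 := hsg (fun i : Fin D => if e'.succAbove i = e then (τ e ∪ τ e') \ {a, b}
            else τ (e'.succAbove i)) (fun x => if x = a ∨ x = b then o' x else c x (s x))
          (fun hne => by
            refine D2_atm_of (fun j => if j = e then (τ e ∪ τ e') \ {a, b} else τ j) e'
              ?_ ?_ ?_ hne
            · intro j j' hj hj' hjj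
              have h5 : ∀ j, j ≠ e → j ≠ e' → Disjoint ((τ e ∪ τ e') \ {a, b}) (τ j) := by
                intro j h6 h7
                refine Finset.disjoint_of_subset_left Finset.sdiff_subset ?_
                rw [Finset.disjoint_union_left]
                exact ⟨hτ.1.1 _ _ (Ne.symm h6), hτ.1.1 _ _ (Ne.symm h7)⟩
              by_cases h6 : j = e
              · rw [if_pos h6, if_neg (fun h7 => hjj (h6.trans h7.symm))]
                exact h5 j' (fun h7 => hjj (h6.trans h7.symm)) hj'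
              · rw [if_neg h6]
                by_cases h7 : j' = e
                · rw [if_pos h7]
                  exact (h5 j h6 hj).symm
                · rw [if_neg h7]
                  exact hτ.1.1 _ _ hjj
            · intro j hj x hx y hy
              by_cases h6 : j = e
              · rw [if_pos h6, Finset.mem_sdiff, Finset.mem_union] at hx hy
                have h7 : ∀ x, x ∈ τ e ∨ x ∈ τ e' → l x = l a := by
                  rintro x (h8 | h8)
                  · exact hC1 x h8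
                  · exact hC2 x h8
                rw [h7 x hx.1, h7 y hy.1]
              · rw [if_neg h6] at hx hy
                exact (hτ.1.2 j).2 x hx y hy
            · intro j hj
              by_cases h6 : j = e
              · rw [if_pos h6]
                have h7 : (τ e ∪ τ e') \ {a, b} ⊆ (τ e).erase a ∪ (τ e').erase b := by
                  intro x hx
                  rw [Finset.mem_sdiff, Finset.mem_union, Finset.mem_insert,
                    Finset.mem_singleton] at hx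
                  rw [Finset.mem_union, Finset.mem_erase, Finset.mem_erase]
                  rcases hx.1 with h8 | h8
                  · exact Or.inl ⟨fun h9 => hx.2 (Or.inl h9), h8⟩
                  · exact Or.inr ⟨fun h9 => hx.2 (Or.inr h9), h8⟩
                have h8 := Finset.card_le_card h7
                have h9 := Finset.card_union_le ((τ e).erase a) ((τ e').erase b)
                rw [Finset.card_erase_of_mem hae, Finset.card_erase_of_mem hbe] at h9
                have h10 := hτ.2 e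
                have h11 := hτ.2 e'
                omega
              · rw [if_neg h6]
                exact hτ.2 j)
        have g2 := hsg (fun i : Fin D => τ (e.succAbove i) \ {b})
          (fun x => if x ∈ τ e ∨ x = b then o' x else c x (s x))
          (fun hne => D2_atm_of (fun j => τ j \ {b}) e
            (fun j j' _ _ hjj => Finset.disjoint_of_subset_left Finset.sdiff_subset
              (Finset.disjoint_of_subset_right Finset.sdiff_subset (hτ.1.1 _ _ hjj)))
            (fun j _ x hx y hy => (hτ.1.2 j).2 x (Finset.mem_sdiff.1 hx).1 y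
              (Finset.mem_sdiff.1 hy).1)
            (fun j _ => (Finset.card_le_card Finset.sdiff_subset).trans (hτ.2 j)) hne)
        have g3 := hsg (fun i : Fin D => τ (e'.succAbove i) \ {a})
          (fun x => if x ∈ τ e' ∨ x = a then o' x else c x (s x))
          (fun hne => D2_atm_of (fun j => τ j \ {a}) e'
            (fun j j' _ _ hjj => Finset.disjoint_of_subset_left Finset.sdiff_subset
              (Finset.disjoint_of_subset_right Finset.sdiff_subset (hτ.1.1 _ _ hjj)))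
            (fun j _ x hx y hy => (hτ.1.2 j).2 x (Finset.mem_sdiff.1 hx).1 y
              (Finset.mem_sdiff.1 hy).1)
            (fun j _ => (Finset.card_le_card Finset.sdiff_subset).trans (hτ.2 j)) hne)
        rw [hj1] at g1
        rw [hj2] at g2
        rw [hj3] at g3
        rw [hu, hv]
        exact (g1.sub g2).sub g3

end Pool.Agent.LibHE77
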