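import Pool.Agent.LibHE77.D2

/-!
[HE77 D3] the induction step and the case of dimension zero. Proof of `det2_step`: let `∑ i, m i • Φ (τ i) (s i)` be torsion. Apply `W a`: `∑ i, m i • W a (..)` is torsion; by `act_W` (D2) it is a combination (index: the sigma type of the `K`) of `Φ' ..` with `Atm`, so by `IH` its vectors are zero: `2 • Y_a (∑ i, m i • (num .. • vac)) = 0` and the
same with `ajn`. The same with `E a b` and `act_E` for `a ≠ b`, `l a = l b`. `pos_num` (D1) with `r i = 1` and with `r i = ajn 𝔽 val (τ i) (s i)`. `det2_zero`: `D = 0`: all `τ i` are equal (no blocks), `num = 1`, `Atm` holds; `Det` for `T = ∅` (`Finset.univ.image (τ i) = ∅`) gives `∑ m i = 0`, `∑ m i * val a (s i a) = 0` for all `a`.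
`ops_congr`: the conditions of `Ops` only use `l a = l b` and `Val l τ`.
-/

open scoped Classical

namespace Pool.Agent.LibHE77

open Pool.Agent.LibHL77 (Ops Atm Val Det)

variable {n : ℕ} {Lb : Type} {l : Fin n → Lb} {g : Fin n → ℕ} {i₀ : Fin n} {D : ℕ}
  {A A' : Fin n → Type} {o' : ∀ a, A' a} {c : ∀ a, A a → A' a} {t : ∀ a b, A b → A a}
  {G G' : Type} [AddCommGroup G] [AddCommGroup G']
  {Φ : (Fin (D + 1) → Finset (Fin n)) → (∀ a, A a) → G}
  {Φ' : (Fin D → Finset (Fin n)) → (∀ a, A' a) → G'} {W : Fin n → G →+ G'}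
  {E : Fin n → Fin n → G →+ G'}

theorem ops_congr {Lb' : Type} {l' : Fin n → Lb'} {g' : Fin n → ℤ}
    (h : Ops l' g' o' c t Φ Φ' W E) (hl : ∀ a b, l a = l b ↔ l' a = l' b) :
    Ops l g' o' c t Φ Φ' W E := by
  have hv : ∀ τ : Fin (D + 1) → Finset (Fin n), Val l τ → Val l' τ := fun τ h =>
    ⟨h.1, fun e => ⟨(h.2 e).1, fun a ha b hb => (hl a b).1 ((h.2 e).2 a ha b hb)⟩⟩
  exact
    { W1 := fun a e τ s h1 h2 => h.W1 a e τ s (hv τ h1) h2
      W0 := fun a τ s h1 h2 => h.W0 a τ s (hv τ h1) h2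
      E1 := fun a b hab h0 e e' τ s h1 h2 h3 h4 =>
        h.E1 a b hab ((hl a b).1 h0) e e' τ s (hv τ h1) h2 h3 h4
      E2 := fun a b hab h0 e τ s h1 h2 h3 => h.E2 a b hab ((hl a b).1 h0) e τ s (hv τ h1) h2 h3
      E3 := fun a b hab h0 e τ s h1 h2 h3 => h.E3 a b hab ((hl a b).1 h0) e τ s (hv τ h1) h2 h3
      E4 := fun a b hab h0 e τ s h1 h2 h3 => h.E4 a b hab ((hl a b).1 h0) e τ s (hv τ h1) h2 h3
      E0 := fun a b hab h0 τ s h1 h2 h3 => h.E0 a b hab ((hl a b).1 h0) τ s (hv τ h1) h2 h3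
      Z := h.Z
      C := h.C }

private theorem d3_tf {V : Type} [AddCommGroup V] [Module ℚ V] {q : ℤ} (hq : q ≠ 0) {x : V}
    (h : q • x = 0) : x = 0 := by
  have h1 : (q : ℚ) • x = 0 := by rw [Int.cast_smul_eq_zsmul]; exact h
  exact (smul_eq_zero.1 h1).resolve_left (by exact_mod_cast hq)

private theorem d3_key (𝔽 : Fk (lS l i₀) (lS g i₀)) {val : ∀ a, A a → ℚ} {val' : ∀ a, A' a → ℚ}
    (Y : 𝔽.F →ₗ[ℚ] 𝔽.F) (q : ℤ) (hq : q ≠ 0) (w : G →+ G')
    (hact : ∀ (τ : Fin (D + 1) → Finset (Fin n)) (s : ∀ a, A a), Atm l τ →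
      ∃ (K : Type) (_ : Fintype K) (m : K → ℤ) (τ' : K → Fin D → Finset (Fin n))
        (s' : K → ∀ a, A' a), (∀ i, Atm l (τ' i)) ∧ w (Φ τ s) = ∑ i, m i • Φ' (τ' i) (s' i) ∧
        ∑ i, m i • (num 𝔽 (τ' i) • 𝔽.vac) = q • Y (num 𝔽 τ • 𝔽.vac) ∧
        ∑ i, m i • ((num 𝔽 (τ' i) * ajn 𝔽 val' (τ' i) (s' i)) • 𝔽.vac) =
          q • Y ((num 𝔽 τ * ajn 𝔽 val τ s) • 𝔽.vac))
    (IH : Det2 𝔽 Φ' val') {K : Type} [Fintype K] (m : K → ℤ)
    (τ : K → Fin (D + 1) → Finset (Fin n)) (s : K → ∀ a, A a) (hτ : ∀ i, Atm l (τ i))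
    (hX : IsOfFinAddOrder (∑ i, m i • Φ (τ i) (s i))) :
    Y (∑ i, m i • (num 𝔽 (τ i) • 𝔽.vac)) = 0 ∧
      Y (∑ i, m i • ((num 𝔽 (τ i) * ajn 𝔽 val (τ i) (s i)) • 𝔽.vac)) = 0 := by
  choose K' fK' m' τ' s' hA hw hn ha using fun i => hact (τ i) (s i) (hτ i)
  have htors : IsOfFinAddOrder (∑ x : (Σ i, K' i), (m x.1 * m' x.1 x.2) •
      Φ' (τ' x.1 x.2) (s' x.1 x.2)) := by
    have h1 := AddMonoidHom.isOfFinAddOrder w hX
    have h2 : w (∑ i, m i • Φ (τ i) (s i)) = ∑ x : (Σ i, K' i), (m x.1 * m' x.1 x.2) •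
      Φ' (τ' x.1 x.2) (s' x.1 x.2) := by
      rw [map_sum, Fintype.sum_sigma]
      refine Finset.sum_congr rfl fun i _ => ?_
      rw [map_zsmul, hw i, Finset.smul_sum]
      refine Finset.sum_congr rfl fun j _ => ?_
      rw [mul_smul]
    rw [h2] at h1
    exact h1
  obtain ⟨h1, h2⟩ := IH (Σ i, K' i) inferInstance (fun x => m x.1 * m' x.1 x.2)
    (fun x => τ' x.1 x.2) (fun x => s' x.1 x.2) (fun x => hA x.1 x.2) htors
  constructor
  · apply d3_tf hq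
    rw [← h1, Fintype.sum_sigma, map_sum, Finset.smul_sum]
    refine Finset.sum_congr rfl fun i _ => ?_
    rw [map_zsmul, smul_comm, ← hn i, Finset.smul_sum]
    refine Finset.sum_congr rfl fun j _ => ?_
    rw [mul_smul]
  · apply d3_tf hq
    rw [← h2, Fintype.sum_sigma, map_sum, Finset.smul_sum]
    refine Finset.sum_congr rfl fun i _ => ?_
    rw [map_zsmul, smul_comm, ← ha i, Finset.smul_sum]
    refine Finset.sum_congr rfl fun j _ => ?_
    exact (mul_smul (m i) (m' i j) _).symm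

theorem det2_step (𝔽 : Fk (lS l i₀) (lS g i₀))
    (h : Ops l (fun a => (g a : ℤ)) o' c t Φ Φ' W E) {val : ∀ a, A a → ℚ} {val' : ∀ a, A' a → ℚ}
    (hval : ∀ a s, val' a (c a s) = val a s) (ho : ∀ a, val' a (o' a) = 0)
    (ht : ∀ a b s, l a = l b → val a (t a b s) = val b s) (IH : Det2 𝔽 Φ' val') :
    Det2 𝔽 Φ val := by
  intro K _ m τ s hτ hX
  have hW : ∀ a : Fin n, 𝔽.Y {a.castSucc} (∑ i, m i • (num 𝔽 (τ i) • 𝔽.vac)) = 0 ∧
      𝔽.Y {a.castSucc} (∑ i, m i • ((num 𝔽 (τ i) * ajn 𝔽 val (τ i) (s i)) • 𝔽.vac)) = 0 := by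
    intro a
    exact d3_key 𝔽 (𝔽.Y {a.castSucc}) 2 (by norm_num) (W a)
      (fun τ s hτ => act_W 𝔽 h hval ho τ s hτ a) IH m τ s hτ hX
  have hE : ∀ a b : Fin n, a ≠ b → l a = l b →
      𝔽.Y {a.castSucc, b.castSucc} (∑ i, m i • (num 𝔽 (τ i) • 𝔽.vac)) = 0 ∧
      𝔽.Y {a.castSucc, b.castSucc}
        (∑ i, m i • ((num 𝔽 (τ i) * ajn 𝔽 val (τ i) (s i)) • 𝔽.vac)) = 0 := by
    intro a b hab hl
    refine d3_key 𝔽 (𝔽.Y {a.castSucc, b.castSucc}) (-1) (by norm_num) (E a b)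
      (fun τ s hτ => ?_) IH m τ s hτ hX
    simp only [neg_one_smul]
    exact act_E 𝔽 h hval ho ht τ s hτ a b hab hl
  constructor
  · have h1 := pos_num 𝔽 m τ hτ (fun _ => 1)
      (fun a => by simpa only [mul_one] using (hW a).1)
      (fun a b hab hl => by simpa only [mul_one] using (hE a b hab hl).1)
    simpa only [mul_one] using h1
  · exact pos_num 𝔽 m τ hτ (fun i => ajn 𝔽 val (τ i) (s i)) (fun a => (hW a).2)
      (fun a b hab hl => (hE a b hab hl).2)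

theorem det2_zero {Lb' : Type} {l' : Fin n → Lb'} (𝔽 : Fk (lS l i₀) (lS g i₀))
    {Ψ : (Fin 0 → Finset (Fin n)) → (∀ a, A a) → G} {val : ∀ a, A a → ℚ}
    (h : Det l' Ψ val) : Det2 𝔽 Ψ val := by
  intro K _ m τ s hτ hX
  have h0 := h K inferInstance m τ s
    (fun j => ⟨⟨fun e => e.elim0, fun e => e.elim0⟩, fun e => e.elim0⟩) hX ∅
  have himg : ∀ j, Finset.univ.image (τ j) = ∅ := by
    intro j
    rw [Finset.image_eq_empty]
    rfl
  obtain ⟨hM, hN⟩ := h0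
  unfold Pool.Agent.LibHL77.Mt at hM
  simp only [himg, if_true] at hM
  have hN' : ∀ a, ∑ j, (m j : ℚ) * val a (s j a) = 0 := by
    intro a
    have h1 := hN a (fun t ht => absurd ht (Finset.notMem_empty t))
    unfold Pool.Agent.LibHL77.Nt at h1
    simpa only [himg, if_true] using h1
  have hnum : ∀ j, num 𝔽 (τ j) = 1 := by
    intro j
    unfold num
    exact Fintype.prod_empty _
  constructor
  · simp only [hnum]
    rw [← Finset.sum_smul]
    have h1 : ∑ j, m j = 0 := by exact_mod_cast hM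
    rw [h1, zero_smul]
  · simp only [hnum, one_mul]
    have h1 : ∀ j, m j • (ajn 𝔽 val (τ j) (s j) • 𝔽.vac) =
        (m j • ajn 𝔽 val (τ j) (s j)) • 𝔽.vac := fun j => (smul_assoc _ _ _).symm
    simp only [h1]
    rw [← Finset.sum_smul]
    have h2 : ∑ j, m j • ajn 𝔽 val (τ j) (s j) = 0 := by
      unfold ajn
      simp only [Finset.smul_sum]
      rw [Finset.sum_comm]
      refine Finset.sum_eq_zero fun z _ => ?_
      by_cases hz : l z = l i₀
      · have h3 : ∀ j, (m j • (if (∀ e, z ∉ τ j e) ∧ l z = l i₀ then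
            algebraMap ℚ 𝔽.R (val z (s j z)) * 𝔽.X (pr z) else 0)) =
            algebraMap ℚ 𝔽.R ((m j : ℚ) * val z (s j z)) * 𝔽.X (pr z) := by
          intro j
          rw [if_pos ⟨fun e => e.elim0, hz⟩, map_mul, map_intCast, zsmul_eq_mul, mul_assoc]
        simp only [h3]
        rw [← Finset.sum_mul, ← map_sum, hN' z, map_zero, zero_mul]
      · refine Finset.sum_eq_zero fun j _ => ?_
        rw [if_neg (fun h => hz h.2), smul_zero]
    rw [h2, zero_smul]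

end Pool.Agent.LibHE77
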