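import Pool.Agent.LibHE77.K0
import Pool.Agent.LibHD77.T1

/-!
The zeros of `y - p(x)` on a hyperelliptic curve, `p` a generic polynomial: definitions.
-/

open scoped Classical
open Polynomial

namespace Pool.Agent.LibHE77

open Pool.Agent.LibBH2
open Pool.Agent.LibCHd (VR RF Red FunF)
open Pool.Agent.LibHyp34 (Hyp Pt Pic jP)
open Pool.Agent.LibHD77 (MPt Pnt cst cyc cls Dia mk' og pnt cl Gen Gen1)
open Pool.Agent.LibHD77.Comb (Pat sub)

variable {k : Type} [Field k]

/-- the polynomial `p` is `P0 + P1 * (p_0 + p_1 x + ... + p_r x ^ r)`: it has the value `(c i).2` at `(c i).1`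
(at most one condition: `κ ≤ 1`) -/
noncomputable def P0 {κ : ℕ} (c : Fin κ → k × k) : k[X] := ∑ i, C (c i).2

noncomputable def P1 {κ : ℕ} (c : Fin κ → k × k) : k[X] := ∏ i, (X - C (c i).1)

/-- the polynomial `p_0 + p_1 x + ... + p_r x ^ r` -/
noncomputable def pq {L : Type} [Field L] {r : ℕ} (p : Fin (r + 1) → L) : L[X] :=
  ∑ i : Fin (r + 1), C (p i) * X ^ (i : ℕ)

/-- the polynomial `p` -/
noncomputable def pol {L : Type} [Field L] [Algebra k L] {r κ : ℕ} (c : Fin κ → k × k)
    (p : Fin (r + 1) → L) : L[X] :=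
  (P0 c).map (algebraMap k L) + (P1 c).map (algebraMap k L) * pq p

/-- The zeros of `y - p(x)`: `L` is finite over the field generated by the independent points `(xe, ye)` and the
coefficients of `p`, and the `x i` are the zeros of `f - p ^ 2`. -/
structure Fam {D r κ : ℕ} (f : k[X]) (V : Fin D → k[X]) (c : Fin κ → k × k) {L : Type} [Field L]
    [Algebra k L] (xe ye : Fin D → L) (p : Fin (r + 1) → L) (x : Fin (NN r κ) → L) : Prop where
  dim : FunF k (D + (r + 1)) L
  deg : f.natDegree = NN r κ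
  kap : κ ≤ 1
  con : ∀ i, (c i).2 ≠ 0 ∧ (c i).2 ^ 2 = f.eval (c i).1
  crv : ∀ e, ye e ^ 2 = aeval (xe e) (V e)
  ind : AlgebraicIndependent k (Sum.elim xe p)
  spl : f.map (algebraMap k L) - pol c p ^ 2 = ∏ i, (X - C (x i))
  fix : ∀ i : Fin κ, x (Fin.last _) = algebraMap k L (c i).1

/-- the `y`-coordinate of the `i`-th zero -/
noncomputable def yz {L : Type} [Field L] [Algebra k L] {r κ : ℕ} (c : Fin κ → k × k)
    (p : Fin (r + 1) → L) (x : Fin (NN r κ) → L) (i : Fin (NN r κ)) : L :=
  (pol c p).eval (x i)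

/-- the point with the pattern `δ` and the free points `(x b, y b)` -/
noncomputable def pgt {n : ℕ} {F : Fin n → k[X]} {B : Type} {M : Type} [Field M] [Algebra k M]
    (δ : Pat (fun a => Pt (F a)) B) (x y : B → M) : Pnt F M := fun a =>
  match δ a with
  | .inl s => cst M s
  | .inr q => mk' (F a) (x q.1) ((q.2 : ℤ) * y q.1)

/-- the values `j (a b)` and the additional value `t` -/
def ex {B L M : Type} (j : L → M) (t : M) (a : B → L) : Option B → M
  | none => t
  | some b => j (a b)

/-- the point of the curve with coordinates in `k` -/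
noncomputable def kp (f : k[X]) (x y : k) : Pt f :=
  if h : y ^ 2 = f.eval x then .aff x y h else .inf

/-- the fixed points `± s_c` -/
noncomputable def csp {n : ℕ} (F : Fin n → k[X]) {κ : ℕ} (c : Fin κ → k × k) (i : Fin κ) (η : ℤˣ)
    (a : Fin n) : Pt (F a) := kp (F a) (c i).1 ((η : ℤ) * (c i).2)

/-- the function `y - p(x)` -/
noncomputable def phi {L M : Type} [Field L] [Algebra k L] [Field M] [Algebra k M] {r κ : ℕ}
    (j : L →ₐ[k] M) (c : Fin κ → k × k) (p : Fin (r + 1) → L) (X Y : M) : M :=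
  Y - (pol c p).eval₂ (j : L →+* M) X

/-- the family of `t`, the `a e` and the `b i` -/
def o3 {M : Type} {D r : ℕ} (t : M) (a : Fin D → M) (b : Fin r → M) : Option (Fin D ⊕ Fin r) → M
  | none => t
  | some (.inl e) => a e
  | some (.inr i) => b i

/-- the elements `x`, `x_e`, `p_i / p_r` -/
noncomputable def vz {L M : Type} [Field L] [Algebra k L] [Field M] [Algebra k M] {D r : ℕ}
    (j : L →ₐ[k] M) (X : M) (xe : Fin D → L) (p : Fin (r + 1) → L) : Option (Fin D ⊕ Fin r) → M :=
  o3 X (fun e => j (xe e)) (fun i => j (p i.castSucc / p (Fin.last r)))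

/-- the vertical places: `p_r` has a pole and `x`, `x_e`, `p_i / p_r` are independent in the residue field -/
def Vert {L M : Type} [Field L] [Algebra k L] [Field M] [Algebra k M] {D r : ℕ} (j : L →ₐ[k] M)
    (X : M) (xe : Fin D → L) (p : Fin (r + 1) → L) (v : Place k M) : Prop :=
  v.ord (j (p (Fin.last r))) < 0 ∧
    ∀ G : MvPolynomial (Option (Fin D ⊕ Fin r)) k, G ≠ 0 →
      MvPolynomial.aeval (vz j X xe p) G ≠ 0 ∧ v.ord (MvPolynomial.aeval (vz j X xe p) G) = 0

/-- the labels of the free points of the letters -/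
def Wl {D r : ℕ} (V : Fin D → k[X]) (f : k[X]) : Fin (D + (r + 1)) → k[X] :=
  Fin.append V fun _ => f

/-- The letters at a vertical place `v`: the zero `i` specializes to the letter `ℓ i`; the free points of the
letters are the independent points `(xb, yb)`. -/
structure VL {D r κ : ℕ} (f : k[X]) (V : Fin D → k[X]) (c : Fin κ → k × k) {L M : Type} [Field L]
    [Algebra k L] [Field M] [Algebra k M] (xe ye : Fin D → L) (p : Fin (r + 1) → L)
    (x : Fin (NN r κ) → L) (j : L →ₐ[k] M) (X Y : M) (v : Place k M)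
    (ℓ : Fin (NN r κ) ≃ Lt r κ) (xb yb : Fin (D + (r + 1)) → RF v) : Prop where
  ind : AlgebraicIndependent k xb
  crv : ∀ b, yb b ^ 2 = aeval (xb b) (Wl V f b)
  red : ∀ e, Red v (j (xe e)) (xb (Fin.castAdd (r + 1) e)) ∧
    Red v (j (ye e)) (yb (Fin.castAdd (r + 1) e))
  gen : Red v X (xb (Fin.natAdd D (Fin.last r))) ∧ Red v Y (yb (Fin.natAdd D (Fin.last r)))
  inf : ∀ i, ℓ i = none → v.ord (j (x i)) < 0
  fre : ∀ i b η, ℓ i = some (.inl b, η) → Red v (j (x i)) (xb (Fin.natAdd D b.castSucc)) ∧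
    Red v (j (yz c p x i)) (((η : ℤ) : RF v) * yb (Fin.natAdd D b.castSucc))
  con : ∀ i b η, ℓ i = some (.inr b, η) → Red v (j (x i)) (algebraMap k (RF v) (c b).1) ∧
    Red v (j (yz c p x i)) (((η : ℤ) : RF v) * algebraMap k (RF v) (c b).2)

end Pool.Agent.LibHE77
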