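import Pool.Agent.LibHE77.G0

/-!
[HE77 G1] the generic polynomial and its zeros. Proof of `exists_fam`: `K = FractionRing (MvPolynomial (Fin D ⊕ Fin (r + 1)) k)` with the variables `xe`, `p`; `f.map - pol c p ^ 2` is monic of degree `NN r κ` (`natDegree (pol c p) ≤ r + κ`, as `κ ≤ 1`; `f` is monic: `Hyp.monic`).
`L` = splitting field over `K` of the product of `f.map - pol c p ^ 2` and the polynomials `Y ^ 2 - V_e(xe e)` (Mathlib: `Polynomial.SplittingField`, finite over `K`); `ye e` = a root of the latter; the zeros with multiplicity are a list `x` of length `NN r κ`; if `κ = 1` then `pol c p` has the value `(c 0).2` at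
`(c 0).1`, so `(c 0).1` is one of them: order them such that it is the last. `dim`: `L` is finite over `K`, `K` is the field generated by `xe`, `p`; `FunF` with `t = Sum.elim xe p ∘ finSumFinEquiv.symm`.
`fam_crv`: evaluate `spl` at `x i`. `fam_last`: `P1 c` vanishes at `(c i).1`, `P0 c = C (c i).2` as `κ = 1`. `fam_ne`: if `yz c p x i = 0` then `aeval (x i) f = 0`, so `x i = algebraMap k L α` (`k` is algebraically closed), `f.eval α = 0`; `(pol c p).eval (x i) = P0(α) + P1(α) ∑ p_i α^i = 0`; if `P1(α) ≠ 0` this is a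
non trivial polynomial relation between the `p i` (the coefficient of `p 0` is `P1(α)`): contradiction to `ind`. If `P1(α) = 0` then `α = (c i).1`, `f.eval α = (c i).2 ^ 2 ≠ 0`.
-/

open scoped Classical
open Polynomial

namespace Pool.Agent.LibHE77

open Pool.Agent.LibBH2
open Pool.Agent.LibCHd (VR RF Red FunF)
open Pool.Agent.LibHyp34 (Hyp Pt Pic jP)
open Pool.Agent.LibHD77 (MPt Pnt cst cyc cls CH Dia mk' og pnt cl Gen Gen1 Triv SpR mpt fld sq)
open Pool.Agent.LibHD77.Comb (Pat sub)

variable {k : Type} [Field k]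

private theorem G1_enum {K : Type*} (s : Multiset K) (r : ℕ) (h : Multiset.card s = r) :
    ∃ α : Fin r → K, (Finset.univ : Finset (Fin r)).val.map α = s := by
  obtain ⟨l, rfl⟩ : ∃ l : List K, s = (l : Multiset K) := ⟨s.toList, (Multiset.coe_toList s).symm⟩
  subst h
  refine ⟨l.get, ?_⟩
  have h1 := Fin.univ_val_map (n := l.length) l.get
  rw [List.ofFn_get] at h1
  exact h1

private theorem G1_list {L : Type} [Field L] (n : ℕ) (q : L[X]) (hm : q.Monic) (hs : q.Splits)
    (hd : q.natDegree = n + 1) (a : L) (ha : q.IsRoot a) :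
    ∃ x : Fin (n + 1) → L, q = ∏ i, (X - C (x i)) ∧ x (Fin.last n) = a := by
  have h1 : a ∈ q.roots := (mem_roots hm.ne_zero).2 ha
  obtain ⟨s, hs1⟩ := Multiset.exists_cons_of_mem h1
  have h2 : Multiset.card s = n := by
    have h3 := hs.natDegree_eq_card_roots
    rw [hs1, Multiset.card_cons, hd] at h3
    omega
  obtain ⟨α, hα⟩ := G1_enum s n h2
  refine ⟨Fin.snoc α a, ?_, Fin.snoc_last _ _⟩
  rw [Fin.prod_univ_castSucc]
  simp only [Fin.snoc_castSucc, Fin.snoc_last]
  have h4 := hs.eq_prod_roots_of_monic hm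
  rw [hs1, Multiset.map_cons, Multiset.prod_cons, ← hα, Multiset.map_map] at h4
  rw [mul_comm]
  exact h4

private theorem G1_polmap {K L : Type} [Field K] [Field L] [Algebra k K] [Algebra K L]
    [Algebra k L] [IsScalarTower k K L] {r κ : ℕ} (c : Fin κ → k × k) (p : Fin (r + 1) → K) :
    (pol c p).map (algebraMap K L) = pol c fun i => algebraMap K L (p i) := by
  unfold pol pq
  rw [Polynomial.map_add, Polynomial.map_mul, Polynomial.map_map, Polynomial.map_map,
    ← IsScalarTower.algebraMap_eq, Polynomial.map_sum]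
  simp only [Polynomial.map_mul, Polynomial.map_C, Polynomial.map_pow, Polynomial.map_X]

private theorem G1_deg {L : Type} [Field L] [Algebra k L] {r κ : ℕ} (c : Fin κ → k × k)
    (p : Fin (r + 1) → L) : (pol c p).natDegree ≤ r + κ := by
  unfold pol
  refine (natDegree_add_le _ _).trans (max_le ?_ ?_)
  · refine (natDegree_map_le).trans ?_
    unfold P0
    refine (natDegree_sum_le_of_forall_le _ _ (n := 0) fun i _ => ?_).trans (Nat.zero_le _)
    rw [natDegree_C]
  · refine natDegree_mul_le.trans ?_
    rw [add_comm r κ]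
    refine Nat.add_le_add ?_ ?_
    · refine (natDegree_map_le).trans ?_
      unfold P1
      refine (natDegree_prod_le _ _).trans ?_
      simp
    · unfold pq
      refine natDegree_sum_le_of_forall_le _ _ fun i _ => ?_
      refine (natDegree_C_mul_X_pow_le _ _).trans ?_
      have := i.2
      omega

private theorem G1_P1 {κ : ℕ} (c : Fin κ → k × k) (i : Fin κ) : (P1 c).eval (c i).1 = 0 := by
  unfold P1
  rw [eval_prod]
  exact Finset.prod_eq_zero (Finset.mem_univ i) (by simp)

private theorem G1_P0 {κ : ℕ} (hκ : κ ≤ 1) (c : Fin κ → k × k) (i : Fin κ) (y : k) :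
    (P0 c).eval y = (c i).2 := by
  unfold P0
  rw [eval_finsetSum]
  have h1 : ∀ j : Fin κ, j = i := fun j => Fin.ext (by have := j.2; have := i.2; omega)
  rw [Finset.sum_eq_single i (fun j _ hj => absurd (h1 j) hj)
    (fun h => absurd (Finset.mem_univ i) h), eval_C]

private theorem G1_poleval {L : Type} [Field L] [Algebra k L] {r κ : ℕ} (hκ : κ ≤ 1)
    (c : Fin κ → k × k) (p : Fin (r + 1) → L) (i : Fin κ) :
    (pol c p).eval (algebraMap k L (c i).1) = algebraMap k L (c i).2 := by
  unfold pol
  rw [eval_add, eval_mul, eval_map_apply, eval_map_apply, G1_P1, G1_P0 hκ c i, map_zero, zero_mul,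
    add_zero]

/-- the field `K(L)` generated by the variables -/
private theorem G1_fin {σ : Type} {K L : Type} [Field K] [Field L] [Algebra k K]
    [Algebra (MvPolynomial σ k) K] [IsScalarTower k (MvPolynomial σ k) K]
    [IsFractionRing (MvPolynomial σ k) K] [Algebra K L] [Algebra k L] [IsScalarTower k K L]
    [FiniteDimensional K L] (S : Set L)
    (hS : ∀ s : σ, algebraMap K L (algebraMap (MvPolynomial σ k) K (MvPolynomial.X s)) ∈ S) :
    FiniteDimensional (IntermediateField.adjoin k S) L := by
  have h1 : ∀ a : MvPolynomial σ k, algebraMap K L (algebraMap (MvPolynomial σ k) K a) ∈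
      IntermediateField.adjoin k S := by
    intro a
    induction a using MvPolynomial.induction_on with
    | C a =>
      have h2 : algebraMap K L (algebraMap (MvPolynomial σ k) K (MvPolynomial.C a)) =
          algebraMap k L a := by
        rw [← MvPolynomial.algebraMap_eq, ← IsScalarTower.algebraMap_apply k (MvPolynomial σ k) K,
          ← IsScalarTower.algebraMap_apply k K L]
      rw [h2]
      exact IntermediateField.algebraMap_mem _ _
    | add a b ha hb =>
      rw [map_add, map_add]
      exact add_mem ha hb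
    | mul_X a s ha =>
      rw [map_mul, map_mul]
      exact mul_mem ha (IntermediateField.subset_adjoin k S (hS s))
  have h2 : ∀ z : K, algebraMap K L z ∈ IntermediateField.adjoin k S := by
    intro z
    obtain ⟨a, b, _, rfl⟩ := IsFractionRing.div_surjective (A := MvPolynomial σ k) z
    rw [map_div₀]
    exact div_mem (h1 a) (h1 b)
  let φ : K →+* IntermediateField.adjoin k S :=
    (algebraMap K L).codRestrict (IntermediateField.adjoin k S).toSubfield h2
  let _ : Algebra K (IntermediateField.adjoin k S) := φ.toAlgebra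
  have : IsScalarTower K (IntermediateField.adjoin k S) L :=
    IsScalarTower.of_algebraMap_eq fun z => rfl
  exact Module.Finite.of_restrictScalars_finite K (IntermediateField.adjoin k S) L

theorem exists_fam {D r κ : ℕ} (f : k[X]) [Hyp f] (hf : f.natDegree = NN r κ) (V : Fin D → k[X])
    (c : Fin κ → k × k) (hκ : κ ≤ 1)
    (hc : ∀ i, (c i).2 ≠ 0 ∧ (c i).2 ^ 2 = f.eval (c i).1) :
    ∃ (L : Type) (_ : Field L) (_ : Algebra k L) (xe ye : Fin D → L) (p : Fin (r + 1) → L)
      (x : Fin (NN r κ) → L), Fam f V c xe ye p x := by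
  have hfm : f.Monic := Hyp.monic
  let σ : Type := Fin D ⊕ Fin (r + 1)
  let R : Type := MvPolynomial σ k
  let K : Type := FractionRing R
  let v : σ → K := fun s => algebraMap R K (MvPolynomial.X s)
  let pK : Fin (r + 1) → K := fun i => v (Sum.inr i)
  let Q : K[X] := f.map (algebraMap k K) - pol c pK ^ 2
  let E : Fin D → K[X] := fun e => X ^ 2 - C (aeval (v (Sum.inl e)) (V e))
  have hQdeg : (pol c pK ^ 2).natDegree < (f.map (algebraMap k K)).natDegree := by
    rw [hfm.natDegree_map, hf]
    refine lt_of_le_of_lt natDegree_pow_le ?_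
    have := G1_deg c pK
    unfold NN
    omega
  have hQm : Q.Monic := (hfm.map _).sub_of_left (degree_lt_degree hQdeg)
  have hQn : Q.natDegree = NN r κ := by
    show (f.map (algebraMap k K) - pol c pK ^ 2).natDegree = NN r κ
    rw [natDegree_sub_eq_left_of_natDegree_lt hQdeg, hfm.natDegree_map, hf]
  have hEm : ∀ e, (E e).Monic := fun e => monic_X_pow_sub_C _ (by norm_num)
  let P : K[X] := Q * ∏ e, E e
  have hP0 : P ≠ 0 := (hQm.mul (monic_prod_of_monic _ _ fun e _ => hEm e)).ne_zero
  let L : Type := P.SplittingField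
  have hPs : (P.map (algebraMap K L)).Splits := SplittingField.splits P
  have hP0' : P.map (algebraMap K L) ≠ 0 := (Polynomial.map_ne_zero_iff
    (algebraMap K L).injective).2 hP0
  have hinj : Function.Injective (algebraMap K L) := (algebraMap K L).injective
  let t : σ → L := fun s => algebraMap K L (v s)
  have hind : AlgebraicIndependent k t := by
    have h1 : AlgebraicIndependent k (MvPolynomial.X : σ → R) :=
      MvPolynomial.algebraicIndependent_X σ k
    have h2 : AlgebraicIndependent k v :=
      h1.map' (f := IsScalarTower.toAlgHom k R K) (IsFractionRing.injective R K)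
    exact h2.map' (f := IsScalarTower.toAlgHom k K L) hinj
  -- the points of the curves
  have hye : ∀ e : Fin D, ∃ y : L, y ^ 2 = aeval (t (Sum.inl e)) (V e) := by
    intro e
    have h1 : ((E e).map (algebraMap K L)).Splits := by
      refine Splits.of_dvd hPs hP0' (Polynomial.map_dvd _ ?_)
      exact (Finset.dvd_prod_of_mem E (Finset.mem_univ e)).mul_left Q
    have h2 : ((E e).map (algebraMap K L)).degree ≠ 0 := by
      rw [degree_map]
      show (X ^ 2 - C (aeval (v (Sum.inl e)) (V e))).degree ≠ 0
      rw [degree_X_pow_sub_C (by norm_num)]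
      norm_num
    obtain ⟨y, hy⟩ := h1.exists_eval_eq_zero h2
    refine ⟨y, ?_⟩
    have h3 : (E e).map (algebraMap K L) =
        X ^ 2 - C (algebraMap K L (aeval (v (Sum.inl e)) (V e))) := by
      show (X ^ 2 - C (aeval (v (Sum.inl e)) (V e))).map (algebraMap K L) = _
      rw [Polynomial.map_sub, Polynomial.map_pow, Polynomial.map_X, Polynomial.map_C]
    rw [h3, eval_sub, eval_pow, eval_X, eval_C, sub_eq_zero] at hy
    rw [hy]
    exact (aeval_algebraMap_apply L (v (Sum.inl e)) (V e)).symm
  choose ye hye using hye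
  -- the zeros
  let q : L[X] := Q.map (algebraMap K L)
  have hqs : q.Splits := Splits.of_dvd hPs hP0' (Polynomial.map_dvd _ (dvd_mul_right _ _))
  have hqm : q.Monic := hQm.map _
  have hqn : q.natDegree = 2 * (r + κ) + 1 := by
    show (Q.map (algebraMap K L)).natDegree = _
    rw [hQm.natDegree_map, hQn]
  have hqe : q = f.map (algebraMap k L) - pol c (fun i => t (Sum.inr i)) ^ 2 := by
    show (f.map (algebraMap k K) - pol c pK ^ 2).map (algebraMap K L) = _
    rw [Polynomial.map_sub, Polynomial.map_map, ← IsScalarTower.algebraMap_eq,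
      Polynomial.map_pow, G1_polmap]
  have hroot : ∃ a : L, q.IsRoot a ∧ ∀ i : Fin κ, a = algebraMap k L (c i).1 := by
    rcases Nat.eq_zero_or_pos κ with h0 | h0
    · subst h0
      have h1 : q.degree ≠ 0 := by
        intro h1
        have h2 := natDegree_eq_zero_iff_degree_le_zero.2 h1.le
        omega
      obtain ⟨a, ha⟩ := hqs.exists_eval_eq_zero h1
      exact ⟨a, ha, fun i => i.elim0⟩
    · refine ⟨algebraMap k L (c ⟨0, h0⟩).1, ?_, fun i => ?_⟩
      · rw [IsRoot.def, hqe, eval_sub, eval_pow, G1_poleval hκ, eval_map_apply, ← map_pow,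
          (hc ⟨0, h0⟩).2, sub_self]
      · have h1 : i = ⟨0, h0⟩ := Fin.ext (by have := i.2; show (i : ℕ) = 0; omega)
        rw [h1]
  obtain ⟨a, ha, ha'⟩ := hroot
  obtain ⟨x, hx1, hx2⟩ := G1_list (2 * (r + κ)) q hqm hqs hqn a ha
  refine ⟨L, inferInstance, inferInstance, fun e => t (Sum.inl e), ye, fun i => t (Sum.inr i), x,
    ?_, hf, hκ, hc, hye, ?_, ?_, ?_⟩
  · refine ⟨fun i => t (finSumFinEquiv.symm i), hind.comp _ finSumFinEquiv.symm.injective, ?_⟩
    refine G1_fin (K := K) (σ := σ) _ fun s => ?_
    exact ⟨finSumFinEquiv s, by simp only [Equiv.symm_apply_apply]; rfl⟩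
  · have h1 : (Sum.elim (fun e => t (Sum.inl e)) fun i => t (Sum.inr i)) = t := by
      funext s
      cases s <;> rfl
    rw [h1]
    exact hind
  · rw [← hqe]
    exact hx1
  · intro i
    rw [← ha' i]
    exact hx2

variable {D r κ : ℕ} {f : k[X]} {V : Fin D → k[X]} {c : Fin κ → k × k} {L : Type} [Field L]
  [Algebra k L] {xe ye : Fin D → L} {p : Fin (r + 1) → L} {x : Fin (NN r κ) → L}

theorem fam_crv (h : Fam f V c xe ye p x) (i : Fin (NN r κ)) :
    yz c p x i ^ 2 = aeval (x i) f := by
  have h1 := congrArg (fun P : L[X] => P.eval (x i)) h.spl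
  simp only [eval_sub, eval_pow, eval_prod, eval_X, eval_C] at h1
  rw [Finset.prod_eq_zero (Finset.mem_univ i) (sub_self _), sub_eq_zero] at h1
  unfold yz
  rw [← h1, eval_map_algebraMap]

theorem fam_last (h : Fam f V c xe ye p x) (i : Fin κ) :
    yz c p x (Fin.last _) = algebraMap k L (c i).2 := by
  unfold yz
  rw [h.fix i, G1_poleval h.kap]

theorem fam_ne [IsAlgClosed k] [Hyp f] (h : Fam f V c xe ye p x) (i : Fin (NN r κ)) :
    yz c p x i ≠ 0 := by
  intro h0
  have hfm : f.Monic := Hyp.monic
  have h1 : aeval (x i) f = 0 := by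
    rw [← fam_crv h i, h0]
    ring
  -- `x i` is in `k`
  obtain ⟨α, hα1, hα2⟩ : ∃ α : k, f.eval α = 0 ∧ x i = algebraMap k L α := by
    have h2 := (IsAlgClosed.splits f).eq_prod_roots_of_monic hfm
    have h3 : aeval (x i) f = (f.roots.map fun a => x i - algebraMap k L a).prod := by
      conv_lhs => rw [h2]
      rw [map_multiset_prod, Multiset.map_map]
      refine congrArg Multiset.prod (Multiset.map_congr rfl fun a _ => ?_)
      simp
    rw [h3, Multiset.prod_eq_zero_iff, Multiset.mem_map] at h1
    obtain ⟨α, hα, hα'⟩ := h1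
    exact ⟨α, (mem_roots hfm.ne_zero).1 hα, sub_eq_zero.1 hα'⟩
  have h4 : algebraMap k L ((P0 c).eval α) + algebraMap k L ((P1 c).eval α) *
      ∑ j : Fin (r + 1), p j * algebraMap k L α ^ (j : ℕ) = 0 := by
    rw [← h0]
    unfold yz pol pq
    rw [hα2, eval_add, eval_mul, eval_map_apply, eval_map_apply, eval_finsetSum]
    simp only [eval_mul, eval_C, eval_pow, eval_X]
  by_cases h5 : (P1 c).eval α = 0
  · unfold P1 at h5
    rw [eval_prod, Finset.prod_eq_zero_iff] at h5
    obtain ⟨j, _, hj⟩ := h5
    rw [eval_sub, eval_X, eval_C, sub_eq_zero] at hj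
    have h6 := (h.con j).2
    rw [← hj, hα1] at h6
    exact (h.con j).1 (pow_eq_zero_iff (by norm_num) |>.1 h6)
  · let G : MvPolynomial (Fin D ⊕ Fin (r + 1)) k :=
      MvPolynomial.C ((P0 c).eval α) + MvPolynomial.C ((P1 c).eval α) *
        ∑ j : Fin (r + 1), MvPolynomial.X (Sum.inr j) * MvPolynomial.C (α ^ (j : ℕ))
    have h6 : MvPolynomial.aeval (Sum.elim xe p) G = 0 := by
      rw [← h4]
      show MvPolynomial.aeval (Sum.elim xe p) (MvPolynomial.C ((P0 c).eval α) +
        MvPolynomial.C ((P1 c).eval α) *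
        ∑ j : Fin (r + 1), MvPolynomial.X (Sum.inr j) * MvPolynomial.C (α ^ (j : ℕ))) = _
      simp only [map_add, map_mul, map_sum, MvPolynomial.aeval_X, Sum.elim_inr,
        MvPolynomial.algHom_C, map_pow]
    have h7 : G = 0 := h.ind.eq_zero_of_aeval_eq_zero G h6
    have h8 := congrArg (MvPolynomial.eval (0 : Fin D ⊕ Fin (r + 1) → k)) h7
    have h9 := congrArg (MvPolynomial.eval
      (fun s : Fin D ⊕ Fin (r + 1) => if s = Sum.inr 0 then (1 : k) else 0)) h7
    have e1 : MvPolynomial.eval (0 : Fin D ⊕ Fin (r + 1) → k) G = (P0 c).eval α := by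
      show MvPolynomial.eval _ (MvPolynomial.C ((P0 c).eval α) +
        MvPolynomial.C ((P1 c).eval α) *
        ∑ j : Fin (r + 1), MvPolynomial.X (Sum.inr j) * MvPolynomial.C (α ^ (j : ℕ))) = _
      simp
    have e2 : MvPolynomial.eval
        (fun s : Fin D ⊕ Fin (r + 1) => if s = Sum.inr 0 then (1 : k) else 0) G =
        (P0 c).eval α + (P1 c).eval α := by
      show MvPolynomial.eval _ (MvPolynomial.C ((P0 c).eval α) +
        MvPolynomial.C ((P1 c).eval α) *
        ∑ j : Fin (r + 1), MvPolynomial.X (Sum.inr j) * MvPolynomial.C (α ^ (j : ℕ))) = _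
      simp only [map_add, map_mul, map_sum, MvPolynomial.eval_X, MvPolynomial.eval_C]
      rw [Finset.sum_eq_single (0 : Fin (r + 1))]
      · simp
      · intro j _ hj
        rw [if_neg (fun h => hj (Sum.inr_injective h)), zero_mul]
      · intro hn
        exact absurd (Finset.mem_univ _) hn
    rw [e1, map_zero] at h8
    rw [e2, map_zero, h8, zero_add] at h9
    exact h5 h9

end Pool.Agent.LibHE77
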