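import Pool.Agent.LibHE77.G1
import Pool.Agent.LibHD77.U3
import Pool.Agent.LibHD77.P1
import Pool.Agent.LibHL77.B5

/-!
[HE77 G10] places of `M = L(C)` which are not trivial on `L`, first part. Proof of `cyc_trdeg`: every coordinate of `q` is algebraic over `E`: a coordinate `.inl s` specializes to `cst` (in `k`), a coordinate with the point `b` to `.inf` or to `(x̄, ± ȳ)` with `Red v (ex j X _ b) x̄`, `ȳ ^ 2 = aeval x̄ (..)` (`SpR`). So `fld q` is contained in the algebraic
closure of `E` in `RF v`, which has the same transcendence degree as `E`; if this is less than `D + (r + 1)` then `cyc q = 0` by `cyc_eq_zero_of_fld` (HD77 P1). `ord_of_reg`: `exists_restr` (HL77 B1; `v` restricted to `L` is a place `v'` up to a factor `e > 0`), `exists_resHom`: `RF v' → RF v`, image `E`, `trdeg k E ≤ D + r`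
(`B5_trdeg`, HL77 B5, `fam.dim`). The residues of the regular `j (xe e)`, `j (x i)` are in `E`. By `cyc_trdeg` `X` is regular and its residue `X̄` is transcendental over `E`. The `p i` are regular (`hp`), so `phi` is regular with residue `Ȳ - P̄(X̄)`, `P̄` a polynomial with coefficients in `E` (the residues of the
coefficients of `pol c p`); if it were zero then `aeval X̄ f = P̄(X̄) ^ 2` and `f.map = P̄ ^ 2` over `E`: the degree of `f` is odd. So `v.ord phi = 0`.
-/

open scoped Classical
open Polynomial

namespace Pool.Agent.LibHE77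

open Pool.Agent.LibBH2
open Pool.Agent.LibCHd (VR RF Red FunF)
open Pool.Agent.LibHyp34 (Hyp Pt Pic jP)
open Pool.Agent.LibHD77 (MPt Pnt cst cyc cls CH Dia mk' og pnt cl Gen Gen1 Triv SpR mpt fld sq)
open Pool.Agent.LibHD77.Comb (Pat sub)

variable {k : Type} [Field k]
  {D r κ : ℕ} {f : k[X]} {V : Fin D → k[X]} {c : Fin κ → k × k} {L : Type} [Field L]
  [Algebra k L] {xe ye : Fin D → L} {p : Fin (r + 1) → L} {x : Fin (NN r κ) → L} {n : ℕ}
  {F : Fin n → k[X]}

/-- the algebraic closure does not change the transcendence degree -/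
theorem G10_trdeg {R : Type} [Field R] [Algebra k R] (E : IntermediateField k R) :
    Algebra.trdeg k ((algebraicClosure E R).restrictScalars k) = Algebra.trdeg k E := by
  have h0 : Algebra.trdeg E (algebraicClosure E R) = 0 :=
    trdeg_eq_zero_iff.2 inferInstance
  have hf : FaithfulSMul E (algebraicClosure E R) :=
    (faithfulSMul_iff_algebraMap_injective _ _).2 (algebraMap E (algebraicClosure E R)).injective
  have h1 : Algebra.trdeg k E + Algebra.trdeg E (algebraicClosure E R) =
      Algebra.trdeg k (algebraicClosure E R) := trdeg_add_eq k E (A := algebraicClosure E R)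
  rw [h0, add_zero] at h1
  rw [h1]
  rfl

/-- the coordinates of a specialisation are algebraic over a field which contains the
specialisation of the first coordinate -/
theorem G10_xy {K : Type} [Field K] [Algebra k K] (v : Place k K) (E : IntermediateField k (RF v))
    {g : k[X]} (P : MPt g K) (q : MPt g (RF v)) (h : SpR v P q)
    (hx : ∀ a b hab, P = .aff a b hab → ∀ z, Red v a z → IsAlgebraic E z) (i : Fin 2) :
    IsAlgebraic E (Pool.Agent.LibHD77.xy q i) := by
  match P, q with
  | .inf, q =>
    have h1 : q = .inf := h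
    rw [h1]
    exact isAlgebraic_zero
  | .aff a b hab, .inf => exact isAlgebraic_zero
  | .aff a b hab, .aff a₀ b₀ h₀ =>
    have h1 : IsAlgebraic E a₀ := hx a b hab rfl a₀ h.1
    have h2 : IsAlgebraic E b₀ := by
      have h3 : IsAlgebraic E (b₀ ^ 2) := by
        rw [h₀, eval_map_algebraMap]
        let A : IntermediateField k (RF v) := (algebraicClosure E (RF v)).restrictScalars k
        have ha : a₀ ∈ A := (mem_algebraicClosure_iff).2 h1
        have e1 : aeval a₀ g = A.val (aeval (⟨a₀, ha⟩ : A) g) :=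
          aeval_algHom_apply A.val (⟨a₀, ha⟩ : A) g
        rw [e1]
        exact (mem_algebraicClosure_iff).1 (aeval (⟨a₀, ha⟩ : A) g).2
      exact h3.of_pow (by norm_num)
    fin_cases i
    · exact h1
    · exact h2

theorem cyc_trdeg (h : Fam f V c xe ye p x) {M : Type} [Field M] [Algebra k M] (j : L →ₐ[k] M)
    {X Y : M} (hY : Y ^ 2 = aeval X f)
    (δ : Pat (fun a => Pt (F a)) (Option (Fin D ⊕ Fin (NN r κ)))) (hδ : Lab F δ (wl V f))
    (v : Place k M) (hv : FunF k (D + (r + 1)) (RF v)) (q : Pnt F (RF v))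
    (hq : ∀ a, SpR v (pgt δ (ex j X (Sum.elim xe x)) (ex j Y (Sum.elim ye (yz c p x))) a) (q a))
    (hc : cyc q ≠ 0) (E : IntermediateField k (RF v))
    (h1 : ∀ e z, Red v (j (xe e)) z → IsAlgebraic E z)
    (h2 : ∀ i z, Red v (j (x i)) z → IsAlgebraic E z)
    (h3 : ∀ z, Red v X z → IsAlgebraic E z) :
    ((D + (r + 1) : ℕ) : Cardinal) ≤ Algebra.trdeg k E := by
  by_contra hcon
  rw [not_le] at hcon
  apply hc
  refine Pool.Agent.LibHD77.cyc_eq_zero_of_fld hv q ((algebraicClosure E (RF v)).restrictScalars k)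
    (by rwa [G10_trdeg]) ?_
  rw [fld, IntermediateField.adjoin_le_iff]
  rintro _ ⟨⟨a, i⟩, rfl⟩
  change Pool.Agent.LibHD77.xy (q a) i ∈ algebraicClosure E (RF v)
  rw [mem_algebraicClosure_iff]
  refine G10_xy v E _ _ (hq a) ?_ i
  intro s t hst hP z hz
  unfold pgt at hP
  rcases hδa : δ a with s' | ⟨b, ε⟩
  · rw [hδa] at hP
    change cst M s' = _ at hP
    match s' with
    | .inf => cases hP
    | .aff x' y' h' =>
      have h4 : algebraMap k M x' = s := by
        have := congrArg (fun P => Pool.Agent.LibHD77.xy P 0) hP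
        exact this
      rw [← h4] at hz
      rw [hz.unique (LibCHd.red_const v x')]
      exact isAlgebraic_algebraMap (A := RF v) (algebraMap k E x')
  · rw [hδa] at hP
    change mk' (F a) (ex j X (Sum.elim xe x) b) (((ε : ℤ) : M) * ex j Y (Sum.elim ye (yz c p x)) b) =
      _ at hP
    have h4 : ex j X (Sum.elim xe x) b = s := by
      unfold Pool.Agent.LibHD77.mk' at hP
      split_ifs at hP with h5
      have := congrArg (fun P => Pool.Agent.LibHD77.xy P 0) hP
      exact this
    rw [← h4] at hz
    match b with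
    | none => exact h3 z hz
    | some (.inl e) => exact h1 e z hz
    | some (.inr i) => exact h2 i z hz

/-- residues of the values of `pol c p` -/
theorem G10_red {M : Type} [Field M] [Algebra k M] (j : L →ₐ[k] M) (v : Place k M)
    (b : Fin (r + 1) → RF v) (hb : ∀ i, Red v (j (p i)) (b i)) {X : M} {z : RF v}
    (hX : Red v X z) : Red v ((pol c p).eval₂ (j : L →+* M) X) ((pol c b).eval z) := by
  have hsum : ∀ s : Finset (Fin (r + 1)),
      Red v (∑ i ∈ s, j (p i) * X ^ (i : ℕ)) (∑ i ∈ s, b i * z ^ (i : ℕ)) := by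
    intro s
    induction s using Finset.induction_on with
    | empty => simpa using LibCHd.red_zero v
    | insert a s ha ih =>
      rw [Finset.sum_insert ha, Finset.sum_insert ha]
      exact ((hb a).mul (hX.pow _)).add ih
  have e1 : (pol c p).eval₂ (j : L →+* M) X =
      aeval X (P0 c) + aeval X (P1 c) * ∑ i, j (p i) * X ^ (i : ℕ) := by
    have hj : (j : L →+* M).comp (algebraMap k L) = algebraMap k M := j.comp_algebraMap
    rw [pol, eval₂_add, eval₂_mul, eval₂_map, eval₂_map, hj, pq, eval₂_finsetSum]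
    simp only [eval₂_mul, eval₂_C, eval₂_pow, eval₂_X]
    rfl
  have e2 : (pol c b).eval z =
      aeval z (P0 c) + aeval z (P1 c) * ∑ i, b i * z ^ (i : ℕ) := by
    rw [pol, eval_add, eval_mul, eval_map_algebraMap, eval_map_algebraMap, pq, eval_finsetSum]
    simp only [eval_mul, eval_C, eval_pow, eval_X]
  rw [e1, e2]
  exact (Pool.Agent.LibHD77.red_aeval hX _).add
    ((Pool.Agent.LibHD77.red_aeval hX _).mul (hsum Finset.univ))

theorem ord_of_reg [Hyp f] (h : Fam f V c xe ye p x) {M : Type} [Field M] [Algebra k M]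
    (j : L →ₐ[k] M) {X Y : M} (hY : Y ^ 2 = aeval X f)
    (δ : Pat (fun a => Pt (F a)) (Option (Fin D ⊕ Fin (NN r κ)))) (hδ : Lab F δ (wl V f))
    (v : Place k M) (hv : FunF k (D + (r + 1)) (RF v)) (q : Pnt F (RF v))
    (hq : ∀ a, SpR v (pgt δ (ex j X (Sum.elim xe x)) (ex j Y (Sum.elim ye (yz c p x))) a) (q a))
    (hc : cyc q ≠ 0) (hn : ∃ m, v.ord (j m) ≠ 0) (hp : ∀ i, v.Reg (j (p i))) :
    v.ord (phi j c p X Y) = 0 := by
  have hr := LibCHd.isRes_resF v
  set E : IntermediateField k (RF v) := LibCHd.resField hr j with hEdef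
  have hE : Algebra.trdeg k E < (D + (r + 1) : ℕ) :=
    LibCHd.trdeg_resField h.dim.trdeg.le hr j hn
  have hmem : ∀ m z, Red v (j m) z → z ∈ E := by
    intro m z hz
    obtain ⟨h1, h2⟩ := LibCHd.red_iff.1 hz
    exact ⟨m, h1, h2⟩
  have halg : ∀ m z, Red v (j m) z → IsAlgebraic E z := by
    intro m z hz
    exact isAlgebraic_algebraMap (A := RF v) (⟨z, hmem m z hz⟩ : E)
  have hX : ∃ z, Red v X z ∧ ¬ IsAlgebraic E z := by
    by_contra hcon
    push Not at hcon
    exact absurd (cyc_trdeg h j hY δ hδ v hv q hq hc E (fun e => halg _) (fun i => halg _) hcon)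
      (not_le.2 hE)
  obtain ⟨z, hz, htr⟩ := hX
  choose b hb using fun i => LibCHd.exists_red (hp i)
  have hfz := Pool.Agent.LibHD77.red_aeval hz f
  have hYr : v.Reg Y := by
    by_cases h0 : Y = 0
    · exact Or.inl h0
    · have h1 : v.Reg (Y ^ 2) := by
        rw [hY]
        exact hfz.reg
      have h2 := h1.resolve_left (pow_ne_zero 2 h0)
      rw [v.ord_pow] at h2
      right
      push_cast at h2
      omega
  obtain ⟨y, hy⟩ := LibCHd.exists_red hYr
  have hy2 : y ^ 2 = aeval z f := by
    have h3 := hy.pow 2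
    rw [hY] at h3
    exact h3.unique hfz
  have hphi : Red v (phi j c p X Y) (y - (pol c b).eval z) := hy.sub (G10_red j v b hb hz)
  refine hphi.ord_eq_zero ?_
  intro h0
  have h4 : y = (pol c b).eval z := sub_eq_zero.1 h0
  apply htr
  let b' : Fin (r + 1) → E := fun i => ⟨b i, hmem _ _ (hb i)⟩
  have h5 : (pol c b').map (algebraMap E (RF v)) = pol c b := by
    have h6 : (algebraMap E (RF v)).comp (algebraMap k E) = algebraMap k (RF v) := rfl
    rw [pol, pol, Polynomial.map_add, Polynomial.map_mul, Polynomial.map_map, Polynomial.map_map,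
      h6, pq, pq, Polynomial.map_sum]
    congr 2
    refine Finset.sum_congr rfl fun i _ => ?_
    rw [Polynomial.map_mul, Polynomial.map_pow, map_C, map_X]
    rfl
  refine ⟨f.map (algebraMap k E) - (pol c b') ^ 2, ?_, ?_⟩
  · intro h6
    have h7 : (f.map (algebraMap k E)).natDegree = 2 * (pol c b').natDegree := by
      rw [sub_eq_zero.1 h6, natDegree_pow]
    rw [natDegree_map] at h7
    have h8 := (inferInstance : Hyp f).odd
    rw [h7] at h8
    exact (Nat.not_odd_iff_even.2 (even_two_mul _)) h8
  · rw [map_sub, map_pow]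
    have h6 : aeval z (f.map (algebraMap k E)) = aeval z f := aeval_map_algebraMap _ _ _
    have h7 : aeval z (pol c b') = (pol c b).eval z := by
      rw [← h5, eval_map_algebraMap]
    rw [h6, h7, ← h4, ← hy2, sub_self]

end Pool.Agent.LibHE77
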