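import Pool.Agent.LibHE77.G10

/-!
[HE77 G11] places of `M = L(C)` which are not trivial on `L`, second part. Proof of `vert_of_pole`. Choose `i₀` with `v.ord (j (p i₀))` minimal (`< 0` by `hp`). `b i` = the residue of `j (p i / p i₀)` (regular), `b i₀ = 1`. If `j (x i)` is regular with residue `z`: `aeval (x i) f = (pol c p).eval (x i) ^ 2` (`fam_crv`); divide by
`(p i₀) ^ 2`: `((pol c p).eval (x i) / p i₀) ^ 2` has residue zero, and `(pol c p).eval (x i) / p i₀ = P0(x i) / p i₀ + P1(x i) * ∑ (p m / p i₀) (x i)^m` has residue `P1(z) * ∑ (b m) z^m`: so `P1(z) * ∑ (b m) z^m = 0`, and as `b ≠ 0` (`b i₀ = 1`) `z` is algebraic over `k(b)`. Let `E` be generated by the residues of the regular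
ones among `j (xe e)`, by the `b m`, `m ≠ i₀`, and by the residue of `X` if it is regular: at most `D + r + 1` generators. By `cyc_trdeg` (G10) `trdeg k E ≥ D + r + 1`: so all `j (xe e)` and `X` are regular and these generators are algebraically independent. Hence `b (Fin.last r) ≠ 0` (it is `1` or transcendental),
`v.ord (j (p (Fin.last r))) = v.ord (j (p i₀)) < 0`, and the residues of the `p m / p_r`, `m < r`, generate the same field as the `b m`, `m ≠ i₀`: with `xe`, `X` they are again `D + r + 1` generators of `E`, so independent: `Vert` (the residue of `aeval (vz ..) G` is `aeval (residues) G ≠ 0`).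
`vert_of_cyc`: `ord_of_reg` (G10) and `vert_of_pole`.
-/

open scoped Classical
open Polynomial

namespace Pool.Agent.LibHE77

open Pool.Agent.LibBH2
open Pool.Agent.LibCHd (VR RF Red FunF)
open Pool.Agent.LibHyp34 (Hyp Pt Pic jP)
open Pool.Agent.LibHD77 (MPt Pnt cst cyc cls CH Dia mk' og pnt cl Gen Gen1 Triv SpR mpt fld sq)
open Pool.Agent.LibHD77.Comb (Pat sub)

variable {k : Type} [Field k]
  {D r κ : ℕ} {f : k[X]} {V : Fin D → k[X]} {c : Fin κ → k × k} {L : Type} [Field L]
  [Algebra k L] {xe ye : Fin D → L} {p : Fin (r + 1) → L} {x : Fin (NN r κ) → L} {n : ℕ}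
  {F : Fin n → k[X]}

private theorem G11_red_mv {M : Type} [Field M] [Algebra k M] {v : Place k M} {ι : Type}
    {u : ι → M} {w : ι → RF v} (h : ∀ i, Red v (u i) (w i)) (G : MvPolynomial ι k) :
    Red v (MvPolynomial.aeval u G) (MvPolynomial.aeval w G) := by
  induction G using MvPolynomial.induction_on with
  | C c =>
    rw [MvPolynomial.aeval_C, MvPolynomial.aeval_C]
    exact LibCHd.red_const v c
  | add p q hp hq =>
    rw [map_add, map_add]
    exact hp.add hq
  | mul_X p i hp =>
    rw [map_mul, map_mul, MvPolynomial.aeval_X, MvPolynomial.aeval_X]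
    exact hp.mul (h i)

private theorem G11_red_sum {M : Type} [Field M] [Algebra k M] {v : Place k M} {ι : Type}
    (s : Finset ι) (u : ι → M) (w : ι → RF v) (h : ∀ i ∈ s, Red v (u i) (w i)) :
    Red v (∑ i ∈ s, u i) (∑ i ∈ s, w i) := by
  classical
  induction s using Finset.induction_on with
  | empty =>
    rw [Finset.sum_empty, Finset.sum_empty]
    exact LibCHd.red_zero v
  | insert a s ha ih =>
    rw [Finset.sum_insert ha, Finset.sum_insert ha]
    exact (h a (Finset.mem_insert_self a s)).add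
      (ih fun i hi => h i (Finset.mem_insert_of_mem hi))

private theorem G11_ind {R : Type} [Field R] [Algebra k R] {ι : Type} [Fintype ι] (g : ι → R)
    (h : (Fintype.card ι : Cardinal) ≤
      Algebra.trdeg k (IntermediateField.adjoin k (Set.range g))) :
    AlgebraicIndependent k g := by
  let g' : ι → IntermediateField.adjoin k (Set.range g) := fun i =>
    ⟨g i, IntermediateField.subset_adjoin k _ ⟨i, rfl⟩⟩
  have h1 : IntermediateField.adjoin k (Set.range g') = ⊤ := by
    apply IntermediateField.lift_injective (IntermediateField.adjoin k (Set.range g))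
    rw [IntermediateField.lift_adjoin, IntermediateField.lift_top, ← Set.range_comp]
    rfl
  have h2 : Algebra.IsAlgebraic (IntermediateField.adjoin k (Set.range g'))
      (IntermediateField.adjoin k (Set.range g)) := by
    rw [h1]
    exact ⟨fun z => isAlgebraic_algebraMap
      (⟨z, IntermediateField.mem_top⟩ :
        (⊤ : IntermediateField k (IntermediateField.adjoin k (Set.range g))))⟩
  have h3 : Algebra.IsAlgebraic (Algebra.adjoin k (Set.range g'))
      (IntermediateField.adjoin k (Set.range g)) :=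
    IntermediateField.isAlgebraic_adjoin_iff_top.1 h2
  have h4 := Algebra.IsAlgebraic.isTranscendenceBasis_of_le_trdeg_of_finite k g' (by
    rw [Cardinal.mk_fintype]
    exact h)
  exact h4.1.map' (f := (IntermediateField.adjoin k (Set.range g)).val) Subtype.val_injective

private theorem G11_yz (i : Fin (NN r κ)) :
    yz c p x i = aeval (x i) (P0 c) + aeval (x i) (P1 c) * ∑ m, p m * x i ^ (m : ℕ) := by
  unfold yz pol pq
  rw [eval_add, eval_mul, eval_map_algebraMap, eval_map_algebraMap, eval_finsetSum]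
  simp

private theorem G11_alg (h : Fam f V c xe ye p x) {M : Type} [Field M] [Algebra k M]
    (j : L →ₐ[k] M) (v : Place k M) (i₀ : Fin (r + 1)) (hi : v.ord (j (p i₀)) < 0)
    (b : Fin (r + 1) → RF v) (hb : ∀ m, Red v (j (p m / p i₀)) (b m)) (hb0 : b i₀ = 1)
    (E : IntermediateField k (RF v)) (hE : ∀ m, b m ∈ E) (i : Fin (NN r κ)) (z : RF v)
    (hz : Red v (j (x i)) z) : IsAlgebraic E z := by
  have hj0 : j (p i₀) ≠ 0 := by
    intro h0
    rw [h0, v.ord_zero] at hi
    exact lt_irrefl _ hi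
  have ht : Red v (j (p i₀))⁻¹ 0 := by
    rw [LibCHd.red_zero_iff]
    refine Or.inr ?_
    rw [v.ord_inv]
    omega
  have h1 : (j (yz c p x i) * (j (p i₀))⁻¹) = aeval (j (x i)) (P0 c) * (j (p i₀))⁻¹ +
      aeval (j (x i)) (P1 c) * ∑ m, j (p m / p i₀) * j (x i) ^ (m : ℕ) := by
    rw [G11_yz, map_add, map_mul, map_sum, ← aeval_algHom_apply, ← aeval_algHom_apply, add_mul,
      mul_assoc, Finset.sum_mul]
    congr 2
    refine Finset.sum_congr rfl fun m _ => ?_
    rw [map_mul, map_pow, map_div₀]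
    ring
  have h2 : Red v (j (yz c p x i) * (j (p i₀))⁻¹) (aeval z (P0 c) * 0 +
      aeval z (P1 c) * ∑ m, b m * z ^ (m : ℕ)) := by
    rw [h1]
    exact ((LibHD77.red_aeval hz _).mul ht).add ((LibHD77.red_aeval hz _).mul
      (G11_red_sum _ _ _ fun m _ => (hb m).mul (hz.pow _)))
  have h3 : Red v ((j (yz c p x i) * (j (p i₀))⁻¹) ^ 2) (aeval z f * 0 ^ 2) := by
    rw [mul_pow, ← map_pow, fam_crv h, ← aeval_algHom_apply]
    exact (LibHD77.red_aeval hz _).mul (ht.pow 2)
  have h4 := (h2.pow 2).unique h3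
  rw [mul_zero, zero_add, zero_pow two_ne_zero, mul_zero] at h4
  have h5 := pow_eq_zero_iff two_ne_zero |>.1 h4
  rcases mul_eq_zero.1 h5 with h6 | h6
  · have h7 : IsAlgebraic k z := ⟨P1 c, Finset.prod_ne_zero_iff.2 fun i _ => X_sub_C_ne_zero _, h6⟩
    exact h7.tower_top E
  · refine ⟨∑ m : Fin (r + 1), C (⟨b m, hE m⟩ : E) * X ^ (m : ℕ), ?_, ?_⟩
    · intro h0
      have h7 := congrArg (fun Q => Polynomial.coeff Q (i₀ : ℕ)) h0
      simp only [finsetSum_coeff, coeff_C_mul_X_pow, coeff_zero] at h7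
      rw [Finset.sum_eq_single i₀] at h7
      · rw [if_pos rfl] at h7
        have h8 := congrArg Subtype.val h7
        change b i₀ = 0 at h8
        rw [hb0] at h8
        exact one_ne_zero h8
      · intro m _ hm
        rw [if_neg]
        intro h8
        exact hm (Fin.ext h8.symm)
      · intro h8
        exact absurd (Finset.mem_univ _) h8
    · rw [map_sum, ← h6]
      refine Finset.sum_congr rfl fun m _ => ?_
      rw [map_mul, aeval_C, map_pow, aeval_X]
      rfl

theorem vert_of_pole [Hyp f] (h : Fam f V c xe ye p x) {M : Type} [Field M] [Algebra k M]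
    (j : L →ₐ[k] M) {X Y : M} (hY : Y ^ 2 = aeval X f)
    (δ : Pat (fun a => Pt (F a)) (Option (Fin D ⊕ Fin (NN r κ)))) (hδ : Lab F δ (wl V f))
    (v : Place k M) (hv : FunF k (D + (r + 1)) (RF v)) (q : Pnt F (RF v))
    (hq : ∀ a, SpR v (pgt δ (ex j X (Sum.elim xe x)) (ex j Y (Sum.elim ye (yz c p x))) a) (q a))
    (hc : cyc q ≠ 0) (hp : ¬ ∀ i, v.Reg (j (p i))) : Vert j X xe p v := by
  obtain ⟨i₀, -, hmin⟩ := Finset.exists_min_image Finset.univ (fun i => v.ord (j (p i)))
    ⟨Fin.last r, Finset.mem_univ _⟩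
  have hpne : ∀ i, p i ≠ 0 := fun i => h.ind.ne_zero (Sum.inr i)
  have hjp : ∀ i, j (p i) ≠ 0 := fun i => (map_ne_zero j).2 (hpne i)
  have hi : v.ord (j (p i₀)) < 0 := by
    by_contra h0
    exact hp fun i => Or.inr ((not_lt.1 h0).trans (hmin i (Finset.mem_univ _)))
  have hreg : ∀ m, v.Reg (j (p m / p i₀)) := fun m => by
    refine Or.inr ?_
    rw [map_div₀, v.ord_div _ _ (hjp m) (hjp i₀)]
    have := hmin m (Finset.mem_univ _)
    omega
  choose b hb using fun m => LibCHd.exists_red (hreg m)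
  have hb0 : b i₀ = 1 := by
    have h1 := hb i₀
    rw [div_self (hpne i₀), map_one] at h1
    exact h1.unique (LibCHd.red_one v)
  have hex : ∀ y : M, ∃ z : RF v, (v.Reg y → Red v y z) ∧ (¬ v.Reg y → z = 0) := by
    intro y
    by_cases hy : v.Reg y
    · obtain ⟨z, hz⟩ := LibCHd.exists_red hy
      exact ⟨z, fun _ => hz, fun h0 => absurd hy h0⟩
    · exact ⟨0, fun h0 => absurd h0 hy, fun _ => rfl⟩
  choose ρ hρ1 hρ2 using hex
  have hcard : (Fintype.card (Option (Fin D ⊕ Fin r)) : Cardinal) = ((D + (r + 1) : ℕ) : Cardinal) := by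
    rw [Fintype.card_option, Fintype.card_sum, Fintype.card_fin, Fintype.card_fin, add_assoc]
  -- a general criterion
  have key : ∀ g : Option (Fin D ⊕ Fin r) → RF v, g none = ρ X →
      (∀ e, g (some (.inl e)) = ρ (j (xe e))) →
      (∀ m, b m ∈ IntermediateField.adjoin k (Set.range g)) → AlgebraicIndependent k g := by
    intro g hg1 hg2 hg3
    refine G11_ind g ?_
    rw [hcard]
    refine cyc_trdeg h j hY δ hδ v hv q hq hc _ (fun e z hz => ?_) (fun i z hz =>
      G11_alg h j v i₀ hi b hb hb0 _ hg3 i z hz) (fun z hz => ?_)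
    · have h1 : z = g (some (.inl e)) := by
        rw [hg2]
        exact hz.unique (hρ1 _ hz.reg)
      exact isAlgebraic_algebraMap (⟨z, IntermediateField.subset_adjoin k _ ⟨_, h1.symm⟩⟩ :
        IntermediateField.adjoin k (Set.range g))
    · have h1 : z = g none := by
        rw [hg1]
        exact hz.unique (hρ1 _ hz.reg)
      exact isAlgebraic_algebraMap (⟨z, IntermediateField.subset_adjoin k _ ⟨_, h1.symm⟩⟩ :
        IntermediateField.adjoin k (Set.range g))
  have hg : AlgebraicIndependent k (o3 (ρ X) (fun e => ρ (j (xe e)))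
      (fun m => b (i₀.succAbove m))) := by
    refine key _ rfl (fun _ => rfl) fun m => ?_
    by_cases hm : m = i₀
    · rw [hm, hb0]
      exact one_mem _
    · obtain ⟨m', rfl⟩ := Fin.exists_succAbove_eq hm
      exact IntermediateField.subset_adjoin k _ ⟨some (.inr m'), rfl⟩
  have hX : v.Reg X := by
    by_contra h0
    exact hg.ne_zero none (hρ2 X h0)
  have hxe : ∀ e, v.Reg (j (xe e)) := by
    intro e
    by_contra h0
    exact hg.ne_zero (some (.inl e)) (hρ2 _ h0)
  have hbr : b (Fin.last r) ≠ 0 := by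
    by_cases hl : Fin.last r = i₀
    · rw [hl, hb0]
      exact one_ne_zero
    · obtain ⟨m', hm'⟩ := Fin.exists_succAbove_eq hl
      rw [← hm']
      exact hg.ne_zero (some (.inr m'))
  have hord : v.ord (j (p (Fin.last r))) < 0 := by
    have h1 := (hb (Fin.last r)).ord_eq_zero hbr
    rw [map_div₀, v.ord_div _ _ (hjp _) (hjp i₀)] at h1
    omega
  have hg₂ : AlgebraicIndependent k (o3 (ρ X) (fun e => ρ (j (xe e)))
      (fun m => b m.castSucc / b (Fin.last r))) := by
    refine key _ rfl (fun _ => rfl) fun m => ?_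
    have h1 : ∀ m, b m / b (Fin.last r) ∈ IntermediateField.adjoin k (Set.range
        (o3 (ρ X) (fun e => ρ (j (xe e))) (fun m => b m.castSucc / b (Fin.last r)))) := by
      intro m
      refine Fin.lastCases ?_ (fun m' => ?_) m
      · rw [div_self hbr]
        exact one_mem _
      · exact IntermediateField.subset_adjoin k _ ⟨some (.inr m'), rfl⟩
    have h2 := div_mem (h1 m) (h1 i₀)
    rw [hb0, div_div_div_cancel_right₀ hbr, div_one] at h2
    exact h2
  refine ⟨hord, fun G hG => ?_⟩
  have hred : ∀ i, Red v (vz j X xe p i) (o3 (ρ X) (fun e => ρ (j (xe e)))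
      (fun m => b m.castSucc / b (Fin.last r)) i) := by
    rintro (_ | e | m)
    · exact hρ1 _ hX
    · exact hρ1 _ (hxe e)
    · have h1 := (hb m.castSucc).div (hb (Fin.last r)) hbr
      rw [← map_div₀, div_div_div_cancel_right₀ (hpne i₀)] at h1
      exact h1
  have h2 := G11_red_mv hred G
  have h3 : MvPolynomial.aeval (o3 (ρ X) (fun e => ρ (j (xe e)))
      (fun m => b m.castSucc / b (Fin.last r))) G ≠ 0 := fun h0 =>
    hG (hg₂.eq_zero_of_aeval_eq_zero G h0)
  exact ⟨h2.ne_zero h3, h2.ord_eq_zero h3⟩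

theorem vert_of_cyc [Hyp f] (h : Fam f V c xe ye p x) {M : Type} [Field M] [Algebra k M]
    (j : L →ₐ[k] M) {X Y : M} (hY : Y ^ 2 = aeval X f)
    (δ : Pat (fun a => Pt (F a)) (Option (Fin D ⊕ Fin (NN r κ)))) (hδ : Lab F δ (wl V f))
    (v : Place k M) (hv : FunF k (D + (r + 1)) (RF v)) (q : Pnt F (RF v))
    (hq : ∀ a, SpR v (pgt δ (ex j X (Sum.elim xe x)) (ex j Y (Sum.elim ye (yz c p x))) a) (q a))
    (hc : cyc q ≠ 0) (hn : ∃ m, v.ord (j m) ≠ 0) (ho : v.ord (phi j c p X Y) ≠ 0) :
    Vert j X xe p v := by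
  refine vert_of_pole h j hY δ hδ v hv q hq hc fun hp => ho ?_
  exact ord_of_reg h j hY δ hδ v hv q hq hc hn hp

end Pool.Agent.LibHE77
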