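import Pool.Agent.LibHE77.G0
import Pool.Agent.LibHD77.P1
import Pool.Agent.LibHD77.L3
import Pool.Agent.LibHL77.E0

/-!
[HE77 G12] classes of diagonals over larger fields, and the specialization at a vertical place. `cls_fin`: `K₀ = IntermediateField.adjoin k (Set.range x ∪ Set.range y)`; `K` is finite over `K₀` (same transcendence degree, finitely generated), `m = finrank K₀ K`. Let `δ` be labelled by `V`. If all free points occur (`Cmp F δ V`): the point
`pnt δ x y` over `K` has `fld = K₀` and the same `eqs` as the point over `K₀` (`eqs_mpt` for `K₀ → K`), where `Gen V x y` holds, so `cyc = m • cyc` and `cl_eq` (HD77 T1). Otherwise `cl δ = 0` (`cl_zero`: if `Cmp F δ V'` then all free points occur) and `cyc (pnt δ x y) = 0` (`cyc_eq_zero_of_fld`: `fld` is contained in the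
algebraic closure of the field generated by the `x e'`, `e' ≠ b`). `vert_sp`: coordinate by coordinate: `.inl s`: `SpR_cst`; `none`, `some (.inl e)`: `gen`, `red`; `some (.inr i)`: `ℓ i = none`: `inf` (a pole of `x`, the point specializes to `.inf = og`), `(.inl b, η)`: `fre`, `(.inr b, η)`: `con`, the constant point `kp` is
`.aff` (`hc`; on a curve `F a = f`), `cst (RF v) (kp ..)`. The signs: `(ε : ℤ) * y`. (`mk'` is `.aff` by the labels and `crv`.)
-/

open scoped Classical
open Polynomial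

namespace Pool.Agent.LibHE77

open Pool.Agent.LibBH2
open Pool.Agent.LibCHd (VR RF Red FunF)
open Pool.Agent.LibHyp34 (Hyp Pt Pic jP)
open Pool.Agent.LibHD77 (MPt Pnt cst cyc cls CH Dia mk' og pnt cl Gen Gen1 Triv SpR mpt fld sq)
open Pool.Agent.LibHD77.Comb (Pat sub)

variable {k : Type} [Field k]
  {D r κ : ℕ} {f : k[X]} {V : Fin D → k[X]} {c : Fin κ → k × k} {L : Type} [Field L]
  [Algebra k L] {xe ye : Fin D → L} {p : Fin (r + 1) → L} {x : Fin (NN r κ) → L}

open scoped IntermediateField.algebraAdjoinAdjoin in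
private theorem G12_trdeg_adjoin {E K : Type} [Field E] [Field K] [Algebra E K] (s : Set K) :
    Algebra.trdeg E (IntermediateField.adjoin E s) ≤ Cardinal.mk s := by
  have h1 : Algebra.trdeg E (MvPolynomial.aeval (Subtype.val : s → K) :
      MvPolynomial s E →ₐ[E] K).range ≤ Cardinal.mk s := by
    refine (trdeg_le_of_surjective (MvPolynomial.aeval (Subtype.val : s → K) :
      MvPolynomial s E →ₐ[E] K).rangeRestrict (AlgHom.rangeRestrict_surjective _)).trans ?_
    rw [MvPolynomial.trdeg_of_isDomain, Cardinal.lift_id]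
  rw [← Algebra.adjoin_eq_range] at h1
  have h3 := trdeg_add_eq E (Algebra.adjoin E s) (A := IntermediateField.adjoin E s)
  rw [trdeg_eq_zero (R := Algebra.adjoin E s), add_zero] at h3
  rw [← h3]
  exact h1

/-- a diagonal in which a free point does not occur has the cycle zero -/
private theorem G12_zero {d : ℕ} {K : Type} [Field K] [Algebra k K] (hK : FunF k d K)
    (V : Fin d → k[X]) (x y : Fin d → K) (hy : ∀ e, y e ^ 2 = aeval (x e) (V e)) {n : ℕ}
    (F : Fin n → k[X]) (δ : Dia F d) (hδ : Lab F δ V) (e₀ : Fin d)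
    (h0 : ∀ a (ε : ℤˣ), δ a ≠ .inr (e₀, ε)) : cyc (pnt δ x y) = 0 := by
  set s : Set K := x '' (((Finset.univ.erase e₀ : Finset (Fin d)) : Set (Fin d))) with hs
  set A := IntermediateField.adjoin k s with hA
  set C := (algebraicClosure A K).restrictScalars k with hC
  have hmem : ∀ z : K, z ∈ C ↔ IsAlgebraic A z := fun z => mem_algebraicClosure_iff
  have htr : Algebra.trdeg k C < d := by
    have h1 : Algebra.trdeg k C = Algebra.trdeg k (algebraicClosure A K) := rfl
    have h2 := trdeg_add_eq k A (A := algebraicClosure A K)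
    rw [trdeg_eq_zero (R := A), add_zero] at h2
    rw [h1, ← h2]
    have h3 : Cardinal.mk s ≤ ((Finset.univ.erase e₀ : Finset (Fin d)).card : ℕ) :=
      Cardinal.mk_image_le.trans
        (Cardinal.mk_coe_finset (s := (Finset.univ.erase e₀ : Finset (Fin d)))).le
    refine ((G12_trdeg_adjoin s).trans h3).trans_lt ?_
    rw [Nat.cast_lt, Finset.card_erase_of_mem (Finset.mem_univ _), Finset.card_univ,
      Fintype.card_fin]
    have h4 : 0 < d := e₀.pos
    omega
  refine LibHD77.cyc_eq_zero_of_fld hK _ C htr ?_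
  unfold fld
  rw [IntermediateField.adjoin_le_iff]
  rintro _ ⟨⟨a, c⟩, rfl⟩
  show LibHD77.co (pnt δ x y) (a, c) ∈ C
  unfold LibHD77.co
  show LibHD77.xy (pnt δ x y a) c ∈ C
  unfold pnt
  rcases ha : δ a with p | ⟨e, ε⟩
  · show LibHD77.xy (cst K p) c ∈ C
    match p with
    | .inf => exact zero_mem C
    | .aff x₁ y₁ h₁ =>
      fin_cases c
      · exact C.algebraMap_mem x₁
      · exact C.algebraMap_mem y₁
  · have hee : e ≠ e₀ := by
      rintro rfl
      exact h0 a ε ha
    have hxC : x e ∈ C := by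
      refine (hmem _).2 (isAlgebraic_algebraMap (R := A) (⟨x e, ?_⟩ : A))
      refine IntermediateField.subset_adjoin _ _ ⟨e, ?_, rfl⟩
      simp [hee]
    have h1 : y e ^ 2 = aeval (x e) (F a) := by
      rw [hy e, hδ a e ε ha]
    obtain ⟨h', h2⟩ := LibHD77.T1_mk h1 ε
    show LibHD77.xy (mk' (F a) (x e) (((ε : ℤ) : K) * y e)) c ∈ C
    rw [h2]
    fin_cases c
    · exact hxC
    · show ((ε : ℤ) : K) * y e ∈ C
      have h3 : (((ε : ℤ) : K) * y e) ^ 2 ∈ C := by
        rw [h', eval_map_algebraMap]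
        have h4 := (F a).aeval_algHom_apply C.val (⟨x e, hxC⟩ : C)
        have h5 : C.val (⟨x e, hxC⟩ : C) = x e := rfl
        rw [h5] at h4
        rw [h4]
        exact (aeval (⟨x e, hxC⟩ : C) (F a)).2
      exact (hmem _).2 (IsAlgebraic.of_pow two_pos ((hmem _).1 h3))

theorem cls_fin {d : ℕ} {K : Type} [Field K] [Algebra k K] (hK : FunF k d K) (V : Fin d → k[X])
    (x y : Fin d → K) (hx : AlgebraicIndependent k x) (hy : ∀ e, y e ^ 2 = aeval (x e) (V e)) :
    ∃ m : ℕ, 0 < m ∧ ∀ (n : ℕ) (F : Fin n → k[X]) (_ : ∀ a, Hyp (F a)) (δ : Dia F d),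
      Lab F δ V → cls d (pnt δ x y) = m • cl δ := by
  have htr := hK.trdeg
  obtain ⟨t, ht, hf⟩ := id hK
  -- `K` is finite over the field generated by the `x e`, `y e`
  set K₀ := IntermediateField.adjoin k (Set.range x ∪ Set.range y) with hK₀
  have hEss : Algebra.EssFiniteType k K := by
    have e1 : Algebra.EssFiniteType k (IntermediateField.adjoin k (Set.range t)) := by
      rw [IntermediateField.essFiniteType_iff]
      exact ⟨Finset.univ.image t, by simp⟩
    exact Algebra.EssFiniteType.comp k (IntermediateField.adjoin k (Set.range t)) K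
  have hEss' : Algebra.EssFiniteType K₀ K := Algebra.EssFiniteType.of_comp k K₀ K
  have hbas : IsTranscendenceBasis k x := by
    refine hx.isTranscendenceBasis_of_trdeg_le ?_ ?_
    · rw [htr]
      exact Cardinal.natCast_lt_aleph0
    · rw [htr]
      simp
  have halg : Algebra.IsAlgebraic K₀ K := by
    have h1 : Algebra.IsAlgebraic (IntermediateField.adjoin k (Set.range x)) K :=
      hbas.isAlgebraic_field
    have hle : IntermediateField.adjoin k (Set.range x) ≤ K₀ :=
      IntermediateField.adjoin.mono k _ _ Set.subset_union_left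
    refine ⟨fun z => ?_⟩
    obtain ⟨G, hG, hz⟩ := h1.isAlgebraic z
    refine ⟨G.map (IntermediateField.inclusion hle : _ →+* K₀), ?_, ?_⟩
    · rwa [Ne, Polynomial.map_eq_zero]
    · rw [← hz, aeval_def, aeval_def, eval₂_map]
      congr 1
  have hfin : Module.Finite K₀ K := Algebra.finite_of_essFiniteType_of_isAlgebraic
  have hm : 0 < Module.finrank K₀ K := Module.finrank_pos
  have hval : Module.finrank K₀.val.fieldRange K = Module.finrank K₀ K := by
    rw [IntermediateField.fieldRange_val]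
  have hF₀ : FunF k d K₀ := LibHL77.funF_sub K₀.val (by rw [hval]; exact hm.ne') hK
  set x₀ : Fin d → K₀ := fun e =>
    ⟨x e, IntermediateField.subset_adjoin _ _ (Or.inl ⟨e, rfl⟩)⟩ with hx₀
  set y₀ : Fin d → K₀ := fun e =>
    ⟨y e, IntermediateField.subset_adjoin _ _ (Or.inr ⟨e, rfl⟩)⟩ with hy₀
  have hgen : Gen V x₀ y₀ := by
    refine ⟨hF₀, fun e => ?_, ?_⟩
    · apply K₀.val.injective
      have h1 : K₀.val (aeval (x₀ e) (V e)) = aeval (x e) (V e) :=
        (aeval_algHom_apply K₀.val (x₀ e) (V e)).symm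
      refine Eq.trans ?_ h1.symm
      refine Eq.trans (map_pow K₀.val (y₀ e) 2) ?_
      exact hy e
    · apply IntermediateField.map_injective K₀.val
      rw [IntermediateField.adjoin_map, ← AlgHom.fieldRange_eq_map,
        IntermediateField.fieldRange_val, Set.image_union, ← Set.range_comp, ← Set.range_comp]
      rfl
  refine ⟨Module.finrank K₀ K, hm, fun n F hF δ hδ => ?_⟩
  by_cases hall : ∀ b, ∃ a ε, δ a = .inr (b, ε)
  · have hC : Pool.Agent.LibHD77.Comb.Cmp F δ V := ⟨hall, hδ⟩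
    rw [LibHD77.cl_eq hF δ V x₀ y₀ hC hgen]
    have h1 : (fun a => mpt K₀.val (pnt δ x₀ y₀ a)) = pnt δ x y :=
      funext fun a => LibHD77.T1_pnt K₀.val δ x₀ y₀ a
    have h2 := LibHL77.cyc_mpt_deg K₀.val (pnt δ x₀ y₀)
    rw [h1, hval] at h2
    unfold cls
    rw [h2, natCast_zsmul]
    rfl
  · push Not at hall
    obtain ⟨b, hb⟩ := hall
    have h1 : cyc (pnt δ x y) = 0 := G12_zero hK V x y hy F δ hδ b hb
    have h2 : cl δ = 0 := by
      refine LibHD77.cl_zero δ ?_
      rintro ⟨V', hV'⟩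
      obtain ⟨a, ε, ha⟩ := hV'.1 b
      exact hb a ε ha
    unfold cls
    rw [h1, h2, smul_zero]
    rfl

private theorem G12_mk {K : Type} [Field K] [Algebra k K] {g : k[X]} {v : Place k K} {x y : K}
    {x₀ y₀ : RF v} (h : y ^ 2 = aeval x g) (h₀ : y₀ ^ 2 = aeval x₀ g) (hx : Red v x x₀)
    (hy : Red v y y₀) (ε : ℤˣ) :
    SpR v (mk' g x (((ε : ℤ) : K) * y)) (mk' g x₀ (((ε : ℤ) : RF v) * y₀)) := by
  obtain ⟨h1, e1⟩ := LibHD77.T1_mk h ε
  obtain ⟨h2, e2⟩ := LibHD77.T1_mk h₀ ε
  rw [e1, e2]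
  refine ⟨hx, ?_⟩
  rcases Int.units_eq_one_or ε with rfl | rfl
  · simpa using hy
  · simpa using hy.neg

private theorem G12_red {K : Type} [Field K] [Algebra k K] {v : Place k K} {y : K} {y₀ : RF v}
    (hy : Red v y y₀) (ε : ℤˣ) : Red v (((ε : ℤ) : K) * y) (((ε : ℤ) : RF v) * y₀) := by
  rcases Int.units_eq_one_or ε with rfl | rfl
  · simpa using hy
  · simpa using hy.neg

theorem vert_sp {M : Type} [Field M] [Algebra k M] (j : L →ₐ[k] M) {X Y : M}
    (hY : Y ^ 2 = aeval X f) (v : Place k M) (ℓ : Fin (NN r κ) ≃ Lt r κ)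
    (xb yb : Fin (D + (r + 1)) → RF v) (h : VL f V c xe ye p x j X Y v ℓ xb yb)
    (hc : ∀ i, (c i).2 ^ 2 = f.eval (c i).1) (he : ∀ e, ye e ^ 2 = aeval (xe e) (V e))
    (hx : ∀ i, yz c p x i ^ 2 = aeval (x i) f) {n : ℕ} (F : Fin n → k[X])
    (δ : Pat (fun a => Pt (F a)) (Option (Fin D ⊕ Fin (NN r κ)))) (hδ : Lab F δ (wl V f))
    (a : Fin n) :
    SpR v (pgt δ (ex j X (Sum.elim xe x)) (ex j Y (Sum.elim ye (yz c p x))) a)
      (pnt (lsub (og F) (csp F c) ℓ δ : Dia F (D + (r + 1))) xb yb a) := by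
  have hcr : ∀ b : Fin (r + 1), yb (Fin.natAdd D b) ^ 2 = aeval (xb (Fin.natAdd D b)) f := by
    intro b
    have h1 := h.crv (Fin.natAdd D b)
    unfold Wl at h1
    rwa [Fin.append_right] at h1
  have hce : ∀ e : Fin D, yb (Fin.castAdd (r + 1) e) ^ 2 =
      aeval (xb (Fin.castAdd (r + 1) e)) (V e) := by
    intro e
    have h1 := h.crv (Fin.castAdd (r + 1) e)
    unfold Wl at h1
    rwa [Fin.append_left] at h1
  have hmap : ∀ (z w : L) (G : k[X]), w ^ 2 = aeval z G → (j w) ^ 2 = aeval (j z) G := by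
    intro z w G hzw
    rw [aeval_algHom_apply, ← hzw, map_pow]
  rcases ha : δ a with s | ⟨_ | e | i, ε⟩
  · have e1 : pgt δ (ex j X (Sum.elim xe x)) (ex j Y (Sum.elim ye (yz c p x))) a = cst M s := by
      unfold pgt; rw [ha]
    have e2 : (pnt (lsub (og F) (csp F c) ℓ δ : Dia F (D + (r + 1))) xb yb a) =
        cst (RF v) s := by
      unfold pnt lsub; rw [ha]
    rw [e1, e2]
    exact LibHD77.SpR_cst v s
  · have hf : f = F a := hδ a none ε ha
    have e1 : pgt δ (ex j X (Sum.elim xe x)) (ex j Y (Sum.elim ye (yz c p x))) a =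
        mk' (F a) X (((ε : ℤ) : M) * Y) := by
      unfold pgt; rw [ha]; rfl
    have e2 : (pnt (lsub (og F) (csp F c) ℓ δ : Dia F (D + (r + 1))) xb yb a) =
        mk' (F a) (xb (Fin.natAdd D (Fin.last r))) (((ε : ℤ) : RF v) *
          yb (Fin.natAdd D (Fin.last r))) := by
      unfold pnt lsub; rw [ha]
    rw [e1, e2]
    refine G12_mk ?_ ?_ h.gen.1 h.gen.2 ε
    · rw [← hf]; exact hY
    · rw [← hf]; exact hcr _
  · have hf : V e = F a := hδ a (some (.inl e)) ε ha
    have e1 : pgt δ (ex j X (Sum.elim xe x)) (ex j Y (Sum.elim ye (yz c p x))) a =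
        mk' (F a) (j (xe e)) (((ε : ℤ) : M) * j (ye e)) := by
      unfold pgt; rw [ha]; rfl
    have e2 : (pnt (lsub (og F) (csp F c) ℓ δ : Dia F (D + (r + 1))) xb yb a) =
        mk' (F a) (xb (Fin.castAdd (r + 1) e)) (((ε : ℤ) : RF v) *
          yb (Fin.castAdd (r + 1) e)) := by
      unfold pnt lsub; rw [ha]
    rw [e1, e2]
    refine G12_mk ?_ ?_ (h.red e).1 (h.red e).2 ε
    · rw [← hf]; exact hmap _ _ _ (he e)
    · rw [← hf]; exact hce e
  · have hf : f = F a := hδ a (some (.inr i)) ε ha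
    have hyj : j (yz c p x i) ^ 2 = aeval (j (x i)) (F a) := by
      rw [← hf]; exact hmap _ _ _ (hx i)
    have e1 : pgt δ (ex j X (Sum.elim xe x)) (ex j Y (Sum.elim ye (yz c p x))) a =
        mk' (F a) (j (x i)) (((ε : ℤ) : M) * j (yz c p x i)) := by
      unfold pgt; rw [ha]; rfl
    rcases hℓ : ℓ i with _ | ⟨b | b, η⟩
    · have e2 : (pnt (lsub (og F) (csp F c) ℓ δ : Dia F (D + (r + 1))) xb yb a) =
          (.inf : MPt (F a) (RF v)) := by
        unfold pnt lsub; rw [ha]; simp only [hℓ]; rfl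
      obtain ⟨h', h2⟩ := LibHD77.T1_mk hyj ε
      rw [e1, e2, h2]
      exact h.inf i hℓ
    · have e2 : (pnt (lsub (og F) (csp F c) ℓ δ : Dia F (D + (r + 1))) xb yb a) =
          mk' (F a) (xb (Fin.natAdd D b.castSucc)) ((((η * ε : ℤˣ) : ℤ) : RF v) *
            yb (Fin.natAdd D b.castSucc)) := by
        unfold pnt lsub; rw [ha]; simp only [hℓ]; rfl
      obtain ⟨h1, h2⟩ := h.fre i b η hℓ
      have h3 : (((η * ε : ℤˣ) : ℤ) : RF v) * yb (Fin.natAdd D b.castSucc) =
          ((ε : ℤ) : RF v) * (((η : ℤ) : RF v) * yb (Fin.natAdd D b.castSucc)) := by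
        push_cast; ring
      rw [e1, e2, h3]
      refine G12_mk hyj ?_ h1 h2 ε
      rw [mul_pow, pow_two (((η : ℤ) : RF v)), LibHD77.T1_eps, one_mul, ← hf]
      exact hcr _
    · obtain ⟨h1, h2⟩ := h.con i b η hℓ
      have h4 : (((η * ε : ℤˣ) : ℤ) * (c b).2 : k) ^ 2 = (F a).eval (c b).1 := by
        rw [mul_pow, pow_two (((η * ε : ℤˣ) : ℤ) : k), LibHD77.T1_eps, one_mul, ← hf]
        exact hc b
      have e2 : (pnt (lsub (og F) (csp F c) ℓ δ : Dia F (D + (r + 1))) xb yb a) =
          cst (RF v) (.aff (c b).1 (((η * ε : ℤˣ) : ℤ) * (c b).2) h4 : Pt (F a)) := by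
        unfold pnt lsub; rw [ha]; simp only [hℓ]
        show cst (RF v) (csp F c b (η * ε) a) = _
        unfold csp kp
        rw [dif_pos h4]
      obtain ⟨h', h3⟩ := LibHD77.T1_mk hyj ε
      rw [e1, e2, h3]
      refine ⟨h1, ?_⟩
      have h5 := G12_red h2 ε
      have h6 : algebraMap k (RF v) (((η * ε : ℤˣ) : ℤ) * (c b).2) =
          ((ε : ℤ) : RF v) * (((η : ℤ) : RF v) * algebraMap k (RF v) (c b).2) := by
        rw [map_mul, map_intCast]; push_cast; ring
      rw [h6]
      exact h5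

end Pool.Agent.LibHE77
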