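import Pool.Agent.LibHE77.G0
import Pool.Agent.LibHD77.L1d

/-!
[HE77 G3] the cycles at the places which are trivial on `L`. `RF w` is isomorphic to `L` over `k` (`Triv`: the homomorphism `ε : L →ₐ[k] RF w`, `m ↦` the residue of `j m`, is bijective). Proof: `q = mpt ε` of the point `pgt (sub (og F) (tgo (some b)) δ) lx ly` over `L` (for `horiz_inf`: `tgo none`). Specialization coordinate by coordinate:
`.inl s`: `SpR_cst`; the point `some b'`: `pgt` over `M` is `mpt j` of the point over `L`: `SpR_triv` (HD77 P1); the point `none` (on a curve `F a = W none`): `X`, `Y` reduce to `ε (lx b)`, `ε (ly b)`, or `w.ord X < 0` and the point specializes to `.inf`. (`mk'` is `.aff` as the equations of the curves hold: `hl`, `hY`, labels `hδ`.)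
`cyc_mpt` (HD77 P1) for the isomorphism. `FunF` is transported by the isomorphism. Compare `HD77 L3` (`par`): `L3_red`, `L3_pole` and the end of the proof of `par`.
-/

open scoped Classical
open Polynomial

namespace Pool.Agent.LibHE77

open Pool.Agent.LibBH2
open Pool.Agent.LibCHd (VR RF Red FunF)
open Pool.Agent.LibHyp34 (Hyp Pt Pic jP)
open Pool.Agent.LibHD77 (MPt Pnt cst cyc cls CH Dia mk' og pnt cl Gen Gen1 Triv SpR mpt fld sq)
open Pool.Agent.LibHD77.Comb (Pat sub)
open Pool.Agent.LibHD77 (cyc_mpt mpt_cst SpR_cst)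

variable {k : Type} [Field k]
  {d n : ℕ} {F : Fin n → k[X]} {B L M : Type} [Field L] [Algebra k L] [Field M] [Algebra k M]

theorem G3_eq {K : Type} [Field K] [Algebra k K] {f : k[X]} {x y : K} (h : y ^ 2 = aeval x f) (ε : ℤˣ) :
    (((ε : ℤ) : K) * y) ^ 2 = (f.map (algebraMap k K)).eval x := by
  rw [eval_map_algebraMap, ← h]
  rcases Int.units_eq_one_or ε with rfl | rfl <;> simp

theorem G3_mk {K : Type} [Field K] [Algebra k K] {f : k[X]} {x y : K} (h : y ^ 2 = aeval x f) (ε : ℤˣ) :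
    mk' f x (((ε : ℤ) : K) * y) = .aff x (((ε : ℤ) : K) * y) (G3_eq h ε) := by
  unfold mk'
  rw [dif_pos (G3_eq h ε)]

theorem G3_map {K K' : Type} [Field K] [Algebra k K] [Field K'] [Algebra k K'] {f : k[X]} {x y : K}
    (h : y ^ 2 = aeval x f) (j : K →ₐ[k] K') :
    (j y) ^ 2 = aeval (j x) f := by
  rw [← map_pow, h, aeval_algHom_apply]

theorem G3_red_units {K : Type} [Field K] [Algebra k K] {w : Place k K} {Y : K} {y : RF w}
    (h : Red w Y y) (ε : ℤˣ) : Red w (((ε : ℤ) : K) * Y) (((ε : ℤ) : RF w) * y) := by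
  rcases Int.units_eq_one_or ε with rfl | rfl
  · simpa using h
  · have h1 := h.neg
    have e1 : (((-1 : ℤˣ) : ℤ) : K) * Y = -Y := by
      rw [Units.val_neg, Units.val_one, Int.cast_neg, Int.cast_one]
      ring
    have e2 : (((-1 : ℤˣ) : ℤ) : RF w) * y = -y := by
      rw [Units.val_neg, Units.val_one, Int.cast_neg, Int.cast_one]
      ring
    rw [e1, e2]
    exact h1

/-- specialisation of a signed point -/
theorem G3_sp (w : Place k M) (ε : L →ₐ[k] RF w) {f : k[X]} {X Y : M} {x y : L}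
    (h : Y ^ 2 = aeval X f) (h' : y ^ 2 = aeval x f) (h1 : Red w X (ε x)) (h2 : Red w Y (ε y))
    (η : ℤˣ) : SpR w (mk' f X (((η : ℤ) : M) * Y)) (mpt ε (mk' f x (((η : ℤ) : L) * y))) := by
  rw [G3_mk h, G3_mk h']
  refine ⟨h1, ?_⟩
  have h3 := G3_red_units h2 η
  have e : ε (((η : ℤ) : L) * y) = ((η : ℤ) : RF w) * ε y := by
    rw [map_mul, map_intCast]
  show Red w _ (ε (((η : ℤ) : L) * y))
  rw [e]
  exact h3

theorem horiz_cyc (hL : FunF k d L) (j : L →ₐ[k] M) (w : Place k M) (hw : Triv j w)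
    (δ : Pat (fun a => Pt (F a)) (Option B)) (W : Option B → k[X]) (hδ : Lab F δ W)
    (lx ly : B → L) (hl : ∀ b, ly b ^ 2 = aeval (lx b) (W (some b))) (X Y : M)
    (hY : Y ^ 2 = aeval X (W none)) (b : B) (hb : W (some b) = W none)
    (h1 : w.Zer (X - j (lx b))) (h2 : w.Zer (Y - j (ly b))) :
    FunF k d (RF w) ∧ ∃ q : Pnt F (RF w), (∀ a, SpR w (pgt δ (ex j X lx) (ex j Y ly) a) (q a)) ∧
      cyc q = cyc (pgt (sub (og F) (tgo (some b)) δ) lx ly) := by
  obtain ⟨e0, he0⟩ := Pool.Agent.LibCHd.exists_res_equiv j w hw.triv hw.res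
  refine ⟨hL.congr e0, fun a => mpt (e0 : L →ₐ[k] RF w) (pgt (sub (og F) (tgo (some b)) δ) lx ly a), ?_,
    cyc_mpt e0 _⟩
  have hX : Red w X ((e0 : L →ₐ[k] RF w) (lx b)) :=
    (Pool.Agent.LibCHd.red_iff_sub (he0 (lx b))).2 h1
  have hY' : Red w Y ((e0 : L →ₐ[k] RF w) (ly b)) :=
    (Pool.Agent.LibCHd.red_iff_sub (he0 (ly b))).2 h2
  intro a
  show SpR w _ (mpt (e0 : L →ₐ[k] RF w) (pgt (sub (og F) (tgo (some b)) δ) lx ly a))
  rcases ha : δ a with s | ⟨b', ε⟩
  · have e1 : pgt δ (ex j X lx) (ex j Y ly) a = cst M s := by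
      unfold pgt
      rw [ha]
    have e2 : pgt (sub (og F) (tgo (some b)) δ) lx ly a = cst L s := by
      unfold pgt sub
      rw [ha]
    rw [e1, e2, mpt_cst]
    exact SpR_cst w s
  · rcases b' with _ | b'
    · have e1 : pgt δ (ex j X lx) (ex j Y ly) a = mk' (F a) X (((ε : ℤ) : M) * Y) := by
        unfold pgt
        rw [ha]
        rfl
      have e2 : pgt (sub (og F) (tgo (some b)) δ) lx ly a = mk' (F a) (lx b) (((ε : ℤ) : L) * ly b) := by
        unfold pgt sub
        rw [ha]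
        simp only [tgo, Option.map_some, one_mul]
      have hW := hδ a none ε ha
      rw [e1, e2]
      refine G3_sp w _ ?_ ?_ hX hY' ε
      · rw [← hW]; exact hY
      · rw [← hW, ← hb]; exact hl b
    · have e1 : pgt δ (ex j X lx) (ex j Y ly) a = mk' (F a) (j (lx b')) (((ε : ℤ) : M) * j (ly b')) := by
        unfold pgt
        rw [ha]
        rfl
      have e2 : pgt (sub (og F) (tgo (some b)) δ) lx ly a = mk' (F a) (lx b') (((ε : ℤ) : L) * ly b') := by
        unfold pgt sub
        rw [ha]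
        simp only [tgo, one_mul]
      have hW := hδ a (some b') ε ha
      rw [e1, e2]
      refine G3_sp w _ ?_ ?_ (he0 _) (he0 _) ε
      · rw [← hW]; exact G3_map (hl b') j
      · rw [← hW]; exact hl b'

theorem horiz_inf (hL : FunF k d L) (j : L →ₐ[k] M) (w : Place k M) (hw : Triv j w)
    (δ : Pat (fun a => Pt (F a)) (Option B)) (W : Option B → k[X]) (hδ : Lab F δ W)
    (lx ly : B → L) (hl : ∀ b, ly b ^ 2 = aeval (lx b) (W (some b))) (X Y : M)
    (hY : Y ^ 2 = aeval X (W none)) (h1 : w.ord X < 0) :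
    FunF k d (RF w) ∧ ∃ q : Pnt F (RF w), (∀ a, SpR w (pgt δ (ex j X lx) (ex j Y ly) a) (q a)) ∧
      cyc q = cyc (pgt (sub (og F) (tgo none) δ) lx ly) := by
  obtain ⟨e0, he0⟩ := Pool.Agent.LibCHd.exists_res_equiv j w hw.triv hw.res
  refine ⟨hL.congr e0, fun a => mpt (e0 : L →ₐ[k] RF w) (pgt (sub (og F) (tgo none) δ) lx ly a), ?_,
    cyc_mpt e0 _⟩
  intro a
  show SpR w _ (mpt (e0 : L →ₐ[k] RF w) (pgt (sub (og F) (tgo none) δ) lx ly a))
  rcases ha : δ a with s | ⟨b', ε⟩
  · have e1 : pgt δ (ex j X lx) (ex j Y ly) a = cst M s := by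
      unfold pgt
      rw [ha]
    have e2 : pgt (sub (og F) (tgo none) δ) lx ly a = cst L s := by
      unfold pgt sub
      rw [ha]
    rw [e1, e2, mpt_cst]
    exact SpR_cst w s
  · rcases b' with _ | b'
    · have e1 : pgt δ (ex j X lx) (ex j Y ly) a = mk' (F a) X (((ε : ℤ) : M) * Y) := by
        unfold pgt
        rw [ha]
        rfl
      have e2 : pgt (sub (og F) (tgo none) δ) lx ly a = cst L (og F a) := by
        unfold pgt sub
        rw [ha]
        simp only [tgo, Option.map_none]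
      have hW := hδ a none ε ha
      have hY' : Y ^ 2 = aeval X (F a) := by
        rw [← hW]
        exact hY
      rw [e1, e2, mpt_cst, G3_mk hY']
      exact h1
    · have e1 : pgt δ (ex j X lx) (ex j Y ly) a = mk' (F a) (j (lx b')) (((ε : ℤ) : M) * j (ly b')) := by
        unfold pgt
        rw [ha]
        rfl
      have e2 : pgt (sub (og F) (tgo none) δ) lx ly a = mk' (F a) (lx b') (((ε : ℤ) : L) * ly b') := by
        unfold pgt sub
        rw [ha]
        simp only [tgo, one_mul]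
      have hW := hδ a (some b') ε ha
      rw [e1, e2]
      refine G3_sp w _ ?_ ?_ (he0 _) (he0 _) ε
      · rw [← hW]; exact G3_map (hl b') j
      · rw [← hW]; exact hl b'

end Pool.Agent.LibHE77
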