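import Pool.Agent.LibHE77.G0
import Pool.Agent.LibHD77.U3
import Pool.Agent.LibHL77.Z1

/-!
[HE77 G4] the vertical places. Proof. `B = IntermediateField.adjoin k (Set.range (vz j X xe p))` in `M`, `t = (j (p (Fin.last r)))⁻¹`. `M` has transcendence degree `D + r + 2` (`gen1_trdeg'`, `FunF`), is finitely generated, `X`, `xe`, `p` are algebraically independent over `k` in `M` (`ind`, `Gen1.tr`) and there are `D + r + 2` of them:
`M` is finite over the field generated by them, which is `B(t)`; `vz` is algebraically independent (same field, same number) and `t` is transcendental over `B`: `FunF B 1 M`. `sum_zeros'` (HL77 Z1) over the field `B` and for `t`: the places `v'` of `M` over `B` with `v'.ord t > 0` are a finite set, not empty since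
`∑ v'.ord t * finrank B (RF v') = finrank (B(t)) M > 0`, and `RF v'` is finite over `B` (`res_finite`). The `Vert` places are exactly these: `place_down` for `B` (a place over `B` is a place over `k` with the same `ord`, trivial on `B`); conversely `Vert` says that `v` is trivial on `B` (quotients of the
`aeval (vz ..) G`) and `v.ord t > 0`: `place_up`. `RF v` is the same field (same `VR`), finite over (the image of) `B`, so `FunF k (D + (r + 1)) (RF v)`: the images of the `vz` are independent. (`B` has characteristic zero.)
-/

open scoped Classical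
open Polynomial

namespace Pool.Agent.LibHE77

open Pool.Agent.LibBH2
open Pool.Agent.LibCHd (VR RF Red FunF)
open Pool.Agent.LibHyp34 (Hyp Pt Pic jP)
open Pool.Agent.LibHD77 (MPt Pnt cst cyc cls CH Dia mk' og pnt cl Gen Gen1 Triv SpR mpt fld sq)
open Pool.Agent.LibHD77.Comb (Pat sub)

/-- algebraic elements and homomorphisms -/
theorem G4_alg {A A' C C' : Type} [CommRing A] [CommRing A'] [CommRing C] [CommRing C'] [Algebra A C]
    [Algebra A' C'] (σ : A →+* A') (hσ : Function.Injective σ) (τ : C →+* C')
    (h : ∀ a, τ (algebraMap A C a) = algebraMap A' C' (σ a)) {z : C} (hz : IsAlgebraic A z) :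
    IsAlgebraic A' (τ z) := by
  obtain ⟨p, hp, h1⟩ := hz
  refine ⟨p.map σ, (Polynomial.map_ne_zero_iff hσ).2 hp, ?_⟩
  rw [aeval_def, eval₂_map]
  have h2 := congrArg τ h1
  rw [aeval_def, hom_eval₂, map_zero] at h2
  have h3 : τ.comp (algebraMap A C) = (algebraMap A' C').comp σ := RingHom.ext h
  rw [← h3]
  exact h2

theorem G4_algF {k B M : Type} [Field k] [Field B] [Field M] [Algebra k M] [Algebra B M]
    (E : IntermediateField k M) (F : IntermediateField B M) (h : ∀ z ∈ E, z ∈ F) {z : M}
    (hz : IsAlgebraic E z) : IsAlgebraic F z := by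
  let σ : E →+* F :=
    { toFun := fun z => ⟨z.1, h _ z.2⟩
      map_one' := rfl
      map_mul' := fun _ _ => rfl
      map_zero' := rfl
      map_add' := fun _ _ => rfl }
  exact G4_alg σ σ.injective (RingHom.id M) (fun _ => rfl) hz

theorem G4_algJ {k L M : Type} [Field k] [Field L] [Field M] [Algebra k L] [Algebra k M]
    (j : L →ₐ[k] M) (E : IntermediateField k L) (F : IntermediateField k M) (h : ∀ z ∈ E, j z ∈ F)
    {z : L} (hz : IsAlgebraic E z) : IsAlgebraic F (j z) := by
  let σ : E →+* F :=
    { toFun := fun z => ⟨j z.1, h _ z.2⟩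
      map_one' := Subtype.ext (map_one j)
      map_mul' := fun a b => Subtype.ext (map_mul j _ _)
      map_zero' := Subtype.ext (map_zero j)
      map_add' := fun a b => Subtype.ext (map_add j _ _) }
  exact G4_alg σ σ.injective (j : L →+* M) (fun _ => rfl) hz

/-- a function field is finitely generated -/
theorem G4_fg {K E : Type} [Field K] [Field E] [Algebra K E] {d : ℕ} (h : FunF K d E) :
    ∃ S : Finset E, ∀ L : IntermediateField K E, (∀ x ∈ S, x ∈ L) → L = ⊤ := by
  obtain ⟨t, ht, hf⟩ := h
  obtain ⟨s, hs⟩ := hf.fg_top
  refine ⟨s ∪ Finset.univ.image t, fun L hL => ?_⟩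
  have h1 : IntermediateField.adjoin K (Set.range t) ≤ L := by
    rw [IntermediateField.adjoin_le_iff]
    rintro _ ⟨l, rfl⟩
    exact hL _ (by simp)
  rw [eq_top_iff]
  intro x hxt
  clear hxt
  have hx : x ∈ Submodule.span (IntermediateField.adjoin K (Set.range t)) (s : Set E) := by
    rw [hs]
    exact Submodule.mem_top
  induction hx using Submodule.span_induction with
  | mem y hy => exact hL y (by simp [Finset.mem_coe.1 hy])
  | zero => exact zero_mem L
  | add y z _ _ hy hz => exact add_mem hy hz
  | smul a y _ hy =>
    rw [Algebra.smul_def]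
    exact mul_mem (h1 a.2) hy

/-- finitely generated and algebraic -/
theorem G4_fin {k B M : Type} [Field k] [Field B] [Field M] [Algebra k M] [Algebra B M] [Algebra k B]
    [IsScalarTower k B M] {d : ℕ} (h : FunF k d M) (F : IntermediateField B M)
    (ha : ∀ z : M, IsAlgebraic F z) : FiniteDimensional F M := by
  obtain ⟨S, hS⟩ := G4_fg h
  have h1 : ∀ z : M, z ∈ IntermediateField.adjoin F (S : Set M) := by
    let N : IntermediateField k M :=
      { carrier := {z | z ∈ IntermediateField.adjoin F (S : Set M)}
        mul_mem' := fun {a b} ha hb => (IntermediateField.adjoin F (S : Set M)).mul_mem ha hb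
        add_mem' := fun {a b} ha hb => (IntermediateField.adjoin F (S : Set M)).add_mem ha hb
        algebraMap_mem' := fun r => by
          have h2 : algebraMap k M r = algebraMap F M (algebraMap B F (algebraMap k B r)) := by
            rw [IsScalarTower.algebraMap_apply k B M]
            rfl
          show algebraMap k M r ∈ IntermediateField.adjoin F (S : Set M)
          rw [h2]
          exact (IntermediateField.adjoin F (S : Set M)).algebraMap_mem _
        inv_mem' := fun x hx => by
          show x⁻¹ ∈ IntermediateField.adjoin F (S : Set M)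
          exact inv_mem hx }
    have hN : N = ⊤ := hS N fun x hx => IntermediateField.subset_adjoin F _ hx
    intro z
    have h3 : z ∈ N := by
      rw [hN]
      exact IntermediateField.mem_top
    exact h3
  have htop : IntermediateField.adjoin F (S : Set M) = ⊤ := by
    rw [eq_top_iff]
    intro z _
    exact h1 z
  have hfin : FiniteDimensional F (IntermediateField.adjoin F (S : Set M)) :=
    IntermediateField.finiteDimensional_adjoin fun z _ => (ha z).isIntegral
  rw [htop] at hfin
  exact Module.Finite.equiv (IntermediateField.topEquiv (F := F) (E := M)).toLinearEquiv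

section places

variable {k M : Type} [Field k] [Field M] [Algebra k M] {B : IntermediateField k M}

/-- a place over `B` is a place over `k` -/
def G4_down (v : Place B M) : Place k M where
  ord := v.ord
  ord_zero := v.ord_zero
  ord_mul := v.ord_mul
  ord_add := v.ord_add
  ord_const := fun c hc => by
    have h1 : algebraMap k M c = algebraMap B M (algebraMap k B c) := rfl
    rw [h1]
    exact v.ord_const _ ((_root_.map_ne_zero _).2 hc)
  exists_uniformizer := v.exists_uniformizer

/-- a place trivial on `B` is a place over `B` -/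
def G4_up (v : Place k M) (h : ∀ z ∈ B, v.ord z = 0) : Place B M where
  ord := v.ord
  ord_zero := v.ord_zero
  ord_mul := v.ord_mul
  ord_add := v.ord_add
  ord_const := fun c _ => h _ c.2
  exists_uniformizer := v.exists_uniformizer

/-- the residue field -/
theorem G4_res {d : ℕ} (s : Place B M) (hs : FiniteDimensional B (RF s)) (t : Fin d → B)
    (ht : AlgebraicIndependent k t) (htop : IntermediateField.adjoin k (Set.range t) = ⊤) :
    FunF k d (RF (G4_down s)) := by
  let ε : RF s ≃+* RF (G4_down s) := RingEquiv.refl (RF s)
  let i : B →ₐ[k] RF (G4_down s) :=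
    { toRingHom := (ε : RF s →+* RF (G4_down s)).comp (algebraMap B (RF s))
      commutes' := fun c => rfl }
  refine ⟨fun l => i (t l), ht.map' (f := i) i.injective, ?_⟩
  have h1 : IntermediateField.adjoin k (Set.range fun l => i (t l)) = i.fieldRange := by
    have h2 : (Set.range fun l => i (t l)) = i '' (Set.range t) := by
      rw [← Set.range_comp]
      rfl
    rw [h2, ← IntermediateField.adjoin_map, htop, ← AlgHom.fieldRange_eq_map]
  rw [h1]
  have hfin : (i : B →+* RF (G4_down s)).Finite := by
    let _ : Algebra B (RF (G4_down s)) := (i : B →+* RF (G4_down s)).toAlgebra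
    have h3 : Module.Finite B (RF (G4_down s)) :=
      Module.Finite.of_equiv_equiv (RingEquiv.refl B) ε (by ext x; rfl)
    exact h3
  let _ : Algebra B (RF (G4_down s)) := (i : B →+* RF (G4_down s)).toAlgebra
  have _ : Module.Finite B (RF (G4_down s)) := hfin
  exact Module.Finite.of_equiv_equiv i.equivFieldRange.toRingEquiv (RingEquiv.refl (RF (G4_down s)))
    (by ext x; rfl)

end places

variable {k : Type} [Field k]
  {D r κ : ℕ} {f : k[X]} {V : Fin D → k[X]} {c : Fin κ → k × k} {L : Type} [Field L]
  [Algebra k L] {xe ye : Fin D → L} {p : Fin (r + 1) → L} {x : Fin (NN r κ) → L}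

theorem vert_finite [CharZero k] [Hyp f] (h : Fam f V c xe ye p x) {M : Type} [Field M]
    [Algebra k M] (j : L →ₐ[k] M) {X Y : M} (hg : Gen1 j f X Y) :
    ∃ U : Finset (Place k M), U.Nonempty ∧ (∀ v, v ∈ U ↔ Vert j X xe p v) ∧
      ∀ v ∈ U, FunF k (D + (r + 1)) (RF v) := by
  have hM : FunF k (D + (r + 1) + 1) M := Pool.Agent.LibHD77.gen1_funF hg h.dim
  have hp0 : p (Fin.last r) ≠ 0 := h.ind.ne_zero (Sum.inr (Fin.last r))
  have hjp0 : j (p (Fin.last r)) ≠ 0 := (map_ne_zero j).2 hp0
  obtain ⟨t, ht⟩ : ∃ t, t = (j (p (Fin.last r)))⁻¹ := ⟨_, rfl⟩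
  have ht' : j (p (Fin.last r)) = t⁻¹ := by rw [ht, inv_inv]
  obtain ⟨vv, hvv⟩ : ∃ vv, vv = vz j X xe p := ⟨_, rfl⟩
  let W : Option (Option (Fin D ⊕ Fin r)) → M := fun o => o.elim t vv
  let E := IntermediateField.adjoin k (Set.range W)
  have hWE : ∀ o, W o ∈ E := fun o => IntermediateField.subset_adjoin k _ ⟨o, rfl⟩
  have hE1 : j (p (Fin.last r)) ∈ E := by
    rw [ht']
    exact inv_mem (hWE none)
  have hE2 : ∀ i, j (p i) ∈ E := by
    intro i
    induction i using Fin.lastCases with
    | last => exact hE1
    | cast i =>
      have h1 := hWE (some (some (.inr i)))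
      have h2 : W (some (some (.inr i))) = j (p i.castSucc / p (Fin.last r)) := by
        show vv _ = _
        rw [hvv]
        rfl
      have h3 : j (p i.castSucc) = j (p i.castSucc / p (Fin.last r)) * j (p (Fin.last r)) := by
        rw [← map_mul, div_mul_cancel₀ _ hp0]
      rw [h3, ← h2]
      exact mul_mem h1 hE1
  have hE3 : ∀ e, j (xe e) ∈ E := by
    intro e
    have h1 := hWE (some (some (.inl e)))
    have h2 : W (some (some (.inl e))) = j (xe e) := by
      show vv _ = _
      rw [hvv]
      rfl
    rw [← h2]
    exact h1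
  have hE4 : X ∈ E := by
    have h1 := hWE (some none)
    have h2 : W (some none) = X := by
      show vv _ = _
      rw [hvv]
      rfl
    rw [← h2]
    exact h1
  have hE5 : ∀ z ∈ IntermediateField.adjoin k (Set.range (Sum.elim xe p)), j z ∈ E := by
    have h1 : IntermediateField.adjoin k (Set.range (Sum.elim xe p)) ≤ E.comap j := by
      rw [IntermediateField.adjoin_le_iff]
      rintro _ ⟨i | i, rfl⟩
      · exact hE3 i
      · exact hE2 i
    intro z hz
    exact h1 hz
  have hLb : IsTranscendenceBasis k (Sum.elim xe p) := by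
    refine h.ind.isTranscendenceBasis_of_trdeg_le_of_finite ?_
    rw [h.dim.trdeg]
    simp
  have hLa : ∀ z : L, IsAlgebraic (IntermediateField.adjoin k (Set.range (Sum.elim xe p))) z := by
    have h1 := IntermediateField.isAlgebraic_adjoin_iff_top.2 hLb.isAlgebraic
    exact fun z => h1.isAlgebraic z
  have hYa : IsAlgebraic E Y := by
    have h1 : aeval X f ∈ E := by
      have h2 : aeval X f = ((aeval (⟨X, hE4⟩ : E) f : E) : M) :=
        IntermediateField.aeval_coe E ⟨X, hE4⟩ f
      rw [h2]
      exact (aeval (⟨X, hE4⟩ : E) f).2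
    have h3 : IsIntegral E (Y ^ 2) := by
      rw [hg.eq]
      exact isIntegral_algebraMap (R := E) (A := M) (x := ⟨_, h1⟩)
    exact (IsIntegral.of_pow (by norm_num) h3).isAlgebraic
  have hall : ∀ z : M, IsAlgebraic E z := by
    let N : IntermediateField k M :=
      { carrier := {z | IsAlgebraic E z}
        mul_mem' := fun {a b} ha hb => IsAlgebraic.mul ha hb
        add_mem' := fun {a b} ha hb => IsAlgebraic.add ha hb
        algebraMap_mem' := fun c => isAlgebraic_algebraMap (algebraMap k E c)
        inv_mem' := fun a ha => IsAlgebraic.inv ha }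
    have hN : N = ⊤ := by
      rw [eq_top_iff, ← hg.gen, IntermediateField.adjoin_le_iff]
      rintro z (⟨m, rfl⟩ | hz)
      · exact G4_algJ j _ E hE5 (hLa m)
      · rcases hz with rfl | hz
        · exact isAlgebraic_algebraMap (⟨z, hE4⟩ : E)
        · rw [Set.mem_singleton_iff] at hz
          rw [hz]
          exact hYa
    intro z
    have h1 : z ∈ N := by
      rw [hN]
      exact IntermediateField.mem_top
    exact h1
  have hA : Algebra.IsAlgebraic (Algebra.adjoin k (Set.range W)) M :=
    IntermediateField.isAlgebraic_adjoin_iff_top.1 ⟨hall⟩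
  have hcard : Cardinal.mk (Option (Option (Fin D ⊕ Fin r))) ≤ Algebra.trdeg k M := by
    rw [hM.trdeg, Cardinal.mk_fintype]
    simp only [Fintype.card_option, Fintype.card_sum, Fintype.card_fin]
    exact_mod_cast (by omega : D + r + 1 + 1 ≤ D + (r + 1) + 1)
  have hWb := Algebra.IsAlgebraic.isTranscendenceBasis_of_le_trdeg_of_finite k W hcard
  obtain ⟨hvi, htr⟩ := AlgebraicIndependent.option_iff.1 hWb.1
  let B := IntermediateField.adjoin k (Set.range vv)
  have htB : Transcendental B t := by
    intro hcon
    exact htr (IntermediateField.isAlgebraic_adjoin_iff.1 hcon)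
  have : CharZero B := charZero_of_injective_algebraMap (algebraMap k B).injective
  have hfin : FiniteDimensional (IntermediateField.adjoin B {t}) M := by
    refine G4_fin hM _ fun z => G4_algF E _ ?_ (hall z)
    let N : IntermediateField k M :=
      { carrier := {z | z ∈ IntermediateField.adjoin B {t}}
        mul_mem' := fun {a b} ha hb => (IntermediateField.adjoin B {t}).mul_mem ha hb
        add_mem' := fun {a b} ha hb => (IntermediateField.adjoin B {t}).add_mem ha hb
        algebraMap_mem' := fun c => by
          have h2 : algebraMap k M c = algebraMap B M (algebraMap k B c) := rfl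
          show algebraMap k M c ∈ IntermediateField.adjoin B {t}
          rw [h2]
          exact (IntermediateField.adjoin B {t}).algebraMap_mem _
        inv_mem' := fun x hx => by
          show x⁻¹ ∈ IntermediateField.adjoin B {t}
          exact inv_mem hx }
    have h1 : E ≤ N := by
      rw [IntermediateField.adjoin_le_iff]
      rintro _ ⟨o | o, rfl⟩
      · exact IntermediateField.subset_adjoin B _ rfl
      · exact (IntermediateField.adjoin B {t}).algebraMap_mem
          (⟨vv o, IntermediateField.subset_adjoin k _ ⟨o, rfl⟩⟩ : B)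
    intro z hz
    exact h1 hz
  have hK : FunF B 1 M := by
    refine ⟨fun _ => t, algebraicIndependent_unique_type_iff.2 htB, ?_⟩
    have h1 : Set.range (fun _ : Fin 1 => t) = {t} := Set.range_const
    rw [h1]
    exact hfin
  obtain ⟨S, hS, hsum⟩ := Pool.Agent.LibHL77.sum_zeros' hK t htB
  have hSne : S.Nonempty := by
    by_contra hcon
    rw [Finset.not_nonempty_iff_eq_empty] at hcon
    rw [hcon, Finset.sum_empty] at hsum
    have h1 : 0 < Module.finrank (IntermediateField.adjoin B {t}) M := Module.finrank_pos
    omega
  have hmemB : ∀ G : MvPolynomial (Option (Fin D ⊕ Fin r)) k, MvPolynomial.aeval vv G ∈ B := by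
    intro G
    apply IntermediateField.algebra_adjoin_le_adjoin k (Set.range vv)
    rw [Algebra.adjoin_range_eq_range_aeval]
    exact ⟨G, rfl⟩
  have hne : ∀ G : MvPolynomial (Option (Fin D ⊕ Fin r)) k, G ≠ 0 → MvPolynomial.aeval vv G ≠ 0 := by
    intro G hG h1
    exact hG (hvi (by rw [h1, map_zero]))
  refine ⟨S.image G4_down, hSne.image _, ?_, ?_⟩
  · intro v
    rw [Finset.mem_image]
    constructor
    · rintro ⟨s, hs, rfl⟩
      have h1 := (hS s).1 hs
      refine ⟨?_, ?_⟩
      · show s.ord (j (p (Fin.last r))) < 0
        rw [ht', s.ord_inv]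
        omega
      · intro G hG
        rw [← hvv]
        refine ⟨hne G hG, ?_⟩
        show s.ord (MvPolynomial.aeval vv G) = 0
        exact s.ord_const (⟨MvPolynomial.aeval vv G, hmemB G⟩ : B) (by
          intro h2
          exact hne G hG (congrArg Subtype.val h2))
    · rintro ⟨hv1, hv2⟩
      rw [← hvv] at hv2
      have htriv : ∀ z ∈ B, v.ord z = 0 := by
        intro z hz
        obtain ⟨a, b, rfl⟩ := (IntermediateField.mem_adjoin_range_iff k vv z).1 hz
        by_cases ha : a = 0
        · rw [ha, map_zero, zero_div, v.ord_zero]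
        by_cases hb : b = 0
        · rw [hb, map_zero, div_zero, v.ord_zero]
        rw [v.ord_div _ _ (hv2 a ha).1 (hv2 b hb).1, (hv2 a ha).2, (hv2 b hb).2, sub_zero]
      refine ⟨G4_up v htriv, ?_, Place.ext' fun _ => rfl⟩
      rw [hS]
      show 0 < v.ord t
      rw [ht, v.ord_inv]
      omega
  · intro v hv
    obtain ⟨s, hs, rfl⟩ := Finset.mem_image.1 hv
    have h1 : FiniteDimensional B (RF s) :=
      Pool.Agent.LibHL77.funF_zero.1 (Pool.Agent.LibHL77.res_finite hK s)
    let vB : Option (Fin D ⊕ Fin r) → B := fun o => ⟨vv o, IntermediateField.subset_adjoin k _ ⟨o, rfl⟩⟩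
    have hvB : AlgebraicIndependent k vB := by
      have h2 : AlgebraicIndependent k (B.val ∘ vB) := hvi
      exact h2.of_comp B.val
    have hvt : IntermediateField.adjoin k (Set.range vB) = ⊤ := by
      rw [eq_top_iff]
      intro z _
      have h2 : (IntermediateField.adjoin k (Set.range vB)).map B.val = B := by
        rw [IntermediateField.adjoin_map, ← Set.range_comp]
        rfl
      have h3 : (z : M) ∈ (IntermediateField.adjoin k (Set.range vB)).map B.val := by
        rw [h2]
        exact z.2
      obtain ⟨y, hy, hyz⟩ := h3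
      have h4 : y = z := Subtype.ext hyz
      rw [← h4]
      exact hy
    have hcd : Fintype.card (Fin (D + (r + 1))) = Fintype.card (Option (Fin D ⊕ Fin r)) := by
      simp only [Fintype.card_option, Fintype.card_sum, Fintype.card_fin]
      omega
    let e := Fintype.equivOfCardEq hcd
    refine G4_res s h1 (vB ∘ e) (hvB.comp e e.injective) ?_
    rw [e.surjective.range_comp]
    exact hvt

end Pool.Agent.LibHE77
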