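import Pool.Agent.LibHE77.G0

/-!
[HE77 G5] the polynomial whose zeros are the limits of the zeros of `y - p(x)` at a vertical place. Write `P̄ = P1 * pq pb` (monic of degree `r + κ`, `pb last = 1`: `hpb` and `p last / p last = 1`), `t = 1 / p_r`, `v.ord (j t) > 0`. The image of `spl` under `j` times `t ^ 2` is
`t^2 f - (t P0 + P1 * pq (p / p_r))^2 = t^2 ∏ i, (X - j (x i))`; the coefficients on the left are regular and reduce to those of `- P̄ ^ 2 ≠ 0`. Let `R` be the set of the `i` with `j (x i)` regular, `xr i` the residue. For `i ∉ R` write `X - x i = (- x i) (1 - (x i)⁻¹ X)`. So the left side is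
`u * ∏ (i ∉ R), (1 - (x i)⁻¹ X) * ∏ (i ∈ R), (X - x i)`, `u = t^2 ∏ (i ∉ R), (- x i)`; the polynomial after `u` reduces to `∏ (i ∈ R), (X - xr i) ≠ 0`. If `u` were not regular, dividing by `u` would give `0 = ∏ ..`; so `u` is regular with residue `ρ`, `- P̄ ^ 2 = ρ * ∏ (i ∈ R), (X - C (xr i))`, `ρ = -1`
(both monic), and `R.card = 2 (r + κ)`: all but one `i₀` are in `R`.
-/

open scoped Classical
open Polynomial

namespace Pool.Agent.LibHE77

open Pool.Agent.LibBH2
open Pool.Agent.LibCHd (VR RF Red FunF)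
open Pool.Agent.LibHyp34 (Hyp Pt Pic jP)
open Pool.Agent.LibHD77 (MPt Pnt cst cyc cls CH Dia mk' og pnt cl Gen Gen1 Triv SpR mpt fld sq)
open Pool.Agent.LibHD77.Comb (Pat sub)

variable {k : Type} [Field k]
  {D r κ : ℕ} {f : k[X]} {V : Fin D → k[X]} {c : Fin κ → k × k} {L : Type} [Field L]
  [Algebra k L] {xe ye : Fin D → L} {p : Fin (r + 1) → L} {x : Fin (NN r κ) → L}

theorem G5_core {A M R : Type} [CommRing A] [Field M] [Field R] (φ : A →+* M)
    (hφ : Function.Injective φ) (ρ : A →+* R) (G H : A[X]) (u : M) (hu0 : u ≠ 0)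
    (hG : G.map φ = C u * H.map φ) (hu : (∃ a, φ a = u) ∨ ∃ b, φ b = u⁻¹ ∧ ρ b = 0)
    (hH : H.map ρ ≠ 0) : ∃ a, φ a = u ∧ G.map ρ = C (ρ a) * H.map ρ := by
  rcases hu with ⟨a, ha⟩ | ⟨b, hb, hb0⟩
  · refine ⟨a, ha, ?_⟩
    have h1 : G = C a * H := by
      apply Polynomial.map_injective φ hφ
      rw [hG, Polynomial.map_mul, Polynomial.map_C, ha]
    rw [h1, Polynomial.map_mul, Polynomial.map_C]
  · exfalso
    have h1 : C b * G = H := by
      apply Polynomial.map_injective φ hφ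
      rw [Polynomial.map_mul, Polynomial.map_C, hG, hb, ← mul_assoc, ← C_mul, inv_mul_cancel₀ hu0, C_1,
        one_mul]
    apply hH
    rw [← h1, Polynomial.map_mul, Polynomial.map_C, hb0, C_0, zero_mul]

theorem G5_map {L : Type} [Field L] [Algebra k L] {M : Type} [Field M] [Algebra k M] {r κ : ℕ}
    (c : Fin κ → k × k) (j : L →ₐ[k] M) (p : Fin (r + 1) → L) :
    (pol c p).map (j : L →+* M) = (P0 c).map (algebraMap k M) + (P1 c).map (algebraMap k M) *
      ∑ i : Fin (r + 1), C (j (p i)) * X ^ (i : ℕ) := by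
  unfold pol pq
  have h0 : (j : L →+* M).comp (algebraMap k L) = algebraMap k M := by
    ext z
    exact j.commutes z
  rw [Polynomial.map_add, Polynomial.map_mul, Polynomial.map_map, Polynomial.map_map, h0, Polynomial.map_sum]
  congr 2
  refine Finset.sum_congr rfl fun i _ => ?_
  rw [Polynomial.map_mul, Polynomial.map_C, Polynomial.map_pow, Polynomial.map_X]
  rfl

theorem G5_monic {K : Type} [Field K] {r : ℕ} (pb : Fin (r + 1) → K) (h1 : pb (Fin.last r) = 1) :
    (pq pb).Monic ∧ (pq pb).natDegree = r := by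
  have h2 : pq pb = X ^ r + ∑ i : Fin r, C (pb i.castSucc) * X ^ (i : ℕ) := by
    unfold pq
    rw [Fin.sum_univ_castSucc, h1, C_1, one_mul, add_comm]
    rfl
  have h3 : degree (∑ i : Fin r, C (pb i.castSucc) * X ^ (i : ℕ) : K[X]) < r :=
    degree_sum_fin_lt fun i : Fin r => pb i.castSucc
  rw [h2]
  refine ⟨monic_X_pow_add h3, ?_⟩
  rw [natDegree_add_eq_left_of_degree_lt, natDegree_X_pow]
  rw [degree_X_pow]
  exact h3

theorem G5_P1 (K : Type) [Field K] [Algebra k K] {κ : ℕ} (c : Fin κ → k × k) :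
    ((P1 c).map (algebraMap k K)).Monic ∧ ((P1 c).map (algebraMap k K)).natDegree = κ := by
  have h1 : (P1 c).Monic := monic_prod_of_monic _ _ fun i _ => monic_X_sub_C _
  refine ⟨h1.map _, ?_⟩
  rw [h1.natDegree_map]
  unfold P1
  rw [natDegree_prod_of_monic _ _ fun i _ => monic_X_sub_C _]
  simp

theorem vert_fac (h : Fam f V c xe ye p x) {M : Type} [Field M] [Algebra k M] (j : L →ₐ[k] M)
    (v : Place k M) (hv : v.ord (j (p (Fin.last r))) < 0) (pb : Fin (r + 1) → RF v)
    (hpb : ∀ i, Red v (j (p i / p (Fin.last r))) (pb i)) :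
    ∃ (i₀ : Fin (NN r κ)) (xr : Fin (NN r κ) → RF v), v.ord (j (x i₀)) < 0 ∧
      (∀ i, i ≠ i₀ → Red v (j (x i)) (xr i)) ∧
      ((P1 c).map (algebraMap k (RF v)) * pq pb) ^ 2 =
        ∏ i ∈ Finset.univ.erase i₀, (Polynomial.X - C (xr i)) := by
  have hp0 : j (p (Fin.last r)) ≠ 0 := by
    intro h0
    rw [h0, v.ord_zero] at hv
    exact lt_irrefl _ hv
  have hp0' : p (Fin.last r) ≠ 0 := by
    intro h0
    rw [h0, map_zero] at hp0
    exact hp0 rfl
  have htz : v.Zer (j (p (Fin.last r)))⁻¹ := by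
    right
    rw [v.ord_inv]
    omega
  have ht := Pool.Agent.LibCHd.red_zero_iff.2 htz
  have hpl : pb (Fin.last r) = 1 := by
    have h1 := hpb (Fin.last r)
    rw [div_self hp0', map_one] at h1
    exact h1.unique (Pool.Agent.LibCHd.red_one v)
  obtain ⟨hm1, hd1⟩ := G5_monic pb hpl
  obtain ⟨hm2, hd2⟩ := G5_P1 (RF v) c
  let φ : VR v →+* M := (VR v).subtype
  have hφ : Function.Injective φ := Subtype.val_injective
  let ρ : VR v →+* RF v := IsLocalRing.residue (VR v)
  have hφk : φ.comp (algebraMap k (VR v)) = algebraMap k M := rfl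
  have hρk : ρ.comp (algebraMap k (VR v)) = algebraMap k (RF v) := rfl
  let t : VR v := ⟨(j (p (Fin.last r)))⁻¹, ht.1⟩
  have ht0 : ρ t = 0 := ht.2
  let q : Fin (r + 1) → VR v := fun i => ⟨j (p i / p (Fin.last r)), (hpb i).1⟩
  let PA : (VR v)[X] := C t * (P0 c).map (algebraMap k (VR v)) + (P1 c).map (algebraMap k (VR v)) *
    ∑ i : Fin (r + 1), C (q i) * X ^ (i : ℕ)
  have hPφ : PA.map φ = C (φ t) * (pol c p).map (j : L →+* M) := by
    rw [G5_map]
    show Polynomial.map φ (C t * (P0 c).map (algebraMap k (VR v)) + (P1 c).map (algebraMap k (VR v)) *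
      ∑ i : Fin (r + 1), C (q i) * X ^ (i : ℕ)) = _
    rw [Polynomial.map_add, Polynomial.map_mul, Polynomial.map_mul, Polynomial.map_C, Polynomial.map_map,
      Polynomial.map_map, hφk, Polynomial.map_sum, mul_add, mul_left_comm, Finset.mul_sum _ _ (C (φ t))]
    congr 2
    refine Finset.sum_congr rfl fun i _ => ?_
    rw [Polynomial.map_mul, Polynomial.map_C, Polynomial.map_pow, Polynomial.map_X, ← mul_assoc, ← C_mul]
    congr 2
    show j (p i / p (Fin.last r)) = (j (p (Fin.last r)))⁻¹ * j (p i)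
    rw [map_div₀, div_eq_mul_inv, mul_comm]
  have hPρ : PA.map ρ = (P1 c).map (algebraMap k (RF v)) * pq pb := by
    show Polynomial.map ρ (C t * (P0 c).map (algebraMap k (VR v)) + (P1 c).map (algebraMap k (VR v)) *
      ∑ i : Fin (r + 1), C (q i) * X ^ (i : ℕ)) = _
    rw [Polynomial.map_add, Polynomial.map_mul, Polynomial.map_mul, Polynomial.map_C, Polynomial.map_map,
      Polynomial.map_map, hρk, Polynomial.map_sum, ht0, C_0, zero_mul, zero_add]
    congr 1
    unfold pq
    refine Finset.sum_congr rfl fun i _ => ?_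
    rw [Polynomial.map_mul, Polynomial.map_C, Polynomial.map_pow, Polynomial.map_X]
    congr 2
    exact (hpb i).2
  have hspl : f.map (algebraMap k M) - ((pol c p).map (j : L →+* M)) ^ 2 =
      ∏ i, (X - C (j (x i))) := by
    have h5 := congrArg (Polynomial.map (j : L →+* M)) h.spl
    have h0 : (j : L →+* M).comp (algebraMap k L) = algebraMap k M := by
      ext z
      exact j.commutes z
    rw [Polynomial.map_sub, Polynomial.map_pow, Polynomial.map_map, h0, Polynomial.map_prod] at h5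
    rw [h5]
    refine Finset.prod_congr rfl fun i _ => ?_
    rw [Polynomial.map_sub, Polynomial.map_X, Polynomial.map_C]
    rfl
  -- the indices with regular zeros
  have hinv : ∀ i, ¬ v.Reg (j (x i)) → j (x i) ≠ 0 ∧ v.ord (j (x i)) < 0 := by
    intro i hi
    constructor
    · intro h0
      exact hi (Or.inl h0)
    · by_contra hcon
      exact hi (Or.inr (not_lt.1 hcon))
  have hinvz : ∀ i, ¬ v.Reg (j (x i)) → v.Zer (j (x i))⁻¹ := by
    intro i hi
    right
    rw [v.ord_inv]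
    have := (hinv i hi).2
    omega
  let R : Finset (Fin (NN r κ)) := Finset.univ.filter fun i => v.Reg (j (x i))
  let xA : Fin (NN r κ) → VR v := fun i =>
    if hi : v.Reg (j (x i)) then ⟨j (x i), hi⟩ else ⟨(j (x i))⁻¹, (hinvz i hi).reg⟩
  have xA1 : ∀ i, v.Reg (j (x i)) → φ (xA i) = j (x i) := by
    intro i hi
    show ((xA i : VR v) : M) = _
    simp only [xA, dif_pos hi]
  have xA2 : ∀ i, ¬ v.Reg (j (x i)) → φ (xA i) = (j (x i))⁻¹ := by
    intro i hi
    show ((xA i : VR v) : M) = _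
    simp only [xA, dif_neg hi]
  have xA3 : ∀ i, ¬ v.Reg (j (x i)) → ρ (xA i) = 0 := by
    intro i hi
    have h1 := (Pool.Agent.LibCHd.red_zero_iff.2 (hinvz i hi)).2
    simp only [xA, dif_neg hi]
    exact h1
  let G : (VR v)[X] := C (t ^ 2) * f.map (algebraMap k (VR v)) - PA ^ 2
  let H : (VR v)[X] := (∏ i ∈ Rᶜ, (1 - C (xA i) * X)) * ∏ i ∈ R, (X - C (xA i))
  let u : M := (φ t) ^ 2 * ∏ i ∈ Rᶜ, (-(j (x i)))
  have hHρ : H.map ρ = ∏ i ∈ R, (X - C (ρ (xA i))) := by
    show Polynomial.map ρ ((∏ i ∈ Rᶜ, (1 - C (xA i) * X)) * ∏ i ∈ R, (X - C (xA i))) = _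
    rw [Polynomial.map_mul, Polynomial.map_prod, Polynomial.map_prod]
    have h1 : ∏ i ∈ Rᶜ, Polynomial.map ρ (1 - C (xA i) * X) = 1 := by
      refine Finset.prod_eq_one fun i hi => ?_
      have hi' : ¬ v.Reg (j (x i)) := by
        simpa [R] using hi
      rw [Polynomial.map_sub, Polynomial.map_one, Polynomial.map_mul, Polynomial.map_C, xA3 i hi', C_0,
        zero_mul, sub_zero]
    rw [h1, one_mul]
    refine Finset.prod_congr rfl fun i _ => ?_
    rw [Polynomial.map_sub, Polynomial.map_X, Polynomial.map_C]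
  have hHm : (H.map ρ).Monic := by
    rw [hHρ]
    exact monic_prod_of_monic _ _ fun i _ => monic_X_sub_C _
  have hu0 : u ≠ 0 := by
    refine mul_ne_zero (pow_ne_zero 2 (inv_ne_zero hp0)) (Finset.prod_ne_zero_iff.2 fun i hi => ?_)
    have hi' : ¬ v.Reg (j (x i)) := by
      simpa [R] using hi
    exact neg_ne_zero.2 (hinv i hi').1
  have hG : G.map φ = C u * H.map φ := by
    have h1 : G.map φ = C ((φ t) ^ 2) * (f.map (algebraMap k M) - ((pol c p).map (j : L →+* M)) ^ 2) := by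
      show Polynomial.map φ (C (t ^ 2) * f.map (algebraMap k (VR v)) - PA ^ 2) = _
      rw [Polynomial.map_sub, Polynomial.map_mul, Polynomial.map_C, Polynomial.map_pow, Polynomial.map_map,
        hφk, hPφ, map_pow, mul_sub, mul_pow, C_pow]
    rw [h1, hspl]
    show _ = C u * Polynomial.map φ ((∏ i ∈ Rᶜ, (1 - C (xA i) * X)) * ∏ i ∈ R, (X - C (xA i)))
    rw [Polynomial.map_mul, Polynomial.map_prod, Polynomial.map_prod, ← Finset.prod_compl_mul_prod R]
    show _ = C ((φ t) ^ 2 * ∏ i ∈ Rᶜ, (-(j (x i)))) * _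
    rw [C_mul, mul_assoc, map_prod, ← mul_assoc (∏ i ∈ Rᶜ, C (-(j (x i)))), ← Finset.prod_mul_distrib]
    congr 2
    · refine Finset.prod_congr rfl fun i hi => ?_
      have hi' : ¬ v.Reg (j (x i)) := by
        simpa [R] using hi
      rw [Polynomial.map_sub, Polynomial.map_one, Polynomial.map_mul, Polynomial.map_C, xA2 i hi',
        Polynomial.map_X, mul_sub, mul_one, ← mul_assoc, ← C_mul, neg_mul, mul_inv_cancel₀ (hinv i hi').1]
      rw [C_neg, C_neg, C_1]
      ring
    · refine Finset.prod_congr rfl fun i hi => ?_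
      have hi' : v.Reg (j (x i)) := by
        simpa [R] using hi
      rw [Polynomial.map_sub, Polynomial.map_X, Polynomial.map_C, xA1 i hi']
  have hu : (∃ a, φ a = u) ∨ ∃ b, φ b = u⁻¹ ∧ ρ b = 0 := by
    by_cases h1 : v.Reg u
    · exact Or.inl ⟨⟨u, h1⟩, rfl⟩
    · right
      have h2 : v.Zer u⁻¹ := by
        right
        rw [v.ord_inv]
        have : v.ord u < 0 := by
          by_contra hcon
          exact h1 (Or.inr (not_lt.1 hcon))
        omega
      have h3 := Pool.Agent.LibCHd.red_zero_iff.2 h2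
      exact ⟨⟨u⁻¹, h3.1⟩, rfl, h3.2⟩
  obtain ⟨a, -, ha⟩ := G5_core φ hφ ρ G H u hu0 hG hu hHm.ne_zero
  have hGρ : G.map ρ = -((P1 c).map (algebraMap k (RF v)) * pq pb) ^ 2 := by
    show Polynomial.map ρ (C (t ^ 2) * f.map (algebraMap k (VR v)) - PA ^ 2) = _
    rw [Polynomial.map_sub, Polynomial.map_mul, Polynomial.map_C, Polynomial.map_pow, hPρ, map_pow, ht0]
    simp
  rw [hGρ] at ha
  have hPm : (((P1 c).map (algebraMap k (RF v)) * pq pb) ^ 2).Monic := (hm2.mul hm1).pow 2
  have hPd : (((P1 c).map (algebraMap k (RF v)) * pq pb) ^ 2).natDegree = 2 * (r + κ) := by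
    rw [(hm2.mul hm1).natDegree_pow, hm2.natDegree_mul hm1, hd1, hd2, add_comm κ r]
  have ha1 : ρ a = -1 := by
    have h1 := congrArg leadingCoeff ha
    rw [leadingCoeff_neg, hPm.leadingCoeff, leadingCoeff_mul, leadingCoeff_C, hHm.leadingCoeff,
      mul_one] at h1
    exact h1.symm
  rw [ha1, C_neg, C_1, neg_mul, one_mul, neg_inj, hHρ] at ha
  have hcard : R.card = 2 * (r + κ) := by
    rw [← hPd, ha, natDegree_prod_of_monic _ _ fun i _ => monic_X_sub_C _]
    simp
  have hcc : Rᶜ.card = 1 := by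
    rw [Finset.card_compl, Fintype.card_fin, hcard]
    show 2 * (r + κ) + 1 - 2 * (r + κ) = 1
    omega
  obtain ⟨i₀, hi₀⟩ := Finset.card_eq_one.1 hcc
  have hR : R = Finset.univ.erase i₀ := by
    rw [← compl_compl R, hi₀, Finset.compl_singleton]
  refine ⟨i₀, fun i => ρ (xA i), ?_, ?_, ?_⟩
  · have h1 : i₀ ∈ Rᶜ := by
      rw [hi₀]
      exact Finset.mem_singleton_self _
    have hi' : ¬ v.Reg (j (x i₀)) := by
      simpa [R] using h1
    exact (hinv i₀ hi').2
  · intro i hi
    have h1 : i ∈ R := by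
      rw [hR]
      exact Finset.mem_erase.2 ⟨hi, Finset.mem_univ _⟩
    have hi' : v.Reg (j (x i)) := by
      simpa [R] using h1
    refine ⟨hi', ?_⟩
    show _ = ρ (xA i)
    simp only [xA, dif_pos hi']
    rfl
  · rw [← hR]
    exact ha

end Pool.Agent.LibHE77
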