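import Pool.Agent.LibHE77.G0

/-!
[HE77 G6] the zeros of a generic polynomial are independent (PURE ALGEBRA in a field `K`). Proof of `roots_ind`. By `hs` the monic polynomial `pq pb` (degree `r`) divides a product of linear factors, so it splits: `pq pb = ∏ i : Fin r, (X - C (ρ i))`. Every `pb i.castSucc` is a polynomial in the `ρ i`, so the field generated by the
family `o3 Xb Xe ρ` contains the family `o3 Xb Xe pb`, which is algebraically independent with the same number `D + r + 1` of elements: `o3 Xb Xe ρ` is algebraically independent (transcendence degree; Mathlib: `AlgebraicIndependent`, `IsTranscendenceBasis`, cardinalities; compare LibHL77/B5, LibHD77/U2). So the `ρ i` are different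
and not in `k`; `Fin κ` has at most one element. `P1 c` is the product of the other factors by definition.
-/

open scoped Classical
open Polynomial

namespace Pool.Agent.LibHE77

open Pool.Agent.LibBH2
open Pool.Agent.LibCHd (VR RF Red FunF)
open Pool.Agent.LibHyp34 (Hyp Pt Pic jP)
open Pool.Agent.LibHD77 (MPt Pnt cst cyc cls CH Dia mk' og pnt cl Gen Gen1 Triv SpR mpt fld sq)
open Pool.Agent.LibHD77.Comb (Pat sub)

variable {k : Type} [Field k]

theorem G6_ai {K : Type} [Field K] [Algebra k K] {ι : Type} [Finite ι] (A B : ι → K)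
    (hA : AlgebraicIndependent k A) (h : ∀ i, A i ∈ Algebra.adjoin k (Set.range B)) :
    AlgebraicIndependent k B := by
  let S := Algebra.adjoin k (Set.range B)
  let A' : ι → S := fun i => ⟨A i, h i⟩
  let B' : ι → S := fun i => ⟨B i, Algebra.subset_adjoin ⟨i, rfl⟩⟩
  have hA' : AlgebraicIndependent k A' := by
    have h1 : AlgebraicIndependent k (S.val ∘ A') := hA
    exact h1.of_comp S.val
  have hle := hA'.cardinalMk_le_trdeg
  have htop : Algebra.adjoin k (Set.range B') = ⊤ := by
    have h1 : Set.range B' = (Subtype.val : S → K) ⁻¹' (Set.range B) := by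
      ext x
      constructor
      · rintro ⟨i, rfl⟩
        exact ⟨i, rfl⟩
      · rintro ⟨i, hi⟩
        exact ⟨i, Subtype.ext hi⟩
    rw [h1]
    exact Algebra.adjoin_adjoin_coe_preimage
  have halg : Algebra.IsAlgebraic (Algebra.adjoin k (Set.range B')) S := by
    constructor
    intro x
    have hx : x ∈ Algebra.adjoin k (Set.range B') := by
      rw [htop]
      exact Algebra.mem_top
    exact isAlgebraic_algebraMap (⟨x, hx⟩ : Algebra.adjoin k (Set.range B'))
  have hB' := Algebra.IsAlgebraic.isTranscendenceBasis_of_le_trdeg_of_finite k B' hle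
  have h2 : AlgebraicIndependent k (S.val ∘ B') := hB'.1.map' Subtype.val_injective
  exact h2

theorem G6_enum {K : Type} (m : Multiset K) {r : ℕ} (h : m.card = r) :
    ∃ ρ : Fin r → K, Multiset.map ρ Finset.univ.val = m := by
  subst h
  induction m using Quotient.inductionOn with
  | h l =>
    refine ⟨l.get, ?_⟩
    have h1 : Multiset.map l.get (Finset.univ : Finset (Fin l.length)).val = (List.ofFn l.get : Multiset K) :=
      Fin.univ_val_map l.get
    rw [List.ofFn_get] at h1
    exact h1

theorem G6_monic {K : Type} [Field K] {r : ℕ} (pb : Fin (r + 1) → K) (h1 : pb (Fin.last r) = 1) :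
    (pq pb).Monic ∧ (pq pb).natDegree = r := by
  have h2 : pq pb = X ^ r + ∑ i : Fin r, C (pb i.castSucc) * X ^ (i : ℕ) := by
    unfold pq
    rw [Fin.sum_univ_castSucc, h1, C_1, one_mul, add_comm]
    rfl
  have h3 : degree (∑ i : Fin r, C (pb i.castSucc) * X ^ (i : ℕ) : K[X]) < r :=
    degree_sum_fin_lt fun i : Fin r => pb i.castSucc
  rw [h2]
  refine ⟨monic_X_pow_add h3, ?_⟩
  rw [natDegree_add_eq_left_of_degree_lt, natDegree_X_pow]
  rw [degree_X_pow]
  exact h3

theorem G6_coeff {K : Type} [Field K] {r : ℕ} (pb : Fin (r + 1) → K) (j : Fin (r + 1)) :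
    (pq pb).coeff (j : ℕ) = pb j := by
  unfold pq
  rw [finsetSum_coeff, Finset.sum_eq_single j]
  · rw [coeff_C_mul, coeff_X_pow, if_pos rfl, mul_one]
  · intro i _ hi
    rw [coeff_C_mul, coeff_X_pow, if_neg, mul_zero]
    intro h
    exact hi (Fin.ext h.symm)
  · intro h
    exact absurd (Finset.mem_univ j) h

theorem roots_ind {K : Type} [Field K] [Algebra k K] {D r κ : ℕ} (c : Fin κ → k × k) (hκ : κ ≤ 1)
    (Xb : K) (Xe : Fin D → K) (pb : Fin (r + 1) → K) (h1 : pb (Fin.last r) = 1)
    (hind : AlgebraicIndependent k (o3 Xb Xe fun i : Fin r => pb i.castSucc)) {ι : Type}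
    (s : Finset ι) (xr : ι → K)
    (hs : ((P1 c).map (algebraMap k K) * pq pb) ^ 2 = ∏ i ∈ s, (X - C (xr i))) :
    ∃ ρ : Fin r → K, AlgebraicIndependent k (o3 Xb Xe ρ) ∧
      (P1 c).map (algebraMap k K) * pq pb =
        ∏ b : Fin r ⊕ Fin κ, (X - C (Sum.elim ρ (fun i => algebraMap k K (c i).1) b)) ∧
      Function.Injective (Sum.elim ρ fun i : Fin κ => algebraMap k K (c i).1) := by
  obtain ⟨hmon, hdeg⟩ := G6_monic pb h1
  have hspl : (pq pb).Splits := by
    have h2 : (∏ i ∈ s, (X - C (xr i)) : K[X]).Splits := Splits.prod fun i _ => Splits.X_sub_C _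
    have h3 : (∏ i ∈ s, (X - C (xr i)) : K[X]) ≠ 0 :=
      (monic_prod_of_monic s _ fun i _ => monic_X_sub_C _).ne_zero
    refine h2.of_dvd h3 ?_
    rw [← hs]
    exact (Dvd.intro_left _ rfl).trans (dvd_pow_self _ (by norm_num))
  have hcard : (pq pb).roots.card = r := by
    rw [← hspl.natDegree_eq_card_roots, hdeg]
  obtain ⟨ρ, hρ⟩ := G6_enum (pq pb).roots hcard
  have hprod : pq pb = ∏ i : Fin r, (X - C (ρ i)) := by
    have h2 := hspl.eq_prod_roots_of_monic hmon
    rw [← hρ, Multiset.map_map] at h2
    exact h2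
  have hmem : ∀ i, o3 Xb Xe (fun i : Fin r => pb i.castSucc) i ∈
      Algebra.adjoin k (Set.range (o3 Xb Xe ρ)) := by
    intro i
    rcases i with _ | e | i
    · exact Algebra.subset_adjoin ⟨none, rfl⟩
    · exact Algebra.subset_adjoin ⟨some (.inl e), rfl⟩
    · let S := Algebra.adjoin k (Set.range (o3 Xb Xe ρ))
      let ρ' : Fin r → S := fun i => ⟨ρ i, Algebra.subset_adjoin ⟨some (.inr i), rfl⟩⟩
      have h2 : (∏ i : Fin r, (X - C (ρ' i)) : S[X]).map (algebraMap S K) = pq pb := by
        rw [hprod, Polynomial.map_prod]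
        refine Finset.prod_congr rfl fun i _ => ?_
        rw [Polynomial.map_sub, Polynomial.map_X, Polynomial.map_C]
        rfl
      have h3 := G6_coeff pb i.castSucc
      rw [← h2, coeff_map] at h3
      show pb i.castSucc ∈ S
      rw [← h3]
      exact ((∏ i : Fin r, (X - C (ρ' i)) : S[X]).coeff _).2
  have hAI : AlgebraicIndependent k (o3 Xb Xe ρ) := G6_ai _ _ hind hmem
  refine ⟨ρ, hAI, ?_, ?_⟩
  · rw [Fintype.prod_sum_type, hprod, mul_comm]
    congr 1
    unfold P1
    rw [Polynomial.map_prod]
    refine Finset.prod_congr rfl fun i _ => ?_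
    rw [Polynomial.map_sub, Polynomial.map_X, Polynomial.map_C]
    rfl
  · rintro (i | i) (j | j) hij
    · have h2 : o3 Xb Xe ρ (some (.inr i)) = o3 Xb Xe ρ (some (.inr j)) := hij
      have h3 := hAI.injective h2
      simp only [Option.some.injEq, Sum.inr.injEq] at h3
      rw [h3]
    · exfalso
      have h2 : ρ i = algebraMap k K (c j).1 := hij
      have h3 : Transcendental k (o3 Xb Xe ρ (some (.inr i))) := hAI.transcendental _
      apply h3
      show IsAlgebraic k (ρ i)
      rw [h2]
      exact isAlgebraic_algebraMap _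
    · exfalso
      have h2 : algebraMap k K (c i).1 = ρ j := hij
      have h3 : Transcendental k (o3 Xb Xe ρ (some (.inr j))) := hAI.transcendental _
      apply h3
      show IsAlgebraic k (ρ j)
      rw [← h2]
      exact isAlgebraic_algebraMap _
    · have h2 : i = j := by
        apply Fin.ext
        have := i.2
        have := j.2
        omega
      rw [h2]

end Pool.Agent.LibHE77
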