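import Pool.Agent.LibHE77.G0

/-!
[HE77 G7] two zeros with the same limit have opposite `y`-coordinates. For a polynomial `G` and `a`, `b` in `L` let `dd G a b = (G /ₘ (X - C a)).eval b` (divided difference). By `spl` (two different indices `i`, `i'`) `f - P ^ 2 = (X - x i) (X - x i') R`, so `dd (f - P ^ 2) (x i) (x i') = 0`; `P ^ 2 - C (P(a)^2) = (P + P(a)) (P - P(a))`
gives `dd (P ^ 2) a b = (P(b) + P(a)) * dd P a b`. So `dd f (x i) (x i') = (yz i + yz i') * dd P (x i) (x i')` (no assumption `x i ≠ x i'`). At `v`: `dd f (x i) (x i')` is regular (it is a polynomial in `x i`, `x i'` over `k`). `P / p_r = (P0 / p_r) + P1 * pq (p / p_r)` has regular coefficients and reduces to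
`P̄ = P1 * pq pb`; `dd (P / p_r) (x i) (x i')` is regular with residue `dd P̄ z z = derivative(P̄)(z) ≠ 0` (lift to `(VR v)[X]`, divide there by the monic `X - a`, reduce; or: `G ↦ dd G a b` is `∑ coeff * (a^(m-1) + a^(m-2) b + ... + b^(m-1))`). So `v.ord (dd P (x i) (x i')) = v.ord (p_r) < 0` and
`yz i + yz i' = dd f / dd P` has positive order or is zero: `y + y' = 0`.
-/

open scoped Classical
open Polynomial

namespace Pool.Agent.LibHE77

open Pool.Agent.LibBH2
open Pool.Agent.LibCHd (VR RF Red FunF)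
open Pool.Agent.LibHyp34 (Hyp Pt Pic jP)
open Pool.Agent.LibHD77 (MPt Pnt cst cyc cls CH Dia mk' og pnt cl Gen Gen1 Triv SpR mpt fld sq)
open Pool.Agent.LibHD77.Comb (Pat sub)

variable {k : Type} [Field k]
  {D r κ : ℕ} {f : k[X]} {V : Fin D → k[X]} {c : Fin κ → k × k} {L : Type} [Field L]
  [Algebra k L] {xe ye : Fin D → L} {p : Fin (r + 1) → L} {x : Fin (NN r κ) → L}

theorem G7_core {A M R : Type} [CommRing A] [Field M] [Field R] (φ : A →+* M)
    (hφ : Function.Injective φ) (ρ : A →+* R) (fA PA : A[X]) (P : M[X]) (t a b y1 y2 : A)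
    (hP : C (φ t) * P = PA.map φ)
    (hd : (X - C (φ a)) * (X - C (φ b)) ∣ fA.map φ - P ^ 2)
    (hy1 : P.eval (φ a) = φ y1) (hy2 : P.eval (φ b) = φ y2) (ht0 : ρ t = 0) (hab : ρ a = ρ b)
    (hne : (derivative (PA.map ρ)).eval (ρ a) ≠ 0) : ρ y2 = - ρ y1 := by
  obtain ⟨R', hR⟩ := hd
  have hdiv : ∀ G : A[X], ∃ G1 : A[X], G = (X - C a) * G1 + C (G.eval a) := by
    intro G
    refine ⟨G /ₘ (X - C a), ?_⟩
    have h := modByMonic_add_div G (X - C a)
    rw [modByMonic_X_sub_C_eq_C_eval] at h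
    rw [add_comm]
    exact h.symm
  obtain ⟨f1, hf1⟩ := hdiv fA
  obtain ⟨P1, hP1⟩ := hdiv PA
  have hmap : ∀ {S : Type} [CommRing S] (σ : A →+* S) (G G1 : A[X]) (_ : G = (X - C a) * G1 + C (G.eval a)),
      G.map σ = (X - C (σ a)) * G1.map σ + C (σ (G.eval a)) := by
    intro S _ σ G G1 h
    have h1 := congrArg (Polynomial.map σ) h
    rw [Polynomial.map_add, Polynomial.map_mul, Polynomial.map_sub, Polynomial.map_X, Polynomial.map_C,
      Polynomial.map_C] at h1
    exact h1
  have e1 := hmap φ fA f1 hf1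
  have e2 : C (φ t) * P = (X - C (φ a)) * P1.map φ + C (φ (PA.eval a)) := by
    rw [hP]
    exact hmap φ PA P1 hP1
  have e3 : φ t * φ y1 = φ (PA.eval a) := by
    have h1 := congrArg (eval (φ a)) e2
    rw [eval_mul, eval_C, hy1, eval_add, eval_mul, eval_sub, eval_X, eval_C, sub_self, zero_mul, zero_add,
      eval_C] at h1
    exact h1
  have e4 : φ (fA.eval a) = (φ y1) ^ 2 := by
    have h1 := congrArg (eval (φ a)) hR
    rw [e1, eval_sub, eval_pow, hy1, eval_add, eval_mul, eval_sub, eval_X, eval_C, sub_self, zero_mul,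
      zero_add, eval_C, eval_mul, eval_mul, eval_sub, eval_X, eval_C, sub_self, zero_mul, zero_mul] at h1
    exact sub_eq_zero.1 h1
  have e2' : C (φ t) * P = (X - C (φ a)) * P1.map φ + C (φ t) * C (φ y1) := by
    rw [e2, ← e3, C_mul]
  have e5 : (X - C (φ a)) * (C (φ t) * f1.map φ - P1.map φ * (P + C (φ y1))) =
      (X - C (φ a)) * (C (φ t) * ((X - C (φ b)) * R')) := by
    have h1 : C (φ t) * (fA.map φ - P ^ 2) = C (φ t) * ((X - C (φ a)) * (X - C (φ b)) * R') := by rw [hR]
    rw [e1, e4, C_pow] at h1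
    linear_combination h1 + (P + C (φ y1)) * e2'
  have e6 := mul_left_cancel₀ (X_sub_C_ne_zero (φ a)) e5
  have e7 := congrArg (eval (φ b)) e6
  rw [eval_sub, eval_mul, eval_C, eval_mul, eval_add, eval_C, hy2, eval_mul, eval_mul, eval_sub, eval_X,
    eval_C, eval_C, sub_self, zero_mul, mul_zero, eval_map, eval₂_at_apply, eval_map, eval₂_at_apply,
    ← map_add, ← map_mul, ← map_mul, ← map_sub] at e7
  have e8 : t * f1.eval b - P1.eval b * (y2 + y1) = 0 := hφ (by rw [e7, map_zero])
  have e9 := congrArg ρ e8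
  rw [map_sub, map_mul, ht0, zero_mul, map_mul, map_add, map_zero, zero_sub, neg_eq_zero] at e9
  have e10 : (derivative (PA.map ρ)).eval (ρ a) = ρ (P1.eval b) := by
    rw [hmap ρ PA P1 hP1, derivative_add, derivative_C, add_zero, derivative_mul, derivative_sub,
      derivative_X, derivative_C, sub_zero, one_mul, eval_add, eval_mul, eval_sub, eval_X, eval_C, sub_self,
      zero_mul, add_zero, hab, eval_map, eval₂_at_apply]
  rw [e10] at hne
  rcases mul_eq_zero.1 e9 with h | h
  · exact absurd h hne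
  · exact eq_neg_of_add_eq_zero_left h

theorem G7_map {L : Type} [Field L] [Algebra k L] {M : Type} [Field M] [Algebra k M] {r κ : ℕ}
    (c : Fin κ → k × k) (j : L →ₐ[k] M) (p : Fin (r + 1) → L) :
    (pol c p).map (j : L →+* M) = (P0 c).map (algebraMap k M) + (P1 c).map (algebraMap k M) *
      ∑ i : Fin (r + 1), C (j (p i)) * X ^ (i : ℕ) := by
  unfold pol pq
  have h0 : (j : L →+* M).comp (algebraMap k L) = algebraMap k M := by
    ext z
    exact j.commutes z
  rw [Polynomial.map_add, Polynomial.map_mul, Polynomial.map_map, Polynomial.map_map, h0, Polynomial.map_sum]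
  congr 2
  refine Finset.sum_congr rfl fun i _ => ?_
  rw [Polynomial.map_mul, Polynomial.map_C, Polynomial.map_pow, Polynomial.map_X]
  rfl

theorem vert_sign (h : Fam f V c xe ye p x) {M : Type} [Field M] [Algebra k M] (j : L →ₐ[k] M)
    (v : Place k M) (hv : v.ord (j (p (Fin.last r))) < 0) (pb : Fin (r + 1) → RF v)
    (hpb : ∀ i, Red v (j (p i / p (Fin.last r))) (pb i)) (i i' : Fin (NN r κ)) (hi : i ≠ i')
    (z : RF v) (h1 : Red v (j (x i)) z) (h2 : Red v (j (x i')) z)
    (hz : (derivative ((P1 c).map (algebraMap k (RF v)) * pq pb)).eval z ≠ 0) (y y' : RF v)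
    (h3 : Red v (j (yz c p x i)) y) (h4 : Red v (j (yz c p x i')) y') : y' = -y := by
  have hp0 : j (p (Fin.last r)) ≠ 0 := by
    intro h0
    rw [h0, v.ord_zero] at hv
    exact lt_irrefl _ hv
  have htz : v.Zer (j (p (Fin.last r)))⁻¹ := by
    right
    rw [v.ord_inv]
    omega
  have ht := Pool.Agent.LibCHd.red_zero_iff.2 htz
  let φ : VR v →+* M := (VR v).subtype
  have hφ : Function.Injective φ := Subtype.val_injective
  let ρ : VR v →+* RF v := IsLocalRing.residue (VR v)
  have hφk : φ.comp (algebraMap k (VR v)) = algebraMap k M := rfl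
  have hρk : ρ.comp (algebraMap k (VR v)) = algebraMap k (RF v) := rfl
  let t : VR v := ⟨(j (p (Fin.last r)))⁻¹, ht.1⟩
  let q : Fin (r + 1) → VR v := fun i => ⟨j (p i / p (Fin.last r)), (hpb i).1⟩
  let PA : (VR v)[X] := C t * (P0 c).map (algebraMap k (VR v)) + (P1 c).map (algebraMap k (VR v)) *
    ∑ i : Fin (r + 1), C (q i) * X ^ (i : ℕ)
  have hPφ : PA.map φ = C (φ t) * (pol c p).map (j : L →+* M) := by
    rw [G7_map]
    show Polynomial.map φ (C t * (P0 c).map (algebraMap k (VR v)) + (P1 c).map (algebraMap k (VR v)) *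
      ∑ i : Fin (r + 1), C (q i) * X ^ (i : ℕ)) = _
    rw [Polynomial.map_add, Polynomial.map_mul, Polynomial.map_mul, Polynomial.map_C, Polynomial.map_map,
      Polynomial.map_map, hφk, Polynomial.map_sum, mul_add, mul_left_comm, Finset.mul_sum _ _ (C (φ t))]
    congr 2
    refine Finset.sum_congr rfl fun i _ => ?_
    rw [Polynomial.map_mul, Polynomial.map_C, Polynomial.map_pow, Polynomial.map_X, ← mul_assoc, ← C_mul]
    congr 2
    show j (p i / p (Fin.last r)) = (j (p (Fin.last r)))⁻¹ * j (p i)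
    rw [map_div₀, div_eq_mul_inv, mul_comm]
  have hPρ : PA.map ρ = (P1 c).map (algebraMap k (RF v)) * pq pb := by
    show Polynomial.map ρ (C t * (P0 c).map (algebraMap k (VR v)) + (P1 c).map (algebraMap k (VR v)) *
      ∑ i : Fin (r + 1), C (q i) * X ^ (i : ℕ)) = _
    have h5 : ρ t = 0 := ht.2
    rw [Polynomial.map_add, Polynomial.map_mul, Polynomial.map_mul, Polynomial.map_C, Polynomial.map_map,
      Polynomial.map_map, hρk, Polynomial.map_sum, h5, C_0, zero_mul, zero_add]
    congr 1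
    unfold pq
    refine Finset.sum_congr rfl fun i _ => ?_
    rw [Polynomial.map_mul, Polynomial.map_C, Polynomial.map_pow, Polynomial.map_X]
    congr 2
    exact (hpb i).2
  have hdvd : (X - C (j (x i))) * (X - C (j (x i'))) ∣
      f.map (algebraMap k M) - ((pol c p).map (j : L →+* M)) ^ 2 := by
    have h5 := congrArg (Polynomial.map (j : L →+* M)) h.spl
    have h0 : (j : L →+* M).comp (algebraMap k L) = algebraMap k M := by
      ext z
      exact j.commutes z
    rw [Polynomial.map_sub, Polynomial.map_pow, Polynomial.map_map, h0, Polynomial.map_prod] at h5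
    rw [h5]
    have h6 := Finset.prod_dvd_prod_of_subset ({i, i'} : Finset (Fin (NN r κ))) Finset.univ
      (fun i => Polynomial.map (j : L →+* M) (X - C (x i))) (Finset.subset_univ _)
    rw [Finset.prod_pair hi] at h6
    simpa only [Polynomial.map_sub, Polynomial.map_X, Polynomial.map_C, RingHom.coe_coe] using h6
  have hev : ∀ i, ((pol c p).map (j : L →+* M)).eval (j (x i)) = j (yz c p x i) := by
    intro i
    rw [eval_map]
    exact eval₂_at_apply (j : L →+* M) (x i)
  have h7 : ρ ⟨j (x i), h1.1⟩ = z := h1.2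
  have h8 : ρ ⟨j (x i'), h2.1⟩ = z := h2.2
  have h9 := G7_core φ hφ ρ (f.map (algebraMap k (VR v))) PA ((pol c p).map (j : L →+* M)) t
    ⟨j (x i), h1.1⟩ ⟨j (x i'), h2.1⟩ ⟨j (yz c p x i), h3.1⟩ ⟨j (yz c p x i'), h4.1⟩ hPφ.symm
    (by
      rw [Polynomial.map_map, hφk]
      exact hdvd) (hev i) (hev i') ht.2 (h7.trans h8.symm) (by
      rw [hPρ, h7]
      exact hz)
  have h10 : ρ ⟨j (yz c p x i), h3.1⟩ = y := h3.2
  have h11 : ρ ⟨j (yz c p x i'), h4.1⟩ = y' := h4.2
  rw [h10, h11] at h9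
  exact h9

end Pool.Agent.LibHE77
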