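import Pool.Agent.LibHE77.G0

/-!
[HE77 G8] the bijection between the zeros and the letters (PURE ALGEBRA / COMBINATORICS in a field `K` of characteristic zero). Proof of `exists_lt`. By `hs` (unique factorization; compare `Polynomial.roots`, `rootMultiplicity`/count) every `xr i`, `i ≠ i₀`, is one of the `rt b` and for every `b` there are exactly two `i ≠ i₀` with
`xr i = rt b` (`rt` is injective); by `h1` their `yr` are opposite and different from zero (`h2`). For `b = .inl b'` let `η b'` be `yr i` for one of the two; for `b = .inr b'` the two values are `C2 b'` and `- C2 b'` (`h3`, `h4`). `ℓ i₀ = none`, `ℓ i = some (b, ε)` if `xr i = rt b` and `yr i = ε * (value)`: injective, and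
both sides have `2 (r + κ) + 1` elements (`Fintype.card`), so it is a bijection.
-/

open scoped Classical
open Polynomial

namespace Pool.Agent.LibHE77

open Pool.Agent.LibBH2
open Pool.Agent.LibCHd (VR RF Red FunF)
open Pool.Agent.LibHyp34 (Hyp Pt Pic jP)
open Pool.Agent.LibHD77 (MPt Pnt cst cyc cls CH Dia mk' og pnt cl Gen Gen1 Triv SpR mpt fld sq)
open Pool.Agent.LibHD77.Comb (Pat sub)

variable {k : Type} [Field k]

theorem exists_lt {K : Type} [Field K] [CharZero K] {r κ : ℕ} (i₀ : Fin (NN r κ))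
    (xr yr : Fin (NN r κ) → K) (rt : Fin r ⊕ Fin κ → K) (hrt : Function.Injective rt)
    (hs : (∏ b, (X - C (rt b))) ^ 2 = ∏ i ∈ Finset.univ.erase i₀, (X - C (xr i)))
    (h1 : ∀ i i', i ≠ i₀ → i' ≠ i₀ → i ≠ i' → xr i = xr i' → yr i' = -yr i)
    (h2 : ∀ i, i ≠ i₀ → yr i ≠ 0) (C2 : Fin κ → K) (h3 : ∀ b, C2 b ≠ 0)
    (h4 : ∀ i b, i ≠ i₀ → xr i = rt (.inr b) → yr i ^ 2 = C2 b ^ 2) :
    ∃ (ℓ : Fin (NN r κ) ≃ Lt r κ) (η : Fin r → K), ℓ i₀ = none ∧
      (∀ i b (ε : ℤˣ), ℓ i = some (.inl b, ε) → xr i = rt (.inl b) ∧ yr i = ((ε : ℤ) : K) * η b) ∧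
      (∀ i b (ε : ℤˣ), ℓ i = some (.inr b, ε) → xr i = rt (.inr b) ∧
        yr i = ((ε : ℤ) : K) * C2 b) ∧
      ∀ b, ∃ i, i ≠ i₀ ∧ xr i = rt (.inl b) ∧ η b = yr i := by
  -- roots
  have hr1 : ∀ b, ∃ i, i ≠ i₀ ∧ xr i = rt b := by
    intro b
    have h := congrArg (Polynomial.eval (rt b)) hs
    rw [Polynomial.eval_pow, Polynomial.eval_prod, Polynomial.eval_prod,
      Finset.prod_eq_zero (Finset.mem_univ b) (by simp), zero_pow two_ne_zero] at h
    obtain ⟨i, hi, hi2⟩ := Finset.prod_eq_zero_iff.1 h.symm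
    refine ⟨i, (Finset.mem_erase.1 hi).1, ?_⟩
    rw [Polynomial.eval_sub, Polynomial.eval_X, Polynomial.eval_C, sub_eq_zero] at hi2
    exact hi2.symm
  have hr2 : ∀ i, i ≠ i₀ → ∃ b, xr i = rt b := by
    intro i hi
    have h := congrArg (Polynomial.eval (xr i)) hs
    rw [Polynomial.eval_pow, Polynomial.eval_prod, Polynomial.eval_prod,
      Finset.prod_eq_zero (i := i) (s := Finset.univ.erase i₀)
        (Finset.mem_erase.2 ⟨hi, Finset.mem_univ i⟩) (by simp)] at h
    obtain ⟨b, -, hb⟩ := Finset.prod_eq_zero_iff.1 (pow_eq_zero_iff two_ne_zero |>.1 h)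
    rw [Polynomial.eval_sub, Polynomial.eval_X, Polynomial.eval_C, sub_eq_zero] at hb
    exact ⟨b, hb⟩
  choose ib hib1 hib2 using fun b : Fin r => hr1 (.inl b)
  choose bi hbi using hr2
  -- the values
  obtain ⟨w, hwl, hwr⟩ : ∃ w : Fin r ⊕ Fin κ → K, (∀ b, w (.inl b) = yr (ib b)) ∧
      ∀ b, w (.inr b) = C2 b := ⟨Sum.elim (fun b => yr (ib b)) C2, fun _ => rfl, fun _ => rfl⟩
  have hw : ∀ i b, i ≠ i₀ → xr i = rt b → yr i = w b ∨ yr i = -w b := by
    rintro i (b | b) hi hx
    · rw [hwl]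
      by_cases hii : ib b = i
      · left
        rw [hii]
      · right
        exact h1 (ib b) i (hib1 b) hi hii ((hib2 b).trans hx.symm)
    · rw [hwr]
      exact sq_eq_sq_iff_eq_or_eq_neg.1 (h4 i b hi hx)
  let sg : Fin (NN r κ) → ℤˣ := fun i =>
    if h : i = i₀ then 1 else if yr i = w (bi i h) then 1 else -1
  let ℓ : Fin (NN r κ) → Lt r κ := fun i => if h : i = i₀ then none else some (bi i h, sg i)
  have hsg : ∀ i (h : i ≠ i₀), yr i = ((sg i : ℤ) : K) * w (bi i h) := by
    intro i h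
    show yr i = ((((if h : i = i₀ then 1 else if yr i = w (bi i h) then 1 else -1 : ℤˣ)) : ℤ) : K) *
      w (bi i h)
    rw [dif_neg h]
    by_cases h5 : yr i = w (bi i h)
    · rw [if_pos h5, Units.val_one, Int.cast_one, one_mul]
      exact h5
    · rw [if_neg h5, Units.val_neg, Units.val_one, Int.cast_neg, Int.cast_one, neg_one_mul]
      rcases hw i (bi i h) h (hbi i h) with h6 | h6
      · exact absurd h6 h5
      · exact h6
  have hℓ : ∀ i b ε, ℓ i = some (b, ε) → i ≠ i₀ ∧ xr i = rt b ∧ yr i = ((ε : ℤ) : K) * w b := by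
    intro i b ε h
    have h' : (if h : i = i₀ then none else some (bi i h, sg i)) = some (b, ε) := h
    by_cases hi : i = i₀
    · rw [dif_pos hi] at h'
      exact absurd h' (by simp)
    · rw [dif_neg hi] at h'
      have h5 := Option.some.inj h'
      have h6 : bi i hi = b := congrArg Prod.fst h5
      have h7 : sg i = ε := congrArg Prod.snd h5
      rw [← h6, ← h7]
      exact ⟨hi, hbi i hi, hsg i hi⟩
  have hinj : Function.Injective ℓ := by
    intro i i' h
    by_contra hne
    cases hc : ℓ i with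
    | none =>
      have e1 : i = i₀ := by
        by_contra hi
        have h' : ℓ i = some (bi i hi, sg i) := dif_neg hi
        rw [hc] at h'
        exact absurd h' (by simp)
      have e2 : i' = i₀ := by
        by_contra hi
        have h' : ℓ i' = some (bi i' hi, sg i') := dif_neg hi
        rw [← h, hc] at h'
        exact absurd h' (by simp)
      exact hne (e1.trans e2.symm)
    | some q =>
      obtain ⟨b, ε⟩ := q
      obtain ⟨a1, a2, a3⟩ := hℓ i b ε hc
      obtain ⟨b1, b2, b3⟩ := hℓ i' b ε (h ▸ hc)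
      have h5 := h1 i i' a1 b1 hne (a2.trans b2.symm)
      rw [b3, ← a3] at h5
      have h6 : (2 : K) * yr i = 0 := by linear_combination h5
      rcases mul_eq_zero.1 h6 with h7 | h7
      · exact two_ne_zero h7
      · exact h2 i a1 h7
  have hcard : Fintype.card (Fin (NN r κ)) = Fintype.card (Lt r κ) := by
    rw [Fintype.card_fin, Fintype.card_option, Fintype.card_prod, Fintype.card_sum,
      Fintype.card_fin, Fintype.card_fin]
    have : Fintype.card ℤˣ = 2 := by decide
    rw [this]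
    show 2 * (r + κ) + 1 = _
    ring
  have hbij : Function.Bijective ℓ := (Fintype.bijective_iff_injective_and_card ℓ).2 ⟨hinj, hcard⟩
  refine ⟨Equiv.ofBijective ℓ hbij, fun b => yr (ib b), dif_pos rfl, fun i b ε h => ?_,
    fun i b ε h => ?_, fun b => ⟨ib b, hib1 b, hib2 b, rfl⟩⟩
  · obtain ⟨-, a2, a3⟩ := hℓ i _ ε h
    rw [hwl] at a3
    exact ⟨a2, a3⟩
  · obtain ⟨-, a2, a3⟩ := hℓ i _ ε h
    rw [hwr] at a3
    exact ⟨a2, a3⟩

end Pool.Agent.LibHE77
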