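import Pool.Agent.LibHE77.G1
import Pool.Agent.LibHE77.G5
import Pool.Agent.LibHE77.G6
import Pool.Agent.LibHE77.G7
import Pool.Agent.LibHE77.G8
import Pool.Agent.LibHD77.P1

/-!
[HE77 G9] the letters at a vertical place (assembly). Proof of `exists_VL`. `Vert` gives: all `vz j X xe p b` are regular, their residues (`Xb`, `Xe`, `pb`; `pb last = 1`) are algebraically independent (a relation `G` would give `v.ord (aeval .. G) > 0`). `vert_fac` (G5): `i₀`, `xr`; `roots_ind` (G6) in `K = RF v`: `ρ`, `rt = Sum.elim ρ (..)`.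
`j (yz c p x i)` is regular for `i ≠ i₀` (its square is `aeval (x i) f`, `fam_crv`): `yr i`, `yr i ^ 2 = aeval (xr i) f`. `vert_sign` (G7): the derivative of `∏_b (X - C (rt b))` at a root is not zero (`rt` injective): `h1` of `exists_lt` (G8). `h2`: `aeval (xr i) f ≠ 0`: for `xr i = ρ b` since `ρ b` is transcendental over `k`, `f ≠ 0`; for
`xr i = algebraMap (c b).1` it is `(c b).2 ^ 2 ≠ 0`. `C2 b = algebraMap (c b).2`. The points: `xb (Fin.castAdd _ e) = Xe e`, `yb` the residue of `j (ye e)` (regular: its square is), `xb (Fin.natAdd D b.castSucc) = ρ b`, `yb = η b`, `xb (Fin.natAdd D (Fin.last r)) = Xb`, `yb` the residue of `Y`.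
`vert_ord`: `phi / j p_r = (Y - P0(X)) / p_r - P1(X) * ∑ (p_i / p_r) X^i` is regular with residue `- P̄(Xb) ≠ 0` (`Xb` is transcendental over the field generated by the `pb`: `P1 * pq` is the value of a nonzero polynomial in `X`, `p_i / p_r`, use `Vert` for this `G`), so `v.ord phi = v.ord (j p_r) < 0`.
-/

open scoped Classical
open Polynomial

namespace Pool.Agent.LibHE77

open Pool.Agent.LibBH2
open Pool.Agent.LibCHd (VR RF Red FunF)
open Pool.Agent.LibHyp34 (Hyp Pt Pic jP)
open Pool.Agent.LibHD77 (MPt Pnt cst cyc cls CH Dia mk' og pnt cl Gen Gen1 Triv SpR mpt fld sq)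
open Pool.Agent.LibHD77.Comb (Pat sub)

variable {k : Type} [Field k]
  {D r κ : ℕ} {f : k[X]} {V : Fin D → k[X]} {c : Fin κ → k × k} {L : Type} [Field L]
  [Algebra k L] {xe ye : Fin D → L} {p : Fin (r + 1) → L} {x : Fin (NN r κ) → L}

private theorem G9_reg_sq {M : Type} [Field M] [Algebra k M] (v : Place k M) {y : M}
    (h : v.Reg (y ^ 2)) : v.Reg y := by
  by_cases hy : y = 0
  · exact Or.inl hy
  · right
    rcases h with h | h
    · exact absurd h (pow_ne_zero 2 hy)
    · rw [v.ord_pow] at h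
      push_cast at h
      omega

private theorem G9_reg_aeval {M : Type} [Field M] [Algebra k M] {v : Place k M} {x : M}
    (h : v.Reg x) (G : k[X]) : v.Reg (aeval x G) := by
  obtain ⟨c, hc⟩ := LibCHd.exists_red h
  exact (LibHD77.red_aeval hc G).reg

private theorem G9_red_mv {M : Type} [Field M] [Algebra k M] {ι : Type} (v : Place k M)
    (a : ι → M) (b : ι → RF v) (h : ∀ i, Red v (a i) (b i)) (G : MvPolynomial ι k) :
    Red v (MvPolynomial.aeval a G) (MvPolynomial.aeval b G) := by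
  induction G using MvPolynomial.induction_on with
  | C c =>
    rw [MvPolynomial.aeval_C, MvPolynomial.aeval_C]
    exact LibCHd.red_const v c
  | add p q hp hq =>
    rw [map_add, map_add]
    exact hp.add hq
  | mul_X p i hp =>
    rw [map_mul, map_mul, MvPolynomial.aeval_X, MvPolynomial.aeval_X]
    exact hp.mul (h i)

private theorem G9_crv {M : Type} [Field M] [Algebra k M] {v : Place k M} {x y : M}
    {x₀ y₀ : RF v} {G : k[X]} (h : y ^ 2 = aeval x G) (hx : Red v x x₀) (hy : Red v y y₀) :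
    y₀ ^ 2 = aeval x₀ G := by
  have h1 := hy.pow 2
  rw [h] at h1
  exact h1.unique (LibHD77.red_aeval hx G)

private theorem G9_regv {M : Type} [Field M] [Algebra k M] {j : L →ₐ[k] M} {X : M}
    {v : Place k M} (hv : Vert j X xe p v) (b : Option (Fin D ⊕ Fin r)) :
    v.Reg (vz j X xe p b) := by
  have h1 := hv.2 (MvPolynomial.X b) (MvPolynomial.X_ne_zero b)
  rw [MvPolynomial.aeval_X] at h1
  exact Or.inr h1.2.ge

private theorem G9_pl {M : Type} [Field M] [Algebra k M] {j : L →ₐ[k] M} {v : Place k M}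
    (hv : v.ord (j (p (Fin.last r))) < 0) : p (Fin.last r) ≠ 0 := by
  intro h0
  rw [h0, map_zero, v.ord_zero] at hv
  exact lt_irrefl _ hv

theorem exists_VL [CharZero k] [IsAlgClosed k] [Hyp f] (h : Fam f V c xe ye p x) {M : Type}
    [Field M] [Algebra k M] (j : L →ₐ[k] M) {X Y : M} (hY : Y ^ 2 = aeval X f) (v : Place k M)
    (hv : Vert j X xe p v) :
    ∃ (ℓ : Fin (NN r κ) ≃ Lt r κ) (xb yb : Fin (D + (r + 1)) → RF v),
      VL f V c xe ye p x j X Y v ℓ xb yb := by
  have hf0 : f ≠ 0 := (Hyp.monic (f := f)).ne_zero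
  haveI : CharZero (RF v) :=
    charZero_of_injective_algebraMap (algebraMap k (RF v)).injective
  -- the residues of the independent elements
  choose zb hzb using fun b => LibCHd.exists_red (G9_regv hv b)
  have hind0 : AlgebraicIndependent k zb := by
    rw [algebraicIndependent_iff]
    intro G hG0
    by_contra hne
    obtain ⟨h1, h2⟩ := hv.2 G hne
    have h3 := G9_red_mv v _ zb hzb G
    rw [hG0, LibCHd.red_zero_iff] at h3
    rcases h3 with h3 | h3
    · exact h1 h3
    · omega
  have hpl := G9_pl hv.1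
  obtain ⟨pb, hpbl, hpbc⟩ : ∃ pb : Fin (r + 1) → RF v, pb (Fin.last r) = 1 ∧
      ∀ i : Fin r, pb i.castSucc = zb (some (.inr i)) :=
    ⟨Fin.snoc (α := fun _ => RF v) (fun i => zb (some (.inr i))) 1, Fin.snoc_last _ _,
      fun i => Fin.snoc_castSucc _ _ i⟩
  have hpb : ∀ i, Red v (j (p i / p (Fin.last r))) (pb i) := by
    intro i
    refine Fin.lastCases ?_ (fun i => ?_) i
    · rw [hpbl, div_self hpl, map_one]
      exact LibCHd.red_one v
    · rw [hpbc]
      exact hzb (some (.inr i))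
  obtain ⟨i₀, xr, h0, hxr, hfac⟩ := vert_fac h j v hv.1 pb hpb
  have hind1 : AlgebraicIndependent k (o3 (zb none) (fun e => zb (some (.inl e)))
      fun i : Fin r => pb i.castSucc) := by
    have e : (o3 (zb none) (fun e => zb (some (.inl e))) fun i : Fin r => pb i.castSucc) = zb := by
      funext b
      rcases b with _ | (e | i)
      · rfl
      · rfl
      · exact hpbc i
    rw [e]
    exact hind0
  obtain ⟨ρ, hρind, hρprod, hinj⟩ := roots_ind c h.kap (zb none) (fun e => zb (some (.inl e))) pb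
    hpbl hind1 (Finset.univ.erase i₀) xr hfac
  obtain ⟨rt, hrtl, hrtr, hrt⟩ : ∃ rt : Fin r ⊕ Fin κ → RF v, (∀ b, rt (.inl b) = ρ b) ∧
      (∀ b, rt (.inr b) = algebraMap k (RF v) (c b).1) ∧
      rt = Sum.elim ρ fun i : Fin κ => algebraMap k (RF v) (c i).1 :=
    ⟨_, fun _ => rfl, fun _ => rfl, rfl⟩
  rw [← hrt] at hinj hρprod
  -- the y-coordinates
  have hyr0 : ∀ i, ∃ y : RF v, i ≠ i₀ → Red v (j (yz c p x i)) y := by
    intro i
    by_cases hi : i = i₀
    · exact ⟨0, fun h => absurd hi h⟩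
    · have h1 : v.Reg (j (yz c p x i)) := by
        apply G9_reg_sq
        rw [← map_pow, fam_crv h i, ← aeval_algHom_apply]
        exact G9_reg_aeval (hxr i hi).reg f
      obtain ⟨y, hy⟩ := LibCHd.exists_red h1
      exact ⟨y, fun _ => hy⟩
  choose yr hyr using hyr0
  have hcrv : ∀ i, i ≠ i₀ → yr i ^ 2 = aeval (xr i) f := by
    intro i hi
    refine G9_crv (x := j (x i)) (y := j (yz c p x i)) ?_ (hxr i hi) (hyr i hi)
    rw [← map_pow, fam_crv h i, ← aeval_algHom_apply]
  have hroot : ∀ i, i ≠ i₀ → ∃ b, xr i = rt b := by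
    intro i hi
    have h1 := congrArg (Polynomial.eval (xr i)) hfac
    rw [hρprod, Polynomial.eval_pow, Polynomial.eval_prod, Polynomial.eval_prod,
      Finset.prod_eq_zero (i := i) (s := Finset.univ.erase i₀)
        (Finset.mem_erase.2 ⟨hi, Finset.mem_univ i⟩) (by simp)] at h1
    obtain ⟨b, -, hb⟩ := Finset.prod_eq_zero_iff.1 (pow_eq_zero_iff two_ne_zero |>.1 h1)
    rw [Polynomial.eval_sub, Polynomial.eval_X, Polynomial.eval_C, sub_eq_zero] at hb
    exact ⟨b, hb⟩
  have hsep : ((P1 c).map (algebraMap k (RF v)) * pq pb).Separable := by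
    rw [hρprod]
    exact Polynomial.separable_prod_X_sub_C_iff.2 hinj
  have haev : ∀ b, aeval (algebraMap k (RF v) (c b).1) f = algebraMap k (RF v) ((c b).2 ^ 2) := by
    intro b
    rw [aeval_algebraMap_apply, (h.con b).2]
    rfl
  have hne : ∀ b, aeval (rt b) f ≠ 0 := by
    rintro (b | b)
    · rw [hrtl]
      have h1 := hρind.transcendental (some (.inr b))
      have h2 := (transcendental_iff.1 h1) f
      exact fun h3 => hf0 (h2 h3)
    · rw [hrtr, haev]
      exact (_root_.map_ne_zero _).2 (pow_ne_zero 2 (h.con b).1)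
  obtain ⟨ℓ, η, hℓ0, hℓ1, hℓ2, hη⟩ := exists_lt i₀ xr yr rt hinj
    (by rw [← hρprod]; exact hfac)
    (fun i i' hi hi' hii hx => by
      obtain ⟨b, hb⟩ := hroot i hi
      refine vert_sign h j v hv.1 pb hpb i i' hii (xr i) (hxr i hi)
        (by rw [hx]; exact hxr i' hi') ?_ (yr i) (yr i') (hyr i hi) (hyr i' hi')
      have h1 : Polynomial.eval₂ (RingHom.id (RF v)) (xr i)
          ((P1 c).map (algebraMap k (RF v)) * pq pb) = 0 := by
        rw [Polynomial.eval₂_id, hρprod, Polynomial.eval_prod]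
        refine Finset.prod_eq_zero (Finset.mem_univ b) ?_
        rw [Polynomial.eval_sub, Polynomial.eval_X, Polynomial.eval_C, hb, sub_self]
      have h2 := hsep.eval₂_derivative_ne_zero (RingHom.id (RF v)) h1
      rwa [Polynomial.eval₂_id] at h2)
    (fun i hi => by
      obtain ⟨b, hb⟩ := hroot i hi
      intro h1
      have h2 := hcrv i hi
      rw [h1, hb, zero_pow two_ne_zero] at h2
      exact hne b h2.symm)
    (fun b => algebraMap k (RF v) (c b).2) (fun b => (_root_.map_ne_zero _).2 (h.con b).1)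
    (fun i b hi hx => by
      rw [hcrv i hi, hx, hrtr, haev, map_pow])
  have hi0 : ∀ i q, ℓ i = some q → i ≠ i₀ := by
    rintro i q hq rfl
    rw [hℓ0] at hq
    exact absurd hq (by simp)
  -- the points
  have hYreg : v.Reg Y := by
    apply G9_reg_sq
    rw [hY]
    exact G9_reg_aeval (G9_regv hv none) f
  obtain ⟨Yb, hYb⟩ := LibCHd.exists_red hYreg
  have hYe0 : ∀ e, v.Reg (j (ye e)) := by
    intro e
    apply G9_reg_sq
    rw [← map_pow, h.crv e, ← aeval_algHom_apply]
    exact G9_reg_aeval (G9_regv hv (some (.inl e))) (V e)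
  choose Ye hYe using fun e => LibCHd.exists_red (hYe0 e)
  obtain ⟨xb, hx1, hx2, hx3⟩ : ∃ xb : Fin (D + (r + 1)) → RF v,
      (∀ e, xb (Fin.castAdd (r + 1) e) = zb (some (.inl e))) ∧
      (∀ i, xb (Fin.natAdd D (Fin.castSucc i)) = ρ i) ∧
      xb (Fin.natAdd D (Fin.last r)) = zb none := by
    refine ⟨Fin.append (fun e => zb (some (.inl e)))
      (Fin.snoc (α := fun _ => RF v) ρ (zb none)), fun e => ?_, fun i => ?_, ?_⟩
    · rw [Fin.append_left]
    · rw [Fin.append_right]
      exact Fin.snoc_castSucc _ _ i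
    · rw [Fin.append_right]
      exact Fin.snoc_last _ _
  obtain ⟨yb, hy1, hy2, hy3⟩ : ∃ yb : Fin (D + (r + 1)) → RF v,
      (∀ e, yb (Fin.castAdd (r + 1) e) = Ye e) ∧
      (∀ i, yb (Fin.natAdd D (Fin.castSucc i)) = η i) ∧
      yb (Fin.natAdd D (Fin.last r)) = Yb := by
    refine ⟨Fin.append Ye (Fin.snoc (α := fun _ => RF v) η Yb), fun e => ?_, fun i => ?_, ?_⟩
    · rw [Fin.append_left]
    · rw [Fin.append_right]
      exact Fin.snoc_castSucc _ _ i
    · rw [Fin.append_right]
      exact Fin.snoc_last _ _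
  obtain ⟨em, he1, he2, he3⟩ : ∃ em : Fin (D + (r + 1)) → Option (Fin D ⊕ Fin r),
      (∀ e, em (Fin.castAdd (r + 1) e) = some (.inl e)) ∧
      (∀ i, em (Fin.natAdd D (Fin.castSucc i)) = some (.inr i)) ∧
      em (Fin.natAdd D (Fin.last r)) = none := by
    refine ⟨Fin.append (fun e => some (.inl e))
      (Fin.snoc (α := fun _ => Option (Fin D ⊕ Fin r)) (fun i => some (.inr i)) none),
      fun e => ?_, fun i => ?_, ?_⟩
    · rw [Fin.append_left]
    · rw [Fin.append_right]
      exact Fin.snoc_castSucc _ _ i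
    · rw [Fin.append_right]
      exact Fin.snoc_last _ _
  have hcases : ∀ P : Fin (D + (r + 1)) → Prop, (∀ e, P (Fin.castAdd (r + 1) e)) →
      (∀ i : Fin r, P (Fin.natAdd D (Fin.castSucc i))) → P (Fin.natAdd D (Fin.last r)) →
      ∀ b, P b := by
    intro P h1 h2 h3 b
    refine Fin.addCases h1 (fun i => ?_) b
    exact Fin.lastCases h3 h2 i
  refine ⟨ℓ, xb, yb, ⟨?_, ?_, ?_, ?_, ?_, ?_, ?_⟩⟩
  · have e : xb = (o3 (zb none) (fun e => zb (some (.inl e))) ρ) ∘ em := by
      funext b
      refine hcases (fun b => xb b = ((o3 (zb none) (fun e => zb (some (.inl e))) ρ) ∘ em) b)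
        (fun e => ?_) (fun i => ?_) ?_ b
      · rw [hx1, Function.comp_apply, he1]
        rfl
      · rw [hx2, Function.comp_apply, he2]
        rfl
      · rw [hx3, Function.comp_apply, he3]
        rfl
    rw [e]
    refine hρind.comp em ?_
    refine Function.LeftInverse.injective (g := fun q : Option (Fin D ⊕ Fin r) => match q with
      | none => Fin.natAdd D (Fin.last r)
      | some (.inl e) => Fin.castAdd (r + 1) e
      | some (.inr i) => Fin.natAdd D i.castSucc) ?_
    intro b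
    refine hcases (fun b => (match em b with
      | none => Fin.natAdd D (Fin.last r)
      | some (.inl e) => Fin.castAdd (r + 1) e
      | some (.inr i) => Fin.natAdd D i.castSucc) = b) (fun e => ?_) (fun i => ?_) ?_ b
    · rw [he1]
    · rw [he2]
    · rw [he3]
  · refine hcases _ (fun e => ?_) (fun i => ?_) ?_
    · rw [hx1, hy1]
      unfold Wl
      rw [Fin.append_left]
      refine G9_crv (x := j (xe e)) (y := j (ye e)) ?_ (hzb (some (.inl e))) (hYe e)
      rw [← map_pow, h.crv e, ← aeval_algHom_apply]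
    · rw [hx2, hy2]
      unfold Wl
      rw [Fin.append_right]
      obtain ⟨i', hi', hx', hη'⟩ := hη i
      rw [hη', hcrv i' hi', hx', hrtl]
    · rw [hx3, hy3]
      unfold Wl
      rw [Fin.append_right]
      exact G9_crv hY (hzb none) hYb
  · intro e
    rw [hx1, hy1]
    exact ⟨hzb (some (.inl e)), hYe e⟩
  · rw [hx3, hy3]
    exact ⟨hzb none, hYb⟩
  · intro i hi
    have h1 : i = i₀ := ℓ.injective (hi.trans hℓ0.symm)
    rw [h1]
    exact h0
  · intro i b η' hi
    obtain ⟨h1, h2⟩ := hℓ1 i b η' hi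
    have h3 := hi0 i _ hi
    rw [hx2, hy2, ← h2, ← hrtl, ← h1]
    exact ⟨hxr i h3, hyr i h3⟩
  · intro i b η' hi
    obtain ⟨h1, h2⟩ := hℓ2 i b η' hi
    have h3 := hi0 i _ hi
    rw [← h2, ← hrtr, ← h1]
    exact ⟨hxr i h3, hyr i h3⟩

private theorem G9_eval {M : Type} [Field M] [Algebra k M] (j : L →ₐ[k] M) (X : M)
    (hpl : p (Fin.last r) ≠ 0) : (pol c p).eval₂ (j : L →+* M) X =
      aeval X (P0 c) + j (p (Fin.last r)) * (aeval X (P1 c) *
        (∑ i : Fin r, j (p i.castSucc / p (Fin.last r)) * X ^ (i : ℕ) + X ^ r)) := by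
  have h0 : ∀ G : k[X], (G.map (algebraMap k L)).eval₂ (j : L →+* M) X = aeval X G := by
    intro G
    rw [Polynomial.eval₂_map]
    have e : (j : L →+* M).comp (algebraMap k L) = algebraMap k M := j.comp_algebraMap
    rw [e]
    rfl
  have h1 : ∀ a : L, j (p (Fin.last r)) * j (a / p (Fin.last r)) = j a := by
    intro a
    rw [← map_mul, mul_div_cancel₀ _ hpl]
  unfold pol pq
  rw [Polynomial.eval₂_add, Polynomial.eval₂_mul, h0, h0, Polynomial.eval₂_finsetSum,
    Fin.sum_univ_castSucc]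
  simp only [Polynomial.eval₂_mul, Polynomial.eval₂_C, Polynomial.eval₂_pow, Polynomial.eval₂_X,
    Fin.val_castSucc, Fin.val_last]
  have h2 : ∑ i : Fin r, (j : L →+* M) (p i.castSucc) * X ^ (i : ℕ) =
      j (p (Fin.last r)) * ∑ i : Fin r, j (p i.castSucc / p (Fin.last r)) * X ^ (i : ℕ) := by
    rw [Finset.mul_sum]
    refine Finset.sum_congr rfl fun i _ => ?_
    rw [← mul_assoc, h1]
    rfl
  rw [h2]
  have h3 : (j : L →+* M) (p (Fin.last r)) = j (p (Fin.last r)) := rfl
  rw [h3]
  ring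

private theorem G9_ne (D r : ℕ) {κ : ℕ} (c : Fin κ → k × k) :
    Polynomial.aeval (MvPolynomial.X none : MvPolynomial (Option (Fin D ⊕ Fin r)) k) (P1 c) *
      (∑ i : Fin r, MvPolynomial.X (some (.inr i)) * MvPolynomial.X none ^ (i : ℕ) +
        MvPolynomial.X none ^ r) ≠ 0 := by
  intro h0
  have h1 := congrArg (MvPolynomial.aeval (fun b : Option (Fin D ⊕ Fin r) =>
    (match b with
      | none => (Polynomial.X : k[X])
      | some _ => 0))) h0
  rw [map_mul, ← Polynomial.aeval_algHom_apply, map_add, map_sum, map_pow, MvPolynomial.aeval_X,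
    map_zero, Finset.sum_eq_zero (fun i _ => by
      rw [map_mul, MvPolynomial.aeval_X, zero_mul]), zero_add, Polynomial.aeval_X_left_apply] at h1
  have h2 : (P1 c).Monic := monic_prod_of_monic _ _ fun i _ => monic_X_sub_C _
  rcases mul_eq_zero.1 h1 with h3 | h3
  · exact h2.ne_zero h3
  · exact pow_ne_zero r Polynomial.X_ne_zero h3

theorem vert_ord [Hyp f] (h : Fam f V c xe ye p x) {M : Type} [Field M] [Algebra k M]
    (j : L →ₐ[k] M) {X Y : M} (hY : Y ^ 2 = aeval X f) (v : Place k M)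
    (hv : Vert j X xe p v) : v.ord (phi j c p X Y) < 0 := by
  have hpl := G9_pl hv.1
  have hp0 : j (p (Fin.last r)) ≠ 0 := (_root_.map_ne_zero j).2 hpl
  have hX : v.Reg X := G9_regv hv none
  have hYr : v.Reg Y := by
    apply G9_reg_sq
    rw [hY]
    exact G9_reg_aeval hX f
  obtain ⟨B, hB⟩ : ∃ B, B = aeval X (P1 c) *
      (∑ i : Fin r, j (p i.castSucc / p (Fin.last r)) * X ^ (i : ℕ) + X ^ r) := ⟨_, rfl⟩
  obtain ⟨h1, h2⟩ := hv.2 _ (G9_ne D r c)
  have hBG : MvPolynomial.aeval (vz j X xe p)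
      (Polynomial.aeval (MvPolynomial.X none : MvPolynomial (Option (Fin D ⊕ Fin r)) k) (P1 c) *
      (∑ i : Fin r, MvPolynomial.X (some (.inr i)) * MvPolynomial.X none ^ (i : ℕ) +
        MvPolynomial.X none ^ r)) = B := by
    rw [map_mul, ← Polynomial.aeval_algHom_apply, map_add, map_sum, map_pow,
      MvPolynomial.aeval_X, hB]
    congr 1
    congr 1
    refine Finset.sum_congr rfl fun i _ => ?_
    rw [map_mul, map_pow, MvPolynomial.aeval_X, MvPolynomial.aeval_X]
    rfl
  rw [hBG] at h1 h2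
  obtain ⟨A, hA⟩ : ∃ A, A = (Y - aeval X (P0 c)) / j (p (Fin.last r)) := ⟨_, rfl⟩
  have hphi : phi j c p X Y = j (p (Fin.last r)) * (A - B) := by
    unfold phi
    rw [G9_eval j X hpl, ← hB, hA]
    field_simp
    ring
  have hAz : v.Zer A := by
    have h3 : v.Reg (Y - aeval X (P0 c)) := hYr.sub (G9_reg_aeval hX _)
    have h4 : v.Zer (j (p (Fin.last r)))⁻¹ := Or.inr (by
      rw [v.ord_inv]
      have := hv.1
      omega)
    rw [hA, div_eq_mul_inv]
    exact Place.Zer.reg_mul h3 h4
  have hBr : v.Reg B := Or.inr h2.ge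
  have hBz : ¬ v.Zer B := by
    rintro (h3 | h3)
    · exact h1 h3
    · omega
  have hABz : ¬ v.Zer (A - B) := by
    intro h3
    have h4 := hAz.sub h3
    rw [sub_sub_cancel] at h4
    exact hBz h4
  have hAB0 : A - B ≠ 0 := fun h3 => hABz (Or.inl h3)
  have hord : v.ord (A - B) = 0 := Place.ord_eq_zero_of_reg (hAz.reg.sub hBr) hABz
  rw [hphi, v.ord_mul _ _ hp0 hAB0, hord, add_zero]
  exact hv.1

end Pool.Agent.LibHE77
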