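import Pool.Agent.LibHE77.G2
import Pool.Agent.LibHE77.G3
import Pool.Agent.LibHE77.G4
import Pool.Agent.LibHE77.G9
import Pool.Agent.LibHE77.G11
import Pool.Agent.LibHE77.G12
import Pool.Agent.LibHD77.U3

/-!
[HE77 G13] the relation (assembly). Proof. `M`, `j : L →ₐ[k] M`, `X`, `Y` with `Gen1 j f X Y`: `exists_cps_KC f L`, `gen1_of_cps` (HD77 U3); `FunF k (D + (r + 1) + 1) M` (`gen1_funF`, `h.dim`). `w`, `w₀` from `horiz` (G2), the finite nonempty set `U` of the `Vert` places from `vert_finite` (G4), for `v ∈ U` `ℓ v`, `xb`, `yb`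
from `exists_VL` (G9), `m v > 0` from `cls_fin` (G12; labels `Wl V f`), weight `- v.ord phi * m v > 0` (`vert_ord`). For `δ` apply the definition of `RatEq` (`IsDiv`) to `u = pgt δ (ex j X (Sum.elim xe x)) (ex j Y (Sum.elim ye (yz c p x)))` and `g = phi j c p X Y`, `S` = the `w i`, `w₀` and `U` (disjoint: the first two are trivial on
`L`, `w₀.ord X < 0`; `phi ≠ 0`). The cycles: `horiz_cyc`, `horiz_inf` (G3; `fam_crv`), `vert_sp` (G12; `cls_fin`: `cyc` of the specialization is `m v • cl ..` in `CH`; the labels of `lsub ..` are right). Places outside `S` with `v.ord phi ≠ 0` and `FunF k (D + (r + 1)) (RF v)`: if trivial on `L` in `S` by `horiz`; otherwise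
`cyc q = 0` by `vert_of_cyc` (G11). `∑_(v ∈ S)`: the sum over the image of `w` of `(card of the fibre) • C v` is the sum over all `i`. In `CH`: `∑_i cls - NN • cls + ∑_(v ∈ U) v.ord phi • (m v • cl (lsub ..)) = 0`.
-/

open scoped Classical
open Polynomial

namespace Pool.Agent.LibHE77

open Pool.Agent.LibBH2
open Pool.Agent.LibCHd (VR RF Red FunF)
open Pool.Agent.LibHyp34 (Hyp Pt Pic jP)
open Pool.Agent.LibHD77 (MPt Pnt cst cyc cls CH Dia mk' og pnt cl Gen Gen1 Triv SpR mpt fld sq)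
open Pool.Agent.LibHD77.Comb (Pat sub)

variable {k : Type} [Field k]
  {D r κ : ℕ} {f : k[X]} {V : Fin D → k[X]} {c : Fin κ → k × k} {L : Type} [Field L]
  [Algebra k L] {xe ye : Fin D → L} {p : Fin (r + 1) → L} {x : Fin (NN r κ) → L}

private theorem G13_lab {n : ℕ} {F : Fin n → k[X]} {cs : Fin κ → ℤˣ → ∀ a, Pt (F a)}
    {ℓ : Fin (NN r κ) → Lt r κ} {δ : Pat (fun a => Pt (F a)) (Option (Fin D ⊕ Fin (NN r κ)))}
    (hδ : Lab F δ (wl V f)) : Lab F (lsub (og F) cs ℓ δ : Dia F (D + (r + 1))) (Wl V f) := by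
  intro a b ε hab
  unfold lsub at hab
  rcases hd : δ a with s | ⟨q, ε₀⟩
  · rw [hd] at hab
    exact absurd hab (by simp)
  rw [hd] at hab
  rcases q with _ | (e | i)
  · have h1 := hδ a none ε₀ hd
    simp only [Sum.inr.injEq, Prod.mk.injEq] at hab
    rw [← hab.1]
    unfold Wl
    rw [Fin.append_right]
    exact h1
  · have h1 := hδ a _ ε₀ hd
    simp only [Sum.inr.injEq, Prod.mk.injEq] at hab
    rw [← hab.1]
    unfold Wl
    rw [Fin.append_left]
    exact h1
  · have h1 := hδ a _ ε₀ hd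
    change lt D (og F) cs a ε₀ (ℓ i) = _ at hab
    rcases hl : ℓ i with _ | ⟨(jj | cc), η⟩
    · rw [hl] at hab
      exact absurd hab (by simp [lt])
    · rw [hl] at hab
      simp only [lt, Sum.inr.injEq, Prod.mk.injEq] at hab
      rw [← hab.1]
      unfold Wl
      rw [Fin.append_right]
      exact h1
    · rw [hl] at hab
      exact absurd hab (by simp [lt])

theorem rel_one [CharZero k] [IsAlgClosed k] [Hyp f] (h : Fam f V c xe ye p x) :
    ∃ (U : Type) (_ : Fintype U) (_ : Nonempty U) (w : U → ℤ)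
      (ℓ : U → Fin (NN r κ) ≃ Lt r κ), (∀ v, 0 < w v) ∧
      ∀ (n : ℕ) (F : Fin n → k[X]) (_ : ∀ a, Hyp (F a))
        (δ : Pat (fun a => Pt (F a)) (Option (Fin D ⊕ Fin (NN r κ)))), Lab F δ (wl V f) →
        ∑ i, cls (D + (r + 1)) (pgt (sub (og F) (tgo (some (.inr i))) δ) (Sum.elim xe x)
          (Sum.elim ye (yz c p x))) -
        NN r κ • cls (D + (r + 1)) (pgt (sub (og F) (tgo none) δ) (Sum.elim xe x)
          (Sum.elim ye (yz c p x))) =
        ∑ v, w v • cl (lsub (og F) (csp F c) (ℓ v) δ : Dia F (D + (r + 1))) := by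
  obtain ⟨M, _, _, i₁, j, hcps⟩ := Pool.Agent.LibHD77.exists_cps_KC f L
  obtain ⟨X', hX'⟩ : ∃ X', X' = i₁ (Pool.Agent.LibHD77.xs f) := ⟨_, rfl⟩
  obtain ⟨Y', hY'⟩ : ∃ Y', Y' = i₁ (Pool.Agent.LibHD77.ys f) := ⟨_, rfl⟩
  have hg : Gen1 j f X' Y' := by
    rw [hX', hY']
    exact Pool.Agent.LibHD77.gen1_of_cps f hcps
  clear hX' hY'
  have hM : FunF k (D + (r + 1) + 1) M := Pool.Agent.LibHD77.gen1_funF hg h.dim
  obtain ⟨w, w₀, hw, ht0, hp0, ho0, hhor⟩ := horiz h j hg
  obtain ⟨U, hUne, hUmem, hUF⟩ := vert_finite h j hg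
  choose ℓ xb yb hVL using fun v : {v // v ∈ U} =>
    exists_VL h j hg.eq v.1 ((hUmem v.1).1 v.2)
  choose m hm hcl using fun v : {v // v ∈ U} =>
    cls_fin (hUF v.1 v.2) (Wl V f) (xb v) (yb v) (hVL v).ind (hVL v).crv
  have hgne : phi j c p X' Y' ≠ 0 := by
    intro h0
    rw [h0, w₀.ord_zero] at ho0
    have : (0 : ℤ) < (NN r κ : ℤ) := by
      unfold NN
      positivity
    omega
  have hUneg : ∀ v ∈ U, v.ord (phi j c p X' Y') < 0 := fun v hv =>
    vert_ord h j hg.eq v ((hUmem v).1 hv)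
  -- disjointness
  have hUtriv : ∀ v ∈ U, ∀ v' : Place k M, Triv j v' → v' ≠ v := by
    rintro v hv v' ht rfl
    have h1 := ((hUmem v').1 hv).1
    rw [ht.triv] at h1
    exact lt_irrefl _ h1
  have hw0 : ∀ i, w i ≠ w₀ := by
    intro i hi
    have h1 := (hw i).2.1
    rw [hi] at h1
    have h2 : w₀.Reg (j (x i)) := Or.inr (by rw [ht0.triv])
    have h3 : w₀.Reg X' := by
      have := h1.reg.add h2
      rwa [sub_add_cancel] at this
    exact Pool.Agent.LibHD77.not_reg hp0 h3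
  refine ⟨{v // v ∈ U}, inferInstance, ⟨⟨hUne.choose, hUne.choose_spec⟩⟩,
    fun v => -(v.1.ord (phi j c p X' Y')) * (m v : ℤ), ℓ, ?_, ?_⟩
  · intro v
    exact mul_pos (neg_pos.2 (hUneg v.1 v.2)) (by exact_mod_cast hm v)
  intro n F hF δ hδ
  set lx : Fin D ⊕ Fin (NN r κ) → L := Sum.elim xe x with hlx
  set ly : Fin D ⊕ Fin (NN r κ) → L := Sum.elim ye (yz c p x) with hly
  have hl : ∀ b, ly b ^ 2 = aeval (lx b) (wl V f (some b)) := by
    rintro (e | i)
    · exact h.crv e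
    · exact fam_crv h i
  have hYn : Y' ^ 2 = aeval X' (wl V f (none : Option (Fin D ⊕ Fin (NN r κ)))) := hg.eq
  set u : Pnt F M := pgt δ (ex j X' lx) (ex j Y' ly) with hu
  let qq : ∀ v : Place k M, Pnt F (RF v) := fun v a =>
    (Pool.Agent.LibHD77.SpR_exists v (u a)).choose
  have hqq : ∀ v a, SpR v (u a) (qq v a) := fun v a =>
    (Pool.Agent.LibHD77.SpR_exists v (u a)).choose_spec
  have huniq : ∀ (v : Place k M) (q : Pnt F (RF v)), (∀ a, SpR v (u a) (q a)) → q = qq v :=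
    fun v q hq => funext fun a => Pool.Agent.LibHD77.SpR_unique (hq a) (hqq v a)
  -- the cycles
  have hci : ∀ i, FunF k (D + (r + 1)) (RF (w i)) ∧
      cyc (qq (w i)) = cyc (pgt (sub (og F) (tgo (some (.inr i))) δ) lx ly) := by
    intro i
    obtain ⟨h1, q, h2, h3⟩ := horiz_cyc h.dim j (w i) (hw i).1 δ (wl V f) hδ lx ly hl X' Y' hYn
      (.inr i) rfl (hw i).2.1 (hw i).2.2.1
    exact ⟨h1, by rw [← huniq _ q h2, h3]⟩
  have hc0 : FunF k (D + (r + 1)) (RF w₀) ∧
      cyc (qq w₀) = cyc (pgt (sub (og F) (tgo none) δ) lx ly) := by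
    obtain ⟨h1, q, h2, h3⟩ := horiz_inf h.dim j w₀ ht0 δ (wl V f) hδ lx ly hl X' Y' hYn hp0
    exact ⟨h1, by rw [← huniq _ q h2, h3]⟩
  have hcU : ∀ v : {v // v ∈ U}, (QuotientAddGroup.mk (cyc (qq v.1)) : CH F (D + (r + 1))) =
      m v • cl (lsub (og F) (csp F c) (ℓ v) δ : Dia F (D + (r + 1))) := by
    intro v
    have h1 := huniq v.1 _ (fun a => vert_sp j hg.eq v.1 (ℓ v) (xb v) (yb v) (hVL v)
      (fun i => (h.con i).2) h.crv (fam_crv h) F δ hδ a)
    rw [← h1]
    exact hcl v n F hF _ (G13_lab hδ)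
  -- the relation
  have hrel : ∑ v ∈ (Finset.univ.image w) ∪ (({w₀} : Finset (Place k M)) ∪ U),
      v.ord (phi j c p X' Y') • cyc (qq v) ∈ Pool.Agent.LibHD77.RatEq F (D + (r + 1)) := by
    refine AddSubgroup.subset_closure ?_
    refine ⟨M, inferInstance, inferInstance, u, phi j c p X' Y', _, fun v => cyc (qq v), hM, hgne,
      ?_, ?_, rfl⟩
    · intro v hv
      refine ⟨?_, qq v, hqq v, rfl⟩
      rw [Finset.mem_union, Finset.mem_union, Finset.mem_image, Finset.mem_singleton] at hv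
      rcases hv with ⟨i, -, rfl⟩ | rfl | hv
      · exact (hci i).1
      · exact hc0.1
      · exact hUF v hv
    · intro v hv ho hFv q hq
      by_contra hc
      rw [Finset.mem_union, Finset.mem_union, Finset.mem_image, Finset.mem_singleton] at hv
      push Not at hv
      by_cases ht : ∀ m, v.ord (j m) = 0
      · rcases hhor v ht ho with rfl | ⟨i, rfl⟩
        · exact hv.2.1 rfl
        · exact hv.1 i (Finset.mem_univ _) rfl
      · push Not at ht
        exact hv.2.2 ((hUmem v).2 (vert_of_cyc h j hg.eq δ hδ v hFv q hq hc ht ho))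
  have hd1 : Disjoint (Finset.univ.image w) (({w₀} : Finset (Place k M)) ∪ U) := by
    rw [Finset.disjoint_left]
    intro v hv hv'
    rw [Finset.mem_image] at hv
    obtain ⟨i, -, rfl⟩ := hv
    rw [Finset.mem_union, Finset.mem_singleton] at hv'
    rcases hv' with h1 | h1
    · exact hw0 i h1
    · exact hUtriv _ h1 _ (hw i).1 rfl
  have hd2 : Disjoint ({w₀} : Finset (Place k M)) U := by
    rw [Finset.disjoint_singleton_left]
    intro h1
    exact hUtriv _ h1 _ ht0 rfl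
  have h0 := (QuotientAddGroup.eq_zero_iff _).2 hrel
  rw [Finset.sum_union hd1, Finset.sum_union hd2, Finset.sum_singleton] at h0
  have hmk : ∀ (s : Finset (Place k M)),
      ((∑ v ∈ s, v.ord (phi j c p X' Y') • cyc (qq v) : Pool.Agent.LibHD77.Cyc k n) :
        CH F (D + (r + 1))) =
      ∑ v ∈ s, v.ord (phi j c p X' Y') • (QuotientAddGroup.mk (cyc (qq v)) : CH F (D + (r + 1))) := by
    intro s
    have h1 := map_sum (QuotientAddGroup.mk' (Pool.Agent.LibHD77.RatEq F (D + (r + 1))))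
      (fun v : Place k M => v.ord (phi j c p X' Y') • cyc (qq v)) s
    simp only [map_zsmul] at h1
    exact h1
  have h1 : ∑ v ∈ Finset.univ.image w, v.ord (phi j c p X' Y') •
      (QuotientAddGroup.mk (cyc (qq v)) : CH F (D + (r + 1))) =
      ∑ i, cls (D + (r + 1)) (pgt (sub (og F) (tgo (some (.inr i))) δ) lx ly) := by
    have h2 := Finset.sum_comp (s := Finset.univ)
      (fun v : Place k M => (QuotientAddGroup.mk (cyc (qq v)) : CH F (D + (r + 1)))) w
    have h3 : ∀ i, cls (D + (r + 1)) (pgt (sub (og F) (tgo (some (.inr i))) δ) lx ly) =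
        (QuotientAddGroup.mk (cyc (qq (w i))) : CH F (D + (r + 1))) := by
      intro i
      unfold cls
      rw [(hci i).2]
    rw [Finset.sum_congr rfl (fun i _ => h3 i), h2]
    refine Finset.sum_congr rfl fun v hv => ?_
    rw [Finset.mem_image] at hv
    obtain ⟨i, -, rfl⟩ := hv
    rw [(hw i).2.2.2, natCast_zsmul]
  have h4 : ∑ v ∈ U, v.ord (phi j c p X' Y') •
      (QuotientAddGroup.mk (cyc (qq v)) : CH F (D + (r + 1))) =
      ∑ v : {v // v ∈ U}, (v.1.ord (phi j c p X' Y')) • (m v • cl (lsub (og F) (csp F c) (ℓ v) δ :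
        Dia F (D + (r + 1)))) := by
    rw [← Finset.sum_coe_sort]
    exact Finset.sum_congr rfl fun v _ => by rw [← hcU v]
  have h5 : ∑ v ∈ Finset.univ.image w, v.ord (phi j c p X' Y') •
      (QuotientAddGroup.mk (cyc (qq v)) : CH F (D + (r + 1))) +
      (w₀.ord (phi j c p X' Y') • (QuotientAddGroup.mk (cyc (qq w₀)) : CH F (D + (r + 1))) +
      ∑ v ∈ U, v.ord (phi j c p X' Y') •
      (QuotientAddGroup.mk (cyc (qq v)) : CH F (D + (r + 1)))) = 0 := by
    rw [← hmk, ← hmk]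
    exact h0
  rw [h1, h4, ho0, hc0.2] at h5
  have h6 : ∑ v : {v // v ∈ U}, (-(v.1.ord (phi j c p X' Y')) * (m v : ℤ)) •
      cl (lsub (og F) (csp F c) (ℓ v) δ : Dia F (D + (r + 1))) =
      -∑ v : {v // v ∈ U}, (v.1.ord (phi j c p X' Y')) • (m v • cl (lsub (og F) (csp F c) (ℓ v) δ :
        Dia F (D + (r + 1)))) := by
    rw [← Finset.sum_neg_distrib]
    refine Finset.sum_congr rfl fun v _ => ?_
    rw [mul_smul, neg_smul, natCast_zsmul]
  rw [h6]
  rw [neg_smul, natCast_zsmul] at h5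
  unfold cls at h5 ⊢
  rw [eq_neg_iff_add_eq_zero, ← h5]
  abel

end Pool.Agent.LibHE77
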