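import Pool.Agent.LibHE77.G0
import Pool.Agent.LibHD77.T3b

/-!
[HE77 G14] orthogonal fixed coordinates of an arbitrary point. Adapt `cl_orth` (HD77 T3b, with `T3b_zero`): the homomorphism `Cyc k 2 → CH F d` which sends `eqs (p', q')` (points over `k`) to `cls d` of `u` with the coordinates `a`, `b` replaced by `cst M p'`, `cst M q'` vanishes on the relations `IsDiv ![F a, F b] 0`
(`ext_H`, HD77 P3, with `T = ` the other coordinates of `u` in `M`), so it is defined on `CH ![F a, F b] 0`; it sends `sq p q` to the combination below.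
-/

open scoped Classical
open Polynomial

namespace Pool.Agent.LibHE77

open Pool.Agent.LibBH2
open Pool.Agent.LibCHd (VR RF Red FunF)
open Pool.Agent.LibHyp34 (Hyp Pt Pic jP Sp)
open Pool.Agent.LibHD77 (MPt Pnt cst cyc cls CH Dia mk' og pnt cl Gen Gen1 Triv SpR mpt fld sq Cyc IsDiv RatEq eqs co xy mpt_ext mpt_cst cyc_mpt SpR_exists ext_H pt2)
open Pool.Agent.LibHD77.Comb (Pat sub)

variable {k : Type} [Field k]

private theorem G14_surj {K : Type} [Field K] [Algebra k K] (v : Place k K)
    (h : Pool.Agent.LibCHd.Rat v) : Function.Surjective (algebraMap k (RF v)) := by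
  intro c
  obtain ⟨f, hf⟩ := Pool.Agent.LibCHd.exists_rep c
  obtain ⟨c0, h0⟩ := h f hf.reg
  exact ⟨c0, (Pool.Agent.LibCHd.red_iff_val.2 h0).unique hf⟩

private theorem G14_cst {M : Type} [Field M] [Algebra k M]
    (hs : Function.Surjective (algebraMap k M)) {f : k[X]} (q : MPt f M) :
    ∃ s : Pt f, q = cst M s := by
  match q with
  | .inf => exact ⟨.inf, rfl⟩
  | .aff x y h =>
    obtain ⟨x0, rfl⟩ := hs x
    obtain ⟨y0, rfl⟩ := hs y
    refine ⟨.aff x0 y0 ?_, rfl⟩
    apply (algebraMap k M).injective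
    rw [map_pow, h, eval_map_algebraMap, aeval_algebraMap_apply, coe_aeval_eq_eval]

private theorem G14_Sp {K : Type} [Field K] [Algebra k K] (v : Place k K) {f : k[X]}
    (T : MPt f K) (s : Pt f) (h : SpR v T (cst (RF v) s)) : Sp v T s := by
  match T, s, h with
  | .inf, .inf, _ => rfl
  | .inf, .aff x y e, h => cases (show (Pt.aff _ _ _ : MPt f (RF v)) = .inf from h)
  | .aff x y e, .inf, h => exact h
  | .aff x y e, .aff x0 y0 e0, h =>
    exact ⟨Pool.Agent.LibCHd.red_iff_val.1 h.1, Pool.Agent.LibCHd.red_iff_val.1 h.2⟩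

/-- the point of the product of two curves -/
private noncomputable def G14_pp {f g : k[X]} (p : Pt f) (q : Pt g) : Pnt ![f, g] k :=
  fun a => match a with
    | 0 => (cst k p : MPt f k)
    | 1 => (cst k q : MPt g k)

private theorem G14_eqs {m : ℕ} {F' : Fin m → k[X]} (u u' : Pnt F' k) (h : eqs u = eqs u') :
    u = u' := by
  have h1 : {a | u a = .inf} = {a | u' a = .inf} := congrArg Prod.fst h
  have h2 : {G | MvPolynomial.aeval (co u) G = 0} = {G | MvPolynomial.aeval (co u') G = 0} :=
    congrArg Prod.snd h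
  funext a
  refine mpt_ext ?_ fun c => ?_
  · exact Set.ext_iff.1 h1 a
  · have h3 := (Set.ext_iff.1 h2 (MvPolynomial.X (a, c) - MvPolynomial.C (xy (u a) c))).1 (by
      show MvPolynomial.aeval (co u) _ = 0
      rw [map_sub, MvPolynomial.aeval_X, MvPolynomial.aeval_C]
      show xy (u a) c - xy (u a) c = 0
      rw [sub_self])
    have h4 : MvPolynomial.aeval (co u')
        (MvPolynomial.X (a, c) - MvPolynomial.C (xy (u a) c)) = 0 := h3
    rw [map_sub, MvPolynomial.aeval_X, MvPolynomial.aeval_C] at h4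
    exact (sub_eq_zero.1 h4).symm

private theorem G14_inj {f : k[X]} {s t : Pt f} (h : (cst k s : MPt f k) = cst k t) : s = t := by
  match s, t, h with
  | .inf, .inf, _ => rfl
  | .inf, .aff x y e, h => cases (show (Pt.inf : MPt f k) = .aff _ _ _ from h)
  | .aff x y e, .inf, h => cases (show (Pt.aff _ _ _ : MPt f k) = .inf from h)
  | .aff x y e, .aff x0 y0 e0, h =>
    have h1 : (Pt.aff (algebraMap k k x) (algebraMap k k y) _ : MPt f k) =
      .aff (algebraMap k k x0) (algebraMap k k y0) _ := h
    injection h1 with h2 h3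
    have h4 : x = x0 := h2
    have h5 : y = y0 := h3
    subst h4
    subst h5
    rfl

private theorem G14_pp_inj {f g : k[X]} {p p' : Pt f} {q q' : Pt g}
    (h : eqs (G14_pp p q) = eqs (G14_pp p' q')) : p = p' ∧ q = q' := by
  have h1 := G14_eqs _ _ h
  exact ⟨G14_inj (congrFun h1 0), G14_inj (congrFun h1 1)⟩

private theorem G14_cyc {m : ℕ} {F' : Fin m → k[X]} (u : Pnt F' k) :
    cyc u = Finsupp.single (eqs u) 1 := by
  have h1 : fld u = ⊤ := by
    rw [eq_top_iff]
    intro c _
    exact (fld u).algebraMap_mem c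
  have h2 : Module.finrank (fld u) k = 1 := by
    rw [h1]
    exact IntermediateField.finrank_top
  rw [cyc, h2, Nat.cast_one]

section

variable {n : ℕ} {F : Fin n → k[X]} {M : Type} [Field M] [Algebra k M]

/-- the substitution of two constants -/
private noncomputable def G14_up (u : Pnt F M) (a b : Fin n) (p : Pt (F a)) (q : Pt (F b)) :
    Pnt F M := Function.update (Function.update u a (cst M p)) b (cst M q)

private noncomputable def G14_ka (d : ℕ) (u : Pnt F M) (a b : Fin n)
    (e : Set (Fin 2) × Set (MvPolynomial (Fin 2 × Fin 2) k)) : CH F d :=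
  if h : ∃ s : Pt (F a) × Pt (F b), e = eqs (G14_pp s.1 s.2) then
    cls d (G14_up u a b h.choose.1 h.choose.2) else 0

private theorem G14_ka_eqs (d : ℕ) (u : Pnt F M) (a b : Fin n) (p : Pt (F a)) (q : Pt (F b)) :
    G14_ka d u a b (eqs (G14_pp p q)) = cls d (G14_up u a b p q) := by
  have h : ∃ s : Pt (F a) × Pt (F b), eqs (G14_pp p q) = eqs (G14_pp s.1 s.2) := ⟨(p, q), rfl⟩
  rw [G14_ka, dif_pos h]
  obtain ⟨h1, h2⟩ := G14_pp_inj h.choose_spec
  rw [← h1, ← h2]

private noncomputable def G14_Ps (d : ℕ) (u : Pnt F M) (a b : Fin n) : Cyc k 2 →+ CH F d :=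
  Finsupp.liftAddHom fun e => zmultiplesHom _ (G14_ka d u a b e)

private theorem G14_Ps_pp (d : ℕ) (u : Pnt F M) (a b : Fin n) (p : Pt (F a)) (q : Pt (F b)) :
    G14_Ps d u a b (cyc (G14_pp p q)) = cls d (G14_up u a b p q) := by
  rw [G14_cyc, G14_Ps, Finsupp.liftAddHom_apply_single, zmultiplesHom_apply, one_smul,
    G14_ka_eqs]

/-- the homomorphism vanishes on the divisors of functions -/
private theorem G14_zero [CharZero k] [IsAlgClosed k] {d : ℕ} (hM : FunF k d M) (w : Pnt F M)
    (a b : Fin n) (hab : a ≠ b)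
    (c : Cyc k 2) (hc : IsDiv ![F a, F b] 0 c) : G14_Ps d w a b c = 0 := by
  obtain ⟨K, _, _, u, g, S, C, hK, hg0, hS, hS', rfl⟩ := hc
  have hK1 : FunF k 1 K := hK
  have hrat : ∀ v : Place k K, Pool.Agent.LibCHd.Rat v := fun v =>
    Pool.Agent.LibCHd.rat_of_funF hK1 v
  let ε : ∀ v : Place k K, k ≃ₐ[k] RF v := fun v =>
    AlgEquiv.ofBijective (Algebra.ofId k (RF v)) ⟨(algebraMap k (RF v)).injective,
      G14_surj v (hrat v)⟩
  -- the specialisations
  have hq : ∀ (v : Place k K) (q : Pnt ![F a, F b] (RF v)), (∀ i, SpR v (u i) (q i)) →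
      ∃ (s : Pt (F a)) (t : Pt (F b)), Sp v (f := F a) (u 0) s ∧ Sp v (f := F b) (u 1) t ∧
        cyc q = cyc (G14_pp s t) := by
    intro v q hq
    obtain ⟨s, hs⟩ := G14_cst (f := F a) (G14_surj v (hrat v)) (q 0)
    obtain ⟨t, ht⟩ := G14_cst (f := F b) (G14_surj v (hrat v)) (q 1)
    have h0 : SpR v (f := F a) (u 0) (q 0) := hq 0
    have h1 : SpR v (f := F b) (u 1) (q 1) := hq 1
    rw [hs] at h0
    rw [ht] at h1
    refine ⟨s, t, G14_Sp v _ s h0, G14_Sp v _ t h1, ?_⟩
    have h2 : q = fun i => mpt (ε v : k →ₐ[k] RF v) (G14_pp s t i) := by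
      refine funext (Fin.forall_fin_two.2 ⟨?_, ?_⟩)
      · exact hs.trans (mpt_cst (ε v : k →ₐ[k] RF v) s).symm
      · exact ht.trans (mpt_cst (ε v : k →ₐ[k] RF v) t).symm
    rw [h2, cyc_mpt]
  have hex : ∀ v : Place k K, ∃ (s : Pt (F a)) (t : Pt (F b)), Sp v (f := F a) (u 0) s ∧
      Sp v (f := F b) (u 1) t := by
    intro v
    choose q hq0 using fun i => SpR_exists v (u i)
    obtain ⟨s, t, h1, h2, -⟩ := hq v q hq0
    exact ⟨s, t, h1, h2⟩
  have hfun : ∀ v : Place k K, FunF k 0 (RF v) := by
    intro v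
    refine Pool.Agent.LibCHd.FunF.congr (ε v) ⟨Fin.elim0, ?_, ?_⟩
    · exact algebraicIndependent_empty_type
    · exact Module.Finite.of_restrictScalars_finite k _ _
  have hne : ∀ (v : Place k K) (q : Pnt ![F a, F b] (RF v)), (∀ i, SpR v (u i) (q i)) →
      cyc q ≠ 0 := by
    intro v q hq0
    obtain ⟨s, t, -, -, h3⟩ := hq v q hq0
    rw [h3, G14_cyc]
    intro h
    exact one_ne_zero (Finsupp.single_eq_zero.1 h)
  have hSS : ∀ v : Place k K, v.ord g ≠ 0 → v ∈ S := by
    intro v hv
    by_contra hvS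
    choose q hq0 using fun i => SpR_exists v (u i)
    exact hne v q hq0 (hS' v hvS hv (hfun v) q hq0)
  -- the cycles of the specialisations
  have hpick : ∀ v : Place k K, ∃ (s : Pt (F a)) (t : Pt (F b)),
      (v ∈ S → Sp v (f := F a) (u 0) s ∧ Sp v (f := F b) (u 1) t ∧ C v = cyc (G14_pp s t)) := by
    intro v
    by_cases hv : v ∈ S
    · obtain ⟨-, q, h1, h2⟩ := hS v hv
      obtain ⟨s, t, h3, h4, h5⟩ := hq v q h1
      exact ⟨s, t, fun _ => ⟨h3, h4, h2.trans h5⟩⟩
    · exact ⟨.inf, .inf, fun h => absurd h hv⟩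
  choose s t hst using hpick
  have h1 : ∀ v ∈ S, G14_Ps d w a b (v.ord g • C v) =
      v.ord g • cls d (G14_up w a b (s v) (t v)) := by
    intro v hv
    rw [map_zsmul, (hst v hv).2.2, G14_Ps_pp]
  rw [map_sum, Finset.sum_congr rfl h1]
  -- the external product
  let T : ∀ c, MPt (F c) K ⊕ MPt (F c) M :=
    Function.update (Function.update (fun c => Sum.inr (w c)) a (Sum.inl (u 0))) b
      (Sum.inl (u 1))
  let P : Place k K → ∀ c, Pt (F c) := fun v =>
    Function.update (Function.update (fun c => (.inf : Pt (F c))) a (s v)) b (t v)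
  have hTP : ∀ v : Place k K, (fun c => Sum.elim (fun _ => cst M (P v c)) id (T c)) =
      (G14_up w a b (s v) (t v) : Pnt F M) := by
    intro v
    funext c
    show Sum.elim (fun _ => cst M (P v c)) id (T c) = G14_up w a b (s v) (t v) c
    by_cases hcb : c = b
    · subst hcb
      have e1 : T c = Sum.inl (u 1) := Function.update_self _ _ _
      have e2 : P v c = t v := Function.update_self _ _ _
      have e3 : G14_up w a c (s v) (t v) c = cst M (t v) := Function.update_self _ _ _
      rw [e1, e2, e3]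
      rfl
    · by_cases hca : c = a
      · subst hca
        have e1 : T c = Sum.inl (u 0) :=
          (Function.update_of_ne hcb _ _).trans (Function.update_self _ _ _)
        have e2 : P v c = s v :=
          (Function.update_of_ne hcb _ _).trans (Function.update_self _ _ _)
        have e3 : G14_up w c b (s v) (t v) c = cst M (s v) :=
          (Function.update_of_ne hcb _ _).trans (Function.update_self _ _ _)
        rw [e1, e2, e3]
        rfl
      · have e1 : T c = Sum.inr (w c) :=
          (Function.update_of_ne hcb _ _).trans (Function.update_of_ne hca _ _)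
        have e3 : G14_up w a b (s v) (t v) c = w c :=
          (Function.update_of_ne hcb _ _).trans (Function.update_of_ne hca _ _)
        rw [e1, e3]
        rfl
  have h2 := ext_H (F := F) hK1 hM T g hg0 S hSS P (by
    intro v hv c t' ht'
    by_cases hcb : c = b
    · subst hcb
      have e1 : T c = Sum.inl (u 1) := Function.update_self _ _ _
      have e2 : P v c = t v := Function.update_self _ _ _
      rw [e1] at ht'
      rw [e2, ← Sum.inl.inj ht']
      exact (hst v hv).2.1
    · by_cases hca : c = a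
      · subst hca
        have e1 : T c = Sum.inl (u 0) :=
          (Function.update_of_ne hcb _ _).trans (Function.update_self _ _ _)
        have e2 : P v c = s v :=
          (Function.update_of_ne hcb _ _).trans (Function.update_self _ _ _)
        rw [e1] at ht'
        rw [e2, ← Sum.inl.inj ht']
        exact (hst v hv).1
      · have e1 : T c = Sum.inr (w c) :=
          (Function.update_of_ne hcb _ _).trans (Function.update_of_ne hca _ _)
        rw [e1] at ht'
        cases ht')
  have h3 : (QuotientAddGroup.mk (∑ v ∈ S, v.ord g •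
      cyc (fun c => Sum.elim (fun _ => cst M (P v c)) id (T c))) : CH F d) = 0 :=
    (QuotientAddGroup.eq_zero_iff _).2 h2
  rw [← h3]
  change _ = QuotientAddGroup.mk' (RatEq F d) _
  rw [map_sum]
  refine Finset.sum_congr rfl fun v _ => ?_
  rw [map_zsmul, hTP]
  rfl

end

theorem cls_orth [CharZero k] [IsAlgClosed k] {n d : ℕ} {F : Fin n → k[X]}
    (hF : ∀ a, Hyp (F a)) {M : Type} [Field M] [Algebra k M] (hM : FunF k d M) (u : Pnt F M)
    (a b : Fin n) (hab : a ≠ b) (p : Pt (F a)) (q : Pt (F b)) (h : IsOfFinAddOrder (sq p q)) :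
    IsOfFinAddOrder
      (cls d (Function.update (Function.update u a (cst M p)) b (cst M q)) -
      cls d (Function.update (Function.update u a (cst M p)) b (.inf : MPt (F b) M)) -
      cls d (Function.update (Function.update u a (.inf : MPt (F a) M)) b (cst M q)) +
      cls d (Function.update (Function.update u a (.inf : MPt (F a) M)) b
        (.inf : MPt (F b) M))) := by
  let Ψ : CH ![F a, F b] 0 →+ CH F d := QuotientAddGroup.lift _ (G14_Ps d u a b) (by
    rw [RatEq, AddSubgroup.closure_le]
    intro c hc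
    exact G14_zero hM u a b hab c hc)
  have hΨ : ∀ (p' : Pt (F a)) (q' : Pt (F b)), Ψ (pt2 p' q') =
      cls d (G14_up u a b p' q') := fun p' q' => G14_Ps_pp d u a b p' q'
  have h1 := Ψ.isOfFinAddOrder h
  rw [Pool.Agent.LibHD77.sq, map_add, map_sub, map_sub, hΨ, hΨ, hΨ, hΨ] at h1
  exact h1

end Pool.Agent.LibHE77
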