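import Pool.Agent.LibHE77.G13
import Pool.Agent.LibHE77.G14
import Pool.Agent.LibHD77.F1

/-!
[HE77 G15] the relations exist (assembly). Proof. `exists_fam` (G1): `L`, `xe`, `ye`, `p`, `x`; `Ψ δ = mk (cls (D + (r + 1)) (pgt δ (Sum.elim xe x) (Sum.elim ye (yz c p x))))`. `cS`: `hcS`. `cj`: `kp f x (-y) = neg (kp f x y)` on a curve `g (ι a) = f`, `jP_neg` (LibHyp34). `zero`: `cl_zero` (HD77 T1). `rel`: `rel_one` (G13), image in
the quotient. `last`: `fam.fix`, `fam_last` (G1): the two points over `L` are equal (`mk'` of constants is `cst L (kp ..)`; the equation holds on the curve `f`). `orth`: the points are `Function.update`s of one point of `L`; `cls_orth` (G14) with `hS` (`hcS`), `mk_eq_zero_iff` (HD77 F1).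
-/

open scoped Classical
open Polynomial

namespace Pool.Agent.LibHE77

open Pool.Agent.LibHyp34 (Hyp Pt Pic jP)
open Pool.Agent.LibHD77 (CH Dia og cl Orth Pr)
open Pool.Agent.LibHD77.Comb (Pat)

variable {k : Type} [Field k]

theorem G15_kp_neg (f : k[X]) (x y : k) : kp f x (-y) = Pool.Agent.LibHyp34.neg (kp f x y) := by
  unfold kp
  by_cases h : y ^ 2 = f.eval x
  · have h' : (-y) ^ 2 = f.eval x := by rw [neg_sq, h]
    rw [dif_pos h, dif_pos h']
    rfl
  · have h' : ¬ (-y) ^ 2 = f.eval x := by rw [neg_sq]; exact h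
    rw [dif_neg h, dif_neg h']
    rfl

theorem G15_csp_neg {n : ℕ} (F : Fin n → k[X]) {κ : ℕ} (c : Fin κ → k × k) (i : Fin κ) (η : ℤˣ)
    (a : Fin n) : csp F c i (-η) a = Pool.Agent.LibHyp34.neg (csp F c i η a) := by
  unfold csp
  rw [← G15_kp_neg]
  congr 1
  push_cast
  ring

theorem G15_mk_kp {L : Type} [Field L] [Algebra k L] (f : k[X]) (x y : k) :
    (Pool.Agent.LibHD77.mk' f (algebraMap k L x) (algebraMap k L y) :
      Pool.Agent.LibHD77.MPt f L) = Pool.Agent.LibHD77.cst L (kp f x y) := by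
  have hiff : (algebraMap k L y) ^ 2 = (f.map (algebraMap k L)).eval (algebraMap k L x) ↔
      y ^ 2 = f.eval x := by
    rw [eval_map_algebraMap, aeval_algebraMap_apply, coe_aeval_eq_eval, ← map_pow]
    exact (algebraMap k L).injective.eq_iff
  unfold Pool.Agent.LibHD77.mk' kp
  by_cases h : y ^ 2 = f.eval x
  · rw [dif_pos h, dif_pos (hiff.2 h)]
    rfl
  · rw [dif_neg h, dif_neg (fun h' => h (hiff.1 h'))]
    rfl

theorem G15_pgt_update {n : ℕ} {F : Fin n → k[X]} {B : Type} {M : Type} [Field M] [Algebra k M]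
    (δ : Pat (fun a => Pt (F a)) B) (x y : B → M) (a : Fin n) (s : Pt (F a)) :
    pgt (Function.update δ a (.inl s)) x y =
      Function.update (pgt δ x y) a (Pool.Agent.LibHD77.cst M s) := by
  funext b
  by_cases hb : b = a
  · subst hb
    unfold pgt
    rw [Function.update_self, Function.update_self]
  · unfold pgt
    rw [Function.update_of_ne hb, Function.update_of_ne hb]

theorem exists_rsys [CharZero k] [IsAlgClosed k] {I : Type} (g : I → k[X]) [∀ i, Hyp (g i)]
    (S : ∀ i, Set (Pt (g i))) (hS : Orth g S) {n D r κ : ℕ} (ι : Fin n → I) (f : k[X]) [Hyp f]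
    (hf : f.natDegree = NN r κ) (V : Fin D → k[X]) (c : Fin κ → k × k) (hκ : κ ≤ 1)
    (hc : ∀ i, (c i).2 ≠ 0 ∧ (c i).2 ^ 2 = f.eval (c i).1)
    (hcS : ∀ a, g (ι a) = f → ∀ i η, csp (Pr ι g) c i η a ∈ S (ι a)) :
    ∃ Ψ : Pat (fun a => Pt (Pr ι g a)) (Fin D ⊕ Fin (NN r κ)) →
        CH (Pr ι g) (D + (r + 1)) ⧸ AddCommGroup.torsion (CH (Pr ι g) (D + (r + 1))),
      RSys (Pr ι g) (og (Pr ι g)) (fun a s => jP s) (fun a => {s | s = .inf ∨ s ∈ S (ι a)}) V f
        (csp (Pr ι g) c) (fun δ : Dia (Pr ι g) (D + (r + 1)) =>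
          (QuotientAddGroup.mk (cl δ) : CH (Pr ι g) (D + (r + 1)) ⧸
            AddCommGroup.torsion (CH (Pr ι g) (D + (r + 1))))) Ψ := by
  obtain ⟨L, iF, iA, xe, ye, p, x, fam⟩ := exists_fam (D := D) (r := r) f hf V c hκ hc
  have hH : ∀ a, Hyp (Pr ι g a) := fun a => inferInstanceAs (Hyp (g (ι a)))
  refine ⟨fun δ => QuotientAddGroup.mk (Pool.Agent.LibHD77.cls (D + (r + 1))
    (pgt δ (Sum.elim xe x) (Sum.elim ye (yz c p x)))), ?_, ?_, ?_, ?_, ?_, ?_⟩
  · intro i η a ha
    exact Or.inr (hcS a ha i η)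
  · intro i η a ha
    rw [G15_csp_neg]
    exact Pool.Agent.LibHyp34.jP_neg _
  · rintro δ W hW ⟨b, hb⟩
    have h0 : (cl δ : CH (Pr ι g) (D + (r + 1))) = 0 := by
      refine Pool.Agent.LibHD77.cl_zero δ ?_
      rintro ⟨V', h1, h2⟩
      obtain ⟨a, ε, h3⟩ := h1 b
      exact hb a ε h3
    change (QuotientAddGroup.mk (cl δ) : CH (Pr ι g) (D + (r + 1)) ⧸
      AddCommGroup.torsion (CH (Pr ι g) (D + (r + 1)))) = 0
    rw [h0]
    rfl
  · obtain ⟨U, iU, iN, w, ℓ, hw, H⟩ := rel_one fam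
    refine ⟨U, iU, iN, w, ℓ, hw, ?_⟩
    intro δ hδ
    have h1 := congrArg (QuotientAddGroup.mk' (AddCommGroup.torsion
      (CH (Pr ι g) (D + (r + 1))))) (H n (Pr ι g) hH δ hδ)
    rw [map_sub, map_sum, map_sum, map_nsmul] at h1
    simp only [map_zsmul] at h1
    exact h1
  · intro δ a i ε ha hδ
    congr 2
    rw [G15_pgt_update]
    funext b
    by_cases hb : b = a
    · subst hb
      rw [Function.update_self]
      unfold pgt csp
      rw [hδ]
      change Pool.Agent.LibHD77.mk' (Pr ι g b) (x (Fin.last _))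
        (((ε : ℤ) : L) * yz c p x (Fin.last _)) = _
      rw [fam.fix i, fam_last fam i, ← G15_mk_kp, map_mul, map_intCast]
    · rw [Function.update_of_ne hb]
  · intro δ a b i hab ha hb
    have hsq := hS (ι a) (ι b) _ (hcS a ha i 1) _ (hcS b hb i 1)
    have h1 := (Pool.Agent.LibHD77.mk_eq_zero_iff _).2 (cls_orth hH fam.dim
      (pgt δ (Sum.elim xe x) (Sum.elim ye (yz c p x))) a b hab _ _ hsq)
    simp only [G15_pgt_update]
    exact h1

end Pool.Agent.LibHE77
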