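import Pool.Agent.LibHE77.G1
import Pool.Agent.LibHD77.L1a
import Pool.Agent.LibHD77.L1b

/-!
[HE77 G2] the places of `L(C)` which are trivial on `L` at which `y - p(x)` has a zero or a pole. Proof of `horiz`: `w i` is the place of `exists_pl_aff` (HD77 L1a) for `(x i, yz c p x i)` (`fam_ne`, `fam_crv`), `w₀` the place of `exists_pl_inf` (L1b), `w₀.ord X = -2`. `Y ^ 2 = aeval X f` gives `w₀.ord Y = -(NN r κ)` and
`w₀.ord ((pol c p).eval₂ j X) ≥ -2 (r + κ)` (`natDegree (pol c p) ≤ r + κ`, coefficients in `L`): `w₀.ord phi = -(NN r κ)`. `(Y - P(X)) (Y + P(X)) = aeval X f - P(X) ^ 2 = ∏ i, (X - j (x i))` (map `spl`). At `w i`: `Y + P(X)` reduces to `2 yz i ≠ 0` (`P(X) - j (yz i)` is divisible by `X - j (x i)`), and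
`(w i).ord (X - j (x i')) = 1` if `x i' = x i`, else `0`: so `(w i).ord phi` is the number of `i'` with `x i' = x i`, that is (uniqueness in `exists_pl_aff`; then also `yz i' = yz i`) with `w i' = w i`. Let `v` be trivial on `L`, `v.ord phi ≠ 0`. If `v.ord X < 0`: `v = w₀`. Otherwise `X`, `Y`, `P(X)` are regular, so
`v.ord phi > 0`, `v.Zer (∏ ..)`, `v.Zer (X - j (x i))` for some `i`, then `v.Zer (P(X) - j (yz i))`, `v.Zer (Y - j (yz i))`: `v = w i`.
-/

open scoped Classical
open Polynomial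

namespace Pool.Agent.LibHE77

open Pool.Agent.LibBH2
open Pool.Agent.LibCHd (VR RF Red FunF)
open Pool.Agent.LibHyp34 (Hyp Pt Pic jP)
open Pool.Agent.LibHD77 (MPt Pnt cst cyc cls CH Dia mk' og pnt cl Gen Gen1 Triv SpR mpt fld sq)
open Pool.Agent.LibHD77.Comb (Pat sub)

section aux

variable {k : Type} [Field k] {L M : Type} [Field L] [Algebra k L] [Field M] [Algebra k M]
  {v : Place k M} {j : L →ₐ[k] M}

theorem G2_reg_j (hv : ∀ m, v.ord (j m) = 0) (m : L) : v.Reg (j m) := Or.inr (hv m).ge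

theorem G2_reg_eval (hv : ∀ m, v.ord (j m) = 0) {x : M} (hx : v.Reg x) (G : L[X]) :
    v.Reg (G.eval₂ (j : L →+* M) x) := by
  induction G using Polynomial.induction_on' with
  | add p q hp hq =>
    rw [eval₂_add]
    exact hp.add hq
  | monomial n a =>
    rw [eval₂_monomial]
    exact (G2_reg_j hv a).mul (hx.pow n)

theorem G2_reg_of (hv : ∀ m, v.ord (j m) = 0) {x : M} {a : L} (ha : v.Zer (x - j a)) :
    v.Reg x := by
  have h1 := ha.reg.add (G2_reg_j hv a)
  rwa [sub_add_cancel] at h1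

theorem G2_zer_eval (hv : ∀ m, v.ord (j m) = 0) {x : M} {a : L} (ha : v.Zer (x - j a))
    (G : L[X]) : v.Zer (G.eval₂ (j : L →+* M) x - j (G.eval a)) := by
  obtain ⟨H, hH⟩ : (X - C a : L[X]) ∣ G - C (G.eval a) := X_sub_C_dvd_sub_C_eval
  have h1 : G.eval₂ (j : L →+* M) x - j (G.eval a) = (x - j a) * H.eval₂ (j : L →+* M) x := by
    have h2 := congrArg (Polynomial.eval₂ (j : L →+* M) x) hH
    rw [eval₂_sub, eval₂_mul, eval₂_sub, eval₂_C, eval₂_X, eval₂_C] at h2
    exact h2
  rw [h1]
  exact ha.mul_reg (G2_reg_eval hv (G2_reg_of hv ha) H)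

theorem G2_val (hv : ∀ m, v.ord (j m) = 0) {z : M} {m : L} (hm : m ≠ 0)
    (hz : v.Zer (z - j m)) : z ≠ 0 ∧ v.ord z = 0 := by
  have hjm : j m ≠ 0 := (map_ne_zero j).2 hm
  rcases hz with h | h
  · have h1 : z = j m := sub_eq_zero.1 h
    rw [h1]
    exact ⟨hjm, hv m⟩
  · have hne : z - j m ≠ 0 := by
      intro h0
      rw [h0, v.ord_zero] at h
      exact lt_irrefl _ h
    have h1 := Place.ord_add_of_lt hjm hne (by rw [hv m]; exact h)
    rw [add_sub_cancel] at h1
    exact ⟨h1.1, h1.2.trans (hv m)⟩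

theorem G2_ord_eval (hv : ∀ m, v.ord (j m) = 0) {x : M} (hx : v.ord x < 0) :
    ∀ (n : ℕ) (G : L[X]), G.natDegree = n → G ≠ 0 →
      G.eval₂ (j : L →+* M) x ≠ 0 ∧ v.ord (G.eval₂ (j : L →+* M) x) = n * v.ord x := by
  have hx0 : x ≠ 0 := by
    rintro rfl
    rw [v.ord_zero] at hx
    exact lt_irrefl _ hx
  intro n
  induction n using Nat.strong_induction_on with
  | _ n ih =>
    intro G hn hG
    have hlc : G.leadingCoeff ≠ 0 := leadingCoeff_ne_zero.2 hG
    have hjl : j G.leadingCoeff ≠ 0 := (map_ne_zero j).2 hlc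
    have h1 : G.eval₂ (j : L →+* M) x =
        j G.leadingCoeff * x ^ n + G.eraseLead.eval₂ (j : L →+* M) x := by
      conv_lhs => rw [← eraseLead_add_monomial_natDegree_leadingCoeff G]
      rw [eval₂_add, eval₂_monomial, hn, add_comm]
      rfl
    have h2 : j G.leadingCoeff * x ^ n ≠ 0 := mul_ne_zero hjl (pow_ne_zero _ hx0)
    have h3 : v.ord (j G.leadingCoeff * x ^ n) = n * v.ord x := by
      rw [v.ord_mul _ _ hjl (pow_ne_zero _ hx0), hv, zero_add, v.ord_pow]
    rw [h1]
    rcases eraseLead_natDegree_lt_or_eraseLead_eq_zero G with h4 | h4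
    · by_cases h0 : G.eraseLead = 0
      · rw [h0, eval₂_zero, add_zero]
        exact ⟨h2, h3⟩
      rw [hn] at h4
      obtain ⟨h5, h6⟩ := ih _ h4 G.eraseLead rfl h0
      have h7 : v.ord (j G.leadingCoeff * x ^ n) < v.ord (G.eraseLead.eval₂ (j : L →+* M) x) := by
        rw [h3, h6]
        have : (G.eraseLead.natDegree : ℤ) < n := by exact_mod_cast h4
        nlinarith
      have h8 := Place.ord_add_of_lt h2 h5 h7
      exact ⟨h8.1, h8.2.trans h3⟩
    · rw [h4, eval₂_zero, add_zero]
      exact ⟨h2, h3⟩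

theorem G2_ord_prod (v : Place k M) {ι : Type} (s : Finset ι) (g : ι → M)
    (hg : ∀ i ∈ s, g i ≠ 0) : v.ord (∏ i ∈ s, g i) = ∑ i ∈ s, v.ord (g i) := by
  induction s using Finset.induction_on with
  | empty => rw [Finset.prod_empty, Finset.sum_empty, v.ord_one]
  | insert a s ha ih =>
    have h1 : ∀ i ∈ s, g i ≠ 0 := fun i hi => hg i (Finset.mem_insert_of_mem hi)
    rw [Finset.prod_insert ha, Finset.sum_insert ha,
      v.ord_mul _ _ (hg a (Finset.mem_insert_self _ _)) (Finset.prod_ne_zero_iff.2 h1), ih h1]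

end aux

variable {k : Type} [Field k]
  {D r κ : ℕ} {f : k[X]} {V : Fin D → k[X]} {c : Fin κ → k × k} {L : Type} [Field L]
  [Algebra k L] {xe ye : Fin D → L} {p : Fin (r + 1) → L} {x : Fin (NN r κ) → L}

theorem G2_deg (c : Fin κ → k × k) (p : Fin (r + 1) → L) : (pol c p).natDegree ≤ r + κ := by
  have h0 : (P0 c).natDegree = 0 := by
    unfold P0
    rw [← map_sum]
    exact natDegree_C _
  have h1 : (P1 c).natDegree ≤ κ := by
    unfold P1
    refine (natDegree_prod_le _ _).trans ?_
    simp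
  have h2 : (pq p).natDegree ≤ r := by
    unfold pq
    refine natDegree_sum_le_of_forall_le _ _ fun i _ => ?_
    refine (natDegree_C_mul_X_pow_le _ _).trans ?_
    omega
  unfold pol
  refine (natDegree_add_le _ _).trans (max_le ?_ ?_)
  · rw [natDegree_map, h0]
    exact Nat.zero_le _
  · refine natDegree_mul_le.trans ?_
    rw [natDegree_map]
    omega

theorem G2_key (h : Fam f V c xe ye p x) {M : Type} [Field M] [Algebra k M] (j : L →ₐ[k] M)
    {X Y : M} (hg : Gen1 j f X Y) :
    (Y - (pol c p).eval₂ (j : L →+* M) X) * (Y + (pol c p).eval₂ (j : L →+* M) X) =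
      ∏ i, (X - j (x i)) := by
  have h1 := congrArg (Polynomial.eval₂ (j : L →+* M) X) h.spl
  rw [eval₂_sub, eval₂_map, eval₂_pow, eval₂_finsetProd] at h1
  have h2 : ((j : L →+* M).comp (algebraMap k L)) = algebraMap k M := j.comp_algebraMap
  rw [h2] at h1
  have h3 : f.eval₂ (algebraMap k M) X = Y ^ 2 := hg.eq.symm
  rw [h3] at h1
  have h4 : ∀ i, (Polynomial.X - C (x i) : L[X]).eval₂ (j : L →+* M) X = X - j (x i) := by
    intro i
    rw [eval₂_sub, eval₂_X, eval₂_C]
    rfl
  simp_rw [h4] at h1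
  rw [← h1]
  ring

theorem horiz [CharZero k] [IsAlgClosed k] [Hyp f] (h : Fam f V c xe ye p x) {M : Type} [Field M]
    [Algebra k M] (j : L →ₐ[k] M) {X Y : M} (hg : Gen1 j f X Y) :
    ∃ (w : Fin (NN r κ) → Place k M) (w₀ : Place k M),
      (∀ i, Triv j (w i) ∧ (w i).Zer (X - j (x i)) ∧ (w i).Zer (Y - j (yz c p x i)) ∧
        (w i).ord (phi j c p X Y) = ((Finset.univ.filter fun i' => w i' = w i).card : ℤ)) ∧
      Triv j w₀ ∧ w₀.ord X < 0 ∧ w₀.ord (phi j c p X Y) = -(NN r κ : ℤ) ∧
      ∀ v : Place k M, (∀ m, v.ord (j m) = 0) → v.ord (phi j c p X Y) ≠ 0 →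
        v = w₀ ∨ ∃ i, v = w i := by
  have : CharZero L := charZero_of_injective_algebraMap (algebraMap k L).injective
  set P : M := (pol c p).eval₂ (j : L →+* M) X with hP
  have hphi : phi j c p X Y = Y - P := rfl
  have hkey : (Y - P) * (Y + P) = ∏ i, (X - j (x i)) := G2_key h j hg
  have hXne : ∀ a : L, X - j a ≠ 0 := by
    intro a
    have h1 := hg.tr (Polynomial.X - C a) (X_sub_C_ne_zero a)
    rw [eval₂_sub, eval₂_X, eval₂_C] at h1
    exact h1
  have hprod : ∏ i, (X - j (x i)) ≠ 0 := Finset.prod_ne_zero_iff.2 fun i _ => hXne (x i)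
  have hne1 : Y - P ≠ 0 := by
    intro h0
    rw [h0, zero_mul] at hkey
    exact hprod hkey.symm
  have hne2 : Y + P ≠ 0 := by
    intro h0
    rw [h0, mul_zero] at hkey
    exact hprod hkey.symm
  have hsum : ∀ v : Place k M, v.ord (Y - P) + v.ord (Y + P) = ∑ i, v.ord (X - j (x i)) := by
    intro v
    rw [← v.ord_mul _ _ hne1 hne2, hkey, G2_ord_prod v _ _ fun i _ => hXne (x i)]
  choose w hwT hw1 hw2 hw3 using fun i : Fin (NN r κ) =>
    Pool.Agent.LibHD77.exists_pl_aff f hg (x i) (yz c p x i) (fam_crv h i) (fam_ne h i)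
  obtain ⟨w₀, h0T, h01, h02⟩ := Pool.Agent.LibHD77.exists_pl_inf f hg
  have hwX : ∀ i, (w i).Zer (X - j (x i)) := fun i => Or.inr (by rw [hw1 i]; exact one_pos)
  have hwx : ∀ i i', w i' = w i ↔ x i' = x i := by
    intro i i'
    constructor
    · intro he
      by_contra hne
      have h1 := hwX i'
      rw [he] at h1
      have h2 := (hwX i).sub h1
      have h3 : X - j (x i) - (X - j (x i')) = j (x i' - x i) := by
        rw [map_sub]
        ring
      rw [h3] at h2
      have h4 : j (x i' - x i) ≠ 0 := (map_ne_zero j).2 (sub_ne_zero.2 hne)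
      rcases h2 with h2 | h2
      · exact h4 h2
      · rw [(hwT i).triv] at h2
        exact lt_irrefl _ h2
    · intro he
      have hy : yz c p x i' = yz c p x i := by
        unfold yz
        rw [he]
      refine hw3 i (w i') (hwT i').triv ?_ ?_
      · rw [← he]
        exact hwX i'
      · rw [← hy]
        exact hw2 i'
  have hX0 : X ≠ 0 := by
    intro h0
    rw [h0, w₀.ord_zero] at h01
    norm_num at h01
  have hf0 : f ≠ 0 := (Hyp.monic (f := f)).ne_zero
  refine ⟨w, w₀, fun i => ⟨hwT i, hwX i, hw2 i, ?_⟩, h0T, by rw [h01]; norm_num, ?_, ?_⟩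
  · rw [hphi]
    have h1 : (w i).Zer (Y + P - j (2 * yz c p x i)) := by
      have h2 := (hw2 i).add (G2_zer_eval (hwT i).triv (hwX i) (pol c p))
      have h3 : Y - j (yz c p x i) + ((pol c p).eval₂ (j : L →+* M) X - j ((pol c p).eval (x i))) =
          Y + P - j (2 * yz c p x i) := by
        rw [hP, map_mul, map_ofNat]
        unfold yz
        ring
      rw [h3] at h2
      exact h2
    have h2 := (G2_val (hwT i).triv (mul_ne_zero two_ne_zero (fam_ne h i)) h1).2
    have h3 := hsum (w i)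
    rw [h2, add_zero] at h3
    rw [h3, Finset.card_filter]
    push_cast
    refine Finset.sum_congr rfl fun i' _ => ?_
    by_cases he : x i' = x i
    · rw [if_pos ((hwx i i').2 he), he, hw1 i]
    · rw [if_neg (fun h5 => he ((hwx i i').1 h5))]
      refine (G2_val (hwT i).triv (m := x i - x i') (sub_ne_zero.2 fun h5 => he h5.symm) ?_).2
      have h5 : X - j (x i') - j (x i - x i') = X - j (x i) := by
        rw [map_sub]
        ring
      rw [h5]
      exact hwX i
  · rw [hphi]
    have hX : w₀.ord X < 0 := by rw [h01]; norm_num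
    have hY2 : Y ^ 2 = (f.map (algebraMap k L)).eval₂ (j : L →+* M) X := by
      rw [eval₂_map, j.comp_algebraMap]
      exact hg.eq
    have h1 := G2_ord_eval h0T.triv hX _ (f.map (algebraMap k L)) rfl
      ((Polynomial.map_ne_zero_iff (algebraMap k L).injective).2 hf0)
    rw [← hY2, natDegree_map, h.deg, h01, w₀.ord_pow] at h1
    have hY0 : Y ≠ 0 := by
      intro h0
      rw [h0] at h1
      exact h1.1 (by norm_num)
    have hYo : w₀.ord Y = -(NN r κ : ℤ) := by
      have h2 := h1.2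
      push_cast at h2 ⊢
      linarith
    by_cases hp0 : P = 0
    · rw [hp0, sub_zero]
      exact hYo
    have hpol : pol c p ≠ 0 := by
      intro h0
      apply hp0
      rw [hP, h0, eval₂_zero]
    have h2 := (G2_ord_eval h0T.triv hX _ (pol c p) rfl hpol).2
    have h3 := G2_deg c p
    rw [sub_eq_add_neg, (Place.ord_add_of_lt hY0 (neg_ne_zero.2 hp0) ?_).2, hYo]
    rw [w₀.ord_neg, hYo, hP, h2, h01]
    push_cast
    have h4 : ((pol c p).natDegree : ℤ) ≤ r + κ := by exact_mod_cast h3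
    linarith
  · intro v hv hvo
    rw [hphi] at hvo
    by_cases hX : v.ord X < 0
    · exact Or.inl (h02 v hv hX)
    right
    have hXr : v.Reg X := Or.inr (not_lt.1 hX)
    have hPr : v.Reg P := G2_reg_eval hv hXr _
    have hYr : v.Reg Y := by
      have h1 : v.Reg (Y ^ 2) := by
        have h2 : Y ^ 2 = (f.map (algebraMap k L)).eval₂ (j : L →+* M) X := by
          rw [eval₂_map, j.comp_algebraMap]
          exact hg.eq
        rw [h2]
        exact G2_reg_eval hv hXr _
      by_cases hY0 : Y = 0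
      · exact Or.inl hY0
      have h2 := h1.resolve_left (pow_ne_zero _ hY0)
      rw [v.ord_pow] at h2
      refine Or.inr ?_
      push_cast at h2
      linarith
    have h1 : 0 < v.ord (Y - P) := by
      have h2 := (hYr.sub hPr).resolve_left hne1
      omega
    have h2 : 0 ≤ v.ord (Y + P) := (hYr.add hPr).resolve_left hne2
    have h3 := hsum v
    obtain ⟨i, -, hi⟩ : ∃ i ∈ (Finset.univ : Finset (Fin (NN r κ))), 0 < v.ord (X - j (x i)) := by
      by_contra hcon
      push Not at hcon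
      have h4 := Finset.sum_nonpos hcon
      omega
    refine ⟨i, hw3 i v hv (Or.inr hi) ?_⟩
    have h1' : v.Zer (Y - P) := Or.inr h1
    have h4 := h1'.add (G2_zer_eval hv (Or.inr hi) (pol c p))
    have h5 : Y - P + ((pol c p).eval₂ (j : L →+* M) X - j ((pol c p).eval (x i))) =
        Y - j (yz c p x i) := by
      rw [hP]
      unfold yz
      ring
    rwa [h5] at h4

end Pool.Agent.LibHE77
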