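import Pool.Agent.LibHE77.A0
import Pool.Agent.LibHD77.R1

/-!
The relations between the classes with coordinates among the zeros of `y - p(x)`, seen as combinatorial data:
definitions (pure combinatorics, no geometry).

`D` letters `e` (with labels `V`), `NN r κ = 2 (r + κ) + 1` zeros (all with the label `lam`), and the letters
`Lt r κ`: `none` (infinity), `(j, ±)` (the free points `± S_j`), `(c, ±)` (the fixed points `± s_c`).
-/

open scoped Classical

namespace Pool.Agent.LibHE77

open Pool.Agent.LibHD77.Comb (Pat sub Cmp Sys Gt Dj pts pat cf vec ind enm)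

variable {n : ℕ} {A : Fin n → Type} {L G : Type} [AddCommGroup G]

/-- the free points have the labels `W` -/
def Lab {B : Type} (l : Fin n → L) (δ : Pat A B) (W : B → L) : Prop :=
  ∀ a b ε, δ a = .inr (b, ε) → W b = l a

/-- the substitution of the point `none` by `z` (`none`: by infinity) -/
def tgo {B : Type} (z : Option B) : Option B → Option (B × ℤˣ)
  | none => z.map fun b => (b, 1)
  | some b => some (b, 1)

/-- the labels of the additional point, of the `D` free points and of the zeros -/
def wl {D N : ℕ} (V : Fin D → L) (lam : L) : Option (Fin D ⊕ Fin N) → L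
  | none => lam
  | some (.inl e) => V e
  | some (.inr _) => lam

/-- the letters: infinity, `± S_j`, `± s_c` -/
abbrev Lt (r κ : ℕ) : Type := Option ((Fin r ⊕ Fin κ) × ℤˣ)

/-- the number of zeros -/
abbrev NN (r κ : ℕ) : ℕ := 2 * (r + κ) + 1

/-- `ε` times the letter `z` at the coordinate `a` -/
def lt {r κ : ℕ} (D : ℕ) (o : ∀ a, A a) (cs : Fin κ → ℤˣ → ∀ a, A a) (a : Fin n) (ε : ℤˣ) :
    Lt r κ → A a ⊕ (Fin (D + (r + 1)) × ℤˣ)
  | none => .inl (o a)
  | some (.inl j, η) => .inr (Fin.natAdd D j.castSucc, η * ε)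
  | some (.inr c, η) => .inl (cs c (η * ε) a)

/-- the pattern `δ` with the letter `ℓ i` for the zero `i` and the last free point for `none` -/
def lsub {D r κ : ℕ} (o : ∀ a, A a) (cs : Fin κ → ℤˣ → ∀ a, A a) (ℓ : Fin (NN r κ) → Lt r κ)
    (δ : Pat A (Option (Fin D ⊕ Fin (NN r κ)))) : Pat A (Fin (D + (r + 1))) := fun a =>
  match δ a with
  | .inl s => .inl s
  | .inr (none, ε) => .inr (Fin.natAdd D (Fin.last r), ε)
  | .inr (some (.inl e), ε) => .inr (Fin.castAdd (r + 1) e, ε)
  | .inr (some (.inr i), ε) => lt D o cs a ε (ℓ i)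

/-- The relations: `Ψ` is the class of a pattern with coordinates among the zeros, `Φ` the class of a diagonal.
The sum over the zeros minus `NN r κ` times infinity is a positive combination of classes in which the zeros
are replaced by the letters (`w v`: multiplicities, `ℓ v`: the letters at the place `v`). -/
structure RSys {J : Fin n → Type} [∀ a, AddCommGroup (J a)] {D r κ : ℕ} (l : Fin n → L)
    (o : ∀ a, A a) (j : ∀ a, A a → J a) (S : ∀ a, Set (A a)) (V : Fin D → L) (lam : L)
    (cs : Fin κ → ℤˣ → ∀ a, A a) (Φ : Pat A (Fin (D + (r + 1))) → G)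
    (Ψ : Pat A (Fin D ⊕ Fin (NN r κ)) → G) : Prop where
  cS : ∀ c η a, l a = lam → cs c η a ∈ S a
  cj : ∀ c η a, l a = lam → j a (cs c (-η) a) = - j a (cs c η a)
  zero : ∀ δ W, Lab l δ W → (∃ b, ∀ a ε, δ a ≠ .inr (b, ε)) → Φ δ = 0
  rel : ∃ (U : Type) (_ : Fintype U) (_ : Nonempty U) (w : U → ℤ)
    (ℓ : U → Fin (NN r κ) ≃ Lt r κ), (∀ v, 0 < w v) ∧
    ∀ δ : Pat A (Option (Fin D ⊕ Fin (NN r κ))), Lab l δ (wl V lam) →
      ∑ i, Ψ (sub o (tgo (some (.inr i))) δ) - NN r κ • Ψ (sub o (tgo none) δ) =
        ∑ v, w v • Φ (lsub o cs (ℓ v) δ)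
  last : ∀ (δ : Pat A (Fin D ⊕ Fin (NN r κ))) (a : Fin n) (c : Fin κ) (ε : ℤˣ), l a = lam →
    δ a = .inr (.inr (Fin.last _), ε) → Ψ δ = Ψ (Function.update δ a (.inl (cs c ε a)))
  orth : ∀ (δ : Pat A (Fin D ⊕ Fin (NN r κ))) (a b : Fin n) (c : Fin κ), a ≠ b → l a = lam →
    l b = lam →
    Ψ (Function.update (Function.update δ a (.inl (cs c 1 a))) b (.inl (cs c 1 b))) -
    Ψ (Function.update (Function.update δ a (.inl (cs c 1 a))) b (.inl (o b))) -
    Ψ (Function.update (Function.update δ a (.inl (o a))) b (.inl (cs c 1 b))) +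
    Ψ (Function.update (Function.update δ a (.inl (o a))) b (.inl (o b))) = 0

/-- the alternating sum over the subsets `T` of `H` of the classes of `δ` with the coordinates in `T` replaced
by `o` -/
noncomputable def Ea {B : Type} (o : ∀ a, A a) (X : Pat A B → G) (H : Finset (Fin n))
    (δ : Pat A B) : G :=
  ∑ T ∈ H.powerset, ((-1 : ℤ) ^ T.card) • X fun a => if a ∈ T then .inl (o a) else δ a

/-- the zero `u a` at the coordinates `a ∈ H`, and `δ` elsewhere -/
noncomputable def pu {D N : ℕ} (H : Finset (Fin n)) (δ : Pat A (Fin D)) (u : H → Fin N) :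
    Pat A (Fin D ⊕ Fin N) := fun a =>
  if h : a ∈ H then .inr (.inr (u ⟨a, h⟩), 1) else
    match δ a with
    | .inl s => .inl s
    | .inr q => .inr (.inl q.1, q.2)

/-- the letter `ω a` at the coordinates `a ∈ H` (`none`: the last free point), and `δ` elsewhere -/
noncomputable def pw {D r κ : ℕ} (o : ∀ a, A a) (cs : Fin κ → ℤˣ → ∀ a, A a) (H : Finset (Fin n))
    (δ : Pat A (Fin D)) (ω : H → Option (Lt r κ)) : Pat A (Fin (D + (r + 1))) := fun a =>
  if h : a ∈ H then
    match ω ⟨a, h⟩ with
    | none => .inr (Fin.natAdd D (Fin.last r), 1)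
    | some z => lt D o cs a 1 z
  else
    match δ a with
    | .inl s => .inl s
    | .inr q => .inr (Fin.castAdd (r + 1) q.1, q.2)

/-- the `i`-th additional free point at the coordinates in `τ i` (if they are in `H`), and `δ` outside `H` -/
noncomputable def pm {D m : ℕ} (o : ∀ a, A a) (H : Finset (Fin n)) (δ : Pat A (Fin D))
    (τ : Fin m → Finset (Fin n)) : Pat A (Fin (D + m)) := fun a =>
  if a ∈ H then (if h : ∃ i, a ∈ τ i then .inr (Fin.natAdd D h.choose, 1) else .inl (o a))
  else
    match δ a with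
    | .inl s => .inl s
    | .inr q => .inr (Fin.castAdd m q.1, q.2)

/-- the assignments of letters to the coordinates in `H` which are invariant under `σ` and which are the last
free point exactly on the cycle of `a₁` -/
noncomputable def Om {r κ : ℕ} {H : Finset (Fin n)} (σ : Equiv.Perm H) (a₁ : H) :
    Finset (H → Option (Lt r κ)) :=
  Finset.univ.filter fun ω => (fun a => ω (σ a)) = ω ∧ ∀ a, ω a = none ↔ σ.SameCycle a₁ a

/-- the pairs `{a, σ a}` -/
noncomputable def prs {H : Finset (Fin n)} (σ : Equiv.Perm H) : Finset (Finset (Fin n)) :=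
  Finset.univ.image fun a : H => ({(a : Fin n), (σ a : Fin n)} : Finset (Fin n))

end Pool.Agent.LibHE77
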