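import Mathlib

/-!
[HE77 K1] sums over invariant maps with signs (PURE COMBINATORICS). Proof of `antisym`: exchange the sums; the coefficient of `E u` is `∑_(σ, u ∘ σ = u) sign σ`. If `u` is injective only `σ = 1`. If
`u a = u b`, `a ≠ b`: `σ ↦ swap a b * σ` (or `σ * swap a b`) is a fixed point free involution of the set of these `σ` which changes the sign.
-/

open scoped Classical

namespace Pool.Agent.LibHE77

private theorem K1_coef {α β : Type} [Fintype α] [DecidableEq α] (u : α → β) :
    ∑ σ ∈ Finset.univ.filter (fun σ : Equiv.Perm α => (fun a => u (σ a)) = u),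
      ((Equiv.Perm.sign σ : ℤˣ) : ℤ) = if Function.Injective u then 1 else 0 := by
  by_cases hu : Function.Injective u
  · rw [if_pos hu]
    have h1 : Finset.univ.filter (fun σ : Equiv.Perm α => (fun a => u (σ a)) = u) = {1} := by
      ext σ
      simp only [Finset.mem_filter, Finset.mem_univ, true_and, Finset.mem_singleton]
      constructor
      · intro h
        ext a
        exact hu (congrFun h a)
      · rintro rfl
        rfl
    rw [h1, Finset.sum_singleton]
    simp
  · rw [if_neg hu]
    obtain ⟨a, b, hab, hne⟩ : ∃ a b, u a = u b ∧ a ≠ b := by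
      rw [Function.Injective] at hu
      push Not at hu
      exact hu
    have hsw : ∀ y, u (Equiv.swap a b y) = u y := by
      intro y
      rcases eq_or_ne y a with rfl | h1
      · rw [Equiv.swap_apply_left, hab]
      · rcases eq_or_ne y b with rfl | h2
        · rw [Equiv.swap_apply_right, hab]
        · rw [Equiv.swap_apply_of_ne_of_ne h1 h2]
    refine Finset.sum_involution (fun σ _ => Equiv.swap a b * σ) ?_ ?_ ?_ ?_
    · intro σ _
      rw [Equiv.Perm.sign_mul, Equiv.Perm.sign_swap hne]
      push_cast
      ring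
    · intro σ _ _ h
      have h2 : Equiv.swap a b * σ = 1 * σ := by rw [h, one_mul]
      have h3 : Equiv.swap a b = 1 := mul_right_cancel h2
      have h4 : Equiv.swap a b a = a := by rw [h3]; rfl
      rw [Equiv.swap_apply_left] at h4
      exact hne h4.symm
    · intro σ hσ
      rw [Finset.mem_filter] at hσ ⊢
      refine ⟨Finset.mem_univ _, ?_⟩
      funext x
      rw [Equiv.Perm.mul_apply, hsw]
      exact congrFun hσ.2 x
    · intro σ _
      rw [← mul_assoc, Equiv.swap_mul_self, one_mul]

theorem antisym {α β W : Type} [Fintype α] [DecidableEq α] [Fintype β] [AddCommGroup W]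
    (E : (α → β) → W) :
    ∑ σ : Equiv.Perm α, ((Equiv.Perm.sign σ : ℤˣ) : ℤ) •
      ∑ u ∈ Finset.univ.filter (fun u : α → β => (fun a => u (σ a)) = u), E u =
    ∑ u ∈ Finset.univ.filter (fun u : α → β => Function.Injective u), E u := by
  have h1 : ∀ σ : Equiv.Perm α, ((Equiv.Perm.sign σ : ℤˣ) : ℤ) •
      ∑ u ∈ Finset.univ.filter (fun u : α → β => (fun a => u (σ a)) = u), E u =
      ∑ u : α → β, if (fun a => u (σ a)) = u then ((Equiv.Perm.sign σ : ℤˣ) : ℤ) • E u else 0 := by
    intro σ
    rw [Finset.smul_sum, Finset.sum_filter]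
  rw [Finset.sum_congr rfl fun σ _ => h1 σ, Finset.sum_comm, Finset.sum_filter]
  refine Finset.sum_congr rfl fun u _ => ?_
  rw [← Finset.sum_filter, ← Finset.sum_smul, K1_coef u]
  by_cases hu : Function.Injective u
  · rw [if_pos hu, if_pos hu, one_smul]
  · rw [if_neg hu, if_neg hu, zero_smul]

end Pool.Agent.LibHE77
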