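import Pool.Agent.LibHE77.K9

/-!
[HE77 K10] the relation with a fixed point (assembly). `κ = 1`, `c = (0 : Fin 1)`, `N = NN r 1 = 2 r + 3`, last zero `= Fin.last _`. Write `δ[a := s] = Function.update δ a (.inl (cs 0 1 a))`, `δ[a := o] = Function.update δ a (.inl (o a))`. Proof of `star_E`. By `inj_zero` (K9; `H.card = 2 r + 3`) the sum over the injective
(hence bijective) `u : H → Fin N` of `Ea o Ψ H (pu H δ u)` is zero. Every such `u` has exactly one `a` with `u a = Fin.last _`; by the field `last` (for each of the terms) and `Ea_insert` (K3)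
`Ea o Ψ H (pu H δ u) = B a u'` with `B a u' = Ea o Ψ (H.erase a) (pu (H.erase a) (δ[a := s]) u') - Ea o Ψ (H.erase a) (pu (H.erase a) (δ[a := o]) u')`, `u'` the restriction of `u` to `H.erase a`, which is injective and avoids the last zero. Conversely every injective `u'` which avoids the last zero arises from one `u`.
If `u' : H.erase a → Fin N` is injective and `u' b = Fin.last _` then `B a u' = 0`: `Ea_insert` for `b` and the fields `last`, `orth` (coordinates `a`, `b`) for each of the terms. So `∑_(a ∈ H) ∑_(u' injective) B a u' = 0`, and `inj_sum` (K9) for `H.erase a`, `δ[a := s]` and `δ[a := o]` (the same constant `C ≠ 0`), `tf`.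
`star_s`: `star_E` for `δ = pat o τ₀ ρ o` and `Gt_pm` (K8) for `H.erase a`, `τ₁ = enm (r + 1) M`: for `a ∈ H` (so `a` is in no `τ₀ e`) `pat o τ₀ ρ (Function.update o a (cs 0 1 a)) = (pat o τ₀ ρ o)[a := s]` and `pat o τ₀ ρ o = (pat o τ₀ ρ o)[a := o]`.
-/

open scoped Classical

namespace Pool.Agent.LibHE77

open Pool.Agent.LibHD77.Comb (Pat sub Cmp Sys Gt Dj pts pat cf vec ind enm)

variable {n : ℕ} {A : Fin n → Type} {L G : Type} [AddCommGroup G] {J : Fin n → Type}
  [∀ a, AddCommGroup (J a)]
  {D r : ℕ} {l : Fin n → L} {o : ∀ a, A a} {j : ∀ a, A a → J a} {S : ∀ a, Set (A a)}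
  {V : Fin D → L} {lam : L} {cs : Fin 1 → ℤˣ → ∀ a, A a} {Φ : Pat A (Fin (D + (r + 1))) → G}
  {Ψ : Pat A (Fin D ⊕ Fin (NN r 1)) → G}

private theorem K10_upd {B : Type} (T : Finset (Fin n)) (a : Fin n) (ha : a ∉ T) (X : Pat A B)
    (v : A a ⊕ (B × ℤˣ)) : (fun b => if b ∈ T then .inl (o b) else (Function.update X a v) b) =
      Function.update (fun b => if b ∈ T then .inl (o b) else X b) a v := by
  funext b
  by_cases hb : b = a
  · subst hb
    rw [if_neg ha, Function.update_self, Function.update_self]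
  · rw [Function.update_of_ne hb, Function.update_of_ne hb]

private theorem K10_last (hr : RSys l o j S V lam cs Φ Ψ) (H : Finset (Fin n)) (a : Fin n)
    (ha : a ∉ H) (hl : l a = lam) (X : Pat A (Fin D ⊕ Fin (NN r 1)))
    (hX : X a = .inr (.inr (Fin.last _), 1)) :
    Ea o Ψ H X = Ea o Ψ H (Function.update X a (.inl (cs 0 1 a))) := by
  unfold Ea
  refine Finset.sum_congr rfl fun T hT => ?_
  have haT : a ∉ T := fun h => ha (Finset.mem_powerset.1 hT h)
  have h1 := hr.last (fun b => if b ∈ T then .inl (o b) else X b) a 0 1 hl (by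
    show (if a ∈ T then _ else X a) = _
    rw [if_neg haT]
    exact hX)
  rw [h1, K10_upd T a haT X]

private theorem K10_orth (hr : RSys l o j S V lam cs Φ Ψ) (H : Finset (Fin n)) (a b : Fin n)
    (hab : a ≠ b) (ha : a ∉ H) (hb : b ∉ H) (hla : l a = lam) (hlb : l b = lam)
    (X : Pat A (Fin D ⊕ Fin (NN r 1))) :
    Ea o Ψ H (Function.update (Function.update X a (.inl (cs 0 1 a))) b (.inl (cs 0 1 b))) -
    Ea o Ψ H (Function.update (Function.update X a (.inl (cs 0 1 a))) b (.inl (o b))) -
    Ea o Ψ H (Function.update (Function.update X a (.inl (o a))) b (.inl (cs 0 1 b))) +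
    Ea o Ψ H (Function.update (Function.update X a (.inl (o a))) b (.inl (o b))) = 0 := by
  unfold Ea
  rw [← Finset.sum_sub_distrib, ← Finset.sum_sub_distrib, ← Finset.sum_add_distrib]
  refine Finset.sum_eq_zero fun T hT => ?_
  have haT : a ∉ T := fun h => ha (Finset.mem_powerset.1 hT h)
  have hbT : b ∉ T := fun h => hb (Finset.mem_powerset.1 hT h)
  rw [← smul_sub, ← smul_sub, ← smul_add]
  rw [K10_upd T b hbT, K10_upd T b hbT, K10_upd T b hbT, K10_upd T b hbT, K10_upd T a haT,
    K10_upd T a haT, hr.orth _ a b 0 hab hla hlb, smul_zero]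

private theorem K10_pu_in {N : ℕ} (H : Finset (Fin n)) (a : Fin n) (δ : Pat A (Fin D))
    (u : H → Fin N) (v : A a) : Function.update (pu H δ u) a (.inl v) =
      pu (H.erase a) (Function.update δ a (.inl v))
        (fun b => u ⟨b, Finset.mem_of_mem_erase b.2⟩) := by
  funext b
  unfold pu
  by_cases hb : b = a
  · subst hb
    rw [Function.update_self, dif_neg (Finset.notMem_erase b H), Function.update_self]
  · rw [Function.update_of_ne hb]
    by_cases hbH : b ∈ H
    · rw [dif_pos hbH, dif_pos (Finset.mem_erase.2 ⟨hb, hbH⟩)]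
    · rw [dif_neg hbH, dif_neg (fun h => hbH (Finset.mem_of_mem_erase h)),
        Function.update_of_ne hb]

private theorem K10_pu_out {N : ℕ} (H : Finset (Fin n)) (a : Fin n) (ha : a ∉ H)
    (δ : Pat A (Fin D)) (u : H → Fin N) (v : A a) :
    pu H (Function.update δ a (.inl v)) u = Function.update (pu H δ u) a (.inl v) := by
  funext b
  unfold pu
  by_cases hb : b = a
  · subst hb
    rw [Function.update_self, dif_neg ha, Function.update_self]
  · rw [Function.update_of_ne hb, Function.update_of_ne hb]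

/-- the term of a map `u` with the last zero at `a` -/
private theorem K10_split (hr : RSys l o j S V lam cs Φ Ψ) (H : Finset (Fin n))
    (δ : Pat A (Fin D)) (a : Fin n) (ha : a ∈ H) (hl : l a = lam) (u : H → Fin (NN r 1))
    (hu : u ⟨a, ha⟩ = Fin.last _) :
    Ea o Ψ H (pu H δ u) =
      Ea o Ψ (H.erase a) (pu (H.erase a) (Function.update δ a (.inl (cs 0 1 a)))
        (fun b => u ⟨b, Finset.mem_of_mem_erase b.2⟩)) -
      Ea o Ψ (H.erase a) (pu (H.erase a) (Function.update δ a (.inl (o a)))
        (fun b => u ⟨b, Finset.mem_of_mem_erase b.2⟩)) := by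
  have h1 := Ea_insert (o := o) Ψ (H.erase a) a (Finset.notMem_erase a H) (pu H δ u)
  rw [Finset.insert_erase ha] at h1
  rw [h1, K10_last hr (H.erase a) a (Finset.notMem_erase a H) hl (pu H δ u) (by
    unfold pu
    rw [dif_pos ha, hu]), K10_pu_in, K10_pu_in]

/-- the term of a map on `H.erase a` with the last zero at `b` vanishes -/
private theorem K10_van (hr : RSys l o j S V lam cs Φ Ψ) (H : Finset (Fin n))
    (δ : Pat A (Fin D)) (a : Fin n) (ha : a ∉ H) (hl : l a = lam) (hH : ∀ b ∈ H, l b = lam)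
    (u : H → Fin (NN r 1)) (b : Fin n) (hb : b ∈ H) (hu : u ⟨b, hb⟩ = Fin.last _) :
    Ea o Ψ H (pu H (Function.update δ a (.inl (cs 0 1 a))) u) -
      Ea o Ψ H (pu H (Function.update δ a (.inl (o a))) u) = 0 := by
  have hab : a ≠ b := fun h => ha (h ▸ hb)
  have key : ∀ p : A a, Ea o Ψ H (pu H (Function.update δ a (.inl p)) u) =
      Ea o Ψ (H.erase b) (Function.update (Function.update (pu H δ u) a (.inl p)) b
        (.inl (cs 0 1 b))) -
      Ea o Ψ (H.erase b) (Function.update (Function.update (pu H δ u) a (.inl p)) b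
        (.inl (o b))) := by
    intro p
    have h1 := Ea_insert (o := o) Ψ (H.erase b) b (Finset.notMem_erase b H)
      (pu H (Function.update δ a (.inl p)) u)
    rw [Finset.insert_erase hb] at h1
    rw [h1, K10_last hr (H.erase b) b (Finset.notMem_erase b H) (hH b hb) _ (by
      unfold pu
      rw [dif_pos hb, hu]), K10_pu_out H a ha]
  have h2 := K10_orth hr (H.erase b) a b hab (fun h => ha (Finset.mem_of_mem_erase h))
    (Finset.notMem_erase b H) hl (hH b hb) (pu H δ u)
  rw [key, key, ← h2]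
  abel

/-- the maps with the last zero at `a`, and the maps on `H.erase a` which avoid the last zero -/
private theorem K10_bij {N : ℕ} (H : Finset (Fin n)) (a : Fin n) (ha : a ∈ H)
    (W : (↥(H.erase a) → Fin (N + 1)) → G) :
    ∑ u ∈ (Finset.univ.filter (fun u : H → Fin (N + 1) => Function.Injective u)).filter
        (fun u => u ⟨a, ha⟩ = Fin.last N), W (fun b => u ⟨b, Finset.mem_of_mem_erase b.2⟩) =
      ∑ u' ∈ (Finset.univ.filter (fun u' : ↥(H.erase a) → Fin (N + 1) =>
        Function.Injective u')).filter (fun u' => ∀ b, u' b ≠ Fin.last N), W u' := by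
  refine Finset.sum_bij (fun u _ => fun b => u ⟨b, Finset.mem_of_mem_erase b.2⟩) ?_ ?_ ?_ ?_
  · intro u hu
    rw [Finset.mem_filter, Finset.mem_filter] at hu ⊢
    obtain ⟨⟨-, h1⟩, h2⟩ := hu
    refine ⟨⟨Finset.mem_univ _, fun b b' hbb => ?_⟩, fun b hb => ?_⟩
    · have h3 := h1 hbb
      exact Subtype.ext (congrArg (fun x : H => (x : Fin n)) h3)
    · have h3 : u ⟨b, Finset.mem_of_mem_erase b.2⟩ = u ⟨a, ha⟩ := by rw [h2]; exact hb
      have h4 := congrArg (fun x : H => (x : Fin n)) (h1 h3)
      exact (Finset.mem_erase.1 b.2).1 h4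
  · intro u hu u' hu' h
    rw [Finset.mem_filter] at hu hu'
    funext b
    by_cases hb : (b : Fin n) = a
    · have e : b = ⟨a, ha⟩ := Subtype.ext hb
      rw [e, hu.2, hu'.2]
    · exact congrFun h ⟨b, Finset.mem_erase.2 ⟨hb, b.2⟩⟩
  · intro u' hu'
    rw [Finset.mem_filter, Finset.mem_filter] at hu'
    obtain ⟨⟨-, h1⟩, h2⟩ := hu'
    refine ⟨fun b => if hb : (b : Fin n) = a then Fin.last N else
      u' ⟨b, Finset.mem_erase.2 ⟨hb, b.2⟩⟩, ?_, ?_⟩
    · rw [Finset.mem_filter, Finset.mem_filter]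
      refine ⟨⟨Finset.mem_univ _, fun b b' hbb => ?_⟩, ?_⟩
      · by_cases hb : (b : Fin n) = a
        · by_cases hb' : (b' : Fin n) = a
          · exact Subtype.ext (hb.trans hb'.symm)
          · exfalso
            simp only [dif_pos hb, dif_neg hb'] at hbb
            exact h2 _ hbb.symm
        · by_cases hb' : (b' : Fin n) = a
          · exfalso
            simp only [dif_neg hb, dif_pos hb'] at hbb
            exact h2 _ hbb
          · simp only [dif_neg hb, dif_neg hb'] at hbb
            have h3 := congrArg (fun x : ↥(H.erase a) => (x : Fin n)) (h1 hbb)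
            exact Subtype.ext h3
      · exact dif_pos rfl
    · funext b
      exact dif_neg (Finset.mem_erase.1 b.2).1
  · intro u hu
    rfl

theorem star_E (h : Sys l o j S Φ) (hr : RSys l o j S V lam cs Φ Ψ) (H : Finset (Fin n))
    (δ : Pat A (Fin D)) (hH : ∀ a ∈ H, l a = lam)
    (hδ : ∀ a e ε, a ∉ H → δ a = .inr (e, ε) → V e = l a) (hc : H.card = 2 * (r + 1) + 1) :
    ∑ a ∈ H, ∑ M ∈ PM (H.erase a),
      (Ea o Φ (H.erase a) (pm o (H.erase a) (Function.update δ a (.inl (cs 0 1 a)))
        (enm (r + 1) M)) -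
      Ea o Φ (H.erase a) (pm o (H.erase a) (Function.update δ a (.inl (o a)))
        (enm (r + 1) M))) = 0 := by
  -- all maps
  have h0 := inj_zero h hr H δ hH hδ (by omega)
  have hN : NN r 1 = 2 * (r + 1) + 1 := rfl
  -- the position of the last zero
  have h1 : ∑ u ∈ Finset.univ.filter (fun u : H → Fin (NN r 1) => Function.Injective u),
      Ea o Ψ H (pu H δ u) = ∑ a : H, ∑ u ∈ (Finset.univ.filter
        (fun u : H → Fin (NN r 1) => Function.Injective u)).filter
          (fun u => u a = Fin.last _), Ea o Ψ H (pu H δ u) := by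
    have e1 : ∀ u ∈ Finset.univ.filter (fun u : H → Fin (NN r 1) => Function.Injective u),
        Ea o Ψ H (pu H δ u) = ∑ a : H, if u a = Fin.last _ then Ea o Ψ H (pu H δ u) else 0 := by
      intro u hu
      have hi : Function.Injective u := (Finset.mem_filter.1 hu).2
      have hs : Function.Surjective u := by
        refine ((Fintype.bijective_iff_injective_and_card u).2 ⟨hi, ?_⟩).2
        rw [Fintype.card_coe, hc, Fintype.card_fin]
      obtain ⟨a0, ha0⟩ := hs (Fin.last _)
      rw [Finset.sum_eq_single a0]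
      · rw [if_pos ha0]
      · intro b _ hb
        rw [if_neg]
        intro h2
        exact hb (hi (h2.trans ha0.symm))
      · intro h2
        exact absurd (Finset.mem_univ _) h2
    rw [Finset.sum_congr rfl e1, Finset.sum_comm]
    refine Finset.sum_congr rfl fun a _ => ?_
    exact (Finset.sum_filter _ _).symm
  -- one position
  have h2 : ∀ a : H, ∑ u ∈ (Finset.univ.filter
        (fun u : H → Fin (NN r 1) => Function.Injective u)).filter
          (fun u => u a = Fin.last _), Ea o Ψ H (pu H δ u) =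
      ∑ u' ∈ Finset.univ.filter
        (fun u' : ↥(H.erase (a : Fin n)) → Fin (NN r 1) => Function.Injective u'),
        (Ea o Ψ (H.erase a) (pu (H.erase a) (Function.update δ a (.inl (cs 0 1 a))) u') -
         Ea o Ψ (H.erase a) (pu (H.erase a) (Function.update δ a (.inl (o a))) u')) := by
    rintro ⟨a, ha⟩
    have hl := hH a ha
    rw [Finset.sum_congr rfl fun u hu =>
      K10_split hr H δ a ha hl u (Finset.mem_filter.1 hu).2]
    have e2 := K10_bij (N := 2 * (r + 1)) H a ha (fun u' =>
      Ea o Ψ (H.erase a) (pu (H.erase a) (Function.update δ a (.inl (cs 0 1 a))) u') -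
         Ea o Ψ (H.erase a) (pu (H.erase a) (Function.update δ a (.inl (o a))) u'))
    refine e2.trans ?_
    rw [Finset.sum_filter]
    refine Finset.sum_congr rfl fun u' _ => ?_
    split_ifs with h3
    · rfl
    · rw [not_forall] at h3
      obtain ⟨b, hb⟩ := h3
      rw [not_not] at hb
      exact (K10_van hr (H.erase a) δ a (Finset.notMem_erase a H) hl
        (fun b hb => hH b (Finset.mem_of_mem_erase hb)) u' b b.2 hb).symm
  obtain ⟨C, hC, hCs⟩ := inj_sum h hr
  -- the same constant
  have h3 : ∀ a : H, ∑ u' ∈ Finset.univ.filter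
        (fun u' : ↥(H.erase (a : Fin n)) → Fin (NN r 1) => Function.Injective u'),
        (Ea o Ψ (H.erase a) (pu (H.erase a) (Function.update δ a (.inl (cs 0 1 a))) u') -
         Ea o Ψ (H.erase a) (pu (H.erase a) (Function.update δ a (.inl (o a))) u')) =
      C • ∑ M ∈ PM (H.erase (a : Fin n)),
        (Ea o Φ (H.erase a) (pm o (H.erase a) (Function.update δ a (.inl (cs 0 1 a)))
          (enm (r + 1) M)) -
        Ea o Φ (H.erase a) (pm o (H.erase a) (Function.update δ a (.inl (o a)))
          (enm (r + 1) M))) := by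
    rintro ⟨a, ha⟩
    have hl : ∀ b ∈ H.erase a, l b = lam := fun b hb => hH b (Finset.mem_of_mem_erase hb)
    have hd : ∀ p : A a, ∀ b e ε, b ∉ H.erase a →
        (Function.update δ a (.inl p) : Pat A (Fin D)) b = .inr (e, ε) → V e = l b := by
      intro p b e ε hb hbe
      by_cases hba : b = a
      · subst hba
        rw [Function.update_self] at hbe
        exact absurd hbe (by simp)
      · rw [Function.update_of_ne hba] at hbe
        exact hδ b e ε (fun h4 => hb (Finset.mem_erase.2 ⟨hba, h4⟩)) hbe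
    have hce : (H.erase a).card = 2 * (r + 1) := by
      rw [Finset.card_erase_of_mem ha, hc]
      omega
    rw [Finset.sum_sub_distrib, Finset.sum_sub_distrib, smul_sub]
    rw [hCs (H.erase a) _ hl (hd _) hce, hCs (H.erase a) _ hl (hd _) hce]
  rw [h1, Finset.sum_congr rfl fun a _ => (h2 a).trans (h3 a), ← Finset.smul_sum] at h0
  have h4 : ∑ a : H, ∑ M ∈ PM (H.erase (a : Fin n)),
        (Ea o Φ (H.erase a) (pm o (H.erase a) (Function.update δ a (.inl (cs 0 1 a)))
          (enm (r + 1) M)) -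
        Ea o Φ (H.erase a) (pm o (H.erase a) (Function.update δ a (.inl (o a)))
          (enm (r + 1) M))) = 0 := by
    refine h.tf C.natAbs _ (by omega) ?_
    rcases Int.natAbs_eq C with h5 | h5
    · rw [h5, natCast_zsmul] at h0
      exact h0
    · rw [h5, neg_smul, natCast_zsmul, neg_eq_zero] at h0
      exact h0
  rw [← h4]
  exact (Finset.sum_coe_sort H fun a => ∑ M ∈ PM (H.erase a),
      (Ea o Φ (H.erase a) (pm o (H.erase a) (Function.update δ a (.inl (cs 0 1 a)))
        (enm (r + 1) M)) -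
      Ea o Φ (H.erase a) (pm o (H.erase a) (Function.update δ a (.inl (o a)))
        (enm (r + 1) M)))).symm

private theorem K10_mem_PM {H : Finset (Fin n)} {M : Finset (Finset (Fin n))} :
    M ∈ PM H ↔ (∀ t ∈ M, t.card = 2) ∧ (∀ t ∈ M, ∀ t' ∈ M, t ≠ t' → Disjoint t t') ∧
      M.biUnion id = H := by
  unfold PM
  rw [Finset.mem_filter]
  exact ⟨fun h => h.2, fun h => ⟨Finset.mem_univ _, h⟩⟩

private theorem K10_Dj {m : ℕ} (τ₀ : Fin D → Finset (Fin n)) (τ₁ : Fin m → Finset (Fin n))
    (h0 : Dj τ₀) (h1 : Dj τ₁) (h01 : ∀ e i, Disjoint (τ₀ e) (τ₁ i)) :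
    Dj (Fin.append τ₀ τ₁) := by
  intro e e'
  refine Fin.addCases (fun e1 => ?_) (fun i1 => ?_) e
  · refine Fin.addCases (fun e2 => ?_) (fun i2 => ?_) e'
    · intro hee
      rw [Fin.append_left, Fin.append_left]
      exact h0 e1 e2 fun h => hee (by rw [h])
    · intro _
      rw [Fin.append_left, Fin.append_right]
      exact h01 e1 i2
  · refine Fin.addCases (fun e2 => ?_) (fun i2 => ?_) e'
    · intro _
      rw [Fin.append_left, Fin.append_right]
      exact (h01 e2 i1).symm
    · intro hee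
      rw [Fin.append_right, Fin.append_right]
      exact h1 i1 i2 fun h => hee (by rw [h])

private theorem K10_pat (τ₀ ρ : Fin D → Finset (Fin n)) (a : Fin n) (hρ : ∀ e, ρ e ⊆ τ₀ e)
    (ha : ∀ e, a ∉ τ₀ e) (p : A a) :
    pat o τ₀ ρ (Function.update o a p) = Function.update (pat o τ₀ ρ o) a (.inl p) := by
  funext b
  by_cases hb : b = a
  · subst hb
    rw [Function.update_self]
    unfold pat
    rw [dif_neg (fun ⟨e, he⟩ => ha e (hρ e he)), if_neg (fun ⟨e, he⟩ => ha e he),
      Function.update_self]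
  · rw [Function.update_of_ne hb]
    unfold pat
    rw [Function.update_of_ne hb]

theorem star_s (h : Sys l o j S Φ) (hr : RSys l o j S V lam cs Φ Ψ) (H : Finset (Fin n))
    (hH : ∀ a ∈ H, l a = lam) (hc : H.card = 2 * (r + 1) + 1) (τ₀ : Fin D → Finset (Fin n))
    (hτ : Dj τ₀) (hd : ∀ e, Disjoint (τ₀ e) H) (hV : ∀ e, ∀ a ∈ τ₀ e, V e = l a) :
    ∑ a ∈ H, ∑ M ∈ PM (H.erase a),
      (Gt o Φ (Fin.append τ₀ (enm (r + 1) M)) (Function.update o a (cs 0 1 a)) -
        Gt o Φ (Fin.append τ₀ (enm (r + 1) M)) o) = 0 := by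
  have hce : ∀ a ∈ H, (H.erase a).card = 2 * (r + 1) := by
    intro a ha
    rw [Finset.card_erase_of_mem ha, hc]
    omega
  have hna : ∀ a ∈ H, ∀ e, a ∉ τ₀ e := fun a ha e h => Finset.disjoint_left.1 (hd e) h ha
  have hGt : ∀ a ∈ H, ∀ M ∈ PM (H.erase a), ∀ s : ∀ a, A a,
      Gt o Φ (Fin.append τ₀ (enm (r + 1) M)) s =
        ∑ ρ ∈ Fintype.piFinset fun e => (τ₀ e).powerset,
          if ∃ e, ρ e = ∅ then 0 else
            (∏ e, (-1 : ℤ) ^ ((τ₀ e).card - (ρ e).card)) •
              Ea o Φ (H.erase a) (pm o (H.erase a) (pat o τ₀ ρ s) (enm (r + 1) M)) := by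
    intro a ha M hM s
    obtain ⟨hM2, hMd, hMu⟩ := K10_mem_PM.1 hM
    have hMc : M.card = r + 1 := by
      have h1 := card_PM hM
      rw [hce a ha] at h1
      omega
    have hsub : ∀ t ∈ M, t ⊆ H.erase a := by
      intro t ht
      rw [← hMu]
      exact Finset.subset_biUnion_of_mem id ht
    have hj : Dj (Fin.append τ₀ (enm (r + 1) M)) := by
      refine K10_Dj τ₀ _ hτ (fun i i' hii => ?_) fun e i => ?_
      · exact hMd _ (Pool.Agent.LibHD77.Comb.enm_mem hMc i) _
          (Pool.Agent.LibHD77.Comb.enm_mem hMc i') fun h1 =>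
            hii (Pool.Agent.LibHD77.Comb.enm_inj hMc h1)
      · exact (hd e).mono_right ((hsub _ (Pool.Agent.LibHD77.Comb.enm_mem hMc i)).trans
          (Finset.erase_subset _ _))
    refine Gt_pm hr.zero τ₀ (enm (r + 1) M) (H.erase a) hj (fun b => ⟨fun hb => ?_, ?_⟩)
      (Fin.append V fun _ => lam) ?_ s
    · rw [← hMu, Finset.mem_biUnion] at hb
      obtain ⟨t, ht, hbt⟩ := hb
      refine ⟨Finset.equivFinOfCardEq hMc ⟨t, ht⟩, ?_⟩
      unfold enm
      rw [dif_pos hMc, Equiv.symm_apply_apply]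
      exact hbt
    · rintro ⟨i, hi⟩
      exact hsub _ (Pool.Agent.LibHD77.Comb.enm_mem hMc i) hi
    · intro e
      refine Fin.addCases (fun e1 => ?_) (fun i1 => ?_) e
      · rw [Fin.append_left, Fin.append_left]
        exact hV e1
      · rw [Fin.append_right, Fin.append_right]
        intro b hb
        exact (hH b (Finset.mem_of_mem_erase
          (hsub _ (Pool.Agent.LibHD77.Comb.enm_mem hMc i1) hb))).symm
  set P : Finset (Fin D → Finset (Fin n)) := Fintype.piFinset fun e => (τ₀ e).powerset with hP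
  have hsubP : ∀ ρ ∈ P, ∀ e, ρ e ⊆ τ₀ e := by
    intro ρ hρ e
    rw [hP, Fintype.mem_piFinset] at hρ
    exact Finset.mem_powerset.1 (hρ e)
  have h1 : ∀ a ∈ H, ∀ M ∈ PM (H.erase a),
      Gt o Φ (Fin.append τ₀ (enm (r + 1) M)) (Function.update o a (cs 0 1 a)) -
        Gt o Φ (Fin.append τ₀ (enm (r + 1) M)) o =
      ∑ ρ ∈ P, if ∃ e, ρ e = ∅ then 0 else
        (∏ e, (-1 : ℤ) ^ ((τ₀ e).card - (ρ e).card)) •
          (Ea o Φ (H.erase a) (pm o (H.erase a)
            (Function.update (pat o τ₀ ρ o) a (.inl (cs 0 1 a))) (enm (r + 1) M)) -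
          Ea o Φ (H.erase a) (pm o (H.erase a)
            (Function.update (pat o τ₀ ρ o) a (.inl (o a))) (enm (r + 1) M))) := by
    intro a ha M hM
    rw [hGt a ha M hM, hGt a ha M hM, ← Finset.sum_sub_distrib]
    refine Finset.sum_congr rfl fun ρ hρ => ?_
    have e1 := K10_pat (o := o) τ₀ ρ a (hsubP ρ hρ) (hna a ha) (cs 0 1 a)
    have e2 := K10_pat (o := o) τ₀ ρ a (hsubP ρ hρ) (hna a ha) (o a)
    rw [Function.update_eq_self] at e2
    split_ifs
    · exact sub_zero _
    · rw [smul_sub, e1, ← e2]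
  rw [Finset.sum_congr rfl fun a ha => Finset.sum_congr rfl fun M hM => h1 a ha M hM]
  rw [Finset.sum_congr rfl fun a _ => Finset.sum_comm, Finset.sum_comm]
  refine Finset.sum_eq_zero fun ρ hρ => ?_
  by_cases h2 : ∃ e, ρ e = ∅
  · refine Finset.sum_eq_zero fun a _ => Finset.sum_eq_zero fun M _ => ?_
    rw [if_pos h2]
  · have h3 := star_E h hr H (pat o τ₀ ρ o) hH (fun a e ε _ hae => by
      unfold pat at hae
      split_ifs at hae with h4 h5
      · have h6 := h4.choose_spec
        have h7 : h4.choose = e := by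
          have h8 := Sum.inr.inj hae
          exact congrArg Prod.fst h8
        rw [h7] at h6
        exact hV e a (hsubP ρ hρ e h6)) hc
    rw [Finset.sum_congr rfl fun a _ => Finset.sum_congr rfl fun M _ => if_neg h2]
    rw [Finset.sum_congr rfl fun a _ => (Finset.smul_sum).symm, ← Finset.smul_sum, h3, smul_zero]

end Pool.Agent.LibHE77
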