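import Pool.Agent.LibHE77.K0

/-!
[HE77 K2] the sum over the zeros in one cycle. Proof. `rel` gives `U, w, ℓ`; `W = ∑_v w v > 0`. For a map `t : H → Option (Fin (NN r κ))` which is invariant under `σ` with `t a = none` exactly on the cycle of `a₁` let `P t : Pat A (Option (Fin D ⊕ Fin (NN r κ)))` be
`.inr (none, 1)` (`t a = none`), `.inr (some (.inr i), 1)` (`t a = some i`) on `H` and `δ` outside `H`. The invariant `u : H → Fin (NN r κ)` are the pairs of such a `t` and a zero `i` (the value on the cycle of `a₁`), and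
`pu H δ u = sub o (tgo (some (.inr i))) (P t)`. Replacing the coordinates in `T ⊆ H` by `o` commutes with `sub`, `lsub`. By `rel` (the labels are right by `hl`, `hδ`)
`∑_i Ea o Ψ H (sub o (tgo (some (.inr i))) (P t)) = NN r κ • Ea o (Ψ ∘ sub o (tgo none)) H (P t) + ∑_v w v • Ea o Φ H (lsub o cs (ℓ v) (P t))`; the first term is zero: adding `a₁` to or removing it from `T` changes the sign but not the pattern
`sub o (tgo none)`. `lsub o cs (ℓ v) (P t) = pw o cs H δ (fun a => (t a).map (ℓ v))` and `t ↦ (fun a => (t a).map (ℓ v))` is a bijection onto `Om σ a₁` for every `v`.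
-/

open scoped Classical

namespace Pool.Agent.LibHE77

open Pool.Agent.LibHD77.Comb (Pat sub Cmp Sys Gt Dj pts pat cf vec ind enm)

variable {n : ℕ} {A : Fin n → Type} {L G : Type} [AddCommGroup G] {J : Fin n → Type}
  [∀ a, AddCommGroup (J a)]
  {D r κ : ℕ} {l : Fin n → L} {o : ∀ a, A a} {j : ∀ a, A a → J a} {S : ∀ a, Set (A a)}
  {V : Fin D → L} {lam : L} {cs : Fin κ → ℤˣ → ∀ a, A a} {Φ : Pat A (Fin (D + (r + 1))) → G}
  {Ψ : Pat A (Fin D ⊕ Fin (NN r κ)) → G}

/-- the pattern of `t` -/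
private noncomputable def k2_P {D N : ℕ} (H : Finset (Fin n)) (δ : Pat A (Fin D))
    (t : H → Option (Fin N)) : Pat A (Option (Fin D ⊕ Fin N)) := fun a =>
  if h : a ∈ H then .inr ((t ⟨a, h⟩).map Sum.inr, 1) else
    match δ a with
    | .inl s => .inl s
    | .inr q => .inr (some (.inl q.1), q.2)

/-- the invariant maps with the value `none` exactly on the cycle of `a₁` -/
private noncomputable def k2_I {N : ℕ} {H : Finset (Fin n)} (σ : Equiv.Perm H) (a₁ : H) :
    Finset (H → Option (Fin N)) :=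
  Finset.univ.filter fun t => (fun a => t (σ a)) = t ∧ ∀ a, t a = none ↔ σ.SameCycle a₁ a

private theorem k2_inv {H : Finset (Fin n)} {X : Type} (σ : Equiv.Perm H) (u : H → X)
    (hu : ∀ a, u (σ a) = u a) {a b : H} (hab : σ.SameCycle a b) : u a = u b := by
  let S : Subgroup (Equiv.Perm H) :=
    { carrier := {π | ∀ a, u (π a) = u a}
      one_mem' := fun a => rfl
      mul_mem' := fun {π ρ} h1 h2 a => by
        show u (π (ρ a)) = u a
        rw [h1, h2]
      inv_mem' := fun {π} h1 a => by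
        have h2 : u (π (π.symm a)) = u (π.symm a) := h1 (π.symm a)
        rw [Equiv.apply_symm_apply] at h2
        exact h2.symm }
  obtain ⟨i, hi⟩ := hab
  have h1 : σ ^ i ∈ S := S.zpow_mem hu i
  have h2 := h1 a
  rw [hi] at h2
  exact h2.symm

private theorem k2_fill {N : ℕ} {H : Finset (Fin n)} (σ : Equiv.Perm H) (a₁ : H) (u : H → Fin N)
    (hu : ∀ a, u (σ a) = u a) :
    (fun a => (if σ.SameCycle a₁ a then none else some (u a) : Option (Fin N)).getD (u a₁)) = u := by
  funext a
  split_ifs with h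
  · exact k2_inv σ u hu h
  · rfl

private theorem k2_bij {N : ℕ} {H : Finset (Fin n)} (σ : Equiv.Perm H) (a₁ : H)
    (F : (H → Fin N) → G) :
    ∑ u ∈ Finset.univ.filter (fun u : H → Fin N => (fun a => u (σ a)) = u), F u =
      ∑ t ∈ k2_I (N := N) σ a₁, ∑ i, F (fun a => (t a).getD i) := by
  rw [← Finset.sum_product (k2_I (N := N) σ a₁) Finset.univ
    (fun x : (H → Option (Fin N)) × Fin N => F (fun a => (x.1 a).getD x.2))]
  refine Finset.sum_nbij' (fun u => ((fun a => if σ.SameCycle a₁ a then none else some (u a)), u a₁))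
    (fun x => fun a => (x.1 a).getD x.2) ?_ ?_ ?_ ?_ ?_
  · intro u hu
    have hu' : ∀ a, u (σ a) = u a := fun a => congrFun (Finset.mem_filter.1 hu).2 a
    refine Finset.mem_product.2 ⟨Finset.mem_filter.2 ⟨Finset.mem_univ _, ?_, ?_⟩, Finset.mem_univ _⟩
    · funext a
      show (if σ.SameCycle a₁ (σ a) then none else some (u (σ a))) =
        if σ.SameCycle a₁ a then none else some (u a)
      rw [hu']
      by_cases h : σ.SameCycle a₁ a
      · rw [if_pos h, if_pos (Equiv.Perm.sameCycle_apply_right.2 h)]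
      · rw [if_neg h, if_neg fun h1 => h (Equiv.Perm.sameCycle_apply_right.1 h1)]
    · intro a
      show (if σ.SameCycle a₁ a then none else some (u a)) = none ↔ σ.SameCycle a₁ a
      by_cases h : σ.SameCycle a₁ a
      · rw [if_pos h]
        exact ⟨fun _ => h, fun _ => rfl⟩
      · rw [if_neg h]
        exact ⟨fun h1 => (Option.some_ne_none _ h1).elim, fun h1 => (h h1).elim⟩
  · intro x hx
    obtain ⟨h1, -⟩ := Finset.mem_product.1 hx
    obtain ⟨-, h2, h3⟩ := Finset.mem_filter.1 h1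
    refine Finset.mem_filter.2 ⟨Finset.mem_univ _, ?_⟩
    funext a
    show (x.1 (σ a)).getD x.2 = (x.1 a).getD x.2
    rw [congrFun h2 a]
  · intro u hu
    exact k2_fill σ a₁ u fun a => congrFun (Finset.mem_filter.1 hu).2 a
  · intro x hx
    obtain ⟨h1, -⟩ := Finset.mem_product.1 hx
    obtain ⟨-, h2, h3⟩ := Finset.mem_filter.1 h1
    refine Prod.ext ?_ ?_
    · funext a
      show (if σ.SameCycle a₁ a then none else some ((x.1 a).getD x.2)) = x.1 a
      split_ifs with h
      · exact ((h3 a).2 h).symm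
      · cases hxa : x.1 a with
        | none => exact (h ((h3 a).1 hxa)).elim
        | some i => rfl
    · show (x.1 a₁).getD x.2 = x.2
      rw [(h3 a₁).2 (Equiv.Perm.SameCycle.refl _ _)]
      rfl
  · intro u hu
    have h1 := k2_fill σ a₁ u fun a => congrFun (Finset.mem_filter.1 hu).2 a
    show F u = F (fun a =>
      (if σ.SameCycle a₁ a then none else some (u a) : Option (Fin N)).getD (u a₁))
    rw [h1]

private theorem k2_Om {r κ : ℕ} {H : Finset (Fin n)} (σ : Equiv.Perm H) (a₁ : H)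
    (ℓ : Fin (NN r κ) ≃ Lt r κ) (F : (H → Option (Lt r κ)) → G) :
    ∑ t ∈ k2_I (N := NN r κ) σ a₁, F (fun a => (t a).map ℓ) = ∑ ω ∈ Om σ a₁, F ω := by
  refine Finset.sum_nbij' (fun t a => (t a).map ℓ) (fun ω a => (ω a).map ℓ.symm) ?_ ?_ ?_ ?_ ?_
  · intro t ht
    obtain ⟨-, h2, h3⟩ := Finset.mem_filter.1 ht
    refine Finset.mem_filter.2 ⟨Finset.mem_univ _, ?_, fun a => ?_⟩
    · funext a
      show (t (σ a)).map ℓ = (t a).map ℓ
      rw [congrFun h2 a]
    · show (t a).map ℓ = none ↔ _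
      rw [Option.map_eq_none_iff]
      exact h3 a
  · intro ω hω
    obtain ⟨-, h2, h3⟩ := Finset.mem_filter.1 hω
    refine Finset.mem_filter.2 ⟨Finset.mem_univ _, ?_, fun a => ?_⟩
    · funext a
      show (ω (σ a)).map ℓ.symm = (ω a).map ℓ.symm
      rw [congrFun h2 a]
    · show (ω a).map ℓ.symm = none ↔ _
      rw [Option.map_eq_none_iff]
      exact h3 a
  · intro t _
    funext a
    show ((t a).map ℓ).map ℓ.symm = t a
    rw [Option.map_map]
    cases t a with
    | none => rfl
    | some i =>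
      show some (ℓ.symm (ℓ i)) = some i
      rw [Equiv.symm_apply_apply]
  · intro ω _
    funext a
    show ((ω a).map ℓ.symm).map ℓ = ω a
    rw [Option.map_map]
    cases ω a with
    | none => rfl
    | some i =>
      show some (ℓ (ℓ.symm i)) = some i
      rw [Equiv.apply_symm_apply]
  · intro t _
    rfl

private theorem k2_pu {D N : ℕ} (o : ∀ a, A a) (H : Finset (Fin n)) (δ : Pat A (Fin D))
    (t : H → Option (Fin N)) (i : Fin N) :
    pu H δ (fun a => (t a).getD i) = sub o (tgo (some (.inr i))) (k2_P H δ t) := by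
  funext a
  unfold pu sub k2_P
  by_cases h : a ∈ H
  · simp only [dif_pos h]
    cases t ⟨a, h⟩ with
    | none =>
      show Sum.inr (Sum.inr i, 1) = Sum.inr (Sum.inr i, (1 : ℤˣ) * 1)
      rw [mul_one]
    | some k =>
      show Sum.inr (Sum.inr k, 1) = Sum.inr (Sum.inr k, (1 : ℤˣ) * 1)
      rw [mul_one]
  · simp only [dif_neg h]
    cases δ a with
    | inl s => rfl
    | inr q =>
      show Sum.inr (Sum.inl q.1, q.2) = Sum.inr (Sum.inl q.1, (1 : ℤˣ) * q.2)
      rw [one_mul]

private theorem k2_pw {D r κ : ℕ} (o : ∀ a, A a) (cs : Fin κ → ℤˣ → ∀ a, A a) (H : Finset (Fin n))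
    (δ : Pat A (Fin D)) (t : H → Option (Fin (NN r κ))) (ℓ : Fin (NN r κ) → Lt r κ) :
    lsub o cs ℓ (k2_P H δ t) = pw o cs H δ (fun a => (t a).map ℓ) := by
  funext a
  unfold pw lsub k2_P
  by_cases h : a ∈ H
  · simp only [dif_pos h]
    cases t ⟨a, h⟩ with
    | none => rfl
    | some k => rfl
  · simp only [dif_neg h]
    cases δ a with
    | inl s => rfl
    | inr q => rfl

private theorem k2_Ea_zero {B : Type} (o : ∀ a, A a) (X : Pat A B → G) (H : Finset (Fin n))
    (δ : Pat A B) {a : Fin n} (ha : a ∈ H) (hδ : δ a = .inl (o a)) : Ea o X H δ = 0 := by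
  unfold Ea
  conv_lhs => rw [← Finset.insert_erase ha]
  rw [Finset.sum_powerset_insert (Finset.notMem_erase a H), ← Finset.sum_add_distrib]
  refine Finset.sum_eq_zero fun T hT => ?_
  have haT : a ∉ T := fun h => Finset.notMem_erase a H (Finset.mem_powerset.1 hT h)
  rw [Finset.card_insert_of_notMem haT, pow_succ, mul_neg_one, neg_smul]
  have h1 : (fun b => if b ∈ insert a T then (Sum.inl (o b) : A b ⊕ (B × ℤˣ)) else δ b) =
      fun b => if b ∈ T then Sum.inl (o b) else δ b := by
    funext b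
    by_cases hb : b = a
    · subst hb
      rw [if_pos (Finset.mem_insert_self _ _), if_neg haT, hδ]
    · by_cases hbT : b ∈ T
      · rw [if_pos (Finset.mem_insert_of_mem hbT), if_pos hbT]
      · rw [if_neg hbT, if_neg fun h => (Finset.mem_insert.1 h).elim hb hbT]
  rw [h1, add_neg_cancel]

private theorem k2_sub_T {B B' : Type} (o : ∀ a, A a) (f : B → Option (B' × ℤˣ)) (T : Finset (Fin n))
    (δ : Pat A B) :
    (sub o f fun a => if a ∈ T then .inl (o a) else δ a) =
      fun a => if a ∈ T then .inl (o a) else sub o f δ a := by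
  funext a
  unfold sub
  by_cases h : a ∈ T
  · simp only [if_pos h]
  · simp only [if_neg h]

private theorem k2_lsub_T {D r κ : ℕ} (o : ∀ a, A a) (cs : Fin κ → ℤˣ → ∀ a, A a)
    (ℓ : Fin (NN r κ) → Lt r κ) (T : Finset (Fin n)) (δ : Pat A (Option (Fin D ⊕ Fin (NN r κ)))) :
    (lsub o cs ℓ fun a => if a ∈ T then .inl (o a) else δ a) =
      fun a => if a ∈ T then .inl (o a) else lsub o cs ℓ δ a := by
  funext a
  unfold lsub
  by_cases h : a ∈ T
  · simp only [if_pos h]
  · simp only [if_neg h]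

private theorem k2_Lab {D N : ℕ} (l : Fin n → L) (o : ∀ a, A a) (V : Fin D → L) (lam : L)
    (H : Finset (Fin n)) (δ : Pat A (Fin D)) (hl : ∀ a ∈ H, l a = lam)
    (hδ : ∀ a e ε, a ∉ H → δ a = .inr (e, ε) → V e = l a) (t : H → Option (Fin N))
    (T : Finset (Fin n)) :
    Lab l (fun a => if a ∈ T then .inl (o a) else k2_P H δ t a) (wl V lam) := by
  intro a b ε h
  by_cases hT : a ∈ T
  · simp only [if_pos hT] at h
    exact (Sum.inl_ne_inr h).elim
  · simp only [if_neg hT] at h
    unfold k2_P at h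
    by_cases hH : a ∈ H
    · simp only [dif_pos hH] at h
      have h1 : (t ⟨a, hH⟩).map Sum.inr = b := congrArg Prod.fst (Sum.inr.inj h)
      rw [← h1, hl a hH]
      cases t ⟨a, hH⟩ with
      | none => rfl
      | some k => rfl
    · simp only [dif_neg hH] at h
      cases hd : δ a with
      | inl s =>
        rw [hd] at h
        exact (Sum.inl_ne_inr h).elim
      | inr q =>
        rw [hd] at h
        have h1 : some (Sum.inl q.1) = b := congrArg Prod.fst (Sum.inr.inj h)
        rw [← h1]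
        exact hδ a q.1 q.2 hH hd

theorem rel_sum (h : RSys l o j S V lam cs Φ Ψ) : ∃ W : ℤ, 0 < W ∧
    ∀ (H : Finset (Fin n)) (δ : Pat A (Fin D)), (∀ a ∈ H, l a = lam) →
      (∀ a e ε, a ∉ H → δ a = .inr (e, ε) → V e = l a) → ∀ (σ : Equiv.Perm H) (a₁ : H),
      ∑ u ∈ Finset.univ.filter (fun u : H → Fin (NN r κ) => (fun a => u (σ a)) = u),
        Ea o Ψ H (pu H δ u) =
      W • ∑ ω ∈ Om σ a₁, Ea o Φ H (pw o cs H δ ω) := by
  obtain ⟨U, hU, hU', w, ℓ, hw, hrel⟩ := h.rel
  refine ⟨∑ v, w v, Finset.sum_pos (fun v _ => hw v) Finset.univ_nonempty, ?_⟩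
  intro H δ hl hδ σ a₁
  rw [k2_bij σ a₁, Finset.sum_smul]
  have key : ∀ t ∈ k2_I (N := NN r κ) σ a₁, ∑ i, Ea o Ψ H (pu H δ (fun a => (t a).getD i)) =
      ∑ v, w v • Ea o Φ H (pw o cs H δ (fun a => (t a).map (ℓ v))) := by
    intro t ht
    obtain ⟨-, -, h3⟩ := Finset.mem_filter.1 ht
    have h0 : Ea o Ψ H (sub o (tgo none) (k2_P H δ t)) = 0 := by
      refine k2_Ea_zero o Ψ H _ a₁.2 ?_
      unfold sub k2_P
      have h4 : t ⟨(a₁ : Fin n), a₁.2⟩ = none := (h3 a₁).2 (Equiv.Perm.SameCycle.refl _ _)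
      simp only [dif_pos a₁.2, h4]
      rfl
    have h1 : ∑ i, Ea o Ψ H (pu H δ (fun a => (t a).getD i)) -
        NN r κ • Ea o Ψ H (sub o (tgo none) (k2_P H δ t)) =
        ∑ v, w v • Ea o Φ H (pw o cs H δ (fun a => (t a).map (ℓ v))) := by
      unfold Ea
      simp only [k2_pu o, ← k2_pw]
      rw [Finset.sum_comm]
      simp only [Finset.smul_sum]
      rw [← Finset.sum_sub_distrib]
      conv_rhs => rw [Finset.sum_comm]
      refine Finset.sum_congr rfl fun T _ => ?_
      have h5 := hrel _ (k2_Lab l o V lam H δ hl hδ t T)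
      simp only [k2_sub_T, k2_lsub_T] at h5
      rw [← Finset.smul_sum, smul_comm (NN r κ) ((-1 : ℤ) ^ T.card), ← smul_sub, h5,
        Finset.smul_sum]
      exact Finset.sum_congr rfl fun v _ => smul_comm _ _ _
    rw [h0, smul_zero, sub_zero] at h1
    exact h1
  rw [Finset.sum_congr rfl key, Finset.sum_comm]
  refine Finset.sum_congr rfl fun v _ => ?_
  rw [← Finset.smul_sum, k2_Om σ a₁ (ℓ v) (fun ω => Ea o Φ H (pw o cs H δ ω))]

end Pool.Agent.LibHE77
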