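import Pool.Agent.LibHE77.K0

/-!
[HE77 K3] the alternating sums `Ea`. Proof. `Ea_insert`: split the subsets of `insert a H` (`Finset.sum_powerset_insert`). `Ea_o`: `H = insert a (H.erase a)`, `Ea_insert`, the two terms are equal. `Ea_neg`: `Ea_insert` and for every `T ⊆ H.erase a` the field `lin` of `Sys` for the
pattern `update _ a (.inl (o a))` with the coordinates in `T` replaced by `o`: `Φ(.. p ..) - Φ(.. o ..) = φ (j a p)`, `φ (j a p') = - φ (j a p)`. `Ea_two`: `Ea_insert` twice and the field `orth`. `Ea_perm`: the field `perm` for every term. `expand0`: if all free points occur this is `expand` (HD77 C2);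
otherwise `Φ δ = 0` (`hz`) and `vec δ b = 0` for the point `b` which does not occur, so `cf (τ b) (vec δ b) = 0`. `Ea_expand`: `expand0` for every `T ⊆ H` (replacing coordinates by `o` keeps the labels); exchange the sums. If `a ∈ H` is in no `τ e` then adding `a` to or removing it from
`T` does not change `cf (τ e) (vec _ e)` (only coordinates in `τ e` matter) and `pts o _` (`δ a` is a free point, so `pts` is `o a` in both cases): the sum over `T` is zero. If all `a ∈ H` are in some `τ e` then for `T ≠ ∅` a coordinate `a ∈ T ∩ τ e` has `vec _ e a = 0`, so `cf (τ e) _ = 0`: only `T = ∅` remains.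
-/

open scoped Classical

namespace Pool.Agent.LibHE77

open Pool.Agent.LibHD77.Comb (Pat sub Cmp Sys Gt Dj pts pat cf vec ind enm)

variable {n : ℕ} {A : Fin n → Type} {L G : Type} [AddCommGroup G] {J : Fin n → Type}
  [∀ a, AddCommGroup (J a)]
  {D : ℕ} {l : Fin n → L} {o : ∀ a, A a} {j : ∀ a, A a → J a} {S : ∀ a, Set (A a)}
  {Φ : Pat A (Fin D) → G}

omit [AddCommGroup G] in
private theorem K3_put {B : Type} (T : Finset (Fin n)) (a : Fin n) (ha : a ∉ T) (δ : Pat A B)
    (z : A a ⊕ (B × ℤˣ)) :
    (fun x => if x ∈ T then .inl (o x) else (Function.update δ a z) x : Pat A B) =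
      Function.update (fun x => if x ∈ T then .inl (o x) else δ x : Pat A B) a z := by
  funext x
  by_cases hx : x = a
  · subst hx
    rw [if_neg ha, Function.update_self, Function.update_self]
  · rw [Function.update_of_ne hx, Function.update_of_ne hx]

private theorem K3_ins {B : Type} (T : Finset (Fin n)) (a : Fin n) (ha : a ∉ T) (δ : Pat A B) :
    (fun x => if x ∈ insert a T then .inl (o x) else δ x : Pat A B) =
      (fun x => if x ∈ T then .inl (o x) else (Function.update δ a (.inl (o a))) x : Pat A B) := by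
  funext x
  by_cases hx : x = a
  · subst hx
    rw [if_pos (Finset.mem_insert_self _ _), if_neg ha, Function.update_self]
  · by_cases hxT : x ∈ T
    · rw [if_pos (Finset.mem_insert_of_mem hxT), if_pos hxT]
    · rw [if_neg hxT, Function.update_of_ne hx, if_neg]
      rw [Finset.mem_insert]
      push Not
      exact ⟨hx, hxT⟩

theorem Ea_insert {B : Type} (X : Pat A B → G) (H : Finset (Fin n)) (a : Fin n) (ha : a ∉ H)
    (δ : Pat A B) : Ea o X (insert a H) δ =
      Ea o X H δ - Ea o X H (Function.update δ a (.inl (o a))) := by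
  unfold Ea
  rw [Finset.sum_powerset_insert ha, sub_eq_add_neg, ← Finset.sum_neg_distrib]
  congr 1
  refine Finset.sum_congr rfl fun T hT => ?_
  have haT : a ∉ T := fun h => ha (Finset.mem_powerset.1 hT h)
  rw [K3_ins T a haT δ, Finset.card_insert_of_notMem haT, pow_succ, mul_neg_one, neg_smul]

theorem Ea_o {B : Type} (X : Pat A B → G) (H : Finset (Fin n)) (a : Fin n) (ha : a ∈ H)
    (δ : Pat A B) (hδ : δ a = .inl (o a)) : Ea o X H δ = 0 := by
  rw [← Finset.insert_erase ha, Ea_insert X _ a (Finset.notMem_erase a H) δ, ← hδ,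
    Function.update_eq_self, sub_self]

theorem Ea_neg (h : Sys l o j S Φ) (H : Finset (Fin n)) (a : Fin n) (ha : a ∈ H)
    (δ : Pat A (Fin D)) (p p' : A a) (hp : j a p' = - j a p) :
    Ea o Φ H (Function.update δ a (.inl p)) + Ea o Φ H (Function.update δ a (.inl p')) = 0 := by
  rw [← Finset.insert_erase ha, Ea_insert Φ _ a (Finset.notMem_erase a H),
    Ea_insert Φ _ a (Finset.notMem_erase a H), Function.update_idem, Function.update_idem]
  unfold Ea
  rw [← Finset.sum_sub_distrib, ← Finset.sum_sub_distrib, ← Finset.sum_add_distrib]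
  refine Finset.sum_eq_zero fun T hT => ?_
  have haT : a ∉ T := fun h' => Finset.notMem_erase a H (Finset.mem_powerset.1 hT h')
  rw [K3_put T a haT, K3_put T a haT, K3_put T a haT]
  obtain ⟨φ, hφ⟩ := h.lin (Function.update (fun x => if x ∈ T then .inl (o x) else δ x : Pat A (Fin D)) a
    (.inl (o a))) a (by rw [Function.update_self]; rfl)
  have h1 := hφ p
  have h2 := hφ p'
  simp only [Function.update_idem] at h1 h2
  rw [h1, h2, hp, map_neg, ← smul_sub, ← smul_sub, ← smul_add]
  have h3 : Φ (Function.update (fun x => if x ∈ T then .inl (o x) else δ x : Pat A (Fin D)) a (.inl (o a))) +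
      φ (j a p) - Φ (Function.update (fun x => if x ∈ T then .inl (o x) else δ x : Pat A (Fin D)) a (.inl (o a))) +
      (Φ (Function.update (fun x => if x ∈ T then .inl (o x) else δ x : Pat A (Fin D)) a (.inl (o a))) +
      -φ (j a p) - Φ (Function.update (fun x => if x ∈ T then .inl (o x) else δ x : Pat A (Fin D)) a (.inl (o a)))) = 0 := by
    abel
  rw [h3, smul_zero]

theorem Ea_two (h : Sys l o j S Φ) (H : Finset (Fin n)) (a b : Fin n) (ha : a ∈ H) (hb : b ∈ H)
    (hab : a ≠ b) (δ : Pat A (Fin D)) (p : A a) (q : A b) (hp : p ∈ S a) (hq : q ∈ S b) :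
    Ea o Φ H (Function.update (Function.update δ a (.inl p)) b (.inl q)) = 0 := by
  have hbe : b ∈ H.erase a := Finset.mem_erase.2 ⟨hab.symm, hb⟩
  have hae : a ∉ H.erase a := Finset.notMem_erase a H
  have hbn : b ∉ (H.erase a).erase b := Finset.notMem_erase b _
  have e1 : Ea o Φ H (Function.update (Function.update δ a (.inl p)) b (.inl q)) =
      (Ea o Φ ((H.erase a).erase b) (Function.update (Function.update δ a (.inl p)) b (.inl q)) -
      Ea o Φ ((H.erase a).erase b) (Function.update (Function.update δ a (.inl p)) b (.inl (o b)))) -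
      (Ea o Φ ((H.erase a).erase b) (Function.update (Function.update δ a (.inl (o a))) b (.inl q)) -
      Ea o Φ ((H.erase a).erase b) (Function.update (Function.update δ a (.inl (o a))) b (.inl (o b)))) := by
    have c1 : Function.update (Function.update (Function.update δ a (.inl p)) b (.inl q)) a (.inl (o a)) =
        Function.update (Function.update δ a (.inl (o a))) b (.inl q) := by
      rw [Function.update_comm hab.symm, Function.update_idem]
    rw [← Finset.insert_erase ha, Ea_insert Φ _ a hae, c1, Finset.erase_insert hae,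
      ← Finset.insert_erase hbe, Ea_insert Φ _ b hbn, Ea_insert Φ _ b hbn, Function.update_idem,
      Function.update_idem, Finset.erase_insert hbn]
  rw [e1]
  unfold Ea
  rw [← Finset.sum_sub_distrib, ← Finset.sum_sub_distrib, ← Finset.sum_sub_distrib]
  refine Finset.sum_eq_zero fun T hT => ?_
  have haT : a ∉ T := fun h' => by
    have := Finset.mem_powerset.1 hT h'
    exact hae (Finset.mem_of_mem_erase this)
  have hbT : b ∉ T := fun h' => hbn (Finset.mem_powerset.1 hT h')
  simp only [K3_put T b hbT, K3_put T a haT]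
  set ψ : Pat A (Fin D) := (fun x => if x ∈ T then .inl (o x) else δ x) with hψ
  have h1 := h.orth (Function.update (Function.update ψ a (.inl (o a))) b (.inl (o b))) a b hab
    (by rw [Function.update_of_ne hab, Function.update_self]; rfl)
    (by rw [Function.update_self]; rfl) p hp q hq
  have h2 : ∀ (x : A a) (y : A b), Function.update (Function.update (Function.update
      (Function.update ψ a (.inl (o a))) b (.inl (o b))) a (.inl x)) b (.inl y) =
      Function.update (Function.update ψ a (.inl x)) b (.inl y) := by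
    intro x y
    rw [Function.update_comm hab.symm, Function.update_idem, Function.update_idem]
  rw [h2, h2, h2, h2] at h1
  rw [← smul_sub, ← smul_sub, ← smul_sub]
  have h3 : Φ (Function.update (Function.update ψ a (.inl p)) b (.inl q)) -
      Φ (Function.update (Function.update ψ a (.inl p)) b (.inl (o b))) -
      (Φ (Function.update (Function.update ψ a (.inl (o a))) b (.inl q)) -
      Φ (Function.update (Function.update ψ a (.inl (o a))) b (.inl (o b)))) = 0 := by
    rw [← h1]; abel
  rw [h3, smul_zero]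

theorem Ea_perm (h : Sys l o j S Φ) (H : Finset (Fin n)) (π : Equiv.Perm (Fin D))
    (η : Fin D → ℤˣ) (δ : Pat A (Fin D)) :
    Ea o Φ H (sub o (fun b => some (π b, η b)) δ) = Ea o Φ H δ := by
  unfold Ea
  refine Finset.sum_congr rfl fun T _ => ?_
  congr 1
  have h1 : (fun x => if x ∈ T then .inl (o x) else (sub o (fun b => some (π b, η b)) δ) x : Pat A (Fin D)) =
      sub o (fun b => some (π b, η b)) (fun x => if x ∈ T then .inl (o x) else δ x : Pat A (Fin D)) := by
    funext x
    by_cases hx : x ∈ T
    · simp only [sub, if_pos hx]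
    · simp only [sub, if_neg hx]
  rw [h1, h.perm]

private theorem K3_cf_zero {t : Finset (Fin n)} {v : Fin n → ℤ} {a : Fin n} (ha : a ∈ t)
    (hv : v a = 0) : cf t v = 0 := by
  unfold cf
  split_ifs with h1 h2
  · exact Finset.prod_eq_zero ha (by rw [hv]; norm_num)
  · exact Finset.prod_eq_zero ha hv
  · rfl

private theorem K3_cf_congr {t : Finset (Fin n)} {v v' : Fin n → ℤ} (h : ∀ a ∈ t, v a = v' a) :
    cf t v = cf t v' := by
  unfold cf
  rw [Finset.prod_congr rfl fun a ha => by rw [h a ha],
    Finset.prod_congr rfl fun a ha => h a ha]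

private theorem K3_cf_zero' (t : Finset (Fin n)) (v : Fin n → ℤ) (hv : ∀ a, v a = 0) :
    cf t v = 0 := by
  rcases t.eq_empty_or_nonempty with rfl | ⟨a, ha⟩
  · unfold cf
    simp
  · exact K3_cf_zero ha (hv a)

theorem expand0 (h : Sys l o j S Φ)
    (hz : ∀ δ W, Lab l δ W → (∃ b, ∀ a ε, δ a ≠ .inr (b, ε)) → Φ δ = 0) (δ : Pat A (Fin D))
    (W : Fin D → L) (hW : Lab l δ W) :
    Φ δ = ∑ τ : Fin D → Finset (Fin n), (∏ e, cf (τ e) (vec δ e)) • Gt o Φ τ (pts o δ) := by
  by_cases hc : ∀ b, ∃ a ε, δ a = .inr (b, ε)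
  · exact Pool.Agent.LibHD77.Comb.expand h δ W ⟨hc, hW⟩
  · push Not at hc
    obtain ⟨b, hb⟩ := hc
    rw [hz δ W hW ⟨b, hb⟩]
    symm
    refine Finset.sum_eq_zero fun τ _ => ?_
    have h1 : ∀ a, vec δ b a = 0 := by
      intro a
      unfold vec
      cases hd : δ a with
      | inl s => rfl
      | inr q =>
        simp only
        refine if_neg fun hq => hb a q.2 ?_
        rw [hd, ← hq]
    rw [Finset.prod_eq_zero (Finset.mem_univ b) (K3_cf_zero' _ _ h1), zero_smul]

private theorem K3_vec (T : Finset (Fin n)) (δ : Pat A (Fin D)) (e : Fin D) (a : Fin n) :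
    vec (fun x => if x ∈ T then .inl (o x) else δ x : Pat A (Fin D)) e a =
      if a ∈ T then 0 else vec δ e a := by
  unfold vec
  by_cases ha : a ∈ T
  · simp only [if_pos ha]
  · simp only [if_neg ha]

private theorem K3_coef (H : Finset (Fin n)) (δ : Pat A (Fin D)) (τ : Fin D → Finset (Fin n)) :
    ∑ T ∈ H.powerset, ((-1 : ℤ) ^ T.card) *
      ∏ e, cf (τ e) (vec (fun x => if x ∈ T then .inl (o x) else δ x : Pat A (Fin D)) e) =
    if ∀ a ∈ H, ∃ e, a ∈ τ e then ∏ e, cf (τ e) (vec δ e) else 0 := by
  split_ifs with hc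
  · rw [Finset.sum_eq_single_of_mem ∅ (Finset.empty_mem_powerset H)]
    · simp
    · intro T hT hne
      obtain ⟨a, ha⟩ := Finset.nonempty_iff_ne_empty.2 hne
      obtain ⟨e, he⟩ := hc a (Finset.mem_powerset.1 hT ha)
      have h1 : cf (τ e) (vec (fun x => if x ∈ T then .inl (o x) else δ x : Pat A (Fin D)) e) = 0 :=
        K3_cf_zero he (by rw [K3_vec, if_pos ha])
      rw [Finset.prod_eq_zero (Finset.mem_univ e) h1, mul_zero]
  · push Not at hc
    obtain ⟨a, ha, hne⟩ := hc
    rw [← Finset.insert_erase ha, Finset.sum_powerset_insert (Finset.notMem_erase a H),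
      ← Finset.sum_add_distrib]
    refine Finset.sum_eq_zero fun T hT => ?_
    have haT : a ∉ T := fun h => Finset.notMem_erase a H (Finset.mem_powerset.1 hT h)
    have h1 : ∀ e, cf (τ e) (vec (fun x => if x ∈ insert a T then .inl (o x) else δ x : Pat A (Fin D)) e) =
        cf (τ e) (vec (fun x => if x ∈ T then .inl (o x) else δ x : Pat A (Fin D)) e) := by
      intro e
      refine K3_cf_congr fun x hx => ?_
      have hxa : x ≠ a := fun h => hne e (h ▸ hx)
      rw [K3_vec, K3_vec]
      by_cases hxT : x ∈ T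
      · rw [if_pos (Finset.mem_insert_of_mem hxT), if_pos hxT]
      · rw [if_neg hxT, if_neg]
        rw [Finset.mem_insert]
        push Not
        exact ⟨hxa, hxT⟩
    rw [Finset.prod_congr rfl fun e _ => h1 e, Finset.card_insert_of_notMem haT, pow_succ]
    ring

theorem Ea_expand (h : Sys l o j S Φ)
    (hz : ∀ δ W, Lab l δ W → (∃ b, ∀ a ε, δ a ≠ .inr (b, ε)) → Φ δ = 0) (H : Finset (Fin n))
    (δ : Pat A (Fin D)) (W : Fin D → L) (hW : Lab l δ W)
    (hH : ∀ a ∈ H, ∃ b ε, δ a = .inr (b, ε)) :
    Ea o Φ H δ = ∑ τ ∈ Finset.univ.filter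
        (fun τ : Fin D → Finset (Fin n) => ∀ a ∈ H, ∃ e, a ∈ τ e),
      (∏ e, cf (τ e) (vec δ e)) • Gt o Φ τ (pts o δ) := by
  have hlab : ∀ T : Finset (Fin n), Lab l (fun x => if x ∈ T then .inl (o x) else δ x : Pat A (Fin D)) W := by
    intro T a b ε hab
    by_cases ha : a ∈ T
    · simp only [if_pos ha] at hab
      exact absurd hab (by simp)
    · simp only [if_neg ha] at hab
      exact hW a b ε hab
  have hpts : ∀ T ∈ H.powerset, pts o (fun x => if x ∈ T then .inl (o x) else δ x : Pat A (Fin D)) =
      pts o δ := by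
    intro T hT
    funext a
    unfold pts
    by_cases ha : a ∈ T
    · obtain ⟨b, ε, hb⟩ := hH a (Finset.mem_powerset.1 hT ha)
      simp only [if_pos ha, hb]
    · simp only [if_neg ha]
  have h1 : Ea o Φ H δ = ∑ T ∈ H.powerset, ∑ τ : Fin D → Finset (Fin n),
      (((-1 : ℤ) ^ T.card) * ∏ e, cf (τ e) (vec (fun x => if x ∈ T then .inl (o x) else δ x : Pat A (Fin D)) e)) •
        Gt o Φ τ (pts o δ) := by
    unfold Ea
    refine Finset.sum_congr rfl fun T hT => ?_
    rw [expand0 h hz _ W (hlab T), hpts T hT, Finset.smul_sum]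
    exact Finset.sum_congr rfl fun τ _ => (mul_smul _ _ _).symm
  rw [h1, Finset.sum_comm, Finset.sum_filter]
  refine Finset.sum_congr rfl fun τ _ => ?_
  rw [← Finset.sum_smul, K3_coef H δ τ]
  split_ifs with hc
  · rfl
  · rw [zero_smul]

end Pool.Agent.LibHE77
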