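import Pool.Agent.LibHE77.K3

/-!
[HE77 K4] the free points which occur only in `H`. Let `fib δ b` be the set of the coordinates with the free point `b`. Proof. All by `Ea_expand` (K3). Let `τ` be a term with `∏_e cf (τ e) (vec δ e) ≠ 0` and all `a ∈ H` in some `τ e`. Then `(τ b).card` is 1 or 2 and `vec δ b ≠ 0` on `τ b`: `τ b ⊆ fib δ b`. Conversely if
`a ∈ fib δ b`, then `a ∈ H` (`hb`) is in some `τ e`, `vec δ e a ≠ 0`, so `e = b`: `τ b = fib δ b`. `Ea_big`: contradiction to `hc`, all terms are zero. `Ea_flip`: `τ b = {a, a'}`, `cf (τ b) (vec δ b) = vec δ b a * vec δ b a'` changes the sign, the other factors and `pts` do not change.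
If all the free points of a set `B` of free points occur only in `H` (and `H` has only such free points) then by `Ea_big` `H.card ≤ 2 * B.card` or `Ea = 0`: `Ea_card`.
-/

open scoped Classical

namespace Pool.Agent.LibHE77

open Pool.Agent.LibHD77.Comb (Pat sub Cmp Sys Gt Dj pts pat cf vec ind enm)

variable {n : ℕ} {A : Fin n → Type} {L G : Type} [AddCommGroup G] {J : Fin n → Type}
  [∀ a, AddCommGroup (J a)]
  {D : ℕ} {l : Fin n → L} {o : ∀ a, A a} {j : ∀ a, A a → J a} {S : ∀ a, Set (A a)}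
  {Φ : Pat A (Fin D) → G}

/-- the coordinates with the free point `b` -/
noncomputable def fib (δ : Pat A (Fin D)) (b : Fin D) : Finset (Fin n) :=
  Finset.univ.filter fun a => ∃ ε, δ a = .inr (b, ε)

private theorem K4_cf_ne {t : Finset (Fin n)} {v : Fin n → ℤ} (h : cf t v ≠ 0) :
    (t.card = 1 ∨ t.card = 2) ∧ ∀ a ∈ t, v a ≠ 0 := by
  unfold cf at h
  split_ifs at h with h1 h2
  · refine ⟨Or.inl h1, fun a ha h0 => h (Finset.prod_eq_zero ha (by rw [h0]; norm_num))⟩
  · exact ⟨Or.inr h2, fun a ha h0 => h (Finset.prod_eq_zero ha h0)⟩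
  · exact absurd rfl h

private theorem K4_vec_ne {δ : Pat A (Fin D)} {e : Fin D} {a : Fin n} (h : vec δ e a ≠ 0) :
    ∃ ε, δ a = .inr (e, ε) := by
  unfold vec at h
  cases hd : δ a with
  | inl s => rw [hd] at h; exact absurd rfl h
  | inr q =>
    rw [hd] at h
    have h4 : q.1 = e := by
      by_contra h5
      exact h (if_neg h5)
    exact ⟨q.2, by rw [← h4]⟩

private theorem K4_tau (H : Finset (Fin n)) (δ : Pat A (Fin D)) (b : Fin D) (hb : fib δ b ⊆ H)
    (τ : Fin D → Finset (Fin n)) (hτ : ∀ a ∈ H, ∃ e, a ∈ τ e)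
    (hne : ∏ e, cf (τ e) (vec δ e) ≠ 0) :
    τ b = fib δ b ∧ ((fib δ b).card = 1 ∨ (fib δ b).card = 2) := by
  have h0 : ∀ e, cf (τ e) (vec δ e) ≠ 0 := fun e => Finset.prod_ne_zero_iff.1 hne e
    (Finset.mem_univ e)
  have h1 : τ b = fib δ b := by
    ext a
    unfold fib
    rw [Finset.mem_filter]
    constructor
    · intro ha
      exact ⟨Finset.mem_univ _, K4_vec_ne ((K4_cf_ne (h0 b)).2 a ha)⟩
    · rintro ⟨-, ε, hε⟩
      have haH : a ∈ H := hb (Finset.mem_filter.2 ⟨Finset.mem_univ _, ε, hε⟩)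
      obtain ⟨e, he⟩ := hτ a haH
      obtain ⟨ε', hε'⟩ := K4_vec_ne ((K4_cf_ne (h0 e)).2 a he)
      rw [hε] at hε'
      have h2 : b = e := congrArg Prod.fst (Sum.inr.inj hε')
      rw [h2]
      exact he
  refine ⟨h1, ?_⟩
  rw [← h1]
  exact (K4_cf_ne (h0 b)).1

theorem Ea_big (h : Sys l o j S Φ)
    (hz : ∀ δ W, Lab l δ W → (∃ b, ∀ a ε, δ a ≠ .inr (b, ε)) → Φ δ = 0) (H : Finset (Fin n))
    (δ : Pat A (Fin D)) (W : Fin D → L) (hW : Lab l δ W)
    (hH : ∀ a ∈ H, ∃ b ε, δ a = .inr (b, ε)) (b : Fin D) (hb : fib δ b ⊆ H)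
    (hc : (fib δ b).card ≠ 1 ∧ (fib δ b).card ≠ 2) : Ea o Φ H δ = 0 := by
  rw [Ea_expand h hz H δ W hW hH]
  refine Finset.sum_eq_zero fun τ hτ => ?_
  have hτ' := (Finset.mem_filter.1 hτ).2
  by_cases h0 : ∏ e, cf (τ e) (vec δ e) = 0
  · rw [h0, zero_smul]
  · rcases (K4_tau H δ b hb τ hτ' h0).2 with h1 | h1
    · exact absurd h1 hc.1
    · exact absurd h1 hc.2

private theorem K4_flip_vec (δ : Pat A (Fin D)) (b : Fin D) (a : Fin n) (ε : ℤˣ)
    (ha : δ a = .inr (b, ε)) (e : Fin D) (x : Fin n) :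
    vec (Function.update δ a (.inr (b, -ε))) e x =
      if x = a ∧ e = b then - vec δ e x else vec δ e x := by
  by_cases hx : x = a
  · subst hx
    unfold vec
    rw [Function.update_self, ha]
    simp only
    by_cases he : e = b
    · subst he
      simp
    · rw [if_neg (fun h => he h.symm), if_neg (fun h => he h.2), if_neg (fun h => he h.symm)]
  · rw [if_neg (fun h => hx h.1)]
    unfold vec
    rw [Function.update_of_ne hx]

theorem Ea_flip (h : Sys l o j S Φ)
    (hz : ∀ δ W, Lab l δ W → (∃ b, ∀ a ε, δ a ≠ .inr (b, ε)) → Φ δ = 0) (H : Finset (Fin n))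
    (δ : Pat A (Fin D)) (W : Fin D → L) (hW : Lab l δ W)
    (hH : ∀ a ∈ H, ∃ b ε, δ a = .inr (b, ε)) (b : Fin D) (hb : fib δ b ⊆ H)
    (hc : (fib δ b).card = 2) (a : Fin n) (ε : ℤˣ) (ha : δ a = .inr (b, ε)) :
    Ea o Φ H (Function.update δ a (.inr (b, -ε))) = - Ea o Φ H δ := by
  have hW' : Lab l (Function.update δ a (.inr (b, -ε))) W := by
    intro x c η hx
    by_cases hxa : x = a
    · subst hxa
      rw [Function.update_self] at hx
      have h1 : b = c := congrArg Prod.fst (Sum.inr.inj hx)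
      rw [← h1]
      exact hW _ _ _ ha
    · rw [Function.update_of_ne hxa] at hx
      exact hW _ _ _ hx
  have hH' : ∀ x ∈ H, ∃ c η, (Function.update δ a (.inr (b, -ε))) x = .inr (c, η) := by
    intro x hx
    by_cases hxa : x = a
    · subst hxa
      exact ⟨b, -ε, Function.update_self _ _ _⟩
    · obtain ⟨c, η, h1⟩ := hH x hx
      exact ⟨c, η, by rw [Function.update_of_ne hxa, h1]⟩
  have hfib : fib (Function.update δ a (.inr (b, -ε))) b = fib δ b := by
    ext x
    unfold fib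
    rw [Finset.mem_filter, Finset.mem_filter]
    by_cases hxa : x = a
    · subst hxa
      rw [Function.update_self]
      constructor
      · intro _
        exact ⟨Finset.mem_univ _, ε, ha⟩
      · intro _
        exact ⟨Finset.mem_univ _, -ε, rfl⟩
    · rw [Function.update_of_ne hxa]
  have hpts : pts o (Function.update δ a (.inr (b, -ε))) = pts o δ := by
    funext x
    unfold pts
    by_cases hxa : x = a
    · subst hxa
      rw [Function.update_self, ha]
    · rw [Function.update_of_ne hxa]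
  rw [Ea_expand h hz H _ W hW' hH', Ea_expand h hz H δ W hW hH, hpts, ← Finset.sum_neg_distrib]
  refine Finset.sum_congr rfl fun τ hτ => ?_
  have hτ' := (Finset.mem_filter.1 hτ).2
  rw [← neg_smul]
  congr 1
  by_cases hcb : τ b = fib δ b
  · have haf : a ∈ τ b := by
      rw [hcb]
      exact Finset.mem_filter.2 ⟨Finset.mem_univ _, ε, ha⟩
    rw [← Finset.mul_prod_erase Finset.univ _ (Finset.mem_univ b),
      ← Finset.mul_prod_erase Finset.univ (fun e => cf (τ e) (vec δ e)) (Finset.mem_univ b),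
      ← neg_mul]
    congr 1
    · have hc2 : (τ b).card = 2 := by rw [hcb]; exact hc
      have hc1 : (τ b).card ≠ 1 := by omega
      unfold cf
      rw [if_neg hc1, if_pos hc2, if_neg hc1, if_pos hc2, ← Finset.mul_prod_erase _ _ haf,
        ← Finset.mul_prod_erase _ (fun x => vec δ b x) haf, ← neg_mul]
      congr 1
      · rw [K4_flip_vec δ b a ε ha, if_pos ⟨rfl, rfl⟩]
      · refine Finset.prod_congr rfl fun x hx => ?_
        rw [K4_flip_vec δ b a ε ha, if_neg]
        exact fun h' => (Finset.mem_erase.1 hx).1 h'.1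
    · refine Finset.prod_congr rfl fun e he => ?_
      have heb : e ≠ b := (Finset.mem_erase.1 he).1
      have h1 : vec (Function.update δ a (.inr (b, -ε))) e = vec δ e := by
        funext x
        rw [K4_flip_vec δ b a ε ha, if_neg]
        exact fun h' => heb h'.2
      rw [h1]
  · have h1 : ∏ e, cf (τ e) (vec δ e) = 0 := by
      by_contra h0
      exact hcb (K4_tau H δ b hb τ hτ' h0).1
    have h2 : ∏ e, cf (τ e) (vec (Function.update δ a (.inr (b, -ε))) e) = 0 := by
      by_contra h0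
      have h3 := (K4_tau H _ b (by rw [hfib]; exact hb) τ hτ' h0).1
      rw [hfib] at h3
      exact hcb h3
    rw [h1, h2, neg_zero]

theorem Ea_card (h : Sys l o j S Φ)
    (hz : ∀ δ W, Lab l δ W → (∃ b, ∀ a ε, δ a ≠ .inr (b, ε)) → Φ δ = 0) (H : Finset (Fin n))
    (δ : Pat A (Fin D)) (W : Fin D → L) (hW : Lab l δ W) (B : Finset (Fin D))
    (hH : ∀ a ∈ H, ∃ b ∈ B, ∃ ε, δ a = .inr (b, ε)) (hb : ∀ b ∈ B, fib δ b ⊆ H)
    (hc : 2 * B.card < H.card) : Ea o Φ H δ = 0 := by
  have h1 : ∃ b ∈ B, 2 < (fib δ b).card := by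
    by_contra hno
    push Not at hno
    have h2 : H ⊆ B.biUnion fun b => fib δ b := by
      intro a ha
      obtain ⟨b, hbB, ε, hε⟩ := hH a ha
      exact Finset.mem_biUnion.2 ⟨b, hbB, Finset.mem_filter.2 ⟨Finset.mem_univ _, ε, hε⟩⟩
    have h3 := (Finset.card_le_card h2).trans Finset.card_biUnion_le
    have h4 := Finset.sum_le_card_nsmul B (fun b => (fib δ b).card) 2 hno
    rw [smul_eq_mul] at h4
    omega
  obtain ⟨b, hbB, h2⟩ := h1
  refine Ea_big h hz H δ W hW (fun a ha => ?_) b (hb b hbB) ⟨by omega, by omega⟩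
  obtain ⟨c, _, ε, hε⟩ := hH a ha
  exact ⟨c, ε, hε⟩

end Pool.Agent.LibHE77
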