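import Pool.Agent.LibHE77.K4

/-!
[HE77 K5] the sums over the assignments of letters, first part. `Omf`: all letters are free points. Proof of `Om_free`: let `ω ∈ Om σ a₁`. If some `ω a = some none` (infinity): `Ea = 0` by `Ea_o`. If two different coordinates have fixed letters `(.inr c, η)`: `Ea = 0` by `Ea_two` (field `cS`). If
exactly one coordinate `a` has a fixed letter and no letter is infinity: `σ a = a` (as `ω (σ a) = ω a`), changing the sign `η` of this letter is an involution without fixed points of the set of these `ω`, and `Ea_neg` with the field `cj`: these cancel (`Finset.sum_involution`).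
`Om_big`: after `Om_free`, `Ea_card` with `B = ` the image of `Fin.natAdd D`, labels `W = Fin.append V (fun _ => lam)`. `Om_not`: `ω ∈ Omf` with `Ea ≠ 0`: by `Ea_big` the `fib (pw ..) (Fin.natAdd D i)` have one or two elements; they are disjoint with union `H`, so all have two elements. If `σ a₀ = a₀`: if `ω a₀ = none`
then `a₁ = a₀` and the fibre of the last point is `{a₀}`: `Ea = 0`; on the others changing the sign of `ω a₀` is an involution without fixed points (it remains invariant), `Ea` changes the sign (`Ea_flip`) or is zero for both. If `σ` has no fixed point and `σ (σ a) ≠ a` then the fibre of the letter of `a` contains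
`a, σ a, σ (σ a)`: `Ea = 0` (`Ea_big`).
-/

open scoped Classical

namespace Pool.Agent.LibHE77

open Pool.Agent.LibHD77.Comb (Pat sub Cmp Sys Gt Dj pts pat cf vec ind enm)

variable {n : ℕ} {A : Fin n → Type} {L G : Type} [AddCommGroup G] {J : Fin n → Type}
  [∀ a, AddCommGroup (J a)]
  {D r κ : ℕ} {l : Fin n → L} {o : ∀ a, A a} {j : ∀ a, A a → J a} {S : ∀ a, Set (A a)}
  {V : Fin D → L} {lam : L} {cs : Fin κ → ℤˣ → ∀ a, A a} {Φ : Pat A (Fin (D + (r + 1))) → G}
  {Ψ : Pat A (Fin D ⊕ Fin (NN r κ)) → G}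

/-- the assignments of letters for which all letters are free points -/
noncomputable def Omf {r κ : ℕ} {H : Finset (Fin n)} (σ : Equiv.Perm H) (a₁ : H) :
    Finset (H → Option (Lt r κ)) :=
  (Om σ a₁).filter fun ω => ∀ a, ω a = none ∨ ∃ i η, ω a = some (some (.inl i, η))

/-- the free point of a letter -/
def K5_pt {r κ : ℕ} : Option (Lt r κ) → Fin (r + 1)
  | some (some (.inl i, _)) => i.castSucc
  | _ => Fin.last r

/-- the sign of a letter -/
def K5_sg {r κ : ℕ} : Option (Lt r κ) → ℤˣ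
  | some (some (.inl _, η)) => η
  | _ => 1

theorem K5_mem_Om {H : Finset (Fin n)} {σ : Equiv.Perm H} {a₁ : H} {ω : H → Option (Lt r κ)} :
    ω ∈ Om σ a₁ ↔ (∀ a, ω (σ a) = ω a) ∧ ∀ a, ω a = none ↔ σ.SameCycle a₁ a := by
  unfold Om
  rw [Finset.mem_filter]
  constructor
  · rintro ⟨_, h1, h2⟩
    exact ⟨fun a => congrFun h1 a, h2⟩
  · rintro ⟨h1, h2⟩
    exact ⟨Finset.mem_univ _, funext h1, h2⟩

theorem K5_mem_Omf {H : Finset (Fin n)} {σ : Equiv.Perm H} {a₁ : H} {ω : H → Option (Lt r κ)} :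
    ω ∈ Omf σ a₁ ↔ ((∀ a, ω (σ a) = ω a) ∧ ∀ a, ω a = none ↔ σ.SameCycle a₁ a) ∧
      ∀ a, ω a = none ∨ ∃ i η, ω a = some (some (.inl i, η)) := by
  unfold Omf
  rw [Finset.mem_filter, K5_mem_Om]

theorem K5_pw_none {H : Finset (Fin n)} {δ : Pat A (Fin D)} {ω : H → Option (Lt r κ)} {a : Fin n}
    (ha : a ∈ H) (hω : ω ⟨a, ha⟩ = none) :
    pw o cs H δ ω a = .inr (Fin.natAdd D (Fin.last r), 1) := by
  unfold pw
  rw [dif_pos ha, hω]

theorem K5_pw_some {H : Finset (Fin n)} {δ : Pat A (Fin D)} {ω : H → Option (Lt r κ)} {a : Fin n}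
    (ha : a ∈ H) {z : Lt r κ} (hω : ω ⟨a, ha⟩ = some z) :
    pw o cs H δ ω a = lt D o cs a 1 z := by
  unfold pw
  rw [dif_pos ha, hω]

theorem K5_pw_congr {H : Finset (Fin n)} {δ : Pat A (Fin D)} {ω ω' : H → Option (Lt r κ)} {a : Fin n}
    (h : ∀ ha : a ∈ H, ω ⟨a, ha⟩ = ω' ⟨a, ha⟩) : pw o cs H δ ω a = pw o cs H δ ω' a := by
  unfold pw
  by_cases ha : a ∈ H
  · rw [dif_pos ha, dif_pos ha, h ha]
  · rw [dif_neg ha, dif_neg ha]

theorem K5_pw_not {H : Finset (Fin n)} {δ : Pat A (Fin D)} {ω : H → Option (Lt r κ)} {a : Fin n}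
    (ha : a ∉ H) : pw o cs H δ ω a = match δ a with
      | .inl s => .inl s
      | .inr q => .inr (Fin.castAdd (r + 1) q.1, q.2) := by
  unfold pw
  rw [dif_neg ha]
  rcases δ a with s | q <;> rfl

/-- the coordinates in `H` with a point have a point in the image of `Fin.natAdd D` -/
theorem K5_pw_H {H : Finset (Fin n)} {δ : Pat A (Fin D)} {ω : H → Option (Lt r κ)} {a : Fin n}
    (ha : a ∈ H) {b : Fin (D + (r + 1))} {ε : ℤˣ} (h : pw o cs H δ ω a = .inr (b, ε)) :
    ∃ i, b = Fin.natAdd D i := by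
  rcases h1 : ω ⟨a, ha⟩ with _ | _ | ⟨i | c, η⟩
  · rw [K5_pw_none ha h1] at h
    exact ⟨Fin.last r, by
      have := Sum.inr.inj h
      exact (congrArg Prod.fst this).symm⟩
  · rw [K5_pw_some ha h1] at h
    exact absurd h (by simp [lt])
  · rw [K5_pw_some ha h1] at h
    exact ⟨i.castSucc, by
      have := Sum.inr.inj h
      exact (congrArg Prod.fst this).symm⟩
  · rw [K5_pw_some ha h1] at h
    exact absurd h (by simp [lt])

theorem K5_pw_nH {H : Finset (Fin n)} {δ : Pat A (Fin D)} {ω : H → Option (Lt r κ)} {a : Fin n}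
    (ha : a ∉ H) {b : Fin (D + (r + 1))} {ε : ℤˣ} (h : pw o cs H δ ω a = .inr (b, ε)) :
    ∃ e, b = Fin.castAdd (r + 1) e ∧ δ a = .inr (e, ε) := by
  rw [K5_pw_not ha] at h
  rcases h1 : δ a with s | q
  · rw [h1] at h
    exact absurd h (by simp)
  · rw [h1] at h
    have h2 := Sum.inr.inj h
    have h3 := congrArg Prod.fst h2
    have h4 := congrArg Prod.snd h2
    simp only at h3 h4
    exact ⟨q.1, h3.symm, by rw [← h4]⟩

theorem K5_lab {H : Finset (Fin n)} {δ : Pat A (Fin D)} (ω : H → Option (Lt r κ))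
    (hH : ∀ a ∈ H, l a = lam) (hδ : ∀ a e ε, a ∉ H → δ a = .inr (e, ε) → V e = l a) :
    Lab l (pw o cs H δ ω) (Fin.append V fun _ => lam) := by
  intro a b ε h
  by_cases ha : a ∈ H
  · obtain ⟨i, rfl⟩ := K5_pw_H ha h
    rw [Fin.append_right, hH a ha]
  · obtain ⟨e, rfl, he⟩ := K5_pw_nH ha h
    rw [Fin.append_left]
    exact hδ a e ε ha he

theorem K5_fib_sub {H : Finset (Fin n)} {δ : Pat A (Fin D)} (ω : H → Option (Lt r κ))
    (i : Fin (r + 1)) : fib (pw o cs H δ ω) (Fin.natAdd D i) ⊆ H := by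
  intro a ha
  unfold fib at ha
  obtain ⟨_, ε, h⟩ := Finset.mem_filter.1 ha
  by_contra hn
  obtain ⟨e, he, _⟩ := K5_pw_nH hn h
  have h1 := congrArg Fin.val he
  rw [Fin.val_natAdd, Fin.val_castAdd] at h1
  have := e.2
  omega

theorem K5_pw_free {H : Finset (Fin n)} {δ : Pat A (Fin D)} {ω : H → Option (Lt r κ)} (a : H)
    (hω : ω a = none ∨ ∃ i η, ω a = some (some (.inl i, η))) :
    pw o cs H δ ω a = .inr (Fin.natAdd D (K5_pt (ω a)), K5_sg (ω a)) := by
  rcases hω with h | ⟨i, η, h⟩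
  · rw [K5_pw_none a.2 h, h]
    rfl
  · rw [K5_pw_some a.2 h, h]
    simp only [lt, K5_pt, K5_sg, mul_one]

theorem K5_mem_fib {H : Finset (Fin n)} {δ : Pat A (Fin D)} {ω : H → Option (Lt r κ)}
    (hω : ∀ a, ω a = none ∨ ∃ i η, ω a = some (some (.inl i, η))) (i : Fin (r + 1)) (a : H) :
    (a : Fin n) ∈ fib (pw o cs H δ ω) (Fin.natAdd D i) ↔ K5_pt (ω a) = i := by
  unfold fib
  rw [Finset.mem_filter, K5_pw_free a (hω a)]
  constructor
  · rintro ⟨_, ε, h⟩
    have h1 := congrArg Prod.fst (Sum.inr.inj h)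
    exact Fin.natAdd_injective _ _ h1
  · intro h
    exact ⟨Finset.mem_univ _, K5_sg (ω a), by rw [h]⟩

theorem K5_fib_card {H : Finset (Fin n)} {δ : Pat A (Fin D)} {ω : H → Option (Lt r κ)}
    (hω : ∀ a, ω a = none ∨ ∃ i η, ω a = some (some (.inl i, η))) (i : Fin (r + 1)) :
    (fib (pw o cs H δ ω) (Fin.natAdd D i)).card =
      (Finset.univ.filter fun a : H => K5_pt (ω a) = i).card := by
  rw [← Finset.card_map (Function.Embedding.subtype _)]
  congr 1
  ext a
  rw [Finset.mem_map]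
  constructor
  · intro h
    have ha := K5_fib_sub ω i h
    exact ⟨⟨a, ha⟩, Finset.mem_filter.2 ⟨Finset.mem_univ _, (K5_mem_fib hω i ⟨a, ha⟩).1 h⟩, rfl⟩
  · rintro ⟨b, hb, rfl⟩
    exact (K5_mem_fib hω i b).2 (Finset.mem_filter.1 hb).2

theorem K5_fib_sum {H : Finset (Fin n)} {δ : Pat A (Fin D)} {ω : H → Option (Lt r κ)}
    (hω : ∀ a, ω a = none ∨ ∃ i η, ω a = some (some (.inl i, η))) :
    ∑ i : Fin (r + 1), (fib (pw o cs H δ ω) (Fin.natAdd D i)).card = H.card := by
  simp_rw [K5_fib_card hω]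
  have h := Finset.card_eq_sum_card_fiberwise (s := (Finset.univ : Finset H))
    (t := (Finset.univ : Finset (Fin (r + 1)))) (f := fun a : H => K5_pt (ω a))
    (fun _ _ => Finset.mem_coe.2 (Finset.mem_univ _))
  rw [← h, Finset.card_univ, Fintype.card_coe]

theorem K5_two (h : Sys l o j S Φ) (hr : RSys l o j S V lam cs Φ Ψ) {H : Finset (Fin n)}
    {δ : Pat A (Fin D)} (hH : ∀ a ∈ H, l a = lam)
    (hδ : ∀ a e ε, a ∉ H → δ a = .inr (e, ε) → V e = l a) (hc : H.card = 2 * (r + 1))
    {ω : H → Option (Lt r κ)} (hω : ∀ a, ω a = none ∨ ∃ i η, ω a = some (some (.inl i, η)))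
    (hE : Ea o Φ H (pw o cs H δ ω) ≠ 0) (i : Fin (r + 1)) :
    (fib (pw o cs H δ ω) (Fin.natAdd D i)).card = 2 := by
  have hle : ∀ i ∈ (Finset.univ : Finset (Fin (r + 1))),
      (fib (pw o cs H δ ω) (Fin.natAdd D i)).card ≤ 2 := by
    intro i _
    by_contra hcon
    apply hE
    refine Ea_big h hr.zero H _ _ (K5_lab ω hH hδ) (fun a ha => ?_) (Fin.natAdd D i)
      (K5_fib_sub ω i) ⟨by omega, by omega⟩
    exact ⟨_, _, K5_pw_free ⟨a, ha⟩ (hω ⟨a, ha⟩)⟩
  have hsum : ∑ i : Fin (r + 1), (fib (pw o cs H δ ω) (Fin.natAdd D i)).card =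
      ∑ _i : Fin (r + 1), 2 := by
    rw [K5_fib_sum hω, hc, Finset.sum_const, Finset.card_univ, Fintype.card_fin, smul_eq_mul]
    ring
  exact (Finset.sum_eq_sum_iff_of_le hle).1 hsum i (Finset.mem_univ i)

/-- change the signs of the fixed letters -/
def K5_fl {r κ : ℕ} : Option (Lt r κ) → Option (Lt r κ)
  | some (some (.inr c, η)) => some (some (.inr c, -η))
  | x => x

theorem K5_fl_fl {r κ : ℕ} (x : Option (Lt r κ)) : K5_fl (K5_fl x) = x := by
  rcases x with _ | _ | ⟨i | c, η⟩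
  · rfl
  · rfl
  · rfl
  · simp [K5_fl]

theorem K5_fl_none {r κ : ℕ} (x : Option (Lt r κ)) : K5_fl x = none ↔ x = none := by
  rcases x with _ | _ | ⟨i | c, η⟩ <;> simp [K5_fl]

theorem K5_fl_free {r κ : ℕ} (x : Option (Lt r κ)) :
    (K5_fl x = none ∨ ∃ i η, K5_fl x = some (some (.inl i, η))) ↔
      (x = none ∨ ∃ i η, x = some (some (.inl i, η))) := by
  rcases x with _ | _ | ⟨i | c, η⟩ <;> simp [K5_fl]

theorem K5_upd {B : Type} {δ : Pat A B} {a : Fin n} {x : A a ⊕ (B × ℤˣ)} (h : δ a = x) :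
    δ = Function.update δ a x := by
  rw [← h, Function.update_eq_self]

theorem K5_inf {H : Finset (Fin n)} {δ : Pat A (Fin D)} {ω : H → Option (Lt r κ)} (a : H)
    (h : ω a = some none) : Ea o Φ H (pw o cs H δ ω) = 0 :=
  Ea_o Φ H a a.2 _ (K5_pw_some a.2 h)

theorem K5_twof (h : Sys l o j S Φ) (hr : RSys l o j S V lam cs Φ Ψ) {H : Finset (Fin n)}
    {δ : Pat A (Fin D)} (hH : ∀ a ∈ H, l a = lam) {ω : H → Option (Lt r κ)} (a b : H) (hab : a ≠ b)
    {c c' : Fin κ} {η η' : ℤˣ} (ha : ω a = some (some (.inr c, η)))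
    (hb : ω b = some (some (.inr c', η'))) : Ea o Φ H (pw o cs H δ ω) = 0 := by
  have h1 : pw o cs H δ ω a = .inl (cs c (η * 1) a) := K5_pw_some a.2 ha
  have h2 : pw o cs H δ ω b = .inl (cs c' (η' * 1) b) := K5_pw_some b.2 hb
  have h3 := K5_upd h1
  have h4 := K5_upd h2
  rw [h4, h3]
  exact Ea_two h H a b a.2 b.2 (fun e => hab (Subtype.ext e)) _ _ _
    (hr.cS _ _ _ (hH a a.2)) (hr.cS _ _ _ (hH b b.2))

theorem Om_free (h : Sys l o j S Φ) (hr : RSys l o j S V lam cs Φ Ψ) (H : Finset (Fin n))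
    (δ : Pat A (Fin D)) (hH : ∀ a ∈ H, l a = lam) (σ : Equiv.Perm H) (a₁ : H) :
    ∑ ω ∈ Om σ a₁, Ea o Φ H (pw o cs H δ ω) = ∑ ω ∈ Omf σ a₁, Ea o Φ H (pw o cs H δ ω) := by
  rw [← Finset.sum_filter_add_sum_filter_not (Om σ a₁)
    (fun ω : H → Option (Lt r κ) => ∀ a, ω a = none ∨ ∃ i η, ω a = some (some (.inl i, η)))]
  have hzero : ∑ ω ∈ (Om σ a₁).filter
      (fun ω : H → Option (Lt r κ) => ¬ ∀ a, ω a = none ∨ ∃ i η, ω a = some (some (.inl i, η))),
      Ea o Φ H (pw o cs H δ ω) = 0 := by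
    refine Finset.sum_involution (fun ω _ => fun a => K5_fl (ω a)) ?_ ?_ ?_ ?_
    · intro ω hω
      obtain ⟨hω1, hω2⟩ := Finset.mem_filter.1 hω
      by_cases hinf : ∃ a, ω a = some none
      · obtain ⟨a, ha⟩ := hinf
        rw [K5_inf a ha, K5_inf (ω := fun a => K5_fl (ω a)) a (by rw [ha]; rfl), add_zero]
      · push Not at hω2
        obtain ⟨a, ha1, ha2⟩ := hω2
        obtain ⟨c, η, hac⟩ : ∃ c η, ω a = some (some (.inr c, η)) := by
          rcases hx : ω a with _ | _ | ⟨i | c, η⟩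
          · exact absurd hx ha1
          · exact absurd ⟨a, hx⟩ hinf
          · exact absurd hx (ha2 i η)
          · exact ⟨c, η, rfl⟩
        by_cases htwo : ∃ b, b ≠ a ∧ ∃ c' η', ω b = some (some (.inr c', η'))
        · obtain ⟨b, hba, c', η', hb⟩ := htwo
          rw [K5_twof h hr hH a b hba.symm hac hb,
            K5_twof h hr hH (ω := fun a => K5_fl (ω a)) a b hba.symm (c := c) (η := -η)
              (by rw [hac]; rfl) (c' := c') (η' := -η') (by rw [hb]; rfl), add_zero]
        · push Not at htwo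
          have h1 : pw o cs H δ ω a = .inl (cs c (η * 1) a) := K5_pw_some a.2 hac
          have h3 := K5_upd h1
          have h4 : pw o cs H δ (fun a => K5_fl (ω a)) =
              Function.update (pw o cs H δ ω) (a : Fin n) (.inl (cs c (-(η * 1)) a)) := by
            funext b
            by_cases hb : b = (a : Fin n)
            · subst hb
              rw [Function.update_self]
              rw [K5_pw_some (z := some (.inr c, -η)) a.2 (by
                show K5_fl (ω a) = _
                rw [hac]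
                rfl)]
              show Sum.inl (cs c (-η * 1) a) = _
              rw [neg_mul]
            · rw [Function.update_of_ne hb]
              apply K5_pw_congr
              intro hbH
              have h5 : (⟨b, hbH⟩ : H) ≠ a := fun e => hb (congrArg Subtype.val e)
              have h6 := htwo ⟨b, hbH⟩ h5
              rcases hx : ω ⟨b, hbH⟩ with _ | _ | ⟨i | c', η'⟩
              · rfl
              · rfl
              · rfl
              · exact absurd hx (h6 c' η')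
          rw [h4]
          conv_lhs =>
            arg 1
            rw [h3]
          exact Ea_neg h H a a.2 _ _ _ (hr.cj c (η * 1) a (hH a a.2))
    · intro ω hω hne heq
      obtain ⟨hω1, hω2⟩ := Finset.mem_filter.1 hω
      push Not at hω2
      obtain ⟨a, ha1, ha2⟩ := hω2
      rcases hx : ω a with _ | _ | ⟨i | c, η⟩
      · exact ha1 hx
      · exact hne (K5_inf a hx)
      · exact ha2 i η hx
      · have h1 := congrFun heq a
        simp only [hx, K5_fl] at h1
        have h2 := congrArg Prod.snd (Option.some.inj (Option.some.inj h1))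
        simp only at h2
        exact units_ne_neg_self η h2.symm
    · intro ω hω
      obtain ⟨hω1, hω2⟩ := Finset.mem_filter.1 hω
      rw [Finset.mem_filter, K5_mem_Om]
      rw [K5_mem_Om] at hω1
      refine ⟨⟨fun a => by rw [hω1.1 a], fun a => by rw [K5_fl_none, hω1.2 a]⟩, fun hall => hω2 ?_⟩
      intro a
      exact (K5_fl_free (ω a)).1 (hall a)
    · intro ω _
      funext a
      exact K5_fl_fl (ω a)
  rw [hzero, add_zero]
  rfl

theorem Om_big (h : Sys l o j S Φ) (hr : RSys l o j S V lam cs Φ Ψ) (H : Finset (Fin n))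
    (δ : Pat A (Fin D)) (hH : ∀ a ∈ H, l a = lam)
    (hδ : ∀ a e ε, a ∉ H → δ a = .inr (e, ε) → V e = l a) (hc : 2 * (r + 1) < H.card)
    (σ : Equiv.Perm H) (a₁ : H) : ∑ ω ∈ Om σ a₁, Ea o Φ H (pw o cs H δ ω) = 0 := by
  rw [Om_free h hr H δ hH σ a₁]
  apply Finset.sum_eq_zero
  intro ω hω
  rw [K5_mem_Omf] at hω
  refine Ea_card h hr.zero H _ _ (K5_lab ω hH hδ)
    ((Finset.univ : Finset (Fin (r + 1))).image (Fin.natAdd D)) (fun a ha => ?_) (fun b hb => ?_) ?_
  · exact ⟨_, Finset.mem_image_of_mem _ (Finset.mem_univ _), _, K5_pw_free ⟨a, ha⟩ (hω.2 ⟨a, ha⟩)⟩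
  · obtain ⟨i, _, rfl⟩ := Finset.mem_image.1 hb
    exact K5_fib_sub ω i
  · refine lt_of_le_of_lt (Nat.mul_le_mul_left 2 Finset.card_image_le) ?_
    rw [Finset.card_univ, Fintype.card_fin]
    exact hc

/-- change the sign of a free point -/
def K5_fr {r κ : ℕ} : Option (Lt r κ) → Option (Lt r κ)
  | some (some (.inl i, η)) => some (some (.inl i, -η))
  | x => x

theorem K5_fr_fr {r κ : ℕ} (x : Option (Lt r κ)) : K5_fr (K5_fr x) = x := by
  rcases x with _ | _ | ⟨i | c, η⟩
  · rfl
  · rfl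
  · simp [K5_fr]
  · rfl

theorem K5_fr_none {r κ : ℕ} (x : Option (Lt r κ)) : K5_fr x = none ↔ x = none := by
  rcases x with _ | _ | ⟨i | c, η⟩ <;> simp [K5_fr]

theorem K5_fr_free {r κ : ℕ} (x : Option (Lt r κ)) :
    (K5_fr x = none ∨ ∃ i η, K5_fr x = some (some (.inl i, η))) ↔
      (x = none ∨ ∃ i η, x = some (some (.inl i, η))) := by
  rcases x with _ | _ | ⟨i | c, η⟩ <;> simp [K5_fr]

/-- changing the sign at a coordinate, if `Ea` is not zero -/
theorem K5_flip (h : Sys l o j S Φ) (hr : RSys l o j S V lam cs Φ Ψ) {H : Finset (Fin n)}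
    {δ : Pat A (Fin D)} (hH : ∀ a ∈ H, l a = lam)
    (hδ : ∀ a e ε, a ∉ H → δ a = .inr (e, ε) → V e = l a) (hc : H.card = 2 * (r + 1))
    {ω : H → Option (Lt r κ)} (hω : ∀ a, ω a = none ∨ ∃ i η, ω a = some (some (.inl i, η)))
    (hE : Ea o Φ H (pw o cs H δ ω) ≠ 0) (a : H) (ha : ω a ≠ none) :
    Ea o Φ H (pw o cs H δ (Function.update ω a (K5_fr (ω a)))) = - Ea o Φ H (pw o cs H δ ω) := by
  rcases hω a with h0 | ⟨i, η, h0⟩
  · exact absurd h0 ha
  · have h1 : pw o cs H δ ω a = .inr (Fin.natAdd D i.castSucc, η * 1) := K5_pw_some a.2 h0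
    have h2 : pw o cs H δ (Function.update ω a (K5_fr (ω a))) =
        Function.update (pw o cs H δ ω) (a : Fin n) (.inr (Fin.natAdd D i.castSucc, -(η * 1))) := by
      funext b
      by_cases hb : b = (a : Fin n)
      · subst hb
        rw [Function.update_self, K5_pw_some (z := some (.inl i, -η)) a.2 (by
          show Function.update ω a (K5_fr (ω a)) a = _
          rw [Function.update_self, h0]
          rfl)]
        show Sum.inr (Fin.natAdd D i.castSucc, -η * 1) = _
        rw [neg_mul]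
      · rw [Function.update_of_ne hb]
        apply K5_pw_congr
        intro hbH
        rw [Function.update_of_ne]
        exact fun e => hb (congrArg Subtype.val e)
    rw [h2]
    exact Ea_flip h hr.zero H _ _ (K5_lab ω hH hδ)
      (fun b hb => ⟨_, _, K5_pw_free ⟨b, hb⟩ (hω ⟨b, hb⟩)⟩) _ (K5_fib_sub ω _)
      (K5_two h hr hH hδ hc hω hE _) a _ h1

theorem K5_upd_free {H : Finset (Fin n)} {ω : H → Option (Lt r κ)}
    (hω : ∀ a, ω a = none ∨ ∃ i η, ω a = some (some (.inl i, η))) (a : H) (b : H) :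
    Function.update ω a (K5_fr (ω a)) b = none ∨
      ∃ i η, Function.update ω a (K5_fr (ω a)) b = some (some (.inl i, η)) := by
  by_cases hb : b = a
  · rw [hb, Function.update_self]
    exact (K5_fr_free (ω a)).2 (hω a)
  · rw [Function.update_of_ne hb]
    exact hω b

theorem K5_upd_upd {H : Finset (Fin n)} {ω : H → Option (Lt r κ)} (a : H) :
    Function.update (Function.update ω a (K5_fr (ω a))) a
      (K5_fr (Function.update ω a (K5_fr (ω a)) a)) = ω := by
  rw [Function.update_self, K5_fr_fr, Function.update_idem, Function.update_eq_self]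

theorem Om_not (h : Sys l o j S Φ) (hr : RSys l o j S V lam cs Φ Ψ) (H : Finset (Fin n))
    (δ : Pat A (Fin D)) (hH : ∀ a ∈ H, l a = lam)
    (hδ : ∀ a e ε, a ∉ H → δ a = .inr (e, ε) → V e = l a) (hc : H.card = 2 * (r + 1))
    (σ : Equiv.Perm H) (hσ : ¬ ∀ a, σ (σ a) = a ∧ σ a ≠ a) (a₁ : H) :
    ∑ ω ∈ Om σ a₁, Ea o Φ H (pw o cs H δ ω) = 0 := by
  rw [Om_free h hr H δ hH σ a₁]
  by_cases hfix : ∃ a₀, σ a₀ = a₀
  · obtain ⟨a₀, ha₀⟩ := hfix
    have hnone : ∀ ω ∈ Omf σ a₁, ω a₀ = none → Ea o Φ H (pw o cs H δ ω) = 0 := by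
      intro ω hω h0
      rw [K5_mem_Omf] at hω
      by_contra hE
      have h2 := K5_two h hr hH hδ hc hω.2 hE (Fin.last r)
      rw [K5_fib_card hω.2] at h2
      have h3 : σ.SameCycle a₁ a₀ := (hω.1.2 a₀).1 h0
      have h4 : a₁ = a₀ := by
        obtain ⟨k, hk⟩ := h3.symm
        rw [← hk]
        exact (Equiv.Perm.zpow_apply_eq_self_of_apply_eq_self ha₀ k)
      have h5 : (Finset.univ.filter fun a : H => K5_pt (ω a) = Fin.last r) = {a₀} := by
        ext b
        rw [Finset.mem_filter, Finset.mem_singleton]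
        constructor
        · rintro ⟨_, hb⟩
          rcases hω.2 b with hb1 | ⟨i, η, hb1⟩
          · have h6 : σ.SameCycle a₁ b := (hω.1.2 b).1 hb1
            rw [h4] at h6
            obtain ⟨k, hk⟩ := h6
            rw [← hk]
            exact Equiv.Perm.zpow_apply_eq_self_of_apply_eq_self ha₀ k
          · rw [hb1] at hb
            exact absurd hb (Fin.castSucc_lt_last i).ne
        · rintro rfl
          exact ⟨Finset.mem_univ _, by rw [h0]; rfl⟩
      rw [h5, Finset.card_singleton] at h2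
      omega
    refine Finset.sum_involution (fun ω _ => Function.update ω a₀ (K5_fr (ω a₀))) ?_ ?_ ?_ ?_
    · intro ω hω
      have hω' := K5_mem_Omf.1 hω
      by_cases h0 : ω a₀ = none
      · have h1 : Function.update ω a₀ (K5_fr (ω a₀)) = ω := by
          rw [h0]
          show Function.update ω a₀ none = ω
          rw [← h0, Function.update_eq_self]
        rw [h1, hnone ω hω h0, add_zero]
      · by_cases hE : Ea o Φ H (pw o cs H δ ω) = 0
        · rw [hE, zero_add]
          by_contra hE2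
          have h2 := K5_flip h hr hH hδ hc (K5_upd_free hω'.2 a₀) hE2 a₀ (by
            rw [Function.update_self, ne_eq, K5_fr_none]
            exact h0)
          rw [K5_upd_upd, hE] at h2
          exact hE2 (neg_eq_zero.1 h2.symm)
        · rw [K5_flip h hr hH hδ hc hω'.2 hE a₀ h0, add_neg_cancel]
    · intro ω hω hE heq
      have hω' := K5_mem_Omf.1 hω
      rcases hω'.2 a₀ with h0 | ⟨i, η, h0⟩
      · exact hE (hnone ω hω h0)
      · have h1 := congrFun heq a₀
        rw [Function.update_self, h0] at h1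
        have h2 := congrArg Prod.snd (Option.some.inj (Option.some.inj h1))
        simp only at h2
        exact units_ne_neg_self η h2.symm
    · intro ω hω
      have hω' := K5_mem_Omf.1 hω
      rw [K5_mem_Omf]
      refine ⟨⟨fun a => ?_, fun a => ?_⟩, K5_upd_free hω'.2 a₀⟩
      · by_cases ha : a = a₀
        · rw [ha, ha₀]
        · rw [Function.update_of_ne ha, Function.update_of_ne (fun e => ha (σ.injective (e.trans ha₀.symm))),
            hω'.1.1 a]
      · by_cases ha : a = a₀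
        · rw [ha, Function.update_self, K5_fr_none, hω'.1.2 a₀]
        · rw [Function.update_of_ne ha, hω'.1.2 a]
    · intro ω _
      exact K5_upd_upd a₀
  · push Not at hfix
    have h1 : ∃ a₀, σ (σ a₀) ≠ a₀ := by
      by_contra hcon
      push Not at hcon
      exact hσ fun a => ⟨hcon a, hfix a⟩
    obtain ⟨a₀, ha₀⟩ := h1
    apply Finset.sum_eq_zero
    intro ω hω
    have hω' := K5_mem_Omf.1 hω
    by_contra hE
    have h2 := K5_two h hr hH hδ hc hω'.2 hE (K5_pt (ω a₀))
    rw [K5_fib_card hω'.2] at h2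
    have h3 : ({a₀, σ a₀, σ (σ a₀)} : Finset H) ⊆
        Finset.univ.filter fun a : H => K5_pt (ω a) = K5_pt (ω a₀) := by
      intro b hb
      rw [Finset.mem_filter]
      refine ⟨Finset.mem_univ _, ?_⟩
      simp only [Finset.mem_insert, Finset.mem_singleton] at hb
      rcases hb with rfl | rfl | rfl
      · rfl
      · rw [hω'.1.1]
      · rw [hω'.1.1, hω'.1.1]
    have h4 := Finset.card_le_card h3
    rw [h2, Finset.card_eq_three.2 ⟨a₀, σ a₀, σ (σ a₀), (hfix a₀).symm, ha₀.symm,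
      (hfix (σ a₀)).symm, rfl⟩] at h4
    omega

end Pool.Agent.LibHE77
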