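import Pool.Agent.LibHE77.K5

/-!
[HE77 K6] the sums over the assignments of letters, second part: `σ` is an involution without fixed points. By `Om_free` (K5) only `ω ∈ Omf σ a₁`, by `Ea_big` only those for which all `fib (pw o cs H δ ω) (Fin.natAdd D i)` have two elements (they are disjoint with union `H`, see K5); as they are invariant under `σ` they are the pairs
`τ i`, and `ω` is constant on the pairs (`ω (σ a) = ω a`: also the signs). So these `ω` correspond to the pairs of a permutation `π` of `Fin (r + 1)` with `π i₁ = Fin.last r` (`a₁ ∈ τ i₁`) and signs `Fin r → ℤˣ`: `ω a = ` the letter `π i` (`none` if it is the last) with its sign for `a ∈ τ i`, and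
`pw o cs H δ ω = sub o (..) (pm o H δ τ)` for the permutation of `Fin (D + (r + 1))` which is `π` on the last `r + 1` points: `Ea_perm`. The number of the `(π, signs)` does not depend on `i₁` (compose with a transposition), `H`, `σ`: `c = (number of π with π 0 = last) * 2 ^ r`.
-/

open scoped Classical

namespace Pool.Agent.LibHE77

open Pool.Agent.LibHD77.Comb (Pat sub Cmp Sys Gt Dj pts pat cf vec ind enm)

variable {n : ℕ} {A : Fin n → Type} {L G : Type} [AddCommGroup G] {J : Fin n → Type}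
  [∀ a, AddCommGroup (J a)]
  {D r κ : ℕ} {l : Fin n → L} {o : ∀ a, A a} {j : ∀ a, A a → J a} {S : ∀ a, Set (A a)}
  {V : Fin D → L} {lam : L} {cs : Fin κ → ℤˣ → ∀ a, A a} {Φ : Pat A (Fin (D + (r + 1))) → G}
  {Ψ : Pat A (Fin D ⊕ Fin (NN r κ)) → G}

/-- the letter of a free point and a sign -/
def K6_let {r κ : ℕ} (k : Fin (r + 1)) (s : ℤˣ) : Option (Lt r κ) :=
  if h : k.val < r then some (some (.inl ⟨k.val, h⟩, s)) else none

theorem K6_let_none {r κ : ℕ} (k : Fin (r + 1)) (s : ℤˣ) :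
    (K6_let k s : Option (Lt r κ)) = none ↔ k = Fin.last r := by
  unfold K6_let
  by_cases h : k.val < r
  · rw [dif_pos h]
    constructor
    · intro h1
      exact absurd h1 (by simp)
    · intro h1
      rw [h1] at h
      exact absurd h (lt_irrefl _)
  · rw [dif_neg h]
    constructor
    · intro _
      apply Fin.ext
      have := k.2
      rw [Fin.val_last]
      omega
    · intro _
      rfl

theorem K6_pt_let {r κ : ℕ} (k : Fin (r + 1)) (s : ℤˣ) :
    K5_pt (K6_let k s : Option (Lt r κ)) = k := by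
  by_cases h : k.val < r
  · unfold K6_let
    rw [dif_pos h]
    exact Fin.ext rfl
  · have h1 : k = Fin.last r := by
      apply Fin.ext
      have := k.2
      rw [Fin.val_last]
      omega
    rw [(K6_let_none k s).2 h1, h1]
    rfl

theorem K6_sg_let {r κ : ℕ} (k : Fin (r + 1)) (s : ℤˣ) (hk : k ≠ Fin.last r) :
    K5_sg (K6_let k s : Option (Lt r κ)) = s := by
  have h : k.val < r := by
    have h1 : k.val ≠ r := fun e => hk (Fin.ext e)
    have := k.2
    omega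
  unfold K6_let
  rw [dif_pos h]
  rfl

theorem K6_let_free {r κ : ℕ} (k : Fin (r + 1)) (s : ℤˣ) :
    (K6_let k s : Option (Lt r κ)) = none ∨ ∃ i η, (K6_let k s : Option (Lt r κ)) =
      some (some (.inl i, η)) := by
  unfold K6_let
  by_cases h : k.val < r
  · rw [dif_pos h]
    exact Or.inr ⟨_, _, rfl⟩
  · rw [dif_neg h]
    exact Or.inl rfl

theorem K6_let_pt {r κ : ℕ} (x : Option (Lt r κ)) (hx : x = none ∨ ∃ i η, x = some (some (.inl i, η))) :
    K6_let (K5_pt x) (K5_sg x) = x := by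
  rcases hx with rfl | ⟨i, η, rfl⟩
  · exact (K6_let_none _ _).2 rfl
  · unfold K6_let
    have h : (K5_pt (some (some ((.inl i : Fin r ⊕ Fin κ), η)) : Option (Lt r κ))).val < r := i.2
    rw [dif_pos h]
    rfl

/-- the pairs of a permutation and signs -/
noncomputable def K6_P (r : ℕ) (i : Fin (r + 1)) :
    Finset (Equiv.Perm (Fin (r + 1)) × (Fin (r + 1) → ℤˣ)) :=
  Finset.univ.filter fun x => x.1 i = Fin.last r ∧ x.2 i = 1

theorem K6_P_card (r : ℕ) (i : Fin (r + 1)) : (K6_P r i).card = (K6_P r 0).card := by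
  refine Finset.card_bij' (fun x _ => (x.1 * Equiv.swap 0 i, x.2 ∘ Equiv.swap 0 i))
    (fun x _ => (x.1 * Equiv.swap 0 i, x.2 ∘ Equiv.swap 0 i)) ?_ ?_ ?_ ?_
  · intro x hx
    unfold K6_P at hx ⊢
    rw [Finset.mem_filter] at hx ⊢
    refine ⟨Finset.mem_univ _, ?_, ?_⟩
    · rw [Equiv.Perm.mul_apply, Equiv.swap_apply_left]
      exact hx.2.1
    · show x.2 (Equiv.swap 0 i 0) = 1
      rw [Equiv.swap_apply_left]
      exact hx.2.2
  · intro x hx
    unfold K6_P at hx ⊢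
    rw [Finset.mem_filter] at hx ⊢
    refine ⟨Finset.mem_univ _, ?_, ?_⟩
    · rw [Equiv.Perm.mul_apply, Equiv.swap_apply_right]
      exact hx.2.1
    · show x.2 (Equiv.swap 0 i i) = 1
      rw [Equiv.swap_apply_right]
      exact hx.2.2
  · intro x _
    refine Prod.ext ?_ ?_
    · show x.1 * Equiv.swap 0 i * Equiv.swap 0 i = x.1
      rw [mul_assoc, Equiv.swap_mul_self, mul_one]
    · funext k
      show x.2 (Equiv.swap 0 i (Equiv.swap 0 i k)) = x.2 k
      rw [← Equiv.Perm.mul_apply, Equiv.swap_mul_self, Equiv.Perm.one_apply]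
  · intro x _
    refine Prod.ext ?_ ?_
    · show x.1 * Equiv.swap 0 i * Equiv.swap 0 i = x.1
      rw [mul_assoc, Equiv.swap_mul_self, mul_one]
    · funext k
      show x.2 (Equiv.swap 0 i (Equiv.swap 0 i k)) = x.2 k
      rw [← Equiv.Perm.mul_apply, Equiv.swap_mul_self, Equiv.Perm.one_apply]

theorem K6_P_pos (r : ℕ) : 0 < (K6_P r 0).card := by
  apply Finset.card_pos.2
  refine ⟨(Equiv.swap 0 (Fin.last r), fun _ => 1), ?_⟩
  unfold K6_P
  rw [Finset.mem_filter]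
  exact ⟨Finset.mem_univ _, Equiv.swap_apply_left _ _, rfl⟩

section pairs

variable {H : Finset (Fin n)} {σ : Equiv.Perm H}

theorem K6_cycle (hσ : ∀ a, σ (σ a) = a) (a b : H) : σ.SameCycle a b ↔ b = a ∨ b = σ a := by
  constructor
  · rintro ⟨k, rfl⟩
    have h2 : σ ^ 2 = 1 := by
      ext a
      rw [pow_two, Equiv.Perm.mul_apply, hσ]
      rfl
    have h3 : σ ^ (2 : ℤ) = 1 := by
      rw [show (2 : ℤ) = ((2 : ℕ) : ℤ) from rfl, zpow_natCast, h2]
    rcases Int.even_or_odd' k with ⟨m, hm | hm⟩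
    · left
      rw [hm, zpow_mul, h3, one_zpow]
      rfl
    · right
      rw [hm, zpow_add, zpow_mul, h3, one_zpow, one_mul, zpow_one]
  · rintro (rfl | rfl)
    · exact Equiv.Perm.SameCycle.refl _ _
    · exact ⟨1, by rw [zpow_one]⟩

theorem K6_pair {m : ℕ} {τ : Fin m → Finset (Fin n)} (hτ : Finset.univ.image τ = prs σ) (a : H) :
    ∃ i, τ i = {(a : Fin n), (σ a : Fin n)} := by
  have h1 : ({(a : Fin n), (σ a : Fin n)} : Finset (Fin n)) ∈ prs σ :=
    Finset.mem_image_of_mem _ (Finset.mem_univ a)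
  rw [← hτ] at h1
  obtain ⟨i, _, hi⟩ := Finset.mem_image.1 h1
  exact ⟨i, hi⟩

/-- the index of the pair of a coordinate -/
noncomputable def K6_ix {m : ℕ} {τ : Fin m → Finset (Fin n)} (hτ : Finset.univ.image τ = prs σ)
    (a : H) : Fin m := (K6_pair hτ a).choose

theorem K6_ix_spec {m : ℕ} {τ : Fin m → Finset (Fin n)} (hτ : Finset.univ.image τ = prs σ)
    (a : H) : τ (K6_ix hτ a) = {(a : Fin n), (σ a : Fin n)} := (K6_pair hτ a).choose_spec

theorem K6_surj {m : ℕ} {τ : Fin m → Finset (Fin n)} (hτ : Finset.univ.image τ = prs σ)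
    (i : Fin m) : ∃ a : H, τ i = {(a : Fin n), (σ a : Fin n)} := by
  have h1 : τ i ∈ prs σ := by
    rw [← hτ]
    exact Finset.mem_image_of_mem _ (Finset.mem_univ i)
  obtain ⟨a, _, ha⟩ := Finset.mem_image.1 h1
  exact ⟨a, ha.symm⟩

theorem K6_mem (hσ : ∀ a, σ (σ a) = a) {m : ℕ} {τ : Fin m → Finset (Fin n)}
    (hi : Function.Injective τ) (hτ : Finset.univ.image τ = prs σ) (a : H) (i : Fin m) :
    (a : Fin n) ∈ τ i ↔ K6_ix hτ a = i := by
  constructor
  · intro h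
    obtain ⟨b, hb⟩ := K6_surj hτ i
    apply hi
    rw [K6_ix_spec hτ a, hb]
    rw [hb, Finset.mem_insert, Finset.mem_singleton] at h
    rcases h with h | h
    · have h1 : a = b := Subtype.ext h
      rw [h1]
    · have h1 : a = σ b := Subtype.ext h
      rw [h1, hσ, Finset.pair_comm]
  · rintro rfl
    rw [K6_ix_spec hτ a]
    exact Finset.mem_insert_self _ _

theorem K6_ix_surj (hσ : ∀ a, σ (σ a) = a) {m : ℕ} {τ : Fin m → Finset (Fin n)}
    (hi : Function.Injective τ) (hτ : Finset.univ.image τ = prs σ) (i : Fin m) :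
    ∃ a : H, K6_ix hτ a = i := by
  obtain ⟨a, ha⟩ := K6_surj hτ i
  refine ⟨a, (K6_mem hσ hi hτ a i).1 ?_⟩
  rw [ha]
  exact Finset.mem_insert_self _ _

theorem K6_ix_eq (hσ : ∀ a, σ (σ a) = a) {m : ℕ} {τ : Fin m → Finset (Fin n)}
    (hi : Function.Injective τ) (hτ : Finset.univ.image τ = prs σ) (a b : H) :
    K6_ix hτ b = K6_ix hτ a ↔ b = a ∨ b = σ a := by
  rw [← K6_mem hσ hi hτ b (K6_ix hτ a), K6_ix_spec hτ a, Finset.mem_insert, Finset.mem_singleton]
  constructor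
  · rintro (h | h)
    · exact Or.inl (Subtype.ext h)
    · exact Or.inr (Subtype.ext h)
  · rintro (rfl | rfl)
    · exact Or.inl rfl
    · exact Or.inr rfl

end pairs

/-- the permutation of all points -/
noncomputable def K6_pi (D : ℕ) {r : ℕ} (π : Equiv.Perm (Fin (r + 1))) :
    Equiv.Perm (Fin (D + (r + 1))) :=
  (finSumFinEquiv.symm.trans (Equiv.sumCongr (Equiv.refl (Fin D)) π)).trans finSumFinEquiv

theorem K6_pi_cast (D : ℕ) {r : ℕ} (π : Equiv.Perm (Fin (r + 1))) (e : Fin D) :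
    K6_pi D π (Fin.castAdd (r + 1) e) = Fin.castAdd (r + 1) e := by
  simp [K6_pi]

theorem K6_pi_nat (D : ℕ) {r : ℕ} (π : Equiv.Perm (Fin (r + 1))) (i : Fin (r + 1)) :
    K6_pi D π (Fin.natAdd D i) = Fin.natAdd D (π i) := by
  simp [K6_pi]

/-- the assignment of a permutation and signs -/
noncomputable def K6_om {H : Finset (Fin n)} {σ : Equiv.Perm H} (κ : ℕ)
    {τ : Fin (r + 1) → Finset (Fin n)} (hτ : Finset.univ.image τ = prs σ)
    (x : Equiv.Perm (Fin (r + 1)) × (Fin (r + 1) → ℤˣ)) (a : H) : Option (Lt r κ) :=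
  K6_let (x.1 (K6_ix hτ a)) (x.2 (K6_ix hτ a))

theorem K6_pw {H : Finset (Fin n)} {σ : Equiv.Perm H} (hσ : ∀ a, σ (σ a) = a)
    {τ : Fin (r + 1) → Finset (Fin n)} (hi : Function.Injective τ)
    (hτ : Finset.univ.image τ = prs σ) (a₁ : H) (δ : Pat A (Fin D))
    (x : Equiv.Perm (Fin (r + 1)) × (Fin (r + 1) → ℤˣ)) (hx : x ∈ K6_P r (K6_ix hτ a₁)) :
    pw o cs H δ (K6_om κ hτ x) =
      sub o (fun b => some (K6_pi D x.1 b, Fin.append (fun _ => (1 : ℤˣ)) x.2 b)) (pm o H δ τ) := by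
  unfold K6_P at hx
  obtain ⟨_, hx1, hx2⟩ := Finset.mem_filter.1 hx
  funext a
  by_cases ha : a ∈ H
  · have h1 : ∃ i, a ∈ τ i := ⟨K6_ix hτ ⟨a, ha⟩, (K6_mem hσ hi hτ ⟨a, ha⟩ _).2 rfl⟩
    have h2 : h1.choose = K6_ix hτ ⟨a, ha⟩ := ((K6_mem hσ hi hτ ⟨a, ha⟩ _).1 h1.choose_spec).symm
    have h3 : pm o H δ τ a = .inr (Fin.natAdd D (K6_ix hτ ⟨a, ha⟩), 1) := by
      unfold pm
      rw [if_pos ha, dif_pos h1, h2]
    have h4 : sub o (fun b => some (K6_pi D x.1 b, Fin.append (fun _ => (1 : ℤˣ)) x.2 b))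
        (pm o H δ τ) a = .inr (Fin.natAdd D (x.1 (K6_ix hτ ⟨a, ha⟩)), x.2 (K6_ix hτ ⟨a, ha⟩)) := by
      unfold sub
      rw [h3]
      simp only [K6_pi_nat, Fin.append_right, mul_one]
    rw [h4, K5_pw_free (⟨a, ha⟩ : H) (K6_let_free _ _)]
    unfold K6_om
    rw [K6_pt_let]
    congr 2
    by_cases h5 : x.1 (K6_ix hτ ⟨a, ha⟩) = Fin.last r
    · have h6 : K6_ix hτ ⟨a, ha⟩ = K6_ix hτ a₁ := x.1.injective (h5.trans hx1.symm)
      rw [(K6_let_none _ _).2 h5, h6, hx2]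
      rfl
    · exact K6_sg_let _ _ h5
  · rw [K5_pw_not ha]
    unfold sub pm
    rw [if_neg ha]
    rcases δ a with s | q
    · rfl
    · simp only [K6_pi_cast, Fin.append_left, one_mul]

theorem K6_om_mem {H : Finset (Fin n)} {σ : Equiv.Perm H} (hσ : ∀ a, σ (σ a) = a)
    {τ : Fin (r + 1) → Finset (Fin n)} (hi : Function.Injective τ)
    (hτ : Finset.univ.image τ = prs σ) (a₁ : H)
    (x : Equiv.Perm (Fin (r + 1)) × (Fin (r + 1) → ℤˣ)) (hx : x ∈ K6_P r (K6_ix hτ a₁)) :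
    (K6_om κ hτ x) ∈ Omf (κ := κ) σ a₁ := by
  unfold K6_P at hx
  obtain ⟨_, hx1, hx2⟩ := Finset.mem_filter.1 hx
  rw [K5_mem_Omf]
  refine ⟨⟨fun a => ?_, fun a => ?_⟩, fun a => K6_let_free _ _⟩
  · unfold K6_om
    rw [(K6_ix_eq hσ hi hτ a (σ a)).2 (Or.inr rfl)]
  · unfold K6_om
    rw [K6_let_none, ← hx1, x.1.injective.eq_iff, K6_ix_eq hσ hi hτ, K6_cycle hσ]

theorem K6_om_inj {H : Finset (Fin n)} {σ : Equiv.Perm H} (hσ : ∀ a, σ (σ a) = a)
    {τ : Fin (r + 1) → Finset (Fin n)} (hi : Function.Injective τ)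
    (hτ : Finset.univ.image τ = prs σ) (a₁ : H)
    (x y : Equiv.Perm (Fin (r + 1)) × (Fin (r + 1) → ℤˣ)) (hx : x ∈ K6_P r (K6_ix hτ a₁))
    (hy : y ∈ K6_P r (K6_ix hτ a₁)) (hxy : K6_om κ hτ x = K6_om κ hτ y) : x = y := by
  unfold K6_P at hx hy
  obtain ⟨_, hx1, hx2⟩ := Finset.mem_filter.1 hx
  obtain ⟨_, hy1, hy2⟩ := Finset.mem_filter.1 hy
  have h1 : ∀ i, x.1 i = y.1 i := by
    intro i
    obtain ⟨a, rfl⟩ := K6_ix_surj hσ hi hτ i
    have h2 := congrArg K5_pt (congrFun hxy a)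
    unfold K6_om at h2
    rwa [K6_pt_let, K6_pt_let] at h2
  refine Prod.ext (Equiv.ext h1) (funext fun i => ?_)
  by_cases h3 : x.1 i = Fin.last r
  · have h4 : i = K6_ix hτ a₁ := x.1.injective (h3.trans hx1.symm)
    rw [h4, hx2, hy2]
  · obtain ⟨a, rfl⟩ := K6_ix_surj hσ hi hτ i
    have h2 := congrArg K5_sg (congrFun hxy a)
    unfold K6_om at h2
    rwa [K6_sg_let _ _ h3, K6_sg_let _ _ (by rw [← h1]; exact h3)] at h2

theorem K6_om_exists (h : Sys l o j S Φ) (hr : RSys l o j S V lam cs Φ Ψ) {H : Finset (Fin n)}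
    {δ : Pat A (Fin D)} (hH : ∀ a ∈ H, l a = lam)
    (hδ : ∀ a e ε, a ∉ H → δ a = .inr (e, ε) → V e = l a) (hc : H.card = 2 * (r + 1))
    {σ : Equiv.Perm H} (hσ : ∀ a, σ (σ a) = a ∧ σ a ≠ a) {τ : Fin (r + 1) → Finset (Fin n)}
    (hi : Function.Injective τ) (hτ : Finset.univ.image τ = prs σ) (a₁ : H)
    {ω : H → Option (Lt r κ)} (hω : ω ∈ Omf σ a₁) (hE : Ea o Φ H (pw o cs H δ ω) ≠ 0) :
    ∃ x ∈ K6_P r (K6_ix hτ a₁), K6_om κ hτ x = ω := by
  have hσ1 : ∀ a, σ (σ a) = a := fun a => (hσ a).1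
  rw [K5_mem_Omf] at hω
  obtain ⟨⟨hω1, hω2⟩, hω3⟩ := hω
  choose g hg using K6_ix_surj hσ1 hi hτ
  have hcon : ∀ a b : H, K6_ix hτ a = K6_ix hτ b → ω a = ω b := by
    intro a b hab
    rcases (K6_ix_eq hσ1 hi hτ b a).1 hab with rfl | rfl
    · rfl
    · exact hω1 b
  have hinj : Function.Injective fun i => K5_pt (ω (g i)) := by
    intro i k hik
    by_contra hne
    have h2 := K5_two h hr hH hδ hc hω3 hE (K5_pt (ω (g i)))
    rw [K5_fib_card hω3] at h2
    have h3 : ({g i, σ (g i), g k} : Finset H) ⊆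
        Finset.univ.filter fun a : H => K5_pt (ω a) = K5_pt (ω (g i)) := by
      intro b hb
      rw [Finset.mem_filter]
      refine ⟨Finset.mem_univ _, ?_⟩
      simp only [Finset.mem_insert, Finset.mem_singleton] at hb
      rcases hb with rfl | rfl | rfl
      · rfl
      · rw [hω1]
      · exact hik.symm
    have h5 : g k ≠ g i ∧ g k ≠ σ (g i) := by
      constructor
      · intro e
        have h6 := (K6_ix_eq hσ1 hi hτ (g i) (g k)).2 (Or.inl e)
        rw [hg, hg] at h6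
        exact hne h6.symm
      · intro e
        have h6 := (K6_ix_eq hσ1 hi hτ (g i) (g k)).2 (Or.inr e)
        rw [hg, hg] at h6
        exact hne h6.symm
    have h4 := Finset.card_le_card h3
    rw [h2, Finset.card_eq_three.2 ⟨g i, σ (g i), g k, (hσ (g i)).2.symm, h5.1.symm,
      h5.2.symm, rfl⟩] at h4
    omega
  have hbij : Function.Bijective fun i => K5_pt (ω (g i)) := Finite.injective_iff_bijective.1 hinj
  refine ⟨(Equiv.ofBijective _ hbij, fun i => K5_sg (ω (g i))), ?_, ?_⟩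
  · unfold K6_P
    rw [Finset.mem_filter]
    have h7 : ω (g (K6_ix hτ a₁)) = none := by
      rw [hcon (g (K6_ix hτ a₁)) a₁ (hg _)]
      exact (hω2 a₁).2 (Equiv.Perm.SameCycle.refl _ _)
    refine ⟨Finset.mem_univ _, ?_, ?_⟩
    · show K5_pt (ω (g (K6_ix hτ a₁))) = Fin.last r
      rw [h7]
      rfl
    · show K5_sg (ω (g (K6_ix hτ a₁))) = 1
      rw [h7]
      rfl
  · funext a
    show K6_let (K5_pt (ω (g (K6_ix hτ a)))) (K5_sg (ω (g (K6_ix hτ a)))) = ω a
    rw [hcon (g (K6_ix hτ a)) a (hg _)]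
    exact K6_let_pt _ (hω3 a)

theorem Om_inv (h : Sys l o j S Φ) (hr : RSys l o j S V lam cs Φ Ψ) : ∃ c : ℕ, 0 < c ∧
    ∀ (H : Finset (Fin n)) (δ : Pat A (Fin D)), (∀ a ∈ H, l a = lam) →
      (∀ a e ε, a ∉ H → δ a = .inr (e, ε) → V e = l a) → H.card = 2 * (r + 1) →
      ∀ (σ : Equiv.Perm H), (∀ a, σ (σ a) = a ∧ σ a ≠ a) → ∀ (a₁ : H)
        (τ : Fin (r + 1) → Finset (Fin n)), Function.Injective τ → Finset.univ.image τ = prs σ →
      ∑ ω ∈ Om σ a₁, Ea o Φ H (pw o cs H δ ω) = c • Ea o Φ H (pm o H δ τ) := by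
  refine ⟨(K6_P r 0).card, K6_P_pos r, ?_⟩
  intro H δ hH hδ hc σ hσ a₁ τ hi hτ
  have hσ1 : ∀ a, σ (σ a) = a := fun a => (hσ a).1
  rw [Om_free h hr H δ hH σ a₁]
  have h1 : (K6_P r (K6_ix hτ a₁)).image (K6_om κ hτ) ⊆ Omf σ a₁ := by
    intro ω hω
    obtain ⟨x, hx, rfl⟩ := Finset.mem_image.1 hω
    exact K6_om_mem hσ1 hi hτ a₁ x hx
  rw [← Finset.sum_subset h1 (fun ω hω hn => by
    by_contra hE
    obtain ⟨x, hx, hxo⟩ := K6_om_exists h hr hH hδ hc hσ hi hτ a₁ hω hE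
    exact hn (Finset.mem_image.2 ⟨x, hx, hxo⟩))]
  rw [Finset.sum_image (fun x hx y hy hxy => K6_om_inj hσ1 hi hτ a₁ x y hx hy hxy)]
  rw [Finset.sum_congr rfl (fun x hx => by
    rw [K6_pw hσ1 hi hτ a₁ δ x hx, Ea_perm h])]
  rw [Finset.sum_const, K6_P_card]

end Pool.Agent.LibHE77
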