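import Pool.Agent.LibHE77.K0

/-!
[HE77 K7] the involutions without fixed points and the perfect matchings (PURE COMBINATORICS). Proof. `prs_mem`: clear. `sum_prs`: the map `σ ↦ prs σ` is a bijection between the involutions without fixed points of `H` and `PM H` (the
inverse: `a ↦` the other element of the pair which contains `a`); the sign of an involution without fixed points of a set with `2 m` elements is `(-1)^m` (Mathlib: `Equiv.Perm.cycleType`, `sign_of_cycleType`; all cycles have length 2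
because `σ ^ 2 = 1`; `Equiv.Perm.sum_cycleType` and support `= univ`).
-/

open scoped Classical

namespace Pool.Agent.LibHE77

variable {n : ℕ}

private theorem k7_eq {H : Finset (Fin n)} (σ : Equiv.Perm H) (h : ∀ a, σ (σ a) = a ∧ σ a ≠ a)
    {a b : H} {x : Fin n} (hx : x ∈ ({(a : Fin n), (σ a : Fin n)} : Finset (Fin n)))
    (hx' : x ∈ ({(b : Fin n), (σ b : Fin n)} : Finset (Fin n))) :
    ({(a : Fin n), (σ a : Fin n)} : Finset (Fin n)) = {(b : Fin n), (σ b : Fin n)} := by
  rw [Finset.mem_insert, Finset.mem_singleton] at hx hx'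
  rcases hx with hx | hx <;> rcases hx' with hx' | hx'
  · rw [Subtype.ext (hx.symm.trans hx')]
  · have h1 : a = σ b := Subtype.ext (hx.symm.trans hx')
    rw [h1, (h b).1]
    exact Finset.pair_comm _ _
  · have h1 : b = σ a := Subtype.ext (hx'.symm.trans hx)
    rw [h1, (h a).1]
    exact Finset.pair_comm _ _
  · have h1 : σ a = σ b := Subtype.ext (hx.symm.trans hx')
    rw [σ.injective h1]

private theorem k7_sign {H : Finset (Fin n)} (σ : Equiv.Perm H) (h : ∀ a, σ (σ a) = a ∧ σ a ≠ a)
    {m : ℕ} (hm : H.card = 2 * m) : Equiv.Perm.sign σ = (-1) ^ m := by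
  have h2 : σ ^ 2 = 1 := by
    ext a
    rw [pow_two, Equiv.Perm.mul_apply, (h a).1]
    rfl
  have h3 : ∀ c ∈ σ.cycleType, c = 2 := by
    haveI : Fact (Nat.Prime 2) := ⟨Nat.prime_two⟩
    exact Equiv.Perm.pow_prime_eq_one_iff.1 h2
  obtain ⟨k, hk⟩ : ∃ k, k = σ.cycleType.card := ⟨_, rfl⟩
  have h4 : σ.cycleType = Multiset.replicate k 2 := by
    rw [hk]
    exact Multiset.eq_replicate_card.2 h3
  have h5 : σ.support = Finset.univ := by
    ext a
    simp only [Equiv.Perm.mem_support, Finset.mem_univ, iff_true]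
    exact (h a).2
  have h6 := σ.sum_cycleType
  rw [h4, h5, Multiset.sum_replicate, Finset.card_univ, Fintype.card_coe, hm, smul_eq_mul] at h6
  have h7 : k = m := by omega
  rw [Equiv.Perm.sign_of_cycleType', h4, Multiset.map_replicate, Multiset.prod_replicate, h7]
  norm_num

theorem prs_mem {H : Finset (Fin n)} (σ : Equiv.Perm H) (h : ∀ a, σ (σ a) = a ∧ σ a ≠ a) :
    prs σ ∈ PM H := by
  have hne : ∀ a : H, (a : Fin n) ≠ (σ a : Fin n) := fun a hh =>
    (h a).2 (Subtype.ext hh.symm)
  refine Finset.mem_filter.2 ⟨Finset.mem_univ _, ?_, ?_, ?_⟩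
  · intro t ht
    obtain ⟨a, -, rfl⟩ := Finset.mem_image.1 ht
    exact Finset.card_pair (hne a)
  · intro t ht t' ht' htt
    obtain ⟨a, -, rfl⟩ := Finset.mem_image.1 ht
    obtain ⟨b, -, rfl⟩ := Finset.mem_image.1 ht'
    rw [Finset.disjoint_left]
    intro x hx hx'
    exact htt (k7_eq σ h hx hx')
  · ext x
    rw [Finset.mem_biUnion]
    constructor
    · rintro ⟨t, ht, hx⟩
      obtain ⟨a, -, rfl⟩ := Finset.mem_image.1 ht
      rcases Finset.mem_insert.1 hx with hx | hx
      · rw [hx]
        exact a.2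
      · rw [Finset.mem_singleton.1 hx]
        exact (σ a).2
    · intro hx
      exact ⟨_, Finset.mem_image_of_mem _ (Finset.mem_univ (⟨x, hx⟩ : H)), by simp⟩

theorem card_PM {H : Finset (Fin n)} {M : Finset (Finset (Fin n))} (hM : M ∈ PM H) :
    H.card = 2 * M.card := by
  obtain ⟨-, h1, h2, h3⟩ := Finset.mem_filter.1 hM
  have h4 : (M.biUnion id).card = ∑ t ∈ M, t.card :=
    Finset.card_biUnion (t := id) (fun t ht t' ht' hne => h2 t ht t' ht' hne)
  rw [← h3, h4, Finset.sum_congr rfl (fun t ht => h1 t ht), Finset.sum_const, smul_eq_mul,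
    mul_comm]

theorem sum_prs {W : Type} [AddCommGroup W] (H : Finset (Fin n)) (m : ℕ) (hm : H.card = 2 * m)
    (X : Finset (Finset (Fin n)) → W) :
    ∑ σ ∈ Finset.univ.filter (fun σ : Equiv.Perm H => ∀ a, σ (σ a) = a ∧ σ a ≠ a),
      ((Equiv.Perm.sign σ : ℤˣ) : ℤ) • X (prs σ) = ((-1 : ℤ) ^ m) • ∑ M ∈ PM H, X M := by
  rw [Finset.smul_sum]
  refine Finset.sum_bij (fun σ _ => prs σ) ?_ ?_ ?_ ?_
  · intro σ hσ
    exact prs_mem σ (Finset.mem_filter.1 hσ).2
  · intro σ hσ σ' hσ' he
    have h := (Finset.mem_filter.1 hσ).2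
    have h' := (Finset.mem_filter.1 hσ').2
    ext a
    have h1 : ({(a : Fin n), (σ a : Fin n)} : Finset (Fin n)) ∈ prs σ' := by
      rw [← he]
      exact Finset.mem_image_of_mem _ (Finset.mem_univ a)
    obtain ⟨b, -, hb⟩ := Finset.mem_image.1 h1
    have h2 : ({(b : Fin n), (σ' b : Fin n)} : Finset (Fin n)) = {(a : Fin n), (σ' a : Fin n)} := by
      refine k7_eq σ' h' (x := (a : Fin n)) ?_ (by simp)
      rw [hb]
      simp
    have h3 : (σ a : Fin n) ∈ ({(a : Fin n), (σ' a : Fin n)} : Finset (Fin n)) := by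
      rw [← h2, hb]
      simp
    rcases Finset.mem_insert.1 h3 with h4 | h4
    · exact absurd (Subtype.ext h4) (h a).2
    · exact congrArg Fin.val (Finset.mem_singleton.1 h4)
  · intro M hM
    obtain ⟨-, h1, h2, h3⟩ := Finset.mem_filter.1 hM
    have hex : ∀ a : H, ∃ b : H, b ≠ a ∧ ({(a : Fin n), (b : Fin n)} : Finset (Fin n)) ∈ M := by
      intro a
      have ha : (a : Fin n) ∈ M.biUnion id := by
        rw [h3]
        exact a.2
      obtain ⟨t, ht, hat⟩ := Finset.mem_biUnion.1 ha
      have hat' : (a : Fin n) ∈ t := hat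
      obtain ⟨x, y, hxy, rfl⟩ := Finset.card_eq_two.1 (h1 t ht)
      have hsub : ∀ z ∈ ({x, y} : Finset (Fin n)), z ∈ H := by
        intro z hz
        rw [← h3]
        exact Finset.mem_biUnion.2 ⟨_, ht, hz⟩
      rcases Finset.mem_insert.1 hat' with h4 | h4
      · refine ⟨⟨y, hsub y (by simp)⟩, fun h5 => hxy ?_, ?_⟩
        · rw [← h4, ← h5]
        · rw [h4]
          exact ht
      · have h4' := Finset.mem_singleton.1 h4
        refine ⟨⟨x, hsub x (by simp)⟩, fun h5 => hxy ?_, ?_⟩
        · rw [← h4', ← h5]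
        · rw [h4']
          show ({y, x} : Finset (Fin n)) ∈ M
          rw [Finset.pair_comm]
          exact ht
    choose f hf1 hf2 using hex
    have huniq : ∀ t ∈ M, ∀ t' ∈ M, ∀ x, x ∈ t → x ∈ t' → t = t' := by
      intro t ht t' ht' x hx hx'
      by_contra hne
      exact Finset.disjoint_left.1 (h2 t ht t' ht' hne) hx hx'
    have hinv : Function.Involutive f := by
      intro a
      have h4 := huniq _ (hf2 a) _ (hf2 (f a)) (f a : Fin n) (by simp) (by simp)
      have h5 : (f (f a) : Fin n) ∈ ({(a : Fin n), (f a : Fin n)} : Finset (Fin n)) := by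
        rw [h4]
        simp
      rcases Finset.mem_insert.1 h5 with h6 | h6
      · exact Subtype.ext h6
      · exact absurd (Subtype.ext (Finset.mem_singleton.1 h6)) (hf1 (f a))
    refine ⟨hinv.toPerm, Finset.mem_filter.2 ⟨Finset.mem_univ _, fun a => ⟨?_, ?_⟩⟩, ?_⟩
    · exact hinv a
    · exact hf1 a
    · ext t
      constructor
      · intro ht
        obtain ⟨a, -, rfl⟩ := Finset.mem_image.1 ht
        exact hf2 a
      · intro ht
        have hc := h1 t ht
        obtain ⟨x, hx⟩ : t.Nonempty := by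
          rw [← Finset.card_pos, hc]
          norm_num
        have hxH : x ∈ H := by
          rw [← h3]
          exact Finset.mem_biUnion.2 ⟨_, ht, hx⟩
        have h4 := huniq _ ht _ (hf2 ⟨x, hxH⟩) x hx (by simp)
        rw [h4]
        exact Finset.mem_image_of_mem _ (Finset.mem_univ (⟨x, hxH⟩ : H))
  · intro σ hσ
    have h := (Finset.mem_filter.1 hσ).2
    rw [k7_sign σ h hm]
    congr 1

end Pool.Agent.LibHE77
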