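import Pool.Agent.LibHE77.K0

/-!
[HE77 K8] the classes `Gt` and the alternating sums. Proof. In `Gt o Φ (Fin.append τ₀ τ₁) s` the index is `ρ = Fin.append ρ₀ ρ₁` (`Fin.appendEquiv`-like bijection, `ρ₀ e ⊆ τ₀ e`, `ρ₁ i ⊆ τ₁ i`). For fixed `ρ₀` (all `ρ₀ e ≠ ∅`) the `ρ₁` correspond to the subsets `T = H \ ⋃ ρ₁ i` of `H` (`ρ₁ i = τ₁ i \ T`; the `τ₁ i` are disjoint with
union `H`), `∏_i (-1) ^ ((τ₁ i).card - (ρ₁ i).card) = (-1) ^ T.card` and `pat o (Fin.append τ₀ τ₁) (Fin.append ρ₀ ρ₁) s` is `pm o H (pat o τ₀ ρ₀ s) τ₁` with the coordinates in `T` replaced by `o` (`Dj`: the chosen index is the only one). The `T` with some `ρ₁ i = ∅` have `Φ = 0` by `hz` (the point `Fin.natAdd D i` does not occur).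
-/

open scoped Classical

namespace Pool.Agent.LibHE77

open Pool.Agent.LibHD77.Comb (Pat sub Cmp Sys Gt Dj pts pat cf vec ind enm)

variable {n : ℕ} {A : Fin n → Type} {L G : Type} [AddCommGroup G] {J : Fin n → Type}
  [∀ a, AddCommGroup (J a)]
  {D m : ℕ} {l : Fin n → L} {o : ∀ a, A a} {Φ : Pat A (Fin (D + m)) → G}

private theorem k8_pat {N : ℕ} {o : ∀ a, A a} {s : ∀ a, A a} {τ ρ : Fin N → Finset (Fin n)}
    (hτ : Dj τ) (hρ : ∀ e, ρ e ⊆ τ e) {a : Fin n} {e : Fin N} (h : a ∈ ρ e) :
    pat o τ ρ s a = .inr (e, 1) := by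
  have hex : ∃ e, a ∈ ρ e := ⟨e, h⟩
  unfold pat
  rw [dif_pos hex]
  have h1 := hex.choose_spec
  have h2 : hex.choose = e := by
    by_contra hne
    exact Finset.disjoint_left.1 (hτ _ _ hne) (hρ _ h1) (hρ _ h)
  rw [h2]

private theorem k8_pat_o {N : ℕ} {o : ∀ a, A a} {s : ∀ a, A a} {τ ρ : Fin N → Finset (Fin n)}
    {a : Fin n} {e : Fin N} (h : ∀ e, a ∉ ρ e) (h' : a ∈ τ e) :
    pat o τ ρ s a = .inl (o a) := by
  unfold pat
  rw [dif_neg (fun ⟨e, he⟩ => h e he), if_pos ⟨e, h'⟩]

private theorem k8_pat_s {N : ℕ} {o : ∀ a, A a} {s : ∀ a, A a} {τ ρ : Fin N → Finset (Fin n)}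
    {a : Fin n} (h : ∀ e, a ∉ ρ e) (h' : ∀ e, a ∉ τ e) :
    pat o τ ρ s a = .inl (s a) := by
  unfold pat
  rw [dif_neg (fun ⟨e, he⟩ => h e he), if_neg (fun ⟨e, he⟩ => h' e he)]

private theorem k8_inr {N : ℕ} {o : ∀ a, A a} {s : ∀ a, A a} {τ ρ : Fin N → Finset (Fin n)}
    {a : Fin n} {e : Fin N} {ε : ℤˣ} (h : pat o τ ρ s a = .inr (e, ε)) : a ∈ ρ e := by
  unfold pat at h
  split_ifs at h with h1 h2
  have h3 := Sum.inr.inj h
  have h4 : h1.choose = e := congrArg Prod.fst h3
  rw [← h4]
  exact h1.choose_spec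

theorem Gt_pm (hz : ∀ δ W, Lab l δ W → (∃ b, ∀ a ε, δ a ≠ .inr (b, ε)) → Φ δ = 0)
    (τ₀ : Fin D → Finset (Fin n)) (τ₁ : Fin m → Finset (Fin n)) (H : Finset (Fin n))
    (hτ : Dj (Fin.append τ₀ τ₁)) (hH : ∀ a, a ∈ H ↔ ∃ i, a ∈ τ₁ i) (W : Fin (D + m) → L)
    (hW : ∀ e, ∀ a ∈ Fin.append τ₀ τ₁ e, W e = l a) (s : ∀ a, A a) :
    Gt o Φ (Fin.append τ₀ τ₁) s = ∑ ρ ∈ Fintype.piFinset fun e => (τ₀ e).powerset,
      if ∃ e, ρ e = ∅ then 0 else
        (∏ e, (-1 : ℤ) ^ ((τ₀ e).card - (ρ e).card)) • Ea o Φ H (pm o H (pat o τ₀ ρ s) τ₁) := by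
  have hd0 : ∀ e i a, a ∈ τ₀ e → a ∉ τ₁ i := by
    intro e i a h1 h2
    have hne : Fin.castAdd m e ≠ Fin.natAdd D i := by
      intro h
      have := congrArg Fin.val h
      have h3 := e.2
      simp only [Fin.val_castAdd, Fin.val_natAdd] at this
      omega
    have h3 := hτ _ _ hne
    rw [Fin.append_left, Fin.append_right] at h3
    exact Finset.disjoint_left.1 h3 h1 h2
  have hd1 : ∀ i i' a, a ∈ τ₁ i → a ∈ τ₁ i' → i = i' := by
    intro i i' a h1 h2
    by_contra hne
    have hne' : Fin.natAdd D i ≠ Fin.natAdd D i' := fun h => hne (by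
      have := congrArg Fin.val h
      simp only [Fin.val_natAdd] at this
      exact Fin.ext (by omega))
    have h3 := hτ _ _ hne'
    rw [Fin.append_right, Fin.append_right] at h3
    exact Finset.disjoint_left.1 h3 h1 h2
  have hdj0 : Dj τ₀ := by
    intro e e' hne
    have hne' : Fin.castAdd m e ≠ Fin.castAdd m e' := fun h => hne (by
      have := congrArg Fin.val h
      simp only [Fin.val_castAdd] at this
      exact Fin.ext this)
    have h3 := hτ _ _ hne'
    rwa [Fin.append_left, Fin.append_left] at h3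
  unfold Gt
  have hR : ∀ ρ ∈ Fintype.piFinset fun e => (τ₀ e).powerset,
      (if ∃ e, ρ e = ∅ then (0 : G) else
        (∏ e, (-1 : ℤ) ^ ((τ₀ e).card - (ρ e).card)) • Ea o Φ H (pm o H (pat o τ₀ ρ s) τ₁)) =
      ∑ T ∈ H.powerset, if ∃ e, ρ e = ∅ then (0 : G) else
        (∏ e, (-1 : ℤ) ^ ((τ₀ e).card - (ρ e).card)) • (((-1 : ℤ) ^ T.card) •
          Φ fun a => if a ∈ T then .inl (o a) else pm o H (pat o τ₀ ρ s) τ₁ a) := by
    intro ρ _
    split_ifs
    · rw [Finset.sum_const_zero]
    · unfold Ea
      rw [Finset.smul_sum]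
  rw [Finset.sum_congr rfl hR, ← Finset.sum_product']
  symm
  refine Finset.sum_nbij' (i := fun x => Fin.append x.1 (fun i => τ₁ i \ x.2))
    (j := fun ρ => (fun e => ρ (Fin.castAdd m e),
      H \ Finset.univ.biUnion (fun i => ρ (Fin.natAdd D i)))) ?_ ?_ ?_ ?_ ?_
  · rintro ⟨ρ, T⟩ hx
    obtain ⟨h1, h2⟩ := Finset.mem_product.1 hx
    rw [Fintype.mem_piFinset] at h1 ⊢
    intro e
    induction e using Fin.addCases with
    | left e =>
      simp only [Fin.append_left]
      exact h1 e
    | right i =>
      simp only [Fin.append_right, Finset.mem_powerset]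
      exact Finset.sdiff_subset
  · intro ρ hρ
    rw [Fintype.mem_piFinset] at hρ
    refine Finset.mem_product.2 ⟨?_, Finset.mem_powerset.2 Finset.sdiff_subset⟩
    rw [Fintype.mem_piFinset]
    intro e
    have := hρ (Fin.castAdd m e)
    rwa [Fin.append_left] at this
  · rintro ⟨ρ, T⟩ hx
    obtain ⟨h1, h2⟩ := Finset.mem_product.1 hx
    have h2' : T ⊆ H := Finset.mem_powerset.1 h2
    refine Prod.ext ?_ ?_
    · funext e
      simp only [Fin.append_left]
    · ext a
      simp only [Fin.append_right, Finset.mem_sdiff, Finset.mem_biUnion, Finset.mem_univ,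
        true_and]
      constructor
      · rintro ⟨ha, h3⟩
        by_contra hT
        obtain ⟨i, hi⟩ := (hH a).1 ha
        exact h3 ⟨i, hi, hT⟩
      · intro ha
        exact ⟨h2' ha, fun ⟨i, _, h4⟩ => h4 ha⟩
  · intro ρ hρ
    rw [Fintype.mem_piFinset] at hρ
    funext e
    induction e using Fin.addCases with
    | left e => simp only [Fin.append_left]
    | right i =>
      simp only [Fin.append_right]
      have hsub : ∀ i, ρ (Fin.natAdd D i) ⊆ τ₁ i := by
        intro i
        have := hρ (Fin.natAdd D i)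
        rwa [Fin.append_right, Finset.mem_powerset] at this
      ext a
      simp only [Finset.mem_sdiff, Finset.mem_biUnion, Finset.mem_univ, true_and]
      constructor
      · rintro ⟨ha, h3⟩
        by_contra hcon
        refine h3 ⟨(hH a).2 ⟨i, ha⟩, ?_⟩
        rintro ⟨i', hi'⟩
        have := hd1 i i' a ha (hsub i' hi')
        rw [← this] at hi'
        exact hcon hi'
      · intro ha
        exact ⟨hsub i ha, fun h3 => h3.2 ⟨i, ha⟩⟩
  · rintro ⟨ρ, T⟩ hx
    obtain ⟨h1, h2⟩ := Finset.mem_product.1 hx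
    have h2' : T ⊆ H := Finset.mem_powerset.1 h2
    rw [Fintype.mem_piFinset] at h1
    have hρ0 : ∀ e, ρ e ⊆ τ₀ e := fun e => Finset.mem_powerset.1 (h1 e)
    have hρ : ∀ e, Fin.append ρ (fun i => τ₁ i \ T) e ⊆ Fin.append τ₀ τ₁ e := by
      intro e
      induction e using Fin.addCases with
      | left e =>
        simp only [Fin.append_left]
        exact hρ0 e
      | right i =>
        simp only [Fin.append_right]
        exact Finset.sdiff_subset
    have hpat : (fun a => if a ∈ T then .inl (o a) else pm o H (pat o τ₀ ρ s) τ₁ a) =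
        pat o (Fin.append τ₀ τ₁) (Fin.append ρ (fun i => τ₁ i \ T)) s := by
      funext a
      by_cases haT : a ∈ T
      · rw [if_pos haT]
        obtain ⟨i, hi⟩ := (hH a).1 (h2' haT)
        symm
        refine k8_pat_o (e := Fin.natAdd D i) ?_ ?_
        · intro e
          induction e using Fin.addCases with
          | left e =>
            simp only [Fin.append_left]
            exact fun h3 => hd0 e i a (hρ0 e h3) hi
          | right i' =>
            simp only [Fin.append_right, Finset.mem_sdiff, not_and, not_not]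
            exact fun _ => haT
        · rw [Fin.append_right]
          exact hi
      · rw [if_neg haT]
        by_cases haH : a ∈ H
        · obtain ⟨i, hi⟩ := (hH a).1 haH
          have hex : ∃ i, a ∈ τ₁ i := ⟨i, hi⟩
          have h3 : hex.choose = i := hd1 _ _ a hex.choose_spec hi
          have h4 : pm o H (pat o τ₀ ρ s) τ₁ a = .inr (Fin.natAdd D i, 1) := by
            unfold pm
            rw [if_pos haH, dif_pos hex, h3]
          rw [h4]
          symm
          refine k8_pat hτ hρ ?_
          rw [Fin.append_right]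
          exact Finset.mem_sdiff.2 ⟨hi, haT⟩
        · have hni : ∀ i, a ∉ τ₁ i := fun i hi => haH ((hH a).2 ⟨i, hi⟩)
          have hni' : ∀ i, a ∉ τ₁ i \ T := fun i hi => hni i (Finset.mem_sdiff.1 hi).1
          unfold pm
          rw [if_neg haH]
          by_cases h3 : ∃ e, a ∈ ρ e
          · obtain ⟨e, he⟩ := h3
            rw [k8_pat hdj0 hρ0 he]
            symm
            refine k8_pat hτ hρ ?_
            rw [Fin.append_left]
            exact he
          · push Not at h3
            have h5 : ∀ e, a ∉ Fin.append ρ (fun i => τ₁ i \ T) e := by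
              intro e
              induction e using Fin.addCases with
              | left e =>
                rw [Fin.append_left]
                exact h3 e
              | right i =>
                rw [Fin.append_right]
                exact hni' i
            by_cases h4 : ∃ e, a ∈ τ₀ e
            · obtain ⟨e, he⟩ := h4
              rw [k8_pat_o h3 he]
              symm
              refine k8_pat_o (e := Fin.castAdd m e) h5 ?_
              rw [Fin.append_left]
              exact he
            · push Not at h4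
              rw [k8_pat_s h3 h4]
              symm
              refine k8_pat_s h5 ?_
              intro e
              induction e using Fin.addCases with
              | left e =>
                rw [Fin.append_left]
                exact h4 e
              | right i =>
                rw [Fin.append_right]
                exact hni i
    show (if ∃ e, ρ e = ∅ then (0 : G) else
      (∏ e, (-1 : ℤ) ^ ((τ₀ e).card - (ρ e).card)) • (((-1 : ℤ) ^ T.card) •
        Φ fun a => if a ∈ T then .inl (o a) else pm o H (pat o τ₀ ρ s) τ₁ a)) =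
      if ∃ e, Fin.append ρ (fun i => τ₁ i \ T) e = ∅ then (0 : G) else
        (∏ e, (-1 : ℤ) ^ ((Fin.append τ₀ τ₁ e).card -
          (Fin.append ρ (fun i => τ₁ i \ T) e).card)) •
        Φ (pat o (Fin.append τ₀ τ₁) (Fin.append ρ (fun i => τ₁ i \ T)) s)
    rw [hpat]
    by_cases h3 : ∃ e, ρ e = ∅
    · obtain ⟨e, he⟩ := h3
      rw [if_pos ⟨e, he⟩, if_pos ⟨Fin.castAdd m e, by rw [Fin.append_left]; exact he⟩]
    · rw [if_neg h3]
      by_cases h4 : ∃ e, Fin.append ρ (fun i => τ₁ i \ T) e = ∅
      · rw [if_pos h4]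
        obtain ⟨e, he⟩ := h4
        have h5 : Φ (pat o (Fin.append τ₀ τ₁) (Fin.append ρ (fun i => τ₁ i \ T)) s) = 0 := by
          refine hz _ W ?_ ⟨e, fun a ε h6 => ?_⟩
          · intro a b ε h6
            exact hW b a (hρ b (k8_inr h6))
          · have h7 := k8_inr h6
            rw [he] at h7
            exact Finset.notMem_empty _ h7
        rw [h5, smul_zero, smul_zero]
      · rw [if_neg h4, smul_smul]
        congr 1
        rw [Fin.prod_univ_add]
        simp only [Fin.append_left, Fin.append_right]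
        congr 1
        have h5 : ∀ i, (τ₁ i).card - (τ₁ i \ T).card = (T ∩ τ₁ i).card := by
          intro i
          have h6 := Finset.card_sdiff_add_card_inter (τ₁ i) T
          rw [Finset.inter_comm] at h6
          omega
        simp only [h5]
        rw [Finset.prod_pow_eq_pow_sum]
        congr 1
        have h6 : T = Finset.univ.biUnion (fun i => T ∩ τ₁ i) := by
          ext a
          simp only [Finset.mem_biUnion, Finset.mem_univ, true_and, Finset.mem_inter]
          constructor
          · intro ha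
            obtain ⟨i, hi⟩ := (hH a).1 (h2' ha)
            exact ⟨i, ha, hi⟩
          · rintro ⟨i, ha, -⟩
            exact ha
        conv_lhs => rw [h6]
        refine Finset.card_biUnion fun i _ i' _ hne => ?_
        show Disjoint (T ∩ τ₁ i) (T ∩ τ₁ i')
        rw [Finset.disjoint_left]
        intro a ha ha'
        exact hne (hd1 i i' a (Finset.mem_inter.1 ha).2 (Finset.mem_inter.1 ha').2)

end Pool.Agent.LibHE77
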