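import Pool.Agent.LibHE77.K1
import Pool.Agent.LibHE77.K2
import Pool.Agent.LibHE77.K6
import Pool.Agent.LibHE77.K7
import Pool.Agent.LibHE77.K8

/-!
[HE77 K9] the hafnian relation (assembly). Proof. `inj_zero`: `antisym` (K1) for `E u = Ea o Ψ H (pu H δ u)`, `rel_sum` (K2; choose any `a₁ ∈ H`), `Om_big` (K5). `inj_sum`: the same with `Om_not`, `Om_inv` and `sum_prs` (K7) for `X M = Ea o Φ H (pm o H δ (enm (r + 1) M))` (`M.card = r + 1` by `card_PM`;
`enm (r + 1) M` is injective with image `M`); constant `W * c * (-1) ^ (r + 1)` (the two constants do not depend on `H`, `δ`). `H` is nonempty. `star`: `κ = 0`: there is no injective map `H → Fin (2 r + 1)`, so `C • ∑_M Ea .. = 0` for all `δ`, and `∑_M = 0` by the field `tf` (for `C < 0` use `-C`); apply this to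
`δ = pat o τ₀ ρ s` (its labels outside `H` are right: `hV`) and `Gt_pm` (K8) for `τ₁ = enm (r + 1) M`, exchange the sums.
-/

open scoped Classical

namespace Pool.Agent.LibHE77

open Pool.Agent.LibHD77.Comb (Pat sub Cmp Sys Gt Dj pts pat cf vec ind enm)

variable {n : ℕ} {A : Fin n → Type} {L G : Type} [AddCommGroup G] {J : Fin n → Type}
  [∀ a, AddCommGroup (J a)]
  {D r κ : ℕ} {l : Fin n → L} {o : ∀ a, A a} {j : ∀ a, A a → J a} {S : ∀ a, Set (A a)}
  {V : Fin D → L} {lam : L} {cs : Fin κ → ℤˣ → ∀ a, A a} {Φ : Pat A (Fin (D + (r + 1))) → G}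
  {Ψ : Pat A (Fin D ⊕ Fin (NN r κ)) → G}

theorem k9_base (hr : RSys l o j S V lam cs Φ Ψ) : ∃ W : ℤ, 0 < W ∧
    ∀ (H : Finset (Fin n)) (δ : Pat A (Fin D)), (∀ a ∈ H, l a = lam) →
      (∀ a e ε, a ∉ H → δ a = .inr (e, ε) → V e = l a) → ∀ a₁ : H,
      ∑ u ∈ Finset.univ.filter (fun u : H → Fin (NN r κ) => Function.Injective u),
        Ea o Ψ H (pu H δ u) =
      ∑ σ : Equiv.Perm H, ((Equiv.Perm.sign σ : ℤˣ) : ℤ) •
        (W • ∑ ω ∈ Om σ a₁, Ea o Φ H (pw o cs H δ ω)) := by
  obtain ⟨W, hW, hrel⟩ := rel_sum hr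
  refine ⟨W, hW, fun H δ hH hδ a₁ => ?_⟩
  have h1 := antisym (α := H) (β := Fin (NN r κ)) (fun u => Ea o Ψ H (pu H δ u))
  have h2 : ∑ u ∈ Finset.univ.filter (fun u : H → Fin (NN r κ) => Function.Injective u),
      Ea o Ψ H (pu H δ u) = ∑ σ : Equiv.Perm H, ((Equiv.Perm.sign σ : ℤˣ) : ℤ) •
      ∑ u ∈ Finset.univ.filter (fun u : H → Fin (NN r κ) => (fun a => u (σ a)) = u),
        Ea o Ψ H (pu H δ u) := by
    refine Eq.trans ?_ (h1.symm.trans ?_)
    · exact Finset.sum_congr (by ext u; simp) fun _ _ => rfl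
    · refine Finset.sum_congr rfl fun σ _ => ?_
      congr 1
      exact Finset.sum_congr (by ext u; simp) fun _ _ => rfl
  rw [h2]
  refine Finset.sum_congr rfl fun σ _ => ?_
  rw [hrel H δ hH hδ σ a₁]

theorem k9_ne {H : Finset (Fin n)} {m : ℕ} (hc : H.card = 2 * (m + 1)) : ∃ _ : H, True := by
  have h1 : 0 < H.card := by omega
  obtain ⟨a, ha⟩ := Finset.card_pos.1 h1
  exact ⟨⟨a, ha⟩, trivial⟩

theorem k9_enm_image {M : Finset (Finset (Fin n))} {m : ℕ} (hM : M.card = m) :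
    Finset.univ.image (enm m M) = M := by
  refine Finset.eq_of_subset_of_card_le ?_ ?_
  · intro t ht
    obtain ⟨e, -, rfl⟩ := Finset.mem_image.1 ht
    exact Pool.Agent.LibHD77.Comb.enm_mem hM e
  · rw [Finset.card_image_of_injective _ fun e e' he => Pool.Agent.LibHD77.Comb.enm_inj hM he,
      Finset.card_univ, Fintype.card_fin, hM]

theorem inj_zero (h : Sys l o j S Φ) (hr : RSys l o j S V lam cs Φ Ψ) (H : Finset (Fin n))
    (δ : Pat A (Fin D)) (hH : ∀ a ∈ H, l a = lam)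
    (hδ : ∀ a e ε, a ∉ H → δ a = .inr (e, ε) → V e = l a) (hc : 2 * (r + 1) < H.card) :
    ∑ u ∈ Finset.univ.filter (fun u : H → Fin (NN r κ) => Function.Injective u),
      Ea o Ψ H (pu H δ u) = 0 := by
  obtain ⟨W, -, hb⟩ := k9_base hr
  have h1 : 0 < H.card := by omega
  obtain ⟨a, ha⟩ := Finset.card_pos.1 h1
  rw [hb H δ hH hδ ⟨a, ha⟩]
  refine Finset.sum_eq_zero fun σ _ => ?_
  rw [Om_big h hr H δ hH hδ hc σ ⟨a, ha⟩, smul_zero, smul_zero]

theorem inj_sum (h : Sys l o j S Φ) (hr : RSys l o j S V lam cs Φ Ψ) : ∃ C : ℤ, C ≠ 0 ∧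
    ∀ (H : Finset (Fin n)) (δ : Pat A (Fin D)), (∀ a ∈ H, l a = lam) →
      (∀ a e ε, a ∉ H → δ a = .inr (e, ε) → V e = l a) → H.card = 2 * (r + 1) →
      ∑ u ∈ Finset.univ.filter (fun u : H → Fin (NN r κ) => Function.Injective u),
        Ea o Ψ H (pu H δ u) =
      C • ∑ M ∈ PM H, Ea o Φ H (pm o H δ (enm (r + 1) M)) := by
  obtain ⟨W, hW, hb⟩ := k9_base hr
  obtain ⟨c, hc0, hinv⟩ := Om_inv h hr
  refine ⟨(-1) ^ (r + 1) * (W * (c : ℤ)), ?_, fun H δ hH hδ hc => ?_⟩
  · refine mul_ne_zero (pow_ne_zero _ (by norm_num)) (mul_ne_zero hW.ne' ?_)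
    exact_mod_cast hc0.ne'
  obtain ⟨a₁, -⟩ := k9_ne hc
  rw [hb H δ hH hδ a₁]
  have h1 : ∑ σ : Equiv.Perm H, ((Equiv.Perm.sign σ : ℤˣ) : ℤ) •
        (W • ∑ ω ∈ Om σ a₁, Ea o Φ H (pw o cs H δ ω)) =
      ∑ σ ∈ Finset.univ.filter (fun σ : Equiv.Perm H => ∀ a, σ (σ a) = a ∧ σ a ≠ a),
        ((Equiv.Perm.sign σ : ℤˣ) : ℤ) •
          ((W * (c : ℤ)) • Ea o Φ H (pm o H δ (enm (r + 1) (prs σ)))) := by
    rw [Finset.sum_filter]
    refine Finset.sum_congr rfl fun σ _ => ?_
    split_ifs with hσ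
    · have hP := prs_mem σ hσ
      have hcard : (prs σ).card = r + 1 := by
        have := card_PM hP
        omega
      rw [hinv H δ hH hδ hc σ hσ a₁ (enm (r + 1) (prs σ))
        (fun e e' he => Pool.Agent.LibHD77.Comb.enm_inj hcard he) (k9_enm_image hcard),
        mul_smul, natCast_zsmul]
    · rw [Om_not h hr H δ hH hδ hc σ hσ a₁, smul_zero, smul_zero]
  rw [h1, sum_prs H (r + 1) hc
    (fun M => (W * (c : ℤ)) • Ea o Φ H (pm o H δ (enm (r + 1) M))), mul_smul,
    ← Finset.smul_sum]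

theorem star {cs : Fin 0 → ℤˣ → ∀ a, A a} {Ψ : Pat A (Fin D ⊕ Fin (NN r 0)) → G}
    (h : Sys l o j S Φ) (hr : RSys l o j S V lam cs Φ Ψ) (H : Finset (Fin n))
    (hH : ∀ a ∈ H, l a = lam) (hc : H.card = 2 * (r + 1)) (τ₀ : Fin D → Finset (Fin n))
    (hτ : Dj τ₀) (hd : ∀ e, Disjoint (τ₀ e) H) (hV : ∀ e, ∀ a ∈ τ₀ e, V e = l a)
    (s : ∀ a, A a) :
    ∑ M ∈ PM H, Gt o Φ (Fin.append τ₀ (enm (r + 1) M)) s = 0 := by
  obtain ⟨C, hC, hsum⟩ := inj_sum h hr
  -- the sum over the perfect matchings is zero for every pattern with the right labels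
  have hzero : ∀ δ : Pat A (Fin D), (∀ a e ε, a ∉ H → δ a = .inr (e, ε) → V e = l a) →
      ∑ M ∈ PM H, Ea o Φ H (pm o H δ (enm (r + 1) M)) = 0 := by
    intro δ hδ
    have h1 := hsum H δ hH hδ hc
    have h2 : ∑ u ∈ Finset.univ.filter (fun u : H → Fin (NN r 0) => Function.Injective u),
        Ea o Ψ H (pu H δ u) = 0 := by
      refine Finset.sum_eq_zero fun u hu => ?_
      exfalso
      have h3 := Fintype.card_le_of_injective u (Finset.mem_filter.1 hu).2
      rw [Fintype.card_fin, Fintype.card_coe, hc] at h3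
      unfold NN at h3
      omega
    rw [h2] at h1
    refine h.tf C.natAbs _ (Int.natAbs_ne_zero.2 hC) ?_
    rcases Int.natAbs_eq C with h3 | h3
    · rw [h3, natCast_zsmul] at h1
      exact h1.symm
    · rw [h3, neg_smul, natCast_zsmul] at h1
      exact neg_eq_zero.1 h1.symm
  have hsub : ∀ M ∈ PM H, ∀ i, enm (r + 1) M i ⊆ H := by
    intro M hM i
    have hcard : M.card = r + 1 := by
      have := card_PM hM
      omega
    obtain ⟨-, -, -, h3⟩ := Finset.mem_filter.1 hM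
    rw [← h3]
    exact Finset.subset_biUnion_of_mem id (Pool.Agent.LibHD77.Comb.enm_mem hcard i)
  have hG : ∀ M ∈ PM H, Gt o Φ (Fin.append τ₀ (enm (r + 1) M)) s =
      ∑ ρ ∈ Fintype.piFinset fun e => (τ₀ e).powerset,
      if ∃ e, ρ e = ∅ then 0 else
        (∏ e, (-1 : ℤ) ^ ((τ₀ e).card - (ρ e).card)) •
          Ea o Φ H (pm o H (pat o τ₀ ρ s) (enm (r + 1) M)) := by
    intro M hM
    have hcard : M.card = r + 1 := by
      have := card_PM hM
      omega
    obtain ⟨-, -, h2, h3⟩ := Finset.mem_filter.1 hM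
    refine Gt_pm (l := l) hr.zero τ₀ (enm (r + 1) M) H ?_ ?_ (Fin.append V fun _ => lam) ?_ s
    · intro e e' hee
      refine Fin.addCases (fun e => ?_) (fun i => ?_) e e' hee
      · intro e'
        refine Fin.addCases (fun e' => ?_) (fun i' => ?_) e'
        · intro hee
          rw [Fin.append_left, Fin.append_left]
          exact hτ e e' fun h4 => hee (by rw [h4])
        · intro _
          rw [Fin.append_left, Fin.append_right]
          exact Finset.disjoint_of_subset_right (hsub M hM i') (hd e)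
      · intro e'
        refine Fin.addCases (fun e' => ?_) (fun i' => ?_) e'
        · intro _
          rw [Fin.append_left, Fin.append_right]
          exact (Finset.disjoint_of_subset_right (hsub M hM i) (hd e')).symm
        · intro hee
          rw [Fin.append_right, Fin.append_right]
          exact h2 _ (Pool.Agent.LibHD77.Comb.enm_mem hcard i) _
            (Pool.Agent.LibHD77.Comb.enm_mem hcard i')
            fun h4 => hee (by rw [Pool.Agent.LibHD77.Comb.enm_inj hcard h4])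
    · intro a
      constructor
      · intro ha
        rw [← h3] at ha
        obtain ⟨t, ht, hat⟩ := Finset.mem_biUnion.1 ha
        rw [← k9_enm_image hcard] at ht
        obtain ⟨i, -, rfl⟩ := Finset.mem_image.1 ht
        exact ⟨i, hat⟩
      · rintro ⟨i, hi⟩
        exact hsub M hM i hi
    · intro e
      refine Fin.addCases (fun e => ?_) (fun i => ?_) e
      · intro a ha
        rw [Fin.append_left] at ha ⊢
        exact hV e a ha
      · intro a ha
        rw [Fin.append_right] at ha ⊢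
        exact (hH a (hsub M hM i ha)).symm
  rw [Finset.sum_congr rfl hG, Finset.sum_comm]
  refine Finset.sum_eq_zero fun ρ hρ => ?_
  split_ifs with hρ0
  · exact Finset.sum_const_zero
  · rw [← Finset.smul_sum, hzero, smul_zero]
    intro a e ε _ hae
    unfold pat at hae
    split_ifs at hae with h4
    have h5 := h4.choose_spec
    have h6 : h4.choose = e := by
      have h7 := Sum.inr.inj hae
      exact congrArg Prod.fst h7
    rw [h6] at h5
    exact hV e a (Finset.mem_powerset.1 (Fintype.mem_piFinset.1 hρ e) h5)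

end Pool.Agent.LibHE77
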