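import Pool.Agent.LibHE77.D0
import Pool.Agent.LibHD77.F1
import Pool.Agent.LibHL77.Defs

/-!
The numerical condition for combinations of diagonals: definition.
-/

open scoped Classical
open Polynomial

namespace Pool.Agent.LibHE77

open Pool.Agent.LibHyp34 (Hyp Pt Pic jP gn)
open Pool.Agent.LibHD77 (Dia)
open Pool.Agent.LibHL77 (Fnl)

variable {k : Type} [Field k] {n D : ℕ} {F : Fin n → k[X]}

/-- the class of a diagonal in the Chow group modulo torsion -/
noncomputable def Fq (F : Fin n → k[X]) (D : ℕ) (δ : Dia F D) :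
    LibHD77.CH F D ⧸ AddCommGroup.torsion (LibHD77.CH F D) :=
  QuotientAddGroup.mk (LibHD77.cl δ)

/-- The condition (N*). -/
def NSt [∀ a, Hyp (F a)] {K : Type} [Fintype K] (m : K → ℤ) (δ : K → Dia F D) : Prop :=
  ∀ (R : Type) (_ : CommRing R) (_ : Algebra ℚ R) (θ : QuadraticMap ℤ (Fin n → ℤ) R)
    (d y : Fin n → R), Cond F (fun a => gn (F a)) θ y →
    ∑ i, m i • ∏ e, (θ (LibHD77.vec (δ i) e) + ∑ a, (LibHD77.vec (δ i) e a) ^ 2 • d a) = 0 ∧
    ∀ lam : Fnl k,
      ∑ i, m i • ((∏ e, (θ (LibHD77.vec (δ i) e) + ∑ a, (LibHD77.vec (δ i) e a) ^ 2 • d a)) *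
        ∑ a, algebraMap ℚ R (lam (F a) (LibHD77.fx (δ i) a)) * y a) = 0

/-- the families of `D` sets without too many nested pairs -/
noncomputable def NN0 {Lb : Type} {n : ℕ} (l : Fin n → Lb) (g : Fin n → ℕ) (D : ℕ) :
    Finset (Finset (Finset (Fin n))) :=
  (AD l D).filter fun T => Nst l g T

/-- the families of `D` sets without too many nested pairs, in which `a` does not occur and which have not too many
nested pairs on the right of `a` -/
noncomputable def NN1 {Lb : Type} {n : ℕ} (l : Fin n → Lb) (g : Fin n → ℕ) (D : ℕ) (a : Fin n) :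
    Finset (Finset (Finset (Fin n))) :=
  (AD l D).filter fun T => (∀ t ∈ T, a ∉ t) ∧ Nst l g T ∧ NstR l g T a

end Pool.Agent.LibHE77
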