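import Pool.Agent.LibHF77.Defs
import Pool.Agent.LibHE77.Nest

/-!
The statements on combinations of diagonals of arbitrary products of hyperelliptic curves.
-/

open scoped Classical
open Polynomial

namespace Pool.Agent.LibHE77

open Pool.Agent.LibHyp34 (Hyp Pt gn)
open Pool.Agent.LibHD77 (Dia Pnt CH cls IsPt IsSPt vec Pr DG)
open Pool.Agent.LibHF77 (Pic jac fixed)

variable {k : Type} [Field k]

section

variable {n D : ℕ} {F : Fin n → k[X]}

/-- For all vectors `v` supported on the coordinates of one curve, of genus `g`: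
`θ(v) ^ (g + 1) = 0` and `θ(v) ^ g y(v) = 0`, where `y(v) = ∑_b v_b y_b`. -/
def Bounded (F : Fin n → k[X]) {R : Type} [CommRing R] (θ : QuadraticMap ℤ (Fin n → ℤ) R)
    (y : Fin n → R) : Prop :=
  ∀ a v, (∀ b, v b ≠ 0 → F b = F a) →
    θ v ^ (gn (F a) + 1) = 0 ∧ θ v ^ gn (F a) * ∑ b, v b • y b = 0

/-- The number `∏_e (θ(v_e) + ∑_a d_a v_(e,a) ^ 2)` of the diagonal `δ`; `v_e` is the vector of the signs of the
`e`-th free point. -/
noncomputable def Num {R : Type} [CommRing R] (θ : QuadraticMap ℤ (Fin n → ℤ) R) (d : Fin n → R)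
    (δ : Dia F D) : R :=
  ∏ e, (θ (vec δ e) + ∑ a, (vec δ e a) ^ 2 • d a)

/-- The condition (N*): for all commutative `ℚ`-algebras `R`, all `θ`, `d`, `y` as in `Bounded` and all families
`lam` of homomorphisms `Pic C → ℚ` (one for every curve) the sums of the `m_j Num(δ_j)` and of the
`m_j Num(δ_j) ∑_a lam(s_(j,a) - ∞) y_a` are zero; `s_(j,a)` is the fixed coordinate `a` of `δ_j`. -/
def VanishStar [∀ a, Hyp (F a)] {J : Type} [Fintype J] (m : J → ℤ) (δ : J → Dia F D) : Prop :=
  ∀ (R : Type) (_ : CommRing R) (_ : Algebra ℚ R) (θ : QuadraticMap ℤ (Fin n → ℤ) R)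
    (d y : Fin n → R), Bounded F θ y →
    ∑ j, m j • Num θ d (δ j) = 0 ∧ ∀ lam : ∀ (f : k[X]) [Hyp f], Pic f →+ ℚ,
      ∑ j, m j • (Num θ d (δ j) * ∑ a, algebraMap ℚ R (lam (F a) (fixed (δ j) a)) * y a) = 0

end

variable {I : Type}

/-- A torsion combination of diagonals (with arbitrary fixed coordinates) satisfies (N*). -/
def ConverseStar (f : I → k[X]) [∀ i, Hyp (f i)] : Prop :=
  ∀ (n : ℕ) (ι : Fin n → I) (D : ℕ) (J : Type) (_ : Fintype J) (m : J → ℤ)
    (δ : J → Dia (Pr ι f) D) (M : J → Type) (_ : ∀ j, Field (M j)) (_ : ∀ j, Algebra k (M j))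
    (u : ∀ j, Pnt (Pr ι f) (M j)), (∀ j, IsPt (δ j) (u j)) →
    IsOfFinAddOrder (∑ j, m j • cls D (u j)) → VanishStar m δ

/-- A combination of diagonals with fixed coordinates at infinity or in the sets `S` is torsion if it satisfies
(N*). -/
def ByStar (f : I → k[X]) [∀ i, Hyp (f i)] (S : ∀ i, Set (Pt (f i))) : Prop :=
  ∀ (n : ℕ) (ι : Fin n → I) (D : ℕ) (J : Type) (_ : Fintype J) (m : J → ℤ)
    (δ : J → Dia (Pr ι f) D) (M : J → Type) (_ : ∀ j, Field (M j)) (_ : ∀ j, Algebra k (M j))
    (u : ∀ j, Pnt (Pr ι f) (M j)), (∀ j, IsSPt ι f S (δ j) (u j)) → VanishStar m δ →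
    IsOfFinAddOrder (∑ j, m j • cls D (u j))

/-- The number of sets `T` of `D` disjoint sets of coordinates with one element, or with two elements which belong to
the same curve, such that no `g + 1` pairs in `T` of the same curve of genus `g` are nested. -/
noncomputable def nCnt {n : ℕ} (F : Fin n → k[X]) (D : ℕ) : ℕ :=
  ((AD F D).filter fun T => Nst F (fun a => gn (F a)) T).card

/-- The number of such sets `T` of sets of coordinates different from `a` such that in addition no `g` pairs in `T` to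
the right of `a` of the curve of the coordinate `a` are nested (`g` its genus). -/
noncomputable def nCntA {n : ℕ} (F : Fin n → k[X]) (D : ℕ) (a : Fin n) : ℕ :=
  ((AD F D).filter fun T => (∀ t ∈ T, a ∉ t) ∧ Nst F (fun a => gn (F a)) T ∧
    NstR F (fun a => gn (F a)) T a).card

/-- If the classes of the points in `S i` generate a group of rank `r i` then the classes of the
diagonals of dimension `D` of `C_(ι 1) × ... × C_(ι n)` with fixed coordinates at infinity or in the
sets `S` generate a group of rank `nCnt + ∑_a r_(ι a) nCntA(a)`. -/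
def RanksStar (f : I → k[X]) [∀ i, Hyp (f i)] (S : ∀ i, Set (Pt (f i))) : Prop :=
  ∀ r : I → ℕ, (∀ i, Module.rank ℤ (AddSubgroup.closure (jac '' S i)) = r i) →
    ∀ (n : ℕ) (ι : Fin n → I) (D R : ℕ), R = nCnt (Pr ι f) D + ∑ a, r (ι a) * nCntA (Pr ι f) D a →
      Module.rank ℤ (DG ι f S D) = R

end Pool.Agent.LibHE77
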