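import Pool.Agent.LibHE77.NS
import Pool.Agent.LibHE77.G15
import Pool.Agent.LibHE77.K9
import Pool.Agent.LibHE77.U1

/-!
[HE77 U2] the hafnian relations for the classes of diagonals (assembly). `sys_Fq`: `LibHD77.sys` (F1). Proof of `haf_geo`. Let `H`, `T₀` be as in `HafRel`, `a₀ ∈ H`, `f₀ = Pr ι f a₀`, `r = gn f₀`, `D₀ = T₀.card`: `H.card = 2 * (r + 1)`, `D = D₀ + (r + 1)` (substitute `D`). `f₀.natDegree = NN r 0` (`Hyp.deg`). `exists_rsys` (G15) with `κ = 0`,
`V e = Pr ι f a` for an `a ∈ enm D₀ T₀ e` (the same for all, `Adm`); `star` (K9) with `τ₀ = enm D₀ T₀`. `Fin.append (enm D₀ T₀) (enm (r + 1) M)` is injective with disjoint blocks and image `T₀ ∪ M` (`card_PM`, K7: `M.card = r + 1`; `T₀` and `M` are disjoint): `Gt_enm` (U1). The label function in `RSys` is `Pr ι f`.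
-/

open scoped Classical
open Polynomial

namespace Pool.Agent.LibHE77

open Pool.Agent.LibHyp34 (Hyp Pt Pic jP gn)
open Pool.Agent.LibHD77 (CH Dia og cl Orth Pr)
open Pool.Agent.LibHD77.Comb (Pat Sys Gt enm)

variable {k : Type} [Field k] [CharZero k] [IsAlgClosed k] {I : Type}

theorem U2_app {Lb : Type} {n D₀ m : ℕ} {T₀ M : Finset (Finset (Fin n))} {H : Finset (Fin n)}
    {l : Fin n → Lb} (hadm : Adm l T₀) (h0 : T₀.card = D₀) (hdis : ∀ t ∈ T₀, Disjoint t H)
    (hM : M ∈ PM H) (hm : M.card = m) :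
    LibHD77.Comb.Dj (Fin.append (enm D₀ T₀) (enm m M)) ∧
      Function.Injective (Fin.append (enm D₀ T₀) (enm m M)) ∧
      Finset.univ.image (Fin.append (enm D₀ T₀) (enm m M)) = T₀ ∪ M := by
  obtain ⟨-, hM1, hM2, hM3⟩ := Finset.mem_filter.1 hM
  have hsub : ∀ i, enm m M i ⊆ H := by
    intro i
    rw [← hM3]
    exact Finset.subset_biUnion_of_mem id (LibHD77.Comb.enm_mem hm i)
  have hDj : LibHD77.Comb.Dj (Fin.append (enm D₀ T₀) (enm m M)) := by
    intro e e' hee
    refine Fin.addCases (fun e => ?_) (fun i => ?_) e e' hee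
    · intro e'
      refine Fin.addCases (fun e' => ?_) (fun i' => ?_) e'
      · intro hee
        rw [Fin.append_left, Fin.append_left]
        exact hadm.2 _ (LibHD77.Comb.enm_mem h0 e) _ (LibHD77.Comb.enm_mem h0 e')
          fun h4 => hee (by rw [LibHD77.Comb.enm_inj h0 h4])
      · intro _
        rw [Fin.append_left, Fin.append_right]
        exact Finset.disjoint_of_subset_right (hsub i') (hdis _ (LibHD77.Comb.enm_mem h0 e))
    · intro e'
      refine Fin.addCases (fun e' => ?_) (fun i' => ?_) e'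
      · intro _
        rw [Fin.append_left, Fin.append_right]
        exact (Finset.disjoint_of_subset_right (hsub i)
          (hdis _ (LibHD77.Comb.enm_mem h0 e'))).symm
      · intro hee
        rw [Fin.append_right, Fin.append_right]
        exact hM2 _ (LibHD77.Comb.enm_mem hm i) _ (LibHD77.Comb.enm_mem hm i')
          fun h4 => hee (by rw [LibHD77.Comb.enm_inj hm h4])
  have hne : ∀ e, (Fin.append (enm D₀ T₀) (enm m M) e).Nonempty := by
    intro e
    refine Fin.addCases (fun e => ?_) (fun i => ?_) e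
    · rw [Fin.append_left]
      refine Finset.card_pos.1 ?_
      rcases (hadm.1 _ (LibHD77.Comb.enm_mem h0 e)).1 with h | h <;> omega
    · rw [Fin.append_right]
      refine Finset.card_pos.1 ?_
      rw [hM1 _ (LibHD77.Comb.enm_mem hm i)]
      norm_num
  refine ⟨hDj, ?_, ?_⟩
  · intro e e' he
    by_contra hee
    have h1 := hDj e e' hee
    rw [he, disjoint_self] at h1
    exact (hne e').ne_empty h1
  · ext t
    constructor
    · intro ht
      obtain ⟨e, -, rfl⟩ := Finset.mem_image.1 ht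
      refine Fin.addCases (fun e => ?_) (fun i => ?_) e
      · rw [Fin.append_left]
        exact Finset.mem_union_left _ (LibHD77.Comb.enm_mem h0 e)
      · rw [Fin.append_right]
        exact Finset.mem_union_right _ (LibHD77.Comb.enm_mem hm i)
    · intro ht
      rcases Finset.mem_union.1 ht with h | h
      · rw [← k9_enm_image h0] at h
        obtain ⟨e, -, rfl⟩ := Finset.mem_image.1 h
        exact Finset.mem_image.2 ⟨Fin.castAdd m e, Finset.mem_univ _, Fin.append_left _ _ _⟩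
      · rw [← k9_enm_image hm] at h
        obtain ⟨e, -, rfl⟩ := Finset.mem_image.1 h
        exact Finset.mem_image.2 ⟨Fin.natAdd D₀ e, Finset.mem_univ _, Fin.append_right _ _ _⟩

theorem U2_lab {Lb : Type} {n : ℕ} [Inhabited Lb] {T₀ : Finset (Finset (Fin n))}
    {l : Fin n → Lb} (hadm : Adm l T₀) : ∃ V : Fin T₀.card → Lb, ∀ e, ∀ a ∈ enm T₀.card T₀ e,
      V e = l a := by
  refine ⟨fun e => if h : (enm T₀.card T₀ e).Nonempty then l h.choose else default, fun e a ha => ?_⟩
  have h : (enm T₀.card T₀ e).Nonempty := ⟨a, ha⟩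
  show (if h : (enm T₀.card T₀ e).Nonempty then l h.choose else default) = l a
  rw [dif_pos h]
  exact (hadm.1 _ (LibHD77.Comb.enm_mem rfl e)).2 _ h.choose_spec _ ha

theorem sys_Fq (f : I → k[X]) [∀ i, Hyp (f i)] (S : ∀ i, Set (Pt (f i))) (hS : Orth f S)
    {n D : ℕ} (ι : Fin n → I) :
    Sys (Pr ι f) (og (Pr ι f)) (fun a s => jP s) (fun a => {s | s = .inf ∨ s ∈ S (ι a)})
      (Fq (Pr ι f) D) := by
  exact LibHD77.sys f S hS ι

theorem haf_geo (f : I → k[X]) [∀ i, Hyp (f i)] {n : ℕ} (ι : Fin n → I) (D : ℕ)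
    (s : ∀ a, Pt (Pr ι f a)) :
    HafRel (Pr ι f) (fun a => gn (Pr ι f a)) D
      (fun T => Gt (og (Pr ι f)) (Fq (Pr ι f) D) (enm D T) s) := by
  intro H T₀ hne hl hcard hadm hdis hD
  obtain ⟨a₀, ha₀⟩ := hne
  have hHyp : Hyp (Pr ι f a₀) := inferInstanceAs (Hyp (f (ι a₀)))
  obtain ⟨r, hr⟩ : ∃ r, r = gn (Pr ι f a₀) := ⟨_, rfl⟩
  have hHc : H.card = 2 * (r + 1) := by
    have h1 : H.card = 2 * gn (Pr ι f a₀) + 2 := hcard a₀ ha₀
    rw [← hr] at h1
    omega
  obtain rfl : D = T₀.card + (r + 1) := by omega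
  have hS0 : Orth f (fun _ => (∅ : Set (Pt _))) := fun i j p hp => absurd hp (Set.notMem_empty _)
  obtain ⟨V, hV⟩ := U2_lab hadm
  have hdeg : (Pr ι f a₀).natDegree = NN r 0 := by
    rw [Hyp.deg, ← hr]
    unfold NN
    omega
  obtain ⟨Ψ, hΨ⟩ := exists_rsys f (fun _ => (∅ : Set (Pt _))) hS0 ι (Pr ι f a₀) hdeg V
    (fun i : Fin 0 => i.elim0) (by norm_num) (fun i => i.elim0) (fun _ _ i => i.elim0)
  have hsys := sys_Fq (D := T₀.card + (r + 1)) f (fun _ => (∅ : Set (Pt _))) hS0 ι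
  have hDj : LibHD77.Comb.Dj (enm T₀.card T₀) := by
    intro e e' hee
    exact hadm.2 _ (LibHD77.Comb.enm_mem rfl e) _ (LibHD77.Comb.enm_mem rfl e')
      fun h4 => hee (LibHD77.Comb.enm_inj rfl h4)
  have hstar := star hsys hΨ H (fun a ha => hl a ha a₀ ha₀) hHc (enm T₀.card T₀) hDj
    (fun e => hdis _ (LibHD77.Comb.enm_mem rfl e)) hV s
  rw [← hstar]
  refine Finset.sum_congr rfl fun M hM => ?_
  have hMc : M.card = r + 1 := by
    have := card_PM hM
    omega
  obtain ⟨h1, h2, h3⟩ := U2_app hadm rfl hdis hM hMc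
  have h4 := Gt_enm hsys _ h1 h2 s
  rw [h3] at h4
  exact h4

end Pool.Agent.LibHE77
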