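import Pool.Agent.LibHE77.U2
import Pool.Agent.LibHE77.K10
import Pool.Agent.LibHE77.A3
import Pool.Agent.LibHL77.Defs

/-!
[HE77 U3] the relations with a fixed point for the classes of diagonals (assembly). Proof of `star_geo`. Write `F = Pr ι f`, `f₀ = F i₀`, `γ T a = Gt .. (enm D T) (update og a (tr f₀ (F a) q)) - Gt .. (enm D T) og`. `q = .inf`: `tr .. = .inf`, `γ = 0`. `q = .aff x y _` with `y = 0`: `2 • jP q = 0`, `Gt_lin` (U1): `γ = 0` (no torsion: `tf`). In both cases `gaS 0 = 0`. Let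
`y ≠ 0`, `c = fun _ : Fin 1 => (x, y)`: for `F a = f₀`: `csp F c 0 1 a = tr f₀ (F a) q`, `csp F c 0 (-1) a = neg` of it, in `S (ι a)` (`hneg`, `hq`). `haf_gaS` (A3) with `g = gn ∘ F`: `h0` clear; `h1`: `haf_geo` (U2) for `s = update og a (tr f₀ (F a) q)` and for `s = og`, the difference (`a` is in no set of `T₀ ∪ M`, so the `if` is true). `h2`: `H.card = 2 * gn f₀ + 1`,
`D = T₀.card + gn f₀`, `gn f₀ = r + 1` (`Hyp.one_le`): as in `haf_geo` `exists_rsys` with `κ = 1` and `star_s` (K10), `Gt_enm`; `a ∈ H` is in no set of `T₀`, `M ∈ PM (H.erase a)`, so the `if` is true. `H` is not empty.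
-/

open scoped Classical
open Polynomial

namespace Pool.Agent.LibHE77

open Pool.Agent.LibHyp34 (Hyp Pt Pic jP gn neg)
open Pool.Agent.LibHD77 (CH Dia og cl Orth Pr)
open Pool.Agent.LibHD77.Comb (Pat Sys Gt enm)
open Pool.Agent.LibHL77 (tr)

variable {k : Type} [Field k] [CharZero k] [IsAlgClosed k] {I : Type}

theorem U3_kp {f g : k[X]} (h : g = f) (x y : k) (hxy : y ^ 2 = f.eval x) :
    kp g x y = tr f g (.aff x y hxy) := by
  subst h
  unfold tr kp
  rw [dif_pos rfl, dif_pos hxy]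

theorem U3_tr_neg {f g : k[X]} (q : Pt f) (h : neg q = q) : neg (tr f g q) = tr f g q := by
  by_cases hfg : f = g
  · subst hfg
    unfold tr
    rw [dif_pos rfl]
    exact h
  · unfold tr
    rw [dif_neg hfg]
    rfl

theorem U3_tr_aff {f g : k[X]} (h : g = f) (x y : k) (hxy : y ^ 2 = f.eval x) :
    tr f g (.aff x y hxy) ≠ .inf := by
  subst h
  unfold tr
  rw [dif_pos rfl]
  intro h
  cases h

theorem U3_in {n : ℕ} {H : Finset (Fin n)} {M : Finset (Finset (Fin n))} (hM : M ∈ PM H)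
    {a : Fin n} (ha : a ∉ H) : ∀ t ∈ M, a ∉ t := by
  intro t ht hat
  obtain ⟨-, -, -, h3⟩ := Finset.mem_filter.1 hM
  apply ha
  rw [← h3]
  exact Finset.mem_biUnion.2 ⟨t, ht, hat⟩

theorem star_geo (f : I → k[X]) [∀ i, Hyp (f i)] (S : ∀ i, Set (Pt (f i))) (hS : Orth f S)
    (hneg : ∀ i, ∀ s ∈ S i, neg s ∈ S i) {n : ℕ} (ι : Fin n → I) (D : ℕ) (i₀ : Fin n)
    (q : Pt (Pr ι f i₀)) (hq : ∀ a, Pr ι f a = Pr ι f i₀ →
      tr (Pr ι f i₀) (Pr ι f a) q = .inf ∨ tr (Pr ι f i₀) (Pr ι f a) q ∈ S (ι a)) :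
    HafRel (lS (Pr ι f) i₀) (lS (fun a => gn (Pr ι f a)) i₀) (D + 1) (gaS fun T a =>
      if Pr ι f a = Pr ι f i₀ ∧ ∀ t ∈ T, a ∉ t then
        Gt (og (Pr ι f)) (Fq (Pr ι f) D) (enm D T)
          (Function.update (og (Pr ι f)) a (tr (Pr ι f i₀) (Pr ι f a) q)) -
        Gt (og (Pr ι f)) (Fq (Pr ι f) D) (enm D T) (og (Pr ι f)) else 0) := by
  have hHyp : ∀ a, Hyp (Pr ι f a) := fun a => inferInstanceAs (Hyp (f (ι a)))
  refine haf_gaS (Pr ι f) (fun a => gn (Pr ι f a)) (fun a b hab => by simp only [hab]) i₀ D _ ?_ ?_ ?_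
  · intro T a h
    by_contra h1
    exact h (if_neg h1)
  · intro a H T₀ hne hl hcard hadm hdis hD haH haT hla
    have h1 : ∑ M ∈ PM H, Gt (og (Pr ι f)) (Fq (Pr ι f) D) (enm D (T₀ ∪ M))
        (Function.update (og (Pr ι f)) a (tr (Pr ι f i₀) (Pr ι f a) q)) = 0 :=
      haf_geo f ι D _ H T₀ hne hl hcard hadm hdis hD
    have h2 : ∑ M ∈ PM H, Gt (og (Pr ι f)) (Fq (Pr ι f) D) (enm D (T₀ ∪ M)) (og (Pr ι f)) = 0 :=
      haf_geo f ι D _ H T₀ hne hl hcard hadm hdis hD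
    have h3 : ∑ M ∈ PM H, (Gt (og (Pr ι f)) (Fq (Pr ι f) D) (enm D (T₀ ∪ M))
        (Function.update (og (Pr ι f)) a (tr (Pr ι f i₀) (Pr ι f a) q)) -
        Gt (og (Pr ι f)) (Fq (Pr ι f) D) (enm D (T₀ ∪ M)) (og (Pr ι f))) = 0 := by
      rw [Finset.sum_sub_distrib, h1, h2, sub_zero]
    refine Eq.trans (Finset.sum_congr rfl fun M hM => ?_) h3
    refine if_pos ⟨hla, fun t ht => ?_⟩
    rcases Finset.mem_union.1 ht with ht | ht
    · exact haT t ht
    · exact U3_in hM haH t ht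
  · intro H T₀ hH hcard hadm hdis hD
    have hterm : ∀ a ∈ H, ∀ M ∈ PM (H.erase a),
        (if Pr ι f a = Pr ι f i₀ ∧ ∀ t ∈ T₀ ∪ M, a ∉ t then
          Gt (og (Pr ι f)) (Fq (Pr ι f) D) (enm D (T₀ ∪ M))
            (Function.update (og (Pr ι f)) a (tr (Pr ι f i₀) (Pr ι f a) q)) -
          Gt (og (Pr ι f)) (Fq (Pr ι f) D) (enm D (T₀ ∪ M)) (og (Pr ι f)) else 0) =
          Gt (og (Pr ι f)) (Fq (Pr ι f) D) (enm D (T₀ ∪ M))
            (Function.update (og (Pr ι f)) a (tr (Pr ι f i₀) (Pr ι f a) q)) -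
          Gt (og (Pr ι f)) (Fq (Pr ι f) D) (enm D (T₀ ∪ M)) (og (Pr ι f)) := by
      intro a ha M hM
      refine if_pos ⟨hH a ha, fun t ht => ?_⟩
      rcases Finset.mem_union.1 ht with ht | ht
      · exact fun hat => Finset.disjoint_left.1 (hdis t ht) hat ha
      · exact U3_in hM (Finset.notMem_erase a H) t ht
    refine Eq.trans (Finset.sum_congr rfl fun a ha =>
      Finset.sum_congr rfl fun M hM => hterm a ha M hM) ?_
    obtain ⟨r, hr⟩ : ∃ r, gn (Pr ι f i₀) = r + 1 := by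
      have h1 := Hyp.one_le (f := Pr ι f i₀)
      exact ⟨gn (Pr ι f i₀) - 1, by omega⟩
    have hHc : H.card = 2 * (r + 1) + 1 := by
      rw [← hr]
      exact hcard
    obtain rfl : D = T₀.card + (r + 1) := by omega
    have hMc : ∀ a ∈ H, ∀ M ∈ PM (H.erase a), M.card = r + 1 := by
      intro a ha M hM
      have h1 := card_PM hM
      rw [Finset.card_erase_of_mem ha] at h1
      omega
    have hdis' : ∀ a, ∀ t ∈ T₀, Disjoint t (H.erase a) := fun a t ht =>
      Finset.disjoint_of_subset_right (Finset.erase_subset a H) (hdis t ht)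
    have hsys := sys_Fq (D := T₀.card + (r + 1)) f S hS ι
    by_cases hqq : neg q = q
    · refine Finset.sum_eq_zero fun a ha => Finset.sum_eq_zero fun M hM => ?_
      obtain ⟨h1, h2, h3⟩ := U2_app hadm rfl (hdis' a) hM (hMc a ha M hM)
      have h4 := Gt_enm hsys _ h1 h2
      rw [h3] at h4
      rw [h4, h4]
      obtain ⟨φ, hφ⟩ := Gt_lin hsys _ h1 a
      have h5 := hφ (tr (Pr ι f i₀) (Pr ι f a) q) (hq a (hH a ha))
      rw [h5]
      refine hsys.tf 2 _ (by norm_num) ?_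
      have h6 : jP (tr (Pr ι f i₀) (Pr ι f a) q) = - jP (tr (Pr ι f i₀) (Pr ι f a) q) := by
        rw [← Pool.Agent.LibHyp34.jP_neg, U3_tr_neg q hqq]
      have h7 : (2 : ℕ) • jP (tr (Pr ι f i₀) (Pr ι f a) q) = 0 := by
        rw [two_nsmul]
        nth_rewrite 2 [h6]
        exact add_neg_cancel _
      rw [← map_nsmul, h7, map_zero]
    · obtain ⟨x, y, hxy, rfl⟩ : ∃ x y h, q = .aff x y h := by
        match q with
        | .inf => exact absurd rfl hqq
        | .aff x y h => exact ⟨x, y, h, rfl⟩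
      have hy : y ≠ 0 := by
        rintro rfl
        apply hqq
        simp only [neg, neg_zero]
      obtain ⟨V, hV⟩ := U2_lab hadm
      have hdeg : (Pr ι f i₀).natDegree = NN r 1 := by
        rw [Hyp.deg, hr]
      have hkp : ∀ a, Pr ι f a = Pr ι f i₀ →
          kp (Pr ι f a) x y = tr (Pr ι f i₀) (Pr ι f a) (.aff x y hxy) := fun a ha =>
        U3_kp ha x y hxy
      have hmem : ∀ a, Pr ι f a = Pr ι f i₀ → kp (Pr ι f a) x y ∈ S (ι a) := by
        intro a ha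
        rcases hq a ha with h1 | h1
        · exact absurd h1 (U3_tr_aff ha x y hxy)
        · rw [hkp a ha]
          exact h1
      have hcS : ∀ a, f (ι a) = Pr ι f i₀ → ∀ (i : Fin 1) (η : ℤˣ),
          csp (Pr ι f) (fun _ : Fin 1 => (x, y)) i η a ∈ S (ι a) := by
        intro a ha i η
        unfold csp
        rcases Int.units_eq_one_or η with rfl | rfl
        · have h1 : ((((1 : ℤˣ) : ℤ) : k) * y) = y := by push_cast; ring
          show kp (Pr ι f a) x ((((1 : ℤˣ) : ℤ) : k) * y) ∈ _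
          rw [h1]
          exact hmem a ha
        · have h1 : ((((-1 : ℤˣ) : ℤ) : k) * y) = -y := by push_cast; ring
          show kp (Pr ι f a) x ((((-1 : ℤˣ) : ℤ) : k) * y) ∈ _
          rw [h1, G15_kp_neg]
          exact hneg (ι a) _ (hmem a ha)
      obtain ⟨Ψ, hΨ⟩ := exists_rsys f S hS ι (Pr ι f i₀) hdeg V
        (fun _ : Fin 1 => (x, y)) le_rfl (fun i => ⟨hy, hxy⟩) hcS
      have hDj : LibHD77.Comb.Dj (enm T₀.card T₀) := by
        intro e e' hee
        exact hadm.2 _ (LibHD77.Comb.enm_mem rfl e) _ (LibHD77.Comb.enm_mem rfl e')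
          fun h4 => hee (LibHD77.Comb.enm_inj rfl h4)
      have hstar := star_s hsys hΨ H hH hHc (enm T₀.card T₀) hDj
        (fun e => hdis _ (LibHD77.Comb.enm_mem rfl e)) hV
      rw [← hstar]
      refine Finset.sum_congr rfl fun a ha => Finset.sum_congr rfl fun M hM => ?_
      obtain ⟨h1, h2, h3⟩ := U2_app hadm rfl (hdis' a) hM (hMc a ha M hM)
      have h4 := Gt_enm hsys _ h1 h2
      rw [h3] at h4
      have h5 : csp (Pr ι f) (fun _ : Fin 1 => (x, y)) 0 1 a =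
          tr (Pr ι f i₀) (Pr ι f a) (.aff x y hxy) := by
        rw [← hkp a (hH a ha)]
        unfold csp
        have h1 : ((((1 : ℤˣ) : ℤ) : k) * y) = y := by push_cast; ring
        show kp (Pr ι f a) x ((((1 : ℤˣ) : ℤ) : k) * y) = _
        rw [h1]
      rw [h4, h4, h5]

end Pool.Agent.LibHE77
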