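import Mathlib

/-!
[HE77 U4] two lemmas on groups (PURE ALGEBRA). Proof of `exists_chi`: `x ≠ 0` has infinite order in the torsion free group `G`; the homomorphism `ℤ x → ℚ` with `x ↦ 1` extends to `G` (`ℚ` is divisible/injective; or: `G` embeds into the `ℚ`-vector space `ℚ ⊗ G`, or into a localization, choose a linear form). Proof of `pairing`: let `Z` be the subgroup
generated by the `z θ` (finitely generated, contained in the closure of `A`); modulo torsion it is free with basis `e_1, ..., e_m`, so there are `λ_i : Z → ℤ ⊆ ℚ` with `z θ = ∑_i λ_i (z θ) e_i + (torsion)`, extended to `P →+ ℚ` (divisibility of `ℚ`; compare LibHL77/X4, `tors`, or LibHL77/X3). `μ θ` kills torsion, so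
`∑_θ μ θ (z θ) = ∑_i ∑_θ λ_i (z θ) μ θ e_i = 0` since `e_i` is in the closure of `A` and the hypothesis extends additively in `a` to the closure.
-/

open scoped Classical

namespace Pool.Agent.LibHE77

theorem exists_chi {G : Type} [AddCommGroup G]
    (tf : ∀ (m : ℕ) (g : G), m ≠ 0 → m • g = 0 → g = 0) (x : G) (hx : x ≠ 0) :
    ∃ χ : G →+ ℚ, χ x ≠ 0 := by
  have hi : Function.Injective (zmultiplesHom G x) := by
    intro a b hab
    simp only [zmultiplesHom_apply] at hab
    by_contra hne
    have h1 : (a - b) • x = 0 := by rw [sub_smul, hab, sub_self]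
    have h2 : (a - b).natAbs • x = 0 := by
      rcases Int.natAbs_eq (a - b) with h | h
      · rw [h, natCast_zsmul] at h1
        exact h1
      · rw [h, neg_smul, natCast_zsmul, neg_eq_zero] at h1
        exact h1
    exact hx (tf _ x (Int.natAbs_ne_zero.2 (sub_ne_zero.2 hne)) h2)
  obtain ⟨ψ, hψ⟩ := (Module.Baer.of_divisible ℚ).extension_property_addMonoidHom
    (zmultiplesHom G x) hi (Int.castAddHom ℚ)
  refine ⟨ψ, ?_⟩
  have h1 : ψ (zmultiplesHom G x 1) = Int.castAddHom ℚ 1 := DFunLike.congr_fun hψ 1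
  rw [zmultiplesHom_apply, one_smul] at h1
  rw [h1]
  simp

/-- the hypothesis extends to the closure -/
private theorem U4_closure {P : Type} [AddCommGroup P] {Θ : Type} [Fintype Θ] (A : Set P)
    (z : Θ → P) (μ : Θ → P →+ ℚ)
    (h : ∀ (lam : P →+ ℚ), ∀ a ∈ A, ∑ θ, lam (z θ) * μ θ a = 0) (lam : P →+ ℚ) {p : P}
    (hp : p ∈ AddSubgroup.closure A) : ∑ θ, lam (z θ) * μ θ p = 0 := by
  induction hp using AddSubgroup.closure_induction with
  | mem a ha => exact h lam a ha
  | zero => simp
  | add a b _ _ ha hb =>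
    simp only [map_add, mul_add, Finset.sum_add_distrib, ha, hb, add_zero]
  | neg a _ ha =>
    simp only [map_neg, mul_neg, Finset.sum_neg_distrib, ha, neg_zero]

theorem pairing {P : Type} [AddCommGroup P] {Θ : Type} [Fintype Θ] (A : Set P) (z : Θ → P)
    (hz : ∀ θ, z θ ∈ AddSubgroup.closure A) (μ : Θ → P →+ ℚ)
    (h : ∀ (lam : P →+ ℚ), ∀ a ∈ A, ∑ θ, lam (z θ) * μ θ a = 0) : ∑ θ, μ θ (z θ) = 0 := by
  let B : Matrix Θ Θ ℚ := Matrix.of fun i j => μ i (z j)
  have hB : B * B = 0 := by
    ext i j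
    rw [Matrix.mul_apply]
    exact U4_closure A z μ h (μ i) (hz j)
  have hnil : IsNilpotent B := ⟨2, by rw [pow_two, hB]⟩
  have htr : IsNilpotent B.trace := Matrix.isNilpotent_trace_of_isNilpotent hnil
  exact htr.eq_zero

end Pool.Agent.LibHE77
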