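import Pool.Agent.LibHE77.D0
import Pool.Agent.LibHE77.A2

/-!
[HE77 U5] from all quadratic forms to the vectors (algebra). Proof of `nst_vec`. Apply the hypothesis to `R = 𝔽.R`, `θ v = 𝔽.Θ (v extended by zero)` (`QuadraticMap.comp` with the linear map `(Fin n → ℤ) → (Fin (n + 1) → ℤ)`), `d a = 𝔽.X (bl {a}) - θ (Pi.single a 1)`, `y a = 𝔽.X (pr a)` if `l a = l i₀` and `0` otherwise, and let the identities in `𝔽.R` act on
`𝔽.vac`. `θ v + ∑ a, v a ^ 2 • d a = ∑ t, cf t v • 𝔽.X (bl t)`: `quad_expand` (A2) and `Θpair` (`qat θ {a} = θ (Pi.single a 1)`, `qat θ t = qat 𝔽.Θ (bl t) = 𝔽.X (bl t)` for pairs; `X0`). `Cond`: `θ v ^ (g a + 1) = 0`: `Θpow` (labels `lS`). For `v` supported on the label of `a`: if `l a ≠ l i₀` then `∑ b, v b • y b = 0`. If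
`l a = l i₀`: for `t : ℤ` `Θ (v + t e_*) = Θ v + t * P + t ^ 2 * Θ e_*`, `P = ∑ b, v b • 𝔽.X (pr b)` (polar form, `Θpair`; `e_*` = the last unit vector), and its power `g a + 1` is zero for all integers `t`: the coefficient of `t` of this polynomial in `t`, `(g a + 1) * Θ v ^ g a * P`, is zero (a polynomial over a `ℚ`-algebra which vanishes at
all integers is zero: Vandermonde; or use `theta`-type differences), so `θ v ^ g a * P = 0`.
-/

open scoped Classical

namespace Pool.Agent.LibHE77

open Pool.Agent.LibHD77.Comb (cf)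

variable {n : ℕ} {Lb : Type} {l : Fin n → Lb} {g : Fin n → ℕ} {i₀ : Fin n} {D : ℕ}

private theorem U5_poly {R : Type} [CommRing R] [Algebra ℚ R] (p : Polynomial R)
    (hp : ∀ t : ℤ, p.eval (t : R) = 0) : p = 0 := by
  ext i
  rw [Polynomial.coeff_zero, ← Module.forall_dual_apply_eq_zero_iff ℚ (p.coeff i)]
  intro φ
  let P : Polynomial ℚ := ∑ j ∈ Finset.range (p.natDegree + 1),
    Polynomial.C (φ (p.coeff j)) * Polynomial.X ^ j
  have hP : P = 0 := by
    apply Polynomial.eq_zero_of_infinite_isRoot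
    refine Set.Infinite.mono (s := Set.range (fun t : ℤ => (t : ℚ))) ?_
      (Set.infinite_range_of_injective Int.cast_injective)
    rintro _ ⟨t, rfl⟩
    have h1 : P.eval (t : ℚ) = φ (p.eval (t : R)) := by
      rw [Polynomial.eval_finsetSum, Polynomial.eval_eq_sum_range, map_sum]
      refine Finset.sum_congr rfl fun j _ => ?_
      rw [Polynomial.eval_mul, Polynomial.eval_C, Polynomial.eval_pow, Polynomial.eval_X]
      have h2 : p.coeff j * (t : R) ^ j = ((t : ℚ) ^ j) • p.coeff j := by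
        rw [Algebra.smul_def, map_pow, map_intCast, mul_comm]
      rw [h2, map_smul, smul_eq_mul, mul_comm]
    change P.eval (t : ℚ) = 0
    rw [h1, hp, map_zero]
  by_cases hi : i ≤ p.natDegree
  · have h2 : P.coeff i = φ (p.coeff i) := by
      change (∑ j ∈ Finset.range (p.natDegree + 1),
        Polynomial.C (φ (p.coeff j)) * Polynomial.X ^ j).coeff i = _
      rw [Polynomial.finsetSum_coeff, Finset.sum_eq_single i]
      · rw [Polynomial.coeff_C_mul, Polynomial.coeff_X_pow, if_pos rfl, mul_one]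
      · intro j _ hj
        rw [Polynomial.coeff_C_mul, Polynomial.coeff_X_pow, if_neg (Ne.symm hj), mul_zero]
      · intro hi'
        exact absurd (Finset.mem_range.mpr (by omega)) hi'
    rw [← h2, hP, Polynomial.coeff_zero]
  · rw [Polynomial.coeff_eq_zero_of_natDegree_lt (by omega), map_zero]

private theorem U5_coef {R : Type} [CommRing R] [Algebra ℚ R] {α β γ : R} {k : ℕ}
    (h : ∀ t : ℤ, (α + t • β + (t ^ 2) • γ) ^ (k + 1) = 0) : α ^ k * β = 0 := by
  have h1 := U5_poly ((Polynomial.C α + Polynomial.C β * Polynomial.X +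
    Polynomial.C γ * Polynomial.X ^ 2) ^ (k + 1)) (by
      intro t
      have h2 := h t
      rw [Polynomial.eval_pow]
      simp only [Polynomial.eval_add, Polynomial.eval_mul, Polynomial.eval_C, Polynomial.eval_X,
        Polynomial.eval_pow]
      rw [zsmul_eq_mul, zsmul_eq_mul] at h2
      push_cast at h2
      rw [mul_comm β, mul_comm γ]
      exact h2)
  have h2 := congrArg (fun p => (Polynomial.derivative p).eval 0) h1
  simp only [Polynomial.derivative_pow, Polynomial.derivative_add, Polynomial.derivative_mul,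
    Polynomial.derivative_C, Polynomial.derivative_X, Polynomial.eval_mul, Polynomial.eval_add,
    Polynomial.eval_pow, Polynomial.eval_C, Polynomial.eval_X, Polynomial.derivative_zero,
    Polynomial.eval_zero] at h2
  have h3 : ((k + 1 : ℕ) : R) * (α ^ k * β) = 0 := by
    rw [← h2]
    simp
    ring
  have h4 : IsUnit ((k + 1 : ℕ) : R) := by
    have h5 : IsUnit (((k + 1 : ℕ) : ℚ)) := by
      rw [isUnit_iff_ne_zero]
      positivity
    have h6 := h5.map (algebraMap ℚ R)
    rwa [map_natCast] at h6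
  exact (h4.mul_right_eq_zero).mp h3

private theorem U5_sum_small {N : ℕ} {W : Type} [AddCommGroup W] (s : Finset (Fin N))
    (f : Finset (Fin N) → W) (hf : ∀ t, 2 ≤ t.card → f t = 0) :
    ∑ t ∈ s.powerset, f t = f ∅ + ∑ b ∈ s, f {b} := by
  induction s using Finset.induction_on with
  | empty => simp
  | insert a s ha ih =>
    rw [Finset.sum_powerset_insert ha, ih, Finset.sum_insert ha]
    have h1 : ∑ t ∈ s.powerset, f (insert a t) = f {a} := by
      rw [Finset.sum_eq_single ∅]
      · rfl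
      · intro t ht hne
        apply hf
        have h2 : a ∉ t := fun h => ha (Finset.mem_powerset.1 ht h)
        rw [Finset.card_insert_of_notMem h2]
        have := Finset.card_pos.2 (Finset.nonempty_iff_ne_empty.2 hne)
        omega
      · intro h
        exact absurd (Finset.empty_mem_powerset s) h
    rw [h1]
    abel

/-- extension by zero -/
private def U5_E (n : ℕ) : (Fin n → ℤ) →ₗ[ℤ] (Fin (n + 1) → ℤ) where
  toFun v a := Fin.lastCases (motive := fun _ => ℤ) 0 v a
  map_add' v w := by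
    funext a
    refine Fin.lastCases ?_ (fun b => ?_) a
    · simp
    · simp
  map_smul' c v := by
    funext a
    refine Fin.lastCases ?_ (fun b => ?_) a
    · simp
    · simp

private theorem U5_E_last (n : ℕ) (v : Fin n → ℤ) : U5_E n v (Fin.last n) = 0 := by
  change Fin.lastCases (motive := fun _ => ℤ) 0 v (Fin.last n) = 0
  simp

private theorem U5_E_cast (n : ℕ) (v : Fin n → ℤ) (a : Fin n) : U5_E n v a.castSucc = v a := by
  change Fin.lastCases (motive := fun _ => ℤ) 0 v a.castSucc = v a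
  simp

private theorem U5_E_ind (t : Finset (Fin n)) :
    U5_E n (Pool.Agent.LibHD77.Comb.ind t) = Pool.Agent.LibHD77.Comb.ind (bl t) := by
  funext a
  refine Fin.lastCases ?_ (fun b => ?_) a
  · rw [U5_E_last]
    unfold Pool.Agent.LibHD77.Comb.ind bl
    rw [if_neg]
    rw [Finset.mem_map]
    rintro ⟨b, _, hb⟩
    exact (Fin.castSucc_lt_last b).ne hb
  · rw [U5_E_cast]
    unfold Pool.Agent.LibHD77.Comb.ind bl
    have h : (b.castSucc ∈ t.map Fin.castSuccEmb) ↔ b ∈ t := by
      rw [Finset.mem_map]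
      constructor
      · rintro ⟨c, hc, hcb⟩
        have : c = b := Fin.castSucc_injective n hcb
        rwa [this] at hc
      · intro hb
        exact ⟨b, hb, rfl⟩
    by_cases hb : b ∈ t
    · rw [if_pos hb, if_pos (h.mpr hb)]
    · rw [if_neg hb, if_neg (fun hh => hb (h.mp hh))]

private theorem U5_bl_card (t : Finset (Fin n)) : (bl t).card = t.card := by
  unfold bl
  exact Finset.card_map _

private theorem U5_ind_single {N : ℕ} (a : Fin N) :
    Pool.Agent.LibHD77.Comb.ind ({a} : Finset (Fin N)) = Pi.single a 1 := by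
  funext b
  unfold Pool.Agent.LibHD77.Comb.ind
  by_cases h : b = a
  · subst h
    simp
  · rw [if_neg (by simpa using h), Pi.single_eq_of_ne h]

private theorem U5_ind_pair {N : ℕ} {a b : Fin N} (hab : a ≠ b) :
    Pool.Agent.LibHD77.Comb.ind ({a, b} : Finset (Fin N)) = Pi.single a 1 + Pi.single b 1 := by
  funext c
  unfold Pool.Agent.LibHD77.Comb.ind
  rw [Pi.add_apply]
  by_cases h1 : c = a
  · subst h1
    rw [Pi.single_eq_same, Pi.single_eq_of_ne hab]
    simp
  · by_cases h2 : c = b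
    · subst h2
      rw [Pi.single_eq_same, Pi.single_eq_of_ne h1]
      simp
    · rw [Pi.single_eq_of_ne h1, Pi.single_eq_of_ne h2, if_neg (by simp [h1, h2]), add_zero]

private theorem U5_qat_pair {N : ℕ} {W : Type} [AddCommGroup W] (θ : QuadraticMap ℤ (Fin N → ℤ) W)
    {a b : Fin N} (hab : a ≠ b) :
    qat θ {a, b} = QuadraticMap.polar θ (Pi.single a 1) (Pi.single b 1) := by
  unfold qat
  rw [if_neg (by rw [Finset.card_pair hab]; norm_num), if_pos (Finset.card_pair hab),
    U5_ind_pair hab, Finset.sum_pair hab, U5_ind_single, U5_ind_single]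
  unfold QuadraticMap.polar
  abel

private theorem U5_qat {W : Type} [AddCommGroup W] (Θ : QuadraticMap ℤ (Fin (n + 1) → ℤ) W)
    (t : Finset (Fin n)) : qat (Θ.comp (U5_E n)) t = qat Θ (bl t) := by
  unfold qat
  rw [U5_bl_card]
  have h1 : (Θ.comp (U5_E n)) (Pool.Agent.LibHD77.Comb.ind t) =
      Θ (Pool.Agent.LibHD77.Comb.ind (bl t)) := by
    rw [QuadraticMap.comp_apply, U5_E_ind]
  have h2 : ∑ a ∈ t, (Θ.comp (U5_E n)) (Pool.Agent.LibHD77.Comb.ind {a}) =
      ∑ a ∈ bl t, Θ (Pool.Agent.LibHD77.Comb.ind {a}) := by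
    unfold bl
    rw [Finset.sum_map]
    refine Finset.sum_congr rfl fun a _ => ?_
    rw [QuadraticMap.comp_apply, U5_E_ind]
    rfl
  rw [h1, h2]

private theorem U5_expand (𝔽 : Fk (lS l i₀) (lS g i₀)) (v : Fin n → ℤ) :
    (𝔽.Θ.comp (U5_E n)) v + ∑ a, (v a) ^ 2 • (𝔽.X (bl {a}) - (𝔽.Θ.comp (U5_E n)) (Pi.single a 1)) =
      ∑ t : Finset (Fin n), cf t v • 𝔽.X (bl t) := by
  have h1 := quad_expand (𝔽.Θ.comp (U5_E n)) v
  have h2 : ∑ t : Finset (Fin n), cf t v • (𝔽.X (bl t) - qat (𝔽.Θ.comp (U5_E n)) t) =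
      ∑ a, (v a) ^ 2 • (𝔽.X (bl {a}) - (𝔽.Θ.comp (U5_E n)) (Pi.single a 1)) := by
    have h3 := U5_sum_small (Finset.univ : Finset (Fin n))
      (fun t => cf t v • (𝔽.X (bl t) - qat (𝔽.Θ.comp (U5_E n)) t)) (by
        intro t ht
        by_cases h4 : t.card = 2
        · rw [U5_qat, 𝔽.Θpair (bl t) (by rw [U5_bl_card, h4]), sub_self, smul_zero]
        · have h5 : cf t v = 0 := by
            unfold cf
            rw [if_neg (by omega), if_neg h4]
          rw [h5, zero_smul])
    rw [Finset.powerset_univ] at h3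
    rw [h3]
    have h6 : cf (∅ : Finset (Fin n)) v = 0 := by
      unfold cf
      rw [if_neg (by simp), if_neg (by simp)]
    rw [h6, zero_smul, zero_add]
    refine Finset.sum_congr rfl fun a _ => ?_
    have h7 : cf {a} v = v a ^ 2 := by
      unfold cf
      rw [if_pos (Finset.card_singleton a), Finset.prod_singleton]
    have h8 : qat (𝔽.Θ.comp (U5_E n)) {a} = (𝔽.Θ.comp (U5_E n)) (Pi.single a 1) := by
      unfold qat
      rw [if_pos (Finset.card_singleton a), U5_ind_single]
    rw [h7, h8]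
  rw [← h2, h1, ← Finset.sum_add_distrib]
  refine Finset.sum_congr rfl fun t _ => ?_
  rw [← smul_add]
  congr 1
  abel

private theorem U5_cond (𝔽 : Fk (lS l i₀) (lS g i₀)) :
    Cond l g (𝔽.Θ.comp (U5_E n)) (fun a => if l a = l i₀ then 𝔽.X (pr a) else 0) := by
  intro a v hv
  have hlc : ∀ b : Fin n, lS l i₀ b.castSucc = l b := fun b => by simp [lS]
  have hgc : ∀ b : Fin n, lS g i₀ b.castSucc = g b := fun b => by simp [lS]
  have hll : lS l i₀ (Fin.last n) = l i₀ := by simp [lS]
  have hpow := 𝔽.Θpow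
  refine ⟨?_, ?_⟩
  · have h1 := hpow a.castSucc (U5_E n v) (by
      intro b hb
      revert hb
      refine Fin.lastCases ?_ (fun c => ?_) b
      · intro hb
        exact absurd (U5_E_last n v) hb
      · intro hb
        rw [U5_E_cast] at hb
        rw [hlc, hlc]
        exact hv c hb)
    rw [hgc] at h1
    rw [QuadraticMap.comp_apply]
    exact h1
  · by_cases hla : l a = l i₀
    · have hP : ∑ b, v b • (if l b = l i₀ then 𝔽.X (pr b) else 0) = ∑ b, v b • 𝔽.X (pr b) := by
        refine Finset.sum_congr rfl fun b _ => ?_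
        by_cases hb : v b = 0
        · rw [hb, zero_smul, zero_smul]
        · rw [if_pos ((hv b hb).trans hla)]
      have hpol : QuadraticMap.polar 𝔽.Θ (U5_E n v) (Pi.single (Fin.last n) 1) =
          ∑ b, v b • 𝔽.X (pr b) := by
        have e1 : U5_E n v = ∑ b : Fin n, v b • (Pi.single b.castSucc 1 : Fin (n + 1) → ℤ) := by
          funext c
          rw [Finset.sum_apply]
          refine Fin.lastCases ?_ (fun d => ?_) c
          · rw [U5_E_last]
            symm
            refine Finset.sum_eq_zero fun b _ => ?_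
            rw [Pi.smul_apply, Pi.single_eq_of_ne (Fin.castSucc_lt_last b).ne', smul_zero]
          · rw [U5_E_cast, Finset.sum_eq_single d]
            · rw [Pi.smul_apply, Pi.single_eq_same, smul_eq_mul, mul_one]
            · intro b _ hb
              rw [Pi.smul_apply, Pi.single_eq_of_ne, smul_zero]
              intro hh
              exact hb (Fin.castSucc_injective n hh).symm
            · intro hd
              exact absurd (Finset.mem_univ _) hd
        have e2 : QuadraticMap.polarBilin 𝔽.Θ (∑ b : Fin n, v b •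
            (Pi.single b.castSucc 1 : Fin (n + 1) → ℤ)) (Pi.single (Fin.last n) 1) =
            ∑ b, v b • 𝔽.X (pr b) := by
          simp only [map_sum, map_smul, LinearMap.sum_apply, LinearMap.smul_apply,
            QuadraticMap.polarBilin_apply_apply]
          refine Finset.sum_congr rfl fun b _ => ?_
          have hne : b.castSucc ≠ Fin.last n := (Fin.castSucc_lt_last b).ne
          rw [← U5_qat_pair 𝔽.Θ hne, 𝔽.Θpair _ (Finset.card_pair hne)]
          rfl
        rw [e1]
        exact e2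
      have hk : ∀ t : ℤ, ((𝔽.Θ.comp (U5_E n)) v + t • (∑ b, v b • 𝔽.X (pr b)) +
          (t ^ 2) • 𝔽.Θ (Pi.single (Fin.last n) 1)) ^ (g a + 1) = 0 := by
        intro t
        have h1 := hpow a.castSucc (U5_E n v + t • (Pi.single (Fin.last n) 1)) (by
          intro b hb
          revert hb
          refine Fin.lastCases ?_ (fun c => ?_) b
          · intro _
            rw [hll, hlc, hla]
          · intro hb
            rw [Pi.add_apply, U5_E_cast, Pi.smul_apply,
              Pi.single_eq_of_ne (Fin.castSucc_lt_last c).ne, smul_zero, add_zero] at hb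
            rw [hlc, hlc]
            exact hv c hb)
        rw [hgc] at h1
        have h2 : 𝔽.Θ (U5_E n v + t • (Pi.single (Fin.last n) 1)) =
            (𝔽.Θ.comp (U5_E n)) v + t • (∑ b, v b • 𝔽.X (pr b)) +
              (t ^ 2) • 𝔽.Θ (Pi.single (Fin.last n) 1) := by
          rw [QuadraticMap.map_add 𝔽.Θ, QuadraticMap.map_smul, QuadraticMap.comp_apply]
          have h3 : QuadraticMap.polar 𝔽.Θ (U5_E n v) (t • (Pi.single (Fin.last n) 1)) =
              t • (∑ b, v b • 𝔽.X (pr b)) := by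
            rw [← hpol]
            exact QuadraticMap.polar_smul_right 𝔽.Θ t _ _
          rw [h3, sq]
          abel
        rw [h2] at h1
        exact h1
      change (𝔽.Θ.comp (U5_E n)) v ^ g a * ∑ b, v b • (if l b = l i₀ then 𝔽.X (pr b) else 0) = 0
      rw [hP]
      exact U5_coef hk
    · have hz : ∑ b, v b • (if l b = l i₀ then 𝔽.X (pr b) else 0) = 0 := by
        refine Finset.sum_eq_zero fun b _ => ?_
        by_cases hb : v b = 0
        · rw [hb, zero_smul]
        · rw [if_neg (fun hh => hla ((hv b hb).symm.trans hh)), smul_zero]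
      change (𝔽.Θ.comp (U5_E n)) v ^ g a * ∑ b, v b • (if l b = l i₀ then 𝔽.X (pr b) else 0) = 0
      rw [hz, mul_zero]

theorem nst_vec (hg : ∀ a b, l a = l b → g a = g b) (𝔽 : Fk (lS l i₀) (lS g i₀)) {K : Type}
    [Fintype K] (m : K → ℤ) (v : K → Fin D → Fin n → ℤ) (u : K → Fin n → ℚ)
    (h : ∀ (R : Type) (_ : CommRing R) (_ : Algebra ℚ R) (θ : QuadraticMap ℤ (Fin n → ℤ) R)
      (d y : Fin n → R), Cond l g θ y → (∀ a, l a ≠ l i₀ → y a = 0) →
      ∑ i, m i • ∏ e, (θ (v i e) + ∑ a, (v i e a) ^ 2 • d a) = 0 ∧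
      ∑ i, m i • ((∏ e, (θ (v i e) + ∑ a, (v i e a) ^ 2 • d a)) *
        ∑ z, algebraMap ℚ R (u i z) * y z) = 0) :
    ∑ i, m i • (nv 𝔽 (v i) • 𝔽.vac) = 0 ∧
    ∑ i, m i • ((nv 𝔽 (v i) * av 𝔽 (u i)) • 𝔽.vac) = 0 := by
  obtain ⟨h1, h2⟩ := h 𝔽.R 𝔽.cR 𝔽.aR (𝔽.Θ.comp (U5_E n))
    (fun a => 𝔽.X (bl {a}) - (𝔽.Θ.comp (U5_E n)) (Pi.single a 1))
    (fun a => if l a = l i₀ then 𝔽.X (pr a) else 0) (U5_cond 𝔽)
    (fun a ha => if_neg ha)
  have hnv : ∀ i, ∏ e, ((𝔽.Θ.comp (U5_E n)) (v i e) + ∑ a, (v i e a) ^ 2 •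
      (𝔽.X (bl {a}) - (𝔽.Θ.comp (U5_E n)) (Pi.single a 1))) = nv 𝔽 (v i) := by
    intro i
    unfold nv
    exact Finset.prod_congr rfl fun e _ => U5_expand 𝔽 (v i e)
  have hav : ∀ i, ∑ z, algebraMap ℚ 𝔽.R (u i z) * (if l z = l i₀ then 𝔽.X (pr z) else 0) =
      av 𝔽 (u i) := by
    intro i
    unfold av
    refine Finset.sum_congr rfl fun z _ => ?_
    by_cases hz : l z = l i₀
    · rw [if_pos hz, if_pos hz]
    · rw [if_neg hz, if_neg hz, mul_zero]
  simp only [hnv] at h1
  simp only [hnv, hav] at h2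
  refine ⟨?_, ?_⟩
  · have h3 : ∑ i, m i • (nv 𝔽 (v i) • 𝔽.vac) = (∑ i, m i • nv 𝔽 (v i)) • 𝔽.vac := by
      rw [Finset.sum_smul]
      exact Finset.sum_congr rfl fun i _ => (smul_assoc _ _ _).symm
    rw [h3, h1, zero_smul]
  · have h3 : ∑ i, m i • ((nv 𝔽 (v i) * av 𝔽 (u i)) • 𝔽.vac) =
        (∑ i, m i • (nv 𝔽 (v i) * av 𝔽 (u i))) • 𝔽.vac := by
      rw [Finset.sum_smul]
      exact Finset.sum_congr rfl fun i _ => (smul_assoc _ _ _).symm
    rw [h3, h2, zero_smul]

end Pool.Agent.LibHE77
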