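import Pool.Agent.LibHE77.U1
import Pool.Agent.LibHE77.U4
import Pool.Agent.LibHE77.D5
import Pool.Agent.LibHE77.B5
import Pool.Agent.LibHD77.C5

/-!
[HE77 U6] combinations whose vectors vanish are zero (combinatorics and linear algebra). Let `χ : G →+ ℚ`; by `exists_chi` (U4, field `tf`) it suffices that `χ (∑ i, m i • Φ (δ i)) = 0`. `expand` (HD77 C2) and `Gt_sum` (U1; `pts o (δ i) a ∈ S a`: `hS`, `oS`; `Dj τ` if the coefficient is not zero: `cf_ne`, HD77 C5):
`∑ i, m i • Φ (δ i) = ∑ i, ∑ τ, (m i * ∏ e, cf (τ e) (vec (δ i) e)) • (Gt τ o + ∑ a, (Gt τ (update o a (pts a)) - Gt τ o))`. For `τ` with nonzero coefficient `Gt τ = Gt (enm D (univ.image τ))` (`Gt_enm`; the blocks are disjoint and nonempty, so `τ` is injective). First part: `sft_main` (D5) with `γ T = χ (Gt (enm D T) o)` (`H1`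
composed with `χ`), for any `i₀` and `𝔽` (`exists_fk`, `lam = 0`). Second part, for every `i₀` (then sum over `i₀` with the factor `1 / (number of b with l b = l i₀)`): `∑ i τ a (l a = l i₀) (..) χ (Gt τ (update o a (pts a)) - Gt τ o) = 0`: let `Θ` = all pairs `(T, a)` with `l a = l i₀`, `T ∈ AD l D`, `a` in no set of `T`;
`z (T, a) = ∑ i, ∑ (τ, univ.image τ = T), (m i * ∏ e, cf ..) • val i₀ a (pts o (δ i) a)`, `μ (T, a) : P i₀ →+ ℚ` with `μ (val i₀ a s) = χ (Gt (enm D T) (update o a s) - Gt (enm D T) o)` for `s ∈ S a` (`Gt_lin`, `hP`); `A = {val i₀ a s | l a = l i₀, s ∈ S a}`. `pairing` (U4): for `lam` and `val i₀ a₁ s₁ = val i₀ b (pt i₀ q b)`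
(`hQ`): `sft_star` (D5) for `u i a = lam (val i₀ a (pts o (δ i) a))`, `γ T a = χ (Gt (enm D T) (update o a (pt i₀ q a)) - Gt (enm D T) o)` (`H2` composed with `χ`) gives `∑ lam (z θ) * μ θ (val i₀ a₁ s₁) = 0`. The coordinates `a` in a block contribute nothing: `pts o δ a = o a` there. `Ok`: from `hδ`, `P0`.
-/

open scoped Classical

namespace Pool.Agent.LibHE77

open Pool.Agent.LibHD77.Comb (Pat sub Cmp Sys Gt Dj pts pat cf vec ind enm)

variable {n : ℕ} {A : Fin n → Type} {L G : Type} [AddCommGroup G] {J : Fin n → Type}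
  [∀ a, AddCommGroup (J a)] {D : ℕ} {l : Fin n → L} {o : ∀ a, A a} {j : ∀ a, A a → J a}
  {S : ∀ a, Set (A a)} {Φ : Pat A (Fin D) → G}


omit [AddCommGroup G] [∀ a, AddCommGroup (J a)] in
private theorem u6_vec_ne {δ : Pat A (Fin D)} {e : Fin D} {a : Fin n} (h : vec δ e a ≠ 0) :
    ∃ ε, δ a = .inr (e, ε) := by
  unfold vec at h
  cases hδ : δ a with
  | inl s => rw [hδ] at h; exact absurd rfl h
  | inr q =>
    rw [hδ] at h
    have h4 : q.1 = e := by
      by_contra h5
      exact h (if_neg h5)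
    exact ⟨q.2, by rw [← h4]⟩

private theorem u6_pts {δ : Pat A (Fin D)} {e : Fin D} {a : Fin n} (h : vec δ e a ≠ 0) :
    pts o δ a = o a := by
  obtain ⟨ε, hε⟩ := u6_vec_ne h
  unfold pts
  rw [hε]

/-- a term with nonzero coefficient -/
private theorem u6_term {δ : Pat A (Fin D)} {τ : Fin D → Finset (Fin n)}
    (hc : ∏ e, cf (τ e) (vec δ e) ≠ 0) :
    Dj τ ∧ Function.Injective τ ∧ (∀ e a, a ∈ τ e → vec δ e a ≠ 0) ∧
      Dj (enm D (Finset.univ.image τ)) := by
  have h0 : ∀ e, cf (τ e) (vec δ e) ≠ 0 := fun e => Finset.prod_ne_zero_iff.1 hc e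
    (Finset.mem_univ e)
  have h1 : ∀ e a, a ∈ τ e → vec δ e a ≠ 0 := by
    intro e a ha h2
    apply h0 e
    unfold cf
    split_ifs with h3 h4
    · exact Finset.prod_eq_zero ha (by rw [h2]; norm_num)
    · exact Finset.prod_eq_zero ha h2
    · rfl
  have hcard : ∀ e, (τ e).card = 1 ∨ (τ e).card = 2 := by
    intro e
    by_contra h3
    rw [not_or] at h3
    apply h0 e
    unfold cf
    rw [if_neg h3.1, if_neg h3.2]
  have hdj : Dj τ := by
    intro e e' hee
    rw [Finset.disjoint_left]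
    intro a ha ha'
    obtain ⟨ε, h3⟩ := u6_vec_ne (h1 e a ha)
    obtain ⟨ε', h4⟩ := u6_vec_ne (h1 e' a ha')
    rw [h3] at h4
    exact hee (congrArg Prod.fst (Sum.inr.inj h4))
  have hinj : Function.Injective τ := by
    intro e e' he
    by_contra hee
    have h3 := hdj e e' hee
    rw [he, Finset.disjoint_self_iff_empty] at h3
    rcases hcard e' with h4 | h4 <;> rw [h3] at h4 <;> simp at h4
  have hT : (Finset.univ.image τ).card = D := by
    rw [Finset.card_image_of_injective _ hinj, Finset.card_univ, Fintype.card_fin]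
  refine ⟨hdj, hinj, h1, ?_⟩
  intro e e' hee
  obtain ⟨e₁, -, h5⟩ := Finset.mem_image.1 (Pool.Agent.LibHD77.Comb.enm_mem hT e)
  obtain ⟨e₂, -, h6⟩ := Finset.mem_image.1 (Pool.Agent.LibHD77.Comb.enm_mem hT e')
  rw [← h5, ← h6]
  refine hdj e₁ e₂ fun h7 => hee ?_
  apply Pool.Agent.LibHD77.Comb.enm_inj hT
  rw [← h5, ← h6, h7]

private theorem u6_hg {g : Fin n → ℕ} (hg : ∀ a b, l a = l b → g a = g b) (i₀ : Fin n)
    (a b : Fin (n + 1)) (h : lS l i₀ a = lS l i₀ b) : lS g i₀ a = lS g i₀ b := by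
  induction a using Fin.lastCases with
  | last =>
    induction b using Fin.lastCases with
    | last => rfl
    | cast b =>
      simp only [lS, Fin.lastCases_last, Fin.lastCases_castSucc] at h ⊢
      exact hg _ _ h
  | cast a =>
    induction b using Fin.lastCases with
    | last =>
      simp only [lS, Fin.lastCases_last, Fin.lastCases_castSucc] at h ⊢
      exact hg _ _ h
    | cast b =>
      simp only [lS, Fin.lastCases_castSucc] at h ⊢
      exact hg _ _ h

private theorem u6_haf {N : ℕ} {Lb : Type} {l' : Fin N → Lb} {g : Fin N → ℕ} {D' : ℕ}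
    {γ : Finset (Finset (Fin N)) → G} (h : HafRel l' g D' γ) (χ : G →+ ℚ) :
    HafRel l' g D' fun T => χ (γ T) := by
  intro H T₀ h1 h2 h3 h4 h5 h6
  have h7 := congrArg χ (h H T₀ h1 h2 h3 h4 h5 h6)
  rw [map_sum, map_zero] at h7
  exact h7

private theorem u6_gaS (χ : G →+ ℚ) (γ : Finset (Finset (Fin n)) → Fin n → G)
    (T : Finset (Finset (Fin (n + 1)))) :
    χ (gaS γ T) = gaS (fun T a => χ (γ T a)) T := by
  unfold gaS
  rw [map_sum]
  refine Finset.sum_congr rfl fun T₁ _ => ?_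
  rw [map_sum]
  refine Finset.sum_congr rfl fun a _ => ?_
  split_ifs
  · rfl
  · exact map_zero χ

private theorem u6_ok {δ : Pat A (Fin D)} {V : Fin D → L} (hδ : Cmp l δ V) {u : Fin n → ℚ}
    (hu : ∀ e a, vec δ e a ≠ 0 → u a = 0) : Ok l (fun e => vec δ e) u := by
  refine ⟨?_, ?_, hu⟩
  · intro e e' a hee
    by_contra hcon
    rw [not_or] at hcon
    obtain ⟨ε, h3⟩ := u6_vec_ne hcon.1
    obtain ⟨ε', h4⟩ := u6_vec_ne hcon.2
    rw [h3] at h4
    exact hee (congrArg Prod.fst (Sum.inr.inj h4))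
  · intro e a b ha hb
    obtain ⟨ε, h3⟩ := u6_vec_ne ha
    obtain ⟨ε', h4⟩ := u6_vec_ne hb
    rw [← hδ.2 _ _ _ h3, ← hδ.2 _ _ _ h4]

theorem upper (h : Sys l o j S Φ) (hn : 0 < n) (g : Fin n → ℕ)
    (hg : ∀ a b, l a = l b → g a = g b) {K : Type} [Fintype K] (m : K → ℤ)
    (δ : K → Pat A (Fin D)) (hδ : ∀ i, ∃ V : Fin D → L, Cmp l (δ i) V)
    (hS : ∀ i a s, δ i a = .inl s → s ∈ S a) (P : Fin n → Type) [∀ i₀, AddCommGroup (P i₀)]
    (val : ∀ i₀ a : Fin n, A a → P i₀) (P0 : ∀ i₀ a, val i₀ a (o a) = 0)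
    (hP : ∀ i₀ a, l a = l i₀ → ∀ φ : J a →+ G, ∃ φ' : P i₀ →+ G, ∀ s,
      φ' (val i₀ a s) = φ (j a s)) (Q : Fin n → Type) (pt : ∀ i₀, Q i₀ → ∀ a, A a)
    (hQ : ∀ i₀ a s, l a = l i₀ → s ∈ S a → ∃ q : Q i₀, ∀ b, l b = l i₀ →
      pt i₀ q b ∈ S b ∧ val i₀ b (pt i₀ q b) = val i₀ a s)
    (H1 : HafRel l g D fun T => Gt o Φ (enm D T) o)
    (H2 : ∀ i₀ (q : Q i₀), HafRel (lS l i₀) (lS g i₀) (D + 1) (gaS fun T a =>
      if l a = l i₀ ∧ ∀ t ∈ T, a ∉ t then
        Gt o Φ (enm D T) (Function.update o a (pt i₀ q a)) - Gt o Φ (enm D T) o else 0))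
    (N : ∀ i₀ (lam : P i₀ →+ ℚ) (𝔽 : Fk (lS l i₀) (lS g i₀)),
      ∑ i, m i • (nv 𝔽 (fun e => vec (δ i) e) • 𝔽.vac) = 0 ∧
      ∑ i, m i • ((nv 𝔽 (fun e => vec (δ i) e) *
        av 𝔽 (fun z => lam (val i₀ z (pts o (δ i) z)))) • 𝔽.vac) = 0) :
    ∑ i, m i • Φ (δ i) = 0 := by
  classical
  by_contra hne
  obtain ⟨χ, hχ⟩ := exists_chi h.tf _ hne
  apply hχ
  choose V hV using hδ
  -- abbreviations
  obtain ⟨G1, hG1⟩ : ∃ G1 : Finset (Finset (Fin n)) → G, ∀ T, G1 T = Gt o Φ (enm D T) o :=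
    ⟨_, fun _ => rfl⟩
  obtain ⟨G2, hG2⟩ : ∃ G2 : Finset (Finset (Fin n)) → ∀ a, A a → G, ∀ T a s,
      G2 T a s = Gt o Φ (enm D T) (Function.update o a s) - Gt o Φ (enm D T) o :=
    ⟨_, fun _ _ _ => rfl⟩
  obtain ⟨c, hcdef⟩ : ∃ c : K → (Fin D → Finset (Fin n)) → ℤ, ∀ i τ,
      c i τ = ∏ e, cf (τ e) (vec (δ i) e) := ⟨_, fun _ _ => rfl⟩
  have hpS : ∀ i a, pts o (δ i) a ∈ S a := fun i a =>
    Pool.Agent.LibHD77.Comb.pts_mem h (δ i) (hS i) a
  -- the expansion
  have hexp : ∀ i, Φ (δ i) = ∑ τ : Fin D → Finset (Fin n),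
      c i τ • (G1 (Finset.univ.image τ) + ∑ a, G2 (Finset.univ.image τ) a (pts o (δ i) a)) := by
    intro i
    rw [Pool.Agent.LibHD77.Comb.expand h (δ i) (V i) (hV i)]
    refine Finset.sum_congr rfl fun τ _ => ?_
    rw [hcdef]
    by_cases h0 : ∏ e, cf (τ e) (vec (δ i) e) = 0
    · rw [h0, zero_smul, zero_smul]
    · congr 1
      obtain ⟨hd, hi, -, -⟩ := u6_term h0
      rw [Gt_sum h τ hd _ (hpS i), hG1, Gt_enm h τ hd hi]
      congr 1
      refine Finset.sum_congr rfl fun a _ => ?_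
      rw [hG2, Gt_enm h τ hd hi, Gt_enm h τ hd hi]
  -- values in a block
  have hblk : ∀ i τ, c i τ ≠ 0 → ∀ T, Finset.univ.image τ = T → ∀ a, ¬ (∀ t ∈ T, a ∉ t) →
      pts o (δ i) a = o a := by
    intro i τ hc T hT a ha
    rw [hcdef] at hc
    obtain ⟨-, -, h1, -⟩ := u6_term hc
    push Not at ha
    obtain ⟨t, ht, hat⟩ := ha
    rw [← hT] at ht
    obtain ⟨e, -, rfl⟩ := Finset.mem_image.1 ht
    exact u6_pts (h1 e a hat)
  have hG2o : ∀ T a, G2 T a (o a) = 0 := by
    intro T a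
    rw [hG2, Function.update_eq_self, sub_self]
  -- first part
  have part1 : ∑ i, m i • ∑ τ : Fin D → Finset (Fin n),
      c i τ • χ (G1 (Finset.univ.image τ)) = 0 := by
    obtain ⟨𝔽⟩ := exists_fk (lS l ⟨0, hn⟩) (lS g ⟨0, hn⟩) (u6_hg hg ⟨0, hn⟩)
    have h2 := sft_main hg 𝔽 m (fun i e => vec (δ i) e) (fun _ _ => 0)
      (fun i => u6_ok (hV i) fun _ _ _ => rfl) (N ⟨0, hn⟩ 0 𝔽).1 (fun T => χ (G1 T)) ?_
    · simpa only [hcdef] using h2
    · have h3 := u6_haf H1 χ
      simpa only [hG1] using h3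
  -- second part
  have part2 : ∀ i₀ : Fin n, ∑ i, m i • ∑ τ : Fin D → Finset (Fin n), c i τ •
      ∑ a, (if l a = l i₀ then χ (G2 (Finset.univ.image τ) a (pts o (δ i) a)) else 0) = 0 := by
    intro i₀
    -- the homomorphisms
    have hμ : ∀ θ : Finset (Finset (Fin n)) × Fin n, ∃ μ : P i₀ →+ ℚ,
        l θ.2 = l i₀ → Dj (enm D θ.1) → ∀ s ∈ S θ.2, μ (val i₀ θ.2 s) = χ (G2 θ.1 θ.2 s) := by
      intro θ
      by_cases h1 : l θ.2 = l i₀ ∧ Dj (enm D θ.1)
      · obtain ⟨φ, hφ⟩ := Gt_lin h (enm D θ.1) h1.2 θ.2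
        obtain ⟨φ', hφ'⟩ := hP i₀ θ.2 h1.1 φ
        refine ⟨χ.comp φ', fun _ _ s hs => ?_⟩
        rw [AddMonoidHom.comp_apply, hφ', hG2, hφ s hs]
      · exact ⟨0, fun h2 h3 => absurd ⟨h2, h3⟩ h1⟩
    choose μ hμ using hμ
    obtain ⟨z, hz⟩ : ∃ z : Finset (Finset (Fin n)) × Fin n → P i₀, ∀ θ, z θ =
        if l θ.2 = l i₀ ∧ ∀ t ∈ θ.1, θ.2 ∉ t then
          ∑ i, ∑ τ : Fin D → Finset (Fin n), (if Finset.univ.image τ = θ.1 then
            (m i * c i τ) • val i₀ θ.2 (pts o (δ i) θ.2) else 0) else 0 := ⟨_, fun _ => rfl⟩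
    -- evaluation of additive functions
    have heval : ∀ (Y : Finset (Finset (Fin n)) × Fin n → P i₀ →+ ℚ),
        ∑ θ, Y θ (z θ) = ∑ i, m i • ∑ τ : Fin D → Finset (Fin n), c i τ •
          ∑ a, (if l a = l i₀ then (Y (Finset.univ.image τ, a))
            (val i₀ a (pts o (δ i) a)) else 0) := by
      intro Y
      have h1 : ∀ θ : Finset (Finset (Fin n)) × Fin n, Y θ (z θ) = ∑ i, ∑ τ : Fin D → Finset (Fin n),
          (if Finset.univ.image τ = θ.1 then (m i * c i τ) •
            (if l θ.2 = l i₀ then Y θ (val i₀ θ.2 (pts o (δ i) θ.2)) else 0) else 0) := by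
        intro θ
        rw [hz]
        by_cases h2 : l θ.2 = l i₀
        · by_cases h3 : ∀ t ∈ θ.1, θ.2 ∉ t
          · rw [if_pos ⟨h2, h3⟩, map_sum]
            refine Finset.sum_congr rfl fun i _ => ?_
            rw [map_sum]
            refine Finset.sum_congr rfl fun τ _ => ?_
            by_cases h4 : Finset.univ.image τ = θ.1
            · rw [if_pos h4, if_pos h4, if_pos h2, map_zsmul]
            · rw [if_neg h4, if_neg h4, map_zero]
          · rw [if_neg (fun h4 => h3 h4.2), map_zero]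
            symm
            refine Finset.sum_eq_zero fun i _ => Finset.sum_eq_zero fun τ _ => ?_
            by_cases h4 : Finset.univ.image τ = θ.1
            · rw [if_pos h4, if_pos h2]
              by_cases h5 : c i τ = 0
              · rw [h5, mul_zero, zero_smul]
              · rw [hblk i τ h5 θ.1 h4 θ.2 h3, P0, map_zero, smul_zero]
            · rw [if_neg h4]
        · rw [if_neg (fun h4 => h2 h4.1), map_zero]
          symm
          refine Finset.sum_eq_zero fun i _ => Finset.sum_eq_zero fun τ _ => ?_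
          rw [if_neg h2, smul_zero, ite_self]
      rw [Finset.sum_congr rfl fun θ _ => h1 θ, Finset.sum_comm]
      refine Finset.sum_congr rfl fun i _ => ?_
      rw [Finset.sum_comm, Finset.smul_sum]
      refine Finset.sum_congr rfl fun τ _ => ?_
      rw [Fintype.sum_prod_type, Finset.sum_eq_single (Finset.univ.image τ)]
      · rw [← mul_smul, Finset.smul_sum]
        refine Finset.sum_congr rfl fun a _ => ?_
        rw [if_pos rfl]
      · intro T _ hne'
        refine Finset.sum_eq_zero fun a _ => ?_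
        rw [if_neg (Ne.symm hne')]
      · intro h2
        exact absurd (Finset.mem_univ _) h2
    have hmul : ∀ (lam : P i₀ →+ ℚ) (r : ℚ), ∃ Y : P i₀ →+ ℚ, ∀ x, Y x = lam x * r := by
      intro lam r
      exact ⟨(AddMonoidHom.mulRight r).comp lam, fun x => rfl⟩
    have key : ∑ θ, μ θ (z θ) = 0 := by
      refine pairing {x | ∃ a s, l a = l i₀ ∧ s ∈ S a ∧ x = val i₀ a s} z ?_ μ ?_
      · intro θ
        rw [hz]
        split_ifs with h1
        · refine AddSubgroup.sum_mem _ fun i _ => AddSubgroup.sum_mem _ fun τ _ => ?_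
          split_ifs
          · refine AddSubgroup.zsmul_mem _ (AddSubgroup.subset_closure ?_) _
            exact ⟨θ.2, pts o (δ i) θ.2, h1.1, hpS i θ.2, rfl⟩
          · exact AddSubgroup.zero_mem _
        · exact AddSubgroup.zero_mem _
      · rintro lam x ⟨a₁, s₁, ha₁, hs₁, rfl⟩
        obtain ⟨q, hq⟩ := hQ i₀ a₁ s₁ ha₁ hs₁
        choose Y hY using fun θ => hmul lam (μ θ (val i₀ a₁ s₁))
        have h1 := heval Y
        simp only [hY] at h1
        rw [h1]
        obtain ⟨𝔽⟩ := exists_fk (lS l i₀) (lS g i₀) (u6_hg hg i₀)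
        have h2 := sft_star hg 𝔽 m (fun i e => vec (δ i) e)
          (fun i a => lam (val i₀ a (pts o (δ i) a)))
          (fun i => u6_ok (hV i) fun e a hea => by rw [u6_pts hea, P0, map_zero])
          (N i₀ lam 𝔽).2 (fun T a => χ (G2 T a (pt i₀ q a))) ?_
        · refine Eq.trans ?_ h2
          refine Finset.sum_congr rfl fun i _ => ?_
          congr 1
          refine Finset.sum_congr rfl fun τ _ => ?_
          rw [← hcdef]
          by_cases hc : c i τ = 0
          · rw [hc, zero_smul, zero_smul]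
          · congr 1
            refine Finset.sum_congr rfl fun a _ => ?_
            split_ifs with h3
            · rw [smul_eq_mul]
              congr 1
              obtain ⟨h4, h5⟩ := hq a h3
              rw [← h5]
              rw [hcdef] at hc
              exact hμ (Finset.univ.image τ, a) h3 (u6_term hc).2.2.2 _ h4
            · rfl
        · have h3 := u6_haf (H2 i₀ q) χ
          simp only [u6_gaS] at h3
          have h4 : (fun T : Finset (Finset (Fin (n + 1))) => gaS (fun T a => χ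
              (if l a = l i₀ ∧ ∀ t ∈ T, a ∉ t then
                Gt o Φ (enm D T) (Function.update o a (pt i₀ q a)) - Gt o Φ (enm D T) o
              else 0)) T) = gaS (fun T a => if l a = l i₀ ∧ ∀ t ∈ T, a ∉ t then
                χ (G2 T a (pt i₀ q a)) else 0) := by
            funext T
            congr 1
            funext T' a
            split_ifs
            · rw [hG2]
            · exact map_zero χ
          rw [h4] at h3
          exact h3
    rw [heval μ] at key
    refine Eq.trans ?_ key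
    refine Finset.sum_congr rfl fun i _ => ?_
    congr 1
    refine Finset.sum_congr rfl fun τ _ => ?_
    by_cases hc : c i τ = 0
    · rw [hc, zero_smul, zero_smul]
    · congr 1
      refine Finset.sum_congr rfl fun a _ => ?_
      split_ifs with h3
      · have hc' := hc
        rw [hcdef] at hc'
        exact (hμ (Finset.univ.image τ, a) h3 (u6_term hc').2.2.2 _ (hpS i a)).symm
      · rfl
  -- assembly
  have part3 : ∑ i, m i • ∑ τ : Fin D → Finset (Fin n), c i τ •
      ∑ a, χ (G2 (Finset.univ.image τ) a (pts o (δ i) a)) = 0 := by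
    have h1 : ∑ i, m i • ∑ τ : Fin D → Finset (Fin n), c i τ •
        ∑ a, χ (G2 (Finset.univ.image τ) a (pts o (δ i) a)) =
        ∑ a, ∑ i, m i • ∑ τ : Fin D → Finset (Fin n), c i τ •
          χ (G2 (Finset.univ.image τ) a (pts o (δ i) a)) := by
      rw [Finset.sum_comm]
      refine Finset.sum_congr rfl fun i _ => ?_
      rw [← Finset.smul_sum]
      congr 1
      rw [Finset.sum_comm]
      refine Finset.sum_congr rfl fun τ _ => ?_
      rw [Finset.smul_sum]
    rw [h1, ← Finset.sum_fiberwise_of_maps_to (g := l) (t := Finset.univ.image l)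
      (fun a _ => Finset.mem_image_of_mem l (Finset.mem_univ a))]
    refine Finset.sum_eq_zero fun y hy => ?_
    obtain ⟨i₀, -, rfl⟩ := Finset.mem_image.1 hy
    refine Eq.trans ?_ (part2 i₀)
    rw [Finset.sum_comm]
    refine Finset.sum_congr rfl fun i _ => ?_
    rw [← Finset.smul_sum]
    congr 1
    rw [Finset.sum_comm]
    refine Finset.sum_congr rfl fun τ _ => ?_
    rw [← Finset.smul_sum, Finset.sum_filter]
  rw [map_sum]
  have h4 : ∀ i, χ (m i • Φ (δ i)) =
      m i • ∑ τ : Fin D → Finset (Fin n), c i τ • χ (G1 (Finset.univ.image τ)) +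
      m i • ∑ τ : Fin D → Finset (Fin n), c i τ •
        ∑ a, χ (G2 (Finset.univ.image τ) a (pts o (δ i) a)) := by
    intro i
    rw [map_zsmul, hexp i, map_sum, ← smul_add, ← Finset.sum_add_distrib]
    congr 1
    refine Finset.sum_congr rfl fun τ _ => ?_
    rw [map_zsmul, map_add, map_sum, smul_add]
  rw [Finset.sum_congr rfl fun i _ => h4 i, Finset.sum_add_distrib, part1, part3, add_zero]


end Pool.Agent.LibHE77
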