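import Pool.Agent.LibHE77.U3
import Pool.Agent.LibHE77.U5
import Pool.Agent.LibHE77.U6
import Pool.Agent.LibHL77.X3

/-!
[HE77 U7] the condition (N*) implies torsion (assembly). `Sa f S i` = the points `s` of `C_i` with `jP s` in the saturation of the group generated by the classes of the points of `S i'` for all `i'` with `f i' = f i` (transported). `Sa_orth`: `sq_sat` (HD77 T4a) and: for `f i' = f i` the points of `S i'` and their transports have the same
`sq` (`subst`). `Sa_neg`: `jP_neg`. `Sa_tr`: `val_tr`-like (`subst`). Proof of `torsion_of_nst`. `n = 0`: `Vanish` holds: for `D > 0` there is no `i` (`hδ`), for `D = 0` (N*) for `R = ℚ`, `θ = 0` gives `∑ m i = 0`; `by_numbers` (F1), or directly: all `δ i` are equal. `n > 0`: `upper` (U6) for `S' = Sa f S`, `F = Pr ι f`, `l = F`, `g = gn ∘ F`,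
`P i₀ = Pic (F i₀)`, `val i₀ a s = if F a = F i₀ then jP (tr (F a) (F i₀) s) else 0`, `Q i₀ = {q : Pt (F i₀) // ∀ a, F a = F i₀ → tr (F i₀) (F a) q = .inf ∨ tr (F i₀) (F a) q ∈ S' (ι a)}`, `pt i₀ q a = tr (F i₀) (F a) q.1`; `H1`: `haf_geo` (U2), `H2`: `star_geo` (U3), `N`: `nst_vec` (U5) for `u i z = lam (val i₀ z (pts o (δ i) z))`: its
hypothesis is (N*) for `lam' = fnl0 (F i₀) lam` (HL77 X3; `lam' (F z) (fx (δ i) z) = lam (val i₀ z (pts ..))` for `F z = F i₀`, `val_tr`, `fx_eq`, `vec_eq`), `y` is zero outside the coordinates with `F z = F i₀`. The result in `CH / torsion`: `mk_eq_zero_iff` (F1).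
-/

open scoped Classical
open Polynomial

namespace Pool.Agent.LibHE77

open Pool.Agent.LibHyp34 (Hyp Pt Pic jP gn neg)
open Pool.Agent.LibHD77 (CH Dia og cl Orth Pr)
open Pool.Agent.LibHD77.Comb (Pat Sys Gt enm Cmp)
open Pool.Agent.LibHL77 (tr)
open Pool.Agent.LibLP34 (sat)

variable {k : Type} [Field k] [CharZero k] [IsAlgClosed k] {I : Type}

/-- the points whose classes are in the saturation of the group generated by the points of `S` on the curve -/
def Sa {k : Type} [Field k] {I : Type} (f : I → k[X]) [∀ i, Hyp (f i)] (S : ∀ i, Set (Pt (f i)))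
    (i : I) : Set (Pt (f i)) :=
  {s | jP s ∈ sat {x | ∃ i' p, f i' = f i ∧ p ∈ S i' ∧ x = jP (tr (f i') (f i) p)}}

omit [CharZero k] [IsAlgClosed k] in
private theorem U7_tr_self (g : k[X]) (s : Pt g) : tr g g s = s := by
  simp [tr]

omit [CharZero k] [IsAlgClosed k] in
private theorem U7_tr_inf (g h : k[X]) : tr g h (.inf : Pt g) = .inf := by
  by_cases e : g = h
  · subst e
    exact U7_tr_self g _
  · unfold tr
    rw [dif_neg e]

omit [CharZero k] [IsAlgClosed k] in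
private theorem U7_tr_tr {g g' g'' : k[X]} (e : g = g') (e' : g' = g'') (s : Pt g) :
    tr g' g'' (tr g g' s) = tr g g'' s := by
  subst e e'
  rw [U7_tr_self]

omit [CharZero k] [IsAlgClosed k] in
private theorem U7_sq {g g' h h' : k[X]} (e : g = g') (e' : h = h') (p : Pt g) (q : Pt h)
    (hs : IsOfFinAddOrder (LibHD77.sq p q)) :
    IsOfFinAddOrder (LibHD77.sq (tr g g' p) (tr h h' q)) := by
  subst e e'
  rw [U7_tr_self, U7_tr_self]
  exact hs

/-- the generators of the saturated group -/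
private def U7_gs (f : I → k[X]) (S : ∀ i, Set (Pt (f i))) (g : k[X]) [Hyp g] : Set (Pic g) :=
  {x | ∃ i' p, f i' = g ∧ p ∈ S i' ∧ x = jP (tr (f i') g p)}

omit [CharZero k] [IsAlgClosed k] in
private theorem U7_gs_tr (f : I → k[X]) (S : ∀ i, Set (Pt (f i))) {g g' : k[X]} (e : g = g')
    [Hyp g] [Hyp g'] (s : Pt g) (h : jP s ∈ sat (U7_gs f S g)) :
    jP (tr g g' s) ∈ sat (U7_gs f S g') := by
  subst e
  rw [U7_tr_self]
  exact h

theorem Sa_orth (f : I → k[X]) [∀ i, Hyp (f i)] (S : ∀ i, Set (Pt (f i))) (hS : Orth f S) :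
    Orth f (Sa f S) := by
  intro i j p hp q hq
  have e : ∀ i, {x | ∃ i' p, f i' = f i ∧ p ∈ S i' ∧ x = jP (tr (f i') (f i) p)} =
      jP '' {s : Pt (f i) | ∃ i' p, f i' = f i ∧ p ∈ S i' ∧ s = tr (f i') (f i) p} := by
    intro i
    ext x
    constructor
    · rintro ⟨i', p, h1, h2, rfl⟩
      exact ⟨_, ⟨i', p, h1, h2, rfl⟩, rfl⟩
    · rintro ⟨_, ⟨i', p, h1, h2, rfl⟩, rfl⟩
      exact ⟨i', p, h1, h2, rfl⟩
  refine LibHD77.sq_sat
    (S := {s : Pt (f i) | ∃ i' p, f i' = f i ∧ p ∈ S i' ∧ s = tr (f i') (f i) p})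
    (T := {s : Pt (f j) | ∃ i' p, f i' = f j ∧ p ∈ S i' ∧ s = tr (f i') (f j) p}) ?_ p q ?_ ?_
  · rintro _ ⟨i', p', h1, h2, rfl⟩ _ ⟨j', q', h3, h4, rfl⟩
    exact U7_sq h1 h3 p' q' (hS i' j' p' h2 q' h4)
  · rw [← e]
    exact hp
  · rw [← e]
    exact hq

theorem Sa_sub (f : I → k[X]) [∀ i, Hyp (f i)] (S : ∀ i, Set (Pt (f i))) (i : I) :
    S i ⊆ Sa f S i := by
  intro s hs
  show jP s ∈ sat {x | ∃ i' p, f i' = f i ∧ p ∈ S i' ∧ x = jP (tr (f i') (f i) p)}
  refine ⟨1, one_ne_zero, ?_⟩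
  rw [one_smul]
  refine AddSubgroup.subset_closure ⟨i, s, rfl, hs, ?_⟩
  rw [U7_tr_self]

theorem Sa_neg (f : I → k[X]) [∀ i, Hyp (f i)] (S : ∀ i, Set (Pt (f i))) (i : I)
    (s : Pt (f i)) (h : s ∈ Sa f S i) : neg s ∈ Sa f S i := by
  show jP (neg s) ∈ sat {x | ∃ i' p, f i' = f i ∧ p ∈ S i' ∧ x = jP (tr (f i') (f i) p)}
  rw [Pool.Agent.LibHyp34.jP_neg]
  exact neg_mem h

theorem Sa_tr (f : I → k[X]) [∀ i, Hyp (f i)] (S : ∀ i, Set (Pt (f i))) (i i' : I)
    (hi : f i = f i') (s : Pt (f i)) (h : s ∈ Sa f S i) : tr (f i) (f i') s ∈ Sa f S i' :=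
  U7_gs_tr f S hi s h

omit [CharZero k] [IsAlgClosed k] in
private theorem U7_hom {G : Type} [AddCommGroup G] {g g' : k[X]} (e : g = g') [Hyp g] [Hyp g']
    (φ : Pic g →+ G) : ∃ φ' : Pic g' →+ G, ∀ s : Pt g, φ' (jP (tr g g' s)) = φ (jP s) := by
  subst e
  exact ⟨φ, fun s => by rw [U7_tr_self]⟩

omit [CharZero k] [IsAlgClosed k] in
private theorem U7_fnl {g g' : k[X]} [Hyp g] [Hyp g'] (e : g' = g) (lam : Pic g →+ ℚ)
    (s : Pt g') : LibHL77.fnl0 g lam g' (jP s) = lam (jP (tr g' g s)) := by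
  subst e
  rw [U7_tr_self, LibHL77.fnl0_self]

omit [CharZero k] [IsAlgClosed k] in
private theorem U7_fx {n D : ℕ} {F : Fin n → k[X]} [∀ a, Hyp (F a)] (δ : Dia F D) (a : Fin n) :
    LibHD77.fx δ a = jP (LibHD77.Comb.pts (og F) δ a) := by
  unfold LibHD77.fx LibHD77.Comb.pts og
  rcases δ a with s | q
  · rfl
  · exact (Pool.Agent.LibHyp34.jP_inf (F a)).symm

private theorem U7_zero {A : Type} [AddCommGroup A] {K : Type} [Fintype K] (m : K → ℤ) (x : A)
    (h : ∑ i, m i = 0) : ∑ i, m i • x = 0 := by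
  rw [← Finset.sum_smul, h, zero_smul]

omit [CharZero k] [IsAlgClosed k] in
private theorem U7_mk {n D : ℕ} {F : Fin n → k[X]} {K : Type} [Fintype K] (m : K → ℤ)
    (δ : K → Dia F D) (h : ∑ i, m i • Fq F D (δ i) = 0) :
    IsOfFinAddOrder (∑ i, m i • cl (δ i)) := by
  rw [← LibHD77.mk_eq_zero_iff, ← h]
  have h1 := map_sum (QuotientAddGroup.mk' (AddCommGroup.torsion (CH F D)))
    (fun j => m j • cl (δ j)) Finset.univ
  refine h1.trans (Finset.sum_congr rfl fun j _ => ?_)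
  exact map_zsmul (QuotientAddGroup.mk' (AddCommGroup.torsion (CH F D))) _ _

theorem torsion_of_nst (f : I → k[X]) [∀ i, Hyp (f i)] (S : ∀ i, Set (Pt (f i)))
    (hS : Orth f S) {n D : ℕ} (ι : Fin n → I) {K : Type} [Fintype K] (m : K → ℤ)
    (δ : K → Dia (Pr ι f) D) (hδ : ∀ i, ∃ V : Fin D → k[X], Cmp (Pr ι f) (δ i) V)
    (hs : ∀ i a s, δ i a = .inl s → s = .inf ∨ s ∈ S (ι a)) (hN : NSt m δ) :
    IsOfFinAddOrder (∑ i, m i • cl (δ i)) := by
  rcases Nat.eq_zero_or_pos n with hn | hn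
  · subst hn
    rcases Nat.eq_zero_or_pos D with hD | hD
    · subst hD
      have h0 : Cond (Pr ι f) (fun a => gn (Pr ι f a)) (0 : QuadraticMap ℤ (Fin 0 → ℤ) ℚ)
          (fun _ => 0) := fun a => a.elim0
      have h1 := (hN ℚ inferInstance inferInstance 0 (fun _ => 0) (fun _ => 0) h0).1
      simp only [Finset.univ_eq_empty, Finset.prod_empty, zsmul_eq_mul, mul_one] at h1
      have h2 : ∑ i, m i = 0 := by exact_mod_cast h1
      rcases isEmpty_or_nonempty K with hK | ⟨⟨i₁⟩⟩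
      · simp only [Finset.univ_eq_empty, Finset.sum_empty]
        exact IsOfFinAddOrder.zero
      · have h3 : ∀ i, δ i = δ i₁ := fun i => funext fun a => a.elim0
        have h4 : ∑ i, m i • cl (δ i) = ∑ i, m i • cl (δ i₁) :=
          Finset.sum_congr rfl fun i _ => by rw [h3 i]
        rw [h4, U7_zero m (cl (δ i₁)) h2]
        exact IsOfFinAddOrder.zero
    · have hK : IsEmpty K := by
        refine ⟨fun i => ?_⟩
        obtain ⟨V, hV⟩ := hδ i
        obtain ⟨a, _⟩ := hV.1 ⟨0, hD⟩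
        exact a.elim0
      simp only [Finset.univ_eq_empty, Finset.sum_empty]
      exact IsOfFinAddOrder.zero
  · have hS' : Orth f (Sa f S) := Sa_orth f S hS
    have hneg : ∀ i, ∀ s ∈ Sa f S i, neg s ∈ Sa f S i := fun i s h => Sa_neg f S i s h
    have hg : ∀ a b, Pr ι f a = Pr ι f b → gn (Pr ι f a) = gn (Pr ι f b) := fun a b h => by
      rw [h]
    apply U7_mk
    refine upper (sys_Fq f (Sa f S) hS' (D := D) ι) hn (fun a => gn (Pr ι f a)) hg m δ hδ ?_
      (fun i₀ => Pic (Pr ι f i₀))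
      (fun i₀ a s => if Pr ι f a = Pr ι f i₀ then jP (tr (Pr ι f a) (Pr ι f i₀) s) else 0) ?_ ?_
      (fun i₀ => {q : Pt (Pr ι f i₀) // ∀ a, Pr ι f a = Pr ι f i₀ →
        tr (Pr ι f i₀) (Pr ι f a) q = .inf ∨ tr (Pr ι f i₀) (Pr ι f a) q ∈ Sa f S (ι a)})
      (fun i₀ q a => tr (Pr ι f i₀) (Pr ι f a) q.1) ?_ (haf_geo f ι D (og (Pr ι f)))
      ?_ ?_
    · intro i a s h
      rcases hs i a s h with h1 | h1
      · exact Or.inl h1
      · exact Or.inr (Sa_sub f S (ι a) h1)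
    · intro i₀ a
      by_cases h : Pr ι f a = Pr ι f i₀
      · rw [if_pos h]
        show jP (tr (Pr ι f a) (Pr ι f i₀) .inf) = 0
        rw [U7_tr_inf]
        exact Pool.Agent.LibHyp34.jP_inf (Pr ι f i₀)
      · rw [if_neg h]
    · intro i₀ a h φ
      obtain ⟨φ', hφ⟩ := U7_hom h φ
      refine ⟨φ', fun s => ?_⟩
      rw [if_pos h]
      exact hφ s
    · intro i₀ a s h hsa
      have hkey : ∀ b, Pr ι f b = Pr ι f i₀ → tr (Pr ι f i₀) (Pr ι f b)
          (tr (Pr ι f a) (Pr ι f i₀) s) = tr (Pr ι f a) (Pr ι f b) s := fun b hb =>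
        U7_tr_tr h hb.symm s
      have hmem : ∀ b, Pr ι f b = Pr ι f i₀ → tr (Pr ι f i₀) (Pr ι f b)
          (tr (Pr ι f a) (Pr ι f i₀) s) = .inf ∨ tr (Pr ι f i₀) (Pr ι f b)
          (tr (Pr ι f a) (Pr ι f i₀) s) ∈ Sa f S (ι b) := by
        intro b hb
        rw [hkey b hb]
        rcases hsa with h1 | h1
        · left
          rw [h1, U7_tr_inf]
        · right
          exact Sa_tr f S (ι a) (ι b) (h.trans hb.symm) s h1
      refine ⟨⟨tr (Pr ι f a) (Pr ι f i₀) s, hmem⟩, fun b hb => ⟨hmem b hb, ?_⟩⟩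
      rw [if_pos hb, if_pos h]
      show jP (tr (Pr ι f b) (Pr ι f i₀) (tr (Pr ι f i₀) (Pr ι f b)
        (tr (Pr ι f a) (Pr ι f i₀) s))) = _
      rw [hkey b hb, U7_tr_tr (h.trans hb.symm) hb s]
    · intro i₀ q
      have h5 := star_geo f (Sa f S) hS' hneg ι D i₀ q.1 q.2
      convert h5
    · intro i₀ lam 𝔽
      refine nst_vec hg 𝔽 m (fun i e => LibHD77.Comb.vec (δ i) e) _ ?_
      intro R cR aR θ d y hc hy
      obtain ⟨h1, h2⟩ := hN R cR aR θ d y hc
      have hv : ∀ i e, LibHD77.Comb.vec (δ i) e = LibHD77.vec (δ i) e := fun i e =>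
        LibHD77.vec_eq (δ i) e
      refine ⟨?_, ?_⟩
      · simp only [hv]
        exact h1
      · have h3 := h2 (LibHL77.fnl0 (Pr ι f i₀) lam)
        simp only [hv]
        rw [← h3]
        refine Finset.sum_congr rfl fun i _ => ?_
        congr 2
        refine Finset.sum_congr rfl fun z _ => ?_
        by_cases hz : Pr ι f z = Pr ι f i₀
        · congr 2
          rw [if_pos hz, U7_fx, U7_fnl hz]
        · rw [hy z hz, mul_zero, mul_zero]

end Pool.Agent.LibHE77
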